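import Mathlib
import Pool.Agent.Helper669.Iter

/-!
# The finite support iteration of eventually different forcing
-/

namespace Pool.Agent.Helper669.EIter

open Cardinal Pool.Agent.Helper669.Iter

set_option linter.unusedSectionVars false

universe u

variable {I : Type u} [LinearOrder I] [WellFoundedLT I]

/-- countable unions of basic sets -/
def COpen (B : Set (Rep I)) (ξ : I) (U : Set (Om I)) : Prop :=
  ∃ A ⊆ B, A.Countable ∧ U = ⋃ q ∈ A, bs q ξ

/-- promises saying that the new function is eventually different from a named function -/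
def EStep (B : Set (Rep I)) (ξ : I) : Set (Pr I) :=
  {R | (∀ n m, COpen B ξ (R n m)) ∧
    ∀ n, ∀ q ∈ B, ∃ q' ∈ B, q' ≤ q ∧ ∃ m₀, ∀ m, m ≠ m₀ → bs q' ξ ⊆ R n m}

/-- the admissible promises, by recursion -/
noncomputable def ER : I → Set (Pr I) :=
  WellFoundedLT.fix (motive := fun _ : I => Set (Pr I)) fun ξ f =>
    EStep {r | (∀ η, ∀ h : η < ξ, ∀ R ∈ r.pr η, R ∈ f η h) ∧ Below r ξ} ξ

theorem ER_eq (ξ : I) : ER ξ = EStep (Vd ER ξ) ξ := by
  rw [ER, WellFoundedLT.fix_eq]
  congr 1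
  ext r
  constructor
  · rintro ⟨h1, h2⟩
    refine ⟨fun η R hR => ?_, h2⟩
    by_cases hη : η < ξ
    · exact h1 η hη R hR
    · rw [(h2 η (not_lt.1 hη)).2] at hR
      exact absurd hR (Finset.notMem_empty R)
  · rintro ⟨h1, h2⟩
    exact ⟨fun η _ R hR => h1 η R hR, h2⟩

theorem finset_amal (ξ : I) (F : Finset (Pr I)) : (∀ R ∈ F, R ∈ ER ξ) → ∀ n, ∀ q ∈ Vd ER ξ,
    ∃ q' ∈ Vd ER ξ, q' ≤ q ∧ ∃ D : Finset ℕ, ∀ m ∉ D, ∀ R ∈ F, bs q' ξ ⊆ R n m := by
  classical
  induction F using Finset.induction_on with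
  | empty => intro _ n q hq; exact ⟨q, hq, le_rfl, ∅, by simp⟩
  | insert R F _ ih =>
    intro h n q hq
    obtain ⟨q', hq', hle, D, hD⟩ := ih (fun R hR => h R (Finset.mem_insert_of_mem hR)) n q hq
    have hR := h R (Finset.mem_insert_self R F)
    rw [ER_eq] at hR
    obtain ⟨q'', hq'', hle', m₀, hm₀⟩ := hR.2 n q' hq'
    refine ⟨q'', hq'', hle'.trans hle, insert m₀ D, fun m hm R' hR' => ?_⟩
    rw [Finset.mem_insert, not_or] at hm
    rcases Finset.mem_insert.1 hR' with rfl | hR'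
    · exact hm₀ m hm.1
    · exact (bs_le hle' ξ).trans (hD m hm.2 R' hR')

theorem good (ξ : I) : Good (ER : I → Set (Pr I)) ξ where
  opn R hR n m w hw := by
    rw [ER_eq] at hR
    obtain ⟨A, hA, _, hU⟩ := hR.1 n m
    rw [hU] at hw ⊢
    simp only [Set.mem_iUnion] at hw
    obtain ⟨q, hq, hwq⟩ := hw
    exact ⟨q, hA hq, hwq, Set.subset_biUnion_of_mem (u := fun q => bs q ξ) hq⟩
  amal F hF n q hq := by
    obtain ⟨q', hq', hle, D, hD⟩ := finset_amal ξ F hF n q hq
    obtain ⟨m, hm⟩ := Infinite.exists_notMem_finset D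
    exact ⟨q', hq', hle, m, hD m hm⟩

/-- the stem at `η` can be extended by a number from any given infinite set -/
theorem exists_push {r : Rep I} {τ η : I} (hr : r ∈ Vd ER τ) (hη : η < τ) (J : Set ℕ)
    (hJ : J.Infinite) : ∃ m ∈ J, ∃ r' ∈ Vd ER τ, r' ≤ r ∧ r'.st η = r.st η ++ [m] := by
  obtain ⟨q, hq, hle, D, hD⟩ := finset_amal η (r.pr η) (hr.1 η) (r.st η).length (res r η)
    (res_mem hr.1 η)
  obtain ⟨m, hm, hmD⟩ := hJ.exists_notMem_finset D
  refine ⟨m, hm, push (glue q r η) η m, push_mem (glue_mem hq hr hη.le) hη m, ?_, ?_⟩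
  · refine le_trans (push_le fun R hR => ?_) (glue_le hle)
    rw [glue_pr_ge le_rfl] at hR
    rw [glue_st_ge le_rfl, bs_glue le_rfl]
    exact hD m hmD R hR
  · rw [push_st_self, glue_st_ge le_rfl]

/-- adding a promise -/
noncomputable def addPr (r : Rep I) (η : I) (R : Pr I) : Rep I := by
  classical
  exact
  { st := r.st
    pr := fun ζ => if ζ = η then insert R (r.pr ζ) else r.pr ζ
    fin := by
      refine (r.fin.union (Set.finite_singleton η)).subset fun ζ hζ => ?_
      by_cases h : ζ = η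
      · right; exact h
      · left; simpa [h] using hζ }

theorem addPr_pr_self (r : Rep I) (η : I) (R : Pr I) : R ∈ (addPr r η R).pr η := by
  classical
  simp [addPr]

theorem addPr_st (r : Rep I) (η : I) (R : Pr I) : (addPr r η R).st = r.st := rfl

theorem addPr_le (r : Rep I) (η : I) (R : Pr I) : addPr r η R ≤ r := fun ζ => by
  classical
  refine ⟨List.prefix_refl _, ?_, fun _ _ _ h h' => absurd h' (not_lt.2 h)⟩
  by_cases h : ζ = η
  · simp [addPr, h]
  · simp [addPr, h]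

theorem addPr_mem {RR : I → Set (Pr I)} {r : Rep I} {τ η : I} {R : Pr I} (hr : r ∈ Vd RR τ)
    (hη : η < τ) (hR : R ∈ RR η) : addPr r η R ∈ Vd RR τ := by
  classical
  refine ⟨fun ζ R' hR' => ?_, fun ζ hζ => ⟨(hr.2 ζ hζ).1, ?_⟩⟩
  · by_cases h : ζ = η
    · subst h
      simp only [addPr, if_true, Finset.mem_insert] at hR'
      rcases hR' with rfl | hR'
      · exact hR
      · exact hr.1 _ _ hR'
    · simp only [addPr, h, if_false] at hR'
      exact hr.1 _ _ hR'
  · have h : ζ ≠ η := (hη.trans_le hζ).ne'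
    simp only [addPr, h, if_false]
    exact (hr.2 ζ hζ).2

/-! ### Counting -/

theorem mk_Vd_le {κ : Cardinal.{u}} (hκ : ℵ₀ ≤ κ) (hI : #I ≤ κ) {RR : I → Set (Pr I)} {τ : I}
    (h : ∀ ξ < τ, #(RR ξ) ≤ κ) : #(Vd RR τ) ≤ κ := by
  classical
  set U : Set (Pr I) := ⋃ ξ : Set.Iio τ, RR ξ.1 with hU
  have hUκ : #U ≤ κ := by
    rw [hU]
    refine (mk_iUnion_le _).trans ?_
    refine (mul_le_mul' ((mk_set_le (Set.Iio τ)).trans hI)
      (ciSup_le' fun ξ : Set.Iio τ => h ξ.1 ξ.2)).trans ?_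
    exact (mul_eq_self hκ).le
  -- code a condition by the finite set of its entries
  let code : Vd RR τ → Finset (I × List ℕ × Finset U) := fun r =>
    r.1.fin.toFinset.image fun η =>
      (η, r.1.st η, (r.1.pr η).subtype (· ∈ U))
  have hmem : ∀ (r : Vd RR τ) η, η ∈ supp r.1 → η < τ := by
    intro r η hη
    by_contra h'
    obtain ⟨h1, h2⟩ := r.2.2 η (not_lt.1 h')
    rcases hη with h | h
    · exact h h1
    · exact h h2
  have hinj : Function.Injective code := by
    intro r r' hrr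
    have hall : ∀ (a b : Vd RR τ), code a = code b → ∀ η ∈ supp a.1,
        η ∈ supp b.1 ∧ a.1.st η = b.1.st η ∧ a.1.pr η = b.1.pr η := by
      intro a b hab η hη
      have h1 : (η, a.1.st η, (a.1.pr η).subtype (· ∈ U)) ∈ code a :=
        Finset.mem_image_of_mem _ (by rw [Set.Finite.mem_toFinset]; exact hη)
      rw [hab] at h1
      obtain ⟨ζ, hζ, h2⟩ := Finset.mem_image.1 h1
      simp only [Prod.mk.injEq] at h2
      obtain ⟨rfl, h3, h4⟩ := h2
      refine ⟨by rw [Set.Finite.mem_toFinset] at hζ; exact hζ, h3.symm, ?_⟩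
      have hτ := hmem a ζ hη
      ext R
      have h5 := Finset.ext_iff.1 h4
      by_cases hR : R ∈ U
      · have := h5 ⟨R, hR⟩
        simpa using this.symm
      · constructor
        · intro h6
          exact absurd (Set.mem_iUnion.2 ⟨⟨ζ, hτ⟩, a.2.1 ζ R h6⟩) hR
        · intro h6
          exact absurd (Set.mem_iUnion.2 ⟨⟨ζ, hτ⟩, b.2.1 ζ R h6⟩) hR
    apply Subtype.ext
    ext1 <;> funext η
    · by_cases h1 : η ∈ supp r.1
      · exact (hall r r' hrr η h1).2.1
      · by_cases h2 : η ∈ supp r'.1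
        · exact (hall r' r hrr.symm η h2).2.1.symm
        · rw [(notMem_supp h1).1, (notMem_supp h2).1]
    · by_cases h1 : η ∈ supp r.1
      · exact (hall r r' hrr η h1).2.2
      · by_cases h2 : η ∈ supp r'.1
        · exact (hall r' r hrr.symm η h2).2.2.symm
        · rw [(notMem_supp h1).2, (notMem_supp h2).2]
  have hF : ∀ X : Type u, #X ≤ κ → #(Finset X) ≤ κ := by
    intro X hX
    by_cases hfin : Finite X
    · exact (mk_le_aleph0 (α := Finset X)).trans hκ
    · rw [not_finite_iff_infinite] at hfin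
      rw [mk_finset_of_infinite]
      exact hX
  refine (mk_le_of_injective hinj).trans (hF _ ?_)
  rw [mk_prod, mk_prod]
  simp only [lift_id, lift_uzero]
  have hL : lift.{u} #(List ℕ) ≤ κ := (lift_le_aleph0.2 mk_le_aleph0).trans hκ
  have h1 := mul_le_mul' hI (mul_le_mul' hL (hF _ hUκ))
  rw [mul_eq_self hκ, mul_eq_self hκ] at h1
  exact h1

theorem mk_EStep_le {κ : Cardinal.{u}} (hκ : ℵ₀ ≤ κ) (hpow : κ ^ ℵ₀ = κ) {B : Set (Rep I)} {ξ : I}
    (hB : #B ≤ κ) : #(EStep B ξ) ≤ κ := by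
  classical
  -- an admissible promise is determined by the countable sets
  let V : Type u := ℕ → ℕ → (ℕ → Option B)
  let val : V → Pr I := fun v n m => ⋃ (j : ℕ), ⋃ (q : B), ⋃ (_ : v n m j = some q), bs q.1 ξ
  have hsurj : ∀ R ∈ EStep B ξ, ∃ v : V, val v = R := by
    intro R hR
    have : ∀ n m, ∃ g : ℕ → Option B, ⋃ (j : ℕ), ⋃ (q : B), ⋃ (_ : g j = some q), bs q.1 ξ = R n m := by
      intro n m
      obtain ⟨A, hA, hAc, hU⟩ := hR.1 n m
      have hAc' : Countable A := hAc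
      by_cases hne : Nonempty A
      · obtain ⟨g, hg⟩ := exists_surjective_nat A
        refine ⟨fun j => some ⟨(g j).1, hA (g j).2⟩, ?_⟩
        rw [hU]
        ext w
        simp only [Set.mem_iUnion, Option.some.injEq]
        constructor
        · rintro ⟨j, q, rfl, hw⟩
          exact ⟨_, (g j).2, hw⟩
        · rintro ⟨q, hq, hw⟩
          obtain ⟨j, hj⟩ := hg ⟨q, hq⟩
          exact ⟨j, ⟨q, hA hq⟩, by simp [hj], hw⟩
      · refine ⟨fun _ => none, ?_⟩
        rw [hU]
        ext w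
        simp only [Set.mem_iUnion]
        constructor
        · rintro ⟨j, q, h, _⟩
          cases h
        · rintro ⟨q, hq, _⟩
          exact absurd ⟨⟨q, hq⟩⟩ hne
    choose g hg using this
    exact ⟨g, funext fun n => funext fun m => hg n m⟩
  have h1 : #(EStep B ξ) ≤ #V := by
    choose! v hv using hsurj
    refine mk_le_of_injective (f := fun R : EStep B ξ => v R.1) ?_
    intro R R' h
    apply Subtype.ext
    rw [← hv R.1 R.2, ← hv R'.1 R'.2]
    exact congrArg val h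
  refine h1.trans ?_
  have hO : #(Option B) ≤ κ := by
    rw [mk_option]
    exact (add_le_add hB (one_le_aleph0.trans hκ)).trans (add_eq_self hκ).le
  have h2 : ∀ X : Type u, #X ≤ κ → #(ℕ → X) ≤ κ := by
    intro X hX
    have : #(ℕ → X) = #X ^ ℵ₀ := by
      simp [mk_pi]
    rw [this]
    exact (power_le_power_right hX).trans hpow.le
  exact h2 _ (h2 _ (h2 _ hO))

theorem mk_ER_le {κ : Cardinal.{u}} (hκ : ℵ₀ ≤ κ) (hpow : κ ^ ℵ₀ = κ) (hI : #I ≤ κ) (ξ : I) :
    #(ER ξ : Set (Pr I)) ≤ κ := by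
  induction ξ using WellFoundedLT.induction with
  | ind ξ IH =>
    rw [ER_eq]
    exact mk_EStep_le hκ hpow (mk_Vd_le hκ hI IH)

theorem mk_conditions_le {κ : Cardinal.{u}} (hκ : ℵ₀ ≤ κ) (hpow : κ ^ ℵ₀ = κ) (hI : #I ≤ κ)
    (τ : I) : #(Vd ER τ : Set (Rep I)) ≤ κ :=
  mk_Vd_le hκ hI fun ξ _ => mk_ER_le hκ hpow hI ξ

end Pool.Agent.Helper669.EIter
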