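import Mathlib
import Pool.Agent.Helper669.EIter
import Pool.Agent.Helper669.Forcing

/-!
# The poset of the iteration of length `J`: basic facts
-/

namespace Pool.Agent.Helper669.Base

open Cardinal Pool.Agent.Helper669.Iter Pool.Agent.Helper669.EIter Pool.Agent.Helper669.Forcing

set_option linter.unusedSectionVars false

universe u

/-- the conditions of the iteration of length `J` -/
def Cond (J : Type u) [LinearOrder J] [WellFoundedLT J] : Type u :=
  {r : Rep (WithTop J) // r ∈ Vd ER ⊤}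

variable {J : Type u} [LinearOrder J] [WellFoundedLT J]

instance : Preorder (Cond J) := inferInstanceAs (Preorder {r : Rep (WithTop J) // r ∈ Vd ER ⊤})

theorem le_iff {p q : Cond J} : p ≤ q ↔ p.1 ≤ q.1 := Iff.rfl

instance : Nonempty (Cond J) := ⟨⟨one _, one_mem _ _⟩⟩

/-- compatibility -/
def Compat {P : Type u} [Preorder P] (p q : P) : Prop := ∃ s, s ≤ p ∧ s ≤ q

/-- the part of `p` below `ξ` -/
noncomputable def resP (p : Cond J) (ξ : WithTop J) : Cond J :=
  ⟨res p.1 ξ, adm_res p.2.1 ξ, (below_res p.1 ξ).mono le_top⟩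

/-- `q` below `ξ` and `p` from `ξ` on -/
noncomputable def glueP (q p : Cond J) (ξ : WithTop J) : Cond J :=
  ⟨glue q.1 p.1 ξ, adm_glue q.2.1 p.2.1 ξ, fun ζ hζ => by
    rw [glue_st_ge (le_top.trans hζ), glue_pr_ge (le_top.trans hζ)]; exact p.2.2 ζ hζ⟩

theorem resP_mem (p : Cond J) (ξ : WithTop J) : (resP p ξ).1 ∈ Vd ER ξ := res_mem p.2.1 ξ

theorem le_resP (p : Cond J) (ξ : WithTop J) : p ≤ resP p ξ := le_res p.1 ξ

theorem resP_le {p q : Cond J} {ξ : WithTop J} (h : p ≤ q) (hq : Below q.1 ξ) : resP p ξ ≤ q :=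
  res_le (r := p.1) (q := q.1) h hq

theorem glueP_le {q p : Cond J} {ξ : WithTop J} (h : q ≤ resP p ξ) : glueP q p ξ ≤ p :=
  glue_le (q := q.1) (r := p.1) h

theorem glueP_le_left {q p : Cond J} {ξ : WithTop J} (h : Below q.1 ξ) : glueP q p ξ ≤ q :=
  glue_le_left (q := q.1) (r := p.1) h

/-- a condition below `ξ` which is compatible with the part of `p` below `ξ` -/
theorem compat_res {q p : Cond J} {ξ : WithTop J} (hq : Below q.1 ξ) (h : Compat q (resP p ξ)) :
    ∃ s : Cond J, s ≤ q ∧ s ≤ p ∧ ∀ ζ, ξ ≤ ζ → s.1.st ζ = p.1.st ζ := by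
  obtain ⟨s, h1, h2⟩ := h
  have h3 : resP s ξ ≤ q := resP_le h1 hq
  have h4 : resP s ξ ≤ resP p ξ := resP_le h2 (below_res p.1 ξ)
  exact ⟨glueP (resP s ξ) p ξ, (glueP_le_left (below_res s.1 ξ)).trans h3, glueP_le h4,
    fun ζ hζ => glue_st_ge hζ⟩

/-! ### Chain condition and maximal antichains -/

theorem cond_ccc {Y : Type u} (f : Y → Cond J) (hY : ¬ Countable Y) :
    ∃ y y', y ≠ y' ∧ Compat (f y) (f y') := by
  obtain ⟨y, y', hne, q, hq, h1, h2⟩ := ccc (RR := ER) (τ := (⊤ : WithTop J)) (fun y => (f y).1)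
    (fun y => (f y).2) hY
  exact ⟨y, y', hne, ⟨q, hq⟩, h1, h2⟩

/-- inside every dense set there is a countable set compatible with everything, and consisting
of pairwise incompatible conditions -/
theorem exists_antichain (D : Set (Cond J)) (hD : ∀ p, ∃ q ≤ p, q ∈ D) :
    ∃ A ⊆ D, A.Countable ∧ (∀ p, ∃ a ∈ A, Compat a p) ∧
      ∀ a ∈ A, ∀ b ∈ A, Compat a b → a = b := by
  obtain ⟨A, hA⟩ := zorn_subset {A : Set (Cond J) | A ⊆ D ∧ ∀ a ∈ A, ∀ b ∈ A, Compat a b → a = b}
    (by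
      intro c hc hchain
      refine ⟨⋃₀ c, ⟨Set.sUnion_subset fun s hs => (hc hs).1, ?_⟩,
        fun s hs => Set.subset_sUnion_of_mem hs⟩
      rintro a ⟨s, hs, ha⟩ b ⟨t, ht, hb⟩ hab
      rcases hchain.total hs ht with h | h
      · exact (hc ht).2 a (h ha) b hb hab
      · exact (hc hs).2 a ha b (h hb) hab)
  refine ⟨A, hA.prop.1, ?_, ?_, hA.prop.2⟩
  · by_contra hcount
    have hcount' : ¬ Countable A := hcount
    obtain ⟨y, y', hne, h⟩ := cond_ccc (fun a : A => a.1) hcount'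
    exact hne (Subtype.ext (hA.prop.2 y.1 y.2 y'.1 y'.2 h))
  · intro p
    by_contra hcon
    push Not at hcon
    obtain ⟨q, hqp, hqD⟩ := hD p
    have hq : q ∉ A := by
      intro hq
      exact hcon q hq ⟨q, le_rfl, hqp⟩
    have hcon' : ∀ a ∈ A, ¬ Compat a q := by
      rintro a ha ⟨s, h1, h2⟩
      exact hcon a ha ⟨s, h1, h2.trans hqp⟩
    have hmem : insert q A ∈ {A : Set (Cond J) | A ⊆ D ∧ ∀ a ∈ A, ∀ b ∈ A, Compat a b → a = b} := by
      refine ⟨Set.insert_subset hqD hA.prop.1, ?_⟩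
      rintro a (rfl | ha) b (rfl | hb) hab
      · rfl
      · obtain ⟨s, h1, h2⟩ := hab
        exact absurd ⟨s, h2, h1⟩ (hcon' b hb)
      · exact absurd hab (hcon' a ha)
      · exact hA.prop.2 a ha b hb hab
    exact hq (hA.le_of_ge hmem (Set.subset_insert q A) (Set.mem_insert q A))

/-- the pigeonhole principle for conditions -/
theorem exists_compat_same {X Z : Type u} (h : #Z * ℵ₀ < #X) (f : X → Cond J) (z : X → Z) :
    ∃ x x', x ≠ x' ∧ z x = z x' ∧ Compat (f x) (f x') := by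
  have h1 : ∃ c, ¬ Countable {x // z x = c} := by
    by_contra hcon
    push Not at hcon
    have h2 : #X = Cardinal.sum fun c => #{x // z x = c} := by
      rw [← mk_sigma]
      exact (Equiv.sigmaFiberEquiv z).symm.cardinal_eq
    have h3 : #X ≤ #Z * ℵ₀ := by
      rw [h2]
      refine (Cardinal.sum_le_sum _ (fun _ => ℵ₀) fun c => ?_).trans ?_
      · have := hcon c
        exact mk_le_aleph0
      · rw [Cardinal.sum_const']
    exact absurd h3 (not_le.2 h)
  obtain ⟨c, hc⟩ := h1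
  obtain ⟨y, y', hne, hcomp⟩ := cond_ccc (fun x : {x // z x = c} => f x.1) hc
  exact ⟨y.1, y'.1, fun h => hne (Subtype.ext h), y.2.trans y'.2.symm, hcomp⟩

/-! ### Supports -/

/-- the supports of countably many conditions are bounded -/
theorem exists_below (hcof : ∀ S : Set J, S.Countable → ∃ b, ∀ s ∈ S, s < b)
    {A : Set (Cond J)} (hA : A.Countable) : ∃ b : J, ∀ a ∈ A, Below a.1 (b : WithTop J) := by
  obtain ⟨b, hb⟩ := hcof (⋃ a ∈ A, {j : J | (j : WithTop J) ∈ supp a.1}) (by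
    refine hA.biUnion fun a _ => ?_
    refine Set.Countable.preimage_of_injOn (a.1.fin.countable) ?_
    intro x _ y _ h
    exact WithTop.coe_injective h)
  refine ⟨b, fun a ha η hη => ?_⟩
  by_contra hcon
  have hs : η ∈ supp a.1 := by
    by_contra h
    exact hcon (notMem_supp h)
  induction η using WithTop.recTopCoe with
  | top => exact hcon (a.2.2 ⊤ le_rfl)
  | coe j =>
    have := hb j (Set.mem_biUnion ha hs)
    exact absurd (WithTop.coe_le_coe.1 hη) (not_le.2 this)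

/-! ### Extending stems -/

/-- The stem at `η` can be extended by a number from any given infinite set without changing
later stems. -/
theorem push_one (r : Cond J) (η : J) (S : Set ℕ) (hS : S.Infinite) :
    ∃ m ∈ S, ∃ r' ≤ r, r'.1.st (η : WithTop J) = r.1.st η ++ [m] ∧
      ∀ ζ : WithTop J, (η : WithTop J) < ζ → r'.1.st ζ = r.1.st ζ := by
  have hη : (η : WithTop J) < ⊤ := WithTop.coe_lt_top η
  obtain ⟨q, hq, hle, D, hD⟩ := finset_amal (η : WithTop J) (r.1.pr η) (r.2.1 η)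
    (r.1.st η).length (res r.1 η) (res_mem r.2.1 η)
  obtain ⟨m, hm, hmD⟩ := hS.exists_notMem_finset D
  refine ⟨m, hm, ⟨push (glue q r.1 η) η m, push_mem (glue_mem hq r.2 hη.le) hη m⟩, ?_, ?_, ?_⟩
  · show push (glue q r.1 η) η m ≤ r.1
    refine le_trans (push_le fun R hR => ?_) (glue_le hle)
    rw [glue_pr_ge le_rfl] at hR
    rw [glue_st_ge le_rfl, bs_glue le_rfl]
    exact hD m hmD R hR
  · show (push (glue q r.1 η) η m).st η = _
    rw [push_st_self, glue_st_ge le_rfl]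
  · intro ζ hζ
    show (push (glue q r.1 η) η m).st ζ = _
    rw [push_st_ne _ _ hζ.ne', glue_st_ge hζ.le]

/-- The stem at `η` can be lengthened arbitrarily without changing later stems. -/
theorem push_long (r : Cond J) (η : J) (N : ℕ) :
    ∃ r' ≤ r, N < (r'.1.st (η : WithTop J)).length ∧
      ∀ ζ : WithTop J, (η : WithTop J) < ζ → r'.1.st ζ = r.1.st ζ := by
  induction N with
  | zero =>
    obtain ⟨m, _, r', h1, h2, h3⟩ := push_one r η Set.univ Set.infinite_univ
    exact ⟨r', h1, by rw [h2]; simp, h3⟩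
  | succ N ih =>
    obtain ⟨r', h1, h2, h3⟩ := ih
    obtain ⟨m, _, r'', h4, h5, h6⟩ := push_one r' η Set.univ Set.infinite_univ
    refine ⟨r'', h4.trans h1, by rw [h5]; simp; omega, fun ζ hζ => (h6 ζ hζ).trans (h3 ζ hζ)⟩

/-! ### The generic reals -/

/-- the name of the generic function added at coordinate `ξ` -/
def Ee (ξ : J) (n m : ℕ) : Set (Cond J) :=
  {p | n < (p.1.st (ξ : WithTop J)).length ∧ (p.1.st (ξ : WithTop J)).getD n 0 = m}

/-- the name of the Cohen real obtained from the generic function added at coordinate `ξ` -/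
def Cc (ξ : J) (n m : ℕ) : Set (Cond J) :=
  {p | n < (p.1.st (ξ : WithTop J)).length ∧
    (Nat.unpair ((p.1.st (ξ : WithTop J)).getD n 0)).1 = m}

theorem st_mono {p q : Cond J} (h : p ≤ q) (ξ : WithTop J) {n : ℕ} (hn : n < (q.1.st ξ).length) :
    n < (p.1.st ξ).length ∧ (p.1.st ξ).getD n 0 = (q.1.st ξ).getD n 0 :=
  ⟨hn.trans_le (h ξ).1.length_le, (getD_prefix (h ξ).1 hn).symm⟩

theorem down_Ee (ξ : J) (n m : ℕ) : Down (Ee ξ n m) := by
  rintro p ⟨h1, h2⟩ q hq
  obtain ⟨h3, h4⟩ := st_mono hq ξ h1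
  exact ⟨h3, h4.trans h2⟩

theorem down_Cc (ξ : J) (n m : ℕ) : Down (Cc ξ n m) := by
  rintro p ⟨h1, h2⟩ q hq
  obtain ⟨h3, h4⟩ := st_mono hq ξ h1
  exact ⟨h3, by rw [h4]; exact h2⟩

theorem isFun_Cc (ξ : J) (p : Cond J) : p ∈ IsFun (Cc ξ) := by
  refine ⟨fun n => mem_fex.2 fun q _ => ?_, fun n m m' => mem_fimp.2 fun q _ h => ?_⟩
  · obtain ⟨r, hr, hlen, _⟩ := push_long q ξ n
    exact ⟨r, hr, _, meets_of_mem ⟨hlen, rfl⟩⟩
  · obtain ⟨r, hr, h1⟩ := exists_of_meets (down_Cc ξ n m) h.1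
    obtain ⟨s, hs, h2⟩ := exists_of_meets (down_Cc ξ n m') (down_meets _ _ h.2 r hr)
    have h3 := down_Cc ξ n m r h1 s hs
    exact ⟨q, le_rfl, h3.2.symm.trans h2.2⟩

end Pool.Agent.Helper669.Base
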