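import Mathlib
import Pool.Agent.Helper669.Iter

/-!
# The poset of a finite support iteration of length `J`: basic facts
-/

namespace Pool.Agent.Helper669.GBase

open Cardinal Pool.Agent.Helper669.Iter

set_option linter.unusedSectionVars false

universe u

variable {J : Type u} [LinearOrder J] [WellFoundedLT J]

/-- the conditions of the iteration of length `J` -/
def Cd (RR : WithTop J → Set (Pr (WithTop J))) : Type u :=
  {r : Rep (WithTop J) // r ∈ Vd RR ⊤}

variable {RR : WithTop J → Set (Pr (WithTop J))}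

instance : Preorder (Cd RR) := inferInstanceAs (Preorder {r : Rep (WithTop J) // r ∈ Vd RR ⊤})

instance : Nonempty (Cd RR) := ⟨⟨one _, one_mem _ _⟩⟩

/-- compatibility -/
def Compat {P : Type u} [Preorder P] (p q : P) : Prop := ∃ s, s ≤ p ∧ s ≤ q

/-- the part of `p` below `ξ` -/
noncomputable def resP (p : Cd RR) (ξ : WithTop J) : Cd RR :=
  ⟨res p.1 ξ, adm_res p.2.1 ξ, (below_res p.1 ξ).mono le_top⟩

/-- `q` below `ξ` and `p` from `ξ` on -/
noncomputable def glueP (q p : Cd RR) (ξ : WithTop J) : Cd RR :=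
  ⟨glue q.1 p.1 ξ, adm_glue q.2.1 p.2.1 ξ, fun ζ hζ => by
    rw [glue_st_ge (le_top.trans hζ), glue_pr_ge (le_top.trans hζ)]; exact p.2.2 ζ hζ⟩

theorem resP_mem (p : Cd RR) (ξ : WithTop J) : (resP p ξ).1 ∈ Vd RR ξ := res_mem p.2.1 ξ

theorem le_resP (p : Cd RR) (ξ : WithTop J) : p ≤ resP p ξ := le_res p.1 ξ

theorem resP_le {p q : Cd RR} {ξ : WithTop J} (h : p ≤ q) (hq : Below q.1 ξ) : resP p ξ ≤ q :=
  res_le (r := p.1) (q := q.1) h hq

theorem resP_mono {p q : Cd RR} (h : p ≤ q) (ξ : WithTop J) : resP p ξ ≤ resP q ξ :=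
  res_mono (r := p.1) (q := q.1) h ξ

theorem glueP_le {q p : Cd RR} {ξ : WithTop J} (h : q ≤ resP p ξ) : glueP q p ξ ≤ p :=
  glue_le (q := q.1) (r := p.1) h

theorem glueP_le_left {q p : Cd RR} {ξ : WithTop J} (h : Below q.1 ξ) : glueP q p ξ ≤ q :=
  glue_le_left (q := q.1) (r := p.1) h

/-- a condition below `ξ` which is compatible with the part of `p` below `ξ` -/
theorem compat_res {q p : Cd RR} {ξ : WithTop J} (hq : Below q.1 ξ) (h : Compat q (resP p ξ)) :
    ∃ s : Cd RR, s ≤ q ∧ s ≤ p ∧ ∀ ζ, ξ ≤ ζ → s.1.st ζ = p.1.st ζ ∧ s.1.pr ζ = p.1.pr ζ := by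
  obtain ⟨s, h1, h2⟩ := h
  have h3 : resP s ξ ≤ q := resP_le h1 hq
  have h4 : resP s ξ ≤ resP p ξ := resP_le h2 (below_res p.1 ξ)
  exact ⟨glueP (resP s ξ) p ξ, (glueP_le_left (below_res s.1 ξ)).trans h3, glueP_le h4,
    fun ζ hζ => ⟨glue_st_ge hζ, glue_pr_ge hζ⟩⟩

/-! ### Chain condition and maximal antichains -/

theorem cond_ccc {Y : Type u} (f : Y → Cd RR) (hY : ¬ Countable Y) :
    ∃ y y', y ≠ y' ∧ Compat (f y) (f y') := by
  obtain ⟨y, y', hne, q, hq, h1, h2⟩ := ccc (RR := RR) (τ := (⊤ : WithTop J)) (fun y => (f y).1)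
    (fun y => (f y).2) hY
  exact ⟨y, y', hne, ⟨q, hq⟩, h1, h2⟩

/-- inside every dense set there is a countable set compatible with everything, and consisting
of pairwise incompatible conditions -/
theorem exists_antichain (D : Set (Cd RR)) (hD : ∀ p, ∃ q ≤ p, q ∈ D) :
    ∃ A ⊆ D, A.Countable ∧ (∀ p, ∃ a ∈ A, Compat a p) ∧
      ∀ a ∈ A, ∀ b ∈ A, Compat a b → a = b := by
  obtain ⟨A, hA⟩ := zorn_subset {A : Set (Cd RR) | A ⊆ D ∧ ∀ a ∈ A, ∀ b ∈ A, Compat a b → a = b}
    (by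
      intro c hc hchain
      refine ⟨⋃₀ c, ⟨Set.sUnion_subset fun s hs => (hc hs).1, ?_⟩,
        fun s hs => Set.subset_sUnion_of_mem hs⟩
      rintro a ⟨s, hs, ha⟩ b ⟨t, ht, hb⟩ hab
      rcases hchain.total hs ht with h | h
      · exact (hc ht).2 a (h ha) b hb hab
      · exact (hc hs).2 a ha b (h hb) hab)
  refine ⟨A, hA.prop.1, ?_, ?_, hA.prop.2⟩
  · by_contra hcount
    have hcount' : ¬ Countable A := hcount
    obtain ⟨y, y', hne, h⟩ := cond_ccc (fun a : A => a.1) hcount'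
    exact hne (Subtype.ext (hA.prop.2 y.1 y.2 y'.1 y'.2 h))
  · intro p
    by_contra hcon
    push Not at hcon
    obtain ⟨q, hqp, hqD⟩ := hD p
    have hq : q ∉ A := by
      intro hq
      exact hcon q hq ⟨q, le_rfl, hqp⟩
    have hcon' : ∀ a ∈ A, ¬ Compat a q := by
      rintro a ha ⟨s, h1, h2⟩
      exact hcon a ha ⟨s, h1, h2.trans hqp⟩
    have hmem : insert q A ∈ {A : Set (Cd RR) | A ⊆ D ∧ ∀ a ∈ A, ∀ b ∈ A, Compat a b → a = b} := by
      refine ⟨Set.insert_subset hqD hA.prop.1, ?_⟩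
      rintro a (rfl | ha) b (rfl | hb) hab
      · rfl
      · obtain ⟨s, h1, h2⟩ := hab
        exact absurd ⟨s, h2, h1⟩ (hcon' b hb)
      · exact absurd hab (hcon' a ha)
      · exact hA.prop.2 a ha b hb hab
    exact hq (hA.le_of_ge hmem (Set.subset_insert q A) (Set.mem_insert q A))

/-- the pigeonhole principle for conditions -/
theorem exists_compat_same {X Z : Type u} (h : #Z * ℵ₀ < #X) (f : X → Cd RR) (z : X → Z) :
    ∃ x x', x ≠ x' ∧ z x = z x' ∧ Compat (f x) (f x') := by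
  have h1 : ∃ c, ¬ Countable {x // z x = c} := by
    by_contra hcon
    push Not at hcon
    have h2 : #X = Cardinal.sum fun c => #{x // z x = c} := by
      rw [← mk_sigma]
      exact (Equiv.sigmaFiberEquiv z).symm.cardinal_eq
    have h3 : #X ≤ #Z * ℵ₀ := by
      rw [h2]
      refine (Cardinal.sum_le_sum _ (fun _ => ℵ₀) fun c => ?_).trans ?_
      · have := hcon c
        exact mk_le_aleph0
      · rw [Cardinal.sum_const']
    exact absurd h3 (not_le.2 h)
  obtain ⟨c, hc⟩ := h1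
  obtain ⟨y, y', hne, hcomp⟩ := cond_ccc (fun x : {x // z x = c} => f x.1) hc
  exact ⟨y.1, y'.1, fun h => hne (Subtype.ext h), y.2.trans y'.2.symm, hcomp⟩

/-! ### Supports -/

/-- the supports of at most `κ` conditions are bounded -/
theorem exists_below {κ : Cardinal.{u}} (hκ : ℵ₀ ≤ κ)
    (hcof : ∀ S : Set J, #S ≤ κ → ∃ b, ∀ s ∈ S, s < b)
    {A : Set (Cd RR)} (hA : #A ≤ κ) : ∃ b : J, ∀ a ∈ A, Below a.1 (b : WithTop J) := by
  obtain ⟨b, hb⟩ := hcof (⋃ a : A, {j : J | (j : WithTop J) ∈ supp a.1.1}) (by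
    refine (mk_iUnion_le_sum_mk).trans ?_
    refine (Cardinal.sum_le_sum _ (fun _ => ℵ₀) fun a => ?_).trans ?_
    · have h1 : Set.Countable {j : J | (j : WithTop J) ∈ supp a.1.1} := by
        refine Set.Countable.preimage_of_injOn (a.1.1.fin.countable) ?_
        intro x _ y _ h
        exact WithTop.coe_injective h
      exact Cardinal.le_aleph0_iff_set_countable.2 h1
    · rw [Cardinal.sum_const']
      exact (mul_le_mul' hA hκ).trans (mul_eq_self hκ).le)
  refine ⟨b, fun a ha η hη => ?_⟩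
  by_contra hcon
  have hs : η ∈ supp a.1 := by
    by_contra h
    exact hcon (notMem_supp h)
  induction η using WithTop.recTopCoe with
  | top => exact hcon (a.2.2 ⊤ le_rfl)
  | coe j =>
    have := hb j (Set.mem_iUnion.2 ⟨⟨a, ha⟩, hs⟩)
    exact absurd (WithTop.coe_le_coe.1 hη) (not_le.2 this)

theorem st_mono {p q : Cd RR} (h : p ≤ q) (ξ : WithTop J) {n : ℕ} (hn : n < (q.1.st ξ).length) :
    n < (p.1.st ξ).length ∧ (p.1.st ξ).getD n 0 = (q.1.st ξ).getD n 0 :=
  ⟨hn.trans_le (h ξ).1.length_le, (getD_prefix (h ξ).1 hn).symm⟩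

end Pool.Agent.Helper669.GBase
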