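import Mathlib
import Pool.Agent.Helper669.GBase

/-!
# Easton's lemma
-/

namespace Pool.Agent.Helper669.Easton

open Cardinal Pool.Agent.Helper669.GBase

universe u

/-- If antichains of `B` have size less than `κ` and chains of `T` of size less than `κ` have
lower bounds, then below every `t` there is `t'` such that for fewer than `κ` many given open
dense subsets of the product, the section at `t'` is dense in `B`. -/
theorem easton {B T : Type u} [Preorder B] [Preorder T] {κ : Cardinal.{u}} (hκ : κ.IsRegular)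
    (hcc : ∀ A : Set B, (∀ a ∈ A, ∀ b ∈ A, Compat a b → a = b) → #A < κ)
    (hclosed : ∀ S : Set T, (∀ s ∈ S, ∀ t ∈ S, s ≤ t ∨ t ≤ s) → #S < κ → S.Nonempty →
      ∃ t, ∀ s ∈ S, t ≤ s)
    {Λ : Type u} (hΛ : #Λ < κ) (D : Λ → B → T → Prop)
    (hdown : ∀ i b t, D i b t → ∀ b' ≤ b, ∀ t' ≤ t, D i b' t')
    (hdense : ∀ i b t, ∃ b' ≤ b, ∃ t' ≤ t, D i b' t') (t : T) :
    ∃ t' ≤ t, ∀ i b, ∃ b' ≤ b, D i b' t' := by
  classical
  let X : Type u := {z : T × (Λ → Set B) // z.1 ≤ t ∧ ∀ i, (∀ a ∈ z.2 i, ∀ b ∈ z.2 i,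
    Compat a b → a = b) ∧ ∀ a ∈ z.2 i, D i a z.1}
  let r : X → X → Prop := fun z z' => z'.1.1 ≤ z.1.1 ∧ (∀ i, z.1.2 i ⊆ z'.1.2 i) ∧ z.1.2 ≠ z'.1.2
  obtain ⟨hchain, hmax⟩ := maxChain_spec (r := r)
  set C : Set X := maxChain r with hC
  -- the family of unions
  let U : Λ → Set B := fun i => ⋃ c ∈ C, c.1.2 i
  have hcomp : ∀ c ∈ C, ∀ c' ∈ C, c ≠ c' → r c c' ∨ r c' c := fun c hc c' hc' h => hchain hc hc' h
  have hUanti : ∀ i, ∀ a ∈ U i, ∀ b ∈ U i, Compat a b → a = b := by
    intro i a ha b hb hab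
    simp only [U, Set.mem_iUnion] at ha hb
    obtain ⟨c, hc, ha⟩ := ha
    obtain ⟨c', hc', hb⟩ := hb
    by_cases h : c = c'
    · subst h
      exact (c.2.2 i).1 a ha b hb hab
    · rcases hcomp c hc c' hc' h with h' | h'
      · exact (c'.2.2 i).1 a (h'.2.1 i ha) b hb hab
      · exact (c.2.2 i).1 a ha b (h'.2.1 i hb) hab
  by_cases hcase : ∃ c ∈ C, c.1.2 = U
  · obtain ⟨c, hc, hcU⟩ := hcase
    refine ⟨c.1.1, c.2.1, fun i b => ?_⟩
    by_contra hcon
    push Not at hcon
    -- extend the family by one more element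
    obtain ⟨b', hb', t', ht', hD⟩ := hdense i b c.1.1
    have hb'c : ∀ a ∈ c.1.2 i, ¬ Compat a b' := by
      rintro a ha ⟨s, hs1, hs2⟩
      exact hcon s (hs2.trans hb') (hdown i a _ ((c.2.2 i).2 a ha) s hs1 _ le_rfl)
    have hb'n : b' ∉ c.1.2 i := fun h => hb'c b' h ⟨b', le_rfl, le_rfl⟩
    let A' : Λ → Set B := fun j => if j = i then insert b' (c.1.2 j) else c.1.2 j
    have hA'i : A' i = insert b' (c.1.2 i) := by simp [A']
    have hA'j : ∀ j, j ≠ i → A' j = c.1.2 j := fun j hj => by simp [A', hj]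
    let z : X := ⟨(t', A'), ht'.trans c.2.1, fun j => by
      by_cases hj : j = i
      · subst hj
        show (∀ a ∈ A' j, ∀ b ∈ A' j, Compat a b → a = b) ∧ ∀ a ∈ A' j, D j a t'
        rw [hA'i]
        refine ⟨?_, ?_⟩
        · rintro a (rfl | ha) b (rfl | hb) hab
          · rfl
          · obtain ⟨s, h1, h2⟩ := hab
            exact absurd ⟨s, h2, h1⟩ (hb'c b hb)
          · exact absurd hab (hb'c a ha)
          · exact (c.2.2 j).1 a ha b hb hab
        · rintro a (rfl | ha)
          · exact hD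
          · exact hdown j a _ ((c.2.2 j).2 a ha) a le_rfl _ ht'
      · show (∀ a ∈ A' j, ∀ b ∈ A' j, Compat a b → a = b) ∧ ∀ a ∈ A' j, D j a t'
        rw [hA'j j hj]
        exact ⟨(c.2.2 j).1, fun a ha => hdown j a _ ((c.2.2 j).2 a ha) a le_rfl _ ht'⟩⟩
    have hcz : r c z := by
      refine ⟨ht', fun j => ?_, fun h => ?_⟩
      · show c.1.2 j ⊆ A' j
        by_cases hj : j = i
        · subst hj; rw [hA'i]; exact Set.subset_insert _ _
        · rw [hA'j j hj]
      · have h1 : c.1.2 i = A' i := congrFun h i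
        rw [hA'i] at h1
        exact hb'n (h1 ▸ Set.mem_insert _ _)
    have hall : ∀ c' ∈ C, r c' z := by
      intro c' hc'
      by_cases h : c' = c
      · subst h; exact hcz
      · rcases hcomp c' hc' c hc h with h' | h'
        · refine ⟨hcz.1.trans h'.1, fun j => (h'.2.1 j).trans (hcz.2.1 j), fun he => ?_⟩
          apply h'.2.2
          funext j
          refine Set.Subset.antisymm (h'.2.1 j) ?_
          have : c'.1.2 j = z.1.2 j := congrFun he j
          rw [this]
          exact hcz.2.1 j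
        · exfalso
          apply h'.2.2
          funext j
          refine Set.Subset.antisymm (h'.2.1 j) ?_
          rw [hcU]
          exact Set.subset_biUnion_of_mem (u := fun c : X => c.1.2 j) hc'
    have hins : IsChain r (insert z C) := hchain.insert fun c' hc' _ => Or.inr (hall c' hc')
    have hzC : z ∈ C := by
      rw [hmax hins (Set.subset_insert z C)]
      exact Set.mem_insert z C
    exact (hall z hzC).2.2 rfl
  · -- the family of unions can be added on top
    exfalso
    push Not at hcase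
    have hcount : #(Σ i, U i) < κ := by
      rw [mk_sigma]
      exact sum_lt_of_isRegular hκ hΛ fun i => hcc (U i) (hUanti i)
    have hch : ∀ u : Σ i, U i, ∃ c ∈ C, u.2.1 ∈ c.1.2 u.1 := by
      rintro ⟨i, a, ha⟩
      simp only [U, Set.mem_iUnion] at ha
      obtain ⟨c, hc, ha⟩ := ha
      exact ⟨c, hc, ha⟩
    choose g hg hgu using hch
    have hCne : C.Nonempty := by
      by_contra hne
      rw [Set.not_nonempty_iff_eq_empty] at hne
      let z : X := ⟨(t, fun _ => ∅), le_rfl, fun i => ⟨by simp, by simp⟩⟩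
      have : IsChain r ({z} : Set X) := Set.pairwise_singleton _ _
      have h2 := hmax this (by rw [hne]; exact Set.empty_subset _)
      rw [hne] at h2
      exact absurd (h2 ▸ (Set.mem_singleton z)) (Set.notMem_empty z)
    have hlb : ∃ t', t' ≤ t ∧ ∀ c ∈ C, t' ≤ c.1.1 := by
      have key : ∀ c ∈ C, ∃ u : Σ i, U i, (g u).1.1 ≤ c.1.1 := by
        intro c hc
        have h1 : ∃ i, ¬ U i ⊆ c.1.2 i := by
          by_contra hcon
          push Not at hcon
          apply hcase c hc
          funext i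
          exact Set.Subset.antisymm (Set.subset_biUnion_of_mem (u := fun c : X => c.1.2 i) hc)
            (hcon i)
        obtain ⟨i, hi⟩ := h1
        obtain ⟨a, ha, hac⟩ := Set.not_subset.1 hi
        refine ⟨⟨i, a, ha⟩, ?_⟩
        have h2 := hgu ⟨i, a, ha⟩
        by_cases h : g ⟨i, a, ha⟩ = c
        · rw [h] at h2; exact absurd h2 hac
        · rcases hcomp _ (hg ⟨i, a, ha⟩) c hc h with h' | h'
          · exact absurd (h'.2.1 i h2) hac
          · exact h'.1
      obtain ⟨c0, hc0⟩ := hCne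
      obtain ⟨u0, _⟩ := key c0 hc0
      obtain ⟨t', ht'⟩ := hclosed (Set.range fun u => (g u).1.1) (by
        rintro _ ⟨u, rfl⟩ _ ⟨v, rfl⟩
        by_cases h : g u = g v
        · left; show (g u).1.1 ≤ (g v).1.1; rw [h]
        · rcases hcomp _ (hg u) _ (hg v) h with h' | h'
          · right; exact h'.1
          · left; exact h'.1) (mk_range_le.trans_lt hcount) ⟨_, u0, rfl⟩
      refine ⟨t', (ht' _ ⟨u0, rfl⟩).trans (g u0).2.1, fun c hc => ?_⟩
      obtain ⟨u, hu⟩ := key c hc
      exact (ht' _ ⟨u, rfl⟩).trans hu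
    obtain ⟨t', ht', hlb⟩ := hlb
    let z : X := ⟨(t', U), ht', fun i => ⟨hUanti i, fun a ha => by
      simp only [U, Set.mem_iUnion] at ha
      obtain ⟨c, hc, ha⟩ := ha
      exact hdown i a _ ((c.2.2 i).2 a ha) a le_rfl _ (hlb c hc)⟩⟩
    have hall : ∀ c' ∈ C, r c' z := fun c' hc' =>
      ⟨hlb c' hc', fun j => Set.subset_biUnion_of_mem (u := fun c : X => c.1.2 j) hc',
        hcase c' hc'⟩
    have hins : IsChain r (insert z C) := hchain.insert fun c' hc' _ => Or.inr (hall c' hc')
    have hzC : z ∈ C := by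
      rw [hmax hins (Set.subset_insert z C)]
      exact Set.mem_insert z C
    exact hcase z hzC rfl

end Pool.Agent.Helper669.Easton
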