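import Mathlib
import Pool.Agent.Helper669.Forcing
import Pool.Agent.Helper669.GBase

/-!
# The strong polarized relation in the extension, and the two-step iteration with a Levy collapse
-/

namespace Pool.Agent.Helper669.Forcing2

open Cardinal Pool.Agent.Helper669.Forcing Pool.Agent.Helper669.GBase

universe u v w

section

variable {P : Type u} [Preorder P]

/-- `φ or ψ` is `not (not φ and not ψ)`. -/
def for' (φ ψ : Set P) : Set P := fnot (fand (fnot φ) (fnot ψ))

/-- The subset of `X` named by `A` has the same cardinality as `X`: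
some injective function from `X` to `X` takes all its values in `A`. -/
def HasFullSize {X : Type v} (A : X → Set P) : Set P :=
  fex fun R : X → X → Set P =>
    fand (IsFun R) (fand (IsInj R)
      (fall fun x => fall fun y => fimp (meets (R x y)) (meets (A y))))

/-- The strong polarized relation (for all `c : X × Y → 2` there are `A ⊆ X` and `B ⊆ Y`
with `|A| = |X|`, `|B| = |Y|` and `c` constant on `A × B`) in the generic extension.
The colouring is given by the set `{(x, y) : c (x, y) = 1}`. -/
def Polarized (P : Type u) [Preorder P] (X : Type v) (Y : Type w) : Set P :=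
  fall fun c : X → Y → Set P =>
    fex fun A : X → Set P => fex fun B : Y → Set P =>
      fand (HasFullSize A) (fand (HasFullSize B)
        (for'
          (fall fun x => fall fun y => fimp (fand (meets (A x)) (meets (B y))) (meets (c x y)))
          (fall fun x => fall fun y =>
            fimp (fand (meets (A x)) (meets (B y))) (fnot (meets (c x y))))))

/-- The named subsets `x` and `y` of `ℕ` are equal. -/
def SameSet (x y : ℕ → Set P) : Set P :=
  fall fun k : ℕ => fand (fimp (meets (x k)) (meets (y k))) (fimp (meets (y k)) (meets (x k)))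

/-- `|Y| < 𝔠` in the extension: no map from `Y` to the power set of `ℕ` is onto. -/
def LtContinuum (P : Type u) [Preorder P] (Y : Type v) : Set P :=
  fnot (fex fun E : Y → ℕ → Set P => fall fun x : ℕ → Set P => fex fun y => SameSet x (E y))

/-- `κ` is regular in the extension: every function from a smaller cardinal to `κ` is bounded. -/
def StaysRegular (P : Type u) [Preorder P] (κ : Cardinal.{v}) : Set P :=
  fall fun ν : Cardinal.{v} => fall fun _ : ν < κ => fall fun R : ν.out → κ.ord.ToType → Set P =>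
    fimp (IsFun R) (fex fun b : κ.ord.ToType => fall fun x => fall fun y =>
      fimp (meets (R x y)) (fground (y < b)))

end

/-- The two-step iteration of `P` and of the Levy collapse `Levy(κ, 𝔠)` of the extension by `P`,
where `κ = |K|` and `𝔠` is identified with the power set of `ℕ`. A condition is a pair of a
condition of `P` and of a name of a partial function of size less than `κ` from `κ` to the power
set of `ℕ`, given by its domain (a subset of `K` of size less than `κ`) and by names of its
values. If `κ` is regular and `P` has the countable chain condition, then every name of a subset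
of `κ` of size less than `κ` is covered by a ground model set of size less than `κ`, so that
these conditions are dense in the iteration `P * Levy(κ, 𝔠)`. -/
structure LevyIter (P : Type u) [Preorder P] (K : Type u) where
  /-- the condition of `P` -/
  fst : P
  /-- the name of the partial function -/
  snd : K → Option (ℕ → Set P)
  /-- the domain has size less than `|K|` -/
  small : #{k | snd k ≠ none} < #K

section

variable {P : Type u} [Preorder P]

theorem meets_of_dense {N : Set P} {p : P} (h : ∀ q ≤ p, ∃ r ≤ q, r ∈ meets N) : p ∈ meets N := by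
  intro q hq
  obtain ⟨r, hr, h'⟩ := h q hq
  obtain ⟨r', hr', s, hs, hle⟩ := h' r le_rfl
  exact ⟨r', hr'.trans hr, s, hs, hle⟩

theorem mem_sameSet {x y : ℕ → Set P} {p : P} :
    p ∈ SameSet x y ↔ ∀ k, ∀ q ≤ p, q ∈ meets (x k) ↔ q ∈ meets (y k) := by
  constructor
  · intro h k q hq
    obtain ⟨h1, h2⟩ := h k
    constructor
    · intro hx
      refine meets_of_dense fun q' hq' => ?_
      exact mem_fimp.1 h1 q' (hq'.trans hq) (down_meets _ _ hx q' hq')
    · intro hx
      refine meets_of_dense fun q' hq' => ?_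
      exact mem_fimp.1 h2 q' (hq'.trans hq) (down_meets _ _ hx q' hq')
  · intro h k
    exact ⟨mem_fimp.2 fun q hq hx => ⟨q, le_rfl, (h k q hq).1 hx⟩,
      mem_fimp.2 fun q hq hx => ⟨q, le_rfl, (h k q hq).2 hx⟩⟩

theorem down_SameSet (x y : ℕ → Set P) : Down (SameSet x y) :=
  down_fall fun _ => down_fand (down_fimp _ _) (down_fimp _ _)

end

/-- `(p', s') ≤ (p, s)` iff `p' ≤ p` and `p'` forces that `s'` extends `s`. -/
instance (P : Type u) [Preorder P] (K : Type u) : Preorder (LevyIter P K) where
  le d' d := d'.fst ≤ d.fst ∧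
    ∀ k x, d.snd k = some x → ∃ x', d'.snd k = some x' ∧ d'.fst ∈ SameSet x x'
  le_refl d := ⟨le_rfl, fun k x h => ⟨x, h, mem_sameSet.2 fun _ _ _ => Iff.rfl⟩⟩
  le_trans a b c hab hbc := ⟨hab.1.trans hbc.1, fun k x h => by
    obtain ⟨x', h1, h2⟩ := hbc.2 k x h
    obtain ⟨x'', h3, h4⟩ := hab.2 k x' h1
    refine ⟨x'', h3, mem_sameSet.2 fun j q hq => ?_⟩
    exact (mem_sameSet.1 h2 j q (hq.trans hab.1)).trans (mem_sameSet.1 h4 j q hq)⟩

section

variable {P : Type u} [Preorder P]

theorem mem_for {φ ψ : Set P} {p : P} :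
    p ∈ for' φ ψ ↔ ∀ q ≤ p, ∃ r ≤ q, r ∈ φ ∨ r ∈ ψ := by
  simp only [for', fnot, fand, Set.mem_ofPred_eq, not_and_or, not_forall, not_not]
  constructor
  · intro h q hq
    rcases h q hq with ⟨r, hr, h'⟩ | ⟨r, hr, h'⟩
    · exact ⟨r, hr, Or.inl h'⟩
    · exact ⟨r, hr, Or.inr h'⟩
  · intro h q hq
    obtain ⟨r, hr, h' | h'⟩ := h q hq
    · exact Or.inl ⟨r, hr, h'⟩
    · exact Or.inr ⟨r, hr, h'⟩

theorem down_for (φ ψ : Set P) : Down (for' φ ψ) := down_fnot _

theorem down_HasFullSize {X : Type v} (A : X → Set P) : Down (HasFullSize A) := down_fex _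

/-- A subset of `ω` of full size is infinite. -/
theorem exists_mem_ge {B : ℕ → Set P} {p : P} (hp : p ∈ HasFullSize B) (m : ℕ) :
    ∃ r ≤ p, ∃ n, m ≤ n ∧ r ∈ meets (B n) := by
  obtain ⟨q, hq, R, hR1, hR2, hR3⟩ := mem_fex.1 hp p le_rfl
  by_contra hcon
  push Not at hcon
  have hdec : ∀ k : ℕ, ∃ r ≤ q, ∃ f : ℕ → ℕ, ∀ i < k, r ∈ meets (R i (f i)) ∧ r ∈ meets (B (f i)) := by
    intro k
    induction k with
    | zero => exact ⟨q, le_rfl, id, fun i hi => absurd hi (Nat.not_lt_zero i)⟩
    | succ k ih =>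
      obtain ⟨r, hr, f, hf⟩ := ih
      obtain ⟨r1, hr1, y, hy⟩ := mem_fex.1 (hR1.1 k) r hr
      obtain ⟨r2, hr2, h2⟩ := mem_fimp.1 (hR3 k y) r1 (hr1.trans hr) hy
      refine ⟨r2, hr2.trans (hr1.trans hr), Function.update f k y, fun i hi => ?_⟩
      rcases Nat.lt_succ_iff_lt_or_eq.1 hi with hi' | rfl
      · rw [Function.update_of_ne hi'.ne]
        exact ⟨down_meets _ _ (hf i hi').1 _ (hr2.trans hr1),
          down_meets _ _ (hf i hi').2 _ (hr2.trans hr1)⟩
      · rw [Function.update_self]
        exact ⟨down_meets _ _ hy _ hr2, h2⟩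
  obtain ⟨r, hr, f, hf⟩ := hdec (m + 1)
  have hlt : ∀ i ∈ Finset.range (m + 1), f i ∈ Finset.range m := by
    intro i hi
    by_contra hge
    exact hcon r (hr.trans hq) (f i) (not_lt.1 fun h => hge (Finset.mem_range.2 h))
      (hf i (Finset.mem_range.1 hi)).2
  obtain ⟨i, hi, j, hj, hij, hfij⟩ :=
    Finset.exists_ne_map_eq_of_card_lt_of_maps_to (by simp) hlt
  have hi' := (hf i (Finset.mem_range.1 hi)).1
  have hj' := (hf j (Finset.mem_range.1 hj)).1
  rw [← hfij] at hj'
  obtain ⟨_, _, h'⟩ := mem_fimp.1 (hR2 i j (f i)) r hr ⟨hi', hj'⟩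
  exact hij h'

/-- The conditions deciding whether the generic filter meets `N` are dense. -/
theorem exists_decide (N : Set P) (p : P) : ∃ q ≤ p, q ∈ meets N ∨ q ∈ fnot (meets N) := by
  by_cases h : p ∈ fnot (meets N)
  · exact ⟨p, le_rfl, Or.inr h⟩
  · simp only [fnot, Set.mem_ofPred_eq, not_forall, not_not] at h
    obtain ⟨q, hq, h'⟩ := h
    exact ⟨q, hq, Or.inl h'⟩

end

/-! ### Easton's lemma -/

/-- If antichains of `B` are countable and chains of `T` of size less than `κ` have lower bounds,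
then below every `t` there is `t'` such that for fewer than `κ` many given open dense subsets of
the product, the section at `t'` is dense in `B`. -/
theorem easton {B T : Type u} [Preorder B] [Preorder T] {κ : Cardinal.{u}} (hκ : ℵ₀ < κ)
    (hccc : ∀ A : Set B, (∀ a ∈ A, ∀ b ∈ A, Compat a b → a = b) → A.Countable)
    (hclosed : ∀ S : Set T, (∀ s ∈ S, ∀ t ∈ S, s ≤ t ∨ t ≤ s) → #S < κ → S.Nonempty →
      ∃ t, ∀ s ∈ S, t ≤ s)
    {Λ : Type u} (hΛ : #Λ < κ) (D : Λ → B → T → Prop)
    (hdown : ∀ i b t, D i b t → ∀ b' ≤ b, ∀ t' ≤ t, D i b' t')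
    (hdense : ∀ i b t, ∃ b' ≤ b, ∃ t' ≤ t, D i b' t') (t : T) :
    ∃ t' ≤ t, ∀ i b, ∃ b' ≤ b, D i b' t' := by
  classical
  let X : Type u := {z : T × (Λ → Set B) // z.1 ≤ t ∧ ∀ i, (∀ a ∈ z.2 i, ∀ b ∈ z.2 i,
    Compat a b → a = b) ∧ ∀ a ∈ z.2 i, D i a z.1}
  let r : X → X → Prop := fun z z' => z'.1.1 ≤ z.1.1 ∧ (∀ i, z.1.2 i ⊆ z'.1.2 i) ∧ z.1.2 ≠ z'.1.2
  obtain ⟨hchain, hmax⟩ := maxChain_spec (r := r)
  set C : Set X := maxChain r with hC
  -- the family of unions
  let U : Λ → Set B := fun i => ⋃ c ∈ C, c.1.2 i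
  have hcomp : ∀ c ∈ C, ∀ c' ∈ C, c ≠ c' → r c c' ∨ r c' c := fun c hc c' hc' h => hchain hc hc' h
  have hUanti : ∀ i, ∀ a ∈ U i, ∀ b ∈ U i, Compat a b → a = b := by
    intro i a ha b hb hab
    simp only [U, Set.mem_iUnion] at ha hb
    obtain ⟨c, hc, ha⟩ := ha
    obtain ⟨c', hc', hb⟩ := hb
    by_cases h : c = c'
    · subst h
      exact (c.2.2 i).1 a ha b hb hab
    · rcases hcomp c hc c' hc' h with h' | h'
      · exact (c'.2.2 i).1 a (h'.2.1 i ha) b hb hab
      · exact (c.2.2 i).1 a ha b (h'.2.1 i hb) hab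
  by_cases hcase : ∃ c ∈ C, c.1.2 = U
  · obtain ⟨c, hc, hcU⟩ := hcase
    refine ⟨c.1.1, c.2.1, fun i b => ?_⟩
    by_contra hcon
    push Not at hcon
    -- extend the family by one more element
    obtain ⟨b', hb', t', ht', hD⟩ := hdense i b c.1.1
    have hb'c : ∀ a ∈ c.1.2 i, ¬ Compat a b' := by
      rintro a ha ⟨s, hs1, hs2⟩
      exact hcon s (hs2.trans hb') (hdown i a _ ((c.2.2 i).2 a ha) s hs1 _ le_rfl)
    have hb'n : b' ∉ c.1.2 i := fun h => hb'c b' h ⟨b', le_rfl, le_rfl⟩
    let A' : Λ → Set B := fun j => if j = i then insert b' (c.1.2 j) else c.1.2 j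
    have hA'i : A' i = insert b' (c.1.2 i) := by simp [A']
    have hA'j : ∀ j, j ≠ i → A' j = c.1.2 j := fun j hj => by simp [A', hj]
    let z : X := ⟨(t', A'), ht'.trans c.2.1, fun j => by
      by_cases hj : j = i
      · subst hj
        show (∀ a ∈ A' j, ∀ b ∈ A' j, Compat a b → a = b) ∧ ∀ a ∈ A' j, D j a t'
        rw [hA'i]
        refine ⟨?_, ?_⟩
        · rintro a (rfl | ha) b (rfl | hb) hab
          · rfl
          · obtain ⟨s, h1, h2⟩ := hab
            exact absurd ⟨s, h2, h1⟩ (hb'c b hb)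
          · exact absurd hab (hb'c a ha)
          · exact (c.2.2 j).1 a ha b hb hab
        · rintro a (rfl | ha)
          · exact hD
          · exact hdown j a _ ((c.2.2 j).2 a ha) a le_rfl _ ht'
      · show (∀ a ∈ A' j, ∀ b ∈ A' j, Compat a b → a = b) ∧ ∀ a ∈ A' j, D j a t'
        rw [hA'j j hj]
        exact ⟨(c.2.2 j).1, fun a ha => hdown j a _ ((c.2.2 j).2 a ha) a le_rfl _ ht'⟩⟩
    have hcz : r c z := by
      refine ⟨ht', fun j => ?_, fun h => ?_⟩
      · show c.1.2 j ⊆ A' j
        by_cases hj : j = i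
        · subst hj; rw [hA'i]; exact Set.subset_insert _ _
        · rw [hA'j j hj]
      · have h1 : c.1.2 i = A' i := congrFun h i
        rw [hA'i] at h1
        exact hb'n (h1 ▸ Set.mem_insert _ _)
    have hall : ∀ c' ∈ C, r c' z := by
      intro c' hc'
      by_cases h : c' = c
      · subst h; exact hcz
      · rcases hcomp c' hc' c hc h with h' | h'
        · refine ⟨hcz.1.trans h'.1, fun j => (h'.2.1 j).trans (hcz.2.1 j), fun he => ?_⟩
          apply h'.2.2
          funext j
          refine Set.Subset.antisymm (h'.2.1 j) ?_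
          have : c'.1.2 j = z.1.2 j := congrFun he j
          rw [this]
          exact hcz.2.1 j
        · exfalso
          apply h'.2.2
          funext j
          refine Set.Subset.antisymm (h'.2.1 j) ?_
          rw [hcU]
          exact Set.subset_biUnion_of_mem (u := fun c : X => c.1.2 j) hc'
    have hins : IsChain r (insert z C) := hchain.insert fun c' hc' _ => Or.inr (hall c' hc')
    have hzC : z ∈ C := by
      rw [hmax hins (Set.subset_insert z C)]
      exact Set.mem_insert z C
    exact (hall z hzC).2.2 rfl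
  · -- the family of unions can be added on top
    exfalso
    push Not at hcase
    have hcount : #(Σ i, U i) < κ := by
      rw [mk_sigma]
      refine (Cardinal.sum_le_sum _ (fun _ => ℵ₀) fun i => ?_).trans_lt ?_
      · exact Cardinal.le_aleph0_iff_set_countable.2 (hccc (U i) (hUanti i))
      · rw [Cardinal.sum_const']
        exact mul_lt_of_lt hκ.le hΛ hκ
    have hch : ∀ u : Σ i, U i, ∃ c ∈ C, u.2.1 ∈ c.1.2 u.1 := by
      rintro ⟨i, a, ha⟩
      simp only [U, Set.mem_iUnion] at ha
      obtain ⟨c, hc, ha⟩ := ha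
      exact ⟨c, hc, ha⟩
    choose g hg hgu using hch
    have hCne : C.Nonempty := by
      by_contra hne
      rw [Set.not_nonempty_iff_eq_empty] at hne
      let z : X := ⟨(t, fun _ => ∅), le_rfl, fun i => ⟨by simp, by simp⟩⟩
      have : IsChain r ({z} : Set X) := Set.pairwise_singleton _ _
      have h2 := hmax this (by rw [hne]; exact Set.empty_subset _)
      rw [hne] at h2
      exact absurd (h2 ▸ (Set.mem_singleton z)) (Set.notMem_empty z)
    have hlb : ∃ t', t' ≤ t ∧ ∀ c ∈ C, t' ≤ c.1.1 := by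
      have key : ∀ c ∈ C, ∃ u : Σ i, U i, (g u).1.1 ≤ c.1.1 := by
        intro c hc
        have h1 : ∃ i, ¬ U i ⊆ c.1.2 i := by
          by_contra hcon
          push Not at hcon
          apply hcase c hc
          funext i
          exact Set.Subset.antisymm (Set.subset_biUnion_of_mem (u := fun c : X => c.1.2 i) hc)
            (hcon i)
        obtain ⟨i, hi⟩ := h1
        obtain ⟨a, ha, hac⟩ := Set.not_subset.1 hi
        refine ⟨⟨i, a, ha⟩, ?_⟩
        have h2 := hgu ⟨i, a, ha⟩
        by_cases h : g ⟨i, a, ha⟩ = c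
        · rw [h] at h2; exact absurd h2 hac
        · rcases hcomp _ (hg ⟨i, a, ha⟩) c hc h with h' | h'
          · exact absurd (h'.2.1 i h2) hac
          · exact h'.1
      obtain ⟨c0, hc0⟩ := hCne
      obtain ⟨u0, _⟩ := key c0 hc0
      obtain ⟨t', ht'⟩ := hclosed (Set.range fun u => (g u).1.1) (by
        rintro _ ⟨u, rfl⟩ _ ⟨v, rfl⟩
        by_cases h : g u = g v
        · left; show (g u).1.1 ≤ (g v).1.1; rw [h]
        · rcases hcomp _ (hg u) _ (hg v) h with h' | h'
          · right; exact h'.1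
          · left; exact h'.1) (mk_range_le.trans_lt hcount) ⟨_, u0, rfl⟩
      refine ⟨t', (ht' _ ⟨u0, rfl⟩).trans (g u0).2.1, fun c hc => ?_⟩
      obtain ⟨u, hu⟩ := key c hc
      exact (ht' _ ⟨u, rfl⟩).trans hu
    obtain ⟨t', ht', hlb⟩ := hlb
    let z : X := ⟨(t', U), ht', fun i => ⟨hUanti i, fun a ha => by
      simp only [U, Set.mem_iUnion] at ha
      obtain ⟨c, hc, ha⟩ := ha
      exact hdown i a _ ((c.2.2 i).2 a ha) a le_rfl _ (hlb c hc)⟩⟩
    have hall : ∀ c' ∈ C, r c' z := fun c' hc' =>
      ⟨hlb c' hc', fun j => Set.subset_biUnion_of_mem (u := fun c : X => c.1.2 j) hc',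
        hcase c' hc'⟩
    have hins : IsChain r (insert z C) := hchain.insert fun c' hc' _ => Or.inr (hall c' hc')
    have hzC : z ∈ C := by
      rw [hmax hins (Set.subset_insert z C)]
      exact Set.mem_insert z C
    exact hcase z hzC rfl

end Pool.Agent.Helper669.Forcing2
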