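import Mathlib
import Pool.Agent.Helper669.Main
import Pool.Agent.Helper669.Forcing2
import Pool.Agent.Helper669.Easton

/-!
# Products with a forcing notion adding no countable sequences
-/

namespace Pool.Agent.Helper669.Lift

open Cardinal Pool.Agent.Helper669.Forcing Pool.Agent.Helper669.GBase
  Pool.Agent.Helper669.Forcing2 Pool.Agent.Helper669.Easton

set_option linter.unusedSectionVars false

universe u v w

section

variable {Q P : Type u} [Preorder Q] [Preorder P]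

/-- below `q`, the statement `Φ` about the extension by `Q × P` is the statement `φ` about the
extension by `P` -/
def Rel (q : Q) (Φ : Set (Q × P)) (φ : Set P) : Prop := ∀ q' ≤ q, ∀ p, (q', p) ∈ Φ ↔ p ∈ φ

theorem Rel.mono {q q' : Q} {Φ : Set (Q × P)} {φ : Set P} (h : Rel q Φ φ) (hq : q' ≤ q) :
    Rel q' Φ φ := fun r hr p => h r (hr.trans hq) p

theorem Rel.not {q : Q} {Φ : Set (Q × P)} {φ : Set P} (h : Rel q Φ φ) :
    Rel q (fnot Φ) (fnot φ) := by
  intro q' hq' p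
  constructor
  · intro h1 p' hp' h2
    exact h1 (q', p') ⟨le_rfl, hp'⟩ ((h q' hq' p').2 h2)
  · rintro h1 ⟨q'', p'⟩ ⟨hq'', hp'⟩ h2
    exact h1 p' hp' ((h q'' (hq''.trans hq') p').1 h2)

theorem Rel.and {q : Q} {Φ Ψ : Set (Q × P)} {φ ψ : Set P} (h : Rel q Φ φ) (h' : Rel q Ψ ψ) :
    Rel q (fand Φ Ψ) (fand φ ψ) := fun q' hq' p => and_congr (h q' hq' p) (h' q' hq' p)

theorem Rel.all {ι : Sort v} {q : Q} {Φ : ι → Set (Q × P)} {φ : ι → Set P}
    (h : ∀ i, Rel q (Φ i) (φ i)) : Rel q (fall Φ) (fall φ) :=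
  fun q' hq' p => forall_congr' fun i => h i q' hq' p

theorem Rel.ex {ι : Sort v} {q : Q} {Φ : ι → Set (Q × P)} {φ : ι → Set P}
    (h : ∀ i, Rel q (Φ i) (φ i)) : Rel q (fex Φ) (fex φ) :=
  (Rel.all fun i => (h i).not).not

theorem Rel.imp {q : Q} {Φ Ψ : Set (Q × P)} {φ ψ : Set P} (h : Rel q Φ φ) (h' : Rel q Ψ ψ) :
    Rel q (fimp Φ Ψ) (fimp φ ψ) := (h.and h'.not).not

theorem Rel.ground (q : Q) (h : Prop) : Rel q (fground (P := Q × P) h) (fground (P := P) h) :=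
  fun _ _ _ => Iff.rfl

theorem Rel.isFun {X : Type v} {Y : Type w} {q : Q} {R : X → Y → Set (Q × P)}
    {R' : X → Y → Set P} (h : ∀ x y, Rel q (meets (R x y)) (meets (R' x y))) :
    Rel q (IsFun R) (IsFun R') :=
  Rel.and (Rel.all fun x => Rel.ex fun y => h x y)
    (Rel.all fun x => Rel.all fun y => Rel.all fun y' =>
      Rel.imp (Rel.and (h x y) (h x y')) (Rel.ground q _))

theorem Rel.sameReal {q : Q} {x y : ℕ → ℕ → Set (Q × P)} {x' y' : ℕ → ℕ → Set P}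
    (h : ∀ n m, Rel q (meets (x n m)) (meets (x' n m)))
    (h' : ∀ n m, Rel q (meets (y n m)) (meets (y' n m))) :
    Rel q (SameReal x y) (SameReal x' y') :=
  Rel.all fun n => Rel.all fun a => Rel.all fun b =>
    Rel.imp (Rel.and (h n a) (h' n b)) (Rel.ground q _)

theorem Rel.initSeg {q : Q} (s : List ℕ) {x : ℕ → ℕ → Set (Q × P)} {x' : ℕ → ℕ → Set P}
    (h : ∀ n m, Rel q (meets (x n m)) (meets (x' n m))) :
    Rel q (InitSeg s x) (InitSeg s x') :=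
  Rel.all fun i => Rel.all fun _ => h i _

theorem Rel.isMeagerCode {q : Q} {T : ℕ → List ℕ → Set (Q × P)} {T' : ℕ → List ℕ → Set P}
    (h : ∀ k s, Rel q (meets (T k s)) (meets (T' k s))) :
    Rel q (IsMeagerCode T) (IsMeagerCode T') :=
  Rel.all fun k => Rel.all fun _ => Rel.ex fun t => Rel.and (Rel.ground q _) (h k t).not

theorem Rel.inMeager {q : Q} {x : ℕ → ℕ → Set (Q × P)} {x' : ℕ → ℕ → Set P}
    {T : ℕ → List ℕ → Set (Q × P)} {T' : ℕ → List ℕ → Set P}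
    (h : ∀ n m, Rel q (meets (x n m)) (meets (x' n m)))
    (h' : ∀ k s, Rel q (meets (T k s)) (meets (T' k s))) :
    Rel q (InMeager x T) (InMeager x' T') :=
  Rel.ex fun k => Rel.all fun s => Rel.imp (Rel.initSeg s h) (h' k s)

/-- a `P`-name as a name for the product -/
def up (Q : Type u) {P : Type u} (N : Set P) : Set (Q × P) := {d | d.2 ∈ N}

theorem rel_up (q : Q) (N : Set P) : Rel q (meets (up Q N)) (meets N) := by
  intro q' _ p
  constructor
  · intro h p' hp'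
    obtain ⟨⟨r1, r2⟩, hr, ⟨s1, s2⟩, hs, hrs⟩ := h (q', p') ⟨le_rfl, hp'⟩
    exact ⟨r2, hr.2, s2, hs, hrs.2⟩
  · rintro h ⟨q'', p'⟩ ⟨hq'', hp'⟩
    obtain ⟨r, hr, s, hs, hrs⟩ := h p' hp'
    exact ⟨(q'', r), ⟨le_rfl, hr⟩, (q'', s), hs, ⟨le_rfl, hrs⟩⟩

/-- antichains are countable -/
def AC (P : Type u) [Preorder P] : Prop :=
  ∀ A : Set P, (∀ a ∈ A, ∀ b ∈ A, Compat a b → a = b) → A.Countable

/-- countable chains have lower bounds -/
def SC (Q : Type u) [Preorder Q] : Prop :=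
  ∀ S : Set Q, (∀ s ∈ S, ∀ t ∈ S, s ≤ t ∨ t ≤ s) → S.Countable → S.Nonempty → ∃ t, ∀ s ∈ S, t ≤ s

/-- countably many names are names of the extension by `P` -/
theorem reduce (hP : AC P) (hQ : SC Q) {Λ : Type u} [Countable Λ] (N : Λ → Set (Q × P)) (q : Q) :
    ∃ q' ≤ q, ∃ N' : Λ → Set P, ∀ i, Rel q' (meets (N i)) (meets (N' i)) := by
  have hlt : ∀ {X : Type u} {S : Set X}, #S < ℵ₁ ↔ S.Countable := by
    intro X S
    rw [← Cardinal.le_aleph0_iff_set_countable, ← succ_aleph0, Order.lt_succ_iff]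
  obtain ⟨q', hq', h⟩ := easton (B := P) (T := Q) (κ := ℵ₁) isRegular_aleph_one
    (fun A hA => hlt.2 (hP A hA)) (fun S h1 h2 h3 => hQ S h1 (hlt.1 h2) h3)
    (Λ := Λ) (by
      rw [← succ_aleph0, Order.lt_succ_iff]; exact mk_le_aleph0)
    (fun i b t => (t, b) ∈ meets (N i) ∨ (t, b) ∈ fnot (meets (N i)))
    (by
      rintro i b t (h | h) b' hb' t' ht'
      · exact Or.inl (down_meets _ _ h _ ⟨ht', hb'⟩)
      · exact Or.inr (down_fnot _ _ h _ ⟨ht', hb'⟩))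
    (by
      intro i b t
      obtain ⟨⟨t', b'⟩, h1, h2⟩ := Forcing2.exists_decide (N i) (t, b)
      exact ⟨b', h1.2, t', h1.1, h2⟩) q
  refine ⟨q', hq', fun i => {b | (q', b) ∈ meets (N i)}, fun i q'' hq'' p => ⟨?_, ?_⟩⟩
  · intro h1 p' hp'
    obtain ⟨p'', hp'', h2 | h2⟩ := h i p'
    · exact ⟨p'', hp'', p'', h2, le_rfl⟩
    · exact absurd (down_meets _ _ h1 (q'', p'') ⟨le_rfl, hp''.trans hp'⟩)
        (h2 (q'', p'') ⟨hq'', le_rfl⟩)
  · intro h1
    refine meets_of_dense ?_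
    rintro ⟨q3, p3⟩ ⟨h3, h4⟩
    obtain ⟨r, hr, s, hs, hrs⟩ := h1 p3 h4
    have hs' : (q', s) ∈ meets (N i) := hs
    exact ⟨(q3, r), ⟨le_rfl, hr⟩, down_meets _ _ hs' _ ⟨h3.trans hq'', hrs⟩⟩

/-- there is no functional relation onto `X` with domain `Z`, in any extension -/
def NoOnto (D : Type u) [Preorder D] (Z X : Type v) : Prop :=
  ∀ (R : Z → X → Set D) (d : D),
    (∀ z x x', d ∈ fimp (fand (meets (R z x)) (meets (R z x'))) (fground (x = x'))) →
    d ∉ IsOnto R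

end

/-! ### The product of the iteration with such a forcing notion -/

section

open Pool.Agent.Helper669.Base Pool.Agent.Helper669.Main

variable {J : Type} [LinearOrder J] [WellFoundedLT J] {Q : Type} [Preorder Q]

theorem cond_ac : AC (Cond J) := by
  intro A hA
  by_contra hcount
  have hcount' : ¬ Countable A := hcount
  obtain ⟨y, y', hne, h⟩ := Base.cond_ccc (fun a : A => a.1) hcount'
  exact hne (Subtype.ext (hA y.1 y.2 y'.1 y'.2 h))

theorem covLe' (hQ : SC Q) (hcof : ∀ S : Set J, S.Countable → ∃ b, ∀ s ∈ S, s < b) {Y : Type}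
    (g : Y → J) (hg : ∀ b, ∃ y, b ≤ g y) (d : Q × Cond J) : d ∈ CovLe (Q × Cond J) Y := by
  refine mem_fex_of_mem (fun y k s => up Q (Td (g y) k s)) ?_ ?_
  · exact down_fand (down_fall fun _ => down_IsMeagerCode _) (down_fall fun _ => down_fimp _ _)
  · refine ⟨fun y => ?_, fun x => mem_fimp.2 ?_⟩
    · exact (Rel.isMeagerCode fun k s => rel_up d.1 (Td (g y) k s)) d.1 le_rfl d.2 |>.2
        (isMeagerCode_Td (g y) d.2)
    · rintro ⟨q1, p1⟩ _ h1
      obtain ⟨q2, hq2, N', hN'⟩ := reduce cond_ac hQ (Λ := ℕ × ℕ) (fun i => x i.1 i.2) q1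
      have hx : ∀ n m, Rel q2 (meets (x n m)) (meets (N' (n, m))) := fun n m => hN' (n, m)
      have h2 : p1 ∈ IsFun fun n m => N' (n, m) :=
        (Rel.isFun hx q2 le_rfl p1).1 (down_IsFun _ _ h1 (q2, p1) ⟨hq2, le_rfl⟩)
      obtain ⟨b, hb⟩ := eventually_different hcof fun n m => N' (n, m)
      obtain ⟨y, hy⟩ := hg b
      obtain ⟨p2, hp2, h⟩ := hb (g y) hy p1 h2
      refine ⟨(q2, p2), ⟨hq2, hp2⟩, mem_fex_of_mem y (down_InMeager _ _) ?_⟩
      refine (Rel.inMeager hx (fun k s => rel_up q2 (Td (g y) k s)) q2 le_rfl p2).2 ?_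
      refine mem_fex_of_mem (p1.1.st (g y : WithTop J)).length
        (down_fall fun _ => down_fimp _ _) fun s => mem_fimp.2 fun r hr hinit => ⟨r, le_rfl, ?_⟩
      refine meets_of_mem fun n hn hn' t ht hE => ?_
      exact h n hn (s.getD n 0) t (ht.trans hr) hE (down_meets _ _ (hinit n hn') t ht)

theorem isFun_up (ξ : J) (d : Q × Cond J) : d ∈ IsFun fun n m => up Q (Cc ξ n m) :=
  (Rel.isFun (fun n m => rel_up d.1 (Cc ξ n m)) d.1 le_rfl d.2).2 (isFun_Cc ξ d.2)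

theorem not_covLe' (hQ : SC Q) (hcof : ∀ S : Set J, S.Countable → ∃ b, ∀ s ∈ S, s < b)
    {Y : Type} (hY : Countable Y) (d : Q × Cond J) : d ∈ fnot (CovLe (Q × Cond J) Y) := by
  intro d1 _ hd1
  obtain ⟨⟨q2, p2⟩, _, T, hT1, hT2⟩ := mem_fex.1 hd1 d1 le_rfl
  obtain ⟨q3, hq3, N', hN'⟩ := reduce cond_ac hQ (Λ := Y × ℕ × List ℕ)
    (fun i => T i.1 i.2.1 i.2.2) q2
  have hT : ∀ y k s, Rel q3 (meets (T y k s)) (meets (N' (y, k, s))) := fun y k s => hN' (y, k, s)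
  choose b hb using fun y => cohen_avoids hcof fun k s => N' (y, k, s)
  obtain ⟨ξ, hξ⟩ := hcof (Set.range b) (Set.countable_range b)
  obtain ⟨d4, hd4, h4⟩ := mem_fimp.1 (hT2 fun n m => up Q (Cc ξ n m)) (q3, p2) ⟨hq3, le_rfl⟩
    (isFun_up ξ _)
  obtain ⟨⟨q5, p5⟩, hd5, y, h5⟩ := mem_fex.1 h4 d4 le_rfl
  have hd5' : (q5, p5) ≤ (q3, p2) := hd5.trans hd4
  have h6 : p5 ∈ InMeager (Cc ξ) fun k s => N' (y, k, s) :=
    (Rel.inMeager (fun n m => rel_up q3 (Cc ξ n m)) (hT y) q5 hd5'.1 p5).1 h5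
  have h7 : p5 ∈ IsMeagerCode fun k s => N' (y, k, s) :=
    (Rel.isMeagerCode (hT y) q5 hd5'.1 p5).1
      (down_IsMeagerCode _ _ (hT1 y) _ (hd5'.trans ⟨hq3, le_rfl⟩))
  exact hb y ξ (hξ _ ⟨y, rfl⟩).le h7 p5 le_rfl h6

theorem up_distinct {ξ ξ' : J} (h : ξ ≠ ξ') (d : Q × Cond J) :
    d ∉ SameReal (fun n m => up Q (Cc ξ n m)) (fun n m => up Q (Cc ξ' n m)) := by
  intro hd
  have h1 := (Rel.sameReal (fun n m => rel_up d.1 (Cc ξ n m))
    (fun n m => rel_up d.1 (Cc ξ' n m)) d.1 le_rfl d.2).1 hd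
  exact cc_distinct h (sameReal_spec h1)

theorem hasLuzinSet' (hQ : SC Q) {κ : Cardinal.{0}} (hJ : #J = κ) (hIio : ∀ b : J, #(Set.Iio b) < κ)
    (hno : ∀ Z X : Type, #Z < κ → #X = κ → NoOnto (Q × Cond J) Z X)
    (hcof : ∀ S : Set J, S.Countable → ∃ b, ∀ s ∈ S, s < b) (d : Q × Cond J) :
    d ∈ HasLuzinSet (Q × Cond J) κ := by
  have hequiv : Nonempty (κ.out ≃ J) := Cardinal.eq.1 (by rw [mk_out, hJ])
  obtain ⟨e⟩ := hequiv
  refine mem_fex_of_mem (fun i n m => up Q (Cc (e i) n m)) ?_ ?_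
  · exact down_fand (down_fall fun _ => down_IsFun _) (down_fand
      (down_fall fun _ => down_fall fun _ => down_fall fun _ => down_fnot _)
      (down_fall fun _ => down_fimp _ _))
  refine ⟨fun i => isFun_up (e i) d, fun i j hij q _ hq => ?_, fun T => mem_fimp.2 ?_⟩
  · exact up_distinct (fun h => hij (e.injective h)) q hq
  · rintro ⟨q1, p1⟩ _ h1
    obtain ⟨q2, hq2, N', hN'⟩ := reduce cond_ac hQ (Λ := ℕ × List ℕ) (fun i => T i.1 i.2) q1
    have hT : ∀ k s, Rel q2 (meets (T k s)) (meets (N' (k, s))) := fun k s => hN' (k, s)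
    obtain ⟨b, hb⟩ := cohen_avoids hcof fun k s => N' (k, s)
    have h2 : p1 ∈ IsMeagerCode fun k s => N' (k, s) :=
      (Rel.isMeagerCode hT q2 le_rfl p1).1 (down_IsMeagerCode _ _ h1 (q2, p1) ⟨hq2, le_rfl⟩)
    refine ⟨(q2, p1), ⟨hq2, le_rfl⟩, ?_⟩
    rintro d3 hd3 hfull
    obtain ⟨d4, hd4, R, hR1, hR2, hR3⟩ := mem_fex.1 hfull d3 le_rfl
    have hd42 : d4 ≤ (q2, p1) := hd4.trans hd3
    -- the inverse relation is onto
    refine hno (Set.Iio b) κ.out (hIio b) (mk_out κ) (fun z x => R x (e.symm z.1)) d4 ?_ ?_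
    · intro z x x'
      exact hR2 x x' (e.symm z.1)
    · intro x
      refine mem_fex.2 fun d5 hd5 => ?_
      obtain ⟨d6, hd6, y, hy⟩ := IsFun.total (down_IsFun R d4 hR1 d5 hd5) x
      obtain ⟨⟨q7, p7⟩, hd7, h7⟩ := mem_fimp.1 (hR3 x y) d6 (hd6.trans hd5) hy
      have hd72 : (q7, p7) ≤ (q2, p1) := hd7.trans (hd6.trans (hd5.trans hd42))
      have hyb : e y < b := by
        by_contra hcon
        have h8 : p7 ∈ InMeager (Cc (e y)) fun k s => N' (k, s) :=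
          (Rel.inMeager (fun n m => rel_up q2 (Cc (e y) n m)) hT q7 hd72.1 p7).1 h7
        exact hb (e y) (not_lt.1 hcon) (down_IsMeagerCode _ _ h2 p7 hd72.2) p7 le_rfl h8
      refine ⟨(q7, p7), hd7.trans hd6, ⟨e y, hyb⟩, ?_⟩
      show (q7, p7) ∈ meets (R x (e.symm (e y)))
      rw [Equiv.symm_apply_apply]
      exact down_meets _ _ hy _ hd7

theorem not_continuumLe' {κ : Cardinal.{0}} (hJ : #J = κ)
    (hno : ∀ Z X : Type, #Z < κ → #X = κ → NoOnto (Q × Cond J) Z X)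
    {Y : Type} (hY : #Y < κ) (d : Q × Cond J) : d ∈ fnot (ContinuumLe (Q × Cond J) Y) := by
  intro d1 _ hd1
  obtain ⟨d2, _, E, hE1, hE2⟩ := mem_fex.1 hd1 d1 le_rfl
  let R : Y → J → Set (Q × Cond J) := fun y ξ => SameReal (fun n m => up Q (Cc ξ n m)) (E y)
  have hdown : ∀ y ξ, Down (R y ξ) := fun y ξ => down_SameReal _ _
  refine hno Y J hY hJ R d2 (fun y ξ ξ' => ?_) (fun ξ => ?_)
  · refine mem_fimp.2 fun d3 hd3 h3 => ?_
    obtain ⟨d4, hd4, h4⟩ := exists_of_meets (hdown y ξ) h3.1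
    obtain ⟨d5, hd5, h5⟩ := exists_of_meets (hdown y ξ') (down_meets _ _ h3.2 d4 hd4)
    refine ⟨d5, hd5.trans hd4, ?_⟩
    by_contra hne
    refine up_distinct hne d5 fun n a b => mem_fimp.2 fun d6 hd6 h6 => ?_
    have hfun : d6 ∈ IsFun (E y) :=
      down_IsFun _ _ (hE1 y) d6 (hd6.trans (hd5.trans (hd4.trans hd3)))
    obtain ⟨d7, hd7, c, hc⟩ := IsFun.total hfun n
    have h8 : a = c := SameReal.eq (down_SameReal _ _ _ h4 d7 (hd7.trans (hd6.trans hd5)))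
      (down_meets _ _ h6.1 d7 hd7) hc
    have h9 : b = c := SameReal.eq (down_SameReal _ _ _ h5 d7 (hd7.trans hd6))
      (down_meets _ _ h6.2 d7 hd7) hc
    exact ⟨d7, hd7, h8.trans h9.symm⟩
  · refine mem_fex.2 fun d3 hd3 => ?_
    obtain ⟨d4, hd4, h4⟩ := mem_fimp.1 (hE2 fun n m => up Q (Cc ξ n m)) d3 hd3 (isFun_up ξ d3)
    obtain ⟨d5, hd5, y, h5⟩ := mem_fex.1 h4 d4 le_rfl
    exact ⟨d5, hd5.trans hd4, y, meets_of_mem h5⟩

theorem continuumLe' (hQ : SC Q) {κ : Cardinal.{0}} (hJ : #J = κ) (hκ : ℵ₀ < κ)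
    (hpow : κ ^ ℵ₀ = κ) (d : Q × Cond J) : d ∈ ContinuumLe (Q × Cond J) κ.out := by
  classical
  obtain ⟨E, hE1, hE2⟩ : ∃ E : κ.out → ℕ → ℕ → Set (Cond J), (∀ i p, p ∈ IsFun (E i)) ∧
      ∀ x : ℕ → ℕ → Set (Cond J), ∃ i, ∀ p ∈ IsFun x, p ∈ SameReal x (E i) := by
    have hI : #(WithTop J) ≤ κ := by
      have : #(WithTop J) = #J + 1 := mk_option
      rw [this, hJ]
      exact (add_le_add_right (one_le_aleph0.trans hκ.le) κ).trans (add_eq_self hκ.le).le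
    have hC : #(Cond J) ≤ κ := Pool.Agent.Helper669.EIter.mk_conditions_le hκ.le hpow hI ⊤
    let N := {c : ℕ → ℕ → Option (Cond J × ℕ) // ∀ p, p ∈ IsFun (nm c)}
    have hN : #N ≤ κ := by
      refine (mk_subtype_le _).trans ?_
      have h2 : ∀ X : Type, #X ≤ κ → #(ℕ → X) ≤ κ := by
        intro X hX
        have : #(ℕ → X) = #X ^ ℵ₀ := by
          simp [mk_pi]
        rw [this]
        exact (power_le_power_right hX).trans hpow.le
      refine h2 _ (h2 _ ?_)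
      rw [mk_option, mk_prod]
      simp only [lift_uzero, mk_nat]
      exact (add_le_add ((mul_le_mul' hC hκ.le).trans (mul_eq_self hκ.le).le)
        (one_le_aleph0.trans hκ.le)).trans (add_eq_self hκ.le).le
    have hne : Nonempty N := by
      obtain ⟨c, hc, _⟩ := exists_nm (J := J) fun _ _ => ∅
      exact ⟨⟨c, hc⟩⟩
    obtain ⟨g⟩ : Nonempty (N ↪ κ.out) := Cardinal.le_def _ _ |>.1 (by rw [mk_out]; exact hN)
    have hsurj : Function.Surjective (Function.invFun g) := Function.invFun_surjective g.injective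
    refine ⟨fun i => nm (Function.invFun g i).1, fun i => (Function.invFun g i).2, fun x => ?_⟩
    obtain ⟨c, hc1, hc2⟩ := exists_nm x
    obtain ⟨i, hi⟩ := hsurj ⟨c, hc1⟩
    refine ⟨i, ?_⟩
    have h2 : ∀ p ∈ IsFun x, p ∈ SameReal x (nm (Function.invFun g i).1) := by
      rw [show (Function.invFun g i).1 = c from congrArg Subtype.val hi]
      exact hc2
    exact h2
  refine mem_fex_of_mem (fun i n m => up Q (E i n m)) ?_ ?_
  · exact down_fand (down_fall fun _ => down_IsFun _) (down_fall fun _ => down_fimp _ _)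
  · refine ⟨fun i => ?_, fun x => mem_fimp.2 ?_⟩
    · exact (Rel.isFun (fun n m => rel_up d.1 (E i n m)) d.1 le_rfl d.2).2 (hE1 i d.2)
    · rintro ⟨q1, p1⟩ _ h1
      obtain ⟨q2, hq2, N', hN'⟩ := reduce cond_ac hQ (Λ := ℕ × ℕ) (fun i => x i.1 i.2) q1
      have hx : ∀ n m, Rel q2 (meets (x n m)) (meets (N' (n, m))) := fun n m => hN' (n, m)
      have h2 : p1 ∈ IsFun fun n m => N' (n, m) :=
        (Rel.isFun hx q2 le_rfl p1).1 (down_IsFun _ _ h1 (q2, p1) ⟨hq2, le_rfl⟩)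
      obtain ⟨i, hi⟩ := hE2 fun n m => N' (n, m)
      refine ⟨(q2, p1), ⟨hq2, le_rfl⟩, mem_fex_of_mem i (down_SameReal _ _) ?_⟩
      exact (Rel.sameReal hx (fun n m => rel_up q2 (E i n m)) q2 le_rfl p1).2 (hi p1 h2)

end

end Pool.Agent.Helper669.Lift
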