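import Mathlib

/-!
# The sequence of the cardinals which are preserved by the product of collapses
-/

namespace Pool.Agent.Helper669.Seq

open Cardinal Ordinal Order

/-- `L 0 = ℵ₀`, `L (a + 1)` is the successor of `L a` if `a` is zero or a limit, and the successor
of `2 ^ L a` otherwise; `L` is continuous. -/
noncomputable def L (o : Ordinal.{0}) : Cardinal.{0} :=
  Ordinal.limitRecOn (motive := fun _ => Cardinal.{0}) o ℵ₀
    (fun a c => open Classical in if IsSuccPrelimit a then succ c else succ (2 ^ c))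
    (fun a _ f => ⨆ b : Set.Iio a, f b.1 b.2)

theorem L_zero : L 0 = ℵ₀ := by rw [L, limitRecOn_zero]

theorem L_add_one_pre {a : Ordinal.{0}} (h : IsSuccPrelimit a) : L (a + 1) = succ (L a) := by
  rw [L, limitRecOn_add_one, if_pos h]; rfl

theorem L_add_one_not {a : Ordinal.{0}} (h : ¬ IsSuccPrelimit a) : L (a + 1) = succ (2 ^ L a) := by
  rw [L, limitRecOn_add_one, if_neg h]; rfl

theorem L_limit {a : Ordinal.{0}} (h : IsSuccLimit a) : L a = ⨆ b : Set.Iio a, L b.1 := by
  rw [L, limitRecOn_limit _ _ _ _ h]; rfl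

theorem L_lt_add_one (a : Ordinal.{0}) : L a < L (a + 1) := by
  by_cases h : IsSuccPrelimit a
  · rw [L_add_one_pre h]; exact lt_succ _
  · rw [L_add_one_not h]; exact (cantor _).trans (lt_succ _)

theorem isNormal_L : IsNormal L := by
  refine IsNormal.of_succ_lt (fun a => ?_) fun {a} ha => ?_
  · rw [succ_eq_add_one]; exact L_lt_add_one a
  · rw [L_limit ha]
    have hb : BddAbove (Set.range fun b : Set.Iio a => L b.1) := bddAbove_of_small
    have h1 : L '' Set.Iio a = Set.range fun b : Set.Iio a => L b.1 := by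
      ext c
      simp
    rw [h1]
    have : Nonempty (Set.Iio a) := ⟨⟨0, ha.bot_lt⟩⟩
    exact isLUB_ciSup hb

theorem L_strictMono : StrictMono L := isNormal_L.strictMono

theorem L_lt {a b : Ordinal.{0}} (h : a < b) : L a < L b := L_strictMono h

theorem L_le {a b : Ordinal.{0}} (h : a ≤ b) : L a ≤ L b := L_strictMono.monotone h

theorem aleph0_le_L (a : Ordinal.{0}) : ℵ₀ ≤ L a := by
  rw [← L_zero]; exact L_le bot_le

theorem L_one : L 1 = ℵ₁ := by
  have h : L (0 + 1) = succ (L 0) := L_add_one_pre isSuccPrelimit_bot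
  rw [zero_add] at h
  rw [h, L_zero, succ_aleph0]

theorem isRegular_L_add_one (a : Ordinal.{0}) : (L (a + 1)).IsRegular := by
  by_cases h : IsSuccPrelimit a
  · rw [L_add_one_pre h]; exact isRegular_succ (aleph0_le_L a)
  · rw [L_add_one_not h]
    exact isRegular_succ ((aleph0_le_L a).trans (cantor _).le)

theorem aleph0_lt_L_add_one (a : Ordinal.{0}) : ℵ₀ < L (a + 1) :=
  (aleph0_le_L a).trans_lt (L_lt_add_one a)

theorem two_power_lt (a : Ordinal.{0}) : 2 ^ L (a + 1) < L (a + 1 + 1) := by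
  have h : ¬ IsSuccPrelimit (a + 1) := by
    rw [← succ_eq_add_one]
    exact not_isSuccPrelimit_succ a
  rw [L_add_one_not h]
  exact lt_succ _

theorem lt_L_limit {a : Ordinal.{0}} (ha : IsSuccLimit a) {c : Cardinal.{0}} :
    c < L a ↔ ∃ b < a, c < L b := isNormal_L.lt_iff_exists_lt ha

theorem isStrongLimit_L : (L ω₁).IsStrongLimit := by
  have ha := isSuccLimit_omega (1 : Ordinal.{0})
  refine ⟨(aleph0_pos.trans_le (aleph0_le_L _)).ne', fun ν hν => ?_⟩
  obtain ⟨b, hb, hνb⟩ := (lt_L_limit ha).1 hν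
  have h1 : b + 1 < ω₁ := by rw [← succ_eq_add_one]; exact ha.succ_lt hb
  have h2 : b + 1 + 1 < ω₁ := by rw [← succ_eq_add_one (b + 1)]; exact ha.succ_lt h1
  calc 2 ^ ν ≤ 2 ^ L (b + 1) := power_le_power_left two_ne_zero (hνb.trans (L_lt_add_one b)).le
    _ < L (b + 1 + 1) := two_power_lt b
    _ < L ω₁ := L_lt h2

theorem cof_L : (L ω₁).ord.cof = ℵ₁ := by
  have h := cof_map_of_isNormal (isNormal_ord.comp isNormal_L) (isSuccLimit_omega 1)
  exact h.trans cof_omega_one

/-- every cardinal between `ℵ₀` and `L ω₁` lies in one of the intervals `[L a, L (a + 1))` or is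
`L ω₁` -/
theorem exists_interval {ν : Cardinal.{0}} (h0 : ℵ₀ ≤ ν) (h1 : ν < L ω₁) :
    ∃ a < ω₁, L a ≤ ν ∧ ν < L (a + 1) := by
  obtain ⟨a, ha, ha'⟩ := isNormal_L.exists_map_le_lt_map_succ_of_exists_ge ⟨ω₁, h1.le⟩
    (show L ⊥ ≤ ν by rw [show (⊥ : Ordinal) = 0 from rfl, L_zero]; exact h0)
  rw [succ_eq_add_one] at ha'
  exact ⟨a, L_strictMono.lt_iff_lt.1 (ha.trans_lt h1), ha, ha'⟩

end Pool.Agent.Helper669.Seq
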