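import Mathlib
import Pool.Agent.Helper669.Seq
import Pool.Agent.Helper669.Lift

/-!
# The product of the collapses
-/

namespace Pool.Agent.Helper669.Coll

open Cardinal Ordinal Order Pool.Agent.Helper669.Forcing Pool.Agent.Helper669.GBase
  Pool.Agent.Helper669.Forcing2 Pool.Agent.Helper669.Easton Pool.Agent.Helper669.Seq
  Pool.Agent.Helper669.Lift

set_option linter.unusedSectionVars false

/-! ### One collapse -/

/-- partial functions of size less than `|K|` from `K` to `M` -/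
def Lv (K M : Type) : Type := {f : K → Option M // #{k | f k ≠ none} < #K}

instance (K M : Type) : Preorder (Lv K M) where
  le s' s := ∀ k m, s.1 k = some m → s'.1 k = some m
  le_refl _ _ _ h := h
  le_trans _ _ _ hab hbc k x h := hab k x (hbc k x h)

theorem Lv_closed {K M : Type} (hK : (#K).IsRegular) (S : Set (Lv K M))
    (hS : ∀ s ∈ S, ∀ t ∈ S, s ≤ t ∨ t ≤ s) (hcard : #S < #K) : ∃ t, ∀ s ∈ S, t ≤ s := by
  classical
  let f : K → Option M := fun k =>
    if h : ∃ s ∈ S, s.1 k ≠ none then h.choose.1 k else none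
  have hf : ∀ s ∈ S, ∀ k x, s.1 k = some x → f k = some x := by
    intro s hs k x hx
    have h : ∃ s ∈ S, s.1 k ≠ none := ⟨s, hs, by rw [hx]; simp⟩
    have h1 : f k = h.choose.1 k := dif_pos h
    rw [h1]
    have h2 := h.choose_spec.1
    have h3 := h.choose_spec.2
    rcases hS s hs _ h2 with h4 | h4
    · obtain ⟨x0, hx0⟩ := Option.ne_none_iff_exists'.1 h3
      have := h4 k x0 hx0
      rw [hx0, ← this, hx]
    · exact h4 k x hx
  have hsub : {k | f k ≠ none} ⊆ ⋃ s, ⋃ _ : s ∈ S, {k | s.1 k ≠ none} := by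
    intro k hk
    by_cases h : ∃ s ∈ S, s.1 k ≠ none
    · obtain ⟨s, hs, hsk⟩ := h
      exact Set.mem_iUnion.2 ⟨s, Set.mem_iUnion.2 ⟨hs, hsk⟩⟩
    · exact absurd (dif_neg h) hk
  refine ⟨⟨f, (mk_le_mk_of_subset hsub).trans_lt ?_⟩, fun s hs k x hx => hf s hs k x hx⟩
  refine (card_biUnion_lt_iff_forall_of_isRegular
    (t := fun (s : Lv K M) _ => {k | s.1 k ≠ none}) hK hcard).2 ?_
  exact fun s _ => s.2

theorem mk_Lv_le {K M : Type} (hK : ℵ₀ ≤ #K) (hM : #M ≤ 2 ^ #K) : #(Lv K M) ≤ 2 ^ #K := by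
  have hpow : ℵ₀ ≤ 2 ^ #K := hK.trans (cantor _).le
  refine (mk_subtype_le _).trans ?_
  have h1 : #(K → Option M) = #(Option M) ^ #K := by simp
  rw [h1]
  have h2 : #(Option M) ≤ 2 ^ #K := by
    rw [mk_option]
    exact (add_le_add hM (one_le_aleph0.trans hpow)).trans (add_eq_self hpow).le
  refine (power_le_power_right h2).trans ?_
  rw [← power_mul, mul_eq_self hK]

/-! ### The product -/

abbrev Ix : Type := (ω₁ : Ordinal.{0}).ToType

noncomputable def oo (α : Ix) : Ordinal.{0} := (ToType.toOrd α).1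

theorem oo_lt (α : Ix) : oo α < ω₁ := (ToType.toOrd α).2

theorem oo_lt_iff {α β : Ix} : oo α < oo β ↔ α < β :=
  (ToType.mk.symm.lt_iff_lt (x := α) (y := β))

theorem oo_le_iff {α β : Ix} : oo α ≤ oo β ↔ α ≤ β := by
  rw [← not_lt, ← not_lt, oo_lt_iff]

theorem exists_oo {a : Ordinal.{0}} (ha : a < ω₁) : ∃ α : Ix, oo α = a :=
  ⟨ToType.mk ⟨a, ha⟩, by simp [oo, ToType.toOrd]⟩

/-- the cardinal `θ_α`, on which the `α`-th collapse lives -/
noncomputable def th (α : Ix) : Cardinal.{0} := L (oo α + 1)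

theorem th_reg (α : Ix) : (th α).IsRegular := isRegular_L_add_one _

theorem th_unc (α : Ix) : ℵ₀ < th α := aleph0_lt_L_add_one _

theorem th_le {α β : Ix} (h : α ≤ β) : th α ≤ th β := by
  refine L_le ?_
  have := oo_le_iff.2 h
  gcongr

def KK (α : Ix) : Type := (th α).out

def MM (α : Ix) : Type := (2 ^ th α : Cardinal.{0}).out

theorem mk_KK (α : Ix) : #(KK α) = th α := mk_out _

theorem mk_MM (α : Ix) : #(MM α) = 2 ^ th α := mk_out _

abbrev QQ : Type := ∀ α : Ix, Lv (KK α) (MM α)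

theorem pi_closed {A : Type} (f : A → Ix) (S : Set (∀ a : A, Lv (KK (f a)) (MM (f a))))
    (hS : ∀ s ∈ S, ∀ t ∈ S, s ≤ t ∨ t ≤ s) (hcard : ∀ a, #S < th (f a)) :
    ∃ t, ∀ s ∈ S, t ≤ s := by
  have h : ∀ a : A, ∃ t : Lv (KK (f a)) (MM (f a)), ∀ s ∈ S, t ≤ s a := by
    intro a
    obtain ⟨t, ht⟩ := Lv_closed (by rw [mk_KK]; exact th_reg _) ((fun s => s a) '' S) (by
      rintro _ ⟨s, hs, rfl⟩ _ ⟨t, ht, rfl⟩
      exact (hS s hs t ht).imp (fun h => h a) fun h => h a) (by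
      rw [mk_KK]; exact mk_image_le.trans_lt (hcard a))
    exact ⟨t, fun s hs => ht _ ⟨s, hs, rfl⟩⟩
  choose t ht using h
  exact ⟨t, fun s hs a => ht a s hs⟩

theorem sc_QQ : SC QQ := by
  intro S hS hc _
  refine pi_closed (fun α : Ix => α) S hS fun α => ?_
  exact (Cardinal.le_aleph0_iff_set_countable.2 hc).trans_lt (th_unc α)

/-! ### Cutting the product -/

abbrev Lo (c : Ix) : Type := ∀ α : Set.Iio c, Lv (KK α.1) (MM α.1)

abbrev Hi (c : Ix) : Type := ∀ α : Set.Ici c, Lv (KK α.1) (MM α.1)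

open Classical in
noncomputable def glQ (c : Ix) (l : Lo c) (t : Hi c) : QQ := fun α =>
  if h : α < c then l ⟨α, h⟩ else t ⟨α, not_lt.1 h⟩

def lo (c : Ix) (q : QQ) : Lo c := fun α => q α.1

def hi (c : Ix) (q : QQ) : Hi c := fun α => q α.1

theorem glQ_lo_hi (c : Ix) (q : QQ) : glQ c (lo c q) (hi c q) = q := by
  funext α
  by_cases h : α < c
  · simp [glQ, h, lo]
  · simp [glQ, h, hi]

theorem lo_glQ (c : Ix) (l : Lo c) (t : Hi c) : lo c (glQ c l t) = l := by
  funext α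
  have h : α.1 < c := α.2
  simp [glQ, lo, h]

theorem hi_glQ (c : Ix) (l : Lo c) (t : Hi c) : hi c (glQ c l t) = t := by
  funext α
  have h : ¬ α.1 < c := not_lt.2 α.2
  simp [glQ, hi, h]

theorem glQ_mono {c : Ix} {l l' : Lo c} {t t' : Hi c} (h : l' ≤ l) (h' : t' ≤ t) :
    glQ c l' t' ≤ glQ c l t := by
  intro α
  by_cases hα : α < c
  · simp only [glQ, hα, dif_pos]
    exact h ⟨α, hα⟩
  · simp only [glQ, hα, dif_neg, not_false_iff]
    exact h' ⟨α, not_lt.1 hα⟩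

theorem lo_mono {c : Ix} {q q' : QQ} (h : q' ≤ q) : lo c q' ≤ lo c q := fun α => h α.1

theorem hi_mono {c : Ix} {q q' : QQ} (h : q' ≤ q) : hi c q' ≤ hi c q := fun α => h α.1

/-- good cuts -/
def Good (c : Ix) : Prop := ¬ IsSuccLimit (oo c)

theorem countable_Iio (c : Ix) : Countable (Set.Iio c) := by
  have h1 : Countable (Set.Iio (oo c)) := by
    have h2 : (oo c).card ≤ ℵ₀ := by
      have h3 : (oo c).card < ℵ₁ := by
        rw [← lt_ord, ord_aleph]
        exact oo_lt c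
      rw [← succ_aleph0] at h3
      exact lt_succ_iff.1 h3
    rw [← mk_le_aleph0_iff, Cardinal.mk_Iio_ordinal, lift_le_aleph0]
    exact h2
  exact (Function.Injective.countable (f := fun α : Set.Iio c =>
    (⟨oo α.1, oo_lt_iff.2 α.2⟩ : Set.Iio (oo c))) (by
      intro α β h
      have h0 : ∀ x y : Set.Iio (oo c), x = y → x.1 = y.1 := by
        rintro x _ rfl; rfl
      have h1 : oo α.1 = oo β.1 := h0 _ _ h
      apply Subtype.ext
      apply le_antisymm
      · exact oo_le_iff.1 h1.le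
      · exact oo_le_iff.1 h1.ge))

theorem mk_Lo_lt {c : Ix} (hc : Good c) : #(Lo c) < th c := by
  have hcount := countable_Iio c
  by_cases h0 : oo c = 0
  · have hempty : IsEmpty (Set.Iio c) := ⟨fun α => by
      have := oo_lt_iff.2 α.2
      rw [h0] at this
      exact absurd this (by simp)⟩
    have h1 : #(Lo c) = 1 := by
      rw [eq_one_iff_unique]
      exact ⟨inferInstance, inferInstance⟩
    rw [h1]
    exact one_lt_aleph0.trans (th_unc c)
  · obtain ⟨b, hb⟩ : ∃ b, oo c = b + 1 := by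
      by_contra hcon
      push Not at hcon
      apply hc
      refine ⟨fun hmin => h0 (hmin.eq_bot), fun a ha => ?_⟩
      apply hcon a
      rw [← succ_eq_add_one]
      exact ha.succ_eq.symm
    have hth : th c = succ (2 ^ L (b + 1)) := by
      rw [th, hb]
      refine L_add_one_not ?_
      rw [← succ_eq_add_one]
      exact not_isSuccPrelimit_succ b
    rw [hth, lt_succ_iff]
    set μ : Cardinal.{0} := 2 ^ L (b + 1) with hμ
    have hLinf : ℵ₀ ≤ L (b + 1) := aleph0_le_L _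
    have h1 : ∀ α : Set.Iio c, #(Lv (KK α.1) (MM α.1)) ≤ μ := by
      intro α
      have h2 : th α.1 ≤ L (b + 1) := by
        refine L_le ?_
        have h3 := oo_lt_iff.2 α.2
        rw [hb] at h3
        have h4 : oo α.1 ≤ b := by
          rw [← succ_eq_add_one] at h3
          exact lt_succ_iff.1 h3
        gcongr
      refine (mk_Lv_le (by rw [mk_KK]; exact (th_unc _).le) (by rw [mk_KK, mk_MM])).trans ?_
      rw [mk_KK]
      exact power_le_power_left two_ne_zero h2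
    rw [mk_pi]
    refine (prod_le_prod _ (fun _ => μ) h1).trans ?_
    rw [prod_const']
    have h5 : #(Set.Iio c) ≤ L (b + 1) := mk_le_aleph0.trans hLinf
    calc μ ^ #(Set.Iio c) ≤ μ ^ L (b + 1) :=
          power_le_power_left (power_ne_zero _ two_ne_zero) h5
      _ = 2 ^ (L (b + 1) * L (b + 1)) := by rw [hμ, ← power_mul]
      _ = μ := by rw [mul_eq_self hLinf]

/-! ### Preservation -/

variable {P : Type} [Preorder P]

theorem low_cc (hP : AC P) {c : Ix} (hc : Good c) (A : Set (Lo c × P))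
    (hA : ∀ a ∈ A, ∀ b ∈ A, Compat a b → a = b) : #A < th c := by
  have h1 : #A ≤ #(Σ l : Lo c, {p : P | (l, p) ∈ A}) := by
    refine mk_le_of_injective (f := fun a : A => ⟨a.1.1, ⟨a.1.2, a.2⟩⟩) ?_
    intro a b hab
    have h2 : a.1.1 = b.1.1 := congrArg Sigma.fst hab
    have h3 : a.1.2 = b.1.2 := by
      have : ∀ (x y : Σ l : Lo c, {p : P | (l, p) ∈ A}), x = y → x.2.1 = y.2.1 := by
        rintro x _ rfl; rfl
      exact this _ _ hab
    exact Subtype.ext (Prod.ext h2 h3)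
  refine h1.trans_lt ?_
  rw [mk_sigma]
  refine (Cardinal.sum_le_sum _ (fun _ => ℵ₀) fun l => ?_).trans_lt ?_
  · refine Cardinal.le_aleph0_iff_set_countable.2 (hP _ fun p hp p' hp' hcomp => ?_)
    obtain ⟨s, hs1, hs2⟩ := hcomp
    exact congrArg Prod.snd (hA _ hp _ hp' ⟨(l, s), ⟨le_rfl, hs1⟩, ⟨le_rfl, hs2⟩⟩)
  · rw [Cardinal.sum_const']
    exact mul_lt_of_lt (th_unc c).le (mk_Lo_lt hc) (th_unc c)

theorem hi_closed (c : Ix) (S : Set (Hi c)) (hS : ∀ s ∈ S, ∀ t ∈ S, s ≤ t ∨ t ≤ s)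
    (hcard : #S < th c) (_ : S.Nonempty) : ∃ t, ∀ s ∈ S, t ≤ s :=
  pi_closed (fun α : Set.Ici c => α.1) S hS fun α => hcard.trans_le (th_le α.2)

/-- covering a set of size `L (oo δ)` by countably many small pieces -/
theorem exists_cover (δ : Ix) {Z : Type} (hZ : #Z ≤ L (oo δ)) :
    ∃ Λ : Ix → Set Z, (∀ c, #(Λ c) ≤ L (oo c)) ∧ ∀ z, ∃ c ≤ δ, Good c ∧ z ∈ Λ c := by
  obtain ⟨g⟩ : Nonempty (Z ↪ (L (oo δ)).ord.ToType) :=
    Cardinal.le_def _ _ |>.1 (by rw [mk_toType, card_ord]; exact hZ)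
  let ρ : Z → Ordinal.{0} := fun z => (ToType.toOrd (g z)).1
  have hρ : ∀ z, ρ z < (L (oo δ)).ord := fun z => (ToType.toOrd (g z)).2
  have hρi : Function.Injective ρ := by
    intro z z' h
    apply g.injective
    have : ToType.toOrd (g z) = ToType.toOrd (g z') := Subtype.ext h
    exact ToType.mk.symm.injective this
  refine ⟨fun c => {z | ρ z < (L (oo c)).ord}, fun c => ?_, fun z => ?_⟩
  · have h1 : lift.{1} #{z | ρ z < (L (oo c)).ord} ≤ lift.{0} #(Set.Iio (L (oo c)).ord) := by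
      refine lift_mk_le_lift_mk_of_injective (α := {z | ρ z < (L (oo c)).ord})
        (β := Set.Iio (L (oo c)).ord) (f := fun z => ⟨ρ z.1, z.2⟩) ?_
      intro z z' h
      have h0 : ∀ x y : Set.Iio (L (oo c)).ord, x = y → x.1 = y.1 := by
        rintro x _ rfl; rfl
      exact Subtype.ext (hρi (h0 _ _ h))
    rw [Cardinal.mk_Iio_ordinal, card_ord] at h1
    simpa using h1
  · by_cases hδ : Good δ
    · exact ⟨δ, le_rfl, hδ, hρ z⟩
    · have hlim : IsSuccLimit (oo δ) := not_not.1 hδ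
      have h1 : (ρ z).card < L (oo δ) := lt_ord.1 (hρ z)
      obtain ⟨b, hb, hlt⟩ := (lt_L_limit hlim).1 h1
      have hb1 : b + 1 < oo δ := by rw [← succ_eq_add_one]; exact hlim.succ_lt hb
      obtain ⟨c, hc⟩ := exists_oo (hb1.trans (oo_lt δ))
      refine ⟨c, ?_, ?_, ?_⟩
      · exact oo_le_iff.1 (hc ▸ hb1.le)
      · intro h
        rw [hc, ← succ_eq_add_one] at h
        exact not_isSuccPrelimit_succ b h.isSuccPrelimit
      · show ρ z < (L (oo c)).ord
        rw [hc, lt_ord]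
        exact hlt.trans (L_lt_add_one b)

theorem noOnto_step (hP : AC P) (δ : Ix) {Z X : Type} (hZ : #Z ≤ L (oo δ)) (hX : #X = th δ) :
    NoOnto (QQ × P) Z X := by
  classical
  intro R d hfun honto
  obtain ⟨Λ, hΛ, hcov⟩ := exists_cover δ hZ
  -- enumerate the good cuts
  have hΓc : {c | c ≤ δ ∧ Good c}.Countable := by
    have h1 : (Set.Iic δ).Countable := by
      have h2 : Set.Iic δ = insert δ (Set.Iio δ) := by
        ext y; simp [le_iff_eq_or_lt]
      rw [h2]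
      have h3 : (Set.Iio δ).Countable := countable_Iio δ
      exact h3.insert δ
    exact h1.mono fun c hc => hc.1
  have hΓne : {c | c ≤ δ ∧ Good c}.Nonempty := by
    obtain ⟨c, hc⟩ := exists_oo (a := 0) (omega_pos 1)
    refine ⟨c, ?_, ?_⟩
    · rw [← oo_le_iff, hc]; exact bot_le
    · intro h
      rw [hc] at h
      exact h.1 isMin_bot
  obtain ⟨cs, hcs⟩ := hΓc.exists_eq_range hΓne
  have hgood : ∀ n, cs n ≤ δ ∧ Good (cs n) := fun n => by
    have : cs n ∈ {c | c ≤ δ ∧ Good c} := by rw [hcs]; exact ⟨n, rfl⟩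
    exact this
  -- deciding the values
  let D : (c : Ix) → Λ c → Lo c × P → Hi c → Prop := fun c z b t =>
    (∃ x, (glQ c b.1 t, b.2) ∈ meets (R z.1 x)) ∨ ∀ x, (glQ c b.1 t, b.2) ∈ fnot (meets (R z.1 x))
  have hstep : ∀ (c : Ix) (q : QQ), Good c → ∃ t' ≤ hi c q, ∀ z b, ∃ b' ≤ b, D c z b' t' := by
    intro c q hc
    refine easton (th_reg c) (low_cc hP hc) (hi_closed c)
      ((hΛ c).trans_lt (L_lt_add_one _)) (D c) ?_ ?_ (hi c q)
    · rintro z b t (⟨x, h⟩ | h) b' hb' t' ht'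
      · exact Or.inl ⟨x, down_meets _ _ h _ ⟨glQ_mono hb'.1 ht', hb'.2⟩⟩
      · exact Or.inr fun x => down_fnot _ _ (h x) _ ⟨glQ_mono hb'.1 ht', hb'.2⟩
    · intro z b t
      have h1 : ∃ e ≤ (glQ c b.1 t, b.2), (∃ x, e ∈ meets (R z.1 x)) ∨
          ∀ x, e ∈ fnot (meets (R z.1 x)) := by
        by_cases h : ∀ x, (glQ c b.1 t, b.2) ∈ fnot (meets (R z.1 x))
        · exact ⟨_, le_rfl, Or.inr h⟩
        · simp only [fnot, Set.mem_ofPred_eq, not_forall, not_not] at h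
          obtain ⟨x, e, he, h'⟩ := h
          exact ⟨e, he, Or.inl ⟨x, h'⟩⟩
      obtain ⟨⟨q', p'⟩, he, h⟩ := h1
      refine ⟨(lo c q', p'), ⟨?_, he.2⟩, hi c q', ?_, ?_⟩
      · have := lo_mono (c := c) he.1
        rwa [lo_glQ] at this
      · have := hi_mono (c := c) he.1
        rwa [hi_glQ] at this
      · show (∃ x, (glQ c (lo c q') (hi c q'), p') ∈ meets (R z.1 x)) ∨
          ∀ x, (glQ c (lo c q') (hi c q'), p') ∈ fnot (meets (R z.1 x))
        rw [glQ_lo_hi]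
        exact h
  have hstep' : ∀ (n : ℕ) (q : QQ), ∃ t' ≤ hi (cs n) q, ∀ z b, ∃ b' ≤ b, D (cs n) z b' t' :=
    fun n q => hstep (cs n) q (hgood n).2
  choose tt htt httD using hstep'
  let sq : ℕ → QQ := fun n => Nat.rec d.1 (fun n q => glQ (cs n) (lo (cs n) q) (tt n q)) n
  have hsq : ∀ n, sq (n + 1) = glQ (cs n) (lo (cs n) (sq n)) (tt n (sq n)) := fun n => rfl
  have hsq' : ∀ n, sq (n + 1) ≤ sq n := by
    intro n
    rw [hsq]
    calc glQ (cs n) (lo (cs n) (sq n)) (tt n (sq n))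
        ≤ glQ (cs n) (lo (cs n) (sq n)) (hi (cs n) (sq n)) := glQ_mono le_rfl (htt n (sq n))
      _ = sq n := glQ_lo_hi _ _
  have hanti : ∀ {m n}, m ≤ n → sq n ≤ sq m := by
    intro m n h
    induction n, h using Nat.le_induction with
    | base => exact le_rfl
    | succ n _ ih => exact (hsq' n).trans ih
  obtain ⟨qw, hqw⟩ := sc_QQ (Set.range sq) (by
    rintro _ ⟨m, rfl⟩ _ ⟨n, rfl⟩
    rcases le_total m n with h | h
    · exact Or.inr (hanti h)
    · exact Or.inl (hanti h)) (Set.countable_range sq) ⟨_, 0, rfl⟩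
  have hqwn : ∀ n, qw ≤ sq n := fun n => hqw _ ⟨n, rfl⟩
  have hqd : ((qw, d.2) : QQ × P) ≤ d := ⟨hqwn 0, le_rfl⟩
  -- the possible values
  let V : (n : ℕ) → Λ (cs n) → Set X := fun n z =>
    {x | ∃ b ≤ ((lo (cs n) (sq n), d.2) : Lo (cs n) × P),
      (glQ (cs n) b.1 (tt n (sq n)), b.2) ∈ meets (R z.1 x)}
  have hle : ∀ n, ∀ b ≤ ((lo (cs n) (sq n), d.2) : Lo (cs n) × P),
      ((glQ (cs n) b.1 (tt n (sq n)), b.2) : QQ × P) ≤ d := by
    intro n b hb
    refine ⟨?_, hb.2⟩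
    calc glQ (cs n) b.1 (tt n (sq n)) ≤ glQ (cs n) (lo (cs n) (sq n)) (tt n (sq n)) :=
          glQ_mono hb.1 le_rfl
      _ ≤ sq n := hsq' n
      _ ≤ d.1 := hanti (Nat.zero_le n)
  have huniq : ∀ e ≤ d, ∀ z x x', e ∈ meets (R z x) → e ∈ meets (R z x') → x = x' := by
    intro e he z x x' h h'
    obtain ⟨_, _, h''⟩ := mem_fimp.1 (hfun z x x') e he ⟨h, h'⟩
    exact h''
  have hV : ∀ n z, #(V n z) < th (cs n) := by
    intro n z
    choose f hf1 hf2 using fun x : V n z => x.2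
    have hcompat : ∀ x x', Compat (f x) (f x') → x = x' := by
      rintro x x' ⟨s, hs1, hs2⟩
      apply Subtype.ext
      have hs : s ≤ ((lo (cs n) (sq n), d.2) : Lo (cs n) × P) := hs1.trans (hf1 x)
      refine huniq _ (hle n s hs) z.1 x.1 x'.1 ?_ ?_
      · exact down_meets _ _ (hf2 x) _ ⟨glQ_mono hs1.1 le_rfl, hs1.2⟩
      · exact down_meets _ _ (hf2 x') _ ⟨glQ_mono hs2.1 le_rfl, hs2.2⟩
    have hinj : Function.Injective f := fun x x' h => hcompat x x' (by
      rw [h]; exact ⟨f x', le_rfl, le_rfl⟩)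
    have h1 := low_cc hP (hgood n).2 (Set.range f) (by
      rintro _ ⟨x, rfl⟩ _ ⟨x', rfl⟩ h
      rw [hcompat x x' h])
    rwa [mk_range_eq f hinj] at h1
  have hU : #(⋃ n, ⋃ z, V n z) < th δ := by
    refine (card_iUnion_lt_iff_forall_of_isRegular (th_reg δ) (by
      rw [mk_nat]; exact th_unc δ)).2 fun n => ?_
    refine (card_iUnion_lt_iff_forall_of_isRegular (th_reg δ) ?_).2 fun z => ?_
    · exact ((hΛ (cs n)).trans_lt (L_lt_add_one _)).trans_le (th_le (hgood n).1)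
    · exact (hV n z).trans_le (th_le (hgood n).1)
  -- every element of `X` is a possible value
  have hall : ∀ x, x ∈ ⋃ n, ⋃ z, V n z := by
    intro x
    obtain ⟨⟨q', p'⟩, hd', z, hz⟩ := mem_fex.1 (honto x) (qw, d.2) hqd
    obtain ⟨c, hcδ, hcg, hzc⟩ := hcov z
    obtain ⟨n, hn⟩ : c ∈ Set.range cs := by rw [← hcs]; exact ⟨hcδ, hcg⟩
    subst hn
    have hq'n : q' ≤ sq (n + 1) := hd'.1.trans (hqwn (n + 1))
    have hlo : lo (cs n) q' ≤ lo (cs n) (sq n) := lo_mono (hq'n.trans (hsq' n))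
    have hhi : hi (cs n) q' ≤ tt n (sq n) := by
      have := hi_mono (c := cs n) hq'n
      rwa [hsq, hi_glQ] at this
    obtain ⟨b', hb', hD⟩ := httD n (sq n) ⟨z, hzc⟩ (lo (cs n) q', p')
    have hb'l : b' ≤ ((lo (cs n) (sq n), d.2) : Lo (cs n) × P) :=
      hb'.trans ⟨hlo, hd'.2⟩
    -- a common extension
    have he1 : ((glQ (cs n) b'.1 (hi (cs n) q'), b'.2) : QQ × P) ≤ (q', p') := by
      refine ⟨?_, hb'.2⟩
      calc glQ (cs n) b'.1 (hi (cs n) q') ≤ glQ (cs n) (lo (cs n) q') (hi (cs n) q') :=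
            glQ_mono hb'.1 le_rfl
        _ = q' := glQ_lo_hi _ _
    have he2 : ((glQ (cs n) b'.1 (hi (cs n) q'), b'.2) : QQ × P) ≤
        (glQ (cs n) b'.1 (tt n (sq n)), b'.2) := ⟨glQ_mono le_rfl hhi, le_rfl⟩
    rcases hD with ⟨x', hx'⟩ | hD
    · have h1 : x = x' := huniq _ (he1.trans (hd'.trans hqd)) z x x'
        (down_meets _ _ hz _ he1) (down_meets _ _ hx' _ he2)
      refine Set.mem_iUnion.2 ⟨n, Set.mem_iUnion.2 ⟨⟨z, hzc⟩, b', hb'l, ?_⟩⟩
      rw [h1]
      exact hx'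
    · exact absurd (down_meets _ _ hz _ he1) (hD x _ he2)
  rw [Set.eq_univ_of_forall hall, mk_univ, hX] at hU
  exact lt_irrefl _ hU

end Pool.Agent.Helper669.Coll
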