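import Mathlib

/-!
# The dominating number and the strong polarized relation
-/

namespace Pool.Agent.Helper669.Dom

open Cardinal Filter

/-- `F` is a dominating family: every function from `ℕ` to `ℕ` is eventually bounded by a member
of `F`. -/
def IsDominating (F : Set (ℕ → ℕ)) : Prop :=
  ∀ g : ℕ → ℕ, ∃ f ∈ F, ∀ᶠ n in atTop, g n ≤ f n

/-- The dominating number `𝔡`: the least cardinality of a dominating family. -/
noncomputable def dNum : Cardinal.{0} :=
  sInf {κ | ∃ F : Set (ℕ → ℕ), IsDominating F ∧ #F = κ}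

/-- The strong polarized relation: for every colouring `c` of `lam × kap` with two colours there
are a subset `A` of `lam` of size `lam` and a subset `B` of `kap` of size `kap` such that `c` is
constant on `A × B`. -/
def StrongPolarized (lam kap : Cardinal.{0}) : Prop :=
  ∀ c : lam.out → kap.out → Fin 2, ∃ (A : Set lam.out) (B : Set kap.out),
    #A = lam ∧ #B = kap ∧ ∃ i, ∀ a ∈ A, ∀ b ∈ B, c a b = i

theorem exists_dominating : ∃ F : Set (ℕ → ℕ), IsDominating F ∧ #F = dNum :=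
  csInf_mem (s := {κ : Cardinal.{0} | ∃ F : Set (ℕ → ℕ), IsDominating F ∧ #F = κ})
    ⟨_, Set.univ, fun g => ⟨g, Set.mem_univ g, Eventually.of_forall fun _ => le_rfl⟩, rfl⟩

theorem not_dominating {ι : Type} (h : #ι < dNum) (f : ι → ℕ → ℕ) :
    ∃ g : ℕ → ℕ, ∀ i, ∃ᶠ n in atTop, f i n < g n := by
  by_contra hcon
  have h1 : IsDominating (Set.range f) := by
    intro g
    by_contra hg
    apply hcon
    refine ⟨g, fun i hi => hg ⟨f i, ⟨i, rfl⟩, ?_⟩⟩
    filter_upwards [hi] with n hn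
    exact not_lt.1 hn
  have h2 : dNum ≤ #(Set.range f) := csInf_le' ⟨_, h1, rfl⟩
  exact absurd (h2.trans mk_range_le) (not_le.2 h)

theorem dNum_le {ι : Type} (f : ι → ℕ → ℕ) (h : ∀ g : ℕ → ℕ, ∃ i, ∀ᶠ n in atTop, g n ≤ f i n) :
    dNum ≤ #ι := by
  by_contra hlt
  obtain ⟨g, hg⟩ := not_dominating (not_le.1 hlt) f
  obtain ⟨i, hi⟩ := h g
  obtain ⟨n, hn1, hn2⟩ := ((hg i).and_eventually hi).exists
  exact absurd hn2 (not_le.2 hn1)

theorem aleph0_lt_dNum : ℵ₀ < dNum := by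
  obtain ⟨F, hF, hcard⟩ := exists_dominating
  by_contra hlt
  rw [← hcard, not_lt, Cardinal.le_aleph0_iff_set_countable] at hlt
  have hne : F.Nonempty := by
    obtain ⟨f, hf, _⟩ := hF fun _ => 0
    exact ⟨f, hf⟩
  obtain ⟨e, he⟩ := hlt.exists_eq_range hne
  obtain ⟨f, hf, h⟩ := hF fun n => (Finset.range (n + 1)).sup (fun i => e i n) + 1
  rw [he] at hf
  obtain ⟨i, rfl⟩ := hf
  obtain ⟨n, hn1, hn2⟩ := (h.and (eventually_ge_atTop i)).exists
  have h3 : e i n ≤ (Finset.range (n + 1)).sup (fun i => e i n) :=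
    Finset.le_sup (f := fun i => e i n) (Finset.mem_range.2 (by omega))
  omega

/-! ### Blocks -/

theorem exists_block {a : ℕ → ℕ} (ha : StrictMono a) (h0 : a 0 = 0) (m : ℕ) :
    ∃ n, a n ≤ m ∧ m < a (n + 1) := by
  have h1 : ∃ n, m < a n := ⟨m + 1, lt_of_lt_of_le (Nat.lt_succ_self m) (ha.id_le _)⟩
  classical
  obtain ⟨k, hk⟩ : ∃ k, Nat.find h1 = k + 1 := by
    refine Nat.exists_eq_succ_of_ne_zero fun h => ?_
    have := Nat.find_spec h1
    rw [h, h0] at this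
    exact absurd this (Nat.not_lt_zero m)
  refine ⟨k, ?_, ?_⟩
  · exact not_lt.1 (Nat.find_min h1 (by omega))
  · have := Nat.find_spec h1
    rwa [hk] at this

theorem block_unique {a : ℕ → ℕ} (ha : StrictMono a) {m n n' : ℕ} (h1 : a n ≤ m)
    (h2 : m < a (n + 1)) (h3 : a n' ≤ m) (h4 : m < a (n' + 1)) : n = n' := by
  have h5 : n < n' + 1 := ha.lt_iff_lt.1 (lt_of_le_of_lt h1 h4)
  have h6 : n' < n + 1 := ha.lt_iff_lt.1 (lt_of_le_of_lt h3 h2)
  omega

/-- fewer than `𝔡` many functions: a partition into intervals, infinitely many of which are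
long for each of the functions -/
theorem partition_lemma {ι : Type} (hι : #ι < dNum) (φ : ι → ℕ → ℕ) :
    ∃ a : ℕ → ℕ, StrictMono a ∧ a 0 = 0 ∧
      ∀ i N, ∃ n, N ≤ n ∧ ∃ m, a n ≤ m ∧ φ i m ≤ a (n + 1) := by
  obtain ⟨g, hg⟩ := not_dominating hι fun i m => φ i (φ i m)
  let h : ℕ → ℕ := fun m => (Finset.range (m + 1)).sup g + m + 1
  have hh1 : ∀ m, m < h m := fun m => by show m < _ + m + 1; omega
  have hh2 : ∀ m, g m ≤ h m := fun m => by
    have : g m ≤ (Finset.range (m + 1)).sup g := Finset.le_sup (Finset.mem_range.2 (by omega))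
    show g m ≤ _ + m + 1
    omega
  have hh3 : Monotone h := by
    intro m m' hm
    have : (Finset.range (m + 1)).sup g ≤ (Finset.range (m' + 1)).sup g :=
      Finset.sup_mono (Finset.range_mono (by omega))
    show _ + m + 1 ≤ _ + m' + 1
    omega
  let a : ℕ → ℕ := fun n => h^[n] 0
  have ha1 : ∀ n, a (n + 1) = h (a n) := fun n => Function.iterate_succ_apply' h n 0
  have ha : StrictMono a := strictMono_nat_of_lt_succ fun n => by rw [ha1]; exact hh1 _
  refine ⟨a, ha, rfl, fun i N => ?_⟩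
  obtain ⟨m, hm1, hm2⟩ := ((hg i).and_eventually (eventually_ge_atTop (a N))).exists
  obtain ⟨n, hn1, hn2⟩ := exists_block ha rfl m
  have hNn : N ≤ n := by
    have : N < n + 1 := ha.lt_iff_lt.1 (lt_of_le_of_lt hm2 hn2)
    omega
  have h3 : h m ≤ a (n + 2) := by
    rw [ha1 (n + 1)]
    exact hh3 hn2.le
  have h4 : φ i (φ i m) < g m := hm1
  rcases le_total (φ i m) (a (n + 1)) with h5 | h5
  · exact ⟨n, hNn, m, hn1, h5⟩
  · exact ⟨n + 1, by omega, φ i m, h5, (h4.le.trans (hh2 m)).trans h3⟩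

/-! ### The next element of an infinite set -/

theorem exists_nx {B : Set ℕ} (hB : B.Infinite) : ∃ nx : ℕ → ℕ, ∀ m, nx m ∈ B ∧ m ≤ nx m := by
  have h : ∀ m, ∃ b, b ∈ B ∧ m ≤ b := fun m => by
    obtain ⟨b, hb, hm⟩ := hB.exists_gt m
    exact ⟨b, hb, hm.le⟩
  choose nx hnx using h
  exact ⟨nx, hnx⟩

/-! ### The negative relation -/

/-- every family of fewer than `κ` infinite subsets of `ℕ` is split by a single set -/
def Splits (κ : Cardinal.{0}) : Prop :=
  ∀ (ι : Type) (E : ι → Set ℕ), #ι < κ → (∀ i, (E i).Infinite) →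
    ∃ R : Set ℕ, ∀ i, (E i ∩ R).Infinite ∧ (E i \ R).Infinite

theorem negative (hr : Splits dNum) : ¬ StrongPolarized dNum ℵ₀ := by
  classical
  intro hpos
  obtain ⟨F, hF, hcard⟩ := exists_dominating
  let X : Type := dNum.ord.ToType
  have hX : #X = dNum := by rw [mk_toType, card_ord]
  obtain ⟨e⟩ : Nonempty (X ≃ F) := Cardinal.eq.1 (hX.trans hcard.symm)
  obtain ⟨e1⟩ : Nonempty (dNum.out ≃ X) := Cardinal.eq.1 ((mk_out _).trans hX.symm)
  obtain ⟨e2⟩ : Nonempty ((ℵ₀ : Cardinal.{0}).out ≃ ℕ) :=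
    Cardinal.eq.1 ((mk_out _).trans mk_nat.symm)
  let g : X → ℕ → ℕ := fun x m => (e x).1 m + m + 1
  have hIio : ∀ x : X, #(Set.Iio x) < dNum := fun x => by
    have := Cardinal.mk_Iio_lt x (by rw [Cardinal.mk_toType, Cardinal.card_ord,
      Ordinal.type_toType])
    rwa [Cardinal.mk_toType, Cardinal.card_ord] at this
  have hchoice : ∀ x : X, ∃ (a : ℕ → ℕ) (R : Set ℕ), StrictMono a ∧ a 0 = 0 ∧
      ∀ j < x, ({n | ∃ m, a n ≤ m ∧ g j m ≤ a (n + 1)} ∩ R).Infinite ∧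
        ({n | ∃ m, a n ≤ m ∧ g j m ≤ a (n + 1)} \ R).Infinite := by
    intro x
    obtain ⟨a, ha, h0, h⟩ := partition_lemma (ι := Set.Iio x) (hIio x) (fun j => g j.1)
    obtain ⟨R, hR⟩ := hr (Set.Iio x) (fun j => {n | ∃ m, a n ≤ m ∧ g j.1 m ≤ a (n + 1)}) (hIio x)
      (fun j => Set.infinite_of_forall_exists_gt fun N => by
        obtain ⟨n, hn, hm⟩ := h j (N + 1)
        exact ⟨n, hm, by omega⟩)
    exact ⟨a, R, ha, h0, fun j hj => hR ⟨j, hj⟩⟩
  choose a R ha h0 hR using hchoice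
  let S : X → Set ℕ := fun x => {m | ∃ n ∈ R x, a x n ≤ m ∧ m < a x (n + 1)}
  obtain ⟨A, B, hA, hB, i, hc⟩ := hpos fun p q => if e2 q ∈ S (e1 p) then 1 else 0
  have hBinf : (e2 '' B).Infinite := by
    rw [← Set.infinite_coe_iff, Cardinal.infinite_iff, Cardinal.mk_image_eq e2.injective, hB]
  obtain ⟨nx, hnx⟩ := exists_nx hBinf
  obtain ⟨f, hf, hev⟩ := hF nx
  obtain ⟨x0, hx0⟩ := e.surjective ⟨f, hf⟩
  obtain ⟨m0, hm0⟩ := eventually_atTop.1 hev
  have hgx : ∀ m ≥ m0, nx m < g x0 m := by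
    intro m hm
    have h1 := hm0 m hm
    show nx m < (e x0).1 m + m + 1
    rw [hx0]
    show nx m < f m + m + 1
    omega
  have hsub : e1 '' A ⊆ Set.Iic x0 := by
    rintro _ ⟨p, hp, rfl⟩
    by_contra hlt
    have hlt' : x0 < e1 p := not_le.1 hlt
    obtain ⟨hinf1, hinf2⟩ := hR (e1 p) x0 hlt'
    have key : ∀ n ≥ m0, (∃ m, a (e1 p) n ≤ m ∧ g x0 m ≤ a (e1 p) (n + 1)) →
        ∃ q ∈ B, a (e1 p) n ≤ e2 q ∧ e2 q < a (e1 p) (n + 1) := by
      rintro n hn ⟨m, hm1, hm2⟩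
      obtain ⟨q, hq, hqm⟩ := (hnx m).1
      have h1 : m0 ≤ m := hn.trans (((ha (e1 p)).id_le n).trans hm1)
      have h2 := hgx m h1
      have h3 := (hnx m).2
      exact ⟨q, hq, by rw [hqm]; omega, by rw [hqm]; omega⟩
    obtain ⟨n1, ⟨hE1, hR1⟩, hn1⟩ := hinf1.exists_gt m0
    obtain ⟨n2, ⟨hE2, hR2⟩, hn2⟩ := hinf2.exists_gt m0
    obtain ⟨q1, hq1, h11, h12⟩ := key n1 hn1.le hE1
    obtain ⟨q2, hq2, h21, h22⟩ := key n2 hn2.le hE2
    have hs1 : e2 q1 ∈ S (e1 p) := ⟨n1, hR1, h11, h12⟩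
    have hs2 : e2 q2 ∉ S (e1 p) := by
      rintro ⟨n, hn, h3, h4⟩
      have := block_unique (ha (e1 p)) h3 h4 h21 h22
      exact hR2 (this ▸ hn)
    have hc1 := hc p hp q1 hq1
    have hc2 := hc p hp q2 hq2
    rw [if_pos hs1] at hc1
    rw [if_neg hs2, ← hc1] at hc2
    exact absurd hc2 (by decide)
  have hle : dNum ≤ #(Set.Iic x0) := by
    have h1 : dNum = #(e1 '' A) := hA.symm.trans (Cardinal.mk_image_eq e1.injective).symm
    exact h1.le.trans (mk_le_mk_of_subset hsub)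
  have hlt : #(Set.Iic x0) < dNum := by
    have h1 : Set.Iic x0 = insert x0 (Set.Iio x0) := (Set.Iio_insert).symm
    rw [h1]
    exact (mk_insert_le).trans_lt (add_lt_of_lt aleph0_lt_dNum.le (hIio x0)
      (one_lt_aleph0.trans aleph0_lt_dNum))
  exact absurd hle (not_le.2 hlt)

end Pool.Agent.Helper669.Dom
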