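import Mathlib
import Pool.Agent.Helper669.Dom

/-!
# Reaping families, ultrafilters with small bases, and the cofinality of the dominating number
-/

namespace Pool.Agent.Helper669.Dom2

open Cardinal Filter Pool.Agent.Helper669.Dom

/-- `ℬ` is a base of the ultrafilter `U`. -/
def IsBase (U : Ultrafilter ℕ) (ℬ : Set (Set ℕ)) : Prop :=
  (∀ b ∈ ℬ, b ∈ U) ∧ ∀ s ∈ U, ∃ b ∈ ℬ, b ⊆ s

/-! ### From a small reaping family to an ultrafilter with a small base -/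

section

variable {ι : Type} (E : ι → Set ℕ) (hE : ∀ i, (E i).Infinite)

/-- the closure of the family under relativization -/
noncomputable def Hd : List ι → {Y : Set ℕ // Y.Infinite}
  | [] => ⟨Set.univ, Set.infinite_univ⟩
  | i :: l => ⟨(fun n => ((Set.Infinite.natEmbedding _ (Hd l).2) n : ℕ)) '' E i,
      (hE i).image fun _ _ _ _ h =>
        (Set.Infinite.natEmbedding _ (Hd l).2).injective (Subtype.ext h)⟩

theorem Hd_sub (i : ι) (l : List ι) : (Hd E hE (i :: l)).1 ⊆ (Hd E hE l).1 := by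
  rintro _ ⟨n, _, rfl⟩
  exact ((Set.Infinite.natEmbedding _ (Hd E hE l).2) n).2

theorem reap (h : ∀ R : Set ℕ, ∃ i, ¬ ((E i ∩ R).Infinite ∧ (E i \ R).Infinite)) (l : List ι)
    (S : Set ℕ) : ∃ i, ((Hd E hE (i :: l)).1 ∩ S).Finite ∨ ((Hd E hE (i :: l)).1 \ S).Finite := by
  set e : ℕ → ℕ := fun n => ((Set.Infinite.natEmbedding _ (Hd E hE l).2) n : ℕ) with he
  obtain ⟨i, hi⟩ := h (e ⁻¹' S)
  refine ⟨i, ?_⟩
  have h1 : (Hd E hE (i :: l)).1 = e '' E i := rfl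
  rw [h1, ← Set.image_inter_preimage, ← Set.image_sdiff_preimage]
  by_cases h2 : (E i ∩ e ⁻¹' S).Infinite
  · right
    have h3 : ¬ (E i \ e ⁻¹' S).Infinite := fun h3 => hi ⟨h2, h3⟩
    exact (Set.not_infinite.1 h3).image e
  · left
    exact (Set.not_infinite.1 h2).image e

include hE in
theorem exists_ultrafilter (hι : #ι < dNum)
    (h : ∀ R : Set ℕ, ∃ i, ¬ ((E i ∩ R).Infinite ∧ (E i \ R).Infinite)) :
    ∃ (U : Ultrafilter ℕ) (ℬ : Set (Set ℕ)), (∀ n, {n} ∉ U) ∧ IsBase U ℬ ∧ #ℬ < dNum := by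
  classical
  have hlist : #(List ι) < dNum := by
    refine (mk_list_le_max ι).trans_lt (max_lt aleph0_lt_dNum hι)
  have hpair : #(List ι × List ι) < dNum := by
    rw [mk_prod, lift_id]
    exact mul_lt_of_lt aleph0_lt_dNum.le hlist hlist
  have hch : ∀ l : List ι, ∃ nx : ℕ → ℕ, ∀ m, nx m ∈ (Hd E hE l).1 ∧ m ≤ nx m :=
    fun l => exists_nx (Hd E hE l).2
  choose nx hnx using hch
  obtain ⟨a, ha, h0, hlong⟩ := partition_lemma hpair
    (fun p m => max (nx p.1 m) (nx p.2 m) + 1)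
  have hbl : ∀ m, ∃ n, a n ≤ m ∧ m < a (n + 1) := exists_block ha h0
  choose f hf using hbl
  have hfeq : ∀ {m n}, a n ≤ m → m < a (n + 1) → f m = n := fun h1 h2 =>
    block_unique ha (hf _).1 (hf _).2 h1 h2
  have hmeet : ∀ l l' N, ∃ n, N ≤ n ∧ n ∈ f '' (Hd E hE l).1 ∧ n ∈ f '' (Hd E hE l').1 := by
    intro l l' N
    obtain ⟨n, hn, m, h1, h2⟩ := hlong (l, l') N
    have h3 : max (nx l m) (nx l' m) < a (n + 1) := h2
    refine ⟨n, hn, ⟨nx l m, (hnx l m).1, ?_⟩, ⟨nx l' m, (hnx l' m).1, ?_⟩⟩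
    · exact hfeq (h1.trans (hnx l m).2) ((le_max_left _ _).trans_lt h3)
    · exact hfeq (h1.trans (hnx l' m).2) ((le_max_right _ _).trans_lt h3)
  have hinf : ∀ l l', (f '' (Hd E hE l).1 ∩ f '' (Hd E hE l').1).Infinite := by
    intro l l'
    refine Set.infinite_of_forall_exists_gt fun N => ?_
    obtain ⟨n, hn, h1, h2⟩ := hmeet l l' (N + 1)
    exact ⟨n, ⟨h1, h2⟩, by omega⟩
  let 𝒢 : Filter ℕ :=
    { sets := {Y | ∃ l, (f '' (Hd E hE l).1 \ Y).Finite}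
      univ_sets := ⟨[], by simp⟩
      sets_of_superset := by
        rintro Y Z ⟨l, hl⟩ hYZ
        exact ⟨l, hl.subset (Set.sdiff_subset_sdiff_right hYZ)⟩
      inter_sets := by
        rintro Y Z ⟨l, hl⟩ ⟨l', hl'⟩
        obtain ⟨i, hi | hi⟩ := reap E hE h l (f ⁻¹' Z)
        · exfalso
          refine hinf (i :: l) l' (((hi.image f).union hl').subset ?_)
          rintro _ ⟨⟨x, hx, rfl⟩, h2⟩
          by_cases hxZ : f x ∈ Z
          · exact Or.inl ⟨x, ⟨hx, hxZ⟩, rfl⟩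
          · exact Or.inr ⟨h2, hxZ⟩
        · refine ⟨i :: l, ((hi.image f).union hl).subset ?_⟩
          rintro _ ⟨⟨x, hx, rfl⟩, h2⟩
          by_cases hxZ : f x ∈ Z
          · refine Or.inr ⟨⟨x, Hd_sub E hE i l hx, rfl⟩, fun hxY => h2 ⟨hxY, hxZ⟩⟩
          · exact Or.inl ⟨x, ⟨hx, hxZ⟩, rfl⟩ }
  have hmem : ∀ Y, Y ∈ 𝒢 ↔ ∃ l, (f '' (Hd E hE l).1 \ Y).Finite := fun Y => Iff.rfl
  have hultra : ∀ Y : Set ℕ, Yᶜ ∉ 𝒢 ↔ Y ∈ 𝒢 := by
    intro Y
    constructor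
    · intro h1
      obtain ⟨i, hi | hi⟩ := reap E hE h [] (f ⁻¹' Y)
      · exfalso
        apply h1
        rw [hmem]
        refine ⟨[i], (hi.image f).subset ?_⟩
        rintro _ ⟨⟨x, hx, rfl⟩, h2⟩
        exact ⟨x, ⟨hx, not_not.1 h2⟩, rfl⟩
      · rw [hmem]
        refine ⟨[i], (hi.image f).subset ?_⟩
        rintro _ ⟨⟨x, hx, rfl⟩, h2⟩
        exact ⟨x, ⟨hx, h2⟩, rfl⟩
    · intro h1 h2
      have h3 : Y ∩ Yᶜ ∈ 𝒢 := Filter.inter_mem h1 h2
      rw [Set.inter_compl_self, hmem] at h3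
      obtain ⟨l, hl⟩ := h3
      rw [Set.sdiff_empty] at hl
      exact hinf l l (hl.subset Set.inter_subset_left)
  refine ⟨Ultrafilter.ofComplNotMemIff 𝒢 hultra,
    Set.range fun p : List ι × ℕ => f '' (Hd E hE p.1).1 \ Set.Iio p.2, ?_, ⟨?_, ?_⟩, ?_⟩
  · intro n hn
    have h1 : ({n} : Set ℕ) ∈ 𝒢 := hn
    rw [hmem] at h1
    obtain ⟨l, hl⟩ := h1
    refine hinf l l ((hl.union (Set.finite_singleton n)).subset ?_)
    rintro x ⟨hx, _⟩
    by_cases hxn : x = n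
    · exact Or.inr hxn
    · exact Or.inl ⟨hx, hxn⟩
  · rintro _ ⟨⟨l, N⟩, rfl⟩
    show _ ∈ 𝒢
    rw [hmem]
    refine ⟨l, (Set.finite_Iio N).subset ?_⟩
    rintro x ⟨hx, h2⟩
    by_contra h3
    exact h2 ⟨hx, h3⟩
  · intro s hs
    have h1 : s ∈ 𝒢 := hs
    rw [hmem] at h1
    obtain ⟨l, hl⟩ := h1
    obtain ⟨N, hN⟩ := hl.bddAbove
    refine ⟨_, ⟨(l, N + 1), rfl⟩, ?_⟩
    rintro x ⟨hx, h2⟩
    by_contra h3
    have h4 : x ≤ N := hN ⟨hx, h3⟩
    exact h2 (Set.mem_Iio.2 (by omega))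
  · refine mk_range_le.trans_lt ?_
    rw [mk_prod, lift_id, lift_id, mk_nat]
    exact mul_lt_of_lt aleph0_lt_dNum.le hlist aleph0_lt_dNum

end

/-! ### An ultrafilter with a small base makes `𝔡` regular -/

theorem infinite_of_mem {U : Ultrafilter ℕ} (hU : ∀ n, {n} ∉ U) {s : Set ℕ} (hs : s ∈ U) :
    s.Infinite := by
  intro hfin
  obtain ⟨x, _, hx⟩ := Ultrafilter.eq_pure_of_finite_mem hfin hs
  apply hU x
  rw [hx]
  exact Ultrafilter.mem_pure.2 rfl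

theorem dNum_le_of_cofinal {U : Ultrafilter ℕ} (hU : ∀ n, {n} ∉ U) {ℬ : Set (Set ℕ)}
    (hb : IsBase U ℬ) {ι : Type} (g : ι → ℕ → ℕ) (h : ∀ f : ℕ → ℕ, ∃ i, {n | f n ≤ g i n} ∈ U) :
    dNum ≤ #(ι × ℬ) := by
  have hch : ∀ b : ℬ, ∃ nx : ℕ → ℕ, ∀ m, nx m ∈ b.1 ∧ m ≤ nx m :=
    fun b => exists_nx (infinite_of_mem hU (hb.1 b.1 b.2))
  choose nx hnx using hch
  refine dNum_le (fun p m => g p.1 (nx p.2 m)) fun f => ?_
  let f' : ℕ → ℕ := fun m => (Finset.range (m + 1)).sup f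
  obtain ⟨i, hi⟩ := h f'
  obtain ⟨b, hbB, hbs⟩ := hb.2 _ hi
  refine ⟨(i, ⟨b, hbB⟩), Eventually.of_forall fun m => ?_⟩
  have h1 := hnx ⟨b, hbB⟩ m
  have h2 : f' (nx ⟨b, hbB⟩ m) ≤ g i (nx ⟨b, hbB⟩ m) := hbs h1.1
  have h3 : f m ≤ f' (nx ⟨b, hbB⟩ m) :=
    Finset.le_sup (f := f) (Finset.mem_range.2 (by have := h1.2; omega))
  exact h3.trans h2

theorem cof_dNum {U : Ultrafilter ℕ} (hU : ∀ n, {n} ∉ U) {ℬ : Set (Set ℕ)}
    (hb : IsBase U ℬ) (hlt : #ℬ < dNum) : dNum ≤ dNum.ord.cof := by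
  by_contra hcof
  have hcof' : dNum.ord.cof < dNum := not_le.1 hcof
  obtain ⟨F, hF, hcard⟩ := exists_dominating
  let X : Type := dNum.ord.ToType
  have hX : #X = dNum := by rw [mk_toType, card_ord]
  obtain ⟨e⟩ : Nonempty (X ≃ F) := Cardinal.eq.1 (hX.trans hcard.symm)
  have hIic : ∀ x : X, #(Set.Iic x) < dNum := fun x => by
    have h1 : #(Set.Iio x) < dNum := by
      have := Cardinal.mk_Iio_lt x (by rw [Cardinal.mk_toType, Cardinal.card_ord,
        Ordinal.type_toType])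
      rwa [Cardinal.mk_toType, Cardinal.card_ord] at this
    have h2 : Set.Iic x = insert x (Set.Iio x) := (Set.Iio_insert).symm
    rw [h2]
    exact (mk_insert_le).trans_lt (add_lt_of_lt aleph0_lt_dNum.le h1
      (one_lt_aleph0.trans aleph0_lt_dNum))
  have hbound : ∀ x : X, ∃ g : ℕ → ℕ, ∀ j ≤ x, {n | (e j).1 n ≤ g n} ∈ U := by
    intro x
    by_contra hcon
    push Not at hcon
    have h1 : dNum ≤ #(Set.Iic x × ℬ) := by
      refine dNum_le_of_cofinal hU hb (fun j => (e j.1).1) fun f => ?_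
      obtain ⟨j, hj, hjU⟩ := hcon f
      refine ⟨⟨j, hj⟩, ?_⟩
      have h2 := Ultrafilter.compl_mem_iff_notMem.2 hjU
      refine Filter.mem_of_superset h2 fun n hn => ?_
      have h3 : ¬ (e j).1 n ≤ f n := hn
      exact (not_le.1 h3).le
    rw [mk_prod, lift_id, lift_id] at h1
    exact absurd h1 (not_le.2 (mul_lt_of_lt aleph0_lt_dNum.le (hIic x) hlt))
  choose g hg using hbound
  obtain ⟨C, hC, hCcard⟩ := Order.exists_cof_eq (α := X)
  have hle : dNum ≤ #(C × ℬ) := by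
    refine dNum_le_of_cofinal hU hb (fun c => g c.1) fun f => ?_
    obtain ⟨f', hf', hev⟩ := hF f
    obtain ⟨x, hx⟩ := e.surjective ⟨f', hf'⟩
    obtain ⟨c, hc, hxc⟩ := hC x
    refine ⟨⟨c, hc⟩, ?_⟩
    have h1 : {n | f n ≤ f' n} ∈ U := by
      have h2 : (U : Filter ℕ) ≤ atTop := by
        rw [← Nat.cofinite_eq_atTop]
        refine Filter.le_cofinite_iff_compl_singleton_mem.2 fun n => ?_
        exact Ultrafilter.compl_mem_iff_notMem.2 (hU n)
      exact h2 hev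
    have h3 := hg c x hxc
    rw [hx] at h3
    refine Filter.mem_of_superset (Filter.inter_mem h1 h3) fun n hn => ?_
    have h4 : f n ≤ f' n := hn.1
    have h5 : f' n ≤ g c n := hn.2
    exact h4.trans h5
  rw [mk_prod, lift_id, lift_id, hCcard, Ordinal.cof_toType] at hle
  exact absurd hle (not_le.2 (mul_lt_of_lt aleph0_lt_dNum.le hcof' hlt))

/-- if there is no nonprincipal ultrafilter with a base of size less than `𝔡`, then fewer than
`𝔡` many infinite sets are split by a single set -/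
theorem splits_of_no_base (h : ∀ (U : Ultrafilter ℕ) (ℬ : Set (Set ℕ)), (∀ n, {n} ∉ U) →
    IsBase U ℬ → dNum ≤ #ℬ) : Splits dNum := by
  intro ι E hι hE
  by_contra hcon
  push Not at hcon
  obtain ⟨U, ℬ, h1, h2, h3⟩ := exists_ultrafilter E hE hι fun R => by
    obtain ⟨i, hi⟩ := hcon R
    exact ⟨i, fun h => h.2 (hi h.1)⟩
  exact absurd (h U ℬ h1 h2) (not_le.2 h3)

end Pool.Agent.Helper669.Dom2
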