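import Mathlib

/-!
# Coded formulas and their numbering
-/

namespace Pool.Agent.Helper669.Hartig

open Cardinal

universe u

/-- Coded formulas. -/
inductive C : Type
  | atom (i l : ℕ) : C
  | eq (x y : ℕ) : C
  | neg (c : C) : C
  | and (c d : C) : C
  | all (x : ℕ) (c : C) : C
  | har (x : ℕ) (c : C) (y : ℕ) (d : C) : C

/-- Truth of a coded formula; `At i l v` is the truth of the atom `atom i l`. -/
def Sat {M : Type u} (At : ℕ → ℕ → (ℕ → M) → Prop) : C → (ℕ → M) → Prop
  | .atom i l, v => At i l v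
  | .eq x y, v => v x = v y
  | .neg c, v => ¬ Sat At c v
  | .and c d, v => Sat At c v ∧ Sat At d v
  | .all x c, v => ∀ a, Sat At c (Function.update v x a)
  | .har x c y d, v =>
      #{a : M // Sat At c (Function.update v x a)} = #{b : M // Sat At d (Function.update v y b)}

/-- enumeration of the pairs of natural numbers along the diagonals -/
def w : ℕ → ℕ × ℕ
  | 0 => (0, 0)
  | n + 1 => match w n with
    | (a, b + 1) => (a + 1, b)
    | (a, 0) => (0, a + 1)

theorem w_zero : w 0 = (0, 0) := rfl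

theorem w_succ_of_succ {n a b : ℕ} (h : w n = (a, b + 1)) : w (n + 1) = (a + 1, b) := by
  rw [w, h]

theorem w_succ_of_zero {n a : ℕ} (h : w n = (a, 0)) : w (n + 1) = (0, a + 1) := by
  rw [w, h]

theorem w_surj_aux (d : ℕ) : ∃ n, w n = (0, d) ∧ ∀ a ≤ d, w (n + a) = (a, d - a) := by
  induction d with
  | zero => exact ⟨0, rfl, fun a ha => by obtain rfl : a = 0 := by omega
                                          rfl⟩
  | succ d ih =>
    obtain ⟨n, -, hn⟩ := ih
    have h1 := hn d le_rfl
    rw [Nat.sub_self] at h1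
    have h2 := w_succ_of_zero h1
    refine ⟨n + d + 1, h2, fun a => ?_⟩
    induction a with
    | zero => intro _; simpa using h2
    | succ a iha =>
      intro ha
      have h3 := iha (by omega)
      have h4 : d + 1 - a = (d + 1 - (a + 1)) + 1 := by omega
      rw [h4] at h3
      exact w_succ_of_succ h3

theorem w_surj (a b : ℕ) : ∃ n, w n = (a, b) := by
  obtain ⟨n, -, hn⟩ := w_surj_aux (a + b)
  refine ⟨n + a, ?_⟩
  rw [hn a (by omega)]
  simp

theorem w_le (n : ℕ) : (w n).1 + (w n).2 ≤ n := by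
  induction n with
  | zero => simp [w_zero]
  | succ n ih =>
    rcases hab : w n with ⟨a, b⟩
    rw [hab] at ih
    cases b with
    | zero => rw [w_succ_of_zero hab]; simp at ih ⊢; omega
    | succ b => rw [w_succ_of_succ hab]; simp at ih ⊢; omega

/-- decoding -/
noncomputable def dec (e : ℕ) : C :=
  if (w e).1 = 0 then C.atom (w (w e).2).1 (w (w e).2).2
  else if (w e).1 = 1 then C.eq (w (w e).2).1 (w (w e).2).2
  else if _h2 : (w e).1 = 2 then C.neg (dec (w (w e).2).1)
  else if _h3 : (w e).1 = 3 then C.and (dec (w (w e).2).1) (dec (w (w e).2).2)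
  else if _h4 : (w e).1 = 4 then C.all (w (w e).2).1 (dec (w (w e).2).2)
  else if _h5 : (w e).1 = 5 then
    C.har (w (w (w e).2).1).1 (dec (w (w (w e).2).1).2)
      (w (w (w e).2).2).1 (dec (w (w (w e).2).2).2)
  else C.eq 0 0
termination_by e
decreasing_by
  all_goals
    have h1 := w_le e
    have h2 := w_le (w e).2
    have h3 := w_le (w (w e).2).1
    have h4 := w_le (w (w e).2).2
    omega

theorem dec_atom {e p a b : ℕ} (h : w e = (0, p)) (h' : w p = (a, b)) : dec e = C.atom a b := by
  rw [dec]; simp [h, h']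

theorem dec_eq {e p a b : ℕ} (h : w e = (1, p)) (h' : w p = (a, b)) : dec e = C.eq a b := by
  rw [dec]; simp [h, h']

theorem dec_neg {e p a b : ℕ} (h : w e = (2, p)) (h' : w p = (a, b)) : dec e = C.neg (dec a) := by
  rw [dec]; simp [h, h']

theorem dec_and {e p a b : ℕ} (h : w e = (3, p)) (h' : w p = (a, b)) :
    dec e = C.and (dec a) (dec b) := by
  rw [dec]; simp [h, h']

theorem dec_all {e p a b : ℕ} (h : w e = (4, p)) (h' : w p = (a, b)) :
    dec e = C.all a (dec b) := by
  rw [dec]; simp [h, h']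

theorem dec_har {e p a b x c y d : ℕ} (h : w e = (5, p)) (h' : w p = (a, b)) (ha : w a = (x, c))
    (hb : w b = (y, d)) : dec e = C.har x (dec c) y (dec d) := by
  rw [dec]; simp [h, h', ha, hb]

/-- pairing -/
noncomputable def pr (a b : ℕ) : ℕ := Classical.choose (w_surj a b)

theorem w_pr (a b : ℕ) : w (pr a b) = (a, b) := Classical.choose_spec (w_surj a b)

/-- encoding -/
noncomputable def enc : C → ℕ
  | .atom i l => pr 0 (pr i l)
  | .eq x y => pr 1 (pr x y)
  | .neg c => pr 2 (pr (enc c) 0)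
  | .and c d => pr 3 (pr (enc c) (enc d))
  | .all x c => pr 4 (pr x (enc c))
  | .har x c y d => pr 5 (pr (pr x (enc c)) (pr y (enc d)))

theorem dec_enc (c : C) : dec (enc c) = c := by
  induction c with
  | atom i l => exact dec_atom (w_pr _ _) (w_pr _ _)
  | eq x y => exact dec_eq (w_pr _ _) (w_pr _ _)
  | neg c ih => rw [enc, dec_neg (w_pr _ _) (w_pr _ _), ih]
  | and c d ihc ihd => rw [enc, dec_and (w_pr _ _) (w_pr _ _), ihc, ihd]
  | all x c ih => rw [enc, dec_all (w_pr _ _) (w_pr _ _), ih]
  | har x c y d ihc ihd =>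
    rw [enc, dec_har (w_pr _ _) (w_pr _ _) (w_pr _ _) (w_pr _ _), ihc, ihd]

end Pool.Agent.Helper669.Hartig
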