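import Mathlib
import Pool.Agent.Helper669.HDefs
import Pool.Agent.Helper669.HCode

/-!
# Translation of `L(I)`-formulas into coded formulas
-/

namespace Pool.Agent.Helper669.Hartig

open Cardinal

universe u

variable {M : Type u}

/-- the atoms given by the coded structure `Int` on coded assignments -/
def AtOf (look : ℕ → M → M) (Int : ℕ → M → Prop) (i l : ℕ) (v : ℕ → M) : Prop :=
  ∃ s, (∀ j < l, look j s = v j) ∧ Int i s

/-- coded assignments can be updated -/
def Closed (look : ℕ → M → M) : Prop :=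
  ∀ s k b, ∃ s', look k s' = b ∧ ∀ j, j ≠ k → look j s' = look j s

/-- some coded structure on `M` satisfies `c` -/
def Good (M : Type u) (c : C) : Prop :=
  ∃ (look : ℕ → M → M) (Int : ℕ → M → Prop), Closed look ∧
    ∀ s, Sat (AtOf look Int) c (fun j => look j s)

theorem exists_match [Nonempty M] {look : ℕ → M → M} (hc : Closed look) (v : ℕ → M) (l : ℕ) :
    ∃ s, ∀ j < l, look j s = v j := by
  induction l with
  | zero => exact ⟨Classical.arbitrary M, by simp⟩
  | succ l ih =>
    obtain ⟨s, hs⟩ := ih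
    obtain ⟨s', h1, h2⟩ := hc s l (v l)
    refine ⟨s', fun j hj => ?_⟩
    rcases Nat.lt_succ_iff_lt_or_eq.1 hj with h | rfl
    · rw [h2 j h.ne]; exact hs j h
    · exact h1

theorem sat_equiv {M' : Type u} (e : M ≃ M') {At : ℕ → ℕ → (ℕ → M) → Prop}
    {At' : ℕ → ℕ → (ℕ → M') → Prop} (h : ∀ i l v, At i l v ↔ At' i l (e ∘ v)) (c : C)
    (v : ℕ → M) : Sat At c v ↔ Sat At' c (e ∘ v) := by
  induction c generalizing v with
  | atom i l => exact h i l v
  | eq x y => simp [Sat]
  | neg c ih => simp [Sat, ih]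
  | and c d ihc ihd => simp [Sat, ihc, ihd]
  | all x c ih =>
    simp only [Sat]
    rw [← e.forall_congr_right]
    refine forall_congr' fun a => ?_
    rw [ih, Function.comp_update]
  | har x c y d ihc ihd =>
    have key : ∀ (x : ℕ) (c : C) (ih : ∀ v : ℕ → M, Sat At c v ↔ Sat At' c (e ∘ v)),
        #{a : M // Sat At c (Function.update v x a)} =
        #{a : M' // Sat At' c (Function.update (e ∘ v) x a)} := by
      intro x c ih
      refine Cardinal.mk_congr (e.subtypeEquiv fun a => ?_)
      rw [ih, Function.comp_update]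
    simp only [Sat]
    rw [key x c ihc, key y d ihd]

theorem good_equiv {M' : Type u} (e : M ≃ M') {c : C} (h : Good M c) : Good M' c := by
  obtain ⟨look, Int, h1, h2⟩ := h
  refine ⟨fun j s => e (look j (e.symm s)), fun i s => Int i (e.symm s), ?_, ?_⟩
  · intro s k b
    obtain ⟨s', h3, h4⟩ := h1 (e.symm s) k (e.symm b)
    refine ⟨e s', by simp [h3], fun j hj => by simp [h4 j hj]⟩
  · intro s
    have h5 := (sat_equiv e (At := AtOf look Int)
      (At' := AtOf (fun j s => e (look j (e.symm s))) (fun i s => Int i (e.symm s))) (by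
        intro i l v
        constructor
        · rintro ⟨s, hs, hi⟩
          exact ⟨e s, fun j hj => by simp [hs j hj], by simpa using hi⟩
        · rintro ⟨s, hs, hi⟩
          refine ⟨e.symm s, fun j hj => ?_, hi⟩
          exact e.injective (hs j hj)) c (fun j => look j (e.symm s))).1 (h2 _)
    exact h5

/-! ### Abbreviations for coded formulas -/

/-- existential quantifier -/
def C.ex (x : ℕ) (c : C) : C := .neg (.all x (.neg c))

theorem sat_ex {At : ℕ → ℕ → (ℕ → M) → Prop} (x : ℕ) (c : C) (v : ℕ → M) :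
    Sat At (C.ex x c) v ↔ ∃ a, Sat At c (Function.update v x a) := by
  simp [C.ex, Sat]

/-- conjunction of finitely many coded formulas -/
def C.bigAnd : (l : ℕ) → (Fin l → C) → C
  | 0, _ => .eq 0 0
  | l + 1, f => .and (f (Fin.last l)) (C.bigAnd l fun i => f i.castSucc)

theorem sat_bigAnd {At : ℕ → ℕ → (ℕ → M) → Prop} (l : ℕ) (f : Fin l → C) (v : ℕ → M) :
    Sat At (C.bigAnd l f) v ↔ ∀ i, Sat At (f i) v := by
  induction l with
  | zero => simp [C.bigAnd, Sat]
  | succ l ih => rw [C.bigAnd, Sat, ih, Fin.forall_fin_succ']; tauto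

/-- quantify the variables `k, …, k + l - 1` -/
def C.exMany (k : ℕ) : (l : ℕ) → C → C
  | 0, c => c
  | l + 1, c => C.ex (k + l) (C.exMany k l c)

theorem sat_exMany {At : ℕ → ℕ → (ℕ → M) → Prop} (k l : ℕ) (c : C) (v : ℕ → M) :
    Sat At (C.exMany k l c) v ↔ ∃ v', (∀ j, (j < k ∨ k + l ≤ j) → v' j = v j) ∧ Sat At c v' := by
  induction l generalizing v with
  | zero =>
    constructor
    · intro h
      exact ⟨v, fun _ _ => rfl, h⟩
    · rintro ⟨v', h1, h2⟩
      have : v' = v := funext fun j => h1 j (by omega)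
      rw [← this]; exact h2
  | succ l ih =>
    rw [C.exMany, sat_ex]
    constructor
    · rintro ⟨a, ha⟩
      obtain ⟨v', h1, h2⟩ := (ih _).1 ha
      refine ⟨v', fun j hj => ?_, h2⟩
      rw [h1 j (by omega), Function.update_of_ne (by omega)]
    · rintro ⟨v', h1, h2⟩
      refine ⟨v' (k + l), (ih _).2 ⟨v', fun j hj => ?_, h2⟩⟩
      by_cases hjk : j = k + l
      · subst hjk; simp
      · rw [Function.update_of_ne hjk]; exact h1 j (by omega)

/-- `x := y` in `c` -/
def C.sub (x y : ℕ) (c : C) : C := C.ex x (.and (.eq x y) c)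

theorem sat_sub {At : ℕ → ℕ → (ℕ → M) → Prop} {x y : ℕ} (hxy : x ≠ y) (c : C) (v : ℕ → M) :
    Sat At (C.sub x y c) v ↔ Sat At c (Function.update v x (v y)) := by
  rw [C.sub, sat_ex]
  simp only [Sat, Function.update_self, Function.update_of_ne hxy.symm]
  constructor
  · rintro ⟨a, rfl, h⟩; exact h
  · intro h; exact ⟨_, rfl, h⟩

/-- copy the variables `k, …, k + l - 1` into `0, …, l - 1` -/
def C.copy (k : ℕ) : (l : ℕ) → C → C
  | 0, c => c
  | l + 1, c => C.sub l (k + l) (C.copy k l c)

theorem sat_copy {At : ℕ → ℕ → (ℕ → M) → Prop} {k l : ℕ} (hl : l ≤ k) (c : C) (v : ℕ → M) :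
    Sat At (C.copy k l c) v ↔ Sat At c (fun j => if j < l then v (k + j) else v j) := by
  induction l generalizing v with
  | zero => simp [C.copy]
  | succ l ih =>
    rw [C.copy, sat_sub (by omega), ih (by omega)]
    have : (fun j => if j < l then Function.update v l (v (k + l)) (k + j)
        else Function.update v l (v (k + l)) j) = fun j => if j < l + 1 then v (k + j) else v j := by
      funext j
      by_cases h1 : j < l
      · rw [if_pos h1, if_pos (by omega), Function.update_of_ne (by omega)]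
      · rw [if_neg h1]
        by_cases h2 : j = l
        · subst h2; simp
        · rw [Function.update_of_ne h2, if_neg (by omega)]
    rw [this]

/-! ### The translation -/

variable {L : FirstOrder.Language.{0, 0}} (idx : L.Symbols → ℕ)

/-- the coded formula saying that the `y`-th variable is the value of the term -/
def E : L.Term ℕ → ℕ → ℕ → C
  | .var x, y, _ => C.eq y x
  | @FirstOrder.Language.Term.func _ _ l f ts, y, k =>
    C.exMany k l (C.and (C.bigAnd l fun i => E (ts i) (k + i) (k + l))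
      (C.copy k l (C.sub l y (C.atom (idx (Sum.inl ⟨l, f⟩)) (l + 1)))))

/-- all variables of the term and the arities of its symbols are small -/
def tb (K : ℕ) : L.Term ℕ → Prop
  | .var x => x < K
  | @FirstOrder.Language.Term.func _ _ l _ ts => l + 1 ≤ K ∧ ∀ i, tb K (ts i)

/-- the atoms describe the structure -/
structure Rep [L.Structure M] (At : ℕ → ℕ → (ℕ → M) → Prop) : Prop where
  fn : ∀ {l : ℕ} (f : L.Functions l) (v : ℕ → M), At (idx (Sum.inl ⟨l, f⟩)) (l + 1) v ↔
    FirstOrder.Language.Structure.funMap f (fun i : Fin l => v i) = v l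
  rl : ∀ {l : ℕ} (R : L.Relations l) (v : ℕ → M), At (idx (Sum.inr ⟨l, R⟩)) l v ↔
    FirstOrder.Language.Structure.RelMap R (fun i : Fin l => v i)

theorem term_congr [L.Structure M] {K : ℕ} {t : L.Term ℕ} (ht : tb K t) {v v' : ℕ → M}
    (h : ∀ j < K, v j = v' j) : t.realize v = t.realize v' := by
  induction t with
  | var x => exact h x ht
  | func f ts ih =>
    simp only [FirstOrder.Language.Term.realize_func]
    congr 1
    funext i
    exact ih i (ht.2 i)

/-- the assignment `v` with the values `xs` inserted at `k, …, k + l - 1` -/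
def ins (v : ℕ → M) (k l : ℕ) (xs : Fin l → M) : ℕ → M :=
  fun j => if h : k ≤ j ∧ j < k + l then xs ⟨j - k, by omega⟩ else v j

theorem ins_out (v : ℕ → M) {k l : ℕ} (xs : Fin l → M) {j : ℕ} (h : j < k ∨ k + l ≤ j) :
    ins v k l xs j = v j := dif_neg (by omega)

theorem ins_in (v : ℕ → M) (k : ℕ) {l : ℕ} (xs : Fin l → M) (i : Fin l) :
    ins v k l xs (k + i) = xs i := by
  have h1 : k ≤ k + (i : ℕ) ∧ k + (i : ℕ) < k + l := ⟨by omega, by omega⟩
  rw [ins, dif_pos h1]
  congr 1
  exact Fin.ext (by simp)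

variable {idx} in
theorem sat_E [L.Structure M] {At : ℕ → ℕ → (ℕ → M) → Prop} (hR : Rep idx At) {K : ℕ}
    (t : L.Term ℕ) (ht : tb K t) {y k : ℕ} (hy : K ≤ y) (hk : y < k) (v : ℕ → M) :
    Sat At (E idx t y k) v ↔ v y = t.realize v := by
  induction t generalizing y k v with
  | var x => simp [E, Sat]
  | @func l f ts ih =>
    have hl : l + 1 ≤ K := ht.1
    have hcopy : ∀ v : ℕ → M, Sat At (C.copy k l (C.sub l y
        (C.atom (idx (Sum.inl ⟨l, f⟩)) (l + 1)))) v ↔
        FirstOrder.Language.Structure.funMap f (fun i : Fin l => v (k + i)) = v y := by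
      intro v
      rw [sat_copy (by omega), sat_sub (by omega)]
      simp only [Sat]
      rw [hR.fn]
      have h1 : ¬ y < l := by omega
      simp only [Function.update_self, if_neg h1]
      have h2 : (fun i : Fin l => Function.update (fun j => if j < l then v (k + j) else v j) l
          (v y) (i : ℕ)) = fun i : Fin l => v (k + i) := by
        funext i
        have := i.2
        rw [Function.update_of_ne (by omega)]
        simp
      rw [h2]
    rw [E, sat_exMany]
    simp only [Sat, sat_bigAnd, hcopy]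
    simp only [FirstOrder.Language.Term.realize_func]
    constructor
    · rintro ⟨v', h1, h2, h3⟩
      have h4 : ∀ i : Fin l, v' (k + i) = (ts i).realize v := by
        intro i
        rw [(ih i (ht.2 i) (by omega) (by omega) v').1 (h2 i)]
        exact term_congr (ht.2 i) fun j hj => h1 j (by omega)
      rw [← h1 y (by omega), ← h3]
      congr 1
      funext i
      exact h4 i
    · intro h
      refine ⟨ins v k l fun i => (ts i).realize v, fun j hj => ins_out _ _ hj, ?_, ?_⟩
      · intro i
        rw [ih i (ht.2 i) (by omega) (by omega), ins_in]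
        exact term_congr (ht.2 i) fun j hj => (ins_out _ _ (by omega)).symm
      · rw [ins_out _ _ (by omega), h]
        congr 1
        funext i
        rw [ins_in]

/-- all variables and arities of the formula are small -/
def lb (K : ℕ) : LI L → Prop
  | .equal t t' => tb K t ∧ tb K t'
  | @LI.rel _ l _ ts => l ≤ K ∧ ∀ i, tb K (ts i)
  | .neg φ => lb K φ
  | .and φ ψ => lb K φ ∧ lb K ψ
  | .all x φ => x < K ∧ lb K φ
  | .hartig x y φ ψ => x < K ∧ y < K ∧ lb K φ ∧ lb K ψ

/-- the translation -/
def tr (K : ℕ) : LI L → C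
  | .equal t t' => C.ex K (C.and (E idx t K (K + 1)) (E idx t' K (K + 1)))
  | @LI.rel _ l R ts => C.exMany K l (C.and (C.bigAnd l fun i => E idx (ts i) (K + i) (K + l))
      (C.copy K l (C.atom (idx (Sum.inr ⟨l, R⟩)) l)))
  | .neg φ => C.neg (tr K φ)
  | .and φ ψ => C.and (tr K φ) (tr K ψ)
  | .all x φ => C.all x (tr K φ)
  | .hartig x y φ ψ => C.har x (tr K φ) y (tr K ψ)

variable {idx} in
theorem sat_tr [L.Structure M] {At : ℕ → ℕ → (ℕ → M) → Prop} (hR : Rep idx At) {K : ℕ}
    (φ : LI L) (hφ : lb K φ) (v : ℕ → M) : Sat At (tr idx K φ) v ↔ φ.Realize v := by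
  induction φ generalizing v with
  | equal t t' =>
    rw [tr, sat_ex]
    simp only [Sat, sat_E hR t hφ.1 le_rfl (Nat.lt_succ_self K),
      sat_E hR t' hφ.2 le_rfl (Nat.lt_succ_self K), Function.update_self, LI.Realize]
    have h1 : ∀ (t : L.Term ℕ) (_ : tb K t) (a : M),
        t.realize (Function.update v K a) = t.realize v := fun t ht a =>
      term_congr ht fun j hj => Function.update_of_ne (by omega) _ _
    simp only [h1 t hφ.1, h1 t' hφ.2]
    constructor
    · rintro ⟨a, rfl, h⟩; exact h
    · intro h; exact ⟨_, rfl, h⟩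
  | @rel l R ts =>
    have hcopy : ∀ v : ℕ → M, Sat At (C.copy K l (C.atom (idx (Sum.inr ⟨l, R⟩)) l)) v ↔
        FirstOrder.Language.Structure.RelMap R (fun i : Fin l => v (K + i)) := by
      intro v
      rw [sat_copy hφ.1]
      simp only [Sat]
      rw [hR.rl]
      have h2 : (fun i : Fin l => if (i : ℕ) < l then v (K + i) else v i) =
          fun i : Fin l => v (K + i) := by
        funext i
        simp
      rw [h2]
    rw [tr, sat_exMany]
    simp only [Sat, sat_bigAnd, hcopy, LI.Realize]
    constructor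
    · rintro ⟨v', h1, h2, h3⟩
      have h4 : (fun i : Fin l => v' (K + i)) = fun i => (ts i).realize v := by
        funext i
        rw [(sat_E hR (ts i) (hφ.2 i) (by omega) (by omega) v').1 (h2 i)]
        exact term_congr (hφ.2 i) fun j hj => h1 j (by omega)
      rw [← h4]
      exact h3
    · intro h
      refine ⟨ins v K l fun i => (ts i).realize v, fun j hj => ins_out _ _ hj, ?_, ?_⟩
      · intro i
        rw [sat_E hR (ts i) (hφ.2 i) (by omega) (by omega), ins_in]
        exact term_congr (hφ.2 i) fun j hj => (ins_out _ _ (by omega)).symm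
      · simp only [ins_in]
        exact h
  | neg φ ih => simp only [tr, Sat, LI.Realize, ih hφ]
  | and φ ψ ihφ ihψ => simp only [tr, Sat, LI.Realize, ihφ hφ.1, ihψ hφ.2]
  | all x φ ih => simp only [tr, Sat, LI.Realize, ih hφ.2]
  | hartig x y φ ψ ihφ ihψ => simp only [tr, Sat, LI.Realize, ihφ hφ.2.2.1, ihψ hφ.2.2.2]

theorem tb_mono {K K' : ℕ} (h : K ≤ K') {t : L.Term ℕ} (ht : tb K t) : tb K' t := by
  induction t with
  | var x => exact lt_of_lt_of_le ht h
  | func f ts ih => exact ⟨ht.1.trans h, fun i => ih i (ht.2 i)⟩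

theorem exists_bound {l : ℕ} {P : ℕ → Fin l → Prop} (hm : ∀ K K' i, K ≤ K' → P K i → P K' i)
    (h : ∀ i, ∃ K, P K i) : ∃ K, ∀ i, P K i := by
  choose K hK using h
  exact ⟨Finset.univ.sup K, fun i => hm _ _ i (Finset.le_sup (Finset.mem_univ i)) (hK i)⟩

theorem exists_tb (t : L.Term ℕ) : ∃ K, tb K t := by
  induction t with
  | var x => exact ⟨x + 1, Nat.lt_succ_self x⟩
  | @func l f ts ih =>
    obtain ⟨K, hK⟩ := exists_bound (P := fun K i => tb K (ts i))
      (fun K K' i h => tb_mono h) ih
    exact ⟨max K (l + 1), le_max_right _ _, fun i => tb_mono (le_max_left _ _) (hK i)⟩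

theorem lb_mono {K K' : ℕ} (h : K ≤ K') {φ : LI L} (hφ : lb K φ) : lb K' φ := by
  induction φ with
  | equal t t' => exact ⟨tb_mono h hφ.1, tb_mono h hφ.2⟩
  | rel R ts => exact ⟨hφ.1.trans h, fun i => tb_mono h (hφ.2 i)⟩
  | neg φ ih => exact ih hφ
  | and φ ψ ihφ ihψ => exact ⟨ihφ hφ.1, ihψ hφ.2⟩
  | all x φ ih => exact ⟨lt_of_lt_of_le hφ.1 h, ih hφ.2⟩
  | hartig x y φ ψ ihφ ihψ =>
    exact ⟨lt_of_lt_of_le hφ.1 h, lt_of_lt_of_le hφ.2.1 h, ihφ hφ.2.2.1, ihψ hφ.2.2.2⟩

theorem exists_lb (φ : LI L) : ∃ K, lb K φ := by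
  induction φ with
  | equal t t' =>
    obtain ⟨K, hK⟩ := exists_tb t
    obtain ⟨K', hK'⟩ := exists_tb t'
    exact ⟨max K K', tb_mono (le_max_left _ _) hK, tb_mono (le_max_right _ _) hK'⟩
  | @rel l R ts =>
    obtain ⟨K, hK⟩ := exists_bound (P := fun K i => tb K (ts i))
      (fun K K' i h => tb_mono h) (fun i => exists_tb (ts i))
    exact ⟨max K l, le_max_right _ _, fun i => tb_mono (le_max_left _ _) (hK i)⟩
  | neg φ ih => exact ih
  | and φ ψ ihφ ihψ =>
    obtain ⟨K, hK⟩ := ihφ
    obtain ⟨K', hK'⟩ := ihψ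
    exact ⟨max K K', lb_mono (le_max_left _ _) hK, lb_mono (le_max_right _ _) hK'⟩
  | all x φ ih =>
    obtain ⟨K, hK⟩ := ih
    exact ⟨max K (x + 1), le_max_right K (x + 1), lb_mono (le_max_left _ _) hK⟩
  | hartig x y φ ψ ihφ ihψ =>
    obtain ⟨K, hK⟩ := ihφ
    obtain ⟨K', hK'⟩ := ihψ
    refine ⟨max (max K K') (max (x + 1) (y + 1)), ?_, ?_, ?_, ?_⟩
    · exact (le_max_left (x + 1) (y + 1)).trans (le_max_right _ _)
    · exact (le_max_right (x + 1) (y + 1)).trans (le_max_right _ _)
    · exact lb_mono ((le_max_left _ _).trans (le_max_left _ _)) hK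
    · exact lb_mono ((le_max_right _ _).trans (le_max_left _ _)) hK'

theorem realize_congr [L.Structure M] {K : ℕ} {φ : LI L} (hφ : lb K φ) {v v' : ℕ → M}
    (h : ∀ j < K, v j = v' j) : φ.Realize v ↔ φ.Realize v' := by
  induction φ generalizing v v' with
  | equal t t' =>
    simp only [LI.Realize]
    rw [term_congr hφ.1 h, term_congr hφ.2 h]
  | rel R ts =>
    simp only [LI.Realize]
    have : (fun i => (ts i).realize v) = fun i => (ts i).realize v' :=
      funext fun i => term_congr (hφ.2 i) h
    rw [this]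
  | neg φ ih => simp only [LI.Realize, ih hφ h]
  | and φ ψ ihφ ihψ => simp only [LI.Realize, ihφ hφ.1 h, ihψ hφ.2 h]
  | all x φ ih =>
    simp only [LI.Realize]
    refine forall_congr' fun a => ih hφ.2 fun j hj => ?_
    by_cases hjx : j = x
    · subst hjx; simp
    · simp [Function.update_of_ne hjx, h j hj]
  | hartig x y φ ψ ihφ ihψ =>
    simp only [LI.Realize]
    have hu : ∀ (x : ℕ) (a : M), ∀ j < K, Function.update v x a j = Function.update v' x a j := by
      intro x a j hj
      by_cases hjx : j = x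
      · subst hjx; simp
      · simp [Function.update_of_ne hjx, h j hj]
    have h1 : ∀ a, φ.Realize (Function.update v x a) ↔ φ.Realize (Function.update v' x a) :=
      fun a => ihφ hφ.2.2.1 (hu x a)
    have h2 : ∀ a, ψ.Realize (Function.update v y a) ↔ ψ.Realize (Function.update v' y a) :=
      fun a => ihψ hφ.2.2.2 (hu y a)
    simp only [h1, h2]

end Pool.Agent.Helper669.Hartig
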