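import Mathlib
import Pool.Agent.Helper669.HTrans

/-!
# The second-order description of truth of coded formulas
-/

namespace Pool.Agent.Helper669.Hartig

open Cardinal

universe u

variable {M : Type u}

/-- Peano's axioms -/
def Pea (N : M → Prop) (z : M) (S : M → M → Prop) : Prop :=
  N z ∧ (∀ x, N x → ∃ y, S x y) ∧ (∀ x y, S x y → N x ∧ N y) ∧
  (∀ x y y', S x y → S x y' → y = y') ∧ (∀ x x' y, S x y → S x' y → x = x') ∧
  (∀ x, ¬ S x z) ∧ (∀ X : M → Prop, X z → (∀ x y, X x → S x y → X y) → ∀ x, N x → X x)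

/-- the enumeration of pairs -/
def Wlk (N : M → Prop) (z : M) (S : M → M → Prop) (U : M → M → M → Prop) : Prop :=
  (∀ e, N e → ∃ a b, U e a b) ∧ (∀ e a b, U e a b → N e ∧ N a ∧ N b) ∧
  (∀ e a b a' b', U e a b → U e a' b' → a = a' ∧ b = b') ∧ U z z z ∧
  (∀ e e' a a' b b', U e a b' → S e e' → S a a' → S b b' → U e' a' b) ∧
  (∀ e e' a a', U e a z → S e e' → S a a' → U e' z a')

/-- the order of the natural numbers -/
def LtA (z : M) (S W : M → M → Prop) : Prop :=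
  (∀ j, ¬ W j z) ∧ ∀ j l l', S l l' → (W j l' ↔ W j l ∨ j = l)

/-- iterated power sets -/
def Bth (N : M → Prop) (z : M) (S W : M → M → Prop) (n : M) (H : M → M → Prop)
    (E : M → M → M → Prop) : Prop :=
  ∃ m, S n m ∧ (∀ x, H m x) ∧ (∀ x, H z x ↔ N x) ∧ ∀ i i', S i i' → W i m →
    ((∀ y y', H i' y → H i' y' → (∀ x, H i x → (E i x y ↔ E i x y')) → y = y') ∧
    ∀ Y : M → Prop, ∃ y, H i' y ∧ ∀ x, H i x → (Y x ↔ E i x y))

/-- coded assignments -/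
def LookA (N : M → Prop) (Lk : M → M → M → Prop) : Prop :=
  (∀ k s, N k → ∃ a, Lk k s a) ∧ (∀ k s a a', Lk k s a → Lk k s a' → a = a') ∧
  ∀ k s b, N k → ∃ s', Lk k s' b ∧ ∀ j a, N j → j ≠ k → (Lk j s' a ↔ Lk j s a)

/-- the coded assignments differ at most at `x` -/
def Sim (N : M → Prop) (Lk : M → M → M → Prop) (x s s' : M) : Prop :=
  ∀ j a, N j → j ≠ x → (Lk j s' a ↔ Lk j s a)

/-- `v` satisfies the formula `c` as a value of the variable `x` -/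
def Vl (N : M → Prop) (Lk : M → M → M → Prop) (T : M → M → Prop) (x c s v : M) : Prop :=
  ∃ s', Sim N Lk x s s' ∧ Lk x s' v ∧ T c s'

/-- `B` is a bijection between `P` and `Q` -/
def Bij (P Q : M → Prop) (B : M → M → Prop) : Prop :=
  (∀ v, P v → ∃ x, Q x ∧ B v x) ∧ (∀ x, Q x → ∃ v, P v ∧ B v x) ∧
  (∀ v x x', P v → Q x → Q x' → B v x → B v x' → x = x') ∧
  (∀ v v' x, P v → P v' → Q x → B v x → B v' x → v = v')

/-- the truth clauses -/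
def Cls (N : M → Prop) (W : M → M → Prop) (U : M → M → M → Prop)
    (z o₁ o₂ o₃ o₄ o₅ : M) (Lk : M → M → M → Prop) (I T : M → M → Prop) : Prop :=
  ∀ e c p a b, U e c p → U p a b →
    (c = z → ∀ s, (T e s ↔ ∃ s', (∀ j v, W j b → (Lk j s' v ↔ Lk j s v)) ∧ I a s')) ∧
    (c = o₁ → ∀ s, (T e s ↔ ∃ v, Lk a s v ∧ Lk b s v)) ∧
    (c = o₂ → ∀ s, (T e s ↔ ¬ T a s)) ∧
    (c = o₃ → ∀ s, (T e s ↔ T a s ∧ T b s)) ∧
    (c = o₄ → ∀ s, (T e s ↔ ∀ s', Sim N Lk a s s' → T b s')) ∧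
    (c = o₅ → ∀ x c' y d', U a x c' → U b y d' → ∀ s,
      (T e s ↔ ∃ B : M → M → Prop, Bij (Vl N Lk T x c' s) (Vl N Lk T y d' s) B))

/-- the second-order sentence, semantically -/
def Theta (M : Type u) : Prop :=
  ∃ (N : M → Prop) (z : M) (S : M → M → Prop) (U : M → M → M → Prop) (W : M → M → Prop)
    (H : M → M → Prop) (E : M → M → M → Prop) (n o₁ o₂ o₃ o₄ o₅ : M),
    Pea N z S ∧ Wlk N z S U ∧ LtA z S W ∧ Bth N z S W n H E ∧
    (S z o₁ ∧ S o₁ o₂ ∧ S o₂ o₃ ∧ S o₃ o₄ ∧ S o₄ o₅) ∧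
    ¬ ∃ (Lk : M → M → M → Prop) (I T : M → M → Prop), LookA N Lk ∧
      Cls N W U z o₁ o₂ o₃ o₄ o₅ Lk I T ∧ ∀ s, T n s

/-- the standard interpretation along an injection of the natural numbers -/
structure Std (ι : ℕ → M) (N : M → Prop) (z : M) (S : M → M → Prop) (U : M → M → M → Prop)
    (W : M → M → Prop) (o₁ o₂ o₃ o₄ o₅ : M) : Prop where
  inj : Function.Injective ι
  N : ∀ x, N x ↔ ∃ k, x = ι k
  z : z = ι 0
  S : ∀ x y, S x y ↔ ∃ k, x = ι k ∧ y = ι (k + 1)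
  U : ∀ x y t, U x y t ↔ ∃ k, x = ι k ∧ y = ι (w k).1 ∧ t = ι (w k).2
  W : ∀ x l, W x (ι l) ↔ ∃ k < l, x = ι k
  o₁ : o₁ = ι 1
  o₂ : o₂ = ι 2
  o₃ : o₃ = ι 3
  o₄ : o₄ = ι 4
  o₅ : o₅ = ι 5

theorem exists_std {N : M → Prop} {z : M} {S : M → M → Prop} {U : M → M → M → Prop}
    {W : M → M → Prop} {o₁ o₂ o₃ o₄ o₅ : M} (h1 : Pea N z S) (h2 : Wlk N z S U)
    (h3 : LtA z S W) (h4 : S z o₁ ∧ S o₁ o₂ ∧ S o₂ o₃ ∧ S o₃ o₄ ∧ S o₄ o₅) :
    ∃ ι, Std ι N z S U W o₁ o₂ o₃ o₄ o₅ := by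
  obtain ⟨p1, p2, p3, p4, p5, p6, p7⟩ := h1
  choose! f hf using p2
  let g : ℕ → M := fun k => Nat.rec z (fun _ x => f x) k
  have g0 : g 0 = z := rfl
  have gs : ∀ k, g (k + 1) = f (g k) := fun k => rfl
  have gN : ∀ k, N (g k) := by
    intro k
    induction k with
    | zero => exact p1
    | succ k ih => rw [gs]; exact (p3 _ _ (hf _ ih)).2
  have gS : ∀ k, S (g k) (g (k + 1)) := fun k => by rw [gs]; exact hf _ (gN k)
  have gsurj : ∀ x, N x → ∃ k, x = g k := by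
    refine p7 (fun x => ∃ k, x = g k) ⟨0, rfl⟩ ?_
    rintro x y ⟨k, rfl⟩ h
    exact ⟨k + 1, p4 _ _ _ h (gS k)⟩
  have ginj : Function.Injective g := by
    intro a
    induction a with
    | zero =>
      intro b hb
      cases b with
      | zero => rfl
      | succ b =>
        exfalso
        have := gS b
        rw [← hb, g0] at this
        exact p6 _ this
    | succ a ih =>
      intro b hb
      cases b with
      | zero =>
        exfalso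
        have := gS a
        rw [hb, g0] at this
        exact p6 _ this
      | succ b =>
        have h5 := gS a
        rw [hb] at h5
        rw [ih (p5 _ _ _ h5 (gS b))]
  have gS' : ∀ x y, S x y ↔ ∃ k, x = g k ∧ y = g (k + 1) := by
    intro x y
    constructor
    · intro h
      obtain ⟨k, rfl⟩ := gsurj x (p3 _ _ h).1
      exact ⟨k, rfl, p4 _ _ _ h (gS k)⟩
    · rintro ⟨k, rfl, rfl⟩
      exact gS k
  obtain ⟨q1, q2, q3, q4, q5, q6⟩ := h2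
  have gU : ∀ k, U (g k) (g (w k).1) (g (w k).2) := by
    intro k
    induction k with
    | zero => exact q4
    | succ k ih =>
      rcases hab : w k with ⟨a, b⟩
      rw [hab] at ih
      cases b with
      | zero => rw [w_succ_of_zero hab]; exact q6 _ _ _ _ ih (gS k) (gS a)
      | succ b => rw [w_succ_of_succ hab]; exact q5 _ _ _ _ _ _ ih (gS k) (gS a) (gS b)
  obtain ⟨r1, r2⟩ := h3
  obtain ⟨t1, t2, t3, t4, t5⟩ := h4
  have e1 : o₁ = g 1 := p4 _ _ _ t1 (gS 0)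
  have e2 : o₂ = g 2 := p4 _ _ _ (e1 ▸ t2) (gS 1)
  have e3 : o₃ = g 3 := p4 _ _ _ (e2 ▸ t3) (gS 2)
  have e4 : o₄ = g 4 := p4 _ _ _ (e3 ▸ t4) (gS 3)
  have e5 : o₅ = g 5 := p4 _ _ _ (e4 ▸ t5) (gS 4)
  refine ⟨g, ginj, fun x => ⟨gsurj x, ?_⟩, rfl, gS', ?_, ?_, e1, e2, e3, e4, e5⟩
  · rintro ⟨k, rfl⟩; exact gN k
  · intro x y t
    constructor
    · intro h
      obtain ⟨k, rfl⟩ := gsurj x (q2 _ _ _ h).1
      exact ⟨k, rfl, q3 _ _ _ _ _ h (gU k)⟩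
    · rintro ⟨k, rfl, rfl, rfl⟩
      exact gU k
  · intro x l
    induction l with
    | zero =>
      rw [g0]
      constructor
      · intro h; exact absurd h (r1 x)
      · rintro ⟨k, hk, -⟩; omega
    | succ l ih =>
      rw [r2 x _ _ (gS l), ih]
      constructor
      · rintro (⟨k, hk, rfl⟩ | rfl)
        · exact ⟨k, by omega, rfl⟩
        · exact ⟨l, by omega, rfl⟩
      · rintro ⟨k, hk, rfl⟩
        rcases Nat.lt_succ_iff_lt_or_eq.1 hk with h | rfl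
        · exact Or.inl ⟨k, h, rfl⟩
        · exact Or.inr rfl

theorem std_pea {ι : ℕ → M} (hι : Function.Injective ι) :
    Pea (fun x => ∃ k, x = ι k) (ι 0) (fun x y => ∃ k, x = ι k ∧ y = ι (k + 1)) := by
  refine ⟨⟨0, rfl⟩, ?_, ?_, ?_, ?_, ?_, ?_⟩
  · rintro x ⟨k, rfl⟩; exact ⟨_, k, rfl, rfl⟩
  · rintro x y ⟨k, rfl, rfl⟩; exact ⟨⟨k, rfl⟩, ⟨k + 1, rfl⟩⟩
  · rintro x y y' ⟨k, rfl, rfl⟩ ⟨k', h, rfl⟩
    rw [hι h]
  · rintro x x' y ⟨k, rfl, rfl⟩ ⟨k', rfl, h⟩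
    have := hι h
    rw [show k = k' by omega]
  · rintro x ⟨k, rfl, h⟩
    have := hι h
    omega
  · rintro X h0 hs x ⟨k, rfl⟩
    induction k with
    | zero => exact h0
    | succ k ih => exact hs _ _ ih ⟨k, rfl, rfl⟩

theorem std_wlk {ι : ℕ → M} (hι : Function.Injective ι) :
    Wlk (fun x => ∃ k, x = ι k) (ι 0) (fun x y => ∃ k, x = ι k ∧ y = ι (k + 1))
      (fun x y t => ∃ k, x = ι k ∧ y = ι (w k).1 ∧ t = ι (w k).2) := by
  refine ⟨?_, ?_, ?_, ⟨0, rfl, rfl, rfl⟩, ?_, ?_⟩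
  · rintro e ⟨k, rfl⟩; exact ⟨_, _, k, rfl, rfl, rfl⟩
  · rintro e a b ⟨k, rfl, rfl, rfl⟩; exact ⟨⟨_, rfl⟩, ⟨_, rfl⟩, ⟨_, rfl⟩⟩
  · rintro e a b a' b' ⟨k, rfl, rfl, rfl⟩ ⟨k', h, rfl, rfl⟩
    rw [hι h]; exact ⟨rfl, rfl⟩
  · rintro e e' a a' b b' ⟨k, rfl, rfl, rfl⟩ ⟨k', h, rfl⟩ ⟨l, hl, rfl⟩ ⟨m, rfl, hm⟩
    have h1 := hι h; have h2 := hι hl; have h3 := hι hm
    subst h1
    refine ⟨k + 1, rfl, ?_⟩
    have h4 : w k = (l, m + 1) := Prod.ext h2 h3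
    rw [w_succ_of_succ h4]
    exact ⟨rfl, rfl⟩
  · rintro e e' a a' ⟨k, rfl, rfl, hz⟩ ⟨k', h, rfl⟩ ⟨l, hl, rfl⟩
    have h1 := hι h; have h2 := hι hl; have h3 := hι hz
    subst h1
    refine ⟨k + 1, rfl, ?_⟩
    have h4 : w k = (l, 0) := Prod.ext h2 h3.symm
    rw [w_succ_of_zero h4]
    exact ⟨rfl, rfl⟩

theorem std_lta {ι : ℕ → M} (hι : Function.Injective ι) :
    LtA (ι 0) (fun x y => ∃ k, x = ι k ∧ y = ι (k + 1))
      (fun x y => ∃ k l, x = ι k ∧ y = ι l ∧ k < l) := by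
  constructor
  · rintro j ⟨k, l, -, h, hkl⟩
    have := hι h
    omega
  · rintro j l l' ⟨m, rfl, rfl⟩
    constructor
    · rintro ⟨k, m', rfl, h, hk⟩
      have := hι h
      subst this
      rcases Nat.lt_succ_iff_lt_or_eq.1 hk with h2 | rfl
      · exact Or.inl ⟨k, m, rfl, rfl, h2⟩
      · exact Or.inr rfl
    · rintro (⟨k, m', rfl, h, hk⟩ | rfl)
      · have := hι h
        subst this
        exact ⟨k, _, rfl, rfl, by omega⟩
      · exact ⟨m, _, rfl, rfl, by omega⟩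

theorem mk_eq_iff_bij (P Q : M → Prop) : #{v // P v} = #{x // Q x} ↔ ∃ B, Bij P Q B := by
  rw [Cardinal.eq]
  constructor
  · rintro ⟨e⟩
    refine ⟨fun v x => ∃ (hv : P v) (hx : Q x), e ⟨v, hv⟩ = ⟨x, hx⟩, ?_, ?_, ?_, ?_⟩
    · intro v hv
      exact ⟨e ⟨v, hv⟩, (e ⟨v, hv⟩).2, hv, (e ⟨v, hv⟩).2, rfl⟩
    · intro x hx
      exact ⟨e.symm ⟨x, hx⟩, (e.symm ⟨x, hx⟩).2, (e.symm ⟨x, hx⟩).2, hx, by simp⟩
    · rintro v x x' _ _ _ ⟨h1, h2, h3⟩ ⟨h4, h5, h6⟩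
      rw [h3] at h6
      exact congrArg Subtype.val h6
    · rintro v v' x _ _ _ ⟨h1, h2, h3⟩ ⟨h4, h5, h6⟩
      rw [← h6] at h3
      exact congrArg Subtype.val (e.injective h3)
  · rintro ⟨B, h1, h2, h3, h4⟩
    choose f hf using h1
    refine ⟨Equiv.ofBijective (fun v => ⟨f v.1 v.2, (hf v.1 v.2).1⟩) ⟨?_, ?_⟩⟩
    · intro v v' h
      have h5 : f v.1 v.2 = f v'.1 v'.2 := congrArg Subtype.val h
      have h6 := (hf v'.1 v'.2).2
      rw [← h5] at h6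
      exact Subtype.ext (h4 _ _ _ v.2 v'.2 (hf v.1 v.2).1 (hf v.1 v.2).2 h6)
    · intro x
      obtain ⟨v, hv, hb⟩ := h2 x.1 x.2
      exact ⟨⟨v, hv⟩, Subtype.ext (h3 _ _ _ hv (hf v hv).1 x.2 (hf v hv).2 hb)⟩

end Pool.Agent.Helper669.Hartig
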