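import Mathlib
import Pool.Agent.Helper669.HPred

/-!
# Analysis of the second-order description
-/

namespace Pool.Agent.Helper669.Hartig

open Cardinal

universe u

variable {M : Type u}

theorem mk_range_nat {ι : ℕ → M} (hι : Function.Injective ι) : #(Set.range ι) = ℵ₀ := by
  have h := Cardinal.mk_range_eq_of_injective hι
  simpa using h

theorem std_std {ι : ℕ → M} (hι : Function.Injective ι) :
    Std ι (fun x => ∃ k, x = ι k) (ι 0) (fun x y => ∃ k, x = ι k ∧ y = ι (k + 1))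
      (fun x y t => ∃ k, x = ι k ∧ y = ι (w k).1 ∧ t = ι (w k).2)
      (fun x y => ∃ k l, x = ι k ∧ y = ι l ∧ k < l) (ι 1) (ι 2) (ι 3) (ι 4) (ι 5) where
  inj := hι
  N := fun _ => Iff.rfl
  z := rfl
  S := fun _ _ => Iff.rfl
  U := fun _ _ _ => Iff.rfl
  W := by
    intro x l
    constructor
    · rintro ⟨k, l', rfl, h, hk⟩
      rw [hι h]
      exact ⟨k, hk, rfl⟩
    · rintro ⟨k, hk, rfl⟩
      exact ⟨k, l, rfl, rfl, hk⟩
  o₁ := rfl
  o₂ := rfl
  o₃ := rfl
  o₄ := rfl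
  o₅ := rfl

section

variable {ι : ℕ → M} {N : M → Prop} {z : M} {S : M → M → Prop} {U : M → M → M → Prop}
  {W : M → M → Prop} {o₁ o₂ o₃ o₄ o₅ : M}

theorem Std.card_of_bth (h : Std ι N z S U W o₁ o₂ o₃ o₄ o₅) {n : ℕ} {H : M → M → Prop}
    {E : M → M → M → Prop} (hb : Bth N z S W (ι n) H E) : #M = ℶ_ ((n + 1 : ℕ) : Ordinal.{u}) := by
  obtain ⟨m, h1, h2, h3, h4⟩ := hb
  obtain ⟨n', h5, rfl⟩ := (h.S _ _).1 h1
  obtain rfl : n = n' := h.inj h5
  have key : ∀ i ≤ n + 1, #{x // H (ι i) x} = ℶ_ ((i : ℕ) : Ordinal.{u}) := by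
    intro i
    induction i with
    | zero =>
      intro _
      rw [Nat.cast_zero, Cardinal.beth_zero]
      have e1 : #{x // H (ι 0) x} = #(Set.range ι) := by
        refine Cardinal.mk_congr (Equiv.subtypeEquivRight fun x => ?_)
        rw [← h.z, h3, h.N]
        constructor
        · rintro ⟨k, rfl⟩; exact ⟨k, rfl⟩
        · rintro ⟨k, rfl⟩; exact ⟨k, rfl⟩
      rw [e1, mk_range_nat h.inj]
    | succ i ih =>
      intro hi
      have ih' := ih (by omega)
      obtain ⟨h6, h7⟩ := h4 (ι i) (ι (i + 1)) ((h.S _ _).2 ⟨i, rfl, rfl⟩)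
        ((h.W _ _).2 ⟨i, by omega, rfl⟩)
      have e1 : #{x // H (ι (i + 1)) x} = #(Set {x // H (ι i) x}) := by
        refine Cardinal.mk_congr (Equiv.ofBijective
          (fun y => {x : {x // H (ι i) x} | E (ι i) x.1 y.1}) ⟨?_, ?_⟩)
        · intro y y' hy
          refine Subtype.ext (h6 _ _ y.2 y'.2 fun x hx => ?_)
          exact Set.ext_iff.1 hy ⟨x, hx⟩
        · intro Y
          obtain ⟨y, hy, hy'⟩ := h7 (fun x => ∃ hx : H (ι i) x, (⟨x, hx⟩ : {x // H (ι i) x}) ∈ Y)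
          refine ⟨⟨y, hy⟩, Set.ext fun x => ?_⟩
          simp only [Set.mem_ofPred_eq]
          rw [← hy' x.1 x.2]
          constructor
          · rintro ⟨_, h8⟩; exact h8
          · intro h8; exact ⟨x.2, h8⟩
      rw [e1, Cardinal.mk_set, ih', Nat.cast_succ, Cardinal.beth_add_one]
  rw [← key (n + 1) le_rfl]
  refine Cardinal.mk_congr (Equiv.symm ?_)
  exact Equiv.subtypeUnivEquiv h2

end

theorem exists_bth {n : ℕ} (hM : #M = ℶ_ ((n + 1 : ℕ) : Ordinal.{u})) {ι : ℕ → M}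
    (hι : Function.Injective ι) : ∃ (H : M → M → Prop) (E : M → M → M → Prop),
      Bth (fun x => ∃ k, x = ι k) (ι 0) (fun x y => ∃ k, x = ι k ∧ y = ι (k + 1))
        (fun x y => ∃ k l, x = ι k ∧ y = ι l ∧ k < l) (ι n) H E := by
  classical
  have hA : ∀ i : ℕ, ∃ A : Set M, (i = 0 → A = Set.range ι) ∧ (i = n + 1 → A = Set.univ) ∧
      (i ≤ n + 1 → #A = ℶ_ ((i : ℕ) : Ordinal.{u})) := by
    intro i
    by_cases h0 : i = 0
    · subst h0
      refine ⟨Set.range ι, fun _ => rfl, fun h => by omega, fun _ => ?_⟩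
      rw [mk_range_nat hι]
      simp
    by_cases h1 : i = n + 1
    · subst h1
      exact ⟨Set.univ, fun h => by omega, fun _ => rfl, fun _ => by rw [Cardinal.mk_univ, hM]⟩
    by_cases h2 : i ≤ n + 1
    · have h3 : ℶ_ ((i : ℕ) : Ordinal.{u}) ≤ #M := by
        rw [hM]
        exact Cardinal.beth_le_beth.2 (by exact_mod_cast h2)
      obtain ⟨A, hA⟩ := Cardinal.le_mk_iff_exists_set.1 h3
      exact ⟨A, fun h => absurd h h0, fun h => absurd h h1, fun _ => hA⟩
    · exact ⟨∅, fun h => absurd h h0, fun h => absurd h h1, fun h => absurd h h2⟩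
  choose A hA0 hA1 hA2 using hA
  have he : ∀ k : ℕ, k ≤ n → Nonempty (A (k + 1) ≃ Set (A k)) := by
    intro k hk
    rw [← Cardinal.eq, Cardinal.mk_set, hA2 _ (by omega), hA2 _ (by omega), Nat.cast_succ,
      Cardinal.beth_add_one]
  have he' : ∀ k : ℕ, ∃ f : A (k + 1) → Set (A k), k ≤ n → Function.Bijective f := by
    intro k
    by_cases hk : k ≤ n
    · obtain ⟨e⟩ := he k hk
      exact ⟨e, fun _ => e.bijective⟩
    · exact ⟨fun _ => ∅, fun h => absurd h hk⟩
  choose f hf using he'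
  refine ⟨fun x y => ∃ k, x = ι k ∧ y ∈ A k,
    fun i x y => ∃ k, i = ι k ∧ ∃ (hy : y ∈ A (k + 1)) (hx : x ∈ A k), ⟨x, hx⟩ ∈ f k ⟨y, hy⟩,
    ι (n + 1), ⟨n, rfl, rfl⟩, ?_, ?_, ?_⟩
  · intro x
    exact ⟨n + 1, rfl, by rw [hA1 _ rfl]; trivial⟩
  · intro x
    constructor
    · rintro ⟨k, h1, h2⟩
      have h3 := hι h1
      subst h3
      rw [hA0 _ rfl] at h2
      obtain ⟨k, rfl⟩ := h2
      exact ⟨k, rfl⟩
    · rintro ⟨k, rfl⟩
      exact ⟨0, rfl, by rw [hA0 _ rfl]; exact ⟨k, rfl⟩⟩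
  · rintro i i' ⟨k, rfl, rfl⟩ ⟨k', l, h1, h2, h3⟩
    have h4 := hι h1
    have h5 := hι h2
    subst h4 h5
    have hk : k ≤ n := by omega
    constructor
    · rintro y y' ⟨k1, h6, h7⟩ ⟨k2, h8, h9⟩ h10
      have h11 := hι h6
      have h12 := hι h8
      subst h11 h12
      have h13 : (⟨y, h7⟩ : A (k + 1)) = ⟨y', h9⟩ := by
        refine (hf k hk).1 (Set.ext fun x => ?_)
        have h14 := h10 x.1 ⟨k, rfl, x.2⟩
        constructor
        · intro h15
          obtain ⟨k3, h16, h17, h18, h19⟩ := h14.1 ⟨k, rfl, h7, x.2, h15⟩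
          have h20 := hι h16
          subst h20
          exact h19
        · intro h15
          obtain ⟨k3, h16, h17, h18, h19⟩ := h14.2 ⟨k, rfl, h9, x.2, h15⟩
          have h20 := hι h16
          subst h20
          exact h19
      exact congrArg Subtype.val h13
    · intro Y
      obtain ⟨y, hy⟩ := (hf k hk).2 {x | Y x.1}
      refine ⟨y.1, ⟨k + 1, rfl, y.2⟩, ?_⟩
      rintro x ⟨k1, h6, h7⟩
      have h8 := hι h6
      subst h8
      constructor
      · intro h9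
        refine ⟨k, rfl, y.2, h7, ?_⟩
        show _ ∈ f k y
        rw [hy]
        exact h9
      · rintro ⟨k2, h10, h11, h12, h13⟩
        have h14 := hι h10
        subst h14
        have h15 : (⟨x, h12⟩ : A k) ∈ f k y := h13
        rw [hy] at h15
        exact h15

end Pool.Agent.Helper669.Hartig
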