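import Mathlib
import Pool.Agent.Helper669.HPred2

/-!
# The truth clauses
-/

namespace Pool.Agent.Helper669.Hartig

open Cardinal

universe u

variable {M : Type u}

/-- the values of `x` that satisfy `F` -/
def Vn (look : ℕ → M → M) (F : M → Prop) (x : ℕ) (s v : M) : Prop :=
  ∃ s', (∀ j, j ≠ x → look j s' = look j s) ∧ look x s' = v ∧ F s'

theorem vn_iff {look : ℕ → M → M} {Int : ℕ → M → Prop} (hc : Closed look) {F : M → Prop} {c : C}
    (hF : ∀ s, F s ↔ Sat (AtOf look Int) c (fun j => look j s)) (x : ℕ) (s v : M) :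
    Vn look F x s v ↔ Sat (AtOf look Int) c (Function.update (fun j => look j s) x v) := by
  have key : ∀ s', (∀ j, j ≠ x → look j s' = look j s) → look x s' = v →
      (fun j => look j s') = Function.update (fun j => look j s) x v := by
    intro s' h1 h2
    funext j
    by_cases hj : j = x
    · subst hj; simp [h2]
    · rw [Function.update_of_ne hj]; exact h1 j hj
  constructor
  · rintro ⟨s', h1, h2, h3⟩
    rw [← key s' h1 h2]
    exact (hF s').1 h3
  · intro h
    obtain ⟨s', h1, h2⟩ := hc s x v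
    refine ⟨s', h2, h1, (hF s').2 ?_⟩
    rw [key s' h2 h1]
    exact h

/-- the truth clauses for standard codes -/
def ClsN (look : ℕ → M → M) (Int : ℕ → M → Prop) (F : ℕ → M → Prop) : Prop :=
  ∀ e c p a b, w e = (c, p) → w p = (a, b) →
    (c = 0 → ∀ s, (F e s ↔ AtOf look Int a b (fun j => look j s))) ∧
    (c = 1 → ∀ s, (F e s ↔ look a s = look b s)) ∧
    (c = 2 → ∀ s, (F e s ↔ ¬ F a s)) ∧
    (c = 3 → ∀ s, (F e s ↔ F a s ∧ F b s)) ∧
    (c = 4 → ∀ s, (F e s ↔ ∀ s', (∀ j, j ≠ a → look j s' = look j s) → F b s')) ∧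
    (c = 5 → ∀ x c' y d', w a = (x, c') → w b = (y, d') → ∀ s,
      (F e s ↔ #{v // Vn look (F c') x s v} = #{v // Vn look (F d') y s v}))

section

variable {ι : ℕ → M} {N : M → Prop} {z : M} {S : M → M → Prop} {U : M → M → M → Prop}
  {W : M → M → Prop} {o₁ o₂ o₃ o₄ o₅ : M} {Lk : M → M → M → Prop} {I T : M → M → Prop}
  {look : ℕ → M → M} {Int : ℕ → M → Prop}

theorem Std.sim (h : Std ι N z S U W o₁ o₂ o₃ o₄ o₅)
    (hL : ∀ j s a, Lk (ι j) s a ↔ a = look j s) (x : ℕ) (s s' : M) :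
    Sim N Lk (ι x) s s' ↔ ∀ j, j ≠ x → look j s' = look j s := by
  constructor
  · intro h1 j hj
    have h2 := (h1 (ι j) (look j s') ((h.N _).2 ⟨j, rfl⟩) (fun h3 => hj (h.inj h3))).1
      ((hL _ _ _).2 rfl)
    exact (hL _ _ _).1 h2
  · intro h1 j a hj hjx
    obtain ⟨j, rfl⟩ := (h.N _).1 hj
    rw [hL, hL, h1 j (fun h3 => hjx (by rw [h3]))]

theorem Std.vl (h : Std ι N z S U W o₁ o₂ o₃ o₄ o₅)
    (hL : ∀ j s a, Lk (ι j) s a ↔ a = look j s) (x c : ℕ) (s v : M) :
    Vl N Lk T (ι x) (ι c) s v ↔ Vn look (T (ι c)) x s v := by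
  refine exists_congr fun s' => ?_
  rw [h.sim hL, hL]
  exact and_congr_right fun _ => and_congr_left fun _ => eq_comm

theorem Std.closed (h : Std ι N z S U W o₁ o₂ o₃ o₄ o₅)
    (hL : ∀ j s a, Lk (ι j) s a ↔ a = look j s) (hA : LookA N Lk) : Closed look := by
  intro s k b
  obtain ⟨s', h1, h2⟩ := hA.2.2 (ι k) s b ((h.N _).2 ⟨k, rfl⟩)
  refine ⟨s', ((hL _ _ _).1 h1).symm, fun j hj => ?_⟩
  have h3 := (h2 (ι j) (look j s') ((h.N _).2 ⟨j, rfl⟩) (fun h3 => hj (h.inj h3))).1
    ((hL _ _ _).2 rfl)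
  exact (hL _ _ _).1 h3

theorem Std.cls (h : Std ι N z S U W o₁ o₂ o₃ o₄ o₅)
    (hL : ∀ j s a, Lk (ι j) s a ↔ a = look j s) (hI : ∀ j s, I (ι j) s ↔ Int j s) :
    Cls N W U z o₁ o₂ o₃ o₄ o₅ Lk I T ↔ ClsN look Int fun e => T (ι e) := by
  have hat : ∀ (a b : ℕ) (s : M),
      (∃ s', (∀ j v, W j (ι b) → (Lk j s' v ↔ Lk j s v)) ∧ I (ι a) s') ↔
      AtOf look Int a b (fun j => look j s) := by
    intro a b s
    refine exists_congr fun s' => ?_
    rw [hI]
    refine and_congr_left fun _ => ?_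
    constructor
    · intro h1 j hj
      exact (hL _ _ _).1 ((h1 (ι j) (look j s') ((h.W _ _).2 ⟨j, hj, rfl⟩)).1 ((hL _ _ _).2 rfl))
    · intro h1 j v hj
      obtain ⟨i, hi, rfl⟩ := (h.W _ _).1 hj
      rw [hL, hL, h1 i hi]
  have heq : ∀ (a b : ℕ) (s : M), (∃ v, Lk (ι a) s v ∧ Lk (ι b) s v) ↔ look a s = look b s := by
    intro a b s
    constructor
    · rintro ⟨v, h1, h2⟩
      rw [hL] at h1 h2
      rw [← h1, ← h2]
    · intro h1
      exact ⟨look a s, (hL _ _ _).2 rfl, (hL _ _ _).2 h1⟩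
  have hhar : ∀ (x c y d : ℕ) (s : M),
      (∃ B : M → M → Prop, Bij (Vl N Lk T (ι x) (ι c) s) (Vl N Lk T (ι y) (ι d) s) B) ↔
      #{v // Vn look (T (ι c)) x s v} = #{v // Vn look (T (ι d)) y s v} := by
    intro x c y d s
    rw [← mk_eq_iff_bij]
    have e1 : ∀ x c, Vl N Lk T (ι x) (ι c) s = Vn look (T (ι c)) x s := fun x c =>
      funext fun v => propext (h.vl hL x c s v)
    rw [e1, e1]
  constructor
  · intro hC e c p a b h1 h2
    obtain ⟨c0, c1, c2, c3, c4, c5⟩ := hC (ι e) (ι c) (ι p) (ι a) (ι b)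
      ((h.U _ _ _).2 ⟨e, rfl, by rw [h1], by rw [h1]⟩)
      ((h.U _ _ _).2 ⟨p, rfl, by rw [h2], by rw [h2]⟩)
    refine ⟨?_, ?_, ?_, ?_, ?_, ?_⟩
    · rintro rfl s
      exact (c0 h.z.symm s).trans (hat a b s)
    · rintro rfl s
      exact (c1 h.o₁.symm s).trans (heq a b s)
    · rintro rfl s
      exact c2 h.o₂.symm s
    · rintro rfl s
      exact c3 h.o₃.symm s
    · rintro rfl s
      exact (c4 h.o₄.symm s).trans (forall_congr' fun s' => by rw [h.sim hL])
    · rintro rfl x c' y d' h3 h4 s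
      exact (c5 h.o₅.symm (ι x) (ι c') (ι y) (ι d')
        ((h.U _ _ _).2 ⟨a, rfl, by rw [h3], by rw [h3]⟩)
        ((h.U _ _ _).2 ⟨b, rfl, by rw [h4], by rw [h4]⟩) s).trans (hhar _ _ _ _ s)
  · intro hC e c p a b h1 h2
    obtain ⟨e, rfl, rfl, rfl⟩ := (h.U _ _ _).1 h1
    obtain ⟨p, h3, rfl, rfl⟩ := (h.U _ _ _).1 h2
    have h4 := h.inj h3
    subst h4
    obtain ⟨c0, c1, c2, c3, c4, c5⟩ := hC e (w e).1 (w e).2 (w (w e).2).1 (w (w e).2).2 rfl rfl
    refine ⟨?_, ?_, ?_, ?_, ?_, ?_⟩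
    · intro h5 s
      rw [h.z] at h5
      exact (c0 (h.inj h5) s).trans (hat _ _ s).symm
    · intro h5 s
      rw [h.o₁] at h5
      exact (c1 (h.inj h5) s).trans (heq _ _ s).symm
    · intro h5 s
      rw [h.o₂] at h5
      exact c2 (h.inj h5) s
    · intro h5 s
      rw [h.o₃] at h5
      exact c3 (h.inj h5) s
    · intro h5 s
      rw [h.o₄] at h5
      exact (c4 (h.inj h5) s).trans (forall_congr' fun s' => by rw [h.sim hL])
    · intro h5 x c' y d' h6 h7 s
      rw [h.o₅] at h5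
      obtain ⟨a, h8, rfl, rfl⟩ := (h.U _ _ _).1 h6
      obtain ⟨b, h9, rfl, rfl⟩ := (h.U _ _ _).1 h7
      rw [hhar]
      refine c5 (h.inj h5) _ _ _ _ ?_ ?_ s
      · rw [h.inj h8]
      · rw [h.inj h9]

theorem ClsN.sat (hc : Closed look) {F : ℕ → M → Prop} (h : ClsN look Int F) (c : C) (s : M) :
    F (enc c) s ↔ Sat (AtOf look Int) c (fun j => look j s) := by
  induction c generalizing s with
  | atom i l => exact (h _ _ _ _ _ (w_pr _ _) (w_pr _ _)).1 rfl s
  | eq x y => exact (h _ _ _ _ _ (w_pr _ _) (w_pr _ _)).2.1 rfl s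
  | neg c ih =>
    have h1 := (h _ _ _ _ _ (w_pr 2 (pr (enc c) 0)) (w_pr _ _)).2.2.1 rfl s
    rw [ih] at h1
    exact h1
  | and c d ihc ihd =>
    have h1 := (h _ _ _ _ _ (w_pr 3 (pr (enc c) (enc d))) (w_pr _ _)).2.2.2.1 rfl s
    rw [ihc, ihd] at h1
    exact h1
  | all x c ih =>
    have h1 := (h _ _ _ _ _ (w_pr 4 (pr x (enc c))) (w_pr _ _)).2.2.2.2.1 rfl s
    refine h1.trans ?_
    simp only [Sat]
    constructor
    · intro h2 a
      rw [← vn_iff hc (F := F (enc c)) ih]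
      obtain ⟨s', h3, h4⟩ := hc s x a
      exact ⟨s', h4, h3, h2 s' h4⟩
    · intro h2 s' h3
      rw [ih]
      have h4 := h2 (look x s')
      have h5 : Function.update (fun j => look j s) x (look x s') = fun j => look j s' := by
        funext j
        by_cases hj : j = x
        · subst hj; simp
        · rw [Function.update_of_ne hj]; exact (h3 j hj).symm
      rw [h5] at h4
      exact h4
  | har x c y d ihc ihd =>
    have h1 := (h _ _ _ _ _ (w_pr 5 (pr (pr x (enc c)) (pr y (enc d)))) (w_pr _ _)).2.2.2.2.2 rfl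
      _ _ _ _ (w_pr _ _) (w_pr _ _) s
    refine h1.trans ?_
    simp only [Sat]
    rw [show Vn look (F (enc c)) x s = fun v => Sat (AtOf look Int) c
      (Function.update (fun j => look j s) x v) from
      funext fun v => propext (vn_iff hc (F := F (enc c)) ihc x s v)]
    rw [show Vn look (F (enc d)) y s = fun v => Sat (AtOf look Int) d
      (Function.update (fun j => look j s) y v) from
      funext fun v => propext (vn_iff hc (F := F (enc d)) ihd y s v)]

theorem clsN_sat (hc : Closed look) :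
    ClsN look Int fun e s => Sat (AtOf look Int) (dec e) (fun j => look j s) := by
  intro e c p a b h1 h2
  refine ⟨?_, ?_, ?_, ?_, ?_, ?_⟩
  · rintro rfl s
    simp only [dec_atom h1 h2, Sat]
  · rintro rfl s
    simp only [dec_eq h1 h2, Sat]
  · rintro rfl s
    simp only [dec_neg h1 h2, Sat]
  · rintro rfl s
    simp only [dec_and h1 h2, Sat]
  · rintro rfl s
    simp only [dec_all h1 h2, Sat]
    constructor
    · intro h3 s' h4
      have h5 := h3 (look a s')
      have h6 : Function.update (fun j => look j s) a (look a s') = fun j => look j s' := by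
        funext j
        by_cases hj : j = a
        · subst hj; simp
        · rw [Function.update_of_ne hj]; exact (h4 j hj).symm
      rw [h6] at h5
      exact h5
    · intro h3 v
      obtain ⟨s', h4, h5⟩ := hc s a v
      have h6 := h3 s' h5
      have h7 : Function.update (fun j => look j s) a v = fun j => look j s' := by
        funext j
        by_cases hj : j = a
        · subst hj; simp [h4]
        · rw [Function.update_of_ne hj]; exact (h5 j hj).symm
      rw [h7]
      exact h6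
  · rintro rfl x c' y d' h3 h4 s
    simp only [dec_har h1 h2 h3 h4, Sat]
    rw [show Vn look (fun s => Sat (AtOf look Int) (dec c') (fun j => look j s)) x s =
      fun v => Sat (AtOf look Int) (dec c') (Function.update (fun j => look j s) x v) from
      funext fun v => propext (vn_iff hc (fun _ => Iff.rfl) x s v)]
    rw [show Vn look (fun s => Sat (AtOf look Int) (dec d') (fun j => look j s)) y s =
      fun v => Sat (AtOf look Int) (dec d') (Function.update (fun j => look j s) y v) from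
      funext fun v => propext (vn_iff hc (fun _ => Iff.rfl) y s v)]

/-- the inner part of `Theta` -/
def TruthA (N : M → Prop) (W : M → M → Prop) (U : M → M → M → Prop)
    (z o₁ o₂ o₃ o₄ o₅ n : M) : Prop :=
  ∃ (Lk : M → M → M → Prop) (I T : M → M → Prop), LookA N Lk ∧
      Cls N W U z o₁ o₂ o₃ o₄ o₅ Lk I T ∧ ∀ s, T n s

theorem Std.truthA_iff (h : Std ι N z S U W o₁ o₂ o₃ o₄ o₅) (c : C) :
    TruthA N W U z o₁ o₂ o₃ o₄ o₅ (ι (enc c)) ↔ Good M c := by
  constructor
  · rintro ⟨Lk, I, T, hA, hC, hT⟩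
    have h1 : ∀ j s, ∃ a, Lk (ι j) s a := fun j s => hA.1 _ _ ((h.N _).2 ⟨j, rfl⟩)
    choose look hlook using h1
    have hL : ∀ j s a, Lk (ι j) s a ↔ a = look j s := by
      intro j s a
      constructor
      · intro h2
        exact hA.2.1 _ _ _ _ h2 (hlook j s)
      · rintro rfl
        exact hlook j s
    have hc := h.closed hL hA
    have hN := (h.cls hL (Int := fun j s => I (ι j) s) (fun _ _ => Iff.rfl)).1 hC
    exact ⟨look, fun j s => I (ι j) s, hc, fun s => (hN.sat hc c s).1 (hT s)⟩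
  · rintro ⟨look, Int, hc, hS⟩
    refine ⟨fun k s a => ∃ j, k = ι j ∧ a = look j s, fun k s => ∃ j, k = ι j ∧ Int j s,
      fun e s => ∃ j, e = ι j ∧ Sat (AtOf look Int) (dec j) (fun j => look j s), ?_, ?_, ?_⟩
    · refine ⟨?_, ?_, ?_⟩
      · intro k s hk
        obtain ⟨j, rfl⟩ := (h.N _).1 hk
        exact ⟨_, j, rfl, rfl⟩
      · rintro k s a a' ⟨j, rfl, rfl⟩ ⟨j', h1, rfl⟩
        rw [h.inj h1]
      · intro k s b hk
        obtain ⟨j, rfl⟩ := (h.N _).1 hk
        obtain ⟨s', h1, h2⟩ := hc s j b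
        refine ⟨s', ⟨j, rfl, h1.symm⟩, ?_⟩
        intro i a hi hij
        obtain ⟨i, rfl⟩ := (h.N _).1 hi
        have h3 : i ≠ j := fun h4 => hij (by rw [h4])
        constructor
        · rintro ⟨i', h4, rfl⟩
          have h5 := h.inj h4
          subst h5
          exact ⟨i, rfl, h2 i h3⟩
        · rintro ⟨i', h4, rfl⟩
          have h5 := h.inj h4
          subst h5
          exact ⟨i, rfl, (h2 i h3).symm⟩
    · have hL : ∀ j s a, (∃ i, ι j = ι i ∧ a = look i s) ↔ a = look j s := by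
        intro j s a
        constructor
        · rintro ⟨i, h1, rfl⟩
          rw [h.inj h1]
        · rintro rfl
          exact ⟨j, rfl, rfl⟩
      have hI : ∀ j s, (∃ i, ι j = ι i ∧ Int i s) ↔ Int j s := by
        intro j s
        constructor
        · rintro ⟨i, h1, h2⟩
          rw [h.inj h1]
          exact h2
        · intro h1
          exact ⟨j, rfl, h1⟩
      refine (h.cls hL hI).2 ?_
      have h1 : (fun (e : ℕ) (s : M) => ∃ j, ι e = ι j ∧
          Sat (AtOf look Int) (dec j) (fun j => look j s)) =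
          fun e s => Sat (AtOf look Int) (dec e) (fun j => look j s) := by
        funext e s
        refine propext ⟨?_, fun h1 => ⟨e, rfl, h1⟩⟩
        rintro ⟨j, h2, h3⟩
        rw [h.inj h2]
        exact h3
      rw [h1]
      exact clsN_sat hc
    · intro s
      refine ⟨enc c, rfl, ?_⟩
      rw [dec_enc]
      exact hS s

end

theorem theta_card (h : Theta M) : ∃ n : ℕ, #M = ℶ_ ((n + 1 : ℕ) : Ordinal.{u}) := by
  obtain ⟨N, z, S, U, W, H, E, n, o₁, o₂, o₃, o₄, o₅, h1, h2, h3, h4, h5, -⟩ := h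
  obtain ⟨ι, hι⟩ := exists_std h1 h2 h3 h5
  have h6 : N n := by
    obtain ⟨m, h7, -⟩ := h4
    exact (h1.2.2.1 _ _ h7).1
  obtain ⟨n, rfl⟩ := (hι.N _).1 h6
  exact ⟨n, hι.card_of_bth h4⟩

theorem theta_iff {c : C} (hM : #M = ℶ_ ((enc c + 1 : ℕ) : Ordinal.{u})) :
    Theta M ↔ ¬ Good M c := by
  constructor
  · rintro ⟨N, z, S, U, W, H, E, n, o₁, o₂, o₃, o₄, o₅, h1, h2, h3, h4, h5, h6⟩
    obtain ⟨ι, hι⟩ := exists_std h1 h2 h3 h5
    have h7 : N n := by
      obtain ⟨m, h7, -⟩ := h4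
      exact (h1.2.2.1 _ _ h7).1
    obtain ⟨n, rfl⟩ := (hι.N _).1 h7
    have h8 := hι.card_of_bth h4
    rw [hM] at h8
    have h9 : enc c = n := by
      have h10 := Cardinal.beth_strictMono.injective h8
      have h11 : enc c + 1 = n + 1 := by exact_mod_cast h10
      omega
    subst h9
    rw [← hι.truthA_iff c]
    exact h6
  · intro hG
    have hinf : Infinite M := by
      rw [Cardinal.infinite_iff, hM]
      exact Cardinal.aleph0_le_beth _
    obtain ⟨ι⟩ : Nonempty (ℕ ↪ M) := ⟨Infinite.natEmbedding M⟩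
    obtain ⟨H, E, hb⟩ := exists_bth hM ι.injective
    refine ⟨_, _, _, _, _, H, E, ι (enc c), ι 1, ι 2, ι 3, ι 4, ι 5, std_pea ι.injective,
      std_wlk ι.injective, std_lta ι.injective, hb,
      ⟨⟨0, rfl, rfl⟩, ⟨1, rfl, rfl⟩, ⟨2, rfl, rfl⟩, ⟨3, rfl, rfl⟩, ⟨4, rfl, rfl⟩⟩, ?_⟩
    rw [← (std_std ι.injective).truthA_iff c] at hG
    exact hG

end Pool.Agent.Helper669.Hartig
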