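import Mathlib
import Pool.Agent.Helper669.HPred3

/-!
# The second-order sentence
-/

namespace Pool.Agent.Helper669.Hartig

open Cardinal FirstOrder

universe u

variable {M : Type u}

namespace SO

/-- individual variable -/
abbrev t (x : ℕ) : Language.empty.Term ℕ := .var x
/-- existential quantifier -/
def ex (x : ℕ) (φ : SO Language.empty) : SO Language.empty := .neg (.all x (.neg φ))
/-- existential relation quantifier -/
def exR (k X : ℕ) (φ : SO Language.empty) : SO Language.empty := .neg (.allRel k X (.neg φ))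
/-- implication -/
def imp (φ ψ : SO Language.empty) : SO Language.empty := .neg (.and φ (.neg ψ))
/-- disjunction -/
def or (φ ψ : SO Language.empty) : SO Language.empty := .neg (.and (.neg φ) (.neg ψ))
/-- equivalence -/
def iff (φ ψ : SO Language.empty) : SO Language.empty := .and (imp φ ψ) (imp ψ φ)
/-- equality of variables -/
def eq (x y : ℕ) : SO Language.empty := .equal (t x) (t y)
/-- unary atom -/
def r1 (X x : ℕ) : SO Language.empty := .var 1 X ![t x]
/-- binary atom -/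
def r2 (X x y : ℕ) : SO Language.empty := .var 2 X ![t x, t y]
/-- ternary atom -/
def r3 (X x y z : ℕ) : SO Language.empty := .var 3 X ![t x, t y, t z]

end SO

section

variable [Language.empty.Structure M] (φ ψ : SO Language.empty) (v : ℕ → M) (V : RelVal M)

theorem rz_and : (SO.and φ ψ).Realize v V ↔ φ.Realize v V ∧ ψ.Realize v V := Iff.rfl
theorem rz_neg : (SO.neg φ).Realize v V ↔ ¬ φ.Realize v V := Iff.rfl
theorem rz_all (x : ℕ) : (SO.all x φ).Realize v V ↔ ∀ a, φ.Realize (Function.update v x a) V :=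
  Iff.rfl
theorem rz_ex (x : ℕ) : (SO.ex x φ).Realize v V ↔ ∃ a, φ.Realize (Function.update v x a) V := by
  simp [SO.ex, SO.Realize]
theorem rz_imp : (SO.imp φ ψ).Realize v V ↔ (φ.Realize v V → ψ.Realize v V) := by
  simp [SO.imp, SO.Realize]
theorem rz_or : (SO.or φ ψ).Realize v V ↔ (φ.Realize v V ∨ ψ.Realize v V) := by
  simp only [SO.or, SO.Realize]; tauto
theorem rz_iff : (SO.iff φ ψ).Realize v V ↔ (φ.Realize v V ↔ ψ.Realize v V) := by
  simp only [SO.iff, rz_and, rz_imp]; tauto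
theorem rz_eq (x y : ℕ) : (SO.eq x y).Realize v V ↔ v x = v y := Iff.rfl
theorem rz_r1 (X x : ℕ) : (SO.r1 X x).Realize v V ↔ V 1 X ![v x] := by
  simp only [SO.r1, SO.Realize]
  have : (fun i => Language.Term.realize v ((![SO.t x] : Fin 1 → _) i)) = ![v x] := by
    funext i; fin_cases i; rfl
  rw [this]
theorem rz_r2 (X x y : ℕ) : (SO.r2 X x y).Realize v V ↔ V 2 X ![v x, v y] := by
  simp only [SO.r2, SO.Realize]
  have : (fun i => Language.Term.realize v ((![SO.t x, SO.t y] : Fin 2 → _) i)) =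
      ![v x, v y] := by
    funext i; fin_cases i <;> rfl
  rw [this]
theorem rz_r3 (X x y z : ℕ) : (SO.r3 X x y z).Realize v V ↔ V 3 X ![v x, v y, v z] := by
  simp only [SO.r3, SO.Realize]
  have : (fun i => Language.Term.realize v ((![SO.t x, SO.t y, SO.t z] : Fin 3 → _) i)) =
      ![v x, v y, v z] := by
    funext i; fin_cases i <;> rfl
  rw [this]

omit [Language.empty.Structure M] in
theorem vec1 (s : Fin 1 → M) : ![s 0] = s := by funext i; fin_cases i; rfl
omit [Language.empty.Structure M] in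
theorem vec2 (s : Fin 2 → M) : ![s 0, s 1] = s := by funext i; fin_cases i <;> rfl
omit [Language.empty.Structure M] in
theorem vec3 (s : Fin 3 → M) : ![s 0, s 1, s 2] = s := by funext i; fin_cases i <;> rfl

theorem rz_allR1 (X : ℕ) : (SO.allRel 1 X φ).Realize v V ↔
    ∀ R : M → Prop, φ.Realize v (V.upd 1 X fun s => R (s 0)) := by
  constructor
  · intro h R
    exact h _
  · intro h R
    have := h fun x => R ![x]
    simpa only [vec1] using this
theorem rz_allR2 (X : ℕ) : (SO.allRel 2 X φ).Realize v V ↔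
    ∀ R : M → M → Prop, φ.Realize v (V.upd 2 X fun s => R (s 0) (s 1)) := by
  constructor
  · intro h R
    exact h _
  · intro h R
    have := h fun x y => R ![x, y]
    simpa only [vec2] using this
theorem rz_allR3 (X : ℕ) : (SO.allRel 3 X φ).Realize v V ↔
    ∀ R : M → M → M → Prop, φ.Realize v (V.upd 3 X fun s => R (s 0) (s 1) (s 2)) := by
  constructor
  · intro h R
    exact h _
  · intro h R
    have := h fun x y z => R ![x, y, z]
    simpa only [vec3] using this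
theorem rz_exR1 (X : ℕ) : (SO.exR 1 X φ).Realize v V ↔
    ∃ R : M → Prop, φ.Realize v (V.upd 1 X fun s => R (s 0)) := by
  simp only [SO.exR, rz_neg, rz_allR1, not_forall, not_not]
theorem rz_exR2 (X : ℕ) : (SO.exR 2 X φ).Realize v V ↔
    ∃ R : M → M → Prop, φ.Realize v (V.upd 2 X fun s => R (s 0) (s 1)) := by
  simp only [SO.exR, rz_neg, rz_allR2, not_forall, not_not]
theorem rz_exR3 (X : ℕ) : (SO.exR 3 X φ).Realize v V ↔
    ∃ R : M → M → M → Prop, φ.Realize v (V.upd 3 X fun s => R (s 0) (s 1) (s 2)) := by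
  simp only [SO.exR, rz_neg, rz_allR3, not_forall, not_not]

end

theorem upd_same (V : RelVal M) (k X : ℕ) (R : (Fin k → M) → Prop) : (V.upd k X R) k X = R := by
  simp [RelVal.upd]
theorem upd_neX (V : RelVal M) {k X X' : ℕ} (R : (Fin k → M) → Prop) (h : X' ≠ X) :
    (V.upd k X R) k X' = V k X' := by
  simp [RelVal.upd, Function.update_of_ne h]
theorem upd_nek (V : RelVal M) {k k' X X' : ℕ} (R : (Fin k → M) → Prop) (h : k' ≠ k) :
    (V.upd k X R) k' X' = V k' X' := by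
  simp [RelVal.upd, Function.update_of_ne h]

open SO

/-- Peano's axioms -/
def peaF : SO Language.empty :=
  and (r1 0 0) <| and (all 10 (imp (r1 0 10) (ex 11 (r2 0 10 11)))) <|
  and (all 10 (all 11 (imp (r2 0 10 11) (and (r1 0 10) (r1 0 11))))) <|
  and (all 10 (all 11 (all 12 (imp (r2 0 10 11) (imp (r2 0 10 12) (eq 11 12)))))) <|
  and (all 10 (all 11 (all 12 (imp (r2 0 10 12) (imp (r2 0 11 12) (eq 10 11)))))) <|
  and (all 10 (neg (r2 0 10 0)))
  (allRel 1 1 (imp (r1 1 0) (imp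
    (all 10 (all 11 (imp (r1 1 10) (imp (r2 0 10 11) (r1 1 11)))))
    (all 10 (imp (r1 0 10) (r1 1 10))))))

/-- pairs -/
def wlkF : SO Language.empty :=
  and (all 10 (imp (r1 0 10) (ex 11 (ex 12 (r3 0 10 11 12))))) <|
  and (all 10 (all 11 (all 12 (imp (r3 0 10 11 12) (and (r1 0 10) (and (r1 0 11) (r1 0 12))))))) <|
  and (all 10 (all 11 (all 12 (all 13 (all 14 (imp (r3 0 10 11 12) (imp (r3 0 10 13 14)
    (and (eq 11 13) (eq 12 14))))))))) <|
  and (r3 0 0 0 0) <|
  and (all 10 (all 11 (all 12 (all 13 (all 14 (all 15 (imp (r3 0 10 12 15) (imp (r2 0 10 11)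
    (imp (r2 0 12 13) (imp (r2 0 14 15) (r3 0 11 13 14)))))))))))
  (all 10 (all 11 (all 12 (all 13 (imp (r3 0 10 12 0) (imp (r2 0 10 11) (imp (r2 0 12 13)
    (r3 0 11 0 13))))))))

/-- order -/
def ltF : SO Language.empty :=
  and (all 10 (neg (r2 1 10 0)))
  (all 10 (all 11 (all 12 (imp (r2 0 11 12) (iff (r2 1 10 12) (or (r2 1 10 11) (eq 10 11)))))))

/-- iterated power sets -/
def bthF : SO Language.empty :=
  ex 10 <| and (r2 0 1 10) <| and (all 11 (r2 2 10 11)) <|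
  and (all 11 (iff (r2 2 0 11) (r1 0 11))) <|
  all 12 <| all 13 <| imp (r2 0 12 13) <| imp (r2 1 12 10) <|
  and (all 14 (all 15 (imp (r2 2 13 14) (imp (r2 2 13 15) (imp
    (all 16 (imp (r2 2 12 16) (iff (r3 1 12 16 14) (r3 1 12 16 15)))) (eq 14 15))))))
  (allRel 1 1 (ex 14 (and (r2 2 13 14) (all 16 (imp (r2 2 12 16)
    (iff (r1 1 16) (r3 1 12 16 14)))))))

/-- numerals -/
def numF : SO Language.empty :=
  and (r2 0 0 2) <| and (r2 0 2 3) <| and (r2 0 3 4) <| and (r2 0 4 5) (r2 0 5 6)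

/-- assignments -/
def lookF : SO Language.empty :=
  and (all 10 (all 11 (imp (r1 0 10) (ex 12 (r3 2 10 11 12))))) <|
  and (all 10 (all 11 (all 12 (all 13 (imp (r3 2 10 11 12) (imp (r3 2 10 11 13) (eq 12 13)))))))
  (all 10 (all 11 (all 12 (imp (r1 0 10) (ex 13 (and (r3 2 10 13 12) (all 14 (all 15
    (imp (r1 0 14) (imp (neg (eq 14 10)) (iff (r3 2 14 13 15) (r3 2 14 11 15))))))))))))

/-- similarity -/
def simF (x s s' : ℕ) : SO Language.empty :=
  all 50 (all 51 (imp (r1 0 50) (imp (neg (eq 50 x)) (iff (r3 2 50 s' 51) (r3 2 50 s 51)))))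

/-- values -/
def vlF (x c s v : ℕ) : SO Language.empty :=
  ex 40 (and (simF x s 40) (and (r3 2 x 40 v) (r2 4 c 40)))

/-- bijection -/
def bijF : SO Language.empty :=
  and (all 30 (imp (vlF 17 18 16 30) (ex 31 (and (vlF 19 20 16 31) (r2 5 30 31))))) <|
  and (all 31 (imp (vlF 19 20 16 31) (ex 30 (and (vlF 17 18 16 30) (r2 5 30 31))))) <|
  and (all 30 (all 31 (all 32 (imp (vlF 17 18 16 30) (imp (vlF 19 20 16 31)
    (imp (vlF 19 20 16 32) (imp (r2 5 30 31) (imp (r2 5 30 32) (eq 31 32)))))))))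
  (all 30 (all 32 (all 31 (imp (vlF 17 18 16 30) (imp (vlF 17 18 16 32)
    (imp (vlF 19 20 16 31) (imp (r2 5 30 31) (imp (r2 5 32 31) (eq 30 32)))))))))

/-- truth clauses -/
def clsF : SO Language.empty :=
  all 10 <| all 11 <| all 12 <| all 13 <| all 14 <| imp (r3 0 10 11 12) <| imp (r3 0 12 13 14) <|
  and (imp (eq 11 0) (all 16 (iff (r2 4 10 16) (ex 15 (and
    (all 17 (all 18 (imp (r2 1 17 14) (iff (r3 2 17 15 18) (r3 2 17 16 18))))) (r2 3 13 15)))))) <|
  and (imp (eq 11 2) (all 16 (iff (r2 4 10 16) (ex 15 (and (r3 2 13 16 15) (r3 2 14 16 15)))))) <|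
  and (imp (eq 11 3) (all 16 (iff (r2 4 10 16) (neg (r2 4 13 16))))) <|
  and (imp (eq 11 4) (all 16 (iff (r2 4 10 16) (and (r2 4 13 16) (r2 4 14 16))))) <|
  and (imp (eq 11 5) (all 16 (iff (r2 4 10 16) (all 15 (imp (simF 13 16 15) (r2 4 14 15))))))
  (imp (eq 11 6) (all 17 (all 18 (all 19 (all 20 (imp (r3 0 13 17 18) (imp (r3 0 14 19 20)
    (all 16 (iff (r2 4 10 16) (exR 2 5 bijF))))))))))

/-- the sentence -/
def thetaF : SO Language.empty :=
  exR 1 0 <| ex 0 <| exR 2 0 <| exR 3 0 <| exR 2 1 <| exR 2 2 <| exR 3 1 <| ex 1 <| ex 2 <| ex 3 <|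
  ex 4 <| ex 5 <| ex 6 <| and peaF <| and wlkF <| and ltF <| and bthF <| and numF <|
  neg <| exR 3 2 <| exR 2 3 <| exR 2 4 <| and lookF <| and clsF (all 10 (r2 4 1 10))

section

variable [Language.empty.Structure M] (v : ℕ → M) (V : RelVal M)

theorem rz_pea : peaF.Realize v V ↔
    Pea (fun x => V 1 0 ![x]) (v 0) (fun x y => V 2 0 ![x, y]) := by
  simp [peaF, Pea, rz_and, rz_neg, rz_all, rz_ex, rz_imp, rz_eq, rz_r1, rz_r2, rz_allR1,
    upd_same, upd_neX, upd_nek]

theorem rz_wlk : wlkF.Realize v V ↔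
    Wlk (fun x => V 1 0 ![x]) (v 0) (fun x y => V 2 0 ![x, y]) (fun x y z => V 3 0 ![x, y, z]) := by
  simp [wlkF, Wlk, rz_and, rz_neg, rz_all, rz_ex, rz_imp, rz_eq, rz_r1, rz_r2, rz_r3]

theorem rz_lt : ltF.Realize v V ↔
    LtA (v 0) (fun x y => V 2 0 ![x, y]) (fun x y => V 2 1 ![x, y]) := by
  simp [ltF, LtA, rz_and, rz_neg, rz_all, rz_imp, rz_iff, rz_or, rz_eq, rz_r2]

theorem rz_bth : bthF.Realize v V ↔
    Bth (fun x => V 1 0 ![x]) (v 0) (fun x y => V 2 0 ![x, y]) (fun x y => V 2 1 ![x, y])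
      (v 1) (fun x y => V 2 2 ![x, y]) (fun x y z => V 3 1 ![x, y, z]) := by
  simp [bthF, Bth, rz_and, rz_all, rz_ex, rz_imp, rz_iff, rz_eq, rz_r1, rz_r2, rz_r3,
    rz_allR1, upd_same, upd_nek]

theorem rz_num : numF.Realize v V ↔
    (V 2 0 ![v 0, v 2] ∧ V 2 0 ![v 2, v 3] ∧ V 2 0 ![v 3, v 4] ∧ V 2 0 ![v 4, v 5] ∧
      V 2 0 ![v 5, v 6]) := by
  simp [numF, rz_and, rz_r2]

theorem rz_look : lookF.Realize v V ↔
    LookA (fun x => V 1 0 ![x]) (fun x y z => V 3 2 ![x, y, z]) := by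
  simp [lookF, LookA, rz_and, rz_neg, rz_all, rz_ex, rz_imp, rz_iff, rz_eq, rz_r1, rz_r3]

theorem rz_sim {x s s' : ℕ} (hx : x < 50) (hs : s < 50) (hs' : s' < 50) :
    (simF x s s').Realize v V ↔
    Sim (fun x => V 1 0 ![x]) (fun x y z => V 3 2 ![x, y, z]) (v x) (v s) (v s') := by
  have h1 : x ≠ 50 := by omega
  have h2 : x ≠ 51 := by omega
  have h3 : s ≠ 50 := by omega
  have h4 : s ≠ 51 := by omega
  have h5 : s' ≠ 50 := by omega
  have h6 : s' ≠ 51 := by omega
  simp [simF, Sim, rz_neg, rz_all, rz_imp, rz_iff, rz_eq, rz_r1, rz_r3,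
    Function.update_apply, h1, h2, h3, h4, h5, h6]

theorem rz_vl {x c s y : ℕ} (hx : x < 40) (hc : c < 40) (hs : s < 40) (hy : y < 40) :
    (vlF x c s y).Realize v V ↔
    Vl (fun x => V 1 0 ![x]) (fun x y z => V 3 2 ![x, y, z]) (fun x y => V 2 4 ![x, y])
      (v x) (v c) (v s) (v y) := by
  have h1 : x ≠ 40 := by omega
  have h2 : c ≠ 40 := by omega
  have h3 : s ≠ 40 := by omega
  have h4 : y ≠ 40 := by omega
  simp [vlF, Vl, rz_and, rz_ex, rz_r2, rz_r3, rz_sim _ _ (show x < 50 by omega)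
    (show s < 50 by omega) (show 40 < 50 by omega), h1, h2, h3, h4]

theorem rz_bij : bijF.Realize v V ↔
    Bij (Vl (fun x => V 1 0 ![x]) (fun x y z => V 3 2 ![x, y, z]) (fun x y => V 2 4 ![x, y])
      (v 17) (v 18) (v 16))
      (Vl (fun x => V 1 0 ![x]) (fun x y z => V 3 2 ![x, y, z]) (fun x y => V 2 4 ![x, y])
      (v 19) (v 20) (v 16)) (fun x y => V 2 5 ![x, y]) := by
  simp [bijF, Bij, rz_and, rz_all, rz_ex, rz_imp, rz_eq, rz_r2, rz_vl]

theorem rz_cls : clsF.Realize v V ↔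
    Cls (fun x => V 1 0 ![x]) (fun x y => V 2 1 ![x, y]) (fun x y z => V 3 0 ![x, y, z])
      (v 0) (v 2) (v 3) (v 4) (v 5) (v 6) (fun x y z => V 3 2 ![x, y, z])
      (fun x y => V 2 3 ![x, y]) (fun x y => V 2 4 ![x, y]) := by
  simp [clsF, Cls, rz_and, rz_neg, rz_all, rz_ex, rz_imp, rz_iff, rz_eq, rz_r2, rz_r3, rz_exR2,
    rz_bij, rz_sim, upd_same, upd_neX, upd_nek]

theorem rz_theta : thetaF.Realize v V ↔ Theta M := by
  simp [thetaF, Theta, rz_and, rz_neg, rz_all, rz_ex, rz_exR1, rz_exR2, rz_exR3, rz_r2,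
    rz_pea, rz_wlk, rz_lt, rz_bth, rz_num, rz_look, rz_cls,
    upd_same, upd_neX, upd_nek]

end

end Pool.Agent.Helper669.Hartig
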