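import Mathlib
import Pool.Agent.Helper669.HTrans

/-!
# Models of `L(I)`-sentences and coded structures
-/

namespace Pool.Agent.Helper669.Hartig

open Cardinal

universe u

variable {M : Type u}

/-- equivalence of coded formulas -/
def C.iff (c d : C) : C := .and (.neg (.and c (.neg d))) (.neg (.and d (.neg c)))

theorem sat_iff {At : ℕ → ℕ → (ℕ → M) → Prop} (c d : C) (v : ℕ → M) :
    Sat At (C.iff c d) v ↔ (Sat At c v ↔ Sat At d v) := by
  simp only [C.iff, Sat]
  tauto

variable {L : FirstOrder.Language.{0, 0}} (idx : L.Symbols → ℕ)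

/-- the atom of a function symbol is the graph of a function -/
def Fax (f : Σ l, L.Functions l) : C :=
  C.ex (f.1 + 1) (C.all f.1 (C.iff (C.atom (idx (Sum.inl f)) (f.1 + 1)) (C.eq f.1 (f.1 + 1))))

variable {idx} in
theorem sat_Fax {At : ℕ → ℕ → (ℕ → M) → Prop} (f : Σ l, L.Functions l) (v : ℕ → M) :
    Sat At (Fax idx f) v ↔ ∃ b, ∀ a, (At (idx (Sum.inl f)) (f.1 + 1)
      (Function.update (Function.update v (f.1 + 1) b) f.1 a) ↔ a = b) := by
  rw [Fax, sat_ex]
  refine exists_congr fun b => forall_congr' fun a => ?_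
  rw [sat_iff]
  simp only [Sat, Function.update_self]
  rw [Function.update_of_ne (by omega), Function.update_self]

/-- the coded formula of an `L(I)`-sentence -/
def full (K : ℕ) (φ : LI L) (fs : List (Σ l, L.Functions l)) : C :=
  (fs.map (Fax idx)).foldr C.and (tr idx K φ)

variable {idx} in
theorem sat_full {At : ℕ → ℕ → (ℕ → M) → Prop} (K : ℕ) (φ : LI L)
    (fs : List (Σ l, L.Functions l)) (v : ℕ → M) :
    Sat At (full idx K φ fs) v ↔ (∀ f ∈ fs, Sat At (Fax idx f) v) ∧ Sat At (tr idx K φ) v := by
  induction fs with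
  | nil => simp [full]
  | cons f fs ih =>
    rw [full] at ih ⊢
    simp only [List.map_cons, List.foldr_cons, Sat, ih, List.mem_cons, forall_eq_or_imp]
    tauto

theorem atOf_congr {look : ℕ → M → M} {Int : ℕ → M → Prop} {i l : ℕ} {v v' : ℕ → M}
    (h : ∀ j < l, v j = v' j) : AtOf look Int i l v ↔ AtOf look Int i l v' := by
  refine exists_congr fun s => and_congr_left fun _ => ?_
  refine forall_congr' fun j => forall_congr' fun hj => ?_
  rw [h j hj]

variable {idx} in
theorem structure_of_sat [Nonempty M] {look : ℕ → M → M} {Int : ℕ → M → Prop}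
    (hc : Closed look) {fs : List (Σ l, L.Functions l)} (hfs : ∀ f, f ∈ fs) {K : ℕ} {φ : LI L}
    (hφ : lb K φ) (h : ∀ s, Sat (AtOf look Int) (full idx K φ fs) (fun j => look j s)) :
    ∃ _ : L.Structure M, ∀ v : ℕ → M, φ.Realize v := by
  classical
  have hF : ∀ (l : ℕ) (f : L.Functions l) (xs : Fin l → M), ∃ b, ∀ v : ℕ → M,
      (∀ i : Fin l, v i = xs i) → (AtOf look Int (idx (Sum.inl ⟨l, f⟩)) (l + 1) v ↔ v l = b) := by
    intro l f xs
    obtain ⟨s, hs⟩ := exists_match hc
      (fun j => if h : j < l then xs ⟨j, h⟩ else Classical.arbitrary M) l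
    have h1 := ((sat_full K φ fs _).1 (h s)).1 ⟨l, f⟩ (hfs _)
    rw [sat_Fax] at h1
    obtain ⟨b, hb⟩ := h1
    dsimp only at hb
    refine ⟨b, fun v hv => ?_⟩
    rw [← hb (v l)]
    refine atOf_congr fun j hj => ?_
    rcases Nat.lt_succ_iff_lt_or_eq.1 hj with h2 | rfl
    · rw [Function.update_of_ne h2.ne, Function.update_of_ne (by omega), hs j h2, dif_pos h2]
      exact hv ⟨j, h2⟩
    · simp
  choose fm hfm using hF
  let S : L.Structure M :=
    { funMap := fun {l} f xs => fm l f xs
      RelMap := fun {l} R xs => AtOf look Int (idx (Sum.inr ⟨l, R⟩)) l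
        (fun j => if h : j < l then xs ⟨j, h⟩ else Classical.arbitrary M) }
  have hR : Rep idx (AtOf look Int) := by
    constructor
    · intro l f v
      rw [hfm l f (fun i => v i) v fun _ => rfl]
      exact eq_comm
    · intro l R v
      refine atOf_congr fun j hj => ?_
      rw [dif_pos hj]
  refine ⟨S, fun v => ?_⟩
  obtain ⟨s, hs⟩ := exists_match hc v K
  have h2 := ((sat_full K φ fs _).1 (h s)).2
  rw [sat_tr hR φ hφ] at h2
  exact (realize_congr hφ hs).1 h2

theorem exists_look [Infinite M] : ∃ look : ℕ → M → M, Closed look := by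
  classical
  let _ : Zero M := ⟨Classical.arbitrary M⟩
  have h1 : #(ℕ →₀ M) = #M := by
    rw [mk_finsupp_lift_of_infinite]
    simp
  obtain ⟨e⟩ := Cardinal.eq.1 h1
  refine ⟨fun j s => e.symm s j, fun s k b => ⟨e (Finsupp.update (e.symm s) k b), ?_, ?_⟩⟩
  · simp
  · intro j hj
    simp [Function.update_of_ne hj]

variable {idx} in
theorem good_of_structure [Infinite M] [L.Structure M] (hidx : Function.Injective idx) {K : ℕ}
    {φ : LI L} (hφ : lb K φ) (h : ∀ v : ℕ → M, φ.Realize v) (fs : List (Σ l, L.Functions l)) :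
    Good M (full idx K φ fs) := by
  classical
  obtain ⟨look, hc⟩ := exists_look (M := M)
  let Int : ℕ → M → Prop := fun i s =>
    (∃ (l : ℕ) (f : L.Functions l), i = idx (Sum.inl ⟨l, f⟩) ∧
      FirstOrder.Language.Structure.funMap f (fun j : Fin l => look j s) = look l s) ∨
    (∃ (l : ℕ) (R : L.Relations l), i = idx (Sum.inr ⟨l, R⟩) ∧
      FirstOrder.Language.Structure.RelMap R (fun j : Fin l => look j s))
  have hR : Rep idx (AtOf look Int) := by
    constructor
    · intro l f v
      constructor
      · rintro ⟨s, hs, ⟨l', f', h1, h2⟩ | ⟨l', R', h1, h2⟩⟩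
        · have h3 := hidx h1
          simp only [Sum.inl.injEq, Sigma.mk.injEq] at h3
          obtain ⟨rfl, h4⟩ := h3
          obtain rfl := eq_of_heq h4
          rw [hs l (Nat.lt_succ_self l)] at h2
          rw [← h2]
          congr 1
          funext j
          exact (hs j (by omega)).symm
        · have h3 := hidx h1
          simp at h3
      · intro h1
        obtain ⟨s, hs⟩ := exists_match hc v (l + 1)
        refine ⟨s, hs, Or.inl ⟨l, f, rfl, ?_⟩⟩
        rw [hs l (Nat.lt_succ_self l), ← h1]
        congr 1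
        funext j
        exact hs j (by omega)
    · intro l R v
      constructor
      · rintro ⟨s, hs, ⟨l', f', h1, h2⟩ | ⟨l', R', h1, h2⟩⟩
        · have h3 := hidx h1
          simp at h3
        · have h3 := hidx h1
          simp only [Sum.inr.injEq, Sigma.mk.injEq] at h3
          obtain ⟨rfl, h4⟩ := h3
          obtain rfl := eq_of_heq h4
          have h5 : (fun i : Fin l => v i) = fun j : Fin l => look j s := by
            funext j
            exact (hs j j.2).symm
          rw [h5]
          exact h2
      · intro h1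
        obtain ⟨s, hs⟩ := exists_match hc v l
        refine ⟨s, hs, Or.inr ⟨l, R, rfl, ?_⟩⟩
        have h5 : (fun j : Fin l => look j s) = fun i : Fin l => v i := by
          funext j
          exact hs j j.2
        rw [h5]
        exact h1
  refine ⟨look, Int, hc, fun s => ?_⟩
  rw [sat_full]
  refine ⟨fun f _ => ?_, ?_⟩
  · obtain ⟨l, f⟩ := f
    rw [sat_Fax]
    refine ⟨FirstOrder.Language.Structure.funMap f (fun j : Fin l => look j s), fun a => ?_⟩
    rw [hR.fn]
    simp only [Function.update_self]
    have h5 : (fun i : Fin l => Function.update (Function.update (fun j => look j s) (l + 1)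
        (FirstOrder.Language.Structure.funMap f fun j : Fin l => look j s)) l a (i : ℕ)) =
        fun j : Fin l => look j s := by
      funext j
      have := j.2
      rw [Function.update_of_ne (by omega), Function.update_of_ne (by omega)]
    rw [h5]
    exact eq_comm
  · rw [sat_tr hR φ hφ]
    exact h _

end Pool.Agent.Helper669.Hartig
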