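import Mathlib
import Pool.Agent.Helper669.Forcing

/-!
# Weakly compact, measurable and indestructible cardinals, and the strong polarized relation,
in the language of forcing
-/

namespace Pool.Agent.Helper669.K

open Cardinal Pool.Agent.Helper669.Forcing

section

variable {P : Type} [Preorder P]

/-- `φ or ψ` is `not (not φ and not ψ)`. -/
def for' (φ ψ : Set P) : Set P := fnot (fand (fnot φ) (fnot ψ))

/-- The named subset `A` of `X` has the same cardinality as `X`: for no cardinal `ν < |X|` there
is a function from `ν` to `X` whose range covers `A`. -/
def HasFullSize {X : Type} (A : X → Set P) : Set P :=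
  fall fun ν : Cardinal.{0} => fall fun _ : ν < #X =>
    fnot (fex fun R : ν.out → X → Set P =>
      fand (IsFun R) (fall fun y => fimp (meets (A y)) (fex fun x => meets (R x y))))

/-- The strong polarized relation (for all `c : X × Y → 2` there are `A ⊆ X` and `B ⊆ Y`
with `|A| = |X|`, `|B| = |Y|` and `c` constant on `A × B`) in the generic extension.
The colouring is given by the set `{(x, y) : c (x, y) = 1}`. -/
def Polarized (P : Type) [Preorder P] (X Y : Type) : Set P :=
  fall fun c : X → Y → Set P =>
    fex fun A : X → Set P => fex fun B : Y → Set P =>
      fand (HasFullSize A) (fand (HasFullSize B)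
        (for'
          (fall fun x => fall fun y => fimp (fand (meets (A x)) (meets (B y))) (meets (c x y)))
          (fall fun x => fall fun y =>
            fimp (fand (meets (A x)) (meets (B y))) (fnot (meets (c x y))))))

/-- Every colouring of the pairs `x < y` of elements of `X` with two colours has a homogeneous
set of size `|X|`. The colouring is given by the set of the pairs of colour `1`. -/
def PairsPartition (P : Type) [Preorder P] (X : Type) [LT X] : Set P :=
  fall fun c : X → X → Set P => fex fun H : X → Set P =>
    fand (HasFullSize H)
      (for'
        (fall fun x => fall fun y => fall fun _ : x < y =>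
          fimp (fand (meets (H x)) (meets (H y))) (meets (c x y)))
        (fall fun x => fall fun y => fall fun _ : x < y =>
          fimp (fand (meets (H x)) (meets (H y))) (fnot (meets (c x y)))))

/-- `κ` is regular in the extension: every function from a smaller cardinal to `κ` is bounded. -/
def StaysRegular (P : Type) [Preorder P] (κ : Cardinal.{0}) : Set P :=
  fall fun ν : Cardinal.{0} => fall fun _ : ν < κ => fall fun R : ν.out → κ.ord.ToType → Set P =>
    fimp (IsFun R) (fex fun b : κ.ord.ToType => fall fun x => fall fun y =>
      fimp (meets (R x y)) (fground (y < b)))

/-- The complement of the named subset `X` of `K`. -/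
def nCompl {K : Type} (X : K → Set P) : K → Set P := fun a => fnot (meets (X a))

/-- The intersection of a named family of subsets of `K`. -/
def nInter {N K : Type} (X : N → K → Set P) : K → Set P := fun a => fall fun i => meets (X i a)

/-- `U` names a `κ`-complete ultrafilter on `K` containing no singleton: it is closed under
supersets, contains exactly one of each subset and its complement, and is closed under
intersections of fewer than `κ` sets. -/
def IsMeasure (κ : Cardinal.{0}) {K : Type} (U : (K → Set P) → Set P) : Set P :=
  fand
    (fall fun X => fall fun Y =>
      fimp (fand (meets (U X)) (fall fun a => fimp (meets (X a)) (meets (Y a)))) (meets (U Y)))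
    (fand
      (fall fun X => fand (fimp (meets (U X)) (fnot (meets (U (nCompl X)))))
        (fimp (fnot (meets (U X))) (meets (U (nCompl X)))))
      (fand
        (fall fun ν : Cardinal.{0} => fall fun _ : ν < κ => fall fun X : ν.out → K → Set P =>
          fimp (fall fun i => meets (U (X i))) (meets (U (nInter X))))
        (fall fun a : K => fnot (meets (U fun b => fground (b = a))))))

end

/-- Every nonempty directed set of fewer than `κ` conditions has a lower bound. -/
def DirClosed (κ : Cardinal.{0}) (Q : Type) [Preorder Q] : Prop :=
  ∀ D : Set Q, #D < κ → D.Nonempty → (∀ a ∈ D, ∀ b ∈ D, ∃ c ∈ D, c ≤ a ∧ c ≤ b) →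
    ∃ q, ∀ a ∈ D, q ≤ a

/-- `κ` is an uncountable cardinal which is measurable in every generic extension by a
`κ`-directed closed forcing notion (the measurability of `κ` is indestructible). -/
def IndestructiblyMeasurable (κ : Cardinal.{0}) : Prop :=
  ℵ₀ < κ ∧ ∀ (Q : Type) [Preorder Q], DirClosed κ Q →
    ∀ q : Q, q ∈ fex fun U : (κ.ord.ToType → Set Q) → Set Q => IsMeasure κ U

end Pool.Agent.Helper669.K
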