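import Mathlib
import Pool.Agent.Helper669.KDefs
set_option autoImplicit false

/-!
# Measurable cardinals in the extension
-/

namespace Pool.Agent.Helper669.K

open Cardinal Pool.Agent.Helper669.Forcing

theorem J1_small {κ : Cardinal.{0}} {K : Type} (V : Set (Set K))
    (hup : ∀ A B, A ∈ V → A ⊆ B → B ∈ V) (hcompl : ∀ A, A ∈ V ↔ Aᶜ ∉ V)
    (hint : ∀ ν < κ, ∀ X : ν.out → Set K, (∀ i, X i ∈ V) → (⋂ i, X i) ∈ V)
    (hsing : ∀ a : K, ({a} : Set K) ∉ V) (A : Set K) (hA : #A < κ) : A ∉ V := by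
  have h1 := hint #A hA (fun i => {((Cardinal.outMkEquiv i : A) : K)}ᶜ) (by
    intro i
    rw [hcompl, compl_compl]
    exact hsing _)
  have h2 : Aᶜ ∈ V := by
    refine hup _ _ h1 ?_
    intro x hx hxA
    have h3 := Set.mem_iInter.1 hx (Cardinal.outMkEquiv.symm ⟨x, hxA⟩)
    apply h3
    simp
  intro h4
  exact (hcompl A).1 h4 h2

theorem J1_union {κ : Cardinal.{0}} {K : Type} (V : Set (Set K))
    (hcompl : ∀ A, A ∈ V ↔ Aᶜ ∉ V)
    (hint : ∀ ν < κ, ∀ X : ν.out → Set K, (∀ i, X i ∈ V) → (⋂ i, X i) ∈ V)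
    (ν : Cardinal.{0}) (hν : ν < κ) (X : ν.out → Set K) (hX : ∀ i, X i ∉ V) : (⋃ i, X i) ∉ V := by
  have h1 := hint ν hν (fun i => (X i)ᶜ) (by
    intro i
    rw [hcompl, compl_compl]
    exact hX i)
  rw [← Set.compl_iUnion] at h1
  intro h2
  exact (hcompl _).1 h2 h1

theorem J1_core {κ : Cardinal.{0}} (hκ : ℵ₀ < κ) (V : Set (Set κ.ord.ToType))
    (hup : ∀ A B, A ∈ V → A ⊆ B → B ∈ V) (hcompl : ∀ A, A ∈ V ↔ Aᶜ ∉ V)
    (hint : ∀ ν < κ, ∀ X : ν.out → Set κ.ord.ToType, (∀ i, X i ∈ V) → (⋂ i, X i) ∈ V)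
    (hsing : ∀ a : κ.ord.ToType, ({a} : Set κ.ord.ToType) ∉ V) :
    κ.IsRegular ∧ ∀ μ < κ, 2 ^ μ < κ := by
  have hsmall := J1_small V hup hcompl hint hsing
  have hK : #κ.ord.ToType = κ := Cardinal.mk_ord_toType κ
  have hempty : (∅ : Set κ.ord.ToType) ∉ V := by
    apply hsmall
    rw [Cardinal.mk_eq_zero]
    exact lt_trans Cardinal.aleph0_pos hκ
  have huniv : (Set.univ : Set κ.ord.ToType) ∈ V := by
    rw [hcompl, Set.compl_univ]
    exact hempty
  have hIio : ∀ b : κ.ord.ToType, #(Set.Iio b) < κ := by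
    intro b
    have := Cardinal.mk_Iio_lt b (by simp)
    rwa [hK] at this
  constructor
  · refine ⟨hκ.le, ?_⟩
    rw [← Ordinal.cof_toType, Order.le_cof_iff]
    intro s hs
    by_contra hlt
    push Not at hlt
    have h1 := J1_union V hcompl hint #s hlt
      (fun i => Set.Iic ((Cardinal.outMkEquiv i : s) : κ.ord.ToType)) (by
        intro i
        apply hsmall
        rw [← Set.Iio_insert]
        refine lt_of_le_of_lt Cardinal.mk_insert_le ?_
        exact Cardinal.add_lt_of_lt hκ.le (hIio _) (lt_trans Cardinal.one_lt_aleph0 hκ))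
    apply h1
    have h2 : (⋃ i, (fun i => Set.Iic ((Cardinal.outMkEquiv i : s) : κ.ord.ToType)) i) =
        Set.univ := by
      rw [Set.eq_univ_iff_forall]
      intro x
      obtain ⟨b, hb, hxb⟩ := hs x
      refine Set.mem_iUnion.2 ⟨Cardinal.outMkEquiv.symm ⟨b, hb⟩, ?_⟩
      change x ≤ _
      simpa using hxb
    rw [h2]
    exact huniv
  · intro μ hμ
    by_contra hle
    push Not at hle
    have h1 : #κ.ord.ToType ≤ #(μ.out → Bool) := by
      rw [hK]
      have h2 : #(μ.out → Bool) = 2 ^ μ := by simp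
      rw [h2]
      exact hle
    obtain ⟨f⟩ := h1
    classical
    obtain ⟨b, hb⟩ : ∃ b : μ.out → Bool, ∀ i, {x | f x i = b i} ∈ V := by
      have h3 : ∀ i : μ.out, ∃ c : Bool, {x | f x i = c} ∈ V := by
        intro i
        by_cases h4 : {x | f x i = true} ∈ V
        · exact ⟨true, h4⟩
        · refine ⟨false, ?_⟩
          rw [hcompl]
          have h5 : {x | f x i = false}ᶜ = {x | f x i = true} := by
            ext x
            simp
          rw [h5]
          exact h4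
      choose b hb using h3
      exact ⟨b, hb⟩
    have h6 := hint μ hμ (fun i => {x | f x i = b i}) hb
    refine hsmall _ ?_ h6
    have h7 : (⋂ i, {x | f x i = b i} : Set κ.ord.ToType).Subsingleton := by
      intro x hx y hy
      apply f.injective
      funext i
      have hx' : f x i = b i := Set.mem_iInter.1 hx i
      have hy' : f y i = b i := Set.mem_iInter.1 hy i
      rw [hx', hy']
    refine lt_of_le_of_lt (b := 1) ?_ (lt_trans Cardinal.one_lt_aleph0 hκ)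
    rw [Cardinal.le_one_iff_subsingleton]
    exact h7.coe_sort

theorem J1_unit_eq (X : Set Unit) : X = {_p | () ∈ X} := by
  ext x
  rfl

theorem regular_of_measurable {κ : Cardinal.{0}} (h : IndestructiblyMeasurable κ) :
    κ.IsRegular ∧ ∀ μ < κ, 2 ^ μ < κ := by
  obtain ⟨hκ, hQ⟩ := h
  have h1 := hQ Unit (fun _ _ _ _ => ⟨(), fun _ _ => le_rfl⟩) ()
  rw [mem_fex] at h1
  obtain ⟨r, -, U, hU⟩ := h1 () le_rfl
  have hr : r = () := rfl
  subst hr
  -- connectives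
  have mnot : ∀ φ : Set Unit, () ∈ fnot φ ↔ () ∉ φ := fun φ =>
    ⟨fun h => h () le_rfl, fun h q _ => h⟩
  have mimp : ∀ φ ψ : Set Unit, () ∈ fimp φ ψ ↔ (() ∈ φ → () ∈ ψ) := by
    intro φ ψ
    rw [mem_fimp]
    constructor
    · intro h h'
      obtain ⟨r, _, hr⟩ := h () le_rfl h'
      exact hr
    · intro h q _ h'
      exact ⟨(), le_rfl, h h'⟩
  have mmeets : ∀ N : Set Unit, () ∈ meets N ↔ () ∈ N := by
    intro N
    constructor
    · intro h
      obtain ⟨r, _, s, hs, _⟩ := h () le_rfl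
      exact hs
    · intro h
      exact meets_of_mem h
  -- names
  obtain ⟨V, hV⟩ : ∃ V : Set (Set κ.ord.ToType), ∀ A, A ∈ V ↔
      () ∈ U (fun a => {_p | a ∈ A}) := ⟨{A | () ∈ U (fun a => {_p | a ∈ A})}, fun A => Iff.rfl⟩
  obtain ⟨hU1, hU2, hU3, hU4⟩ := hU
  refine J1_core hκ V ?_ ?_ ?_ ?_
  · intro A B hA hAB
    have h2 := hU1 (fun a => {_p | a ∈ A}) (fun a => {_p | a ∈ B})
    rw [mimp, mmeets, mem_fand, mmeets, mem_fall] at h2
    rw [hV] at hA ⊢
    refine h2 ⟨hA, ?_⟩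
    intro a
    rw [mimp, mmeets, mmeets]
    exact fun h => hAB h
  · intro A
    obtain ⟨h2, h3⟩ := hU2 (fun a => {_p | a ∈ A})
    have h4 : nCompl (fun a => {_p : Unit | a ∈ A}) = fun a => {_p : Unit | a ∈ Aᶜ} := by
      funext a
      ext ⟨⟩
      unfold nCompl
      rw [mnot, mmeets]
      rfl
    rw [h4] at h2 h3
    rw [mimp, mmeets, mnot, mmeets] at h2 h3
    rw [hV, hV]
    constructor
    · exact h2
    · intro h5
      by_contra h6
      exact h5 (h3 h6)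
  · intro ν hν X hX
    have h2 := hU3 ν hν (fun i a => {_p | a ∈ X i})
    rw [mimp, mmeets, mem_fall] at h2
    have h4 : nInter (fun (i : ν.out) (a : κ.ord.ToType) => {_p : Unit | a ∈ X i}) =
        fun a => {_p : Unit | a ∈ ⋂ i, X i} := by
      funext a
      ext ⟨⟩
      unfold nInter
      rw [mem_fall]
      simp_rw [mmeets]
      rw [Set.mem_ofPred_eq, Set.mem_iInter]
      rfl
    rw [h4] at h2
    rw [hV]
    apply h2
    intro i
    rw [mmeets, ← hV]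
    exact hX i
  · intro a
    have h2 := hU4 a
    rw [mnot, mmeets] at h2
    rw [hV]
    exact h2


/-- the two statements are forced by the same conditions below `a` -/
def en_Loc {Q : Type} [Preorder Q] (a : Q) (φ ψ : Set Q) : Prop := ∀ r ≤ a, (r ∈ φ ↔ r ∈ ψ)

theorem en_Loc_refl {Q : Type} [Preorder Q] (a : Q) (φ : Set Q) : en_Loc a φ φ :=
  fun _ _ => Iff.rfl

theorem en_Loc_fnot {Q : Type} [Preorder Q] {a : Q} {φ ψ : Set Q} (h : en_Loc a φ ψ) :
    en_Loc a (fnot φ) (fnot ψ) := by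
  intro r hr
  constructor
  · intro h1 q hq h2
    exact h1 q hq ((h q (hq.trans hr)).2 h2)
  · intro h1 q hq h2
    exact h1 q hq ((h q (hq.trans hr)).1 h2)

theorem en_Loc_fand {Q : Type} [Preorder Q] {a : Q} {φ ψ φ' ψ' : Set Q} (h : en_Loc a φ φ')
    (h' : en_Loc a ψ ψ') : en_Loc a (fand φ ψ) (fand φ' ψ') :=
  fun r hr => and_congr (h r hr) (h' r hr)

theorem en_Loc_fall {Q : Type} [Preorder Q] {a : Q} {ι : Sort*} {φ ψ : ι → Set Q}
    (h : ∀ i, en_Loc a (φ i) (ψ i)) : en_Loc a (fall φ) (fall ψ) :=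
  fun r hr => forall_congr' fun i => h i r hr

theorem en_Loc_fimp {Q : Type} [Preorder Q] {a : Q} {φ ψ φ' ψ' : Set Q} (h : en_Loc a φ φ')
    (h' : en_Loc a ψ ψ') : en_Loc a (fimp φ ψ) (fimp φ' ψ') :=
  en_Loc_fnot (en_Loc_fand h (en_Loc_fnot h'))

/-- `φ` is forced as soon as it is forced densely below -/
def en_Reg {Q : Type} [Preorder Q] (φ : Set Q) : Prop :=
  ∀ p : Q, (∀ q ≤ p, ∃ r ≤ q, r ∈ φ) → p ∈ φ

theorem en_Reg_fnot {Q : Type} [Preorder Q] {φ : Set Q} (h : Down φ) : en_Reg (fnot φ) := by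
  intro p hp q hq hqφ
  obtain ⟨r, hr, hr'⟩ := hp q hq
  exact hr' r le_rfl (h q hqφ r hr)

theorem en_Reg_fimp {Q : Type} [Preorder Q] {φ ψ : Set Q} (h : Down φ) : en_Reg (fimp φ ψ) :=
  en_Reg_fnot (down_fand h (down_fnot _))

theorem en_Reg_fand {Q : Type} [Preorder Q] {φ ψ : Set Q} (h : en_Reg φ) (h' : en_Reg ψ) :
    en_Reg (fand φ ψ) := by
  intro p hp
  refine ⟨h p fun q hq => ?_, h' p fun q hq => ?_⟩
  · obtain ⟨r, hr, hr'⟩ := hp q hq
    exact ⟨r, hr, hr'.1⟩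
  · obtain ⟨r, hr, hr'⟩ := hp q hq
    exact ⟨r, hr, hr'.2⟩

theorem en_Reg_fall {Q : Type} [Preorder Q] {ι : Sort*} {φ : ι → Set Q}
    (h : ∀ i, en_Reg (φ i)) : en_Reg (fall φ) := by
  intro p hp i
  refine h i p fun q hq => ?_
  obtain ⟨r, hr, hr'⟩ := hp q hq
  exact ⟨r, hr, hr' i⟩

theorem en_down_IsMeasure {Q : Type} [Preorder Q] {κ : Cardinal.{0}} {K : Type}
    (U : (K → Set Q) → Set Q) : Down (IsMeasure κ U) := by
  unfold IsMeasure
  refine down_fand (down_fall fun X => down_fall fun Y => down_fimp _ _) ?_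
  refine down_fand (down_fall fun X => down_fand (down_fimp _ _) (down_fimp _ _)) ?_
  refine down_fand (down_fall fun ν => down_fall fun _ => down_fall fun X => down_fimp _ _) ?_
  exact down_fall fun a => down_fnot _

theorem en_Reg_IsMeasure {Q : Type} [Preorder Q] {κ : Cardinal.{0}} {K : Type}
    (U : (K → Set Q) → Set Q) : en_Reg (IsMeasure κ U) := by
  unfold IsMeasure
  refine en_Reg_fand (en_Reg_fall fun X => en_Reg_fall fun Y => en_Reg_fimp
    (down_fand (down_meets _) (down_fall fun a => down_fimp _ _))) ?_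
  refine en_Reg_fand (en_Reg_fall fun X => en_Reg_fand (en_Reg_fimp (down_meets _))
    (en_Reg_fimp (down_fnot _))) ?_
  refine en_Reg_fand (en_Reg_fall fun ν => en_Reg_fall fun _ => en_Reg_fall fun X =>
    en_Reg_fimp (down_fall fun i => down_meets _)) ?_
  exact en_Reg_fall fun a => en_Reg_fnot (down_meets _)

theorem en_Loc_IsMeasure {Q : Type} [Preorder Q] {κ : Cardinal.{0}} {K : Type} {a : Q}
    (U V : (K → Set Q) → Set Q) (h : ∀ X, en_Loc a (meets (U X)) (meets (V X))) :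
    en_Loc a (IsMeasure κ U) (IsMeasure κ V) := by
  unfold IsMeasure
  refine en_Loc_fand (en_Loc_fall fun X => en_Loc_fall fun Y => en_Loc_fimp
    (en_Loc_fand (h X) (en_Loc_refl a _)) (h Y)) ?_
  refine en_Loc_fand (en_Loc_fall fun X => en_Loc_fand
    (en_Loc_fimp (h X) (en_Loc_fnot (h _)))
    (en_Loc_fimp (en_Loc_fnot (h X)) (h _))) ?_
  refine en_Loc_fand (en_Loc_fall fun ν => en_Loc_fall fun _ => en_Loc_fall fun X =>
    en_Loc_fimp (en_Loc_fall fun i => h (X i)) (h _)) ?_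
  exact en_Loc_fall fun b => en_Loc_fnot (h _)

/-- maximal antichain inside a dense set -/
theorem en_antichain {Q : Type} [Preorder Q] (D : Set Q) (hD : ∀ q : Q, ∃ r ≤ q, r ∈ D) :
    ∃ A : Set Q, A ⊆ D ∧ (∀ a ∈ A, ∀ b ∈ A, ∀ c, c ≤ a → c ≤ b → a = b) ∧
      ∀ q : Q, ∃ a ∈ A, ∃ r, r ≤ q ∧ r ≤ a := by
  obtain ⟨A, hA⟩ := zorn_subset
    {A : Set Q | A ⊆ D ∧ ∀ a ∈ A, ∀ b ∈ A, ∀ c, c ≤ a → c ≤ b → a = b} (by
      intro C hC hchain
      refine ⟨⋃₀ C, ⟨?_, ?_⟩, fun s hs => Set.subset_sUnion_of_mem hs⟩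
      · intro x hx
        obtain ⟨s, hs, hxs⟩ := hx
        exact (hC hs).1 hxs
      · intro a ha b hb c hca hcb
        obtain ⟨s, hs, has⟩ := ha
        obtain ⟨t, ht, hbt⟩ := hb
        rcases hchain.total hs ht with hst | hst
        · exact (hC ht).2 a (hst has) b hbt c hca hcb
        · exact (hC hs).2 a has b (hst hbt) c hca hcb)
  obtain ⟨⟨hAD, hanti⟩, hmax⟩ := hA
  refine ⟨A, hAD, hanti, ?_⟩
  intro q
  obtain ⟨d, hdq, hdD⟩ := hD q
  by_contra hcon
  push Not at hcon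
  have hins : insert d A ∈
      {A : Set Q | A ⊆ D ∧ ∀ a ∈ A, ∀ b ∈ A, ∀ c, c ≤ a → c ≤ b → a = b} := by
    refine ⟨Set.insert_subset hdD hAD, ?_⟩
    intro a ha b hb c hca hcb
    rcases Set.mem_insert_iff.1 ha with ha' | ha'
    · rcases Set.mem_insert_iff.1 hb with hb' | hb'
      · rw [ha', hb']
      · rw [ha'] at hca
        exact absurd hcb (hcon b hb' c (hca.trans hdq))
    · rcases Set.mem_insert_iff.1 hb with hb' | hb'
      · rw [hb'] at hcb
        exact absurd hca (hcon a ha' c (hcb.trans hdq))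
      · exact hanti a ha' b hb' c hca hcb
  have hdA : d ∈ A := hmax hins (Set.subset_insert d A) (Set.mem_insert d A)
  exact hcon d hdA d hdq le_rfl

theorem exists_name {Q : Type} [Preorder Q] {κ : Cardinal.{0}} {K : Type}
    (h : ∀ q : Q, q ∈ fex fun U : (K → Set Q) → Set Q => IsMeasure κ U) :
    ∃ U : (K → Set Q) → Set Q, ∀ q : Q, q ∈ IsMeasure κ U := by
  classical
  obtain ⟨A, hAD, hanti, hpred⟩ := en_antichain {q : Q | ∃ U : (K → Set Q) → Set Q,
    q ∈ IsMeasure κ U} (fun q => by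
      obtain ⟨r, hr, i, hi⟩ := mem_fex.1 (h q) q le_rfl
      exact ⟨r, hr, i, hi⟩)
  have hch : ∀ a : Q, ∃ V : (K → Set Q) → Set Q, a ∈ A → a ∈ IsMeasure κ V := by
    intro a
    by_cases ha : a ∈ A
    · obtain ⟨V, hV⟩ := hAD ha
      exact ⟨V, fun _ => hV⟩
    · exact ⟨fun _ => ∅, fun h => absurd h ha⟩
  choose V hV using hch
  refine ⟨fun X => {q : Q | ∃ a ∈ A, q ≤ a ∧ q ∈ meets (V a X)}, ?_⟩
  intro q
  refine en_Reg_IsMeasure _ q ?_
  intro q' _
  obtain ⟨a, haA, r, hrq, hra⟩ := hpred q'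
  refine ⟨r, hrq, ?_⟩
  have hloc : ∀ X : K → Set Q,
      en_Loc a (meets {q : Q | ∃ a ∈ A, q ≤ a ∧ q ∈ meets (V a X)}) (meets (V a X)) := by
    intro X s hs
    constructor
    · intro h1 t ht
      obtain ⟨t', ht', u, hu, ht'u⟩ := h1 t ht
      obtain ⟨b, hbA, hub, hum⟩ := hu
      have hab : a = b := hanti a haA b hbA t' (ht'.trans (ht.trans hs)) (ht'u.trans hub)
      subst hab
      obtain ⟨t'', ht'', u', hu', h2⟩ := hum t' ht'u
      exact ⟨t'', ht''.trans ht', u', hu', h2⟩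
    · intro h1 t ht
      exact ⟨t, le_rfl, t, ⟨a, haA, ht.trans hs, down_meets _ s h1 t ht⟩, le_rfl⟩
  exact (en_Loc_IsMeasure _ _ hloc r hra).2 (en_down_IsMeasure (V a) a (hV a haA) r hra)


theorem exists_point_one {Q : Type} [Preorder Q] {κ : Cardinal.{0}} {K : Type}
    {U : (K → Set Q) → Set Q} (hU : ∀ q : Q, q ∈ IsMeasure κ U) (X : K → Set Q) (q : Q)
    (hq : q ∈ meets (U X)) : ∃ q1 ≤ q, ∃ β, q1 ∈ meets (X β) := by
  by_contra hcon
  push Not at hcon
  have h1 : q ∈ fand (meets (U X)) (fall fun a => fimp (meets (X a)) (meets (nCompl X a))) := by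
    refine ⟨hq, ?_⟩
    intro a
    rw [mem_fimp]
    intro r hr h
    exact absurd h (hcon r hr a)
  obtain ⟨r, hr, hr2⟩ := mem_fimp.1 ((hU q).1 X (nCompl X)) q le_rfl h1
  have h2 : r ∈ meets (U X) := down_meets _ q hq r hr
  obtain ⟨s, hs, hs2⟩ := mem_fimp.1 (((hU r).2.1 X).1) r le_rfl h2
  exact hs2 s le_rfl (down_meets _ r hr2 s hs)

theorem exists_point_meets {Q : Type} [Preorder Q] {A : Set Q} {q : Q}
    (h : ∀ r ≤ q, ∃ s ≤ r, s ∈ meets A) : q ∈ meets A := by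
  intro r hr
  obtain ⟨s, hs, hs2⟩ := h r hr
  obtain ⟨t, ht, a, ha, hta⟩ := hs2 s le_rfl
  exact ⟨t, ht.trans hs, a, ha, hta⟩

theorem exists_point {Q : Type} [Preorder Q] {κ : Cardinal.{0}} (hκ : ℵ₀ ≤ κ) {K : Type}
    {U : (K → Set Q) → Set Q} (hU : ∀ q : Q, q ∈ IsMeasure κ U) {N : Type} (hN : #N < κ)
    (X : N → K → Set Q) (q : Q) (hq : ∀ i, q ∈ meets (U (X i))) (B : Set K) (hB : #B < κ) :
    ∃ q' ≤ q, ∃ β, β ∉ B ∧ ∀ i, q' ∈ meets (X i β) := by
  have hν : #(N ⊕ B) < κ := by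
    rw [← Cardinal.add_def]
    exact Cardinal.add_lt_of_lt hκ hN hB
  let X1 : N ⊕ B → K → Set Q := Sum.elim X (fun b => nCompl (fun b1 => fground (b1 = b.1)))
  have e : (#(N ⊕ B)).out ≃ N ⊕ B := Cardinal.outMkEquiv
  have h1 : q ∈ fall fun i => meets (U ((fun i => X1 (e i)) i)) := by
    intro i
    change q ∈ meets (U (X1 (e i)))
    rcases e i with j | b
    · exact hq j
    · apply exists_point_meets
      intro r _
      obtain ⟨s, hs, hs2⟩ := mem_fimp.1 (((hU r).2.1 (fun b1 => fground (b1 = b.1))).2) r le_rfl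
        ((hU r).2.2.2 b.1)
      exact ⟨s, hs, hs2⟩
  obtain ⟨r, hr, hr2⟩ := mem_fimp.1 ((hU q).2.2.1 _ hν (fun i => X1 (e i))) q le_rfl h1
  obtain ⟨q1, hq1, β, hβ⟩ := exists_point_one hU _ r hr2
  obtain ⟨q2, hq2, hq3⟩ := exists_of_meets (down_fall fun _ => down_meets _) hβ
  refine ⟨q2, hq2.trans (hq1.trans hr), β, ?_, ?_⟩
  · intro hβB
    have h2 := hq3 (e.symm (Sum.inr ⟨β, hβB⟩))
    beta_reduce at h2
    rw [Equiv.apply_symm_apply] at h2
    obtain ⟨q4, _, hq5⟩ := exists_of_meets (down_fnot _) h2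
    exact hq5 q4 le_rfl (meets_of_mem rfl)
  · intro i
    have h2 := hq3 (e.symm (Sum.inl i))
    beta_reduce at h2
    rw [Equiv.apply_symm_apply] at h2
    exact h2


end Pool.Agent.Helper669.K
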