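import Mathlib
import Pool.Agent.Helper669.KDefs

/-!
# The forcing notions adding a coherent sequence
-/

namespace Pool.Agent.Helper669.K

open Cardinal Pool.Agent.Helper669.Forcing

/-- A condition of the forcing adding a coherent sequence: an ordinal `len` and functions `b β`
on the ordinals below `β`, for `β ≤ len`, which are pairwise equal up to finitely many values. -/
structure SP (K : Type) [LinearOrder K] where
  /-- the length -/
  len : K
  /-- the functions -/
  b : K → K → Bool
  coh : ∀ β γ, β < γ → γ ≤ len → {α | α < β ∧ b β α ≠ b γ α}.Finite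
  norm : ∀ β α, ¬ (α < β ∧ β ≤ len) → b β α = false

instance (K : Type) [LinearOrder K] : Preorder (SP K) where
  le x y := y.len ≤ x.len ∧ ∀ β ≤ y.len, x.b β = y.b β
  le_refl _ := ⟨le_rfl, fun _ _ => rfl⟩
  le_trans _ _ _ h h' := ⟨h'.1.trans h.1, fun β hβ => (h.2 β (hβ.trans h'.1)).trans (h'.2 β hβ)⟩

theorem SP.le_iff {K : Type} [LinearOrder K] {x y : SP K} :
    x ≤ y ↔ y.len ≤ x.len ∧ ∀ β ≤ y.len, x.b β = y.b β := Iff.rfl

/-- A coherent sequence together with a function close to its last member. -/
structure RP (K : Type) [LinearOrder K] where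
  /-- the coherent sequence -/
  st : SP K
  /-- the function -/
  g : K → Bool
  close : {α | α < st.len ∧ g α ≠ st.b st.len α}.Finite
  norm : ∀ α, ¬ α < st.len → g α = false

instance (K : Type) [LinearOrder K] : Preorder (RP K) where
  le x y := x.st ≤ y.st ∧ ∀ α < y.st.len, x.g α = y.g α
  le_refl _ := ⟨le_rfl, fun _ _ => rfl⟩
  le_trans _ _ _ h h' := ⟨h.1.trans h'.1, fun α hα =>
    (h.2 α (hα.trans_le h'.1.1)).trans (h'.2 α hα)⟩

theorem RP.le_iff {K : Type} [LinearOrder K] {x y : RP K} :
    x ≤ y ↔ x.st ≤ y.st ∧ ∀ α < y.st.len, x.g α = y.g α := Iff.rfl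

end Pool.Agent.Helper669.K
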