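import Mathlib
import Pool.Agent.Helper669.KTree
import Pool.Agent.Helper669.CloneComb

/-!
# Conditions with promises, and the orders given by a weight function
-/

namespace Pool.Agent.Helper669.K

open Cardinal Pool.Agent.Helper669.Forcing

/-- A condition: fewer than `κ` generic elements and fewer than `κ` promises. -/
@[ext]
structure Cond (κ : Cardinal.{0}) (L Z I : Type) where
  /-- the generic elements -/
  s : Set (L × Z)
  /-- the promises -/
  E : Set (L × I)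
  hs : #s < κ
  hE : #E < κ

/-- the preorder generated by a relation -/
@[instance_reducible]
def mkPre {X : Type} (ρ : X → X → Prop) : Preorder X where
  le p q := ∀ r, ρ q r → ρ p r
  le_refl _ _ h := h
  le_trans _ _ _ h h' r hr := h r (h' r hr)

section

variable {κ : Cardinal.{0}} {L Z I : Type} [LinearOrder L]

namespace Cond

/-- restriction to the coordinates below `α` -/
def res (α : L) (p : Cond κ L Z I) : Cond κ L Z I where
  s := {x | x ∈ p.s ∧ x.1 < α}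
  E := {x | x ∈ p.E ∧ x.1 < α}
  hs := (mk_le_mk_of_subset fun _ h => h.1).trans_lt p.hs
  hE := (mk_le_mk_of_subset fun _ h => h.1).trans_lt p.hE

theorem mem_res_s {α : L} {p : Cond κ L Z I} {x : L × Z} : x ∈ (p.res α).s ↔ x ∈ p.s ∧ x.1 < α :=
  Iff.rfl

theorem mem_res_E {α : L} {p : Cond κ L Z I} {x : L × I} : x ∈ (p.res α).E ↔ x ∈ p.E ∧ x.1 < α :=
  Iff.rfl

theorem res_res {α β : L} (h : β ≤ α) (p : Cond κ L Z I) : (p.res α).res β = p.res β := by
  ext x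
  · exact ⟨fun hx => ⟨hx.1.1, hx.2⟩, fun hx => ⟨⟨hx.1, hx.2.trans_le h⟩, hx.2⟩⟩
  · exact ⟨fun hx => ⟨hx.1.1, hx.2⟩, fun hx => ⟨⟨hx.1, hx.2.trans_le h⟩, hx.2⟩⟩

theorem lt_of_res {α : L} {p : Cond κ L Z I} (hp : p.res α = p) {x : L × Z} (hx : x ∈ p.s) :
    x.1 < α := by
  rw [← hp] at hx
  exact hx.2

theorem lt_of_resE {α : L} {p : Cond κ L Z I} (hp : p.res α = p) {x : L × I} (hx : x ∈ p.E) :
    x.1 < α := by
  rw [← hp] at hx
  exact hx.2

end Cond

/-- for every coordinate, promise and generic element, the set of the conditions which allow to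
add the generic element in spite of the promise -/
abbrev Wt (κ : Cardinal.{0}) (L Z I : Type) : Type := L → I → Z → Set (Cond κ L Z I)

/-- the order given by a weight function -/
def Le (W : Wt κ L Z I) (p q : Cond κ L Z I) : Prop :=
  q.s ⊆ p.s ∧ q.E ⊆ p.E ∧
    ∀ α z η, (α, z) ∈ p.s → (α, z) ∉ q.s → (α, η) ∈ q.E → p.res α ∈ W α η z

variable {W : Wt κ L Z I}

theorem Le.refl (p : Cond κ L Z I) : Le W p p :=
  ⟨subset_rfl, subset_rfl, fun _ _ _ h h' _ => absurd h h'⟩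

theorem Le.res {p q : Cond κ L Z I} (h : Le W p q) (α : L) : Le W (p.res α) (q.res α) := by
  refine ⟨fun x hx => ⟨h.1 hx.1, hx.2⟩, fun x hx => ⟨h.2.1 hx.1, hx.2⟩, ?_⟩
  intro β z η h1 h2 h3
  rw [Cond.res_res h1.2.le]
  exact h.2.2 β z η h1.1 (fun h' => h2 ⟨h', h1.2⟩) h3.1

theorem Le.res_self (p : Cond κ L Z I) (α : L) : Le W p (p.res α) :=
  ⟨fun _ hx => hx.1, fun _ hx => hx.1, fun _ _ _ h1 h2 h3 => absurd ⟨h1, h3.2⟩ h2⟩

/-- the sets `W α η z` are closed downwards -/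
def GoodAt (W : Wt κ L Z I) (α : L) : Prop :=
  ∀ η z (p q : Cond κ L Z I), Le W (p.res α) (q.res α) → q.res α ∈ W α η z → p.res α ∈ W α η z

theorem Le.trans {p q r : Cond κ L Z I} (hW : ∀ α, (∃ z, (α, z) ∈ p.s) → GoodAt W α)
    (h : Le W p q) (h' : Le W q r) : Le W p r := by
  refine ⟨h'.1.trans h.1, h'.2.1.trans h.2.1, ?_⟩
  intro α z η h1 h2 h3
  by_cases h4 : (α, z) ∈ q.s
  · exact hW α ⟨z, h1⟩ η z p q (h.res α) (h'.2.2 α z η h4 h2 h3)
  · exact h.2.2 α z η h1 h4 (h'.2.1 h3)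

/-! ### Unions of directed sets -/

/-- the union of a small set of conditions -/
def unionD (hκ : κ.IsRegular) (D : Set (Cond κ L Z I)) (hD : #D < κ) : Cond κ L Z I where
  s := ⋃ p ∈ D, p.s
  E := ⋃ p ∈ D, p.E
  hs := (card_biUnion_lt_iff_forall_of_isRegular hκ hD).2 fun p _ => p.hs
  hE := (card_biUnion_lt_iff_forall_of_isRegular hκ hD).2 fun p _ => p.hE

theorem unionD_le [WellFoundedLT L] (hκ : κ.IsRegular) (D : Set (Cond κ L Z I)) (hD : #D < κ)
    (hW : ∀ α, (∃ p ∈ D, ∃ z, (α, z) ∈ p.s) → GoodAt W α)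
    (hdir : ∀ a ∈ D, ∀ b ∈ D, ∃ c ∈ D, Le W c a ∧ Le W c b) (q : Cond κ L Z I) (hq : q ∈ D) :
    Le W (unionD hκ D hD) q := by
  have hmem : ∀ x, x ∈ (unionD hκ D hD).s ↔ ∃ p ∈ D, x ∈ p.s := fun x => by
    simp [unionD]
  have hmemE : ∀ x, x ∈ (unionD hκ D hD).E ↔ ∃ p ∈ D, x ∈ p.E := fun x => by
    simp [unionD]
  have claim : ∀ α : L, ∀ q ∈ D, Le W ((unionD hκ D hD).res α) (q.res α) := by
    intro α
    induction α using WellFoundedLT.induction with
    | ind α ih =>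
      intro q hq
      refine ⟨fun x hx => ⟨(hmem x).2 ⟨q, hq, hx.1⟩, hx.2⟩,
        fun x hx => ⟨(hmemE x).2 ⟨q, hq, hx.1⟩, hx.2⟩, ?_⟩
      intro β z η h1 h2 h3
      obtain ⟨p, hp, hpz⟩ := (hmem _).1 h1.1
      obtain ⟨c, hc, hcp, hcq⟩ := hdir p hp q hq
      rw [Cond.res_res h1.2.le]
      refine hW β ⟨p, hp, z, hpz⟩ η z _ c (ih β h1.2 c hc) ?_
      exact hcq.2.2 β z η (hcp.1 hpz) (fun h => h2 ⟨h, h1.2⟩) h3.1
  refine ⟨fun x hx => (hmem x).2 ⟨q, hq, hx⟩, fun x hx => (hmemE x).2 ⟨q, hq, hx⟩, ?_⟩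
  intro β z η h1 h2 h3
  obtain ⟨p, hp, hpz⟩ := (hmem _).1 h1
  obtain ⟨c, hc, hcp, hcq⟩ := hdir p hp q hq
  refine hW β ⟨p, hp, z, hpz⟩ η z _ c (claim β c hc) ?_
  exact hcq.2.2 β z η (hcp.1 hpz) h2 h3

/-! ### Amalgamation -/

/-- `p1` on the coordinates below `α`, `p` above, and possibly more generic elements at `α` -/
def amal (hκ : ℵ₀ ≤ κ) (p1 p : Cond κ L Z I) (α : L) (T : Set Z) (hT : T.Finite) :
    Cond κ L Z I where
  s := (p1.s ∪ {x | x ∈ p.s ∧ α ≤ x.1}) ∪ {x | x.1 = α ∧ x.2 ∈ T}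
  E := p1.E ∪ {x | x ∈ p.E ∧ α ≤ x.1}
  hs := by
    refine (mk_union_le _ _).trans_lt (add_lt_of_lt hκ ?_ ?_)
    · exact (mk_union_le _ _).trans_lt
        (add_lt_of_lt hκ p1.hs ((mk_le_mk_of_subset fun _ h => h.1).trans_lt p.hs))
    · have h1 : {x : L × Z | x.1 = α ∧ x.2 ∈ T} ⊆ (fun z => (α, z)) '' T := by
        rintro ⟨a, z⟩ ⟨h, h'⟩
        exact ⟨z, h', by simp only at h; rw [h]⟩
      exact (mk_le_mk_of_subset h1).trans_lt ((lt_aleph0_iff_set_finite.2 (hT.image _)).trans_le hκ)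
  hE := (mk_union_le _ _).trans_lt
    (add_lt_of_lt hκ p1.hE ((mk_le_mk_of_subset fun _ h => h.1).trans_lt p.hE))

variable (hκ : ℵ₀ ≤ κ) {p1 p : Cond κ L Z I} {α : L} {T : Set Z} (hT : T.Finite)

theorem amal_res (h1 : p1.res α = p1) {β : L} (hβ : β ≤ α) :
    (amal hκ p1 p α T hT).res β = p1.res β := by
  ext x
  · constructor
    · rintro ⟨((h | h) | h), h'⟩
      · exact ⟨h, h'⟩
      · exact absurd (h.2.trans_lt h') (not_lt.2 hβ)
      · exact absurd h' (not_lt.2 (hβ.trans h.1.ge))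
    · rintro ⟨h, h'⟩
      exact ⟨Or.inl (Or.inl h), h'⟩
  · constructor
    · rintro ⟨(h | h), h'⟩
      · exact ⟨h, h'⟩
      · exact absurd (h.2.trans_lt h') (not_lt.2 hβ)
    · rintro ⟨h, h'⟩
      exact ⟨Or.inl h, h'⟩

theorem amal_le_left (h1 : p1.res α = p1) : Le W (amal hκ p1 p α T hT) p1 := by
  refine ⟨fun x hx => Or.inl (Or.inl hx), fun x hx => Or.inl hx, ?_⟩
  intro β z η h2 h3 h4
  have hβ : β < α := Cond.lt_of_resE h1 h4
  rcases h2 with (h | h) | h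
  · exact absurd h h3
  · exact absurd (h.2.trans_lt hβ) (lt_irrefl _)
  · exact absurd h.1 hβ.ne

theorem amal_le (h1 : p1.res α = p1) (hle : Le W p1 (p.res α))
    (hW : ∀ z ∈ T, ∀ η, (α, η) ∈ p.E → p1 ∈ W α η z) : Le W (amal hκ p1 p α T hT) p := by
  refine ⟨?_, ?_, ?_⟩
  · intro x hx
    rcases lt_or_ge x.1 α with h | h
    · exact Or.inl (Or.inl (hle.1 ⟨hx, h⟩))
    · exact Or.inl (Or.inr ⟨hx, h⟩)
  · intro x hx
    rcases lt_or_ge x.1 α with h | h
    · exact Or.inl (hle.2.1 ⟨hx, h⟩)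
    · exact Or.inr ⟨hx, h⟩
  · intro β z η h2 h3 h4
    rcases h2 with (h | h) | h
    · have hβ : β < α := Cond.lt_of_res h1 h
      rw [amal_res hκ hT h1 hβ.le]
      exact hle.2.2 β z η h (fun h' => h3 h'.1) ⟨h4, hβ⟩
    · exact absurd h.1 h3
    · obtain ⟨rfl, hz⟩ := h
      rw [amal_res hκ hT h1 le_rfl, h1]
      exact hW z hz η h4

/-! ### Adding a promise -/

/-- `p` with one more promise -/
def addE (hκ : ℵ₀ ≤ κ) (p : Cond κ L Z I) (α : L) (η : I) : Cond κ L Z I where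
  s := p.s
  E := insert (α, η) p.E
  hs := p.hs
  hE := (mk_insert_le).trans_lt (add_lt_of_lt hκ p.hE (one_lt_aleph0.trans_le hκ))

theorem addE_le (α : L) (η : I) : Le W (addE hκ p α η) p :=
  ⟨subset_rfl, Set.subset_insert _ _, fun _ _ _ h h' _ => absurd h h'⟩

theorem addE_res (α : L) (η : I) : (addE hκ p α η).res α = p.res α := by
  ext x
  · rfl
  · constructor
    · rintro ⟨h | h, h'⟩
      · rw [h] at h'
        exact absurd h' (lt_irrefl _)
      · exact ⟨h, h'⟩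
    · rintro ⟨h, h'⟩
      exact ⟨Or.inr h, h'⟩

/-! ### Compatibility -/

/-- the union of two conditions -/
def union2 (hκ : ℵ₀ ≤ κ) (p q : Cond κ L Z I) : Cond κ L Z I where
  s := p.s ∪ q.s
  E := p.E ∪ q.E
  hs := (mk_union_le _ _).trans_lt (add_lt_of_lt hκ p.hs q.hs)
  hE := (mk_union_le _ _).trans_lt (add_lt_of_lt hκ p.hE q.hE)

theorem union2_le {p q : Cond κ L Z I}
    (h : ∀ α z η, (α, z) ∈ q.s → (α, η) ∈ p.E → (α, z) ∈ p.s) : Le W (union2 hκ p q) p := by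
  refine ⟨Set.subset_union_left, Set.subset_union_left, ?_⟩
  intro α z η h1 h2 h3
  rcases h1 with h1 | h1
  · exact absurd h1 h2
  · exact absurd (h α z η h1 h3) h2

theorem union2_le' {p q : Cond κ L Z I}
    (h : ∀ α z η, (α, z) ∈ p.s → (α, η) ∈ q.E → (α, z) ∈ q.s) : Le W (union2 hκ p q) q := by
  refine ⟨Set.subset_union_right, Set.subset_union_right, ?_⟩
  intro α z η h1 h2 h3
  rcases h1 with h1 | h1
  · exact absurd (h α z η h1 h3) h2
  · exact absurd h1 h2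

end

end Pool.Agent.Helper669.K
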