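import Mathlib
import Pool.Agent.Helper669.KCond
set_option autoImplicit false

/-!
# Counting conditions
-/

namespace Pool.Agent.Helper669.K

open Cardinal Pool.Agent.Helper669.Forcing

theorem exists_agree_count {W : Type} {κ : Cardinal.{0}} (hκ : κ.IsRegular)
    (h2 : ∀ μ < κ, 2 ^ μ < κ) (hW : #W ≤ κ) : #{A : Set W // #A < κ} ≤ κ := by
  have hlim : κ.IsStrongLimit := ⟨hκ.pos.ne', fun {μ} hμ => h2 μ hμ⟩
  have hα : #κ.out = κ := Cardinal.mk_out κ
  have hlim' : (#κ.out).IsStrongLimit := by rw [hα]; exact hlim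
  have hcount := Cardinal.mk_subset_mk_lt_cof hlim'.isStrongPrelimit
  rw [hα, hκ.cof_ord] at hcount
  rw [← hα] at hW
  obtain ⟨g⟩ := Cardinal.le_def W κ.out |>.mp hW
  refine le_trans (Cardinal.mk_le_of_injective (f := fun A : {A : Set W // #A < κ} =>
    (⟨g '' A.1, lt_of_le_of_lt Cardinal.mk_image_le A.2⟩ : {s : Set κ.out // #s < κ})) ?_) hcount.le
  intro A B h
  have h' : g '' A.1 = g '' B.1 := congrArg Subtype.val h
  exact Subtype.ext (Set.image_injective.mpr g.injective h')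

theorem exists_agree {L Z ι : Type} {κ : Cardinal.{0}} (hκ : κ.IsRegular)
    (h2 : ∀ μ < κ, 2 ^ μ < κ) (hZ : #Z ≤ κ) (hι : κ < #ι)
    (hw : ∀ (E K' : Type) (Z' : E → Set K'), ¬ #E ≤ κ → (∀ b, #(Z' b) < κ) →
      ∃ (T' : Set E) (R : Set K'), (¬ #T' ≤ κ) ∧ #R ≤ κ ∧
        ∀ b ∈ T', ∀ b' ∈ T', b ≠ b' → Z' b ∩ Z' b' ⊆ R)
    (s : ι → Set (L × Z)) (T : ι → Set L) (hs : ∀ i, #(s i) < κ) (hT : ∀ i, #(T i) < κ) :
    ∃ i j, i ≠ j ∧ ∀ α, α ∈ T i → α ∈ T j → ∀ z, (α, z) ∈ s i ↔ (α, z) ∈ s j := by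
  obtain ⟨T', R, hT', hR, hTR⟩ := hw ι L T (not_le.mpr hι) hT
  have hκ0 := hκ.aleph0_le
  have hW : #(R × Z) ≤ κ := by
    rw [Cardinal.mk_prod, Cardinal.lift_id, Cardinal.lift_id]
    calc #R * #Z ≤ κ * κ := mul_le_mul' hR hZ
      _ = κ := Cardinal.mul_eq_self hκ0
  have hcount := exists_agree_count (W := R × Z) hκ h2 hW
  have htr : ∀ i : ι, #{p : R × Z | ((p.1 : L), p.2) ∈ s i} < κ := by
    intro i
    refine lt_of_le_of_lt ?_ (hs i)
    refine Cardinal.mk_le_of_injective (f := fun p : {p : R × Z | ((p.1 : L), p.2) ∈ s i} =>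
      (⟨((p.1.1 : L), p.1.2), p.2⟩ : s i)) ?_
    rintro ⟨⟨⟨a, ha⟩, b⟩, hp⟩ ⟨⟨⟨c, hc⟩, d⟩, hq⟩ h
    have h' : (a, b) = (c, d) := congrArg Subtype.val h
    rw [Prod.mk.injEq] at h'
    obtain ⟨h1, h3⟩ := h'
    subst h1
    subst h3
    rfl
  have hninj : ¬ Function.Injective (fun i : T' => (⟨{p : R × Z | ((p.1 : L), p.2) ∈ s i}, htr i⟩ :
      {A : Set (R × Z) // #A < κ})) := by
    intro hinj
    exact hT' ((Cardinal.mk_le_of_injective hinj).trans hcount)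
  unfold Function.Injective at hninj
  push Not at hninj
  obtain ⟨i, j, hij, hne⟩ := hninj
  refine ⟨i, j, fun h => hne (Subtype.ext h), ?_⟩
  intro α hαi hαj z
  have hne' : (i : ι) ≠ j := fun h => hne (Subtype.ext h)
  have hαR : α ∈ R := hTR i i.2 j j.2 hne' ⟨hαi, hαj⟩
  have heq : {p : R × Z | ((p.1 : L), p.2) ∈ s i} = {p : R × Z | ((p.1 : L), p.2) ∈ s j} :=
    congrArg Subtype.val hij
  have := Set.ext_iff.mp heq (⟨α, hαR⟩, z)
  exact this


theorem exists_enum {κ : Cardinal.{0}} (hκ : ℵ₀ ≤ κ) (L Z S K : Type) (hL : κ ≤ #L)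
    (hZ : #Z ≤ κ) (hS : #S ≤ κ) (hK : #K ≤ κ) :
    ∃ (I : Type) (e : I → K → Set (Cond κ L Z I × S)),
      ∀ c : K → Set (Cond κ L Z I × S), (∀ β, #(c β) ≤ κ) → ∃ η, e η = c := by
  classical
  set l : Cardinal.{0} := #L with hl
  have hl0 : ℵ₀ ≤ l := hκ.trans hL
  have hκ0 : κ ≠ 0 := (lt_of_lt_of_le aleph0_pos hκ).ne'
  set M : Cardinal.{0} := 2 ^ l with hM
  have hlM : l ≤ M := (cantor l).le
  have hM0 : ℵ₀ ≤ M := hl0.trans hlM
  have hκM : κ ≤ M := hL.trans hlM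
  have hMne : M ≠ 0 := (lt_of_lt_of_le aleph0_pos hM0).ne'
  have hlκ : l * κ = l := mul_eq_left hl0 hL hκ0
  have hMκ : M ^ κ = M := by
    rw [hM, ← power_mul, hlκ]
  have hMM : M * M = M := mul_eq_self hM0
  have hI : #(Set L) = M := mk_set
  have hbd : ∀ α : Type, #α ≤ M → #{t : Set α // #t ≤ κ} ≤ M := by
    intro α hα
    calc #{t : Set α // #t ≤ κ} ≤ max #α ℵ₀ ^ κ := mk_bounded_set_le α κ
      _ ≤ M ^ κ := power_le_power_right (max_le hα hM0)
      _ = M := hMκ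
  have hLZ : #(Set (L × Z)) ≤ M := by
    rw [mk_set, mk_prod, lift_id, lift_id]
    calc (2 : Cardinal.{0}) ^ (#L * #Z) ≤ 2 ^ (l * κ) :=
          power_le_power_left two_ne_zero (mul_le_mul_right hZ _)
      _ = M := by rw [hlκ]
  have hLI : #(L × Set L) ≤ M := by
    rw [mk_prod, lift_id, lift_id, hI]
    calc #L * M ≤ M * M := mul_le_mul_left hlM _
      _ = M := hMM
  have hC : #(Cond κ L Z (Set L)) ≤ M := by
    have hinj : Function.Injective (fun c : Cond κ L Z (Set L) =>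
        ((c.s, ⟨c.E, c.hE.le⟩) : Set (L × Z) × {t : Set (L × Set L) // #t ≤ κ})) := by
      intro a b hab
      simp only [Prod.mk.injEq, Subtype.mk.injEq] at hab
      exact Cond.ext hab.1 hab.2
    calc #(Cond κ L Z (Set L)) ≤ #(Set (L × Z) × {t : Set (L × Set L) // #t ≤ κ}) :=
          mk_le_of_injective hinj
      _ = #(Set (L × Z)) * #{t : Set (L × Set L) // #t ≤ κ} := by
          rw [mk_prod, lift_id, lift_id]
      _ ≤ M * M := mul_le_mul' hLZ (hbd _ hLI)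
      _ = M := hMM
  have hCS : #(Cond κ L Z (Set L) × S) ≤ M := by
    rw [mk_prod, lift_id, lift_id]
    calc #(Cond κ L Z (Set L)) * #S ≤ M * M := mul_le_mul' hC (hS.trans hκM)
      _ = M := hMM
  let T : Set (K → Set (Cond κ L Z (Set L) × S)) := {c | ∀ β, #(c β) ≤ κ}
  have hT : #T ≤ #(Set L) := by
    rw [hI]
    have hinj : Function.Injective (fun c : T =>
        ((fun β => ⟨c.1 β, c.2 β⟩) : K → {t : Set (Cond κ L Z (Set L) × S) // #t ≤ κ})) := by
      intro a b hab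
      apply Subtype.ext
      funext β
      have := congrFun hab β
      simpa using this
    calc #T ≤ #(K → {t : Set (Cond κ L Z (Set L) × S) // #t ≤ κ}) := mk_le_of_injective hinj
      _ = #{t : Set (Cond κ L Z (Set L) × S) // #t ≤ κ} ^ #K := by simp
      _ ≤ M ^ #K := power_le_power_right (hbd _ hCS)
      _ ≤ M ^ κ := power_le_power_left hMne hK
      _ = M := hMκ
  haveI : Nonempty T := ⟨⟨fun _ => ∅, fun β => by simp⟩⟩
  obtain ⟨f⟩ := hT
  refine ⟨Set L, fun η => (Function.invFun f η : T), fun c hc => ⟨f ⟨c, hc⟩, ?_⟩⟩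
  have h := Function.leftInverse_invFun f.injective (⟨c, hc⟩ : T)
  exact congrArg Subtype.val h


end Pool.Agent.Helper669.K
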