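import Mathlib
import Pool.Agent.Helper669.KCond
import Pool.Agent.Helper669.KA1
import Pool.Agent.Helper669.KA2

set_option autoImplicit false

/-!
# The weight function, and the properties of the forcing notion
-/

namespace Pool.Agent.Helper669.K

open Cardinal Pool.Agent.Helper669.Forcing

/-- the conditions below `α` -/
def Pd (κ : Cardinal.{0}) (L Z I : Type) [LinearOrder L] (α : L) : Type :=
  {p : Cond κ L Z I // p.res α = p}

/-- the conditions below `α`, ordered by `ρ` -/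
def PR {κ : Cardinal.{0}} {L Z I : Type} [LinearOrder L] {α : L}
    (_ρ : Pd κ L Z I α → Pd κ L Z I α → Prop) : Type :=
  Pd κ L Z I α

instance {κ : Cardinal.{0}} {L Z I : Type} [LinearOrder L] {α : L}
    (ρ : Pd κ L Z I α → Pd κ L Z I α → Prop) : Preorder (PR ρ) :=
  mkPre (X := Pd κ L Z I α) ρ

/-- the underlying condition -/
def PR.val {κ : Cardinal.{0}} {L Z I : Type} [LinearOrder L] {α : L}
    {ρ : Pd κ L Z I α → Pd κ L Z I α → Prop} (x : PR ρ) : Cond κ L Z I :=
  Subtype.val (p := fun p : Cond κ L Z I => p.res α = p) x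

/-- the element given by a condition -/
def PR.mk {κ : Cardinal.{0}} {L Z I : Type} [LinearOrder L] {α : L}
    (ρ : Pd κ L Z I α → Pd κ L Z I α → Prop) (p : Cond κ L Z I) (h : p.res α = p) : PR ρ :=
  (⟨p, h⟩ : {p : Cond κ L Z I // p.res α = p})

theorem PR.res_val {κ : Cardinal.{0}} {L Z I : Type} [LinearOrder L] {α : L}
    {ρ : Pd κ L Z I α → Pd κ L Z I α → Prop} (x : PR ρ) : x.val.res α = x.val :=
  Subtype.property (p := fun p : Cond κ L Z I => p.res α = p) x

theorem PR.val_mk {κ : Cardinal.{0}} {L Z I : Type} [LinearOrder L] {α : L}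
    {ρ : Pd κ L Z I α → Pd κ L Z I α → Prop} {p : Cond κ L Z I} (h : p.res α = p) :
    (PR.mk ρ p h).val = p := rfl

theorem PR.mk_val {κ : Cardinal.{0}} {L Z I : Type} [LinearOrder L] {α : L}
    {ρ : Pd κ L Z I α → Pd κ L Z I α → Prop} (x : PR ρ) : PR.mk ρ x.val x.res_val = x := rfl

/-- the relation on the conditions below `α` given by a weight function -/
def rel {κ : Cardinal.{0}} {L Z I : Type} [LinearOrder L] (W : Wt κ L Z I) (α : L)
    (p q : Pd κ L Z I α) : Prop :=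
  Le W p.1 q.1

open Classical in
/-- a name of a measure on `K`, if there is one -/
noncomputable def theU (κ : Cardinal.{0}) (K Q : Type) [Preorder Q] : (K → Set Q) → Set Q :=
  if h : ∃ U : (K → Set Q) → Set Q, ∀ q, q ∈ IsMeasure κ U then h.choose else fun _ => ∅

theorem theU_spec {κ : Cardinal.{0}} {K Q : Type} [Preorder Q]
    (h : ∃ U : (K → Set Q) → Set Q, ∀ q, q ∈ IsMeasure κ U) (q : Q) :
    q ∈ IsMeasure κ (theU κ K Q) := by
  rw [theU, dif_pos h]
  exact h.choose_spec q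

section

variable {κ : Cardinal.{0}} {L R S K I : Type} [LinearOrder L] [Preorder R] [Preorder S]
  (st : R → S) (e : I → K → Set (Cond κ L (K × R) I × S))

/-- the name with index `η`, as a name for the product with `R` -/
def nm {α : L} (ρ : Pd κ L (K × R) I α → Pd κ L (K × R) I α → Prop) (η : I) :
    K → Set (PR ρ × R) :=
  fun β => {x | ∃ a : PR ρ, ∃ b : S, (a.val, b) ∈ e η β ∧ x.1 ≤ a ∧ st x.2 ≤ b}

/-- the values of the weight function at `α` -/
def stage (α : L) (ρ : Pd κ L (K × R) I α → Pd κ L (K × R) I α → Prop) :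
    I → K × R → Set (Cond κ L (K × R) I) :=
  fun η z => {p | ∃ x : PR ρ, x.val = p ∧
    ((x, z.2) ∈ fand (meets (theU κ K (PR ρ × R) (nm st e ρ η))) (meets (nm st e ρ η z.1)) ∨
      (x, z.2) ∈ fand (fnot (meets (theU κ K (PR ρ × R) (nm st e ρ η))))
        (fnot (meets (nm st e ρ η z.1))))}

theorem rel_congr {W W' : Wt κ L (K × R) I} {α : L} (h : ∀ β < α, W β = W' β) :
    rel W α = rel W' α := by
  funext p q
  refine propext ⟨fun hl => ⟨hl.1, hl.2.1, fun β z η h1 h2 h3 => ?_⟩,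
    fun hl => ⟨hl.1, hl.2.1, fun β z η h1 h2 h3 => ?_⟩⟩
  · rw [← h β (Cond.lt_of_res p.2 h1)]
    exact hl.2.2 β z η h1 h2 h3
  · rw [h β (Cond.lt_of_res p.2 h1)]
    exact hl.2.2 β z η h1 h2 h3

theorem exists_W [WellFoundedLT L] :
    ∃ W : Wt κ L (K × R) I, ∀ α, W α = stage st e α (rel W α) := by
  obtain ⟨W, hW⟩ := CloneComb.exists_rec (I := L) (S := I → K × R → Set (Cond κ L (K × R) I))
    (fun α c s => s = stage st e α (rel c α))
    (fun α c c' s hc hs => by rw [hs, rel_congr hc])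
    (fun α c => ⟨_, rfl⟩)
  exact ⟨W, hW⟩

theorem le_PR_of {W : Wt κ L (K × R) I} {α : L} (hW : ∀ β < α, GoodAt W β)
    (x y : PR (rel W α)) : x ≤ y ↔ Le W x.val y.val := by
  constructor
  · intro h
    exact h y (Le.refl y.val)
  · intro h r hr
    exact Le.trans (fun β hβ => by
      obtain ⟨z, hz⟩ := hβ
      exact hW β (Cond.lt_of_res x.res_val hz)) h hr

variable {W : Wt κ L (K × R) I} (hW : ∀ α, W α = stage st e α (rel W α))

include hW in
theorem goodAt [WellFoundedLT L] (α : L) : GoodAt W α := by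
  induction α using WellFoundedLT.induction with
  | ind α ih =>
    intro η z p q hle hq
    rw [hW α] at hq ⊢
    obtain ⟨y, hy, h⟩ := hq
    have hx : (PR.mk (rel W α) (p.res α) (Cond.res_res le_rfl p)) ≤ y := by
      rw [le_PR_of ih, PR.val_mk, hy]
      exact hle
    refine ⟨PR.mk (rel W α) (p.res α) (Cond.res_res le_rfl p), rfl, ?_⟩
    have hle2 : ((PR.mk (rel W α) (p.res α) (Cond.res_res le_rfl p), z.2) :
        PR (rel W α) × R) ≤ (y, z.2) := ⟨hx, le_rfl⟩
    rcases h with h | h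
    · exact Or.inl (down_fand (down_meets _) (down_meets _) _ h _ hle2)
    · exact Or.inr (down_fand (down_fnot _) (down_fnot _) _ h _ hle2)

include hW in
theorem le_PR [WellFoundedLT L] {α : L} (x y : PR (rel W α)) : x ≤ y ↔ Le W x.val y.val :=
  le_PR_of (fun β _ => goodAt st e hW β) x y

include hW in
theorem Le.trans' [WellFoundedLT L] {p q r : Cond κ L (K × R) I} (h : Le W p q)
    (h' : Le W q r) : Le W p r :=
  Le.trans (fun β _ => goodAt st e hW β) h h'

/-- the forcing notion: all conditions -/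
def PW (W : Wt κ L (K × R) I) : Type :=
  have _ := W
  Cond κ L (K × R) I

instance (W : Wt κ L (K × R) I) : Preorder (PW W) :=
  mkPre (X := Cond κ L (K × R) I) (Le W)

/-- the underlying condition -/
def PW.val (p : PW W) : Cond κ L (K × R) I := p

/-- the element given by a condition -/
def PW.mk (W : Wt κ L (K × R) I) (p : Cond κ L (K × R) I) : PW W := p

include hW in
theorem le_PW [WellFoundedLT L] (x y : PW W) : x ≤ y ↔ Le W x.val y.val := by
  constructor
  · intro h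
    exact h y (Le.refl y.val)
  · intro h r hr
    exact Le.trans' st e hW h hr

include hW in
theorem dirClosed_PW [WellFoundedLT L] (hκ : κ.IsRegular) : DirClosed κ (PW W) := by
  intro D hD _ hdir
  refine ⟨PW.mk W (unionD hκ (D : Set (Cond κ L (K × R) I)) hD), fun a ha => ?_⟩
  rw [le_PW st e hW]
  refine unionD_le hκ _ hD (fun α _ => goodAt st e hW α) (fun a ha b hb => ?_) a ha
  obtain ⟨c, hc, h1, h2⟩ := hdir a ha b hb
  exact ⟨c, hc, (le_PW st e hW _ _).1 h1, (le_PW st e hW _ _).1 h2⟩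

include hW in
theorem dirClosed_PR [WellFoundedLT L] (hκ : κ.IsRegular) (α : L) :
    DirClosed κ (PR (rel W α)) := by
  intro D hD _ hdir
  have hD' : #(PR.val '' D) < κ := mk_image_le.trans_lt hD
  have hres : (unionD hκ (PR.val '' D) hD').res α = unionD hκ (PR.val '' D) hD' := by
    ext x
    · refine ⟨fun h => h.1, fun h => ⟨h, ?_⟩⟩
      simp only [unionD, Set.mem_iUnion] at h
      obtain ⟨_, ⟨p, hp, rfl⟩, h⟩ := h
      exact Cond.lt_of_res p.res_val h
    · refine ⟨fun h => h.1, fun h => ⟨h, ?_⟩⟩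
      simp only [unionD, Set.mem_iUnion] at h
      obtain ⟨_, ⟨p, hp, rfl⟩, h⟩ := h
      exact Cond.lt_of_resE p.res_val h
  refine ⟨PR.mk _ _ hres, fun a ha => ?_⟩
  rw [le_PR st e hW]
  refine unionD_le hκ _ hD' (fun α _ => goodAt st e hW α) ?_ _ ⟨a, ha, rfl⟩
  rintro _ ⟨a, ha, rfl⟩ _ ⟨b, hb, rfl⟩
  obtain ⟨c, hc, h1, h2⟩ := hdir a ha b hb
  exact ⟨_, ⟨c, hc, rfl⟩, (le_PR st e hW _ _).1 h1, (le_PR st e hW _ _).1 h2⟩

end

theorem dirClosed_prod {κ : Cardinal.{0}} {A B : Type} [Preorder A] [Preorder B]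
    (hA : DirClosed κ A) (hB : DirClosed κ B) : DirClosed κ (A × B) := by
  intro D hD hne hdir
  obtain ⟨a, ha⟩ := hA (Prod.fst '' D) (mk_image_le.trans_lt hD) (hne.image _) (by
    rintro _ ⟨x, hx, rfl⟩ _ ⟨y, hy, rfl⟩
    obtain ⟨c, hc, h1, h2⟩ := hdir x hx y hy
    exact ⟨_, ⟨c, hc, rfl⟩, h1.1, h2.1⟩)
  obtain ⟨b, hb⟩ := hB (Prod.snd '' D) (mk_image_le.trans_lt hD) (hne.image _) (by
    rintro _ ⟨x, hx, rfl⟩ _ ⟨y, hy, rfl⟩
    obtain ⟨c, hc, h1, h2⟩ := hdir x hx y hy
    exact ⟨_, ⟨c, hc, rfl⟩, h1.2, h2.2⟩)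
  exact ⟨(a, b), fun x hx => ⟨ha _ ⟨x, hx, rfl⟩, hb _ ⟨x, hx, rfl⟩⟩⟩

end Pool.Agent.Helper669.K
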