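import Mathlib
import Pool.Agent.Helper669.KMain
import Pool.Agent.Helper669.KA3
import Pool.Agent.Helper669.KA4
import Pool.Agent.Helper669.KDelta

set_option autoImplicit false

/-!
# The strong polarized relation in the extension
-/

namespace Pool.Agent.Helper669.K

open Cardinal Pool.Agent.Helper669.Forcing

theorem mem_for' {P : Type} [Preorder P] {φ ψ : Set P} {p : P} :
    p ∈ for' φ ψ ↔ ∀ q ≤ p, ∃ r ≤ q, r ∈ φ ∨ r ∈ ψ := by
  simp only [for', fnot, fand, Set.mem_ofPred_eq, not_and_or, not_forall, not_not]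
  constructor
  · intro h q hq
    rcases h q hq with ⟨r, hr, h'⟩ | ⟨r, hr, h'⟩
    · exact ⟨r, hr, Or.inl h'⟩
    · exact ⟨r, hr, Or.inr h'⟩
  · intro h q hq
    obtain ⟨r, hr, h' | h'⟩ := h q hq
    · exact Or.inl ⟨r, hr, h'⟩
    · exact Or.inr ⟨r, hr, h'⟩

theorem down_full {P : Type} [Preorder P] {X : Type} (A : X → Set P) : Down (HasFullSize A) :=
  down_fall fun _ => down_fall fun _ => down_fnot _

/-- pigeonhole -/
theorem exists_fiber {ι Y : Type} {κ : Cardinal.{0}} (hκ : ℵ₀ ≤ κ) (hι : κ < #ι) (hY : #Y ≤ κ)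
    (f : ι → Y) : ∃ y, κ < #{i | f i = y} := by
  by_contra h
  push Not at h
  have h1 : (Set.univ : Set ι) = ⋃ y, {i | f i = y} := by
    ext i
    simp
  have h2 : #(Set.univ : Set ι) ≤ κ := by
    rw [h1]
    exact KDelta.small_iUnion hκ hY _ h
  rw [mk_univ] at h2
  exact absurd hι (not_lt.2 h2)

section

variable {κ : Cardinal.{0}} {L R S K I : Type} [LinearOrder L] [WellFoundedLT L] [Preorder R]
  [Preorder S] (st : R → S) (e : I → K → Set (Cond κ L (K × R) I × S))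
  {W : Wt κ L (K × R) I} (hW : ∀ α, W α = stage st e α (rel W α))

include hW in
/-- the chain condition -/
theorem cc_PW (hκ : κ.IsRegular) (h2 : ∀ μ < κ, 2 ^ μ < κ) (hK : #K ≤ κ) (hR : #R ≤ κ)
    (hS : #S ≤ κ) (ι : Type) (f : ι → PW W × S) (hι : κ < #ι) :
    ∃ i j, i ≠ j ∧ ∃ r, r ≤ f i ∧ r ≤ f j := by
  obtain ⟨s, hs⟩ := exists_fiber hκ.aleph0_le hι hS fun i => (f i).2
  have hZ : #(K × R) ≤ κ := by
    rw [mk_prod, lift_id, lift_id]
    exact (mul_le_mul' hK hR).trans (mul_eq_self hκ.aleph0_le).le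
  obtain ⟨i, j, hij, h⟩ := exists_agree (L := L) (Z := K × R) (ι := {i | (f i).2 = s}) hκ h2 hZ hs
    (fun E K' Z' hE hZ' => KDelta.weak_delta hκ.aleph0_le hE Z' hZ')
    (fun i => (f i.1).1.val.s)
    (fun i => Prod.fst '' (f i.1).1.val.s ∪ Prod.fst '' (f i.1).1.val.E)
    (fun i => (f i.1).1.val.hs)
    (fun i => (mk_union_le _ _).trans_lt (add_lt_of_lt hκ.aleph0_le
      (mk_image_le.trans_lt (f i.1).1.val.hs) (mk_image_le.trans_lt (f i.1).1.val.hE)))
  refine ⟨i.1, j.1, fun h' => hij (Subtype.ext h'),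
    (PW.mk W (union2 hκ.aleph0_le (f i.1).1.val (f j.1).1.val), s), ⟨?_, i.2.ge⟩, ⟨?_, j.2.ge⟩⟩
  · refine (le_PW st e hW _ _).2 (union2_le hκ.aleph0_le fun α z η h1 h3 => ?_)
    exact (h α (Or.inr ⟨_, h3, rfl⟩) (Or.inl ⟨_, h1, rfl⟩) z).2 h1
  · refine (le_PW st e hW _ _).2 (union2_le' hκ.aleph0_le fun α z η h1 h3 => ?_)
    exact (h α (Or.inl ⟨_, h1, rfl⟩) (Or.inr ⟨_, h3, rfl⟩) z).1 h1

end

section

variable {κ : Cardinal.{0}} {L R S I : Type} [LinearOrder L] [WellFoundedLT L] [Preorder R]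
  [Preorder S] (st : R → S) (e : I → κ.ord.ToType → Set (Cond κ L (κ.ord.ToType × R) I × S))
  {W : Wt κ L (κ.ord.ToType × R) I} (hW : ∀ α, W α = stage st e α (rel W α))
  (hκ : κ.IsRegular) (h2 : ∀ μ < κ, 2 ^ μ < κ) (hRκ : #R ≤ κ) (hSκ : #S ≤ κ)
  (hR : DirClosed κ R)
  (hU : ∀ (α : L) (q : PR (rel W α) × R),
    q ∈ IsMeasure κ (theU κ κ.ord.ToType (PR (rel W α) × R)))
  (hst : ∀ a b : R, a ≤ b → st a ≤ st b)
  (hlift : ∀ (r : R) (s : S), s ≤ st r → ∃ r' ≤ r, st r' = s)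
  (hsurj : ∀ s : S, ∃ r : R, st r = s)
  (he : ∀ c : κ.ord.ToType → Set (Cond κ L (κ.ord.ToType × R) I × S), (∀ β, #(c β) ≤ κ) →
    ∃ η, e η = c)
  (hL : ∀ T : Set L, #T ≤ Order.succ κ → ∃ γ, ∀ α ∈ T, α < γ)

include hW hκ hst hR hlift hsurj in
theorem staysRegular_PW (x : PW W × S) : x ∈ StaysRegular (PW W × S) κ := by
  refine staysRegular_proj (Q := PW W × R) hκ ?_ (fun y => (y.1, st y.2))
    (fun (a b : PW W × R) (h : a ≤ b) => Prod.mk_le_mk.2 ⟨h.1, hst _ _ h.2⟩) ?_ ?_ x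
  · intro N D hN hd hdense q
    exact exists_forall_mem hκ.aleph0_le (dirClosed_prod (dirClosed_PW st e hW hκ) hR) hN D hd
      hdense q
  · rintro ⟨a, r⟩ ⟨b, s⟩ ⟨h, h'⟩
    obtain ⟨r', hr', rfl⟩ := hlift r s h'
    exact ⟨(b, r'), ⟨h, hr'⟩, le_rfl⟩
  · rintro ⟨b, s⟩
    obtain ⟨r, rfl⟩ := hsurj s
    exact ⟨(b, r), le_rfl⟩

include hW hκ h2 hRκ hSκ hR hU hst hlift hsurj he hL in
/-- the strong polarized relation in the extension -/
theorem polarized_PW (x : PW W × S) :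
    x ∈ Polarized (PW W × S) (Order.succ κ).ord.ToType κ.ord.ToType := by
  classical
  have hκ0 := hκ.aleph0_le
  have hKκ : #κ.ord.ToType ≤ κ := (mk_ord_toType κ).le
  have hcc := cc_PW st e hW hκ h2 hKκ hRκ hSκ
  have hreg1 := staysRegular_PW st e hW hκ hR hst hlift hsurj
  have hreg2 := staysRegular_succ (Q := PW W × S) hκ0 hcc
  intro c
  -- small names
  choose N hN1 hN2 using fun α β => exists_nice (Q := PW W × S) hcc (c α β)
  choose η hη using fun α => he (N α) (hN1 α)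
  -- all coordinates of the names are below some `γ`
  obtain ⟨γ, hγ⟩ := hL (⋃ (α : (Order.succ κ).ord.ToType), ⋃ (β : κ.ord.ToType),
    ⋃ y ∈ (N α β : Set (Cond κ L (κ.ord.ToType × R) I × S)),
      (Prod.fst '' y.1.s ∪ Prod.fst '' y.1.E)) (by
    have hs : ℵ₀ ≤ Order.succ κ := hκ0.trans (Order.le_succ κ)
    refine KDelta.small_iUnion hs (mk_ord_toType _).le _ fun α => ?_
    refine KDelta.small_iUnion hs (hKκ.trans (Order.le_succ κ)) _ fun β => ?_
    refine KDelta.small_biUnion hs _ ((hN1 α β).trans (Order.le_succ κ)) _ fun y _ => ?_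
    refine (KDelta.small_union hκ0 ?_ ?_).trans (Order.le_succ κ)
    · exact mk_image_le.trans y.1.hs.le
    · exact mk_image_le.trans y.1.hE.le)
  have hNγ : ∀ α β, ∀ y ∈ (N α β : Set (Cond κ L (κ.ord.ToType × R) I × S)),
      Cond.res γ y.1 = y.1 := by
    intro α β y hy
    ext z
    · refine ⟨fun h => h.1, fun h => ⟨h, hγ _ ?_⟩⟩
      simp only [Set.mem_iUnion]
      exact ⟨α, β, y, hy, Or.inl ⟨z, h, rfl⟩⟩
    · refine ⟨fun h => h.1, fun h => ⟨h, hγ _ ?_⟩⟩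
      simp only [Set.mem_iUnion]
      exact ⟨α, β, y, hy, Or.inr ⟨z, h, rfl⟩⟩
  refine mem_fex.2 fun y0 _ => ?_
  obtain ⟨p0, s0⟩ := y0
  obtain ⟨r0, rfl⟩ := hsurj s0
  -- promises
  choose p hp1 r hr hp2 hp3 using fun α => exists_promise st e hW hκ0 p0.val r0 γ (η α)
  have hζ : ∀ α, ∃ ζ : κ.ord.ToType, ∀ β r', (γ, (β, r')) ∈ (p α).s → β < ζ := by
    intro α
    have hsm : #((fun z : L × (κ.ord.ToType × R) => z.2.1) '' (p α).s) < κ :=
      mk_image_le.trans_lt (p α).hs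
    obtain ⟨ζ, hζ⟩ : ∃ ζ : κ.ord.ToType,
        ∀ β ∈ (fun z : L × (κ.ord.ToType × R) => z.2.1) '' (p α).s, β < ζ := by
      by_contra hcon
      push Not at hcon
      have hunb : IsCofinal ((fun z : L × (κ.ord.ToType × R) => z.2.1) '' (p α).s) := by
        intro ζ
        obtain ⟨β, hβ, h⟩ := hcon ζ
        exact ⟨β, hβ, h⟩
      have hcof := Order.cof_le hunb
      rw [Ordinal.cof_toType, hκ.cof_ord] at hcof
      exact absurd hsm (not_lt.2 hcof)
    exact ⟨ζ, fun β r' h => hζ β ⟨_, h, rfl⟩⟩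
  choose ζ hζ using hζ
  -- pigeonhole
  have hX : κ < #(Order.succ κ).ord.ToType := by
    rw [mk_ord_toType]
    exact Order.lt_succ κ
  obtain ⟨⟨t, ζ0, i⟩, hA⟩ := exists_fiber (Y := R × κ.ord.ToType × Bool) hκ0 hX (by
    rw [mk_prod, mk_prod, lift_id, lift_id, lift_id, lift_id, mk_bool]
    refine (mul_le_mul' hRκ ((mul_le_mul' hKκ ((natCast_lt_aleph0 (n := 2)).le.trans hκ0)).trans
      (mul_eq_self hκ0).le)).trans (mul_eq_self hκ0).le)
    (fun α => (r α, ζ α, decide (pt W γ (p α) (r α) ∈ meets (UU st e W γ (η α)))))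
  set A : Set (Order.succ κ).ord.ToType := {α | (r α, ζ α,
    decide (pt W γ (p α) (r α) ∈ meets (UU st e W γ (η α)))) = (t, ζ0, i)} with hAdef
  have hAr : ∀ α ∈ A, r α = t := fun α hα => congrArg (fun z => z.1) hα
  have hAζ : ∀ α ∈ A, ζ α = ζ0 := fun α hα => congrArg (fun z => z.2.1) hα
  have hAi : ∀ α ∈ A, decide (pt W γ (p α) (r α) ∈ meets (UU st e W γ (η α))) = i :=
    fun α hα => congrArg (fun z => z.2.2) hα
  obtain ⟨α0, hα0, q, hq, hqA⟩ := exists_many (Q := PW W × S) hκ0 hcc hreg2 A hA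
    (fun α => (PW.mk W (p α), st t))
  have hq0 : q ≤ (p0, st r0) := by
    refine hq.trans ⟨?_, hst _ _ ?_⟩
    · exact (le_PW st e hW _ _).2 (hp1 α0)
    · rw [← hAr α0 hα0]
      exact hr α0
  have hqt : q.2 ≤ st t := hq.2
  -- the second set
  let B : κ.ord.ToType → Set (PW W × S) := fun β =>
    {z | ζ0 ≤ β ∧ ∃ r' ≤ t, z.2 ≤ st r' ∧ (γ, (β, r')) ∈ z.1.val.s}
  have hBd : ∀ β, Down (B β) := by
    rintro β z ⟨h1, r', hr', h3, h4⟩ z' hz'
    exact ⟨h1, r', hr', hz'.2.trans h3, ((le_PW st e hW _ _).1 hz'.1).1 h4⟩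
  have hBfull : q ∈ HasFullSize B := by
    refine hasFullSize_of_unbounded hκ0 hreg1 B q fun q' hq' β => ?_
    obtain ⟨t', ht', hst'⟩ := hlift t q'.2 (hq'.2.trans hqt)
    obtain ⟨p', hp', r', hr', δ, hδ, hmem⟩ := exists_add st e hW hκ hR hU q'.1.val t' γ
      (Set.Iio β ∪ Set.Iio ζ0) ((mk_union_le _ _).trans_lt (add_lt_of_lt hκ0
        ((mk_le_mk_of_subset Set.Iio_subset_Iic_self).trans_lt (kur_Iic hκ β))
        ((mk_le_mk_of_subset Set.Iio_subset_Iic_self).trans_lt (kur_Iic hκ ζ0))))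
    simp only [Set.mem_union, Set.mem_Iio, not_or, not_lt] at hδ
    refine ⟨(PW.mk W p', st r'), ⟨(le_PW st e hW _ _).2 hp', ?_⟩, δ, hδ.1, ?_⟩
    · rw [← hst']
      exact hst _ _ hr'
    · exact meets_of_mem ⟨hδ.2, r', hr'.trans ht', le_rfl, hmem⟩
  -- homogeneity
  have key : ∀ (α : (Order.succ κ).ord.ToType) (β : κ.ord.ToType) (z : PW W × S),
      z ∈ meets {z : PW W × S | α ∈ A ∧ z ≤ (PW.mk W (p α), st t)} → z ∈ meets (B β) →
      ∃ z' ≤ z, (i = true → z' ∈ meets (c α β)) ∧ (i = false → z' ∈ fnot (meets (c α β))) := by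
    intro α β z h1 h3
    obtain ⟨z1, hz1, z2, ⟨hαA, hz2⟩, hz12⟩ := h1 z le_rfl
    obtain ⟨z3, hz3, hz3B⟩ := exists_of_meets (hBd β) (down_meets _ _ h3 z1 hz1)
    obtain ⟨hβ, r', hr', hz3r, hz3s⟩ := hz3B
    have hle : Le W z3.1.val (p α) := (le_PW st e hW _ _).1 ((hz3.trans (hz12.trans hz2)).1)
    have huse := use_promise st e hW (t := r α) hle (by rw [hAr α hαA]; exact hr') (hp2 α) hz3s
      (fun h => absurd (hζ α β r' h) (by rw [hAζ α hαA]; exact not_lt.2 hβ))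
    have hNη : ∀ w, w ∈ meets (P := PW W × S) (e (η α) β) ↔ w ∈ meets (c α β) := by
      intro w
      rw [hη α]
      exact hN2 α β w
    refine ⟨z3, hz3.trans hz1, fun hi => ?_, fun hi => ?_⟩
    · have h5 : pt W γ (p α) (r α) ∈ meets (UU st e W γ (η α)) := by
        have := hAi α hαA
        rw [hi, decide_eq_true_eq] at this
        exact this
      exact (hNη _).1 (transfer st e hW hst hlift hκ0 hz3r (huse.1 h5))
    · have h5 : pt W γ (p α) (r α) ∈ fnot (meets (UU st e W γ (η α))) := by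
        have := hAi α hαA
        rw [hi, decide_eq_false_iff_not] at this
        exact (hp3 α).resolve_left this
      have h6 := transfer' st e hW hst hlift hκ0 (he := by
        rw [hη α]
        exact hNγ α β) hz3r (huse.2 h5)
      exact fun w hw hwm => h6 w hw ((hNη _).2 hwm)
  refine ⟨q, hq0, fun α => {z : PW W × S | α ∈ A ∧ z ≤ (PW.mk W (p α), st t)}, ?_⟩
  refine mem_fex.2 fun z0 hz0 => ⟨z0, le_rfl, B, down_full _ _ hqA _ hz0,
    down_full _ _ hBfull _ hz0, mem_for'.2 fun z1 _ => ⟨z1, le_rfl, ?_⟩⟩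
  cases hi : i with
  | true =>
    left
    intro α β
    refine mem_fimp.2 fun z _ h => ?_
    obtain ⟨z', hz', h1, _⟩ := key α β z h.1 h.2
    exact ⟨z', hz', h1 hi⟩
  | false =>
    right
    intro α β
    refine mem_fimp.2 fun z _ h => ?_
    obtain ⟨z', hz', _, h1⟩ := key α β z h.1 h.2
    exact ⟨z', hz', h1 hi⟩

end

end Pool.Agent.Helper669.K
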