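import Mathlib
import Pool.Agent.Helper669.KFinal

set_option autoImplicit false

/-!
# The power set of `κ` in the extension
-/

namespace Pool.Agent.Helper669.K

open Cardinal Pool.Agent.Helper669.Forcing

section

variable {P : Type} [Preorder P]

/-- The named subsets `X` and `Y` of `K` are equal. -/
def SameSet {K : Type} (X Y : K → Set P) : Set P :=
  fall fun a => fand (fimp (meets (X a)) (meets (Y a))) (fimp (meets (Y a)) (meets (X a)))

/-- `κ` is a strong limit in the extension: for every cardinal `ν < κ` there are a cardinal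
`l < κ` and a function from `l` onto the set of all subsets of `ν`. -/
def StaysStrongLimit (P : Type) [Preorder P] (κ : Cardinal.{0}) : Set P :=
  fall fun ν : Cardinal.{0} => fall fun _ : ν < κ =>
    fex fun l : {l : Cardinal.{0} // l < κ} => fex fun F : l.1.out → ν.out → Set P =>
      fall fun X : ν.out → Set P => fex fun i : l.1.out => SameSet (F i) X

/-- The set of all subsets of `K` has the cardinality of `M` in the extension: there are a
one-to-one function from `M` to the set of all subsets of `K`, and a function from `M` onto the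
set of all subsets of `K`. -/
def PowerSize (P : Type) [Preorder P] (K M : Type) : Set P :=
  fand
    (fex fun F : M → K → Set P =>
      fall fun x => fall fun y => fall fun _ : x ≠ y => fnot (SameSet (F x) (F y)))
    (fex fun F : M → K → Set P => fall fun X : K → Set P => fex fun x : M => SameSet (F x) X)

end

section

variable {κ : Cardinal.{0}} {L R S K I : Type} [LinearOrder L] [WellFoundedLT L] [Preorder R]
  [Preorder S] (st : R → S) (e : I → K → Set (Cond κ L (K × R) I × S))
  {W : Wt κ L (K × R) I} (hW : ∀ α, W α = stage st e α (rel W α))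

variable (hκ : κ.IsRegular) (hR : DirClosed κ R)
  (hU : ∀ (α : L) (q : PR (rel W α) × R), q ∈ IsMeasure κ (theU κ K (PR (rel W α) × R)))

include hW hκ hR hU in
/-- it is dense to add generic elements, changing nothing above -/
theorem exists_add_above (p : Cond κ L (K × R) I) (r : R) (α : L) (B : Set K) (hB : #B < κ) :
    ∃ p', Le W p' p ∧ (∀ x ∈ p'.s, α < x.1 → x ∈ p.s) ∧
      ∃ r' ≤ r, ∃ β, β ∉ B ∧ (α, (β, r')) ∈ p'.s := by
  classical
  have hF : #{η : I | (α, η) ∈ p.E} < κ := by
    refine lt_of_le_of_lt ?_ p.hE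
    refine mk_le_of_injective (f := fun η => ⟨(α, η.1), η.2⟩) ?_
    intro η η' h
    have := congrArg (fun x : p.E => x.1.2) h
    exact Subtype.ext this
  obtain ⟨x1, hx1, hD⟩ := exists_forall_mem (Q := PR (rel W α) × R) hκ.aleph0_le
    (dirClosed_prod (dirClosed_PR st e hW hκ α) hR) hF
    (fun η => meets (UU st e W α η.1) ∪ fnot (meets (UU st e W α η.1)))
    (fun η x hx y hy => by
      rcases hx with hx | hx
      · exact Or.inl (down_meets _ _ hx _ hy)
      · exact Or.inr (down_fnot _ _ hx _ hy))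
    (fun η x => exists_decide' _ x) (pt W α p r)
  let X : {η : I | (α, η) ∈ p.E} → K → Set (PR (rel W α) × R) := fun η =>
    if x1 ∈ meets (UU st e W α η.1) then nm st e (rel W α) η.1
    else nCompl (nm st e (rel W α) η.1)
  have hX : ∀ η, x1 ∈ meets (theU κ K (PR (rel W α) × R) (X η)) := by
    intro η
    by_cases h : x1 ∈ meets (UU st e W α η.1)
    · have : X η = nm st e (rel W α) η.1 := by simp only [X, if_pos h]
      rw [this]
      exact h
    · have : X η = nCompl (nm st e (rel W α) η.1) := by simp only [X, if_neg h]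
      rw [this]
      have h2 : x1 ∈ fnot (meets (UU st e W α η.1)) := (hD η).resolve_left h
      have h3 := ((hU α x1).2.1 (nm st e (rel W α) η.1)).2
      exact meets_of_dense' fun q hq => mem_fimp.1 h3 q hq (down_fnot _ _ h2 q hq)
  obtain ⟨x2, hx2, β, hβ, h⟩ := exists_point hκ.aleph0_le (hU α) hF X x1 hX B hB
  have hle : Le W x2.1.val (p.res α) := (le_PR st e hW _ _).1 (hx2.trans hx1).1
  refine ⟨amal hκ.aleph0_le x2.1.val p α {(β, x2.2)} (Set.finite_singleton _),
    amal_le _ _ x2.1.res_val hle ?_, ?_, x2.2, (hx2.trans hx1).2, β, hβ, Or.inr ⟨rfl, rfl⟩⟩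
  swap
  · rintro x ((hx | hx) | hx) hlt
    · exact absurd (Cond.lt_of_res x2.1.res_val hx) (not_lt.2 hlt.le)
    · exact hx.1
    · exact absurd hx.1 hlt.ne'
  intro z hz η hη
  rw [Set.mem_singleton_iff] at hz
  subst hz
  refine mem_W_of st e hW ?_
  have hη' := h ⟨η, hη⟩
  by_cases h1 : x1 ∈ meets (UU st e W α η)
  · have : X ⟨η, hη⟩ = nm st e (rel W α) η := by simp only [X, if_pos h1]
    rw [this] at hη'
    exact Or.inl ⟨down_meets _ _ h1 _ hx2, hη'⟩
  · have : X ⟨η, hη⟩ = nCompl (nm st e (rel W α) η) := by simp only [X, if_neg h1]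
    rw [this] at hη'
    have h2 : x1 ∈ fnot (meets (UU st e W α η)) := (hD ⟨η, hη⟩).resolve_left h1
    exact Or.inr ⟨down_fnot _ _ h2 _ hx2, meets_fnot (down_meets _) hη'⟩


/-- the empty condition -/
def emp (hκ : κ.IsRegular) : Cond κ L (K × R) I :=
  ⟨∅, ∅, by simpa using hκ.pos, by simpa using hκ.pos⟩

include hW hκ hU in
/-- the complement of a point has measure one -/
theorem co_point {β : K} {η : I}
    (he : ∀ b, e η b = {y | b ≠ β ∧ y.1 = emp hκ}) (α : L) (x : PR (rel W α) × R) :
    x ∈ meets (UU st e W α η) := by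
  have h4 := (hU α x).2.2.2 β
  obtain h2 := ((hU α x).2.1 (fun b => fground (b = β))).2
  have h5 : x ∈ meets (theU κ K (PR (rel W α) × R) (nCompl fun b => fground (b = β))) := by
    refine meets_of_dense' fun q hq => ?_
    exact mem_fimp.1 h2 q hq (down_fnot _ _ h4 _ hq)
  have h6 : x ∈ fall fun a => fimp (meets ((nCompl fun b : K => fground (b = β)) a))
      (meets (nm st e (rel W α) η a)) := by
    intro a
    refine mem_fimp.2 fun q _ hqm => ?_
    by_cases ha : a = β
    · exfalso
      obtain ⟨r, hr, h⟩ := exists_of_meets (down_fnot _) hqm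
      exact h r le_rfl (meets_of_mem ha)
    · refine ⟨q, le_rfl, meets_of_mem ?_⟩
      refine ⟨PR.mk (rel W α) (emp hκ) ?_, st q.2, ?_, ?_, le_rfl⟩
      · ext y
        · exact ⟨fun h => absurd h.1 (Set.notMem_empty _), fun h => absurd h (Set.notMem_empty _)⟩
        · exact ⟨fun h => absurd h.1 (Set.notMem_empty _), fun h => absurd h (Set.notMem_empty _)⟩
      · rw [he]
        exact ⟨ha, rfl⟩
      · exact (le_PR st e hW _ _).2 ⟨Set.empty_subset _, Set.empty_subset _,
          fun _ _ _ _ _ h => absurd h (Set.notMem_empty _)⟩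
  have h1 := (hU α x).1 (nCompl fun b => fground (b = β)) (nm st e (rel W α) η)
  refine meets_of_dense' fun q hq => ?_
  exact mem_fimp.1 h1 q hq ⟨down_meets _ _ h5 _ hq, down_fall (fun _ => down_fimp _ _) _ h6 _ hq⟩

/-- the generic subset with index `α` -/
def genSub (W : Wt κ L (K × R) I) (S : Type) [Preorder S] (j : K × R → K) (α : L) :
    K → Set (PW W × S) :=
  fun b => {q | ∃ z, j z = b ∧ (α, z) ∈ q.1.val.s}

variable (hst : ∀ a b : R, a ≤ b → st a ≤ st b)
  (hsurj : ∀ s : S, ∃ r : R, st r = s)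
  (hS : #S ≤ κ)
  (he : ∀ c : K → Set (Cond κ L (K × R) I × S), (∀ β, #(c β) ≤ κ) → ∃ η, e η = c)
  (j : K × R → K) (hj : Function.Injective j)

include hW hκ hR hU hst hsurj hS he hj in
theorem genSub_ne {α α' : L} (hα : α < α') (q : PW W × S) :
    ∃ q' ≤ q, ∃ b, q' ∈ meets (genSub W S j α b) ∧ q' ∈ fnot (meets (genSub W S j α' b)) := by
  obtain ⟨p, s⟩ := q
  obtain ⟨r, rfl⟩ := hsurj s
  have hB : #((fun x : L × (K × R) => x.2.1) '' p.val.s) < κ := mk_image_le.trans_lt p.val.hs
  obtain ⟨p', hp', habove, r', hr', β, hβ, hmem⟩ :=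
    exists_add_above st e hW hκ hR hU p.val r α _ hB
  obtain ⟨η, hη⟩ := he (fun b => {y | b ≠ β ∧ y.1 = emp hκ}) (by
    intro b
    refine le_trans ?_ hS
    refine mk_le_of_injective (f := fun y : {y : Cond κ L (K × R) I × S |
      b ≠ β ∧ y.1 = emp hκ} => y.1.2) ?_
    intro y y' h
    exact Subtype.ext (Prod.ext (y.2.2.trans y'.2.2.symm) h))
  have hnot : ∀ r'', (α', (β, r'')) ∉ p'.s := by
    intro r'' h
    exact hβ ⟨_, habove _ h hα, rfl⟩
  refine ⟨(PW.mk W (addE hκ.aleph0_le p' α' η), st r'), ⟨?_, hst _ _ hr'⟩, j (β, r'), ?_, ?_⟩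
  · exact (le_PW st e hW _ _).2 (Le.trans' st e hW (addE_le hκ.aleph0_le _ _) hp')
  · exact meets_of_mem ⟨(β, r'), rfl, hmem⟩
  · intro y hy hym
    have hd : Down (genSub W S j α' (j (β, r'))) := by
      rintro a ⟨z, hz, hza⟩ a' ha'
      exact ⟨z, hz, ((le_PW st e hW _ _).1 ha'.1).1 hza⟩
    obtain ⟨y', hy', z, hz, hzs⟩ := exists_of_meets hd hym
    have hz' := hj hz
    subst hz'
    have hle : Le W y'.1.val (addE hκ.aleph0_le p' α' η) :=
      (le_PW st e hW _ _).1 (hy'.trans hy).1
    have h1 := (use_promise st e hW (t := r') (r := r') (β := β) hle le_rfl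
      (Set.mem_insert _ _) hzs (hnot r')).1 (co_point st e hW hκ hU (by
        intro b
        rw [hη]) α' _)
    obtain ⟨_, _, v, ⟨a, c, hac, _⟩, _⟩ := h1 _ le_rfl
    rw [hη] at hac
    exact hac.1 rfl

include hW hκ hR hU hst hsurj hS he hj in
/-- the size of the power set -/
theorem powerSize_PW
    (hcc : ∀ (ι : Type) (f : ι → PW W × S), κ < #ι → ∃ i j, i ≠ j ∧ ∃ r, r ≤ f i ∧ r ≤ f j)
    (g : I → L) (hg : Function.Injective g) (x : PW W × S) :
    x ∈ PowerSize (PW W × S) K I := by
  refine ⟨mem_fex.2 fun q _ => ⟨q, le_rfl, fun i => genSub W S j (g i), ?_⟩,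
    mem_fex.2 fun q _ => ⟨q, le_rfl, fun i => e i, ?_⟩⟩
  · intro a b hab q1 _ hsame
    rcases lt_or_gt_of_ne (fun h => hab (hg h)) with h | h
    · obtain ⟨q2, hq2, c, h1, h2⟩ := genSub_ne st e hW hκ hR hU hst hsurj hS he j hj h q1
      obtain ⟨q3, hq3, h3⟩ := mem_fimp.1 (hsame c).1 q2 hq2 h1
      exact h2 q3 hq3 h3
    · obtain ⟨q2, hq2, c, h1, h2⟩ := genSub_ne st e hW hκ hR hU hst hsurj hS he j hj h q1
      obtain ⟨q3, hq3, h3⟩ := mem_fimp.1 (hsame c).2 q2 hq2 h1
      exact h2 q3 hq3 h3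
  · intro X
    choose N hN1 hN2 using fun β => exists_nice (Q := PW W × S) hcc (X β)
    obtain ⟨η, hη⟩ := he N hN1
    refine mem_fex.2 fun q1 _ => ⟨q1, le_rfl, η, ?_⟩
    have h : ∀ β, ∀ w : PW W × S, w ∈ meets (P := PW W × S) (e η β) ↔ w ∈ meets (X β) := by
      intro β w
      rw [hη]
      exact hN2 β w
    intro β
    refine ⟨mem_fimp.2 fun w _ hw => ⟨w, le_rfl, (h β w).1 hw⟩,
      mem_fimp.2 fun w _ hw => ⟨w, le_rfl, (h β w).2 hw⟩⟩

end

end Pool.Agent.Helper669.K
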