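import Mathlib

set_option autoImplicit false

/-!
# Colourings from coherent clubs
-/

namespace Pool.Agent.Helper669.KE

open Cardinal Set

theorem rec_choice {I A : Type} (S : I → Set A) (h : ∀ i, #I ≤ #(S i)) (hI : ℵ₀ ≤ #I) :
    ∃ g : I → A, Function.Injective g ∧ ∀ i, g i ∈ S i := by
  classical
  have he : Nonempty (I ≃ (#I).ord.ToType) := by
    apply Cardinal.eq.1
    simp
  obtain ⟨e⟩ := he
  have key : ∀ (t : (#I).ord.ToType) (f : (u : (#I).ord.ToType) → u < t → A),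
      ∃ a, a ∈ S (e.symm t) ∧ ∀ (u) (hu : u < t), f u hu ≠ a := by
    intro t f
    by_contra hcon
    push Not at hcon
    have hsub : S (e.symm t) ⊆ Set.range (fun u : Set.Iio t => f u.1 u.2) := by
      intro a ha
      obtain ⟨u, hu, hfu⟩ := hcon a ha
      exact ⟨⟨u, hu⟩, hfu⟩
    have h1 : #(S (e.symm t)) ≤ #(Set.Iio t) := (Cardinal.mk_le_mk_of_subset hsub).trans Cardinal.mk_range_le
    have h2 : #(Set.Iio t) < #I := by simpa using Cardinal.mk_Iio_lt t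
    exact absurd ((h (e.symm t)).trans h1) (not_le.2 h2)
  choose F hF1 hF2 using key
  let g : (#I).ord.ToType → A := WellFounded.fix (wellFounded_lt) F
  have hg : ∀ t, g t = F t (fun u _ => g u) := fun t => WellFounded.fix_eq _ _ _
  have hne : ∀ u t, u < t → g u ≠ g t := by
    intro u t hut
    have := hF2 t (fun u _ => g u) u hut
    rw [hg t]
    exact this
  refine ⟨fun i => g (e i), ?_, ?_⟩
  · intro i j hij
    by_contra hne'
    have : e i ≠ e j := fun h => hne' (e.injective h)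
    rcases lt_or_gt_of_ne this with h1 | h1
    · exact hne _ _ h1 hij
    · exact hne _ _ h1 hij.symm
  · intro i
    have := hF1 (e i) (fun u _ => g u)
    rw [← hg] at this
    simpa using this

theorem infinite_subsets (Y : Set ℕ) (hY : Y.Infinite) :
    #(Set ℕ × (ℕ → Bool)) ≤ #{Z : Set ℕ | Z ⊆ Y ∧ Z.Infinite} := by
  have h1 : #(Set ℕ × (ℕ → Bool)) = #(Set ℕ) := by
    rw [Cardinal.mk_prod, Cardinal.lift_id, Cardinal.lift_id, Cardinal.mk_set, Cardinal.mk_nat,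
      Cardinal.two_power_aleph0]
    have : #(ℕ → Bool) = Cardinal.continuum := by
      rw [← Cardinal.power_def, Cardinal.mk_bool, Cardinal.mk_nat, Cardinal.two_power_aleph0]
    rw [this, Cardinal.continuum_mul_self]
  rw [h1]
  haveI : Infinite Y := hY.to_subtype
  let e : ℕ ↪ Y := Infinite.natEmbedding Y
  let f : Set ℕ → {Z : Set ℕ | Z ⊆ Y ∧ Z.Infinite} := fun A =>
    ⟨(fun n => ((e n : Y) : ℕ)) '' ({n | Even n} ∪ {n | ∃ m ∈ A, n = 2 * m + 1}), by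
      constructor
      · rintro _ ⟨n, -, rfl⟩
        exact (e n).2
      · apply Set.Infinite.image
        · intro x _ y _ hxy
          exact e.injective (Subtype.ext hxy)
        · apply Set.Infinite.mono (Set.subset_union_left)
          rw [Set.infinite_iff_exists_gt] 
          intro a
          exact ⟨2 * (a + 1), ⟨a + 1, by ring⟩, by omega⟩⟩
  apply Cardinal.mk_le_of_injective (f := f)
  intro A B hAB
  have h2 : (fun n => ((e n : Y) : ℕ)) '' ({n | Even n} ∪ {n | ∃ m ∈ A, n = 2 * m + 1}) =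
      (fun n => ((e n : Y) : ℕ)) '' ({n | Even n} ∪ {n | ∃ m ∈ B, n = 2 * m + 1}) :=
    congrArg Subtype.val hAB
  have hinj : Function.Injective (fun n => ((e n : Y) : ℕ)) := fun x y hxy =>
    e.injective (Subtype.ext hxy)
  have h3 := hinj.image_injective h2
  ext m
  have key : ∀ C : Set ℕ, (2 * m + 1 ∈ ({n | Even n} ∪ {n | ∃ k ∈ C, n = 2 * k + 1} : Set ℕ)) ↔ m ∈ C := by
    intro C
    constructor
    · rintro (h | ⟨k, hk, hk2⟩)
      · exfalso
        obtain ⟨r, hr⟩ := h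
        omega
      · have : k = m := by omega
        rwa [← this]
    · intro h
      exact Or.inr ⟨m, h, rfl⟩
  rw [← key A, ← key B, h3]

/-- A function on the sets of natural numbers which takes all values on the infinite subsets of
each infinite set. -/
theorem bern : ∃ f : Set ℕ → (ℕ → Bool), ∀ Y : Set ℕ, Y.Infinite →
    ∀ r, ∃ Z, Z ⊆ Y ∧ Z.Infinite ∧ f Z = r := by
  classical
  obtain ⟨g, hg1, hg2⟩ := rec_choice (I := Set ℕ × (ℕ → Bool)) (A := Set ℕ)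
    (fun i => if i.1.Infinite then {Z : Set ℕ | Z ⊆ i.1 ∧ Z.Infinite} else Set.univ) (by
      intro i
      by_cases h : i.1.Infinite
      · simp only [if_pos h]
        exact infinite_subsets i.1 h
      · simp only [if_neg h]
        refine (infinite_subsets Set.univ Set.infinite_univ).trans ?_
        exact Cardinal.mk_le_mk_of_subset (Set.subset_univ _)) (by
      refine Cardinal.aleph0_le_mk_iff.mpr ?_
      infer_instance)
  refine ⟨fun Z => (Function.invFun g Z).2, fun Y hY r => ⟨g (Y, r), ?_, ?_, ?_⟩⟩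
  · have := hg2 (Y, r)
    simp only [if_pos hY] at this
    exact this.1
  · have := hg2 (Y, r)
    simp only [if_pos hY] at this
    exact this.2
  · show (Function.invFun g (g (Y, r))).2 = r
    rw [Function.leftInverse_invFun hg1]

section
open Ordinal

theorem good_small {M : Type} [LinearOrder M] [WellFoundedLT M] (κ : Cardinal.{0}) (hκ : ℵ₀ ≤ κ)
    (D : Set M) (hD : #D < κ) :
    #{a : κ.ord.ToType | Nonempty (Iio a ↪o D)} < κ := by
  set S : Set κ.ord.ToType := {a | Nonempty (Iio a ↪o D)} with hS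
  have hlow : ∀ a ∈ S, ∀ b ≤ a, b ∈ S := by
    rintro a ⟨f⟩ b hb
    have h := Set.Iio_subset_Iio hb
    exact ⟨(⟨⟨Set.inclusion h, Set.inclusion_injective h⟩, Iff.rfl⟩ :
      Iio b ↪o Iio a).trans f⟩
  obtain ⟨b, hb⟩ : ∃ b, b ∉ S := by
    have hτ : typeLT D < κ.ord := by
      rw [lt_ord, card_type]
      exact hD
    have h2 : Order.succ (typeLT D) < κ.ord := (Cardinal.isSuccLimit_ord hκ).succ_lt hτ
    obtain ⟨b, hb⟩ := typein_surj (α := κ.ord.ToType) (· < ·) (o := Order.succ (typeLT D))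
      (by rwa [type_toType])
    refine ⟨b, ?_⟩
    rintro ⟨f⟩
    have h3 : typeLT (Iio b) ≤ typeLT D := type_le_iff'.2 ⟨f.ltEmbedding⟩
    have h4 : typeLT (Iio b) = typein (α := κ.ord.ToType) (· < ·) b := type_subrel (α := κ.ord.ToType) (· < ·) b
    rw [h4, hb] at h3
    exact absurd h3 (not_le.2 (Order.lt_succ _))
  have hsub : S ⊆ Iio b := by
    intro a ha
    by_contra h
    exact hb (hlow a ha b (not_lt.1 h))
  have hlt : #(Iio b) < κ := by simpa using mk_Iio_lt b (by simp)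
  exact (Cardinal.mk_le_mk_of_subset hsub).trans_lt hlt

end

theorem good_large {M : Type} [LinearOrder M] [WellFoundedLT M] (κ : Cardinal.{0})
    (D : Set M) (hD : κ ≤ #D) (a : κ.ord.ToType) :
    ∃ c ∈ D, Nonempty (Iio a ↪o (D ∩ Iio c : Set M)) := by
  have h1 : κ.ord ≤ Ordinal.type (fun x y : D => x < y) := by
    rw [Cardinal.ord_le, Ordinal.card_type]
    exact hD
  have h2 : Ordinal.type (fun x y : κ.ord.ToType => x < y) ≤ Ordinal.type (fun x y : D => x < y) := by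
    rw [Ordinal.type_toType]; exact h1
  rw [Ordinal.type_le_iff'] at h2
  obtain ⟨f⟩ := h2
  refine ⟨(f a : D).1, (f a).2, ⟨?_⟩⟩
  refine OrderEmbedding.ofStrictMono (fun x : Iio a => (⟨(f x.1 : D).1, (f x.1).2, ?_⟩ : (D ∩ Iio (f a : D).1 : Set M))) ?_
  · exact f.map_rel_iff.2 x.2
  · intro x y hxy
    exact f.map_rel_iff.2 hxy

theorem interleave {M : Type} [LinearOrder M] (δ : M) (A B : Set M)
    (hA : A ⊆ Iio δ) (hB : B ⊆ Iio δ) (hA' : ∀ β < δ, ∃ x ∈ A, β < x)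
    (hB' : ∀ β < δ, ∃ x ∈ B, β < x) (b : M) (hb : b < δ) :
    ∃ x y : ℕ → M, (∀ n, x n ∈ A) ∧ (∀ n, y n ∈ B) ∧ b < x 0 ∧ (∀ n, x n < y n) ∧
      ∀ n, y n < x (n + 1) := by
  have _ : Nonempty M := ⟨b⟩
  choose! fA hfA using hA'
  choose! fB hfB using hB'
  let Y : ℕ → M := fun n => Nat.rec b (fun _ v => fB (fA v)) n
  have hY0 : Y 0 = b := rfl
  have hYs : ∀ n, Y (n + 1) = fB (fA (Y n)) := fun n => rfl
  have hA1 : ∀ v < δ, fA v < δ := fun v hv => hA (hfA v hv).1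
  have hB1 : ∀ v < δ, fB v < δ := fun v hv => hB (hfB v hv).1
  have hY : ∀ n, Y n < δ := by
    intro n
    induction n with
    | zero => exact hb
    | succ n ih => rw [hYs]; exact hB1 _ (hA1 _ ih)
  refine ⟨fun n => fA (Y n), fun n => Y (n + 1), fun n => (hfA _ (hY n)).1, fun n => ?_, ?_,
    fun n => ?_, fun n => (hfA _ (hY (n + 1))).2⟩
  · show Y (n + 1) ∈ B
    rw [hYs]; exact (hfB _ (hA1 _ (hY n))).1
  · exact (hfA b hb).2
  · show fA (Y n) < Y (n + 1)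
    rw [hYs]; exact (hfB _ (hA1 _ (hY n))).2

/-- the blocks of `u` met by `s` -/
def blocks {M : Type} [LinearOrder M] (u : ℕ → M) (s : Set M) : Set ℕ :=
  {k | ∃ x ∈ s, u k ≤ x ∧ x < u (k + 1)}

theorem blocks_infinite {M : Type} [LinearOrder M] (γ : M) (u x : ℕ → M)
    (hu : StrictMono u) (huγ : ∀ n, u n < γ) (hu' : ∀ β < γ, ∃ n, β < u n)
    (hx : StrictMono x) (hxγ : ∀ n, x n < γ) (hx' : ∀ β < γ, ∃ n, β < x n) :
    (blocks u (range x)).Infinite := by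
  classical
  refine Set.infinite_of_forall_exists_gt (fun N => ?_)
  obtain ⟨n, hn⟩ := hx' (u (N + 1)) (huγ (N + 1))
  have hex : ∃ m, x n < u m := hu' (x n) (hxγ n)
  have hm := Nat.find_spec hex
  have hmin := fun j (hj : j < Nat.find hex) => Nat.find_min hex hj
  generalize Nat.find hex = m at *
  have hNm : N + 1 < m := by
    by_contra hcon
    push Not at hcon
    exact absurd (hn.trans (hm.trans_le (hu.monotone hcon))) (lt_irrefl _)
  obtain ⟨k, rfl⟩ : ∃ k, m = k + 1 := ⟨m - 1, by omega⟩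
  exact ⟨k, ⟨x n, ⟨n, rfl⟩, not_lt.1 (hmin k (Nat.lt_succ_self k)), hm⟩, by omega⟩

theorem blocks_sub {M : Type} [LinearOrder M] (γ : M) (u x : ℕ → M)
    (hu : StrictMono u) (huγ : ∀ n, u n < γ) (hu' : ∀ β < γ, ∃ n, β < u n)
    (Z : Set ℕ) (hZ : Z ⊆ blocks u (range x)) (hinf : Z.Infinite) :
      ∃ s : Set M, s ⊆ range x ∧ (∀ β < γ, ∃ z ∈ s, β < z) ∧ blocks u s = Z := by
  refine ⟨{z | z ∈ range x ∧ ∃ k ∈ Z, u k ≤ z ∧ z < u (k + 1)}, fun z hz => hz.1, ?_, ?_⟩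
  · intro β hβ
    obtain ⟨m, hm⟩ := hu' β hβ
    obtain ⟨k, hk, hmk⟩ := hinf.exists_gt m
    obtain ⟨z, hz, h1, h2⟩ := hZ hk
    exact ⟨z, ⟨hz, k, hk, h1, h2⟩, lt_of_lt_of_le hm ((hu.monotone hmk.le).trans h1)⟩
  · apply Set.Subset.antisymm
    · rintro k ⟨z, ⟨_, k', hk', h1, h2⟩, h3, h4⟩
      rcases lt_trichotomy k k' with h | h | h
      · exact absurd (lt_of_lt_of_le h4 ((hu.monotone (Nat.succ_le_of_lt h)).trans h1))
          (lt_irrefl _)
      · rw [h]; exact hk'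
      · exact absurd (lt_of_lt_of_le h2 ((hu.monotone (Nat.succ_le_of_lt h)).trans h3))
          (lt_irrefl _)
    · intro k hk
      obtain ⟨z, hz, h1, h2⟩ := hZ hk
      exact ⟨z, ⟨hz, k, hk, h1, h2⟩, h1, h2⟩

theorem below_union {M : Type} {ι : Type} (X' : Set M) (f : ι → Set M)
    (μ : Cardinal.{0}) (hμ : ℵ₀ ≤ μ) (hι : #ι ≤ μ) (hf : ∀ i, #(f i) ≤ μ) (h : X' ⊆ ⋃ i, f i) :
    #X' ≤ μ := by
  refine (Cardinal.mk_le_mk_of_subset h).trans ((Cardinal.mk_iUnion_le f).trans ?_)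
  refine (mul_le_mul' hι (ciSup_le' hf)).trans (Cardinal.mul_eq_self hμ).le

/-- Everything about cardinalities needed below `δ`. -/
theorem below {M : Type} [LinearOrder M] [WellFoundedLT M] (X : Set M) (δ₀ : M)
    (hX : X ⊆ Iio δ₀) (hc : Order.succ (2 ^ (ℵ₀ : Cardinal.{0})) ≤ #X) :
    ∃ δ : M, ∃ X' : Set M, X' ⊆ X ∧ X' ⊆ Iio δ ∧ #X' = Order.succ (2 ^ (ℵ₀ : Cardinal.{0})) ∧
      (∀ β < δ, ∃ x ∈ X', β < x) ∧
      (∀ y : ℕ → M, (∀ n, y n < δ) → ∃ β < δ, ∀ n, y n < β) ∧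
      (∀ D : Set M, D ⊆ Iio δ → (∀ β < δ, ∃ x ∈ D, β < x) →
        Order.succ (2 ^ (ℵ₀ : Cardinal.{0})) ≤ #D) := by
  classical
  set μ : Cardinal.{0} := 2 ^ (ℵ₀ : Cardinal.{0}) with hμd
  have hμ : ℵ₀ ≤ μ := (Cardinal.cantor ℵ₀).le
  have hne : ({δ : M | Order.succ μ ≤ #(X ∩ Iio δ : Set M)}).Nonempty := by
    refine ⟨δ₀, ?_⟩
    show Order.succ μ ≤ #(X ∩ Iio δ₀ : Set M)
    rw [inter_eq_left.2 hX]
    exact hc
  set δ : M := (wellFounded_lt (α := M)).min _ hne with hδd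
  have hδ : Order.succ μ ≤ #(X ∩ Iio δ : Set M) := (wellFounded_lt (α := M)).min_mem _ hne
  have hmin : ∀ β < δ, #(X ∩ Iio β : Set M) ≤ μ := by
    intro β hβ
    rw [← Order.lt_succ_iff]
    by_contra hcon
    rw [not_lt] at hcon
    exact (wellFounded_lt (α := M)).not_lt_min _ (show β ∈ {δ : M | Order.succ μ ≤ #(X ∩ Iio δ : Set M)} from hcon) hβ
  obtain ⟨X', hX'1, hX'2⟩ := Cardinal.le_mk_iff_exists_subset.1 hδ
  have hsmall : ∀ β < δ, #(X' ∩ Iic β : Set M) ≤ μ := by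
    intro β hβ
    have h1 : (X' ∩ Iic β : Set M) ⊆ insert β (X ∩ Iio β) := by
      rintro x ⟨hx1, hx2⟩
      rcases eq_or_lt_of_le (show x ≤ β from hx2) with h | h
      · exact Or.inl h
      · exact Or.inr ⟨(hX'1 hx1).1, h⟩
    refine (Cardinal.mk_le_mk_of_subset h1).trans (Cardinal.mk_insert_le.trans ?_)
    refine (add_le_add (hmin β hβ) (Cardinal.one_le_aleph0.trans hμ)).trans ?_
    exact (Cardinal.add_eq_self hμ).le
  have hbig : ¬ #X' ≤ μ := by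
    rw [hX'2]
    exact not_le.2 (Order.lt_succ μ)
  refine ⟨δ, X', fun x hx => (hX'1 hx).1, fun x hx => (hX'1 hx).2, hX'2, ?_, ?_, ?_⟩
  · intro β hβ
    by_contra hcon
    push Not at hcon
    exact hbig ((Cardinal.mk_le_mk_of_subset (show X' ⊆ X' ∩ Iic β from
      fun x hx => ⟨hx, hcon x hx⟩)).trans (hsmall β hβ))
  · intro y hy
    by_contra hcon
    push Not at hcon
    apply hbig
    apply below_union X' (fun n : ℕ => X' ∩ Iic (y n)) μ hμ (by rw [Cardinal.mk_nat]; exact hμ)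
      (fun n => hsmall _ (hy n))
    intro x hx
    obtain ⟨n, hn⟩ := hcon x (hX'1 hx).2
    exact mem_iUnion.2 ⟨n, hx, hn⟩
  · intro D hD hcof
    by_contra hcon
    rw [not_le, Order.lt_succ_iff] at hcon
    apply hbig
    apply below_union X' (fun d : D => X' ∩ Iic (d : M)) μ hμ hcon
      (fun d => hsmall _ (hD d.2))
    intro x hx
    obtain ⟨d, hd, hxd⟩ := hcof x (hX'1 hx).2
    exact mem_iUnion.2 ⟨⟨d, hd⟩, hx, hxd.le⟩

/-- `γ` is a limit point of the set `S` of elements of a linear order. -/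
def LimPt {M : Type} [LinearOrder M] (S : Set M) (γ : M) : Prop :=
  (∃ β, β < γ) ∧ ∀ β < γ, ∃ ξ ∈ S, β < ξ ∧ ξ < γ

/-- Coherent clubs on a well-order. -/
structure CoherentClubs {M : Type} [LinearOrder M] (κ : Cardinal.{0}) (C : M → Set M) : Prop where
  /-- `C δ` consists of predecessors of `δ` -/
  sub : ∀ δ, C δ ⊆ Iio δ
  /-- if the predecessors of `δ` have a cofinal subset of size at most `κ` then `C δ` is
  cofinal -/
  cofinal : ∀ δ, (∃ S : Set M, #S ≤ κ ∧ S ⊆ Iio δ ∧ ∀ β < δ, ∃ ξ ∈ S, β < ξ) →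
    ∀ β < δ, ∃ ξ ∈ C δ, β < ξ
  /-- `C δ` is closed below `δ` -/
  closed : ∀ δ, ∀ γ < δ, LimPt (C δ) γ → γ ∈ C δ
  /-- proper initial segments of `C δ` have size less than `κ` -/
  small : ∀ δ, ∀ γ ∈ C δ, #(C δ ∩ Iio γ : Set M) < κ
  /-- coherence -/
  coherent : ∀ δ, ∀ γ < δ, LimPt (C δ) γ → C γ = C δ ∩ Iio γ

/-- There is a surjection of the reals on a set containing all good colours. -/
theorem exists_E {M : Type} [LinearOrder M] [WellFoundedLT M] (D : Set M)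
    (hD : #D < Order.succ (2 ^ (ℵ₀ : Cardinal.{0}))) :
    ∃ E : (ℕ → Bool) → (Order.succ (2 ^ ℵ₀ : Cardinal.{0})).ord.ToType,
      ∀ a, Nonempty (Iio a ↪o D) → ∃ r, E r = a := by
  classical
  have hκ : ℵ₀ ≤ Order.succ (2 ^ (ℵ₀ : Cardinal.{0})) :=
    (Cardinal.cantor ℵ₀).le.trans (Order.le_succ _)
  have h := good_small _ hκ D hD
  rw [Order.lt_succ_iff] at h
  have h2 : #(ℕ → Bool) = 2 ^ (ℵ₀ : Cardinal.{0}) := by
    rw [← Cardinal.power_def, Cardinal.mk_bool, Cardinal.mk_nat]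
  obtain ⟨i⟩ := h.trans h2.ge
  have hne : Nonempty (Order.succ (2 ^ ℵ₀ : Cardinal.{0})).ord.ToType := by
    rw [← Cardinal.mk_ne_zero_iff, Cardinal.mk_ord_toType]
    exact (lt_of_lt_of_le Cardinal.aleph0_pos hκ).ne'
  refine ⟨fun r => if hr : ∃ a, i a = r then hr.choose.1 else Classical.choice hne, ?_⟩
  intro a ha
  have hex : ∃ a', i a' = i ⟨a, ha⟩ := ⟨_, rfl⟩
  refine ⟨i ⟨a, ha⟩, ?_⟩
  beta_reduce
  rw [dif_pos hex]
  exact congrArg Subtype.val (i.injective hex.choose_spec)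

/-- The case of bounded sets of a well-order with coherent clubs. -/
theorem bounded_case {M : Type} [LinearOrder M] [WellFoundedLT M] [hM : Nonempty M] (C : M → Set M)
    (hC : CoherentClubs (Order.succ (2 ^ (ℵ₀ : Cardinal.{0}))) C) :
    ∃ c : Set M → (Order.succ (2 ^ ℵ₀ : Cardinal.{0})).ord.ToType, ∀ (X : Set M) (δ₀ : M),
      X ⊆ Iio δ₀ → Order.succ (2 ^ (ℵ₀ : Cardinal.{0})) ≤ #X → ∀ a, ∃ s : Set M, s.Countable ∧
        s ⊆ X ∧ c s = a := by
  classical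
  obtain ⟨f, hf⟩ := bern
  -- colours associated with a point
  have hE : ∀ γ : M, ∃ E : (ℕ → Bool) → (Order.succ (2 ^ ℵ₀ : Cardinal.{0})).ord.ToType,
      #(C γ) < Order.succ (2 ^ (ℵ₀ : Cardinal.{0})) →
      ∀ a, Nonempty (Iio a ↪o C γ) → ∃ r, E r = a := by
    intro γ
    by_cases h : #(C γ) < Order.succ (2 ^ (ℵ₀ : Cardinal.{0}))
    · obtain ⟨E, hE⟩ := exists_E (C γ) h
      exact ⟨E, fun _ => hE⟩
    · obtain ⟨E, hE⟩ := exists_E (∅ : Set M) (by simp)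
      exact ⟨E, fun h' => absurd h' h⟩
  choose E hE using hE
  -- cofinal sequences
  have hu : ∀ γ : M, ∃ u : ℕ → M, (∃ x : ℕ → M, StrictMono x ∧ (∀ n, x n < γ) ∧
      ∀ β < γ, ∃ n, β < x n) → (StrictMono u ∧ (∀ n, u n < γ) ∧ ∀ β < γ, ∃ n, β < u n) := by
    intro γ
    by_cases h : ∃ x : ℕ → M, StrictMono x ∧ (∀ n, x n < γ) ∧ ∀ β < γ, ∃ n, β < x n
    · obtain ⟨x, hx⟩ := h
      exact ⟨x, fun _ => hx⟩
    · exact ⟨fun _ => γ, fun h' => absurd h' h⟩
  choose u hu using hu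
  -- least strict upper bounds
  have hl : ∀ s : Set M, ∃ γ : M, ∀ γ' : M, (∀ x ∈ s, x < γ') → (∀ β < γ', ∃ x ∈ s, β < x) →
      γ = γ' := by
    intro s
    by_cases h : ∃ γ' : M, (∀ x ∈ s, x < γ') ∧ (∀ β < γ', ∃ x ∈ s, β < x)
    · obtain ⟨γ, h1, h2⟩ := h
      refine ⟨γ, fun γ' h3 h4 => ?_⟩
      rcases lt_trichotomy γ γ' with h | h | h
      · obtain ⟨x, hx, hx'⟩ := h4 _ h
        exact absurd (h1 x hx) (not_lt.mpr hx'.le)
      · exact h
      · obtain ⟨x, hx, hx'⟩ := h2 _ h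
        exact absurd (h3 x hx) (not_lt.mpr hx'.le)
    · obtain ⟨γ⟩ := hM
      exact ⟨γ, fun γ' h1 h2 => absurd ⟨γ', h1, h2⟩ h⟩
  choose l hl using hl
  refine ⟨fun s => E (l s) (f (blocks (u (l s)) s)), ?_⟩
  intro X δ₀ hX hc a
  obtain ⟨δ, X', hX'X, hX'δ, hX'c, hX'cof, hbd, hD⟩ := below X δ₀ hX hc
  have hCcof : ∀ β < δ, ∃ ξ ∈ C δ, β < ξ := hC.cofinal δ ⟨X', hX'c.le, hX'δ, hX'cof⟩
  have hCc := hD (C δ) (hC.sub δ) hCcof
  obtain ⟨c₀, hc₀, ⟨g⟩⟩ := good_large _ (C δ) hCc a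
  obtain ⟨x, y, hxX, hyC, h0, hxy, hyx⟩ := interleave δ X' (C δ) hX'δ (hC.sub δ) hX'cof hCcof c₀
    (hC.sub δ hc₀)
  have hxm : StrictMono x := strictMono_nat_of_lt_succ fun n => (hxy n).trans (hyx n)
  obtain ⟨β₀, hβ₀, hβ₀'⟩ := hbd x (fun n => hX'δ (hxX n))
  -- the supremum
  obtain ⟨γ, hγ1, hγ2⟩ : ∃ γ : M, (∀ n, x n < γ) ∧ ∀ β < γ, ∃ n, β ≤ x n := by
    have hne : ({z : M | ∀ n, x n < z}).Nonempty := ⟨β₀, hβ₀'⟩
    refine ⟨wellFounded_lt.min _ hne, wellFounded_lt.min_mem _ hne, fun β hβ => ?_⟩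
    by_contra hcon
    push Not at hcon
    exact wellFounded_lt.not_lt_min {z : M | ∀ n, x n < z} hcon hβ
  have hγ3 : ∀ β < γ, ∃ n, β < x n := fun β hβ => by
    obtain ⟨n, hn⟩ := hγ2 β hβ
    exact ⟨n + 1, lt_of_le_of_lt hn (hxm (Nat.lt_succ_self n))⟩
  have hγδ : γ < δ := by
    refine lt_of_le_of_lt ?_ hβ₀
    by_contra hcon
    obtain ⟨n, hn⟩ := hγ3 β₀ (not_le.mp hcon)
    exact absurd (hβ₀' n) (not_lt.mpr hn.le)
  have hlim : LimPt (C δ) γ := by
    refine ⟨⟨x 0, hγ1 0⟩, fun β hβ => ?_⟩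
    obtain ⟨n, hn⟩ := hγ3 β hβ
    exact ⟨y n, hyC n, hn.trans (hxy n), (hyx n).trans (hγ1 (n + 1))⟩
  have hcoh := hC.coherent δ γ hγδ hlim
  have hcard : #(C γ) < Order.succ (2 ^ (ℵ₀ : Cardinal.{0})) := by
    have hmem := hC.closed δ γ hγδ hlim
    rw [hcoh]
    exact hC.small δ γ hmem
  have hgood : Nonempty (Iio a ↪o C γ) := by
    refine ⟨g.trans (OrderEmbedding.ofMapLEIff (fun z => ⟨z.1, ?_⟩) fun _ _ => Iff.rfl)⟩
    rw [hcoh]
    exact ⟨z.2.1, lt_trans z.2.2 (h0.trans (hγ1 0))⟩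
  obtain ⟨r, hr⟩ := hE γ hcard a hgood
  obtain ⟨hu1, hu2, hu3⟩ := hu γ ⟨x, hxm, hγ1, hγ3⟩
  obtain ⟨Z, hZ1, hZ2, hZ3⟩ := hf _ (blocks_infinite γ (u γ) x hu1 hu2 hu3 hxm hγ1 hγ3) r
  obtain ⟨s, hs1, hs2, hs3⟩ := blocks_sub γ (u γ) x hu1 hu2 hu3 Z hZ1 hZ2
  have hls : l s = γ := by
    refine hl s γ (fun z hz => ?_) hs2
    obtain ⟨n, rfl⟩ := hs1 hz
    exact hγ1 n
  refine ⟨s, (countable_range x).mono hs1, fun z hz => ?_, ?_⟩
  · obtain ⟨n, rfl⟩ := hs1 hz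
    exact hX'X (hxX n)
  · simp only [hls, hs3, hZ3, hr]

/-- The positive half. -/
theorem positive (hyp : ∀ (M : Type) (_ : LinearOrder M), WellFoundedLT M →
      ∃ C : M → Set M, CoherentClubs (Order.succ (2 ^ (ℵ₀ : Cardinal.{0}))) C) (M : Type) :
    ∃ c : {s : Set M // s.Countable} → (Order.succ (2 ^ ℵ₀ : Cardinal.{0})).ord.ToType,
      ∀ X : Set M, #X = Order.succ (2 ^ (ℵ₀ : Cardinal.{0})) → ∀ a, ∃ s : {s : Set M // s.Countable},
        s.1 ⊆ X ∧ c s = a := by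
  classical
  let _ : LinearOrder M := linearOrderOfSTO (WellOrderingRel (α := M))
  have _ : WellFoundedLT M := ⟨WellOrderingRel.isWellOrder.wf⟩
  obtain ⟨C, hC⟩ := hyp (WithTop M) inferInstance inferInstance
  obtain ⟨c, hc⟩ := bounded_case C hC
  refine ⟨fun s => c ((fun x : M => (x : WithTop M)) '' s.1), fun X hX a => ?_⟩
  obtain ⟨s, hs1, hs2, hs3⟩ := hc ((fun x : M => (x : WithTop M)) '' X) ⊤ (by
    rintro _ ⟨x, -, rfl⟩
    exact WithTop.coe_lt_top x) (by rw [Cardinal.mk_image_eq WithTop.coe_injective, hX]) a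
  refine ⟨⟨(fun x : M => (x : WithTop M)) ⁻¹' s, hs1.preimage WithTop.coe_injective⟩, ?_, ?_⟩
  · intro x hx
    obtain ⟨x', hx', h⟩ := hs2 hx
    rwa [← WithTop.coe_injective h]
  · show c _ = a
    rw [Set.image_preimage_eq_of_subset, hs3]
    intro z hz
    obtain ⟨x', -, h⟩ := hs2 hz
    exact ⟨x', h⟩

end Pool.Agent.Helper669.KE
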