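import Mathlib
import Pool.Agent.Helper669.KFinal

set_option autoImplicit false

/-!
# Huge cardinals and the Levy collapse
-/

namespace Pool.Agent.Helper669.K

open Cardinal Pool.Agent.Helper669.Forcing

section

variable {P : Type} [Preorder P]

/-- The named subset `S` of `X` is countable: some function from `ℕ` to `X` covers it. -/
def IsCtbl {X : Type} (S : X → Set P) : Set P :=
  fex fun f : ℕ → X → Set P =>
    fand (IsFun f) (fall fun y => fimp (meets (S y)) (fex fun n => meets (f n y)))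

/-- `S` is a subset of `T`. -/
def Sub {X : Type} (S T : X → Set P) : Set P := fall fun y => fimp (meets (S y)) (meets (T y))

/-- `c` names a function which assigns to every countable subset of `X` an element of `K`:
a colouring of the countable subsets of `X`. -/
def IsColouring {X K : Type} (c : (X → Set P) → K → Set P) : Set P :=
  fall fun S => fimp (IsCtbl S)
    (fand (fex fun a => meets (c S a))
      (fand
        (fall fun a => fall fun b =>
          fimp (fand (meets (c S a)) (meets (c S b))) (fground (a = b)))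
        (fall fun T => fimp (fand (Sub S T) (Sub T S))
          (fall fun a => fimp (meets (c S a)) (meets (c T a))))))

/-- The named subset `X` of `M` has the cardinality of `K`: there is a one-to-one function from
`K` onto `X`. -/
def SameSize {K M : Type} (X : M → Set P) : Set P :=
  fex fun R : K → M → Set P => fand (IsFun R) (fand (IsInj R)
    (fall fun y => fand (fimp (meets (X y)) (fex fun x => meets (R x y)))
      (fall fun x => fimp (meets (R x y)) (meets (X y)))))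

/-- Every colouring of the countable subsets of `M` with the elements of `K` as colours misses a
colour on some set of the cardinality of `K`: there are `X ⊆ M` with `|X| = |K|` and a colour
which no countable subset of `X` gets. -/
def MissesColour (P : Type) [Preorder P] (K M : Type) : Set P :=
  fall fun c : (M → Set P) → K → Set P => fimp (IsColouring c)
    (fex fun X : M → Set P => fand (SameSize (K := K) X) (fex fun a : K =>
      fall fun S : M → Set P => fimp (fand (IsCtbl S) (Sub S X)) (fnot (meets (c S a)))))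

/-- The continuum hypothesis holds in the extension: some function from `ω₁` to the set of all
subsets of `ℕ` is onto. -/
def ForcesCH (P : Type) [Preorder P] : Set P :=
  fex fun F : (ℵ₁ : Cardinal.{0}).ord.ToType → ℕ → Set P => fall fun X : ℕ → Set P =>
    fex fun i => fand (Sub (F i) X) (Sub X (F i))

/-- Every cardinal below `κ` has cardinality at most `ℵ₁` in the extension: some partial function
from `ω₁` is onto it. -/
def CollapsedBelow (P : Type) [Preorder P] (κ : Cardinal.{0}) : Set P :=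
  fall fun ν : Cardinal.{0} => fall fun _ : ν < κ =>
    fex fun R : (ℵ₁ : Cardinal.{0}).ord.ToType → ν.out → Set P =>
      fand (fall fun x => fall fun y => fall fun y' =>
        fimp (fand (meets (R x y)) (meets (R x y'))) (fground (y = y'))) (IsOnto R)

end

/-- `κ` is a huge cardinal with target `m`: there is a `κ`-complete, fine and normal ultrafilter
on the set of all subsets of `m`, which contains the set of the subsets of order type `κ`. -/
def IsHuge (κ m : Cardinal.{0}) : Prop :=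
  ℵ₀ < κ ∧ κ < m ∧ ∃ U : Ultrafilter (Set m.ord.ToType),
    (∀ ν < κ, ∀ A : ν.out → Set (Set m.ord.ToType), (∀ i, A i ∈ U) → (⋂ i, A i) ∈ U) ∧
    (∀ a : m.ord.ToType, {X : Set m.ord.ToType | a ∈ X} ∈ U) ∧
    (∀ A : m.ord.ToType → Set (Set m.ord.ToType), (∀ a, A a ∈ U) →
      {X : Set m.ord.ToType | ∀ a ∈ X, X ∈ A a} ∈ U) ∧
    {X : Set m.ord.ToType | Ordinal.type (fun a b : X => a < b) = κ.ord} ∈ U

/-- A condition of the Levy collapse `Col(ω₁, <κ)`: a countable partial function from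
`K × W` to `K` with values `g (β, ξ) < β`, given by its graph. -/
structure LC (W K : Type) [LinearOrder K] where
  /-- the graph -/
  g : Set (K × W × K)
  cnt : g.Countable
  fn : ∀ β ξ γ γ', (β, ξ, γ) ∈ g → (β, ξ, γ') ∈ g → γ = γ'
  val : ∀ β ξ γ, (β, ξ, γ) ∈ g → γ < β

instance (W K : Type) [LinearOrder K] : Preorder (LC W K) where
  le p q := q.g ⊆ p.g
  le_refl _ := subset_rfl
  le_trans _ _ _ h h' := h'.trans h

theorem LC.le_iff {W K : Type} [LinearOrder K] {p q : LC W K} : p ≤ q ↔ q.g ⊆ p.g := Iff.rfl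

theorem IsHuge.regular {κ m : Cardinal.{0}} (h : IsHuge κ m) :
    κ.IsRegular ∧ ∀ μ < κ, 2 ^ μ < κ := by
  classical
  obtain ⟨hκ, hκm, U, hU1, hU2, -, hU4⟩ := h
  have hlt : κ.ord < m.ord := Cardinal.ord_lt_ord.2 hκm
  obtain ⟨i, b0, hib, hinj⟩ : ∃ (i : κ.ord.ToType → m.ord.ToType) (b0 : m.ord.ToType),
      (∀ k, i k < b0) ∧ Function.Injective i := by
    have F := Ordinal.principalSegToType hlt
    exact ⟨F, F.top, fun k => F.lt_top k, F.injective⟩
  have hK : #κ.ord.ToType = κ := Cardinal.mk_ord_toType κ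
  have hne : Nonempty κ.ord.ToType := by
    rw [← Cardinal.mk_ne_zero_iff, hK]
    exact (lt_trans Cardinal.aleph0_pos hκ).ne'
  have hex : {X : Set m.ord.ToType | ∃ k, i k ∉ X} ∈ U := by
    filter_upwards [hU2 b0, hU4] with X hb hX
    by_contra hcon
    push Not at hcon
    have hX' : Ordinal.type (fun a b : X => a < b) = κ.ord := hX
    have h1 : Ordinal.typein (fun a b : X => a < b) ⟨b0, hb⟩ < κ.ord := by
      rw [← hX']
      exact Ordinal.typein_lt_type _ _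
    rw [Cardinal.lt_ord, Ordinal.card_typein] at h1
    have h2 : #κ.ord.ToType ≤ #{ y : X // y < ⟨b0, hb⟩ } :=
      Cardinal.mk_le_of_injective (f := fun k => ⟨⟨i k, hcon k⟩, hib k⟩) (by
        intro a b hab
        apply hinj
        simpa using hab)
    rw [hK] at h2
    exact absurd h1 (not_lt.2 h2)
  have hf : ∃ f : Set m.ord.ToType → κ.ord.ToType, ∀ X, (∃ k, i k ∉ X) → i (f X) ∉ X := by
    have : ∀ X : Set m.ord.ToType, ∃ k : κ.ord.ToType, (∃ k, i k ∉ X) → i k ∉ X := by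
      intro X
      by_cases hX : ∃ k, i k ∉ X
      · obtain ⟨k, hk⟩ := hX
        exact ⟨k, fun _ => hk⟩
      · exact ⟨hne.some, fun h => absurd h hX⟩
    exact ⟨fun X => (this X).choose, fun X => (this X).choose_spec⟩
  obtain ⟨f, hf⟩ := hf
  refine J1_core hκ {A | {X | f X ∈ A} ∈ U} ?_ ?_ ?_ ?_
  · intro A B hA hAB
    exact Filter.mem_of_superset (show {X | f X ∈ A} ∈ U from hA) (fun X hX => hAB hX)
  · intro A
    show {X | f X ∈ A} ∈ U ↔ ¬ ({X | f X ∈ Aᶜ} ∈ U)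
    have h1 : {X | f X ∈ Aᶜ} = {X | f X ∈ A}ᶜ := rfl
    rw [h1, Ultrafilter.compl_mem_iff_notMem, not_not]
  · intro ν hν X hX
    have h1 := hU1 ν hν (fun j => {Y | f Y ∈ X j}) hX
    show {Y | f Y ∈ ⋂ j, X j} ∈ U
    have h2 : {Y | f Y ∈ ⋂ j, X j} = ⋂ j, {Y | f Y ∈ X j} := by
      ext Y
      simp
    rw [h2]
    exact h1
  · intro a ha
    have h1 : {X | f X ∈ ({a} : Set κ.ord.ToType)} ∈ U := ha
    have h2 : (∅ : Set (Set m.ord.ToType)) ∈ U := by
      filter_upwards [h1, hex, hU2 (i a)] with X hX1 hX2 hX3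
      have h3 := hf X hX2
      rw [Set.mem_singleton_iff.1 hX1] at h3
      exact h3 hX3
    exact Filter.empty_notMem (U : Filter (Set m.ord.ToType)) h2


theorem IsHuge.bounded {κ m : Cardinal.{0}} (h : IsHuge κ m) (hκ : κ.IsRegular)
    (G : Set m.ord.ToType → κ.ord.ToType) :
    ∃ X : Set m.ord.ToType, #X = κ ∧ ∃ b : κ.ord.ToType, ∀ s ⊆ X, s.Countable → G s < b := by
  obtain ⟨h0, hm, U, hcomp, hfine, hnorm, htype⟩ := h
  have hlt : Ordinal.type (fun a b : κ.ord.ToType => a < b) <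
      Ordinal.type (fun a b : m.ord.ToType => a < b) := by
    have h1 : Ordinal.type (fun a b : κ.ord.ToType => a < b) = κ.ord := Ordinal.type_toType _
    have h2 : Ordinal.type (fun a b : m.ord.ToType => a < b) = m.ord := Ordinal.type_toType _
    rw [h1, h2]
    exact ord_lt_ord.2 hm
  obtain ⟨f⟩ := Ordinal.type_lt_iff.1 hlt
  have hi : Function.Injective f := f.injective
  have hb : ∀ k, f k < f.top := fun k => f.lt_top k
  have key : {X : Set m.ord.ToType | ∀ s ⊆ X, s.Countable → f (G s) ∈ X} ∈ U := by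
    by_contra hcon
    rw [← Ultrafilter.compl_mem_iff_notMem] at hcon
    have hBU := Filter.inter_mem hcon (hfine (f (G ∅)))
    set B := {X : Set m.ord.ToType | ∀ s ⊆ X, s.Countable → f (G s) ∈ X}ᶜ ∩
      {X : Set m.ord.ToType | f (G ∅) ∈ X} with hB
    have hx : ∀ X : Set m.ord.ToType, ∃ x : ℕ → m.ord.ToType,
        X ∈ B → (∀ n, x n ∈ X) ∧ f (G (Set.range x)) ∉ X := by
      intro X
      by_cases hXB : X ∈ B
      · obtain ⟨h1, h2⟩ := hXB
        have h1' : ¬ ∀ s ⊆ X, s.Countable → f (G s) ∈ X := h1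
        have h2' : f (G ∅) ∈ X := h2
        push Not at h1'
        obtain ⟨s, hs, hsc, hsX⟩ := h1'
        have hne : s.Nonempty := by
          rw [Set.nonempty_iff_ne_empty]
          rintro rfl
          exact hsX h2'
        obtain ⟨x, rfl⟩ := hsc.exists_eq_range hne
        exact ⟨x, fun _ => ⟨fun n => hs ⟨n, rfl⟩, hsX⟩⟩
      · exact ⟨fun _ => f (G ∅), fun h => absurd h hXB⟩
    choose x hx using hx
    have hconst : ∀ n, ∃ a, {X : Set m.ord.ToType | x X n = a} ∈ U := by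
      intro n
      by_contra hno
      push Not at hno
      have h1 : ∀ a, {X : Set m.ord.ToType | x X n ≠ a} ∈ U :=
        fun a => Ultrafilter.compl_mem_iff_notMem.2 (hno a)
      have h2 := hnorm (fun a => {X | x X n ≠ a}) h1
      obtain ⟨X, hX1, hX2⟩ := Ultrafilter.nonempty_of_mem (Filter.inter_mem h2 hBU)
      exact hX1 _ ((hx X hX2).1 n) rfl
    choose a ha using hconst
    obtain ⟨e⟩ : Nonempty ((ℵ₀ : Cardinal.{0}).out ≃ ℕ) := by
      rw [← Cardinal.eq]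
      simp
    have h3 := hcomp ℵ₀ h0 (fun j => {X | x X (e j) = a (e j)}) (fun j => ha _)
    obtain ⟨X, ⟨hX1, hX2⟩, hX3⟩ := Ultrafilter.nonempty_of_mem
      (Filter.inter_mem (Filter.inter_mem h3 hBU) (hfine (f (G (Set.range a)))))
    have hxa : x X = a := by
      funext n
      have h4 := Set.mem_iInter.1 hX1 (e.symm n)
      simpa using h4
    have h5 := (hx X hX2).2
    rw [hxa] at h5
    exact h5 hX3
  obtain ⟨X, ⟨hX1, hX2⟩, hX3⟩ := Ultrafilter.nonempty_of_mem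
    (Filter.inter_mem (Filter.inter_mem key (hfine f.top)) htype)
  have hX3' : Ordinal.type (fun a b : X => a < b) = κ.ord := hX3
  refine ⟨X, ?_, ?_⟩
  · have h6 := congrArg Ordinal.card hX3'
    simpa using h6
  · have hcard : #{k : κ.ord.ToType | f k ∈ X} < κ := by
      have h7 := Ordinal.typein_lt_type (fun a b : X => a < b) ⟨f.top, hX2⟩
      rw [hX3', lt_ord, Ordinal.card_typein] at h7
      refine lt_of_le_of_lt ?_ h7
      refine Cardinal.mk_le_of_injective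
        (f := fun k : {k : κ.ord.ToType | f k ∈ X} => ⟨⟨f k.1, k.2⟩, hb k.1⟩) ?_
      intro k k' hkk
      have h8 := congrArg (fun z => ((z.1 : X) : m.ord.ToType)) hkk
      exact Subtype.ext (hi h8)
    have hnc : ¬ IsCofinal {k : κ.ord.ToType | f k ∈ X} := by
      intro hc
      have h9 := Order.cof_le hc
      rw [Ordinal.cof_toType, hκ.cof_ord] at h9
      exact absurd hcard (not_lt.2 h9)
    obtain ⟨b, hbb⟩ := not_isCofinal_iff.1 hnc
    exact ⟨b, fun s hs hsc => hbb _ (hX1 s hs hsc)⟩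


theorem LC.dirClosed {W K : Type} [LinearOrder K] : DirClosed ℵ₁ (LC W K) := by
  intro D hD _ hdir
  have hcnt : D.Countable := (Cardinal.countable_iff_lt_aleph_one D).2 hD
  refine ⟨⟨⋃ a ∈ D, a.g, hcnt.biUnion fun a _ => a.cnt, ?_, ?_⟩, ?_⟩
  · intro β ξ γ γ' h h'
    rw [Set.mem_iUnion₂] at h h'
    obtain ⟨a, ha, h⟩ := h
    obtain ⟨b, hb, h'⟩ := h'
    obtain ⟨c, hc, hca, hcb⟩ := hdir a ha b hb
    exact c.fn β ξ γ γ' (hca h) (hcb h')
  · intro β ξ γ h
    rw [Set.mem_iUnion₂] at h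
    obtain ⟨a, ha, h⟩ := h
    exact a.val β ξ γ h
  · intro a ha
    exact Set.subset_biUnion_of_mem (u := fun a : LC W K => a.g) ha


theorem LC_cc_bdd {κ : Cardinal.{0}} (hκ : κ.IsRegular) {α : Type} (hα : #α < κ)
    (u : α → κ.ord.ToType) : ∃ B, ∀ a, u a < B := by
  have h : ¬ IsCofinal (Set.range u) := by
    intro h
    have h1 := Order.cof_le h
    have h2 : #(Set.range u) ≤ #α := Cardinal.mk_range_le
    have h3 : Order.cof κ.ord.ToType = κ := by
      rw [Ordinal.cof_toType, hκ.cof_ord]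
    rw [h3] at h1
    exact absurd (h1.trans h2) (not_le.2 hα)
  obtain ⟨x, hx⟩ := not_isCofinal_iff.1 h
  exact ⟨x, fun a => hx _ ⟨a, rfl⟩⟩

/-- the arity of the closure -/
abbrev LC_cc_beta : Bool → Type := fun b => if b then ℕ else Empty

noncomputable def LC_cc_eval {K : Type} (k : K) (s : (ℕ → K) → K) :
    WType LC_cc_beta → K :=
  WType.elim K (fun x => match x with
    | ⟨true, f⟩ => s f
    | ⟨false, _⟩ => k)

theorem LC_cc_eval_true {K : Type} (k : K) (s : (ℕ → K) → K) (f : ℕ → WType LC_cc_beta) :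
    LC_cc_eval k s (WType.mk true f) = s (fun n => LC_cc_eval k s (f n)) := rfl

theorem LC_cc_eval_card {K : Type} (k : K) (s : (ℕ → K) → K) {κ : Cardinal.{0}}
    (h2 : ∀ μ < κ, 2 ^ μ < κ) (h1 : ℵ₁ < κ) : #(WType LC_cc_beta) < κ := by
  have h : #(WType LC_cc_beta) ≤ 2 ^ ℵ₀ := by
    apply WType.cardinalMk_le_of_le
    have h3 : ∀ a : Bool, ((2 : Cardinal.{0}) ^ (ℵ₀ : Cardinal.{0})) ^ #(LC_cc_beta a) ≤ 2 ^ ℵ₀ := by
      intro a
      have h4 : #(LC_cc_beta a) ≤ ℵ₀ := by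
        cases a
        · simp [LC_cc_beta]
        · simp [LC_cc_beta]
      calc ((2 : Cardinal.{0}) ^ (ℵ₀ : Cardinal.{0})) ^ #(LC_cc_beta a)
          ≤ ((2 : Cardinal.{0}) ^ (ℵ₀ : Cardinal.{0})) ^ (ℵ₀ : Cardinal.{0}) :=
            Cardinal.power_le_power_left (Cardinal.power_ne_zero _ two_ne_zero) h4
        _ = 2 ^ ℵ₀ := by rw [← Cardinal.power_mul, Cardinal.aleph0_mul_aleph0]
    refine (Cardinal.sum_le_sum _ _ h3).trans ?_
    rw [Cardinal.sum_const', Cardinal.mk_bool]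
    refine (Cardinal.mul_le_max_of_aleph0_le_right ?_).trans ?_
    · exact (Cardinal.cantor _).le
    · rw [max_le_iff]
      refine ⟨?_, le_rfl⟩
      exact (Cardinal.natCast_lt_aleph0 (n := 2)).le.trans (Cardinal.cantor _).le
  refine h.trans_lt (h2 _ (lt_trans ?_ h1))
  exact aleph0_lt_aleph_one

theorem LC_cc_closed {κ : Cardinal.{0}} (hκ : κ.IsRegular) (h2 : ∀ μ < κ, 2 ^ μ < κ)
    (h1 : ℵ₁ < κ) (h : κ.ord.ToType → κ.ord.ToType) :
    ∃ δ : κ.ord.ToType, (∃ x, x < δ) ∧ ∀ b : ℕ → κ.ord.ToType, (∀ n, b n < δ) →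
      ∃ δ' < δ, (∀ n, b n < δ') ∧ h δ' ≤ δ := by
  have h0 : ℵ₀ < κ := lt_trans aleph0_lt_aleph_one h1
  have hs : ∀ b : ℕ → κ.ord.ToType, ∃ c, ∀ n, b n < c ∧ h (b n) < c := by
    intro b
    obtain ⟨c, hc⟩ := LC_cc_bdd hκ (α := ℕ ⊕ ℕ) (by simpa using h0)
      (Sum.elim b (fun n => h (b n)))
    exact ⟨c, fun n => ⟨hc (Sum.inl n), hc (Sum.inr n)⟩⟩
  choose s hs using hs
  obtain ⟨k⟩ : Nonempty κ.ord.ToType := by
    rw [Ordinal.nonempty_toType_iff]
    exact hκ.ord_pos.ne'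
  obtain ⟨D, hD⟩ := LC_cc_bdd hκ (LC_cc_eval_card k s h2 h1) (LC_cc_eval k s)
  obtain ⟨δ, hδ, hmin⟩ := WellFounded.has_min (wellFounded_lt (α := κ.ord.ToType))
    {x | ∀ a, LC_cc_eval k s a < x} ⟨D, hD⟩
  refine ⟨δ, ⟨_, hδ (WType.mk false Empty.elim)⟩, fun b hb => ?_⟩
  have h3 : ∀ n, ∃ a, b n ≤ LC_cc_eval k s a := by
    intro n
    by_contra hcon
    push Not at hcon
    exact hmin (b n) hcon (hb n)
  choose a ha using h3
  refine ⟨LC_cc_eval k s (WType.mk true a), hδ _, fun n => ?_, ?_⟩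
  · rw [LC_cc_eval_true]
    exact (ha n).trans_lt (hs (fun n => LC_cc_eval k s (a n)) n).1
  · have h4 := (hs (fun _ => LC_cc_eval k s (WType.mk true a)) 0).2
    have h5 := hδ (WType.mk true (fun _ => WType.mk true a))
    rw [LC_cc_eval_true] at h5
    exact (h4.trans h5).le

theorem LC_cc_count {κ : Cardinal.{0}} (hκ : κ.IsRegular) (h2 : ∀ μ < κ, 2 ^ μ < κ)
    (h1 : ℵ₁ < κ) (δ : κ.ord.ToType) :
    #{p : LC (ℵ₁ : Cardinal.{0}).ord.ToType κ.ord.ToType // ∀ x ∈ p.g, x.1 < δ} < κ := by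
  have h0 : ℵ₀ < κ := lt_trans aleph0_lt_aleph_one h1
  have hA : #(Set.Iio δ) < κ := Cardinal.mk_Iio_toType_ord_lt δ
  have hW : #((ℵ₁ : Cardinal.{0}).ord.ToType) < κ := by simpa using h1
  have hB : #(Set (Set.Iio δ × (ℵ₁ : Cardinal.{0}).ord.ToType × Set.Iio δ)) < κ := by
    rw [Cardinal.mk_set]
    apply h2
    rw [Cardinal.mk_prod, Cardinal.mk_prod]
    simp only [Cardinal.lift_id]
    exact Cardinal.mul_lt_of_lt hκ.aleph0_le hA (Cardinal.mul_lt_of_lt hκ.aleph0_le hW hA)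
  refine lt_of_le_of_lt ?_ hB
  refine Cardinal.mk_le_of_injective
    (f := fun p => {y | ((y.1 : κ.ord.ToType), y.2.1, (y.2.2 : κ.ord.ToType)) ∈ p.1.g}) ?_
  intro p q hpq
  have key : ∀ (p q : {p : LC (ℵ₁ : Cardinal.{0}).ord.ToType κ.ord.ToType // ∀ x ∈ p.g, x.1 < δ}),
      ({y : Set.Iio δ × (ℵ₁ : Cardinal.{0}).ord.ToType × Set.Iio δ |
        ((y.1 : κ.ord.ToType), y.2.1, (y.2.2 : κ.ord.ToType)) ∈ p.1.g} : Set _) =
      {y | ((y.1 : κ.ord.ToType), y.2.1, (y.2.2 : κ.ord.ToType)) ∈ q.1.g} →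
      p.1.g ⊆ q.1.g := by
    rintro p q hpq ⟨β, ξ, γ⟩ hx
    have hβ : β < δ := p.2 _ hx
    have hγ : γ < δ := (p.1.val _ _ _ hx).trans hβ
    have h3 : ((⟨β, hβ⟩, ξ, ⟨γ, hγ⟩) : Set.Iio δ × (ℵ₁ : Cardinal.{0}).ord.ToType × Set.Iio δ) ∈
        {y : Set.Iio δ × (ℵ₁ : Cardinal.{0}).ord.ToType × Set.Iio δ |
        ((y.1 : κ.ord.ToType), y.2.1, (y.2.2 : κ.ord.ToType)) ∈ p.1.g} := hx
    rw [hpq] at h3
    exact h3
  have hg : p.1.g = q.1.g := Set.Subset.antisymm (key p q hpq) (key q p hpq.symm)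
  obtain ⟨⟨pg, _, _, _⟩, _⟩ := p
  obtain ⟨⟨qg, _, _, _⟩, _⟩ := q
  simp only at hg
  subst hg
  rfl

theorem LC_cc_bound {κ : Cardinal.{0}} (hκ : κ.IsRegular) (h1 : ℵ₁ < κ)
    (p : LC (ℵ₁ : Cardinal.{0}).ord.ToType κ.ord.ToType) :
    ∃ B, ∀ x ∈ p.g, x.1 < B := by
  have h0 : ℵ₀ < κ := lt_trans aleph0_lt_aleph_one h1
  have h3 : #(p.g) < κ := lt_of_le_of_lt (Cardinal.le_aleph0_iff_set_countable.2 p.cnt) h0
  obtain ⟨B, hB⟩ := LC_cc_bdd hκ h3 (fun x => x.1.1)
  exact ⟨B, fun x hx => hB ⟨x, hx⟩⟩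

/-- the restriction of a condition to the coordinates below `δ` -/
def LC_cc_restr {W K : Type} [LinearOrder K] (p : LC W K) (δ : K) : LC W K where
  g := {x | x ∈ p.g ∧ x.1 < δ}
  cnt := p.cnt.mono fun _ h => h.1
  fn β ξ γ γ' h h' := p.fn β ξ γ γ' h.1 h'.1
  val β ξ γ h := p.val β ξ γ h.1

/-- compatibility of the graphs -/
def LC_cc_comp {W K : Type} [LinearOrder K] (p q : LC W K) : Prop :=
  ∀ β ξ γ γ', (β, ξ, γ) ∈ p.g → (β, ξ, γ') ∈ q.g → γ = γ'

theorem LC_cc_refl {κ : Cardinal.{0}} (hκ : κ.IsRegular) (h2 : ∀ μ < κ, 2 ^ μ < κ) (h1 : ℵ₁ < κ)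
    (ι : Type) (f : ι → LC (ℵ₁ : Cardinal.{0}).ord.ToType κ.ord.ToType) (δ : κ.ord.ToType) :
    ∃ B : κ.ord.ToType, ∀ p : LC (ℵ₁ : Cardinal.{0}).ord.ToType κ.ord.ToType,
      (∀ x ∈ p.g, x.1 < δ) → (∃ i, LC_cc_comp p (f i)) →
      ∃ j, LC_cc_comp p (f j) ∧ ∀ x ∈ (f j).g, x.1 < B := by
  classical
  choose b hb using fun p => LC_cc_bound hκ h1 p
  obtain ⟨k⟩ : Nonempty κ.ord.ToType := by
    rw [Ordinal.nonempty_toType_iff]
    exact hκ.ord_pos.ne'
  obtain ⟨B, hB⟩ := LC_cc_bdd hκ (LC_cc_count hκ h2 h1 δ)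
    (fun p => if h : ∃ i, LC_cc_comp p.1 (f i) then b (f h.choose) else k)
  refine ⟨B, fun p hp h => ⟨h.choose, h.choose_spec, fun x hx => ?_⟩⟩
  have h3 := hB ⟨p, hp⟩
  simp only at h3
  rw [dif_pos h] at h3
  exact (hb _ x hx).trans h3

theorem LC.cc {κ : Cardinal.{0}} (hκ : κ.IsRegular) (h2 : ∀ μ < κ, 2 ^ μ < κ) (h1 : ℵ₁ < κ)
    (ι : Type) (f : ι → LC (ℵ₁ : Cardinal.{0}).ord.ToType κ.ord.ToType) (hι : κ ≤ #ι) :
    ∃ i j, i ≠ j ∧ ∃ r, r ≤ f i ∧ r ≤ f j := by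
  classical
  by_cases hinj : Function.Injective f
  swap
  · rw [Function.Injective] at hinj
    push Not at hinj
    obtain ⟨i, j, hij, hne⟩ := hinj
    exact ⟨i, j, hne, f i, le_rfl, hij.le⟩
  choose h hh using fun δ => LC_cc_refl hκ h2 h1 ι f δ
  obtain ⟨δ, ⟨x₀, hx₀⟩, hδ⟩ := LC_cc_closed hκ h2 h1 h
  obtain ⟨i, hi⟩ : ∃ i, ¬ ∀ x ∈ (f i).g, x.1 < δ := by
    by_contra hcon
    push Not at hcon
    have h3 : #ι ≤ #{p : LC (ℵ₁ : Cardinal.{0}).ord.ToType κ.ord.ToType // ∀ x ∈ p.g, x.1 < δ} := by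
      refine Cardinal.mk_le_of_injective (f := fun i => ⟨f i, hcon i⟩) ?_
      intro i j hij
      exact hinj (congrArg Subtype.val hij)
    exact absurd (hι.trans h3) (not_le.2 (LC_cc_count hκ h2 h1 δ))
  obtain ⟨b, hb⟩ := Set.Countable.exists_eq_range
    (s := insert x₀ ((fun x => x.1) '' (LC_cc_restr (f i) δ).g))
    (((LC_cc_restr (f i) δ).cnt.image _).insert _) (Set.insert_nonempty _ _)
  have hbδ : ∀ n, b n < δ := by
    intro n
    have h3 : b n ∈ insert x₀ ((fun x => x.1) '' (LC_cc_restr (f i) δ).g) := by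
      rw [hb]
      exact ⟨n, rfl⟩
    rcases h3 with h3 | ⟨x, hx, h3⟩
    · rw [h3]
      exact hx₀
    · rw [← h3]
      exact hx.2
  obtain ⟨δ', hδ', hbn, hle⟩ := hδ b hbδ
  have hp : ∀ x ∈ (LC_cc_restr (f i) δ).g, x.1 < δ' := by
    intro x hx
    have h3 : x.1 ∈ insert x₀ ((fun x => x.1) '' (LC_cc_restr (f i) δ).g) :=
      Or.inr ⟨x, hx, rfl⟩
    rw [hb] at h3
    obtain ⟨n, hn⟩ := h3
    rw [← hn]
    exact hbn n
  obtain ⟨j, hj, hjb⟩ := hh δ' (LC_cc_restr (f i) δ) hp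
    ⟨i, fun β ξ γ γ' h3 h4 => (f i).fn β ξ γ γ' h3.1 h4⟩
  have hjδ : ∀ x ∈ (f j).g, x.1 < δ := fun x hx => (hjb x hx).trans_le hle
  have hcomp : ∀ β ξ γ γ', (β, ξ, γ) ∈ (f i).g → (β, ξ, γ') ∈ (f j).g → γ = γ' := by
    intro β ξ γ γ' h3 h4
    have h5 : β < δ := hjδ (β, ξ, γ') h4
    exact hj β ξ γ γ' ⟨h3, h5⟩ h4
  refine ⟨i, j, ?_, ⟨(f i).g ∪ (f j).g, (f i).cnt.union (f j).cnt, ?_, ?_⟩, ?_, ?_⟩
  · intro hij
    apply hi
    rw [hij]
    exact hjδ
  · rintro β ξ γ γ' (h3 | h3) (h4 | h4)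
    · exact (f i).fn _ _ _ _ h3 h4
    · exact hcomp _ _ _ _ h3 h4
    · exact (hcomp _ _ _ _ h4 h3).symm
    · exact (f j).fn _ _ _ _ h3 h4
  · rintro β ξ γ (h3 | h3)
    · exact (f i).val _ _ _ h3
    · exact (f j).val _ _ _ h3
  · exact Set.subset_union_left
  · exact Set.subset_union_right


theorem staysRegular_of_cc' {Q : Type} [Preorder Q] {κ : Cardinal.{0}} (hκ : κ.IsRegular)
    (hcc : ∀ (ι : Type) (f : ι → Q), κ ≤ #ι → ∃ i j, i ≠ j ∧ ∃ r, r ≤ f i ∧ r ≤ f j) (q : Q) :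
    q ∈ StaysRegular Q κ := by
  classical
  intro ν hν R
  rw [mem_fimp]
  intro q' _ hR
  have hV : ∀ x : ν.out, #{y : κ.ord.ToType | ∃ q1 ≤ q', q1 ∈ meets (R x y)} < κ := by
    intro x
    by_contra hcon
    push Not at hcon
    choose f hf1 hf2 using fun y : {y : κ.ord.ToType |
      ∃ q1 ≤ q', q1 ∈ meets (R x y)} => y.2
    obtain ⟨i, j, hij, r, hri, hrj⟩ := hcc _ f hcon
    apply hij
    have hr' : r ∈ IsFun R := down_IsFun R _ hR _ (hri.trans (hf1 i))
    exact Subtype.ext (IsFun.unique hr' (down_meets _ _ (hf2 i) _ hri)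
      (down_meets _ _ (hf2 j) _ hrj))
  have hS : #(⋃ x : ν.out, {y : κ.ord.ToType | ∃ q1 ≤ q', q1 ∈ meets (R x y)} :
      Set _) < κ := by
    rw [Cardinal.card_iUnion_lt_iff_forall_of_isRegular hκ (by rw [Cardinal.mk_out]; exact hν)]
    exact hV
  have hcof : Order.cof κ.ord.ToType = κ := by
    rw [Ordinal.cof_toType]
    exact hκ.cof_ord
  have hnc : ¬ IsCofinal (⋃ x : ν.out, {y : κ.ord.ToType |
      ∃ q1 ≤ q', q1 ∈ meets (R x y)}) := by
    intro h
    have h1 := Order.cof_le h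
    rw [hcof] at h1
    exact absurd hS (not_lt.2 h1)
  unfold IsCofinal at hnc
  push Not at hnc
  obtain ⟨b, hb⟩ := hnc
  refine ⟨q', le_rfl, mem_fex_of_mem b ?_ ?_⟩
  · exact down_fall fun x => down_fall fun y => down_fimp _ _
  · intro x y
    rw [mem_fimp]
    intro q1 hq1 hm
    exact ⟨q1, le_rfl, hb y (Set.mem_iUnion.2 ⟨x, q1, hq1, hm⟩)⟩


theorem LC.collapsed_aux_inj {ν κ : Cardinal.{0}} (h : ν < κ) :
    ∃ (β : κ.ord.ToType) (e : ν.out → κ.ord.ToType), Function.Injective e ∧ ∀ y, e y < β := by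
  have ho : ν.ord < κ.ord := Cardinal.ord_lt_ord.2 h
  let f := Ordinal.principalSegToType ho
  have hc : #ν.out = #ν.ord.ToType := by rw [Cardinal.mk_out, Cardinal.mk_ord_toType]
  obtain ⟨g⟩ := Cardinal.eq.1 hc
  refine ⟨f.top, fun y => f (g y), ?_, ?_⟩
  · intro a b hab
    exact g.injective (f.injective hab)
  · intro y
    exact f.lt_top (g y)

theorem LC.collapsed_aux_fresh {κ : Cardinal.{0}}
    (q : LC (ℵ₁ : Cardinal.{0}).ord.ToType κ.ord.ToType) :
    ∃ ξ : (ℵ₁ : Cardinal.{0}).ord.ToType, ∀ β γ, (β, ξ, γ) ∉ q.g := by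
  by_contra hcon
  push Not at hcon
  have hS : (Set.univ : Set (ℵ₁ : Cardinal.{0}).ord.ToType) ⊆ (fun t => t.2.1) '' q.g := by
    intro ξ _
    obtain ⟨β, γ, h⟩ := hcon ξ
    exact ⟨(β, ξ, γ), h, rfl⟩
  have hc : (Set.univ : Set (ℵ₁ : Cardinal.{0}).ord.ToType).Countable := (q.cnt.image _).mono hS
  have h1 : #(ℵ₁ : Cardinal.{0}).ord.ToType ≤ ℵ₀ := by
    rw [← Cardinal.mk_univ]
    exact hc.le_aleph0
  rw [Cardinal.mk_ord_toType] at h1
  exact absurd h1 (not_le.2 Cardinal.aleph0_lt_aleph_one)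

theorem LC.collapsed {κ : Cardinal.{0}}
    (p : LC (ℵ₁ : Cardinal.{0}).ord.ToType κ.ord.ToType) :
    p ∈ CollapsedBelow (LC (ℵ₁ : Cardinal.{0}).ord.ToType κ.ord.ToType) κ := by
  intro ν hν
  obtain ⟨β, e, he, hlt⟩ := LC.collapsed_aux_inj hν
  let R : (ℵ₁ : Cardinal.{0}).ord.ToType → ν.out →
      Set (LC (ℵ₁ : Cardinal.{0}).ord.ToType κ.ord.ToType) := fun ξ y => {q | (β, ξ, e y) ∈ q.g}
  have hR : ∀ ξ y, Down (R ξ y) := fun ξ y q hq q' hq' => hq' hq
  refine mem_fex_of_mem R ?_ ?_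
  · exact down_fand (down_fall fun _ => down_fall fun _ => down_fall fun _ => down_fimp _ _)
      (down_IsOnto _)
  · refine ⟨?_, ?_⟩
    · intro x y y'
      rw [mem_fimp]
      intro q _ hq
      obtain ⟨h1, h2⟩ := hq
      obtain ⟨q1, hq1, hm1⟩ := exists_of_meets (hR x y) h1
      obtain ⟨q2, hq2, hm2⟩ := exists_of_meets (hR x y') (down_meets _ _ h2 q1 hq1)
      refine ⟨q, le_rfl, ?_⟩
      show y = y'
      exact he (q2.fn β x _ _ (hR x y q1 hm1 q2 hq2) hm2)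
    · intro y
      rw [mem_fex]
      intro q _
      obtain ⟨ξ, hξ⟩ := LC.collapsed_aux_fresh q
      let r : LC (ℵ₁ : Cardinal.{0}).ord.ToType κ.ord.ToType :=
        { g := insert (β, ξ, e y) q.g
          cnt := q.cnt.insert _
          fn := by
            intro b x c c' h h'
            rcases h with h | h <;> rcases h' with h' | h'
            · simp only [Prod.mk.injEq] at h h'
              rw [h.2.2, h'.2.2]
            · simp only [Prod.mk.injEq] at h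
              rw [h.2.1] at h'
              exact absurd h' (hξ _ _)
            · simp only [Prod.mk.injEq] at h'
              rw [h'.2.1] at h
              exact absurd h (hξ _ _)
            · exact q.fn b x c c' h h'
          val := by
            intro b x c h
            rcases h with h | h
            · simp only [Prod.mk.injEq] at h
              rw [h.1, h.2.2]
              exact hlt y
            · exact q.val b x c h }
      refine ⟨r, fun t ht => Set.mem_insert_of_mem _ ht, ξ, ?_⟩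
      apply meets_of_mem
      show (β, ξ, e y) ∈ insert (β, ξ, e y) q.g
      exact Set.mem_insert _ _


theorem LC.forcesCH_enum {κ : Cardinal.{0}} (h2 : 2 ^ (ℵ₀ : Cardinal.{0}) < κ) :
    ∃ (β : κ.ord.ToType) (e : κ.ord.ToType → Set ℕ), ∀ x : Set ℕ, ∃ γ < β, e γ = x := by
  obtain ⟨μ, hμ⟩ : ∃ μ : Cardinal.{0}, μ = 2 ^ (ℵ₀ : Cardinal.{0}) := ⟨_, rfl⟩
  rw [← hμ] at h2
  have h : μ.ord < κ.ord := Cardinal.ord_lt_ord.2 h2
  let f := Ordinal.principalSegToType h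
  have hc : #(Set ℕ) = #(μ.ord.ToType) := by
    rw [Cardinal.mk_ord_toType, Cardinal.mk_set, Cardinal.mk_nat, hμ]
  obtain ⟨E⟩ := Cardinal.eq.1 hc
  refine ⟨f.top, Function.extend f E.symm (fun _ => ∅), fun x => ⟨f (E x), f.lt_top _, ?_⟩⟩
  rw [f.injective.extend_apply]
  simp

theorem LC.forcesCH {κ : Cardinal.{0}} (h2 : 2 ^ (ℵ₀ : Cardinal.{0}) < κ)
    (p : LC (ℵ₁ : Cardinal.{0}).ord.ToType κ.ord.ToType) :
    p ∈ ForcesCH (LC (ℵ₁ : Cardinal.{0}).ord.ToType κ.ord.ToType) := by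
  classical
  obtain ⟨β, e, he⟩ := LC.forcesCH_enum h2
  let F : (ℵ₁ : Cardinal.{0}).ord.ToType → ℕ → Set (LC (ℵ₁ : Cardinal.{0}).ord.ToType κ.ord.ToType) :=
    fun ξ n => {q | ∃ γ, (β, ξ, γ) ∈ q.g ∧ n ∈ e γ}
  have hFd : ∀ ξ n, Down (F ξ n) := by
    rintro ξ n q ⟨γ, hγ, hn⟩ r hr
    exact ⟨γ, hr hγ, hn⟩
  refine mem_fex_of_mem F (down_fall fun _ => down_fex _) ?_
  intro X
  rw [mem_fex]
  intro q hq
  obtain ⟨q1, hq1, hdec⟩ := exists_forall_mem (κ := ℵ₁) Cardinal.aleph0_lt_aleph_one.le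
    (LC.dirClosed (W := (ℵ₁ : Cardinal.{0}).ord.ToType) (K := κ.ord.ToType)) (N := ℕ)
    (by rw [Cardinal.mk_nat]; exact Cardinal.aleph0_lt_aleph_one)
    (fun n => {r | r ∈ meets (X n) ∨ r ∈ fnot (meets (X n))})
    (by
      rintro n r (h | h) s hs
      · exact Or.inl (down_meets _ _ h _ hs)
      · exact Or.inr (down_fnot _ _ h _ hs))
    (by
      intro n r
      by_cases h : ∃ s ≤ r, s ∈ meets (X n)
      · obtain ⟨s, hs, h⟩ := h
        exact ⟨s, hs, Or.inl h⟩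
      · refine ⟨r, le_rfl, Or.inr fun s hs h' => h ⟨s, hs, h'⟩⟩)
    q
  obtain ⟨γ, hγβ, heγ⟩ := he {n | q1 ∈ meets (X n)}
  obtain ⟨ξ, hξ⟩ : ∃ ξ : (ℵ₁ : Cardinal.{0}).ord.ToType, ∀ γ, (β, ξ, γ) ∉ q1.g := by
    by_contra hcon
    push Not at hcon
    have h1 : ((fun t : κ.ord.ToType × (ℵ₁ : Cardinal.{0}).ord.ToType × κ.ord.ToType => t.2.1) ''
        q1.g) = Set.univ := by
      rw [Set.eq_univ_iff_forall]
      intro ξ
      obtain ⟨γ, hγ⟩ := hcon ξ
      exact ⟨_, hγ, rfl⟩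
    have h2 := (q1.cnt.image (fun t : κ.ord.ToType × (ℵ₁ : Cardinal.{0}).ord.ToType ×
      κ.ord.ToType => t.2.1)).le_aleph0
    rw [h1, Cardinal.mk_univ, Cardinal.mk_ord_toType] at h2
    exact absurd h2 (not_le.2 Cardinal.aleph0_lt_aleph_one)
  let q2 : LC (ℵ₁ : Cardinal.{0}).ord.ToType κ.ord.ToType :=
    { g := insert (β, ξ, γ) q1.g
      cnt := q1.cnt.insert _
      fn := by
        rintro β' ξ' γ1 γ2 (h | h) (h' | h')
        · simp only [Prod.mk.injEq] at h h'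
          rw [h.2.2, h'.2.2]
        · simp only [Prod.mk.injEq] at h
          rw [h.1, h.2.1] at h'
          exact (hξ _ h').elim
        · simp only [Prod.mk.injEq] at h'
          rw [h'.1, h'.2.1] at h
          exact (hξ _ h).elim
        · exact q1.fn _ _ _ _ h h'
      val := by
        rintro β' ξ' γ' (h | h)
        · simp only [Prod.mk.injEq] at h
          rw [h.1, h.2.2]
          exact hγβ
        · exact q1.val _ _ _ h }
  have h21 : q2 ≤ q1 := Set.subset_insert _ _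
  refine ⟨q2, h21.trans hq1, ξ, ?_, ?_⟩
  · intro n
    rw [mem_fimp]
    intro r hr hrm
    obtain ⟨q', hq', γ1, hγ1, hn⟩ := exists_of_meets (hFd ξ n) hrm
    refine ⟨q', hq', ?_⟩
    have h3 : (β, ξ, γ) ∈ q'.g := (hq'.trans hr) (Set.mem_insert _ _)
    have h4 : γ1 = γ := q'.fn _ _ _ _ hγ1 h3
    rw [h4, heγ] at hn
    exact down_meets _ _ hn _ ((hq'.trans hr).trans h21)
  · intro n
    rw [mem_fimp]
    intro r hr hrm
    refine ⟨r, le_rfl, meets_of_mem ?_⟩
    refine ⟨γ, hr (Set.mem_insert _ _), ?_⟩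
    rw [heγ]
    rcases hdec n with h | h
    · exact h
    · exact (h r (hr.trans h21) hrm).elim


theorem exists_decided {Q : Type} [Preorder Q] (hQ : DirClosed ℵ₁ Q) {X : Type} (S : X → Set Q)
    (q : Q) (hq : q ∈ IsCtbl S) :
    ∃ r ≤ q, ∃ s : Set X, s.Countable ∧ (∀ y ∈ s, r ∈ meets (S y)) ∧
      ∀ y ∉ s, r ∈ fnot (meets (S y)) := by
  classical
  obtain ⟨r0, hr0, f, hf, hcov⟩ := mem_fex.1 hq q le_rfl
  have hN : #ℕ < (ℵ₁ : Cardinal.{0}) := by
    rw [Cardinal.mk_nat]; exact Cardinal.aleph0_lt_aleph_one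
  obtain ⟨r1, hr1, h1⟩ := exists_forall_mem (Cardinal.aleph0_le_aleph 1) hQ hN
    (fun n => {r | (∃ y, r ∈ meets (f n y)) ∨ ∀ t ≤ r, ¬ t ≤ r0})
    (by
      intro n p hp p' hp'
      rcases hp with ⟨y, hy⟩ | hp
      · exact Or.inl ⟨y, down_meets _ _ hy _ hp'⟩
      · exact Or.inr fun t ht => hp t (ht.trans hp'))
    (by
      intro n p
      by_cases hp : ∃ t ≤ p, t ≤ r0
      · obtain ⟨t, ht, ht0⟩ := hp
        obtain ⟨p', hp', y, hy⟩ := IsFun.total (down_IsFun f _ hf _ ht0) n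
        exact ⟨p', hp'.trans ht, Or.inl ⟨y, hy⟩⟩
      · push Not at hp
        exact ⟨p, le_rfl, Or.inr hp⟩) r0
  have h1' : ∀ n, ∃ y, r1 ∈ meets (f n y) := by
    intro n
    rcases h1 n with h | h
    · exact h
    · exact absurd hr1 (h r1 le_rfl)
  choose y hy using h1'
  obtain ⟨r2, hr2, h2⟩ := exists_forall_mem (Cardinal.aleph0_le_aleph 1) hQ hN
    (fun n => {r | r ∈ meets (S (y n)) ∨ r ∈ fnot (meets (S (y n)))})
    (by
      intro n p hp p' hp'
      rcases hp with hp | hp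
      · exact Or.inl (down_meets _ _ hp _ hp')
      · exact Or.inr (down_fnot _ _ hp _ hp'))
    (by
      intro n p
      by_cases hp : ∃ t ≤ p, t ∈ meets (S (y n))
      · obtain ⟨t, ht, ht0⟩ := hp
        exact ⟨t, ht, Or.inl ht0⟩
      · push Not at hp
        exact ⟨p, le_rfl, Or.inr hp⟩) r1
  refine ⟨r2, (hr2.trans hr1).trans hr0, {x | ∃ n, y n = x ∧ r2 ∈ meets (S (y n))}, ?_, ?_, ?_⟩
  · refine (Set.countable_range y).mono ?_
    rintro x ⟨n, hn, -⟩
    exact ⟨n, hn⟩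
  · rintro x ⟨n, rfl, hn⟩
    exact hn
  · intro x hx t ht htx
    obtain ⟨r, hr, hr'⟩ := mem_fimp.1 (hcov x) t ((ht.trans hr2).trans hr1) htx
    obtain ⟨r', hr1', n, hn⟩ := mem_fex.1 hr' r le_rfl
    have hle : r' ≤ r1 := ((hr1'.trans hr).trans ht).trans hr2
    have e : x = y n := IsFun.unique (down_IsFun f _ hf _ (hle.trans hr1)) hn
      (down_meets _ _ (hy n) _ hle)
    subst e
    rcases h2 n with h | h
    · exact hx ⟨n, rfl, h⟩
    · exact h t ht htx


/-- the name of a subset of the ground model -/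
def chk {Q X : Type} (s : Set X) : X → Set Q := fun y => {_q | y ∈ s}

theorem chk_of_meets {Q X : Type} [Preorder Q] {s : Set X} {y : X} {q : Q}
    (h : q ∈ meets (chk (Q := Q) s y)) : y ∈ s := by
  obtain ⟨_, _, t, ht, _⟩ := h q le_rfl
  exact ht

theorem chk_ctbl {Q X : Type} [Preorder Q] [Nonempty X] {s : Set X} (hs : s.Countable) (q : Q) :
    q ∈ IsCtbl (chk (Q := Q) s) := by
  obtain ⟨y, hy⟩ : ∃ y : ℕ → X, s ⊆ Set.range y := by
    rcases s.eq_empty_or_nonempty with h | h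
    · exact ⟨fun _ => Classical.arbitrary X, by rw [h]; exact Set.empty_subset _⟩
    · obtain ⟨y, hy⟩ := hs.exists_eq_range h
      exact ⟨y, hy.le⟩
  refine mem_fex.2 fun r _ => ⟨r, le_rfl, fun n x => {_q | x = y n}, ⟨?_, ?_⟩, ?_⟩
  · intro n
    exact mem_fex.2 fun r' _ => ⟨r', le_rfl, y n, meets_of_mem rfl⟩
  · intro n x x'
    refine mem_fimp.2 fun r' _ h => ⟨r', le_rfl, ?_⟩
    obtain ⟨_, _, t, ht, _⟩ := h.1 r' le_rfl
    obtain ⟨_, _, t', ht', _⟩ := h.2 r' le_rfl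
    exact ht.trans ht'.symm
  · intro x
    refine mem_fimp.2 fun r' _ h => ?_
    obtain ⟨n, hn⟩ := hy (chk_of_meets h)
    exact ⟨r', le_rfl, mem_fex.2 fun r'' _ => ⟨r'', le_rfl, n, meets_of_mem hn.symm⟩⟩

theorem missesColour {κ m : Cardinal.{0}} (h : IsHuge κ m) (hκ : κ.IsRegular) {Q : Type}
    [Preorder Q] (hQ : DirClosed ℵ₁ Q)
    (hcc : ∀ (ι : Type) (f : ι → Q), κ ≤ #ι → ∃ i j, i ≠ j ∧ ∃ r, r ≤ f i ∧ r ≤ f j) (q : Q) :
    q ∈ MissesColour Q κ.ord.ToType m.ord.ToType := by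
  classical
  have hm : Nonempty m.ord.ToType := by
    rw [← mk_ne_zero_iff, mk_ord_toType]
    exact (zero_le.trans_lt h.2.1).ne'
  intro c
  refine mem_fimp.2 fun p0 _ hp0 => ⟨p0, le_rfl, ?_⟩
  -- the possible colours
  have hsmall : ∀ s : Set m.ord.ToType, s.Countable →
      #{a : κ.ord.ToType | ∃ r ≤ p0, r ∈ meets (c (chk s) a)} < κ := by
    intro s hs
    by_contra hcon
    push Not at hcon
    choose f hf1 hf2 using fun a : {a : κ.ord.ToType | ∃ r ≤ p0, r ∈ meets (c (chk s) a)} => a.2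
    obtain ⟨i, j, hij, r, hri, hrj⟩ := hcc _ f hcon
    apply hij
    have hr : r ≤ p0 := hri.trans (hf1 i)
    obtain ⟨r1, hr1, _, huniq, _⟩ := mem_fimp.1 (hp0 (chk s)) r hr (chk_ctbl hs r)
    obtain ⟨r2, _, heq⟩ := mem_fimp.1 (huniq i.1 j.1) r1 le_rfl
      ⟨down_meets _ _ (hf2 i) _ (hr1.trans hri), down_meets _ _ (hf2 j) _ (hr1.trans hrj)⟩
    exact Subtype.ext heq
  have hbd : ∀ s : Set m.ord.ToType, ∃ b : κ.ord.ToType, s.Countable →
      ∀ a, (∃ r ≤ p0, r ∈ meets (c (chk s) a)) → a < b := by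
    intro s
    by_cases hs : s.Countable
    · have hnc : ¬ IsCofinal {a : κ.ord.ToType | ∃ r ≤ p0, r ∈ meets (c (chk s) a)} := by
        intro hcof
        have h1 := Order.cof_le hcof
        rw [Ordinal.cof_toType, hκ.cof_ord] at h1
        exact absurd (hsmall s hs) (not_lt.2 h1)
      unfold IsCofinal at hnc
      push Not at hnc
      obtain ⟨b, hb⟩ := hnc
      exact ⟨b, fun _ a ha => hb a ha⟩
    · have : Nonempty κ.ord.ToType := by
        rw [← mk_ne_zero_iff, mk_ord_toType]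
        exact hκ.pos.ne'
      exact ⟨Classical.arbitrary _, fun h' => absurd h' hs⟩
  choose G hG using hbd
  obtain ⟨X, hX, b, hb⟩ := h.bounded hκ G
  have hXK : Nonempty (κ.ord.ToType ≃ X) := by
    rw [← Cardinal.eq, mk_ord_toType, hX]
  obtain ⟨e⟩ := hXK
  refine mem_fex.2 fun p1 hp1 => ⟨p1, le_rfl, chk X, ?_, ?_⟩
  · refine mem_fex.2 fun p2 _ => ⟨p2, le_rfl, fun x y => {_q | y = (e x).1}, ⟨?_, ?_⟩, ?_, ?_⟩
    · intro x
      exact mem_fex.2 fun r' _ => ⟨r', le_rfl, (e x).1, meets_of_mem rfl⟩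
    · intro x y y'
      refine mem_fimp.2 fun r' _ h => ⟨r', le_rfl, ?_⟩
      obtain ⟨_, _, t, ht, _⟩ := h.1 r' le_rfl
      obtain ⟨_, _, t', ht', _⟩ := h.2 r' le_rfl
      exact ht.trans ht'.symm
    · intro x x' y
      refine mem_fimp.2 fun r' _ h => ⟨r', le_rfl, ?_⟩
      obtain ⟨_, _, t, ht, _⟩ := h.1 r' le_rfl
      obtain ⟨_, _, t', ht', _⟩ := h.2 r' le_rfl
      exact e.injective (Subtype.ext (ht.symm.trans ht'))
    · intro y
      refine ⟨mem_fimp.2 fun r' _ h => ⟨r', le_rfl, ?_⟩, fun x => mem_fimp.2 fun r' _ h =>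
        ⟨r', le_rfl, ?_⟩⟩
      · have hy : y ∈ X := chk_of_meets h
        exact mem_fex.2 fun r'' _ => ⟨r'', le_rfl, e.symm ⟨y, hy⟩, meets_of_mem (by simp)⟩
      · obtain ⟨_, _, t, ht, _⟩ := h r' le_rfl
        refine meets_of_mem ?_
        change y ∈ X
        have ht' : y = (e x).1 := ht
        rw [ht']
        exact (e x).2
  · refine mem_fex.2 fun p2 hp2 => ⟨p2, le_rfl, b, fun S => mem_fimp.2 fun r0 hr0 hS =>
      ⟨r0, le_rfl, fun r1 hr1 hm1 => ?_⟩⟩
    obtain ⟨hS1, hS2⟩ := hS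
    obtain ⟨r2, hr2, s, hs, hs1, hs2⟩ := exists_decided hQ S r1 (down_fex _ _ hS1 _ hr1)
    have hr2p : r2 ≤ p0 := hr2.trans (hr1.trans (hr0.trans (hp2.trans hp1)))
    have hsX : s ⊆ X := by
      intro y hy
      obtain ⟨r3, _, h3⟩ := mem_fimp.1 (hS2 y) r2 (hr2.trans hr1) (hs1 y hy)
      exact chk_of_meets h3
    obtain ⟨r3, hr3, _, _, hext⟩ := mem_fimp.1 (hp0 S) r2 hr2p
      (down_fex _ _ hS1 _ (hr2.trans hr1))
    obtain ⟨r4, hr4, h4⟩ := mem_fimp.1 (hext (chk s)) r3 le_rfl ⟨by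
      intro y
      refine mem_fimp.2 fun r5 hr5 h5 => ⟨r5, le_rfl, ?_⟩
      by_cases hy : y ∈ s
      · exact meets_of_mem hy
      · exact absurd h5 (hs2 y hy r5 (hr5.trans hr3)), by
      intro y
      refine mem_fimp.2 fun r5 hr5 h5 => ⟨r5, le_rfl, ?_⟩
      exact down_meets _ _ (hs1 y (chk_of_meets h5)) _ (hr5.trans hr3)⟩
    obtain ⟨r5, hr5, h5⟩ := mem_fimp.1 (h4 b) r4 le_rfl
      (down_meets _ _ hm1 _ (hr4.trans (hr3.trans hr2)))
    have h6 := hG s hs b ⟨r5, hr5.trans (hr4.trans (hr3.trans hr2p)), h5⟩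
    exact absurd (h6.trans (hb s hsX hs)) (lt_irrefl _)

end Pool.Agent.Helper669.K
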