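import Mathlib
import Pool.Agent.Helper669.KHuge

set_option autoImplicit false

/-!
# Adding a colouring of the countable subsets by forcing
-/

namespace Pool.Agent.Helper669.KG

open Cardinal Set Pool.Agent.Helper669.Forcing Pool.Agent.Helper669.K

/-- A condition of the forcing which adds a colouring of the countable subsets of `M` with
colours in `K`: a partial function with fewer than `κ` elements, given by its graph. -/
structure ColQ (κ : Cardinal.{0}) (M K : Type) where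
  /-- the graph -/
  g : Set (Set M × K)
  /-- there are fewer than `κ` elements -/
  small : #g < κ
  /-- the domain consists of countable sets -/
  ctbl : ∀ x ∈ g, x.1.Countable
  /-- the graph is that of a partial function -/
  func : ∀ s a b, (s, a) ∈ g → (s, b) ∈ g → a = b

instance {κ : Cardinal.{0}} {M K : Type} : Preorder (ColQ κ M K) where
  le p q := q.g ⊆ p.g
  le_refl _ := Subset.rfl
  le_trans _ _ _ h h' := h'.trans h

/-- No subset of `ℕ` is added: every subset of `ℕ` of the extension is in the ground model. -/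
def NoNewReals (P : Type) [Preorder P] : Set P :=
  fall fun X : ℕ → Set P => fex fun x : Set ℕ =>
    fand (fall fun n => fimp (fground (n ∈ x)) (meets (X n)))
      (fall fun n => fimp (meets (X n)) (fground (n ∈ x)))

variable {κ : Cardinal.{0}} {M K : Type}

theorem ColQ.exists_union (hκ : κ.IsRegular) (D : Set (ColQ κ M K)) (hD : #D < κ)
    (hdir : ∀ a ∈ D, ∀ b ∈ D, ∃ c ∈ D, c ≤ a ∧ c ≤ b) :
    ∃ q : ColQ κ M K, q.g = ⋃ a : D, a.1.g := by
  refine ⟨⟨⋃ a : D, a.1.g, ?_, ?_, ?_⟩, rfl⟩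
  · exact (Cardinal.card_iUnion_lt_iff_forall_of_isRegular hκ hD).2 fun a => a.1.small
  · intro x hx
    obtain ⟨a, ha⟩ := mem_iUnion.1 hx
    exact a.1.ctbl x ha
  · intro s a b ha hb
    obtain ⟨p, hp⟩ := mem_iUnion.1 ha
    obtain ⟨p', hp'⟩ := mem_iUnion.1 hb
    obtain ⟨c, _, hc1, hc2⟩ := hdir p.1 p.2 p'.1 p'.2
    exact c.func s a b (hc1 hp) (hc2 hp')

theorem ColQ.dirClosed (hκ : κ.IsRegular) : DirClosed κ (ColQ κ M K) := by
  intro D hD _ hdir
  obtain ⟨q, hq⟩ := ColQ.exists_union hκ D hD hdir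
  refine ⟨q, fun a ha => ?_⟩
  show a.g ⊆ q.g
  rw [hq]
  exact subset_iUnion (fun a : D => a.1.g) ⟨a, ha⟩

theorem dirClosed_mono {κ' : Cardinal.{0}} {Q : Type} [Preorder Q] (h : κ' ≤ κ)
    (hQ : DirClosed κ Q) : DirClosed κ' Q := fun D hD => hQ D (hD.trans_le h)

/-- extending a condition -/
def ColQ.ext (hκ : ℵ₀ ≤ κ) (q : ColQ κ M K) (s : Set M) (a : K) (hs : s.Countable)
    (hn : ∀ b, (s, b) ∉ q.g) : ColQ κ M K where
  g := insert (s, a) q.g
  small := by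
    refine lt_of_le_of_lt mk_insert_le ?_
    exact add_lt_of_lt hκ q.small (one_lt_aleph0.trans_le hκ)
  ctbl := by
    rintro x (rfl | hx)
    · exact hs
    · exact q.ctbl x hx
  func := by
    rintro t b c (hb | hb) (hc | hc)
    · rw [Prod.mk.injEq] at hb hc
      rw [hb.2, hc.2]
    · rw [Prod.mk.injEq] at hb
      rw [hb.1] at hc
      exact absurd hc (hn c)
    · rw [Prod.mk.injEq] at hc
      rw [hc.1] at hb
      exact absurd hb (hn b)
    · exact q.func t b c hb hc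

/-- the condition `q` decides the named set `S` to be `s` -/
def Dec {Q X : Type} [Preorder Q] (S : X → Set Q) (s : Set X) (q : Q) : Prop :=
  (∀ y ∈ s, q ∈ meets (S y)) ∧ ∀ y ∉ s, q ∈ fnot (meets (S y))

theorem Dec.mono {Q X : Type} [Preorder Q] {S : X → Set Q} {s : Set X} {q r : Q}
    (h : Dec S s q) (hr : r ≤ q) : Dec S s r :=
  ⟨fun y hy => down_meets _ _ (h.1 y hy) _ hr, fun y hy => down_fnot _ _ (h.2 y hy) _ hr⟩

theorem Dec.unique {Q X : Type} [Preorder Q] {S : X → Set Q} {s t : Set X} {q : Q}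
    (h : Dec S s q) (h' : Dec S t q) : s = t := by
  ext y
  by_contra hcon
  by_cases hy : y ∈ s
  · have hy' : y ∉ t := fun h => hcon ⟨fun _ => h, fun _ => hy⟩
    exact h'.2 y hy' q le_rfl (h.1 y hy)
  · have hy' : y ∈ t := by
      by_contra h
      exact hcon ⟨fun h' => absurd h' hy, fun h' => absurd h' h⟩
    exact h.2 y hy q le_rfl (h'.1 y hy')

/-- the name of the generic colouring -/
def col (κ : Cardinal.{0}) (M K : Type) (S : M → Set (ColQ κ M K)) (a : K) : Set (ColQ κ M K) :=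
  {q | ∃ s : Set M, s.Countable ∧ Dec S s q ∧ (s, a) ∈ q.g}

theorem down_col (S : M → Set (ColQ κ M K)) (a : K) : Down (col κ M K S a) := by
  rintro p ⟨s, hs, hd, hg⟩ q hq
  exact ⟨s, hs, hd.mono hq, hq hg⟩

theorem meets_of_dense {Q : Type} [Preorder Q] {N : Set Q} {p : Q}
    (h : ∀ q ≤ p, ∃ r ≤ q, r ∈ meets N) : p ∈ meets N := by
  intro q hq
  obtain ⟨r, hr, hN⟩ := h q hq
  obtain ⟨r', hr', s, hs, h'⟩ := hN r le_rfl
  exact ⟨r', hr'.trans hr, s, hs, h'⟩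

theorem isColouring_col (hκ : κ.IsRegular) (h0 : ℵ₀ < κ) [Nonempty K] (p : ColQ κ M K) :
    p ∈ IsColouring (col κ M K) := by
  classical
  have hQ1 : DirClosed ℵ₁ (ColQ κ M K) := by
    refine dirClosed_mono ?_ (ColQ.dirClosed hκ)
    rw [← succ_aleph0]
    exact Order.succ_le_of_lt h0
  intro S
  refine mem_fimp.2 fun q _ hS => ?_
  obtain ⟨r, hr, s, hs, h1, h2⟩ := exists_decided hQ1 S q hS
  have hd : Dec S s r := ⟨h1, h2⟩
  refine ⟨r, hr, ?_, ?_, ?_⟩
  · refine mem_fex.2 fun q' hq' => ?_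
    by_cases hex : ∃ a, (s, a) ∈ q'.g
    · obtain ⟨a, ha⟩ := hex
      exact ⟨q', le_rfl, a, meets_of_mem ⟨s, hs, hd.mono hq', ha⟩⟩
    · push Not at hex
      let q'' := ColQ.ext hκ.aleph0_le q' s (Classical.arbitrary K) hs hex
      have hle : q'' ≤ q' := fun x hx => Or.inr hx
      exact ⟨q'', hle, _, meets_of_mem ⟨s, hs, hd.mono (hle.trans hq'), Or.inl rfl⟩⟩
  · intro a b
    refine mem_fimp.2 fun q' _ h => ?_
    obtain ⟨r1, hr1, ha⟩ := exists_of_meets (down_col S a) h.1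
    obtain ⟨r2, hr2, hb⟩ := exists_of_meets (down_col S b) (down_meets _ _ h.2 _ hr1)
    obtain ⟨s1, _, hd1, hg1⟩ := down_col S a _ ha _ hr2
    obtain ⟨s2, _, hd2, hg2⟩ := hb
    have e := hd1.unique hd2
    subst e
    exact ⟨q', le_rfl, r2.func _ _ _ hg1 hg2⟩
  · intro T
    refine mem_fimp.2 fun q' _ h => ⟨q', le_rfl, fun a => mem_fimp.2 fun q'' hq'' hm => ?_⟩
    obtain ⟨r1, hr1, s1, hs1, hd1, hg1⟩ := exists_of_meets (down_col S a) hm
    refine ⟨r1, hr1, meets_of_mem ⟨s1, hs1, ⟨fun y hy => ?_, fun y hy t ht htm => ?_⟩, hg1⟩⟩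
    · refine meets_of_dense fun t ht => ?_
      exact mem_fimp.1 (h.1 y) t (ht.trans (hr1.trans hq'')) (down_meets _ _ (hd1.1 y hy) _ ht)
    · obtain ⟨t', ht', hm'⟩ := mem_fimp.1 (h.2 y) t (ht.trans (hr1.trans hq'')) htm
      exact hd1.2 y hy t' (ht'.trans ht) hm'

theorem step (hκ : κ.IsRegular) (h0 : ℵ₀ < κ) (X : M → Set (ColQ κ M κ.ord.ToType))
    (r : ColQ κ M κ.ord.ToType) (hr : r ∈ SameSize (K := κ.ord.ToType) X) :
    ∃ r' ≤ r, ∃ x, (∀ s b, (s, b) ∈ r.g → x ∉ s) ∧ r' ∈ meets (X x) := by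
  classical
  obtain ⟨r1, hr1, R, hfun, hinj, hR⟩ := mem_fex.1 hr r le_rfl
  have hU : #(⋃ z : r.g, z.1.1 : Set M) < κ := by
    refine (Cardinal.card_iUnion_lt_iff_forall_of_isRegular hκ r.small).2 fun z => ?_
    exact lt_of_le_of_lt (r.ctbl _ z.2).le_aleph0 h0
  obtain ⟨r2, hr2, h2⟩ := exists_forall_mem hκ.aleph0_le (ColQ.dirClosed hκ) hU
    (fun u => {q | (∃ x, q ∈ meets (R x u.1)) ∨ ∀ t ≤ q, ∀ x, t ∉ meets (R x u.1)})
    (by
      intro n p hp p' hp'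
      rcases hp with ⟨y, hy⟩ | hp
      · exact Or.inl ⟨y, down_meets _ _ hy _ hp'⟩
      · exact Or.inr fun t ht => hp t (ht.trans hp'))
    (by
      intro n p
      by_cases hp : ∃ t ≤ p, ∃ x, t ∈ meets (R x n.1)
      · obtain ⟨t, ht, ht0⟩ := hp
        exact ⟨t, ht, Or.inl ht0⟩
      · push Not at hp
        exact ⟨p, le_rfl, Or.inr hp⟩) r1
  obtain ⟨x, hx⟩ : ∃ x : κ.ord.ToType, ∀ u : (⋃ z : r.g, z.1.1 : Set M),
      r2 ∉ meets (R x u.1) := by
    by_contra hcon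
    push Not at hcon
    choose u hu using hcon
    have hui : Function.Injective u := by
      intro x x' e
      have h3 := hu x'
      rw [← e] at h3
      exact IsInj.eq (down_IsInj R _ hinj _ hr2) (hu x) h3
    have := Cardinal.mk_le_of_injective hui
    rw [mk_ord_toType] at this
    exact absurd this (not_le.2 hU)
  obtain ⟨r3, hr3, y, hy⟩ := IsFun.total (down_IsFun R _ hfun _ hr2) x
  have hyU : ∀ s b, (s, b) ∈ r.g → y ∉ s := by
    intro s b hsb hys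
    have hyU' : y ∈ (⋃ z : r.g, z.1.1 : Set M) := mem_iUnion.2 ⟨⟨(s, b), hsb⟩, hys⟩
    rcases h2 ⟨y, hyU'⟩ with ⟨x', hx'⟩ | h
    · have e : x = x' := IsInj.eq (down_IsInj R _ hinj _ (hr3.trans hr2)) hy
        (down_meets _ _ hx' _ hr3)
      exact hx ⟨y, hyU'⟩ (e ▸ hx')
    · exact h r3 hr3 x hy
  obtain ⟨r4, hr4, h4⟩ := mem_fimp.1 ((hR y).2 x) r3 (hr3.trans hr2) hy
  exact ⟨r4, ((hr4.trans hr3).trans hr2).trans hr1, y, hyU, h4⟩

theorem fresh (hκ : κ.IsRegular) (h0 : ℵ₀ < κ) (X : M → Set (ColQ κ M κ.ord.ToType))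
    (r : ColQ κ M κ.ord.ToType) (hr : r ∈ SameSize (K := κ.ord.ToType) X) :
    ∃ r' ≤ r, ∃ s : Set M, s.Countable ∧ (∀ y ∈ s, r' ∈ meets (X y)) ∧
      ∀ b, (s, b) ∉ r'.g := by
  classical
  have hstep : ∀ p : {p : ColQ κ M κ.ord.ToType // p ∈ SameSize (K := κ.ord.ToType) X},
      ∃ (p' : {p : ColQ κ M κ.ord.ToType // p ∈ SameSize (K := κ.ord.ToType) X}) (x : M),
        p'.1 ≤ p.1 ∧ (∀ s b, (s, b) ∈ p.1.g → x ∉ s) ∧ p'.1 ∈ meets (X x) := by
    intro p
    obtain ⟨p', hp', x, h1, h2⟩ := step hκ h0 X p.1 p.2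
    exact ⟨⟨p', down_fex _ _ p.2 _ hp'⟩, x, hp', h1, h2⟩
  choose nx x hx1 hx2 hx3 using hstep
  let f : ℕ → {p : ColQ κ M κ.ord.ToType // p ∈ SameSize (K := κ.ord.ToType) X} :=
    fun n => nx^[n] ⟨r, hr⟩
  have hf : ∀ n, f (n + 1) = nx (f n) := fun n => Function.iterate_succ_apply' _ _ _
  have hanti : ∀ m n, m ≤ n → (f n).1 ≤ (f m).1 := by
    intro m n hmn
    induction n, hmn using Nat.le_induction with
    | base => exact le_rfl
    | succ n _ ih =>
      rw [hf]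
      exact (hx1 (f n)).trans ih
  obtain ⟨q, hq⟩ := ColQ.exists_union hκ (range fun n => (f n).1)
    (lt_of_le_of_lt (by simpa using (Cardinal.mk_range_le (f := fun n => (f n).1))) h0) (by
      rintro _ ⟨m, rfl⟩ _ ⟨n, rfl⟩
      exact ⟨(f (max m n)).1, ⟨_, rfl⟩, hanti _ _ (le_max_left _ _), hanti _ _ (le_max_right _ _)⟩)
  have hle : ∀ n, q ≤ (f n).1 := by
    intro n
    show (f n).1.g ⊆ q.g
    rw [hq]
    exact subset_iUnion (fun a : (range fun n => (f n).1) => a.1.g) ⟨_, n, rfl⟩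
  refine ⟨q, hle 0, range fun n => x (f n), countable_range _, ?_, ?_⟩
  · rintro _ ⟨n, rfl⟩
    have h := hx3 (f n)
    rw [← hf] at h
    exact down_meets _ _ h _ (hle (n + 1))
  · intro b hb
    rw [hq] at hb
    obtain ⟨⟨_, n, rfl⟩, hn⟩ := mem_iUnion.1 hb
    exact hx2 (f n) _ b hn ⟨n, rfl⟩

/-- The generic colouring: it is forced that some colouring of the countable subsets of `M` with
the elements of `κ` as colours takes all values on each set of size `κ`. -/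
theorem not_missesColour (hκ : κ.IsRegular) (h0 : ℵ₀ < κ) (p : ColQ κ M κ.ord.ToType) :
    p ∈ fnot (MissesColour (ColQ κ M κ.ord.ToType) κ.ord.ToType M) := by
  classical
  have hK : Nonempty κ.ord.ToType := by
    rw [← mk_ne_zero_iff, mk_ord_toType]
    exact hκ.pos.ne'
  intro q _ h
  obtain ⟨r, _, hr⟩ := mem_fimp.1 (h (col κ M κ.ord.ToType)) q le_rfl (isColouring_col hκ h0 q)
  obtain ⟨r1, _, X, hX, hr1⟩ := mem_fex.1 hr r le_rfl
  obtain ⟨r2, hr2, a, ha⟩ := mem_fex.1 hr1 r1 le_rfl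
  obtain ⟨r3, hr3, s, hs, hsX, hsn⟩ := fresh hκ h0 X r2 (down_fex _ _ hX _ hr2)
  let r4 := ColQ.ext hκ.aleph0_le r3 s a hs hsn
  have hle : r4 ≤ r3 := fun x hx => Or.inr hx
  have hM : Nonempty M := by
    obtain ⟨_, _, x, _, _⟩ := step hκ h0 X r2 (down_fex _ _ hX _ hr2)
    exact ⟨x⟩
  obtain ⟨r5, hr5, h5⟩ := mem_fimp.1 (ha (chk s)) r4 (hle.trans hr3)
    ⟨chk_ctbl hs r4, fun y => mem_fimp.2 fun t ht hm => ⟨t, le_rfl,
      down_meets _ _ (hsX y (chk_of_meets hm)) _ (ht.trans hle)⟩⟩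
  refine h5 r5 le_rfl (meets_of_mem ?_)
  exact ⟨s, hs, ⟨fun y hy => meets_of_mem hy, fun y hy t _ htm => hy (chk_of_meets htm)⟩,
    hr5 (Or.inl rfl)⟩

theorem noNewReals {Q : Type} [Preorder Q] (hQ : DirClosed ℵ₁ Q) (p : Q) : p ∈ NoNewReals Q := by
  intro X
  refine mem_fex.2 fun q _ => ?_
  have hc : q ∈ IsCtbl X := by
    refine mem_fex.2 fun r _ => ⟨r, le_rfl, fun n x => {_q | x = n}, ⟨?_, ?_⟩, ?_⟩
    · intro n
      exact mem_fex.2 fun r' _ => ⟨r', le_rfl, n, meets_of_mem rfl⟩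
    · intro n x x'
      refine mem_fimp.2 fun r' _ h => ⟨r', le_rfl, ?_⟩
      obtain ⟨_, _, t, ht, _⟩ := h.1 r' le_rfl
      obtain ⟨_, _, t', ht', _⟩ := h.2 r' le_rfl
      exact ht.trans ht'.symm
    · intro x
      refine mem_fimp.2 fun r' _ h => ?_
      exact ⟨r', le_rfl, mem_fex.2 fun r'' _ => ⟨r'', le_rfl, x, meets_of_mem rfl⟩⟩
  obtain ⟨r, hr, s, _, h1, h2⟩ := exists_decided hQ X q hc
  refine ⟨r, hr, s, fun n => mem_fimp.2 fun t ht hn => ⟨t, le_rfl, ?_⟩,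
    fun n => mem_fimp.2 fun t ht hn => ⟨t, le_rfl, ?_⟩⟩
  · exact down_meets _ _ (h1 n hn) _ ht
  · by_contra hcon
    exact h2 n hcon t ht hn

/-- For every set `M` there is a forcing notion which adds no subset of `ℕ`, leaves
`(2 ^ ℵ₀)⁺` regular and forces that the countable subsets of `M` have a colouring as in Q1. -/
theorem forced (M : Type) :
    ∃ (P : Type) (_ : Preorder P), Nonempty P ∧ ∀ p : P, p ∈ NoNewReals P ∧
      p ∈ StaysRegular P (Order.succ (2 ^ ℵ₀ : Cardinal.{0})) ∧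
      p ∈ fnot (MissesColour P (Order.succ (2 ^ ℵ₀ : Cardinal.{0})).ord.ToType M) := by
  have h1 : ℵ₀ ≤ (2 ^ ℵ₀ : Cardinal.{0}) := (cantor ℵ₀).le
  have hκ : (Order.succ (2 ^ ℵ₀ : Cardinal.{0})).IsRegular := isRegular_succ h1
  have h0 : ℵ₀ < Order.succ (2 ^ ℵ₀ : Cardinal.{0}) := lt_of_le_of_lt h1 (Order.lt_succ _)
  have hQ1 : DirClosed ℵ₁ (ColQ (Order.succ (2 ^ ℵ₀ : Cardinal.{0})) M
      (Order.succ (2 ^ ℵ₀ : Cardinal.{0})).ord.ToType) := by
    refine dirClosed_mono ?_ (ColQ.dirClosed hκ)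
    rw [← succ_aleph0]
    exact Order.succ_le_of_lt h0
  refine ⟨ColQ (Order.succ (2 ^ ℵ₀ : Cardinal.{0})) M
    (Order.succ (2 ^ ℵ₀ : Cardinal.{0})).ord.ToType, inferInstance,
    ⟨⟨∅, ?_, fun x hx => hx.elim, fun _ _ _ h => h.elim⟩⟩,
    fun p => ⟨noNewReals hQ1 p, ?_, not_missesColour hκ h0 p⟩⟩
  · rw [Cardinal.mk_eq_zero]
    exact hκ.pos
  · exact staysRegular_proj hκ
      (fun N D hN hd hdense q =>
        exists_forall_mem hκ.aleph0_le (ColQ.dirClosed hκ) hN D hd hdense q)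
      id (fun a b h => h) (fun a q' h => ⟨q', h, le_rfl⟩) (fun q' => ⟨q', le_rfl⟩) p

end Pool.Agent.Helper669.KG
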