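import Mathlib
import Pool.Agent.Helper669.Iter

/-!
# The finite support iteration of Mathias-Prikry forcing with ultrafilters, with Cohen reals

At stage `ξ` a maximal family of names of subsets of `ℕ` whose finite intersections are forced
to be infinite is chosen: it is a name of an ultrafilter. The generic function enumerates, in its
first components, a set almost contained in all members of the ultrafilter; its second
components form a Cohen real.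
-/

namespace Pool.Agent.Helper669.MIter

open Cardinal Pool.Agent.Helper669.Iter

set_option linter.unusedSectionVars false

universe u

variable {I : Type u} [LinearOrder I] [WellFoundedLT I]

/-- names of subsets of `ℕ`: sequences of unions of basic sets -/
def Nm (B : Set (Rep I)) (ξ : I) : Set (ℕ → Set (Om I)) :=
  {X | ∀ k, ∀ w ∈ X k, ∃ q ∈ B, w ∈ bs q ξ ∧ bs q ξ ⊆ X k}

/-- finite intersections are forced to be infinite -/
def Fip (B : Set (Rep I)) (ξ : I) (U : Set (ℕ → Set (Om I))) : Prop :=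
  ∀ F : Finset (ℕ → Set (Om I)), (∀ X ∈ F, X ∈ U) → ∀ q ∈ B, ∀ N : ℕ,
    ∃ q' ∈ B, q' ≤ q ∧ ∃ k ≥ N, ∀ X ∈ F, bs q' ξ ⊆ X k

theorem exists_max (B : Set (Rep I)) (ξ : I) :
    ∃ U, U ⊆ Nm B ξ ∧ Fip B ξ U ∧ ∀ V, U ⊆ V → V ⊆ Nm B ξ → Fip B ξ V → V ⊆ U := by
  classical
  obtain ⟨U, _, hU⟩ := zorn_subset_nonempty {U | U ⊆ Nm B ξ ∧ Fip B ξ U} (by
      intro c hc hchain hne
      refine ⟨⋃₀ c, ⟨Set.sUnion_subset fun s hs => (hc hs).1, ?_⟩,
        fun s hs => Set.subset_sUnion_of_mem hs⟩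
      intro F hF q hq N
      have hex : ∃ s ∈ c, ∀ X ∈ F, X ∈ s := by
        clear hq N q
        induction F using Finset.induction_on with
        | empty =>
          obtain ⟨s, hs⟩ := hne
          exact ⟨s, hs, by simp⟩
        | insert a F _ ih =>
          obtain ⟨s, hs, h1⟩ := ih fun X hX => hF X (Finset.mem_insert_of_mem hX)
          obtain ⟨t, ht, h2⟩ := hF a (Finset.mem_insert_self a F)
          rcases hchain.total hs ht with h | h
          · refine ⟨t, ht, fun X hX => ?_⟩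
            rcases Finset.mem_insert.1 hX with rfl | hX
            · exact h2
            · exact h (h1 X hX)
          · refine ⟨s, hs, fun X hX => ?_⟩
            rcases Finset.mem_insert.1 hX with rfl | hX
            · exact h h2
            · exact h1 X hX
      obtain ⟨s, hs, h1⟩ := hex
      exact (hc hs).2 F h1 q hq N) ∅ ⟨Set.empty_subset _, fun F hF q hq N =>
        ⟨q, hq, le_rfl, N, le_rfl, fun X hX => absurd (hF X hX) (Set.notMem_empty _)⟩⟩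
  exact ⟨U, hU.prop.1, hU.prop.2, fun V h1 h2 h3 => hU.le_of_ge ⟨h2, h3⟩ h1⟩

/-- the chosen name of an ultrafilter -/
noncomputable def Uf (B : Set (Rep I)) (ξ : I) : Set (ℕ → Set (Om I)) := (exists_max B ξ).choose

theorem Uf_sub (B : Set (Rep I)) (ξ : I) : Uf B ξ ⊆ Nm B ξ := (exists_max B ξ).choose_spec.1

theorem Uf_fip (B : Set (Rep I)) (ξ : I) : Fip B ξ (Uf B ξ) := (exists_max B ξ).choose_spec.2.1

theorem Uf_max (B : Set (Rep I)) (ξ : I) {V : Set (ℕ → Set (Om I))} (h : Uf B ξ ⊆ V)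
    (h' : V ⊆ Nm B ξ) (h'' : Fip B ξ V) : V ⊆ Uf B ξ :=
  (exists_max B ξ).choose_spec.2.2 V h h' h''

/-- the promise that the first components lie in the set named by `X` -/
def pm (X : ℕ → Set (Om I)) : Pr I := fun _ m => X (Nat.unpair m).1

noncomputable def MStep (B : Set (Rep I)) (ξ : I) : Set (Pr I) := pm '' Uf B ξ

/-- the admissible promises, by recursion -/
noncomputable def MR : I → Set (Pr I) :=
  WellFoundedLT.fix (motive := fun _ : I => Set (Pr I)) fun ξ f =>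
    MStep {r | (∀ η, ∀ h : η < ξ, ∀ R ∈ r.pr η, R ∈ f η h) ∧ Below r ξ} ξ

theorem MR_eq (ξ : I) : MR ξ = MStep (Vd MR ξ) ξ := by
  rw [MR, WellFoundedLT.fix_eq]
  congr 1
  ext r
  constructor
  · rintro ⟨h1, h2⟩
    refine ⟨fun η R hR => ?_, h2⟩
    by_cases hη : η < ξ
    · exact h1 η hη R hR
    · rw [(h2 η (not_lt.1 hη)).2] at hR
      exact absurd hR (Finset.notMem_empty R)
  · rintro ⟨h1, h2⟩
    exact ⟨fun η _ R hR => h1 η R hR, h2⟩

/-- the chosen ultrafilter at stage `ξ` -/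
noncomputable def UU (ξ : I) : Set (ℕ → Set (Om I)) := Uf (Vd MR ξ) ξ

theorem mem_MR {ξ : I} {X : ℕ → Set (Om I)} (h : X ∈ UU ξ) : pm X ∈ MR ξ := by
  rw [MR_eq]
  exact ⟨X, h, rfl⟩

theorem amal_MR (ξ : I) (F : Finset (Pr I)) (hF : ∀ R ∈ F, R ∈ MR ξ) (N : ℕ) (q : Rep I)
    (hq : q ∈ Vd MR ξ) : ∃ q' ∈ Vd MR ξ, q' ≤ q ∧ ∃ k ≥ N, ∀ R ∈ F, ∀ n i,
      bs q' ξ ⊆ R n (Nat.pair k i) := by
  classical
  have h : ∀ R : Pr I, ∃ X, R ∈ F → (X ∈ UU ξ ∧ pm X = R) := by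
    intro R
    by_cases hR : R ∈ F
    · have := hF R hR
      rw [MR_eq] at this
      obtain ⟨X, hX, hXR⟩ := this
      exact ⟨X, fun _ => ⟨hX, hXR⟩⟩
    · exact ⟨fun _ => ∅, fun h => absurd h hR⟩
  choose X hX using h
  obtain ⟨q', hq', hle, k, hk, h1⟩ := Uf_fip (Vd MR ξ) ξ (F.image X) (fun Y hY => by
    obtain ⟨R, hR, rfl⟩ := Finset.mem_image.1 hY
    exact (hX R hR).1) q hq N
  refine ⟨q', hq', hle, k, hk, fun R hR n i => ?_⟩
  have h2 := h1 (X R) (Finset.mem_image_of_mem X hR)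
  rw [← (hX R hR).2]
  simpa [pm] using h2

theorem good (ξ : I) : Good (MR : I → Set (Pr I)) ξ where
  opn R hR n m w hw := by
    rw [MR_eq] at hR
    obtain ⟨X, hX, rfl⟩ := hR
    exact Uf_sub _ _ hX _ w hw
  amal F hF n q hq := by
    obtain ⟨q', hq', hle, k, _, h⟩ := amal_MR ξ F hF 0 q hq
    exact ⟨q', hq', hle, Nat.pair k 0, fun R hR => h R hR n 0⟩

/-- the ultrafilter decides every name -/
theorem decide_name {ξ : I} {X : ℕ → Set (Om I)} (hX : X ∈ Nm (Vd MR ξ) ξ) (q : Rep I) :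
    (∃ q' ∈ Vd MR ξ, q' ≤ q ∧ ∃ F : Finset (ℕ → Set (Om I)), (∀ Y ∈ F, Y ∈ UU ξ) ∧ ∃ N : ℕ,
      ∀ r ∈ Vd MR ξ, r ≤ q' → ∀ k ≥ N, ¬ ((∀ Y ∈ F, bs r ξ ⊆ Y k) ∧ bs r ξ ⊆ X k)) ∨
    ∃ X' ∈ UU ξ, ∀ r ∈ Vd MR ξ, r ≤ q → ∀ k, bs r ξ ⊆ X' k → bs r ξ ⊆ X k := by
  classical
  set D : Set (Rep I) := {q' | q' ∈ Vd MR ξ ∧ ∃ F : Finset (ℕ → Set (Om I)),
    (∀ Y ∈ F, Y ∈ UU ξ) ∧ ∃ N : ℕ, ∀ r ∈ Vd MR ξ, r ≤ q' → ∀ k ≥ N,
      ¬ ((∀ Y ∈ F, bs r ξ ⊆ Y k) ∧ bs r ξ ⊆ X k)} with hD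
  have hdown : ∀ a ∈ D, ∀ b ∈ Vd MR ξ, b ≤ a → b ∈ D := by
    rintro a ⟨_, F, hF, N, h⟩ b hb hba
    exact ⟨hb, F, hF, N, fun r hr hrb => h r hr (hrb.trans hba)⟩
  by_cases hcase : ∃ q' ∈ D, q' ≤ q
  · left
    obtain ⟨q', ⟨h1, F, hF, N, h⟩, hle⟩ := hcase
    exact ⟨q', h1, hle, F, hF, N, h⟩
  right
  set X' : ℕ → Set (Om I) := fun k => (⋃ a ∈ D, bs a ξ) ∪ X k with hX'
  have hX'Nm : X' ∈ Nm (Vd MR ξ) ξ := by
    intro k w hw
    rcases hw with hw | hw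
    · simp only [Set.mem_iUnion] at hw
      obtain ⟨a, ha, hwa⟩ := hw
      exact ⟨a, ha.1, hwa, fun v hv => Or.inl (Set.mem_biUnion ha hv)⟩
    · obtain ⟨a, ha, hwa, hsub⟩ := hX k w hw
      exact ⟨a, ha, hwa, fun v hv => Or.inr (hsub hv)⟩
  have hfip : Fip (Vd MR ξ) ξ (insert X' (UU ξ)) := by
    intro F hF p hp N
    have hF' : ∀ Y ∈ F.erase X', Y ∈ UU ξ := by
      intro Y hY
      obtain ⟨h1, h2⟩ := Finset.mem_erase.1 hY
      rcases hF Y h2 with h | h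
      · exact absurd h h1
      · exact h
    have key : ∃ q' ∈ Vd MR ξ, q' ≤ p ∧ ∃ k ≥ N, (∀ Y ∈ F.erase X', bs q' ξ ⊆ Y k) ∧
        bs q' ξ ⊆ X' k := by
      by_cases hc : ∃ p' ∈ D, p' ≤ p
      · obtain ⟨p', hp', hle⟩ := hc
        obtain ⟨q', hq', hle', k, hk, h⟩ := Uf_fip (Vd MR ξ) ξ (F.erase X') hF' p' hp'.1 N
        refine ⟨q', hq', hle'.trans hle, k, hk, h, fun w hw => Or.inl ?_⟩
        exact Set.mem_biUnion hp' (bs_le hle' ξ hw)
      · have hp' : p ∉ D := fun h => hc ⟨p, h, le_rfl⟩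
        have : ∃ r ∈ Vd MR ξ, r ≤ p ∧ ∃ k ≥ N, (∀ Y ∈ F.erase X', bs r ξ ⊆ Y k) ∧
            bs r ξ ⊆ X k := by
          by_contra hcon
          push Not at hcon
          refine hp' ⟨hp, F.erase X', hF', N, fun r hr hrp k hk hh => ?_⟩
          exact hcon r hr hrp k hk hh.1 hh.2
        obtain ⟨r, hr, hrp, k, hk, h1, h2⟩ := this
        exact ⟨r, hr, hrp, k, hk, h1, fun w hw => Or.inr (h2 hw)⟩
    obtain ⟨q', hq', hle, k, hk, h1, h2⟩ := key
    refine ⟨q', hq', hle, k, hk, fun Y hY => ?_⟩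
    by_cases hYX : Y = X'
    · rw [hYX]; exact h2
    · exact h1 Y (Finset.mem_erase.2 ⟨hYX, hY⟩)
  have hmem : X' ∈ UU ξ := by
    refine Uf_max (Vd MR ξ) ξ (V := insert X' (UU ξ)) (Set.subset_insert _ _) ?_ hfip
      (Set.mem_insert _ _)
    exact Set.insert_subset hX'Nm (Uf_sub _ _)
  refine ⟨X', hmem, fun r hr hrq k hk w hw => ?_⟩
  rcases hk hw with h | h
  · exfalso
    simp only [Set.mem_iUnion] at h
    obtain ⟨a, ha, hwa⟩ := h
    obtain ⟨s, hs, h1, h2⟩ := compat_of_point good hr ha.1 hw hwa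
    exact hcase ⟨s, hdown a ha s hs h2, h1.trans hrq⟩
  · exact h

end Pool.Agent.Helper669.MIter
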