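import Mathlib
import Pool.Agent.Helper669.MIter
import Pool.Agent.Helper669.GBase
import Pool.Agent.Helper669.Forcing
import Pool.Agent.Helper669.Forcing2

/-!
# The iteration of Mathias-Prikry forcing: splitting, reaping, and preservation of cardinals
-/

namespace Pool.Agent.Helper669.MMain

open Cardinal Pool.Agent.Helper669.Iter Pool.Agent.Helper669.MIter Pool.Agent.Helper669.Forcing
  Pool.Agent.Helper669.GBase Pool.Agent.Helper669.Forcing2

set_option linter.unusedSectionVars false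

universe u

/-! ### Statements about sets of natural numbers of the extension -/

section

variable {P : Type u} [Preorder P]

/-- `x` is infinite. -/
def InfSet (x : ℕ → Set P) : Set P :=
  fall fun N : ℕ => fex fun k : ℕ => fand (fground (N ≤ k)) (meets (x k))

/-- `s` splits `x`: both `x ∩ s` and `x \ s` are infinite. -/
def FSplits (s x : ℕ → Set P) : Set P :=
  fand
    (fall fun N : ℕ => fex fun k : ℕ => fand (fground (N ≤ k)) (fand (meets (x k)) (meets (s k))))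
    (fall fun N : ℕ => fex fun k : ℕ =>
      fand (fground (N ≤ k)) (fand (meets (x k)) (fnot (meets (s k)))))

/-- `|Y| < 𝔰` in the extension: for every family of sets indexed by `Y` there is an infinite set
which is not split by any of them. -/
def LtSplitting (P : Type u) [Preorder P] (Y : Type u) : Set P :=
  fall fun E : Y → ℕ → Set P =>
    fex fun x : ℕ → Set P => fand (InfSet x) (fall fun y => fnot (FSplits (E y) x))

/-- `|Y| < 𝔯` in the extension: for every family of infinite sets indexed by `Y` there is a set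
splitting all of them. -/
def LtReaping (P : Type u) [Preorder P] (Y : Type u) : Set P :=
  fall fun E : Y → ℕ → Set P => fimp (fall fun y => InfSet (E y))
    (fex fun s : ℕ → Set P => fall fun y => FSplits s (E y))

theorem down_InfSet (x : ℕ → Set P) : Down (InfSet x) := down_fall fun _ => down_fex _

theorem down_FSplits (s x : ℕ → Set P) : Down (FSplits s x) :=
  down_fand (down_fall fun _ => down_fex _) (down_fall fun _ => down_fex _)

end

variable {J : Type u} [LinearOrder J] [WellFoundedLT J]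

/-- the poset -/
abbrev PM (J : Type u) [LinearOrder J] [WellFoundedLT J] : Type u :=
  Cd (MR : WithTop J → Set (Pr (WithTop J)))

/-! ### Extending conditions -/

theorem push_pair (r : PM J) (η : J) (N i : ℕ) :
    ∃ k ≥ N, ∃ r' ≤ r, r'.1.st (η : WithTop J) = r.1.st η ++ [Nat.pair k i] := by
  have hη : (η : WithTop J) < ⊤ := WithTop.coe_lt_top η
  obtain ⟨q, hq, hle, k, hk, h⟩ := amal_MR (η : WithTop J) (r.1.pr η) (r.2.1 η) N
    (res r.1 η) (res_mem r.2.1 η)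
  refine ⟨k, hk, ⟨push (glue q r.1 η) η (Nat.pair k i),
    push_mem (glue_mem hq r.2 hη.le) hη _⟩, ?_, ?_⟩
  · show push (glue q r.1 η) η (Nat.pair k i) ≤ r.1
    refine le_trans (push_le fun R hR => ?_) (glue_le hle)
    rw [glue_pr_ge le_rfl] at hR
    rw [glue_st_ge le_rfl, bs_glue le_rfl]
    exact h R hR _ i
  · show (push (glue q r.1 η) η (Nat.pair k i)).st η = _
    rw [push_st_self, glue_st_ge le_rfl]

theorem push_to (ξ : J) (k i : ℕ) : ∀ d : ℕ, ∀ r : PM J, (r.1.st (ξ : WithTop J)).length + d = k →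
    ∃ r' ≤ r, k < (r'.1.st (ξ : WithTop J)).length ∧
      (Nat.unpair ((r'.1.st (ξ : WithTop J)).getD k 0)).2 = i := by
  intro d
  induction d with
  | zero =>
    intro r hr
    obtain ⟨m, _, r', h1, h2⟩ := push_pair r ξ 0 i
    rw [Nat.add_zero] at hr
    refine ⟨r', h1, by rw [h2]; simp; omega, ?_⟩
    rw [h2, List.getD_append_right _ _ _ _ hr.le, hr]
    simp
  | succ d ih =>
    intro r hr
    obtain ⟨m, _, r', h1, h2⟩ := push_pair r ξ 0 i
    obtain ⟨r'', h3, h4, h5⟩ := ih r' (by rw [h2]; simp; omega)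
    exact ⟨r'', h3.trans h1, h4, h5⟩

open Classical in
/-- adding finitely many promises -/
noncomputable def addG {I : Type u} [LinearOrder I] (r : Rep I) (η : I) (G : Finset (Pr I)) :
    Rep I where
  st := r.st
  pr ζ := if ζ = η then r.pr ζ ∪ G else r.pr ζ
  fin := by
    refine (r.fin.union (Set.finite_singleton η)).subset fun ζ hζ => ?_
    by_cases h : ζ = η
    · right; exact h
    · left; simpa [h] using hζ

theorem addG_pr {I : Type u} [LinearOrder I] {r : Rep I} {η : I} {G : Finset (Pr I)} {R : Pr I}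
    (hR : R ∈ G) : R ∈ (addG r η G).pr η := by
  classical
  simp [addG, hR]

theorem addG_le {I : Type u} [LinearOrder I] (r : Rep I) (η : I) (G : Finset (Pr I)) :
    addG r η G ≤ r := fun ζ => by
  classical
  refine ⟨List.prefix_refl _, ?_, fun _ _ _ h h' => absurd h' (not_lt.2 h)⟩
  by_cases h : ζ = η
  · simp [addG, h]
  · simp [addG, h]

theorem addG_mem {I : Type u} [LinearOrder I] {RR : I → Set (Pr I)} {r : Rep I} {τ η : I}
    {G : Finset (Pr I)} (hr : r ∈ Vd RR τ) (hη : η < τ) (hG : ∀ R ∈ G, R ∈ RR η) :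
    addG r η G ∈ Vd RR τ := by
  classical
  refine ⟨fun ζ R hR => ?_, fun ζ hζ => ⟨(hr.2 ζ hζ).1, ?_⟩⟩
  · by_cases h : ζ = η
    · subst h
      simp only [addG, if_true, Finset.mem_union] at hR
      rcases hR with hR | hR
      · exact hr.1 _ _ hR
      · exact hG R hR
    · simp only [addG, h, if_false] at hR
      exact hr.1 _ _ hR
  · have h : ζ ≠ η := (hη.trans_le hζ).ne'
    simp only [addG, h, if_false]
    exact (hr.2 ζ hζ).2

/-! ### The generic sets -/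

/-- the name of the generic pseudo-intersection added at coordinate `ξ` -/
def Mm (ξ : J) (k : ℕ) : Set (PM J) :=
  {p | ∃ n < (p.1.st (ξ : WithTop J)).length,
    (Nat.unpair ((p.1.st (ξ : WithTop J)).getD n 0)).1 = k}

/-- the name of the Cohen set added at coordinate `ξ` -/
def Ch (ξ : J) (k : ℕ) : Set (PM J) :=
  {p | k < (p.1.st (ξ : WithTop J)).length ∧
    (Nat.unpair ((p.1.st (ξ : WithTop J)).getD k 0)).2 = 1}

theorem down_Mm (ξ : J) (k : ℕ) : Down (Mm ξ k) := by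
  rintro p ⟨n, h1, h2⟩ q hq
  obtain ⟨h3, h4⟩ := st_mono hq ξ h1
  exact ⟨n, h3, by rw [h4]; exact h2⟩

theorem down_Ch (ξ : J) (k : ℕ) : Down (Ch ξ k) := by
  rintro p ⟨h1, h2⟩ q hq
  obtain ⟨h3, h4⟩ := st_mono hq ξ h1
  exact ⟨h3, by rw [h4]; exact h2⟩

theorem not_Ch {ξ : J} {k i : ℕ} (hi : i ≠ 1) {p : PM J}
    (h1 : k < (p.1.st (ξ : WithTop J)).length)
    (h2 : (Nat.unpair ((p.1.st (ξ : WithTop J)).getD k 0)).2 = i) : p ∈ fnot (meets (Ch ξ k)) := by
  intro q hq hm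
  obtain ⟨r, hr, h3⟩ := exists_of_meets (down_Ch ξ k) hm
  obtain ⟨h4, h5⟩ := st_mono (hr.trans hq) ξ h1
  apply hi
  rw [← h2, ← h5]
  exact h3.2

/-! ### Deciding names -/

theorem exists_decideA (x : ℕ → Set (PM J)) (k : ℕ) : ∃ A : Set (PM J), A.Countable ∧
    (∀ a ∈ A, a ∈ meets (x k) ∨ a ∈ fnot (meets (x k))) ∧ ∀ p, ∃ a ∈ A, Compat a p := by
  obtain ⟨A, h1, h2, h3, _⟩ := exists_antichain
    {q : PM J | q ∈ meets (x k) ∨ q ∈ fnot (meets (x k))} (fun q => by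
      by_cases hq : q ∈ fnot (meets (x k))
      · exact ⟨q, le_rfl, Or.inr hq⟩
      · simp only [fnot, Set.mem_ofPred_eq, not_forall, not_not] at hq
        obtain ⟨q', hq', h⟩ := hq
        exact ⟨q', hq', Or.inl h⟩)
  exact ⟨A, h2, h1, h3⟩

/-- the name `x` is decided by conditions below `ξ` -/
def DecBelow (x : ℕ → Set (PM J)) (ξ : J) : Prop :=
  ∀ k, ∃ A : Set (PM J), (∀ a ∈ A, Below a.1 (ξ : WithTop J)) ∧
    (∀ a ∈ A, a ∈ meets (x k) ∨ a ∈ fnot (meets (x k))) ∧ ∀ p, ∃ a ∈ A, Compat a p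

theorem exists_decBelow {κ : Cardinal.{u}} (hκ : ℵ₀ ≤ κ)
    (hcof : ∀ S : Set J, #S ≤ κ → ∃ b, ∀ s ∈ S, s < b) {Y : Type u} (hY : #Y ≤ κ)
    (E : Y → ℕ → Set (PM J)) : ∃ b : J, ∀ ξ, b ≤ ξ → ∀ y, DecBelow (E y) ξ := by
  choose A hA1 hA2 hA3 using fun y k => exists_decideA (E y) k
  obtain ⟨b, hb⟩ := exists_below hκ hcof (A := ⋃ y, ⋃ k, A y k) (by
    refine (mk_iUnion_le_sum_mk).trans ?_
    refine (Cardinal.sum_le_sum _ (fun _ => ℵ₀) fun y => ?_).trans ?_
    · exact Cardinal.le_aleph0_iff_set_countable.2 (Set.countable_iUnion fun k => hA1 y k)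
    · rw [Cardinal.sum_const']
      exact (mul_le_mul' hY hκ).trans (mul_eq_self hκ).le)
  refine ⟨b, fun ξ hξ y k => ⟨A y k, fun a ha => ?_, hA2 y k, hA3 y k⟩⟩
  exact (hb a (Set.mem_iUnion.2 ⟨y, Set.mem_iUnion.2 ⟨k, ha⟩⟩)).mono (WithTop.coe_le_coe.2 hξ)

theorem exists_stem_bound (l : List ℕ) : ∃ N : ℕ, ∀ n < l.length, (Nat.unpair (l.getD n 0)).1 < N := by
  induction l with
  | nil => exact ⟨0, by simp⟩
  | cons a l ih =>
    obtain ⟨N, hN⟩ := ih
    refine ⟨max N ((Nat.unpair a).1 + 1), fun n hn => ?_⟩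
    cases n with
    | zero => simp
    | succ n =>
      rw [List.getD_cons_succ]
      exact (hN n (by simpa using hn)).trans_le (le_max_left _ _)

/-! ### The generic set is not split by earlier sets -/

theorem unsplit {x : ℕ → Set (PM J)} {ξ : J} (hx : DecBelow x ξ) (p : PM J) :
    ∃ p' ≤ p, ∃ N : ℕ, (∀ k ≥ N, ∀ r ≤ p', r ∈ meets (Mm ξ k) → r ∉ meets (x k)) ∨
      (∀ k ≥ N, ∀ r ≤ p', r ∈ meets (Mm ξ k) → r ∉ fnot (meets (x k))) := by
  classical
  choose A hA1 hA2 hA3 using hx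
  have hξ : (ξ : WithTop J) < ⊤ := WithTop.coe_lt_top ξ
  let X : ℕ → Set (Om (WithTop J)) := fun k =>
    ⋃ a ∈ {a | a ∈ A k ∧ a ∈ meets (x k)}, bs a.1 (ξ : WithTop J)
  have hX : X ∈ Nm (Vd MR (ξ : WithTop J)) (ξ : WithTop J) := by
    intro k w hw
    simp only [X, Set.mem_iUnion] at hw
    obtain ⟨a, ha, hwa⟩ := hw
    exact ⟨a.1, ⟨a.2.1, hA1 k a ha.1⟩, hwa, fun v hv => Set.mem_biUnion ha hv⟩
  obtain ⟨N₀, hN₀⟩ := exists_stem_bound (p.1.st (ξ : WithTop J))
  rcases decide_name hX (resP p ξ).1 with ⟨q', hq', hle, F, hF, N, h⟩ | ⟨X', hX', h⟩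
  · let g : PM J := glueP ⟨q', hq'.1, hq'.2.mono le_top⟩ p ξ
    have hgp : g ≤ p := glueP_le hle
    have hgq : g ≤ (⟨q', hq'.1, hq'.2.mono le_top⟩ : PM J) := glueP_le_left hq'.2
    let p' : PM J := ⟨addG g.1 ξ (F.image pm), addG_mem g.2 hξ fun R hR => by
      obtain ⟨Y, hY, rfl⟩ := Finset.mem_image.1 hR
      exact mem_MR (hF Y hY)⟩
    have hp'g : p' ≤ g := addG_le g.1 ξ _
    have hst : p'.1.st (ξ : WithTop J) = p.1.st ξ := by
      show (glue q' p.1 (ξ : WithTop J)).st ξ = _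
      exact glue_st_ge le_rfl
    refine ⟨p', hp'g.trans hgp, max N N₀, Or.inl fun k hk r hr hm hrx => ?_⟩
    obtain ⟨r1, hr1, n, hn, hnk⟩ := exists_of_meets (down_Mm ξ k) hm
    have hr1p' : r1 ≤ p' := hr1.trans hr
    have hnlen : (p'.1.st (ξ : WithTop J)).length ≤ n := by
      by_contra hcon
      obtain ⟨_, h2⟩ := st_mono hr1p' ξ (not_le.1 hcon)
      rw [h2, hst] at hnk
      have := hN₀ n (by rw [← hst]; exact not_le.1 hcon)
      rw [hnk] at this
      exact absurd ((le_max_right _ _).trans hk) (not_le.2 this)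
    obtain ⟨a, ha, s, hsa, hsr⟩ := hA3 k r1
    have hax : a ∈ meets (x k) := by
      rcases hA2 k a ha with h1 | h1
      · exact h1
      · exact absurd (down_meets _ _ hrx s (hsr.trans hr1)) (h1 s hsa)
    refine h (resP s ξ).1 (resP_mem s ξ) ?_ k ((le_max_left _ _).trans hk) ⟨fun Y hY => ?_, ?_⟩
    · exact resP_le (q := (⟨q', hq'.1, hq'.2.mono le_top⟩ : PM J))
        (hsr.trans (hr1p'.trans (hp'g.trans hgq))) hq'.2
    · have h1 := (hr1p' (ξ : WithTop J)).2.2 (pm Y)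
        (addG_pr (Finset.mem_image_of_mem pm hY)) n hnlen hn
      have h2 : bs (resP s ξ).1 (ξ : WithTop J) = bs s.1 (ξ : WithTop J) := bs_res le_rfl
      rw [h2]
      have h3 : bs r1.1 (ξ : WithTop J) ⊆
        Y (Nat.unpair ((r1.1.st (ξ : WithTop J)).getD n 0)).1 := h1
      rw [hnk] at h3
      exact (bs_le hsr _).trans h3
    · have h2 : bs (resP s ξ).1 (ξ : WithTop J) = bs s.1 (ξ : WithTop J) := bs_res le_rfl
      rw [h2]
      exact fun v hv => Set.mem_biUnion (⟨ha, hax⟩ : a ∈ {a | a ∈ A k ∧ a ∈ meets (x k)})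
        (bs_le hsa _ hv)
  · let p' : PM J := ⟨addG p.1 ξ {pm X'}, addG_mem p.2 hξ fun R hR => by
      rw [Finset.mem_singleton] at hR
      rw [hR]
      exact mem_MR hX'⟩
    have hp'p : p' ≤ p := addG_le p.1 ξ _
    have hst : p'.1.st (ξ : WithTop J) = p.1.st ξ := rfl
    refine ⟨p', hp'p, N₀, Or.inr fun k hk r hr hm hrx => ?_⟩
    obtain ⟨r1, hr1, n, hn, hnk⟩ := exists_of_meets (down_Mm ξ k) hm
    have hr1p' : r1 ≤ p' := hr1.trans hr
    have hnlen : (p'.1.st (ξ : WithTop J)).length ≤ n := by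
      by_contra hcon
      obtain ⟨_, h2⟩ := st_mono hr1p' ξ (not_le.1 hcon)
      rw [h2, hst] at hnk
      have := hN₀ n (by rw [← hst]; exact not_le.1 hcon)
      rw [hnk] at this
      exact absurd hk (not_le.2 this)
    have h1 := (hr1p' (ξ : WithTop J)).2.2 (pm X')
      (addG_pr (Finset.mem_singleton_self _)) n hnlen hn
    have h2 : bs (resP r1 ξ).1 (ξ : WithTop J) = bs r1.1 (ξ : WithTop J) := bs_res le_rfl
    have h1' : bs r1.1 (ξ : WithTop J) ⊆
      X' (Nat.unpair ((r1.1.st (ξ : WithTop J)).getD n 0)).1 := h1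
    rw [hnk] at h1'
    have h3 := h (resP r1 ξ).1 (resP_mem r1 ξ) (resP_mono (hr1p'.trans hp'p) ξ) k (by
      rw [h2]
      exact h1')
    obtain ⟨w, hw⟩ := bs_nonempty good r1.2
    have h4 := h3 (by rw [h2]; exact hw ξ)
    simp only [X, Set.mem_iUnion] at h4
    obtain ⟨a, ha, hwa⟩ := h4
    obtain ⟨q, hq, hq1, hq2⟩ := compat_of_point good (resP_mem r1 ξ)
      ⟨a.2.1, hA1 k a ha.1⟩ (by rw [h2]; exact hw ξ) hwa
    obtain ⟨s, hs1, hs2, _⟩ := compat_res (p := r1) (hA1 k a ha.1)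
      ⟨⟨q, hq.1, hq.2.mono le_top⟩, hq2, hq1⟩
    exact hrx s (hs2.trans hr1) (down_meets _ _ ha.2 s hs1)

theorem infSet_Mm (ξ : J) (p : PM J) : p ∈ InfSet (Mm ξ) := by
  refine fun N => mem_fex.2 fun q _ => ?_
  obtain ⟨k, hk, r, hr, hst⟩ := push_pair q ξ N 0
  refine ⟨r, hr, k, hk, meets_of_mem ⟨(q.1.st (ξ : WithTop J)).length, ?_, ?_⟩⟩
  · rw [hst]; simp
  · rw [hst, List.getD_append_right _ _ _ _ le_rfl]; simp

theorem ltSplitting {κ : Cardinal.{u}} (hκ : ℵ₀ ≤ κ)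
    (hcof : ∀ S : Set J, #S ≤ κ → ∃ b, ∀ s ∈ S, s < b) {Y : Type u} (hY : #Y ≤ κ) (p : PM J) :
    p ∈ LtSplitting (PM J) Y := by
  intro E
  obtain ⟨b, hb⟩ := exists_decBelow hκ hcof hY E
  refine mem_fex_of_mem (Mm b) (down_fand (down_InfSet _) (down_fall fun _ => down_fnot _))
    ⟨infSet_Mm b p, fun y q _ hq => ?_⟩
  obtain ⟨p', hp', N, h | h⟩ := unsplit (hb b le_rfl y) q
  · obtain ⟨r, hr, k, hk, h1, h2⟩ := mem_fex.1 (hq.1 N) p' hp'
    exact h k hk r hr h1 h2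
  · obtain ⟨r, hr, k, hk, h1, h2⟩ := mem_fex.1 (hq.2 N) p' hp'
    exact h k hk r hr h1 h2

/-! ### The Cohen set splits earlier sets -/

theorem cohen_hits {x : ℕ → Set (PM J)} {ξ : J} (hx : DecBelow x ξ) {p : PM J}
    (hp : p ∈ InfSet x) (N i : ℕ) : ∃ k ≥ N, ∃ t ≤ p, t ∈ meets (x k) ∧
      k < (t.1.st (ξ : WithTop J)).length ∧
      (Nat.unpair ((t.1.st (ξ : WithTop J)).getD k 0)).2 = i := by
  obtain ⟨r, hr, k, hk, hrx⟩ :=
    mem_fex.1 (hp (max N (p.1.st (ξ : WithTop J)).length)) p le_rfl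
  have hk' : max N (p.1.st (ξ : WithTop J)).length ≤ k := hk
  obtain ⟨A, hA1, hA2, hA3⟩ := hx k
  obtain ⟨a, ha, s, hsa, hsr⟩ := hA3 r
  have hax : a ∈ meets (x k) := by
    rcases hA2 a ha with h1 | h1
    · exact h1
    · exact absurd (down_meets _ _ hrx s hsr) (h1 s hsa)
  obtain ⟨t, ht1, ht2, ht3⟩ := compat_res (p := p) (hA1 a ha)
    ⟨s, hsa, (hsr.trans hr).trans (le_resP p ξ)⟩
  have hlen : (t.1.st (ξ : WithTop J)).length ≤ k := by
    rw [(ht3 _ le_rfl).1]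
    exact (le_max_right _ _).trans hk'
  obtain ⟨t', ht', h1, h2⟩ := push_to ξ k i (k - (t.1.st (ξ : WithTop J)).length) t (by omega)
  exact ⟨k, (le_max_left _ _).trans hk', t', ht'.trans ht2,
    down_meets _ _ hax t' (ht'.trans ht1), h1, h2⟩

theorem ltReaping {κ : Cardinal.{u}} (hκ : ℵ₀ ≤ κ)
    (hcof : ∀ S : Set J, #S ≤ κ → ∃ b, ∀ s ∈ S, s < b) {Y : Type u} (hY : #Y ≤ κ) (p : PM J) :
    p ∈ LtReaping (PM J) Y := by
  intro E
  obtain ⟨b, hb⟩ := exists_decBelow hκ hcof hY E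
  refine mem_fimp.2 fun q _ hq => ⟨q, le_rfl, ?_⟩
  refine mem_fex_of_mem (Ch b) (down_fall fun _ => down_FSplits _ _) fun y => ⟨fun N => ?_,
    fun N => ?_⟩
  · refine mem_fex.2 fun r hr => ?_
    obtain ⟨k, hk, t, ht, h1, h2, h3⟩ :=
      cohen_hits (hb b le_rfl y) (down_InfSet _ _ (hq y) r hr) N 1
    exact ⟨t, ht, k, hk, h1, meets_of_mem ⟨h2, h3⟩⟩
  · refine mem_fex.2 fun r hr => ?_
    obtain ⟨k, hk, t, ht, h1, h2, h3⟩ :=
      cohen_hits (hb b le_rfl y) (down_InfSet _ _ (hq y) r hr) N 0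
    exact ⟨t, ht, k, hk, h1, not_Ch (by norm_num) h2 h3⟩

/-! ### The continuum is large -/

theorem ltContinuum {κ : Cardinal.{u}} (hκ : ℵ₀ ≤ κ)
    (hcof : ∀ S : Set J, #S ≤ κ → ∃ b, ∀ s ∈ S, s < b) {Y : Type u} (hY : #Y ≤ κ) (p : PM J) :
    p ∈ LtContinuum (PM J) Y := by
  intro q _ hq
  obtain ⟨r, _, E, hE⟩ := mem_fex.1 hq q le_rfl
  obtain ⟨b, hb⟩ := exists_decBelow hκ hcof hY E
  obtain ⟨s, hs, y, hy⟩ := mem_fex.1 (hE (Ch b)) r le_rfl
  set k := (s.1.st (b : WithTop J)).length with hk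
  obtain ⟨A, hA1, hA2, hA3⟩ := hb b le_rfl y k
  obtain ⟨a, ha, hcomp⟩ := hA3 (resP s b)
  obtain ⟨t, ht1, ht2, ht3⟩ := compat_res (p := s) (hA1 a ha) hcomp
  have hlen : (t.1.st (b : WithTop J)).length + 0 = k := by
    rw [(ht3 _ le_rfl).1]; rfl
  rcases hA2 a ha with h | h
  · obtain ⟨t', ht', h1, h2⟩ := push_to b k 0 0 t hlen
    obtain ⟨u, hu, hu'⟩ := mem_fimp.1 (hy k).2 t' (ht'.trans ht2)
      (down_meets _ _ h t' (ht'.trans ht1))
    exact not_Ch (by norm_num) h1 h2 u hu hu'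
  · obtain ⟨t', ht', h1, h2⟩ := push_to b k 1 0 t hlen
    obtain ⟨u, hu, hu'⟩ := mem_fimp.1 (hy k).1 t' (ht'.trans ht2)
      (meets_of_mem ⟨h1, h2⟩)
    exact h u (hu.trans (ht'.trans ht1)) hu'

/-! ### Cardinals -/

theorem cardinalsPreserved (p : PM J) : p ∈ CardinalsPreserved.{u, u} (PM J) := by
  intro μ ν hμν hν q _ hq
  obtain ⟨r, _, R, hR1, hR2⟩ := mem_fex.1 hq q le_rfl
  have h1 : ∀ y : ν.out, ∃ s ≤ r, ∃ x : μ.out, s ∈ meets (R x y) := fun y =>
    mem_fex.1 (hR2 y) r le_rfl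
  choose f hf x hx using h1
  obtain ⟨y, y', hne, hz, s, hs1, hs2⟩ := exists_compat_same (X := ν.out) (Z := μ.out) (by
    rw [mk_out, mk_out]
    exact mul_lt_of_lt hν.le hμν hν) f x
  apply hne
  refine IsFun.unique (down_IsFun R r hR1 s (hs1.trans (hf y))) (down_meets _ _ (hx y) s hs1) ?_
  rw [hz]
  exact down_meets _ _ (hx y') s hs2

theorem staysRegular {κ : Cardinal.{u}} (hκ : κ.IsRegular) (hunc : ℵ₀ < κ) (p : PM J) :
    p ∈ StaysRegular (PM J) κ := by
  classical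
  intro ν hν R
  refine mem_fimp.2 fun q _ hq => ⟨q, le_rfl, ?_⟩
  let V : Set κ.ord.ToType := ⋃ x : ν.out, {y | ∃ r ≤ q, r ∈ meets (R x y)}
  have hV1 : ∀ x : ν.out, #{y | ∃ r ≤ q, r ∈ meets (R x y)} ≤ ℵ₀ := by
    intro x
    by_contra hcon
    have hcon' : ¬ Countable {y | ∃ r ≤ q, r ∈ meets (R x y)} := by
      rw [← mk_le_aleph0_iff]; exact hcon
    choose f hf1 hf2 using fun y : {y | ∃ r ≤ q, r ∈ meets (R x y)} => y.2
    obtain ⟨y, y', hne, s, hs1, hs2⟩ := cond_ccc f hcon'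
    apply hne
    apply Subtype.ext
    exact IsFun.unique (down_IsFun R q hq s (hs1.trans (hf1 y)))
      (down_meets _ _ (hf2 y) s hs1) (down_meets _ _ (hf2 y') s hs2)
  have hV : #V < κ := by
    refine (mk_iUnion_le_sum_mk).trans_lt ?_
    refine (Cardinal.sum_le_sum _ (fun _ => ℵ₀) fun x => hV1 x).trans_lt ?_
    rw [Cardinal.sum_const', mk_out]
    exact mul_lt_of_lt hκ.aleph0_le hν hunc
  have hb : ∃ b, ∀ y ∈ V, y < b := by
    by_contra hcon
    push Not at hcon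
    have h1 : IsCofinal V := fun b => by
      obtain ⟨s, hs, hb⟩ := hcon b
      exact ⟨s, hs, hb⟩
    have h2 := Order.cof_le h1
    rw [Ordinal.cof_toType, hκ.cof_ord] at h2
    exact absurd h2 (not_le.2 hV)
  obtain ⟨b, hb⟩ := hb
  refine mem_fex_of_mem b (down_fall fun _ => down_fall fun _ => down_fimp _ _) ?_
  intro x y
  refine mem_fimp.2 fun r hr hm => ⟨r, le_rfl, ?_⟩
  exact hb y (Set.mem_iUnion.2 ⟨x, r, hr, hm⟩)

end Pool.Agent.Helper669.MMain
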