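import Mathlib
import Pool.Agent.Helper669.ODefs

/-!
# Pseudointersections of countable chains of names
-/

namespace Pool.Agent.Helper669.OChain

open Cardinal Pool.Agent.Helper669.Iter Pool.Agent.Helper669.Forcing
  Pool.Agent.Helper669.OIter Pool.Agent.Helper669.ODefs

set_option linter.unusedSectionVars false

universe u

variable {J : Type u} [LinearOrder J] [WellFoundedLT J] {E : Set (WithTop J)}

section
variable {P : Type u} [Preorder P]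

/-- the first `l + 1` sets contain `z` -/
def cpPhi (T : ℕ → ℕ → Set P) (l z : ℕ) : Set P := {t | ∀ l' ≤ l, t ∈ T l' z}

/-- `z` is the least element `≥ l` of the intersection of the first `l + 1` sets, for some `l` -/
def cpPsi (T : ℕ → ℕ → Set P) (z : ℕ) : Set P :=
  {r | ∃ l ≤ z, r ∈ cpPhi T l z ∧ ∀ z', l ≤ z' → z' < z → r ∈ fnot (cpPhi T l z')}

theorem cp_down {T : ℕ → ℕ → Set P} (hT : ∀ l z, Reg (T l z)) (l z : ℕ) : Down (cpPhi T l z) :=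
  fun p hp q hq l' hl' => (hT l' z).1 p (hp l' hl') q hq

theorem cp_asub_refl (p : P) (X : ℕ → Set P) : ASub p X X :=
  fun r _ => ⟨r, le_rfl, 0, fun _ _ _ _ h => h⟩

theorem cp_asub_trans {p : P} {X Y Z : ℕ → Set P} (h1 : ASub p X Y) (h2 : ASub p Y Z) :
    ASub p X Z := by
  intro r hr
  obtain ⟨s, hs, k, hk⟩ := h1 r hr
  obtain ⟨s', hs', k', hk'⟩ := h2 s (hs.trans hr)
  refine ⟨s', hs'.trans hs, max k k', ?_⟩
  intro m hm t ht htX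
  exact hk' m ((le_max_right _ _).trans hm) t ht
    (hk m ((le_max_left _ _).trans hm) t (ht.trans hs') htX)

theorem cp_lead {T : ℕ → ℕ → Set P} {u : P}
    (hch : ∀ l l', ∀ r ≤ u, ∃ s ≤ r, ASub s (T l) (T l') ∨ ASub s (T l') (T l)) (l : ℕ) :
    ∀ r ≤ u, ∃ s ≤ r, ∃ l0, ∀ l' ≤ l, ASub s (T l0) (T l') := by
  induction l with
  | zero =>
    intro r _
    refine ⟨r, le_rfl, 0, fun l' hl' => ?_⟩
    obtain rfl : l' = 0 := by omega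
    exact cp_asub_refl r _
  | succ l ih =>
    intro r hr
    obtain ⟨s, hs, l0, h0⟩ := ih r hr
    obtain ⟨s', hs', h1 | h1⟩ := hch l0 (l + 1) s (hs.trans hr)
    · refine ⟨s', hs'.trans hs, l0, fun l' hl' => ?_⟩
      by_cases h2 : l' ≤ l
      · exact (h0 l' h2).mono hs'
      · obtain rfl : l' = l + 1 := by omega
        exact h1
    · refine ⟨s', hs'.trans hs, l + 1, fun l' hl' => ?_⟩
      by_cases h2 : l' ≤ l
      · exact cp_asub_trans h1 ((h0 l' h2).mono hs')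
      · obtain rfl : l' = l + 1 := by omega
        exact cp_asub_refl s' _

theorem cp_fin {T : ℕ → ℕ → Set P} {s0 : P} {l0 : ℕ} (n : ℕ)
    (h : ∀ l' < n, ASub s0 (T l0) (T l')) :
    ∀ r ≤ s0, ∃ s ≤ r, ∃ k, ∀ l' < n, SubAt s (T l0) (T l') k := by
  induction n with
  | zero => exact fun r _ => ⟨r, le_rfl, 0, fun l' hl' => absurd hl' (Nat.not_lt_zero l')⟩
  | succ n ih =>
    intro r hr
    obtain ⟨s, hs, k, hk⟩ := ih (fun l' hl' => h l' (by omega)) r hr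
    obtain ⟨s', hs', k', hk'⟩ := h n (by omega) s (hs.trans hr)
    refine ⟨s', hs'.trans hs, max k k', fun l' hl' => ?_⟩
    by_cases h2 : l' < n
    · exact (hk l' h2).mono hs' (le_max_left _ _)
    · obtain rfl : l' = n := by omega
      exact hk'.mono le_rfl (le_max_right _ _)

theorem cp_meet {T : ℕ → ℕ → Set P} {u : P}
    (hinf : ∀ l k, ∀ r ≤ u, ∃ s ≤ r, ∃ m, k ≤ m ∧ s ∈ T l m)
    (hch : ∀ l l', ∀ r ≤ u, ∃ s ≤ r, ASub s (T l) (T l') ∨ ASub s (T l') (T l)) (l k : ℕ) :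
    ∀ r ≤ u, ∃ s ≤ r, ∃ z, k ≤ z ∧ s ∈ cpPhi T l z := by
  intro r hr
  obtain ⟨s, hs, l0, h0⟩ := cp_lead hch l r hr
  obtain ⟨s', hs', k', hk'⟩ := cp_fin (l + 1) (fun l' hl' => h0 l' (by omega)) s le_rfl
  obtain ⟨t, ht, m, hm, htm⟩ := hinf l0 (max k k') s' (hs'.trans (hs.trans hr))
  refine ⟨t, ht.trans (hs'.trans hs), m, (le_max_left _ _).trans hm, ?_⟩
  intro l' hl'
  exact hk' l' (by omega) m ((le_max_right _ _).trans hm) t ht htm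

theorem cp_inf {T : ℕ → ℕ → Set P} {u : P}
    (hinf : ∀ l k, ∀ r ≤ u, ∃ s ≤ r, ∃ m, k ≤ m ∧ s ∈ T l m)
    (hch : ∀ l l', ∀ r ≤ u, ∃ s ≤ r, ASub s (T l) (T l') ∨ ASub s (T l') (T l)) (k : ℕ) :
    ∀ r ≤ u, ∃ s ≤ r, ∃ m, k ≤ m ∧ s ∈ cpPsi T m := by
  classical
  intro r hr
  have hex : ∃ z, k ≤ z ∧ ∃ s ≤ r, s ∈ cpPhi T k z := by
    obtain ⟨s, hs, z, hz, hsz⟩ := cp_meet hinf hch k k r hr
    exact ⟨z, hz, s, hs, hsz⟩
  obtain ⟨h1, s, hs, h2⟩ := Nat.find_spec hex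
  refine ⟨s, hs, Nat.find hex, h1, k, h1, h2, ?_⟩
  intro z' hz' hz'' q hq hqz
  exact Nat.find_min hex hz'' ⟨hz', q, hq.trans hs, hqz⟩

theorem cp_pre {T : ℕ → ℕ → Set P} (hT : ∀ l z, Reg (T l z)) {u : P}
    (hinf : ∀ l k, ∀ r ≤ u, ∃ s ≤ r, ∃ m, k ≤ m ∧ s ∈ T l m)
    (hch : ∀ l l', ∀ r ≤ u, ∃ s ≤ r, ASub s (T l) (T l') ∨ ASub s (T l') (T l)) (n : ℕ) :
    ∀ r ≤ u, ∃ s ≤ r, ∃ K, n ≤ K ∧ ∀ l < n, ∃ z, l ≤ z ∧ z < K ∧ s ∈ cpPhi T l z := by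
  induction n with
  | zero => exact fun r _ => ⟨r, le_rfl, 0, le_rfl, fun l hl => absurd hl (Nat.not_lt_zero l)⟩
  | succ n ih =>
    intro r hr
    obtain ⟨s, hs, K, hK, h⟩ := ih r hr
    obtain ⟨s', hs', z, hz, hsz⟩ := cp_meet hinf hch n n s (hs.trans hr)
    refine ⟨s', hs'.trans hs, max K z + 1, by
      have := le_max_left K z
      omega, ?_⟩
    intro l hl
    by_cases h2 : l < n
    · obtain ⟨y, h3, h4, h5⟩ := h l h2
      refine ⟨y, h3, ?_, cp_down hT l y s h5 s' hs'⟩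
      have := le_max_left K z
      omega
    · obtain rfl : l = n := by omega
      refine ⟨z, hz, ?_, hsz⟩
      have := le_max_right K z
      omega

theorem cp_asub {T : ℕ → ℕ → Set P} (hT : ∀ l z, Reg (T l z)) {u : P}
    (hinf : ∀ l k, ∀ r ≤ u, ∃ s ≤ r, ∃ m, k ≤ m ∧ s ∈ T l m)
    (hch : ∀ l l', ∀ r ≤ u, ∃ s ≤ r, ASub s (T l) (T l') ∨ ASub s (T l') (T l))
    (B : ℕ → Set P) (hB : ∀ z, ∀ t ∈ B z, ∀ q ≤ t, ∃ r ≤ q, ∃ s ∈ cpPsi T z, r ≤ s) (l' : ℕ) :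
    ASub u B (T l') := by
  intro r hr
  obtain ⟨s, hs, K, hK, h⟩ := cp_pre hT hinf hch l' r hr
  refine ⟨s, hs, K, ?_⟩
  intro z hz t ht htB
  apply (hT l' z).2 t
  intro q hq
  obtain ⟨r', hr', s', ⟨l, _, h1, h2⟩, hrs⟩ := hB z t htB q hq
  by_cases h3 : l' ≤ l
  · exact ⟨r', hr', (hT l' z).1 s' (h1 l' h3) r' hrs⟩
  · exfalso
    obtain ⟨y, h4, h5, h6⟩ := h l (by omega)
    exact h2 y h4 (by omega) r' hrs (cp_down hT l y s h6 r' (hr'.trans (hq.trans ht)))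

end

theorem cp_loc_phi {ξ : WithTop J} {T : ℕ → ℕ → Set (Cond E)} (hT : ∀ l z, Loc ξ (T l z))
    (l z : ℕ) : Loc ξ (cpPhi T l z) := fun p =>
  ⟨fun h l' hl' => (hT l' z p).mp (h l' hl'), fun h l' hl' => (hT l' z p).mpr (h l' hl')⟩

theorem cp_loc_fnot {ξ : WithTop J} {φ : Set (Cond E)} (hφ : Loc ξ φ) {s : Cond E}
    (hs : s ∈ fnot φ) : resP s ξ ∈ fnot φ := by
  intro q hq hqφ
  obtain ⟨s', h1, h2, -⟩ := exists_glue hq
  apply hs s' h1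
  rw [hφ s', h2, ← hφ q]
  exact hqφ

theorem cp_res {ξ : WithTop J} {T : ℕ → ℕ → Set (Cond E)} (hT : ∀ l z, Loc ξ (T l z))
    {z : ℕ} {s : Cond E} (hs : s ∈ cpPsi T z) : resP s ξ ∈ cpPsi T z := by
  obtain ⟨l, hl, h1, h2⟩ := hs
  exact ⟨l, hl, (cp_loc_phi hT l z s).mp h1,
    fun z' h3 h4 => cp_loc_fnot (cp_loc_phi hT l z') (h2 z' h3 h4)⟩

/-- a countable chain of names below `ξ` for infinite sets has a pseudointersection below `ξ` -/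
theorem chain_pseudo {ξ : WithTop J} (T : ℕ → ℕ → Set (Cond E)) (hTreg : ∀ l z, Reg (T l z))
    (hTloc : ∀ l z, Loc ξ (T l z)) {u : Cond E}
    (hinf : ∀ l k, ∀ r ≤ u, ∃ s ≤ r, ∃ m, k ≤ m ∧ s ∈ T l m)
    (hch : ∀ l l', ∀ r ≤ u, ∃ s ≤ r, ASub s (T l) (T l') ∨ ASub s (T l') (T l)) :
    ∃ B : ℕ → Set (Cond E), (∀ z, Reg (B z)) ∧ (∀ z, Loc ξ (B z)) ∧
      (∀ k, ∀ r ≤ u, ∃ s ≤ r, ∃ m, k ≤ m ∧ s ∈ B m) ∧ ∀ l, ASub u B (T l) := by
  refine ⟨fun z => meets {r | Below r.1 ξ ∧ r ∈ cpPsi T z}, fun z => reg_meets _,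
    fun z => loc_meets fun p hp => hp.1, ?_, ?_⟩
  · intro k r hr
    obtain ⟨s, hs, m, hm, h⟩ := cp_inf hinf hch k r hr
    exact ⟨s, hs, m, hm, meets_of_le ⟨below_resP s ξ, cp_res hTloc h⟩ (le_resP s ξ)⟩
  · apply cp_asub hTreg hinf hch
    intro z t ht q hq
    obtain ⟨r, hr, s, hs, hrs⟩ := ht q hq
    exact ⟨r, hr, s, hs.2, hrs⟩

end Pool.Agent.Helper669.OChain
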