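import Mathlib
import Pool.Agent.Helper669.ODefs

/-!
# The compactness property of the iteration
-/

namespace Pool.Agent.Helper669.OFusion

open Cardinal Pool.Agent.Helper669.Iter Pool.Agent.Helper669.Forcing
  Pool.Agent.Helper669.OIter Pool.Agent.Helper669.ODefs

set_option linter.unusedSectionVars false

universe u

variable {J : Type u} [LinearOrder J] [WellFoundedLT J] {E : Set (WithTop J)}

/-- the trivial condition -/
def oneC (E : Set (WithTop J)) : Cond E := ⟨one _, one_mem _ _⟩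

/-- tuples of promises -/
def Tup (E : Set (WithTop J)) (ζ : J) (k : ℕ) : Type u :=
  {F : Fin (k + 1) → Pr (WithTop J) // ∀ j, F j ∈ ER E (ζ : WithTop J)}

open Classical in
/-- the condition `v` with the stem `t` and the promises `F` at `ζ` -/
noncomputable def cnd (ζ : J) (t : List ℕ) (k : ℕ) (v : Cond E) (F : Tup E ζ k) : Cond E :=
  mkP v ζ t (Finset.univ.image F.1) (by
    intro R hR
    obtain ⟨j, _, rfl⟩ := Finset.mem_image.1 hR
    exact F.2 j) (oneC E)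

def NoExt (X : ℕ → Set (Cond E)) (ζ : J) (t : List ℕ) (k : ℕ) (v : Cond E) (F : Tup E ζ k)
    (M : ℕ) : Prop := ∀ r' ≤ cnd ζ t k v F, r' ∉ X M

/-- the excluded value of the promise with number `s` is `x` (`none`: larger than `L`) -/
def Sat (ζ : J) (k : ℕ) (v : Cond E) (F : Tup E ζ k) (s : ℕ) (x : Option ℕ) (L : ℕ) : Prop :=
  ∀ m : ℕ, (x = none → m ≤ L) → x ≠ some m →
    bs v.1 (ζ : WithTop J) ⊆ F.1 ⟨s % (k + 1), Nat.mod_lt _ (Nat.succ_pos k)⟩ (s / (k + 1)) m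

def Bad (X : ℕ → Set (Cond E)) (ζ : J) (t : List ℕ) (k : ℕ) (v : Cond E)
    (α : List (Option ℕ)) : Prop :=
  ∀ w ≤ v, Below w.1 (ζ : WithTop J) → ∀ M L : ℕ, ∃ w' ≤ w, Below w'.1 (ζ : WithTop J) ∧
    ∃ F : Tup E ζ k, NoExt X ζ t k w' F M ∧
      ∀ s < α.length, Sat ζ k w' F s (α.getD s none) L

theorem cnd_mono {ζ : J} {t : List ℕ} {k : ℕ} {v w : Cond E} (h : w ≤ v) (F : Tup E ζ k)
    (hw : Below w.1 (ζ : WithTop J)) :
    cnd ζ t k w F ≤ cnd ζ t k v F := by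
  have h1 : resP w (ζ : WithTop J) ≤ resP v ζ := resP_mono h _
  rw [resP_eq hw] at h1
  refine mk3_le ?_ ?_ ?_ ?_ ?_
  · show w.1 ≤ res (mk3 v.1 ζ t _ _) ζ
    rw [res_mk3]; exact h1
  · show (mk3 v.1 ζ t _ _).st ζ <+: t
    rw [mk3_st_self]
  · show (mk3 v.1 ζ t _ _).pr ζ ⊆ _
    rw [mk3_pr_self]
  · intro R _ i hi hi'
    change ((mk3 v.1 (ζ : WithTop J) t _ _).st ζ).length ≤ i at hi
    rw [mk3_st_self] at hi
    exact absurd hi' (not_lt.2 hi)
  · intro η hη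
    left
    constructor
    · show (mk3 v.1 ζ t _ _).st η = []
      rw [mk3_st_gt hη]; rfl
    · show (mk3 v.1 ζ t _ _).pr η = ∅
      rw [mk3_pr_gt hη]; rfl

theorem Sat.mono {ζ : J} {k : ℕ} {v w : Cond E} {F : Tup E ζ k} {s : ℕ} {x : Option ℕ}
    {L L' : ℕ} (h : Sat ζ k v F s x L) (hw : w ≤ v) (hL : L' ≤ L) : Sat ζ k w F s x L' :=
  fun m hm hm' => (bs_le hw _).trans (h m (fun hx => (hm hx).trans hL) hm')

section
variable {X : ℕ → Set (Cond E)} (hXd : ∀ M, Down (X M)) (hXm : ∀ M M', M ≤ M' → X M ⊆ X M')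
  {ζ : J} {t : List ℕ} {k : ℕ}

include hXm in
theorem NoExt.mono {v w : Cond E} {F : Tup E ζ k} {M M' : ℕ} (h : NoExt X ζ t k v F M)
    (hw : w ≤ v) (hwb : Below w.1 (ζ : WithTop J)) (hM : M' ≤ M) : NoExt X ζ t k w F M' :=
  fun r' hr' hX => h r' (hr'.trans (cnd_mono hw F hwb)) (hXm _ _ hM hX)

include hXm in
theorem bad_step {v : Cond E} {α : List (Option ℕ)} (hb : Bad X ζ t k v α) {w : Cond E}
    (hw : w ≤ v) (hwb : Below w.1 (ζ : WithTop J)) :
    ∃ w' ≤ w, Below w'.1 (ζ : WithTop J) ∧ ∃ x, Bad X ζ t k w' (α ++ [x]) := by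
  by_contra hcon
  push Not at hcon
  have hnb : ∀ w' ≤ w, Below w'.1 (ζ : WithTop J) → ∀ x : Option ℕ, ∃ w₁ ≤ w',
      Below w₁.1 (ζ : WithTop J) ∧ ∃ M L : ℕ, ∀ w₂ ≤ w₁, Below w₂.1 (ζ : WithTop J) →
        ∀ F : Tup E ζ k, NoExt X ζ t k w₂ F M →
          (∀ s < α.length, Sat ζ k w₂ F s (α.getD s none) L) → ¬ Sat ζ k w₂ F α.length x L := by
    intro w' hw' hb' x
    have h := hcon w' hw' hb' x
    unfold Bad at h
    push Not at h
    obtain ⟨w₁, h1, h2, M, L, h3⟩ := h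
    refine ⟨w₁, h1, h2, M, L, fun w₂ h4 h5 F h6 h7 h8 => ?_⟩
    obtain ⟨s, hs, h9⟩ := h3 w₂ h4 h5 F h6
    rw [List.length_append, List.length_singleton] at hs
    rcases Nat.lt_succ_iff_lt_or_eq.1 hs with h10 | h10
    · rw [List.getD_append _ _ _ _ h10] at h9
      exact h9 (h7 s h10)
    · subst h10
      rw [List.getD_append_right _ _ _ _ le_rfl] at h9
      simp only [Nat.sub_self, List.getD_cons_zero] at h9
      exact h9 h8
  obtain ⟨w₀, hw₀, hb₀, M₀, L₀, h₀⟩ := hnb w le_rfl hwb none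
  have hind : ∀ l : ℕ, ∃ w₁ ≤ w₀, Below w₁.1 (ζ : WithTop J) ∧ ∃ M L : ℕ, ∀ m < l, ∀ w₂ ≤ w₁,
      Below w₂.1 (ζ : WithTop J) → ∀ F : Tup E ζ k, NoExt X ζ t k w₂ F M →
        (∀ s < α.length, Sat ζ k w₂ F s (α.getD s none) L) →
          ¬ Sat ζ k w₂ F α.length (some m) 0 := by
    intro l
    induction l with
    | zero => exact ⟨w₀, le_rfl, hb₀, 0, 0, fun m hm => absurd hm (Nat.not_lt_zero m)⟩
    | succ l ih =>
      obtain ⟨w₁, h1, h2, M, L, h3⟩ := ih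
      obtain ⟨w₂, h4, h5, M', L', h6⟩ := hnb w₁ (h1.trans hw₀) h2 (some l)
      refine ⟨w₂, h4.trans h1, h5, max M M', max L L', fun m hm w₃ h7 h8 F h9 h10 h11 => ?_⟩
      rcases Nat.lt_succ_iff_lt_or_eq.1 hm with h12 | rfl
      · exact h3 m h12 w₃ (h7.trans h4) h8 F (NoExt.mono hXm h9 le_rfl h8 (le_max_left _ _))
          (fun s hs => (h10 s hs).mono le_rfl (le_max_left _ _)) h11
      · exact h6 w₃ h7 h8 F (NoExt.mono hXm h9 le_rfl h8 (le_max_right _ _))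
          (fun s hs => (h10 s hs).mono le_rfl (le_max_right _ _))
          (fun m' h13 h14 => h11 m' (fun h => by cases h) h14)
  obtain ⟨w₁, hw₁, hb₁, M₁, L₁, h₁⟩ := hind (L₀ + 1)
  obtain ⟨w₂, hw₂, hb₂, F, hF1, hF2⟩ := hb w₁ (hw₁.trans (hw₀.trans hw)) hb₁ (max M₀ M₁)
    (max L₀ L₁)
  obtain ⟨q, hq, hqle, m₀, hm₀⟩ := (mem_ER.1 (F.2 ⟨α.length % (k + 1),
    Nat.mod_lt _ (Nat.succ_pos k)⟩)).2.2 (α.length / (k + 1)) w₂.1 ⟨w₂.2.1, hb₂⟩
  let w₃ : Cond E := ⟨q, hq.1, hq.2.mono le_top⟩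
  have hw₃ : w₃ ≤ w₂ := hqle
  have hb₃ : Below w₃.1 (ζ : WithTop J) := hq.2
  by_cases hm : m₀ < L₀ + 1
  · refine h₁ m₀ hm w₃ (hw₃.trans hw₂) hb₃ F (NoExt.mono hXm hF1 hw₃ hb₃ (le_max_right _ _))
      (fun s hs => (hF2 s hs).mono hw₃ (le_max_right _ _)) fun m _ h2 => hm₀ m ?_
    rintro rfl
    exact h2 rfl
  · refine h₀ w₃ (hw₃.trans (hw₂.trans hw₁)) hb₃ F
      (NoExt.mono hXm hF1 hw₃ hb₃ (le_max_left _ _))
      (fun s hs => (hF2 s hs).mono hw₃ (le_max_left _ _)) fun m h2 _ => hm₀ m ?_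
    have := h2 rfl
    omega

/-- the labelled antichains -/
structure Inv (X : ℕ → Set (Cond E)) (ζ : J) (t : List ℕ) (k : ℕ) (u : Cond E) (s : ℕ)
    (L : Set (Cond E × List (Option ℕ))) : Prop where
  count : L.Countable
  mem : ∀ p ∈ L, Below p.1.1 (ζ : WithTop J) ∧ p.1 ≤ u ∧ p.2.length = s ∧ Bad X ζ t k p.1 p.2
  anti : ∀ p ∈ L, ∀ q ∈ L, Compat p.1 q.1 → p = q
  pre : ∀ w ≤ u, ∃ p ∈ L, Compat p.1 w

def Nxt (L L' : Set (Cond E × List (Option ℕ))) : Prop :=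
  ∀ p' ∈ L', ∃ p ∈ L, p'.1 ≤ p.1 ∧ ∃ x, p'.2 = p.2 ++ [x]

include hXm in
theorem inv_step {u : Cond E} (hu : Below u.1 (ζ : WithTop J)) {s : ℕ}
    {L : Set (Cond E × List (Option ℕ))} (h : Inv X ζ t k u s L) :
    ∃ L', Inv X ζ t k u (s + 1) L' ∧ Nxt L L' := by
  classical
  obtain ⟨A, hAD, hAc, hAp, hAa⟩ := exists_antichain_below (ζ : WithTop J)
    {w : Cond E | Below w.1 (ζ : WithTop J) ∧
      ((∃ p ∈ L, w ≤ p.1 ∧ ∃ x, Bad X ζ t k w (p.2 ++ [x])) ∨ ¬ Compat w u)}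
    (fun q hq => hq.1) (by
      intro p hp
      by_cases hc : Compat p u
      · obtain ⟨a, h1, h2⟩ := hc
        obtain ⟨l, hl, b, h3, h4⟩ := h.pre (resP a ζ) (resP_le h2 hu)
        obtain ⟨w, hw, hwb, x, hx⟩ := bad_step hXm (h.mem l hl).2.2.2
          (w := resP b ζ) (resP_le h3 (h.mem l hl).1) (below_resP b _)
        refine ⟨w, hw.trans ((resP_le h4 (below_resP a _)).trans (resP_le h1 hp)), hwb,
          Or.inl ⟨l, hl, hw.trans (resP_le h3 (h.mem l hl).1), x, hx⟩⟩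
      · exact ⟨p, le_rfl, hp, Or.inr hc⟩)
  have hA' : ∀ a : Cond E, ∃ (l : Cond E × List (Option ℕ)) (x : Option ℕ), a ∈ A → Compat a u →
      l ∈ L ∧ a ≤ l.1 ∧ Bad X ζ t k a (l.2 ++ [x]) := by
    intro a
    by_cases ha : a ∈ A ∧ Compat a u
    · rcases (hAD ha.1).2 with ⟨l, h1, h2, x, h3⟩ | h1
      · exact ⟨l, x, fun _ _ => ⟨h1, h2, h3⟩⟩
      · exact absurd ha.2 h1
    · exact ⟨(a, []), none, fun h1 h2 => absurd ⟨h1, h2⟩ ha⟩
  choose l x hlx using hA'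
  refine ⟨(fun a => (a, (l a).2 ++ [x a])) '' {a | a ∈ A ∧ Compat a u}, ⟨?_, ?_, ?_, ?_⟩, ?_⟩
  · exact (hAc.mono fun a ha => ha.1).image _
  · rintro _ ⟨a, ⟨ha, hau⟩, rfl⟩
    obtain ⟨h1, h2, h3⟩ := hlx a ha hau
    refine ⟨(hAD ha).1, h2.trans (h.mem _ h1).2.1, ?_, h3⟩
    simp [(h.mem _ h1).2.2.1]
  · rintro _ ⟨a, ⟨ha, hau⟩, rfl⟩ _ ⟨b, ⟨hb, hbu⟩, rfl⟩ hc
    have : a = b := hAa a ha b hb hc
    subst this
    rfl
  · intro w hw
    obtain ⟨a, ha, c, h1, h2⟩ := hAp w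
    exact ⟨_, ⟨a, ⟨ha, c, h1, h2.trans hw⟩, rfl⟩, c, h1, h2⟩
  · rintro _ ⟨a, ⟨ha, hau⟩, rfl⟩
    obtain ⟨h1, h2, _⟩ := hlx a ha hau
    exact ⟨l a, h1, h2, x a, rfl⟩

include hXd hXm in
theorem fusion_tuple (hX : ∀ p, ∃ q ≤ p, ∃ M, q ∈ X M) (hζ : (ζ : WithTop J) ∈ E) (u : Cond E)
    (hu : Below u.1 (ζ : WithTop J)) :
    ∃ u' ≤ u, Below u'.1 (ζ : WithTop J) ∧ ∃ M, ∀ v ≤ u', Below v.1 (ζ : WithTop J) →
      ∀ F : Tup E ζ k, ∃ r' ≤ cnd ζ t k v F, r' ∈ X M := by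
  classical
  by_contra hcon
  push Not at hcon
  have hbad : Bad X ζ t k u [] := by
    intro w hw hwb M L
    obtain ⟨v, hv, hvb, F, hF⟩ := hcon w hw hwb M
    exact ⟨v, hv, hvb, F, hF, fun s hs => absurd hs (by simp)⟩
  have hinv0 : Inv X ζ t k u 0 {(u, [])} := by
    refine ⟨Set.countable_singleton _, ?_, ?_, ?_⟩
    · rintro _ rfl
      exact ⟨hu, le_rfl, rfl, hbad⟩
    · rintro _ rfl _ rfl _; rfl
    · intro w hw
      exact ⟨_, rfl, w, hw, le_rfl⟩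
  have hstep : ∀ (s : ℕ) (L : Set (Cond E × List (Option ℕ))), Inv X ζ t k u s L →
      ∃ L', Inv X ζ t k u (s + 1) L' ∧ Nxt L L' := fun s L h => inv_step hXm hu h
  choose! f hf1 hf2 using hstep
  obtain ⟨Lab, hLab, hNxt⟩ : ∃ Lab : ℕ → Set (Cond E × List (Option ℕ)),
      (∀ s, Inv X ζ t k u s (Lab s)) ∧ ∀ s, Nxt (Lab s) (Lab (s + 1)) := by
    let Lab : ℕ → Set (Cond E × List (Option ℕ)) :=
      fun s => Nat.rec {(u, [])} (fun s L => f s L) s
    have hLab : ∀ s, Inv X ζ t k u s (Lab s) := by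
      intro s
      induction s with
      | zero => exact hinv0
      | succ s ih => exact hf1 s (Lab s) ih
    exact ⟨Lab, hLab, fun s => hf2 s (Lab s) (hLab s)⟩
  have hchain : ∀ s d, ∀ p ∈ Lab (s + d), ∃ p' ∈ Lab s, p.1 ≤ p'.1 ∧ p'.2 = p.2.take s := by
    intro s d
    induction d with
    | zero =>
      intro p hp
      refine ⟨p, hp, le_rfl, ?_⟩
      have := ((hLab s).mem p hp).2.2.1
      rw [← this, List.take_length]
    | succ d ih =>
      intro p hp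
      obtain ⟨p1, h1, h2, x, h3⟩ := hNxt (s + d) p hp
      obtain ⟨p2, h4, h5, h6⟩ := ih p1 h1
      refine ⟨p2, h4, h2.trans h5, ?_⟩
      rw [h3, h6, List.take_append_of_le_length]
      rw [((hLab (s + d)).mem p1 h1).2.2.1]
      omega
  -- conditions incompatible with `u`
  obtain ⟨A₂, hA₂D, hA₂c, hA₂p, _⟩ := exists_antichain_below (ζ : WithTop J)
    {w : Cond E | Below w.1 (ζ : WithTop J) ∧ (w ≤ u ∨ ¬ Compat w u)} (fun q hq => hq.1) (by
      intro p hp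
      by_cases hc : Compat p u
      · obtain ⟨a, h1, h2⟩ := hc
        exact ⟨resP a ζ, resP_le h1 hp, below_resP a _, Or.inl (resP_le h2 hu)⟩
      · exact ⟨p, le_rfl, hp, Or.inr hc⟩)
  let O : Set (Cond E) := {a | a ∈ A₂ ∧ ¬ Compat a u}
  -- the limit promises
  let S : Fin (k + 1) → ℕ → ℕ → Set (Cond E × List (Option ℕ)) := fun j n m =>
    {p | p ∈ Lab (n * (k + 1) + j + 1) ∧ p.2.getD (n * (k + 1) + j) none ≠ some m}
  let Rf : Fin (k + 1) → Pr (WithTop J) := fun j n m =>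
    ⋃ q ∈ (fun p : Cond E × List (Option ℕ) => p.1.1) '' S j n m ∪ Subtype.val '' O,
      bs q (ζ : WithTop J)
  have hRf : ∀ j, Rf j ∈ ER E (ζ : WithTop J) := by
    intro j
    rw [mem_ER]
    refine ⟨hζ, fun n m => ⟨(fun p : Cond E × List (Option ℕ) => p.1.1) '' S j n m ∪
      Subtype.val '' O, ?_, ?_, rfl⟩, fun n q hq => ?_⟩
    · rintro _ (⟨p, hp, rfl⟩ | ⟨a, ha, rfl⟩)
      · exact ⟨p.1.2.1, ((hLab _).mem p hp.1).1⟩
      · exact ⟨a.2.1, (hA₂D ha.1).1⟩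
    · exact ((((hLab _).count.mono fun p hp => hp.1)).image _).union
        ((hA₂c.mono fun a ha => ha.1).image _)
    · let qc : Cond E := ⟨q, hq.1, hq.2.mono le_top⟩
      by_cases hc : Compat qc u
      · obtain ⟨a, h1, h2⟩ := hc
        obtain ⟨p, hp, b, h3, h4⟩ := (hLab (n * (k + 1) + j + 1)).pre (resP a ζ) (resP_le h2 hu)
        have h5 : resP b (ζ : WithTop J) ≤ p.1 := resP_le h3 ((hLab _).mem p hp).1
        have h6 : resP b (ζ : WithTop J) ≤ qc :=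
          (resP_le h4 (below_resP a _)).trans (resP_le h1 hq.2)
        refine ⟨(resP b ζ).1, resP_mem b ζ, h6, (p.2.getD (n * (k + 1) + j) none).getD 0,
          fun m hm => ?_⟩
        refine (bs_le h5 _).trans (Set.subset_biUnion_of_mem (u := fun q => bs q (ζ : WithTop J))
          (Or.inl ⟨p, ⟨hp, fun h => hm ?_⟩, rfl⟩))
        rw [h]; rfl
      · obtain ⟨a, ha, b, h1, h2⟩ := hA₂p qc
        have ha' : a ∈ O := by
          refine ⟨ha, fun hc' => ?_⟩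
          rcases (hA₂D ha).2 with h3 | h3
          · exact hc ⟨b, h2, h1.trans h3⟩
          · exact h3 hc'
        refine ⟨(resP b ζ).1, resP_mem b ζ, resP_le (q := qc) h2 hq.2, 0, fun m _ => ?_⟩
        exact (bs_le (resP_le h1 (hA₂D ha).1) _).trans
          (Set.subset_biUnion_of_mem (u := fun q => bs q (ζ : WithTop J))
          (Or.inr ⟨a, ha', rfl⟩))
  let pinf : Cond E := cnd ζ t k u ⟨Rf, hRf⟩
  obtain ⟨qs, hqs, M₀, hqM⟩ := hX pinf
  set ts : List ℕ := qs.1.st (ζ : WithTop J) with hts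
  obtain ⟨L, hL⟩ : ∃ L, ∀ i < ts.length, ts.getD i 0 ≤ L := by
    obtain ⟨L, hL⟩ := ((Set.finite_lt_nat ts.length).image fun i => ts.getD i 0).bddAbove
    exact ⟨L, fun i hi => hL ⟨i, hi, rfl⟩⟩
  have hqsu : resP qs (ζ : WithTop J) ≤ u := by
    have h1 := resP_mono hqs (ζ : WithTop J)
    have h2 : resP pinf (ζ : WithTop J) = u := by
      apply Subtype.ext
      show res (mk3 u.1 ζ t _ _) ζ = u.1
      rw [res_mk3]; exact res_eq_self hu
    rwa [h2] at h1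
  obtain ⟨p, hp, w, hw1, hw2⟩ := (hLab (ts.length * (k + 1))).pre _ hqsu
  have hw1' : resP w (ζ : WithTop J) ≤ p.1 := resP_le hw1 ((hLab _).mem p hp).1
  have hw2' : resP w (ζ : WithTop J) ≤ resP qs ζ := resP_le hw2 (below_resP qs _)
  obtain ⟨v, hv, hvb, F, hF1, hF2⟩ := ((hLab _).mem p hp).2.2.2 (resP w ζ) hw1' (below_resP w _)
    M₀ L
  have hvq : v ≤ resP qs (ζ : WithTop J) := hv.trans hw2'
  have hpinf : ∀ η, _ := hqs
  obtain ⟨hpre, _, hprom⟩ := hpinf (ζ : WithTop J)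
  have hpst : pinf.1.st (ζ : WithTop J) = t := mk3_st_self
  have hppr : pinf.1.pr (ζ : WithTop J) = Finset.univ.image Rf := mk3_pr_self
  let rs : Cond E := mkP v ζ ts (qs.1.pr ζ ∪ Finset.univ.image F.1) (by
    intro R hR
    rcases Finset.mem_union.1 hR with h | h
    · exact qs.2.1 _ R h
    · obtain ⟨j, _, rfl⟩ := Finset.mem_image.1 h
      exact F.2 j) qs
  have hrs1 : rs ≤ qs := by
    refine mk3_le (r := qs.1) hvq (List.prefix_refl _) Finset.subset_union_left ?_ ?_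
    · intro R _ i hi hi'
      exact absurd hi' (not_lt.2 hi)
    · exact fun η _ => Or.inr ⟨rfl, rfl⟩
  have hrs2 : rs ≤ cnd ζ t k v F := by
    refine mk3_le ?_ ?_ ?_ ?_ ?_
    · show v.1 ≤ res (mk3 v.1 ζ t _ _) ζ
      rw [res_mk3, res_eq_self hvb]
    · show (mk3 v.1 ζ t _ _).st ζ <+: ts
      rw [mk3_st_self]
      rwa [hpst] at hpre
    · show (mk3 v.1 ζ t _ _).pr ζ ⊆ _
      rw [mk3_pr_self]
      exact Finset.subset_union_right
    · intro R hR i hi hi'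
      change R ∈ (mk3 v.1 (ζ : WithTop J) t _ _).pr ζ at hR
      change ((mk3 v.1 (ζ : WithTop J) t _ _).st ζ).length ≤ i at hi
      rw [mk3_st_self] at hi
      rw [mk3_pr_self] at hR
      obtain ⟨j, _, rfl⟩ := Finset.mem_image.1 hR
      have hs1 : (i * (k + 1) + j) / (k + 1) = i := by
        rw [Nat.add_comm, Nat.add_mul_div_right _ _ (Nat.succ_pos k), Nat.div_eq_of_lt j.2,
          Nat.zero_add]
      have hs2 : (i * (k + 1) + j) % (k + 1) = j := by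
        rw [Nat.add_comm, Nat.add_mul_mod_self_right, Nat.mod_eq_of_lt j.2]
      have hlt : i * (k + 1) + j + 1 ≤ ts.length * (k + 1) := by
        have h1 : (i + 1) * (k + 1) ≤ ts.length * (k + 1) := Nat.mul_le_mul_right _ hi'
        have h2 := j.2
        have h3 : (i + 1) * (k + 1) = i * (k + 1) + (k + 1) := by ring
        omega
      have hplen : p.2.length = ts.length * (k + 1) := ((hLab _).mem p hp).2.2.1
      have hsat := hF2 (i * (k + 1) + j) (by rw [hplen]; omega) (ts.getD i 0) (fun _ => hL i hi')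
        ?_
      · have e1 : (⟨(i * (k + 1) + j) % (k + 1), Nat.mod_lt _ (Nat.succ_pos k)⟩ : Fin (k + 1)) = j :=
          Fin.ext hs2
        rw [e1, hs1] at hsat
        exact hsat
      · -- the value is not the excluded one
        intro heq
        obtain ⟨w₀, hw₀⟩ := bs_nonempty (good E) v.2
        have h1 : w₀ ∈ bs qs.1 (ζ : WithTop J) := by
          have := bs_le (r' := v.1) (r := res qs.1 ζ) hvq (ζ : WithTop J) (hw₀ ζ)
          rwa [bs_res le_rfl] at this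
        have h2 := hprom (Rf j) (by rw [hppr]; exact Finset.mem_image_of_mem _ (Finset.mem_univ j))
          i (by rw [hpst]; exact hi) hi' h1
        obtain ⟨_, ⟨q, rfl⟩, h3⟩ := h2
        simp only [Set.mem_iUnion] at h3
        obtain ⟨h4, h5⟩ := h3
        rcases h4 with ⟨p', ⟨hp', hne⟩, rfl⟩ | ⟨a, ha, rfl⟩
        · obtain ⟨d, hd⟩ := Nat.exists_eq_add_of_le hlt
          obtain ⟨p'', h6, h7, h8⟩ := hchain (i * (k + 1) + j + 1) d p (by rw [← hd]; exact hp)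
          obtain ⟨c, hc, hc1, hc2⟩ := compat_of_point (good E) (τ := (ζ : WithTop J))
            (r := v.1) (r' := p'.1.1) ⟨v.2.1, hvb⟩ ⟨p'.1.2.1, ((hLab _).mem p' hp').1⟩ (hw₀ ζ) h5
          have h9 : p' = p'' := (hLab _).anti p' hp' p'' h6
            ⟨⟨c, hc.1, hc.2.mono le_top⟩, hc2, (le_trans (α := Cond E)
              (a := ⟨c, hc.1, hc.2.mono le_top⟩) (b := v) hc1 (hv.trans (hw1'.trans h7)))⟩
          apply hne
          rw [h9, h8, ← heq, List.getD_eq_getElem?_getD, List.getD_eq_getElem?_getD,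
            List.getElem?_take_of_lt (Nat.lt_succ_self _)]
        · obtain ⟨c, hc, hc1, hc2⟩ := compat_of_point (good E) (τ := (ζ : WithTop J))
            (r := v.1) (r' := a.1) ⟨v.2.1, hvb⟩ ⟨a.2.1, (hA₂D ha.1).1⟩ (hw₀ ζ) h5
          exact ha.2 ⟨⟨c, hc.1, hc.2.mono le_top⟩, hc2, (le_trans (α := Cond E)
              (a := ⟨c, hc.1, hc.2.mono le_top⟩) (b := v) hc1 (hvq.trans hqsu))⟩
    · intro η hη
      left
      constructor
      · show (mk3 v.1 ζ t _ _).st η = []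
        rw [mk3_st_gt hη]; rfl
      · show (mk3 v.1 ζ t _ _).pr η = ∅
        rw [mk3_pr_gt hη]; rfl
  exact hF1 rs hrs2 (hXd M₀ qs hqM rs hrs1)

end

theorem fusion (E : Set (WithTop J)) : Fusion E := by
  classical
  intro ζ t k X hXd hXm hX u hu
  by_cases hζ : (ζ : WithTop J) ∈ E
  · obtain ⟨u', h1, h2, M, h3⟩ := fusion_tuple hXd hXm (t := t) (k := k) hX hζ u hu
    refine ⟨u', h1, h2, M, fun r hr hru => ?_⟩
    obtain ⟨hr1, hr2, hr3⟩ := hr
    -- enumerate the promises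
    have hQc : (insert triv (r.1.pr ζ)).card ≤ k + 1 :=
      (Finset.card_insert_le _ _).trans (by omega)
    obtain ⟨F, hF⟩ : ∃ F : Fin (k + 1) → Pr (WithTop J),
        Finset.univ.image F = insert triv (r.1.pr ζ) := by
      set Q := insert triv (r.1.pr ζ) with hQ
      have hc : Q.card ≤ k + 1 := hQc
      let e := Q.equivFin
      refine ⟨fun j => if h : j.1 < Q.card then (e.symm ⟨j.1, h⟩).1 else triv, ?_⟩
      ext R
      simp only [Finset.mem_image, Finset.mem_univ, true_and]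
      constructor
      · rintro ⟨j, rfl⟩
        by_cases h : j.1 < Q.card
        · rw [dif_pos h]; exact (e.symm ⟨j.1, h⟩).2
        · rw [dif_neg h]; exact Finset.mem_insert_self _ _
      · intro hR
        refine ⟨⟨(e ⟨R, hR⟩).1, (e ⟨R, hR⟩).2.trans_le hc⟩, ?_⟩
        rw [dif_pos (e ⟨R, hR⟩).2]
        simp
    have hFm : ∀ j, F j ∈ ER E (ζ : WithTop J) := by
      intro j
      have : F j ∈ insert triv (r.1.pr ζ) := by
        rw [← hF]; exact Finset.mem_image_of_mem _ (Finset.mem_univ j)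
      rcases Finset.mem_insert.1 this with h | h
      · rw [h]; exact triv_mem hζ
      · exact r.2.1 _ _ h
    obtain ⟨r', h4, h5⟩ := h3 (resP r ζ) hru (below_resP r _) ⟨F, hFm⟩
    refine ⟨r', h4.trans ?_, h5⟩
    refine mk3_le (r := r.1) ?_ ?_ ?_ ?_ ?_
    · exact le_rfl (a := (resP r (ζ : WithTop J)).1)
    · rw [hr1]
    · show r.1.pr ζ ⊆ Finset.univ.image F
      rw [hF]; exact Finset.subset_insert _ _
    · intro R _ i hi hi'
      rw [hr1] at hi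
      exact absurd hi' (not_lt.2 hi)
    · exact fun η hη => Or.inl (hr3 η hη)
  · have hpr : ∀ r : Cond E, r.1.pr (ζ : WithTop J) = ∅ := by
      intro r
      rw [Finset.eq_empty_iff_forall_notMem]
      intro R hR
      exact hζ (mem_ER.1 (r.2.1 _ R hR)).1
    obtain ⟨r₁, h1, M, h2⟩ := hX (mkP u ζ t ∅ (by simp) (oneC E))
    have h3 : resP r₁ (ζ : WithTop J) ≤ u := by
      have h4 := resP_mono h1 (ζ : WithTop J)
      have h5 : resP (mkP u ζ t ∅ (by simp) (oneC E)) (ζ : WithTop J) = u := by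
        apply Subtype.ext
        show res (mk3 u.1 ζ t _ _) ζ = u.1
        rw [res_mk3]; exact res_eq_self hu
      rwa [h5] at h4
    refine ⟨resP r₁ ζ, h3, below_resP r₁ _, M, fun r hr hru => ?_⟩
    obtain ⟨hr1, hr2, hr3⟩ := hr
    have h6 : glueP (resP r ζ) r₁ (ζ : WithTop J) ≤ r₁ := glueP_le hru
    refine ⟨_, ?_, hXd M r₁ h2 _ h6⟩
    intro η
    show r.1.st η <+: (glue (res r.1 ζ) r₁.1 ζ).st η ∧ r.1.pr η ⊆ (glue (res r.1 ζ) r₁.1 ζ).pr η ∧
      ∀ R ∈ r.1.pr η, ∀ i, (r.1.st η).length ≤ i → i < ((glue (res r.1 ζ) r₁.1 ζ).st η).length →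
        bs (glue (res r.1 ζ) r₁.1 ζ) η ⊆ R i (((glue (res r.1 ζ) r₁.1 ζ).st η).getD i 0)
    rcases lt_trichotomy η (ζ : WithTop J) with h | h | h
    · rw [glue_st_lt h, glue_pr_lt h, res_st_lt h, res_pr_lt h]
      exact ⟨List.prefix_refl _, Finset.Subset.refl _, fun _ _ _ h h' => absurd h' (not_lt.2 h)⟩
    · rw [h, hpr r, glue_st_ge le_rfl, hr1]
      refine ⟨?_, Finset.empty_subset _, fun R hR => absurd hR (Finset.notMem_empty R)⟩
      have := (h1 (ζ : WithTop J)).1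
      have h7 : (mkP u ζ t ∅ (by simp) (oneC E)).1.st (ζ : WithTop J) = t := mk3_st_self
      rwa [h7] at this
    · obtain ⟨h8, h9⟩ := hr3 η h
      rw [h8, h9]
      exact ⟨List.nil_prefix, Finset.empty_subset _, fun R hR => absurd hR (Finset.notMem_empty R)⟩

end Pool.Agent.Helper669.OFusion
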