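import Mathlib
import Pool.Agent.Helper669.OFusion

/-!
# Countable names
-/

namespace Pool.Agent.Helper669.OCode

open Cardinal Pool.Agent.Helper669.Iter Pool.Agent.Helper669.Forcing
  Pool.Agent.Helper669.OIter Pool.Agent.Helper669.ODefs

set_option linter.unusedSectionVars false

universe u

variable {J : Type u} [LinearOrder J] [WellFoundedLT J] {E : Set (WithTop J)}

theorem loc_fnot {ξ : WithTop J} {φ : Set (Cond E)} (h : Loc ξ φ) : Loc ξ (fnot φ) := by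
  intro p
  constructor
  · intro hp q hq hqφ
    obtain ⟨s, hs, h1, _⟩ := exists_glue (q := q) (p := p) hq
    refine hp s hs ?_
    rw [h s, h1, ← h q]
    exact hqφ
  · exact fun hp => down_fnot φ _ hp _ (le_resP p ξ)

theorem exists_code {ξ : WithTop J} {φ : Set (Cond E)} (hφ : Reg φ) (hloc : Loc ξ φ) :
    ∃ a : Set (Cond E), a.Countable ∧ (∀ p ∈ a, Below p.1 ξ) ∧ meets a = φ := by
  obtain ⟨A, hA, hAc, hAp, _⟩ := exists_antichain_below ξ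
    {p : Cond E | Below p.1 ξ ∧ (p ∈ φ ∨ p ∈ fnot φ)} (fun q hq => hq.1) (by
      intro p hp
      by_cases h : p ∈ φ
      · exact ⟨p, le_rfl, hp, Or.inl h⟩
      · obtain ⟨q, hq, hq'⟩ := exists_fnot hφ h
        exact ⟨resP q ξ, resP_le hq hp, below_resP q ξ, Or.inr ((loc_fnot hloc q).1 hq')⟩)
  refine ⟨A ∩ φ, hAc.mono Set.inter_subset_left, fun p hp => (hA hp.1).1, ?_⟩
  ext p
  constructor
  · intro hp
    refine hφ.2 p fun q hq => ?_
    obtain ⟨r, hr, s, hs, hrs⟩ := hp q hq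
    exact ⟨r, hr, hφ.1 s hs.2 r hrs⟩
  · intro hp q hq
    obtain ⟨a, ha, s, h1, h2⟩ := hAp q
    refine ⟨s, h2, a, ⟨ha, ?_⟩, h1⟩
    rcases (hA ha).2 with h3 | h3
    · exact h3
    · exact absurd (hφ.1 p hp s (h2.trans hq)) (h3 s h1)

theorem exists_fcode {ξ : WithTop J} {H : ℕ → ℕ → Set (Cond E)} (hH : FName H)
    (hloc : ∀ m y, Loc ξ (H m y)) : ∃ h : ℕ → ℕ → Set (Cond E), (∀ m y, (h m y).Countable) ∧
      (∀ m y, ∀ p ∈ h m y, Below p.1 ξ) ∧ FName (fun m y => meets (h m y)) ∧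
      ∀ p (T : ℕ → Set (Cond E)), ABd p H T → ABd p (fun m y => meets (h m y)) T := by
  have : ∀ m, ∃ A ⊆ {p : Cond E | Below p.1 ξ ∧ ∃ y, p ∈ H m y}, A.Countable ∧
      (∀ p, ∃ a ∈ A, Compat a p) ∧ ∀ a ∈ A, ∀ b ∈ A, Compat a b → a = b := by
    intro m
    refine exists_antichain_below ξ _ (fun q hq => hq.1) fun p hp => ?_
    obtain ⟨q, hq, y, hy⟩ := hH.dense m p
    exact ⟨resP q ξ, resP_le hq hp, below_resP q ξ, y, (hloc m y q).1 hy⟩
  choose A hA hAc hAp _ using this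
  refine ⟨fun m y => A m ∩ H m y, fun m y => (hAc m).mono Set.inter_subset_left,
    fun m y p hp => (hA m hp.1).1, ⟨fun m y => down_meets _, ?_, ?_⟩, ?_⟩
  · intro m y y' hy p hp q hq
    obtain ⟨r, hr, s, hs, hrs⟩ := hp q hq
    exact ⟨r, hr, s, ⟨hs.1, hH.mono m y y' hy hs.2⟩, hrs⟩
  · intro m p
    obtain ⟨a, ha, s, h1, h2⟩ := hAp m p
    obtain ⟨_, y, hy⟩ := hA m ha
    exact ⟨s, h2, y, meets_of_le (s := a) ⟨ha, hy⟩ h1⟩
  · intro p T hp r hr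
    obtain ⟨s, hs, k, hk⟩ := hp r hr
    refine ⟨s, hs, k, fun m hm y q hq hqm => ?_⟩
    obtain ⟨q', hq', a, ha, hqa⟩ := hqm q le_rfl
    obtain ⟨r', h1, z, h2, h3, h4⟩ := hk m hm y q' (hq'.trans hq) (hH.down m y a ha.2 q' hqa)
    exact ⟨r', h1.trans hq', z, h2, h3, h4⟩

/-! ### Transport along order automorphisms -/

section
variable {P : Type u} [Preorder P] (Θ : P ≃o P)

theorem meets_image (N : Set P) (p : P) : Θ p ∈ meets (Θ '' N) ↔ p ∈ meets N := by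
  constructor
  · intro hp q hq
    obtain ⟨r, hr, _, ⟨s, hs, rfl⟩, hrs⟩ := hp (Θ q) (Θ.le_iff_le.2 hq)
    refine ⟨Θ.symm r, ?_, s, hs, ?_⟩
    · rw [← Θ.le_iff_le, Θ.apply_symm_apply]; exact hr
    · rw [← Θ.le_iff_le, Θ.apply_symm_apply]; exact hrs
  · intro hp q hq
    obtain ⟨r, hr, s, hs, hrs⟩ := hp (Θ.symm q) (by
      rw [← Θ.le_iff_le, Θ.apply_symm_apply]; exact hq)
    refine ⟨Θ r, ?_, Θ s, ⟨s, hs, rfl⟩, Θ.le_iff_le.2 hrs⟩
    have := Θ.le_iff_le.2 hr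
    rwa [Θ.apply_symm_apply] at this

theorem asub_act {X Y X' Y' : ℕ → Set P} (hX : ∀ z p, Θ p ∈ X' z ↔ p ∈ X z)
    (hY : ∀ z p, Θ p ∈ Y' z ↔ p ∈ Y z) {p : P} (h : ASub p X Y) : ASub (Θ p) X' Y' := by
  intro r hr
  obtain ⟨s, hs, k, hk⟩ := h (Θ.symm r) (by rw [← Θ.le_iff_le, Θ.apply_symm_apply]; exact hr)
  refine ⟨Θ s, ?_, k, fun m hm t ht htX => ?_⟩
  · have := Θ.le_iff_le.2 hs
    rwa [Θ.apply_symm_apply] at this
  · have h1 := hk m hm (Θ.symm t) (by rw [← Θ.le_iff_le, Θ.apply_symm_apply]; exact ht)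
      (by rw [← hX, Θ.apply_symm_apply]; exact htX)
    rwa [← hY, Θ.apply_symm_apply] at h1

theorem abd_act {H H' : ℕ → ℕ → Set P} {Y Y' : ℕ → Set P}
    (hH : ∀ m y p, Θ p ∈ H' m y ↔ p ∈ H m y)
    (hY : ∀ z p, Θ p ∈ Y' z ↔ p ∈ Y z) {p : P} (h : ABd p H Y) : ABd (Θ p) H' Y' := by
  intro r hr
  obtain ⟨s, hs, k, hk⟩ := h (Θ.symm r) (by rw [← Θ.le_iff_le, Θ.apply_symm_apply]; exact hr)
  refine ⟨Θ s, ?_, k, fun m hm y t ht htX => ?_⟩
  · have := Θ.le_iff_le.2 hs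
    rwa [Θ.apply_symm_apply] at this
  · obtain ⟨r', h1, z, h2, h3, h4⟩ := hk m hm y (Θ.symm t)
      (by rw [← Θ.le_iff_le, Θ.apply_symm_apply]; exact ht)
      (by rw [← hH, Θ.apply_symm_apply]; exact htX)
    refine ⟨Θ r', ?_, z, h2, h3, (hY z r').2 h4⟩
    have := Θ.le_iff_le.2 h1
    rwa [Θ.apply_symm_apply] at this

theorem fname_act {H H' : ℕ → ℕ → Set P} (hH : ∀ m y p, Θ p ∈ H' m y ↔ p ∈ H m y)
    (h : FName H) : FName H' := by
  refine ⟨fun m y p hp q hq => ?_, fun m y y' hy p hp => ?_, fun m p => ?_⟩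
  · have h1 : Θ.symm p ∈ H m y := by rw [← hH, Θ.apply_symm_apply]; exact hp
    have h2 := h.down m y _ h1 (Θ.symm q) (by
      rw [← Θ.le_iff_le, Θ.apply_symm_apply, Θ.apply_symm_apply]; exact hq)
    rwa [← hH, Θ.apply_symm_apply] at h2
  · have h1 : Θ.symm p ∈ H m y := by rw [← hH, Θ.apply_symm_apply]; exact hp
    have h2 := h.mono m y y' hy h1
    rwa [← hH, Θ.apply_symm_apply] at h2
  · obtain ⟨q, hq, y, hy⟩ := h.dense m (Θ.symm p)
    refine ⟨Θ q, ?_, y, (hH m y q).2 hy⟩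
    have := Θ.le_iff_le.2 hq
    rwa [Θ.apply_symm_apply] at this

end

end Pool.Agent.Helper669.OCode
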