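import Mathlib
import Pool.Agent.Helper669.ODefs

/-!
# Hereditary supports of conditions
-/

namespace Pool.Agent.Helper669.OSupp

open Cardinal Pool.Agent.Helper669.Iter Pool.Agent.Helper669.Forcing
  Pool.Agent.Helper669.OIter Pool.Agent.Helper669.ODefs

set_option linter.unusedSectionVars false

universe u

variable {I : Type u} [LinearOrder I] [WellFoundedLT I]

/-- promises which hereditarily only use coordinates in `K` -/
noncomputable def ERK (E K : Set I) : I → Set (Pr I) :=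
  WellFoundedLT.fix (motive := fun _ : I => Set (Pr I)) fun ξ f =>
    {R | R ∈ ER E ξ ∧ ξ ∈ K ∧ ∀ n m, COpen {r | (∀ η, ∀ h : η < ξ, ∀ R ∈ r.pr η, R ∈ f η h) ∧
      Below r ξ ∧ ∀ η, r.st η ≠ [] → η ∈ K} ξ (R n m)}

/-- conditions below `ξ` which hereditarily only use coordinates in `K` -/
def VK (E K : Set I) (ξ : I) : Set (Rep I) :=
  {r | Adm (ERK E K) r ∧ Below r ξ ∧ ∀ η, r.st η ≠ [] → η ∈ K}

theorem mem_ERK {E K : Set I} {ξ : I} {R : Pr I} :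
    R ∈ ERK E K ξ ↔ R ∈ ER E ξ ∧ ξ ∈ K ∧ ∀ n m, COpen (VK E K ξ) ξ (R n m) := by
  have h : ERK E K ξ = {R | R ∈ ER E ξ ∧ ξ ∈ K ∧ ∀ n m, COpen
      {r | (∀ η, ∀ _ : η < ξ, ∀ R ∈ r.pr η, R ∈ ERK E K η) ∧
      Below r ξ ∧ ∀ η, r.st η ≠ [] → η ∈ K} ξ (R n m)} := by
    conv_lhs => rw [ERK, WellFoundedLT.fix_eq]
    rfl
  have h2 : {r : Rep I | (∀ η, ∀ _ : η < ξ, ∀ R ∈ r.pr η, R ∈ ERK E K η) ∧
      Below r ξ ∧ ∀ η, r.st η ≠ [] → η ∈ K} = VK E K ξ := by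
    ext r
    constructor
    · rintro ⟨h1, h2, h3⟩
      refine ⟨fun η R hR => ?_, h2, h3⟩
      by_cases hη : η < ξ
      · exact h1 η hη R hR
      · rw [(h2 η (not_lt.1 hη)).2] at hR
        exact absurd hR (Finset.notMem_empty R)
    · rintro ⟨h1, h2, h3⟩
      exact ⟨fun η _ R hR => h1 η R hR, h2, h3⟩
  rw [h, h2]
  rfl

theorem VK_sub {E K : Set I} {ξ : I} : VK E K ξ ⊆ Vd (ER E) ξ :=
  fun _ hr => ⟨fun η R hR => (mem_ERK.1 (hr.1 η R hR)).1, hr.2.1⟩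

theorem VK_supp {E K : Set I} {ξ : I} {r : Rep I} (h : r ∈ VK E K ξ) : supp r ⊆ K := by
  intro η hη
  rcases hη with h1 | h1
  · exact h.2.2 η h1
  · obtain ⟨R, hR⟩ := Finset.nonempty_iff_ne_empty.2 h1
    exact (mem_ERK.1 (h.1 η R hR)).2.1

end Pool.Agent.Helper669.OSupp
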