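import Mathlib
import Pool.Agent.Helper669.OSupp

namespace Pool.Agent.Helper669.OSym

open Cardinal Pool.Agent.Helper669.Iter Pool.Agent.Helper669.Forcing
  Pool.Agent.Helper669.OIter Pool.Agent.Helper669.ODefs Pool.Agent.Helper669.OSupp

set_option linter.unusedSectionVars false

universe u

variable {J : Type u} [LinearOrder J] [WellFoundedLT J] {E : Set (WithTop J)}

/-- a permutation of the Cohen coordinates, together with permutations of the values there; the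
sets of coordinates below the elements of `E` are invariant -/
structure CSym (E : Set (WithTop J)) where
  π : Equiv.Perm (WithTop J)
  τ : WithTop J → ℕ → Equiv.Perm ℕ
  fixE : ∀ η ∈ E, π η = η
  τE : ∀ η ∈ E, ∀ n, τ η n = 1
  cut : ∀ η ∈ E, ∀ ζ, π ζ < η ↔ ζ < η
  top : π ⊤ = ⊤

variable (Φ : CSym E)

/-- the action on the points -/
def actO (w : Om (WithTop J)) : Om (WithTop J) :=
  fun η n => Φ.τ (Φ.π.symm η) n (w (Φ.π.symm η) n)

/-- the action on the promises -/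
def actPr (R : Pr (WithTop J)) : Pr (WithTop J) := fun n m => actO Φ '' R n m

open Classical in
/-- the action on finitely supported conditions -/
noncomputable def actRep (r : Rep (WithTop J)) : Rep (WithTop J) where
  st η := (r.st (Φ.π.symm η)).mapIdx fun n a => Φ.τ (Φ.π.symm η) n a
  pr η := (r.pr (Φ.π.symm η)).image (actPr Φ)
  fin := by
    refine (r.fin.image Φ.π).subset fun η hη => ⟨Φ.π.symm η, ?_, by simp⟩
    simpa using hη

/-- the inverse symmetry -/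
def CSym.inv (Φ : CSym E) : CSym E where
  π := Φ.π.symm
  τ η n := (Φ.τ (Φ.π.symm η) n)⁻¹
  fixE η hη := by rw [Equiv.symm_apply_eq]; exact (Φ.fixE η hη).symm
  τE η hη n := by
    rw [show Φ.π.symm η = η from by rw [Equiv.symm_apply_eq]; exact (Φ.fixE η hη).symm,
      Φ.τE η hη, inv_one]
  cut η hη ζ := by
    have := Φ.cut η hη (Φ.π.symm ζ)
    rw [Equiv.apply_symm_apply] at this
    exact this.symm
  top := by rw [Equiv.symm_apply_eq]; exact Φ.top.symm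

theorem j8568_actO (w : Om (WithTop J)) (η : WithTop J) (n : ℕ) :
    actO Φ w (Φ.π η) n = Φ.τ η n (w η n) := by
  simp [actO]

theorem j8568_inv_actO (w : Om (WithTop J)) : actO Φ.inv (actO Φ w) = w := by
  funext η n
  show (Φ.τ (Φ.π.symm (Φ.π η)) n)⁻¹ (actO Φ w (Φ.π η) n) = w η n
  rw [j8568_actO, Equiv.symm_apply_apply]
  simp

theorem j8568_actO_inv (w : Om (WithTop J)) : actO Φ (actO Φ.inv w) = w := by
  funext η n
  obtain ⟨ζ, rfl⟩ := Φ.π.surjective η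
  rw [j8568_actO]
  show Φ.τ ζ n ((Φ.τ (Φ.π.symm (Φ.π ζ)) n)⁻¹ (w (Φ.π ζ) n)) = w (Φ.π ζ) n
  rw [Equiv.symm_apply_apply]
  simp

theorem j8568_inj : Function.Injective (actO Φ) := fun w w' h => by
  rw [← j8568_inv_actO Φ w, h, j8568_inv_actO Φ w']

theorem j8568_inv_actPr (R : Pr (WithTop J)) : actPr Φ.inv (actPr Φ R) = R := by
  funext n m
  show actO Φ.inv '' (actO Φ '' R n m) = R n m
  rw [← Set.image_comp]
  have : actO Φ.inv ∘ actO Φ = id := by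
    funext w
    exact j8568_inv_actO Φ w
  rw [this, Set.image_id]

theorem j8568_actPr_inv (R : Pr (WithTop J)) : actPr Φ (actPr Φ.inv R) = R := by
  funext n m
  show actO Φ '' (actO Φ.inv '' R n m) = R n m
  rw [← Set.image_comp]
  have : actO Φ ∘ actO Φ.inv = id := by
    funext w
    exact j8568_actO_inv Φ w
  rw [this, Set.image_id]

theorem j8568_actPr_inj : Function.Injective (actPr Φ) := fun w w' h => by
  rw [← j8568_inv_actPr Φ w, h, j8568_inv_actPr Φ w']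

theorem j8568_st (r : Rep (WithTop J)) (η : WithTop J) :
    (actRep Φ r).st (Φ.π η) = (r.st η).mapIdx fun n a => Φ.τ η n a := by
  simp [actRep]

open Classical in
theorem j8568_pr (r : Rep (WithTop J)) (η : WithTop J) :
    (actRep Φ r).pr (Φ.π η) = (r.pr η).image (actPr Φ) := by
  simp [actRep]

theorem j8568_mem_pr {r : Rep (WithTop J)} {η : WithTop J} {R : Pr (WithTop J)} :
    R ∈ (actRep Φ r).pr (Φ.π η) ↔ ∃ R' ∈ r.pr η, actPr Φ R' = R := by
  classical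
  rw [j8568_pr]
  simp

theorem j8568_inv_actRep (r : Rep (WithTop J)) : actRep Φ.inv (actRep Φ r) = r := by
  classical
  ext1
  · funext η
    show ((actRep Φ r).st (Φ.π η)).mapIdx (fun n a => (Φ.τ (Φ.π.symm (Φ.π η)) n)⁻¹ a) = r.st η
    rw [j8568_st, Equiv.symm_apply_apply]
    apply List.ext_getElem
    · simp
    · intro i h1 h2
      simp
  · funext η
    show ((actRep Φ r).pr (Φ.π η)).image (actPr Φ.inv) = r.pr η
    rw [j8568_pr, Finset.image_image]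
    have : actPr Φ.inv ∘ actPr Φ = id := by
      funext R
      exact j8568_inv_actPr Φ R
    rw [this, Finset.image_id]

theorem j8568_actRep_inv (r : Rep (WithTop J)) : actRep Φ (actRep Φ.inv r) = r := by
  classical
  ext1
  · funext η
    obtain ⟨ζ, rfl⟩ := Φ.π.surjective η
    rw [j8568_st]
    show ((r.st (Φ.π ζ)).mapIdx (fun n a => (Φ.τ (Φ.π.symm (Φ.π ζ)) n)⁻¹ a)).mapIdx
      (fun n a => Φ.τ ζ n a) = r.st (Φ.π ζ)
    rw [Equiv.symm_apply_apply]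
    apply List.ext_getElem
    · simp
    · intro i h1 h2
      simp
  · funext η
    obtain ⟨ζ, rfl⟩ := Φ.π.surjective η
    rw [j8568_pr]
    show ((r.pr (Φ.π ζ)).image (actPr Φ.inv)).image (actPr Φ) = r.pr (Φ.π ζ)
    rw [Finset.image_image]
    have : actPr Φ ∘ actPr Φ.inv = id := by
      funext R
      exact j8568_actPr_inv Φ R
    rw [this, Finset.image_id]

/-- the promises are at coordinates in `E` -/
def OnE (E : Set (WithTop J)) (r : Rep (WithTop J)) : Prop := ∀ η, ∀ R ∈ r.pr η, η ∈ E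

theorem onE_of_adm {r : Rep (WithTop J)} (h : Adm (ER E) r) : OnE E r :=
  fun η R hR => (mem_ER.1 (h η R hR)).1

/-- invariant cuts -/
def Cut (Φ : CSym E) (ξ : WithTop J) : Prop := ∀ ζ, Φ.π ζ < ξ ↔ ζ < ξ

theorem cut_E {ξ : WithTop J} (h : ξ ∈ E) : Cut Φ ξ := Φ.cut ξ h

theorem cut_top : Cut Φ ⊤ := fun ζ => by
  rw [lt_top_iff_ne_top, lt_top_iff_ne_top]
  refine not_congr ⟨fun h => ?_, fun h => by rw [h]; exact Φ.top⟩
  exact Φ.π.injective (h.trans Φ.top.symm)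

theorem Cut.inv {ξ : WithTop J} (h : Cut Φ ξ) : Cut Φ.inv ξ := fun ζ => by
  have := h (Φ.π.symm ζ)
  rw [Equiv.apply_symm_apply] at this
  exact this.symm

theorem j8568_mem_bs {r : Rep (WithTop J)} (hr : OnE E r) {ξ : WithTop J} (hξ : Cut Φ ξ)
    (w : Om (WithTop J)) : actO Φ w ∈ bs (actRep Φ r) ξ ↔ w ∈ bs r ξ := by
  have key : ∀ ζ, ((∀ i < ((actRep Φ r).st (Φ.π ζ)).length,
      actO Φ w (Φ.π ζ) i = ((actRep Φ r).st (Φ.π ζ)).getD i 0) ∧
      ∀ R ∈ (actRep Φ r).pr (Φ.π ζ), ∀ n, ((actRep Φ r).st (Φ.π ζ)).length ≤ n →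
        actO Φ w ∈ R n (actO Φ w (Φ.π ζ) n)) ↔
      ((∀ i < (r.st ζ).length, w ζ i = (r.st ζ).getD i 0) ∧
      ∀ R ∈ r.pr ζ, ∀ n, (r.st ζ).length ≤ n → w ∈ R n (w ζ n)) := by
    intro ζ
    have hlen : ((actRep Φ r).st (Φ.π ζ)).length = (r.st ζ).length := by
      rw [j8568_st]; simp
    rw [hlen]
    refine and_congr ?_ ?_
    · refine forall_congr' fun i => ?_
      refine forall_congr' fun hi => ?_
      rw [j8568_actO, j8568_st, List.getD_eq_getElem _ _ (by simpa using hi),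
        List.getD_eq_getElem _ _ hi, List.getElem_mapIdx]
      exact (Φ.τ ζ i).injective.eq_iff
    · constructor
      · intro h R hR n hn
        have h1 := h (actPr Φ R) ((j8568_mem_pr Φ).2 ⟨R, hR, rfl⟩) n hn
        rw [j8568_actO, Φ.τE ζ (hr ζ R hR)] at h1
        obtain ⟨w', hw', he⟩ := h1
        rw [← j8568_inj Φ he]
        rw [← j8568_inj Φ he] at hw'
        exact hw'
      · intro h R' hR' n hn
        obtain ⟨R, hR, rfl⟩ := (j8568_mem_pr Φ).1 hR'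
        rw [j8568_actO, Φ.τE ζ (hr ζ R hR)]
        exact ⟨w, h R hR n hn, rfl⟩
  constructor
  · intro h ζ hζ
    exact (key ζ).1 (h (Φ.π ζ) ((hξ ζ).2 hζ))
  · intro h η hη
    obtain ⟨ζ, rfl⟩ := Φ.π.surjective η
    exact (key ζ).2 (h ζ ((hξ ζ).1 hη))

theorem j8568_bs {r : Rep (WithTop J)} (hr : OnE E r) {ξ : WithTop J} (hξ : Cut Φ ξ) :
    bs (actRep Φ r) ξ = actO Φ '' bs r ξ := by
  ext w
  constructor
  · intro hw
    refine ⟨actO Φ.inv w, ?_, j8568_actO_inv Φ w⟩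
    rw [← j8568_mem_bs Φ hr hξ, j8568_actO_inv]
    exact hw
  · rintro ⟨w', hw', rfl⟩
    exact (j8568_mem_bs Φ hr hξ w').2 hw'

theorem j8568_le {r r' : Rep (WithTop J)} (hr : OnE E r) (hr' : OnE E r') (h : r' ≤ r) :
    actRep Φ r' ≤ actRep Φ r := by
  classical
  intro η
  obtain ⟨ζ, rfl⟩ := Φ.π.surjective η
  obtain ⟨h1, h2, h3⟩ := h ζ
  refine ⟨?_, ?_, ?_⟩
  · rw [j8568_st, j8568_st]
    obtain ⟨t, ht⟩ := h1
    rw [← ht, List.mapIdx_append]
    exact List.prefix_append _ _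
  · rw [j8568_pr, j8568_pr]
    exact Finset.image_subset_image h2
  · intro R' hR' i hi hi'
    obtain ⟨R, hR, rfl⟩ := (j8568_mem_pr Φ).1 hR'
    have hζ := hr ζ R hR
    rw [j8568_st, List.length_mapIdx] at hi hi'
    rw [j8568_st, List.getD_eq_getElem _ _ (by simpa using hi'), List.getElem_mapIdx,
      Φ.τE ζ hζ, Φ.fixE ζ hζ, j8568_bs Φ hr' (cut_E Φ hζ)]
    have h4 := h3 R hR i hi hi'
    rw [List.getD_eq_getElem _ _ hi'] at h4
    exact Set.image_mono h4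

theorem j8568_below {r : Rep (WithTop J)} {ξ : WithTop J} (hξ : Cut Φ ξ) (h : Below r ξ) :
    Below (actRep Φ r) ξ := by
  intro η hη
  obtain ⟨ζ, rfl⟩ := Φ.π.surjective η
  have hζ : ξ ≤ ζ := by
    by_contra hcon
    exact absurd ((hξ ζ).2 (not_le.1 hcon)) (not_lt.2 hη)
  obtain ⟨h1, h2⟩ := h ζ hζ
  rw [j8568_st, j8568_pr, h1, h2]
  simp

theorem j8568_adm_aux {r : Rep (WithTop J)} (hr : OnE E r) (RR : WithTop J → Set (Pr (WithTop J)))
    (h : ∀ η ∈ E, ∀ R ∈ r.pr η, actPr Φ R ∈ RR η) : Adm RR (actRep Φ r) := by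
  intro η R' hR'
  obtain ⟨ζ, rfl⟩ := Φ.π.surjective η
  obtain ⟨R, hR, rfl⟩ := (j8568_mem_pr Φ).1 hR'
  rw [Φ.fixE ζ (hr ζ R hR)]
  exact h ζ (hr ζ R hR) R hR

theorem lt_of_below {r : Rep (WithTop J)} {ξ η : WithTop J} (h : Below r ξ) {R : Pr (WithTop J)}
    (hR : R ∈ r.pr η) : η < ξ := by
  by_contra hcon
  rw [(h η (not_lt.1 hcon)).2] at hR
  exact absurd hR (Finset.notMem_empty R)

theorem j8568_copen {A : Set (Rep (WithTop J))} {ξ : WithTop J} (hξ : Cut Φ ξ)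
    (hA : ∀ q ∈ A, OnE E q) :
    actO Φ '' (⋃ q ∈ A, bs q ξ) = ⋃ q ∈ actRep Φ '' A, bs q ξ := by
  rw [Set.biUnion_image, Set.image_iUnion₂]
  refine Set.iUnion₂_congr fun q hq => ?_
  exact (j8568_bs Φ (hA q hq) hξ).symm

theorem j8568_ER (ξ : WithTop J) : ∀ (Φ : CSym E), ∀ R ∈ ER E ξ, actPr Φ R ∈ ER E ξ := by
  induction ξ using WellFoundedLT.induction with
  | ind ξ IH =>
    intro Φ R hR
    obtain ⟨hξ, h1, h2⟩ := mem_ER.1 hR
    have hVd : ∀ (Φ : CSym E), ∀ q ∈ Vd (ER E) ξ, actRep Φ q ∈ Vd (ER E) ξ := by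
      intro Φ q hq
      refine ⟨j8568_adm_aux Φ (onE_of_adm hq.1) _ fun η _ R hR => ?_,
        j8568_below Φ (cut_E Φ hξ) hq.2⟩
      exact IH η (lt_of_below hq.2 hR) Φ R (hq.1 η R hR)
    refine mem_ER.2 ⟨hξ, fun n m => ?_, fun n q hq => ?_⟩
    · obtain ⟨A, hA, hAc, hU⟩ := h1 n m
      refine ⟨actRep Φ '' A, ?_, hAc.image _, ?_⟩
      · rintro _ ⟨q, hq, rfl⟩
        exact hVd Φ q (hA hq)
      · show actO Φ '' R n m = _
        rw [hU, j8568_copen Φ (cut_E Φ hξ) fun q hq => onE_of_adm (hA hq).1]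
    · obtain ⟨q', hq', hle, m₀, hm₀⟩ := h2 n (actRep Φ.inv q) (hVd Φ.inv q hq)
      refine ⟨actRep Φ q', hVd Φ q' hq', ?_, m₀, fun m hm => ?_⟩
      · have := j8568_le Φ (onE_of_adm (hVd Φ.inv q hq).1) (onE_of_adm hq'.1) hle
        rwa [j8568_actRep_inv] at this
      · rw [j8568_bs Φ (onE_of_adm hq'.1) (cut_E Φ hξ)]
        exact Set.image_mono (hm₀ m hm)

theorem j8568_Vd {ξ : WithTop J} (hξ : Cut Φ ξ) {q : Rep (WithTop J)} (hq : q ∈ Vd (ER E) ξ) :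
    actRep Φ q ∈ Vd (ER E) ξ :=
  ⟨j8568_adm_aux Φ (onE_of_adm hq.1) _ fun η _ R hR => j8568_ER η Φ R (hq.1 η R hR),
    j8568_below Φ hξ hq.2⟩

theorem j8568_mapIdx_one (l : List ℕ) (τ : ℕ → Equiv.Perm ℕ) (h : ∀ n, τ n = 1) :
    (l.mapIdx fun n a => τ n a) = l := by
  apply List.ext_getElem
  · simp
  · intro i h1 h2
    simp [h]

theorem j8568_fix_rep {K : Set (WithTop J)} (hK : ∀ η ∈ K, Φ.π η = η ∧ ∀ n, Φ.τ η n = 1)
    {q : Rep (WithTop J)} (h1 : ∀ η, q.st η ≠ [] → η ∈ K)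
    (h2 : ∀ η, ∀ R ∈ q.pr η, η ∈ K ∧ actPr Φ R = R) : actRep Φ q = q := by
  classical
  have hpr : ∀ η, η ∉ K → q.pr η = ∅ := by
    intro η hη
    by_contra h
    obtain ⟨R, hR⟩ := Finset.nonempty_iff_ne_empty.2 h
    exact hη (h2 η R hR).1
  have hst : ∀ η, η ∉ K → q.st η = [] := by
    intro η hη
    by_contra h
    exact hη (h1 η h)
  have hπ : ∀ ζ, ζ ∉ K → Φ.π ζ ∉ K := by
    intro ζ hζ h
    have := (hK _ h).1
    have h3 := Φ.π.injective this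
    rw [h3] at h
    exact hζ h
  ext1
  · funext η
    obtain ⟨ζ, rfl⟩ := Φ.π.surjective η
    rw [j8568_st]
    by_cases hζ : ζ ∈ K
    · rw [(hK ζ hζ).1]
      exact j8568_mapIdx_one _ _ (hK ζ hζ).2
    · rw [hst ζ hζ, hst _ (hπ ζ hζ)]
      simp
  · funext η
    obtain ⟨ζ, rfl⟩ := Φ.π.surjective η
    rw [j8568_pr]
    by_cases hζ : ζ ∈ K
    · rw [(hK ζ hζ).1]
      ext R
      rw [Finset.mem_image]
      constructor
      · rintro ⟨R', hR', rfl⟩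
        rw [(h2 ζ R' hR').2]
        exact hR'
      · intro hR
        exact ⟨R, hR, (h2 ζ R hR).2⟩
    · rw [hpr ζ hζ, hpr _ (hπ ζ hζ)]
      simp

theorem j8568_fix_pr {K : Set (WithTop J)} (hK : ∀ η ∈ K, Φ.π η = η ∧ ∀ n, Φ.τ η n = 1)
    (ξ : WithTop J) : ∀ R ∈ ERK E K ξ, actPr Φ R = R := by
  induction ξ using WellFoundedLT.induction with
  | ind ξ IH =>
    intro R hR
    obtain ⟨h1, h2, h3⟩ := mem_ERK.1 hR
    have hξ := (mem_ER.1 h1).1
    funext n m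
    show actO Φ '' R n m = R n m
    obtain ⟨A, hA, _, hU⟩ := h3 n m
    rw [hU, j8568_copen Φ (cut_E Φ hξ) fun q hq => onE_of_adm (VK_sub (hA hq)).1]
    rw [Set.biUnion_image]
    refine Set.iUnion₂_congr fun q hq => ?_
    rw [j8568_fix_rep Φ hK (hA hq).2.2]
    intro η R hR
    exact ⟨(mem_ERK.1 ((hA hq).1 η R hR)).2.1,
      IH η (lt_of_below (hA hq).2.1 hR) R ((hA hq).1 η R hR)⟩

theorem j8568_VK_aux {K : Set (WithTop J)} {ξ : WithTop J} (hξ : Cut Φ ξ)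
    {q : Rep (WithTop J)} (hq : q ∈ VK E K ξ)
    (h : ∀ η ∈ E, ∀ R ∈ q.pr η, actPr Φ R ∈ ERK E (Φ.π '' K) η) :
    actRep Φ q ∈ VK E (Φ.π '' K) ξ := by
  refine ⟨j8568_adm_aux Φ (onE_of_adm (VK_sub hq).1) _ h, j8568_below Φ hξ hq.2.1, ?_⟩
  intro η hη
  obtain ⟨ζ, rfl⟩ := Φ.π.surjective η
  refine ⟨ζ, hq.2.2 ζ ?_, rfl⟩
  intro h
  apply hη
  rw [j8568_st, h]
  simp

theorem j8568_ERK {K : Set (WithTop J)} (ξ : WithTop J) :
    ∀ R ∈ ERK E K ξ, actPr Φ R ∈ ERK E (Φ.π '' K) ξ := by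
  induction ξ using WellFoundedLT.induction with
  | ind ξ IH =>
    intro R hR
    obtain ⟨h1, h2, h3⟩ := mem_ERK.1 hR
    have hξ := (mem_ER.1 h1).1
    refine mem_ERK.2 ⟨j8568_ER ξ Φ R h1, ⟨ξ, h2, Φ.fixE ξ hξ⟩, fun n m => ?_⟩
    obtain ⟨A, hA, hAc, hU⟩ := h3 n m
    refine ⟨actRep Φ '' A, ?_, hAc.image _, ?_⟩
    · rintro _ ⟨q, hq, rfl⟩
      refine j8568_VK_aux Φ (cut_E Φ hξ) (hA hq) fun η _ R hR => ?_
      exact IH η (lt_of_below (hA hq).2.1 hR) R ((hA hq).1 η R hR)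
    · show actO Φ '' R n m = _
      rw [hU, j8568_copen Φ (cut_E Φ hξ) fun q hq => onE_of_adm (VK_sub (hA hq)).1]

theorem j8568_res {ξ : WithTop J} (hξ : Cut Φ ξ) (r : Rep (WithTop J)) :
    actRep Φ (res r ξ) = res (actRep Φ r) ξ := by
  ext1
  · funext η
    obtain ⟨ζ, rfl⟩ := Φ.π.surjective η
    rw [j8568_st]
    by_cases h : ζ < ξ
    · rw [res_st_lt h, res_st_lt ((hξ ζ).2 h), j8568_st]
    · rw [res_st_ge (not_lt.1 h), res_st_ge (not_lt.1 (mt (hξ ζ).1 h))]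
      simp
  · funext η
    obtain ⟨ζ, rfl⟩ := Φ.π.surjective η
    rw [j8568_pr]
    by_cases h : ζ < ξ
    · rw [res_pr_lt h, res_pr_lt ((hξ ζ).2 h), j8568_pr]
    · rw [res_pr_ge (not_lt.1 h), res_pr_ge (not_lt.1 (mt (hξ ζ).1 h))]
      simp

/-- the automorphism -/
noncomputable def actC (Φ : CSym E) : Cond E ≃o Cond E where
  toFun p := ⟨actRep Φ p.1, j8568_Vd Φ (cut_top Φ) p.2⟩
  invFun p := ⟨actRep Φ.inv p.1, j8568_Vd Φ.inv (cut_top Φ.inv) p.2⟩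
  left_inv p := Subtype.ext (j8568_inv_actRep Φ p.1)
  right_inv p := Subtype.ext (j8568_actRep_inv Φ p.1)
  map_rel_iff' := by
    intro p q
    constructor
    · intro h
      have h1 : actRep Φ p.1 ≤ actRep Φ q.1 := h
      have h2 := j8568_le Φ.inv (onE_of_adm (j8568_Vd Φ (cut_top Φ) q.2).1)
        (onE_of_adm (j8568_Vd Φ (cut_top Φ) p.2).1) h1
      rw [j8568_inv_actRep, j8568_inv_actRep] at h2
      exact h2
    · intro h
      exact j8568_le Φ (onE_of_adm q.2.1) (onE_of_adm p.2.1) h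

theorem exists_act :
    ∃ Θ : Cond E ≃o Cond E,
      (∀ p η, (Θ p).1.st (Φ.π η) = (p.1.st η).mapIdx fun n a => Φ.τ η n a) ∧
      (∀ p η, ((Θ p).1.pr (Φ.π η)).card = (p.1.pr η).card) ∧
      (∀ p ξ, (∀ ζ, Φ.π ζ < ξ ↔ ζ < ξ) → Θ (resP p ξ) = resP (Θ p) ξ) ∧
      (∀ (K : Set (WithTop J)) (p : Cond E), p.1 ∈ VK E K ⊤ →
        (∀ η ∈ K, Φ.π η = η ∧ ∀ n, Φ.τ η n = 1) → Θ p = p) ∧
      (∀ (K : Set (WithTop J)) (p : Cond E), p.1 ∈ VK E K ⊤ →
        (Θ p).1 ∈ VK E (Φ.π '' K) ⊤) := by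
  classical
  refine ⟨actC Φ, ?_, ?_, ?_, ?_, ?_⟩
  · intro p η
    exact j8568_st Φ p.1 η
  · intro p η
    show ((actRep Φ p.1).pr (Φ.π η)).card = _
    rw [j8568_pr]
    exact Finset.card_image_of_injective _ (j8568_actPr_inj Φ)
  · intro p ξ hξ
    exact Subtype.ext (j8568_res Φ hξ p.1)
  · intro K p hp hK
    refine Subtype.ext (j8568_fix_rep Φ hK hp.2.2 ?_)
    intro η R hR
    exact ⟨(mem_ERK.1 (hp.1 η R hR)).2.1, j8568_fix_pr Φ hK η R (hp.1 η R hR)⟩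
  · intro K p hp
    exact j8568_VK_aux Φ (cut_top Φ) hp fun η _ R hR => j8568_ERK Φ η R (hp.1 η R hR)

end Pool.Agent.Helper669.OSym
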