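import Mathlib
import Pool.Agent.Helper669.OHit

/-!
# The index order: blocks of Cohen coordinates, each followed by one coordinate for eventually
different forcing
-/

namespace Pool.Agent.Helper669.OIdx

open Cardinal Pool.Agent.Helper669.Iter Pool.Agent.Helper669.Forcing
  Pool.Agent.Helper669.OIter Pool.Agent.Helper669.ODefs Pool.Agent.Helper669.OSupp
  Pool.Agent.Helper669.OSym

set_option linter.unusedSectionVars false

universe u

variable (K L : Type u) [LinearOrder K] [WellFoundedLT K] [LinearOrder L] [WellFoundedLT L]

/-- the index set: for each `a : K` a block of coordinates `(a, l)`, `l : L`, then `(a, ⊤)` -/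
abbrev Idx := K ×ₗ WithTop L

instance : WellFoundedLT (Idx K L) := inferInstance

/-- the coordinates where eventually different forcing is used -/
def EE : Set (WithTop (Idx K L)) := {x | ∃ a : K, x = ((toLex (a, ⊤) : Idx K L) : WithTop (Idx K L))}

variable {K L}

/-- coordinates in blocks before `i`, with Cohen part in `S` -/
def NN (i : K) (S : Set L) : Set (WithTop (Idx K L)) :=
  {x | ∃ a < i, ∃ y : WithTop L, x = ((toLex (a, y) : Idx K L) : WithTop (Idx K L)) ∧
    (y = ⊤ ∨ ∃ l ∈ S, y = (l : WithTop L))}

end Pool.Agent.Helper669.OIdx
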