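import Mathlib
import Pool.Agent.Helper669.ODefs

namespace Pool.Agent.Helper669.OTower2

open Cardinal Pool.Agent.Helper669.Iter Pool.Agent.Helper669.Forcing
  Pool.Agent.Helper669.OIter Pool.Agent.Helper669.ODefs

set_option linter.unusedSectionVars false

universe u

variable {J : Type u} [LinearOrder J] [WellFoundedLT J] {E : Set (WithTop J)}

/-- one class of a countable partition is cofinal -/
theorem exists_cofinal_class {C : Type u} [LinearOrder C] [Nonempty C]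
    (hC : ∀ S : Set C, S.Countable → ∃ b, ∀ s ∈ S, s < b) {ι : Type*} [Countable ι] (g : C → ι) :
    ∃ i, ∀ b, ∃ ν, b ≤ ν ∧ g ν = i := by
  by_contra hcon
  push Not at hcon
  choose b hb using hcon
  obtain ⟨c, hc⟩ := hC (Set.range b) (Set.countable_range b)
  exact hb (g c) c (hc _ ⟨_, rfl⟩).le rfl

/-- cofinally many of the conditions `f ν` are in the generic filter, below some condition -/
theorem exists_often {C : Type u} [LinearOrder C] [Nonempty C]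
    (hC : ∀ S : Set C, S.Countable → ∃ b, ∀ s ∈ S, s < b) {ξ : WithTop J} {b₀ : Cond E}
    (hb₀ : Below b₀.1 ξ) (f : C → Cond E) (C' : Set C) (hC' : ∀ b, ∃ ν ∈ C', b ≤ ν)
    (hf : ∀ ν ∈ C', f ν ≤ b₀) (hfξ : ∀ ν ∈ C', Below (f ν).1 ξ) :
    ∃ q ≤ b₀, Below q.1 ξ ∧ ∀ r ≤ q, ∀ β, ∃ ν ∈ C', β ≤ ν ∧ Compat r (f ν) := by
  classical
  by_contra hcon
  push Not at hcon
  have hD : ∀ p : Cond E, Below p.1 ξ → ∃ q ≤ p,
      q ∈ {q : Cond E | Below q.1 ξ ∧ (¬ Compat q b₀ ∨ ∃ β, ∀ ν ∈ C', β ≤ ν → ¬ Compat q (f ν))} := by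
    intro p hp
    by_cases h : Compat p b₀
    · obtain ⟨s, h1, h2⟩ := h
      obtain ⟨r, hr, β, hβ⟩ := hcon (resP s ξ) (resP_le h2 hb₀) (below_resP s ξ)
      refine ⟨resP r ξ, (resP_mono hr ξ).trans ?_, below_resP r ξ, Or.inr ⟨β, fun ν hν hβν hc => ?_⟩⟩
      · rw [resP_resP s le_rfl]; exact resP_le h1 hp
      · obtain ⟨s', h3, h4⟩ := hc
        obtain ⟨t, h5, h6, _⟩ := compat_res (q := f ν) (p := r) (hfξ ν hν) ⟨s', h4, h3⟩
        exact hβ ν hν hβν ⟨t, h6, h5⟩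
    · exact ⟨p, le_rfl, hp, Or.inl h⟩
  obtain ⟨A, hA, hAc, hAp, _⟩ := exists_antichain_below ξ _ (fun q hq => hq.1) hD
  have : ∀ a : Cond E, ∃ β : C, a ∈ A → Compat a b₀ → ∀ ν ∈ C', β ≤ ν → ¬ Compat a (f ν) := by
    intro a
    by_cases h : a ∈ A ∧ Compat a b₀
    · rcases (hA h.1).2 with h1 | ⟨β, hβ⟩
      · exact absurd h.2 h1
      · exact ⟨β, fun _ _ => hβ⟩
    · exact ⟨Classical.arbitrary C, fun h1 h2 => absurd ⟨h1, h2⟩ h⟩
  choose β hβ using this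
  obtain ⟨c, hc⟩ := hC (β '' A) (hAc.image β)
  obtain ⟨ν, hν, hcν⟩ := hC' c
  obtain ⟨a, ha, s, hs1, hs2⟩ := hAp (f ν)
  exact hβ a ha ⟨s, hs1, hs2.trans (hf ν hν)⟩ ν hν ((hc _ ⟨a, ha, rfl⟩).le.trans hcν) ⟨s, hs1, hs2⟩

/-- the induction hypothesis of the proof of `tower_pseudo` -/
def PP {C : Type u} (b₀ : Cond E) (H : ℕ → ℕ → Set (Cond E)) (T : C → ℕ → Set (Cond E))
    (η : WithTop J) : Prop :=
  ∃ q ≤ b₀, Below q.1 η ∧ ∃ X : ℕ → Set (Cond E), (∀ z, Reg (X z)) ∧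
      (∀ z, Loc η (X z)) ∧ (∃ k, Bd q H X k) ∧ ∀ ν, ASub q X (T ν)

theorem supp_lt {a : Cond E} {η : WithTop J} (ha : Below a.1 η) : ∀ ζ ∈ supp a.1, ζ < η := by
  intro ζ hζ
  by_contra hcon
  obtain ⟨h1, h2⟩ := ha ζ (not_lt.1 hcon)
  rcases hζ with h3 | h3
  · exact h3 h1
  · exact h3 h2

theorem below_of_supp_lt {a : Cond E} {x : WithTop J} (ha : ∀ ζ ∈ supp a.1, ζ < x) :
    Below a.1 x := by
  intro ζ hζ
  exact notMem_supp fun h => absurd (ha ζ h) (not_lt.2 hζ)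

theorem caseA {C : Type u} {b₀ : Cond E} {H : ℕ → ℕ → Set (Cond E)}
    {T : C → ℕ → Set (Cond E)} {η : WithTop J}
    (hη : ∀ S : Set (WithTop J), S.Countable → (∀ s ∈ S, s < η) → ∃ x < η, ∀ s ∈ S, s < x)
    (h : PP b₀ H T η) : ∃ η' < η, PP b₀ H T η' := by
  obtain ⟨q, hq, hqη, X, hX, hXη, ⟨k, hk⟩, hsub⟩ := h
  have key : ∀ z, ∃ A : Set (Cond E), A.Countable ∧ (∀ a ∈ A, Below a.1 η) ∧
      X z = meets (A ∩ X z) := by
    intro z
    obtain ⟨A, hA, hAc, hAp, _⟩ := exists_antichain_below η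
      {p : Cond E | Below p.1 η ∧ (p ∈ X z ∨ p ∈ fnot (X z))} (fun q hq => hq.1) (by
      intro p hp
      by_cases h1 : p ∈ fnot (X z)
      · exact ⟨p, le_rfl, hp, Or.inr h1⟩
      · simp only [fnot, Set.mem_ofPred_eq, not_forall, not_not] at h1
        obtain ⟨q', hq', h2⟩ := h1
        exact ⟨resP q' η, resP_le hq' hp, below_resP q' η, Or.inl ((hXη z q').1 h2)⟩)
    refine ⟨A, hAc, fun a ha => (hA ha).1, Set.Subset.antisymm ?_ ?_⟩
    · intro p hp q' hq'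
      obtain ⟨a, ha, s, hs1, hs2⟩ := hAp q'
      have hsX : s ∈ X z := (hX z).1 p hp s (hs2.trans hq')
      rcases (hA ha).2 with h2 | h2
      · exact ⟨s, hs2, a, ⟨ha, h2⟩, hs1⟩
      · exact absurd hsX (h2 s hs1)
    · intro p hp
      refine (hX z).2 p fun q' hq' => ?_
      obtain ⟨r, hr, s, hs, hrs⟩ := hp q' hq'
      exact ⟨r, hr, (hX z).1 s hs.2 r hrs⟩
  choose A hAc hAη hAX using key
  obtain ⟨x, hx, hxS⟩ := hη (supp q.1 ∪ ⋃ z, ⋃ a ∈ A z, supp a.1)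
    ((q.1.fin.countable).union (Set.countable_iUnion fun z =>
      (hAc z).biUnion fun a _ => a.1.fin.countable)) (by
    rintro s (hs | hs)
    · exact supp_lt hqη s hs
    · simp only [Set.mem_iUnion] at hs
      obtain ⟨z, a, ha, hs⟩ := hs
      exact supp_lt (hAη z a ha) s hs)
  refine ⟨x, hx, q, hq, below_of_supp_lt fun ζ hζ => hxS ζ (Or.inl hζ), X, hX, fun z => ?_,
    ⟨k, hk⟩, hsub⟩
  rw [hAX z]
  refine loc_meets fun p hp => below_of_supp_lt fun ζ hζ => hxS ζ (Or.inr ?_)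
  simp only [Set.mem_iUnion]
  exact ⟨z, p, hp.1, hζ⟩

theorem loc_iff {ξ : WithTop J} {φ : Set (Cond E)} (h : Loc ξ φ) {p q : Cond E}
    (he : resP p ξ = resP q ξ) : p ∈ φ ↔ q ∈ φ := by
  rw [h p, h q, he]

theorem caseB {C : Type u} [LinearOrder C] [Nonempty C]
    (hC : ∀ S : Set C, S.Countable → ∃ b, ∀ s ∈ S, s < b) {ξ₀ : WithTop J}
    (T : C → ℕ → Set (Cond E)) (hTreg : ∀ ν z, Reg (T ν z)) (hTloc : ∀ ν z, Loc ξ₀ (T ν z))
    {b₀ : Cond E} (hb₀ : Below b₀.1 ξ₀) (hT : ∀ ν ν', ν < ν' → ASub b₀ (T ν') (T ν))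
    {H : ℕ → ℕ → Set (Cond E)} (hH : FName H) (hHloc : ∀ m y, Loc ξ₀ (H m y))
    {η : WithTop J} (hξη : ξ₀ < η) (S : Set (WithTop J)) (hS : S.Countable)
    (hSη : ∀ s ∈ S, s < η) (hScof : ∀ x < η, ∃ s ∈ S, x ≤ s)
    (h : PP b₀ H T η) : ∃ η' < η, PP b₀ H T η' := by
  classical
  obtain ⟨q, hq, hqη, X, hX, hXη, ⟨k, hk⟩, hsub⟩ := h
  -- the conditions deciding the almost inclusions
  have h1 : ∀ ν, ∃ qν ≤ q, ∃ mν : ℕ, ∃ ζν : S, ξ₀ ≤ ζν.1 ∧ SubAt qν X (T ν) mν ∧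
      ∀ ζ', ζν.1 < ζ' → qν.1.st ζ' = [] ∧ qν.1.pr ζ' = ∅ := by
    intro ν
    obtain ⟨s, hs, mν, hm⟩ := hsub ν q le_rfl
    have hle : resP s η ≤ q := resP_le hs hqη
    have hsubAt : SubAt (resP s η) X (T ν) mν := by
      intro j hj r hr hrX
      obtain ⟨s', hs', he, _⟩ := exists_glue hr
      have h2 : s' ∈ X j := (loc_iff (hXη j) he).2 hrX
      exact (loc_iff ((hTloc ν j).mono hξη.le) he).1 (hm j hj s' hs' h2)
    have hbound : ∃ x < η, ξ₀ ≤ x ∧ ∀ ζ ∈ supp (resP s η).1, ζ ≤ x := by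
      have hfin : (insert ξ₀ (supp (resP s η).1)).Finite := (resP s η).1.fin.insert ξ₀
      obtain ⟨x, hx, hmax⟩ := hfin.exists_maximal ⟨ξ₀, Set.mem_insert _ _⟩
      refine ⟨x, ?_, ?_, ?_⟩
      · rcases hx with rfl | hx
        · exact hξη
        · exact supp_lt (below_resP s η) x hx
      · by_contra hcon
        exact hcon (hmax (Set.mem_insert _ _) (not_le.1 hcon).le)
      · intro ζ hζ
        by_contra hcon
        exact hcon (hmax (Set.mem_insert_of_mem _ hζ) (not_le.1 hcon).le)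
    obtain ⟨x, hxη, hx₀, hxs⟩ := hbound
    obtain ⟨ζν, hζS, hxζ⟩ := hScof x hxη
    refine ⟨resP s η, hle, mν, ⟨ζν, hζS⟩, hx₀.trans hxζ, hsubAt, fun ζ' hζ' => ?_⟩
    exact notMem_supp fun hmem => absurd ((hxs ζ' hmem).trans hxζ) (not_le.2 hζ')
  choose qq hqq mm ζζ hξζ hsubq habove using h1
  have : Countable S := hS
  obtain ⟨⟨ζS, m, t⟩, hcof⟩ := exists_cofinal_class hC
    (fun ν => ((ζζ ν, mm ν, (qq ν).1.st (ζζ ν).1) : S × ℕ × List ℕ))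
  have hζtop : ζS.1 ≠ ⊤ := ((hSη ζS.1 ζS.2).trans_le le_top).ne
  obtain ⟨ζ, hζ⟩ := WithTop.ne_top_iff_exists.1 hζtop
  set C' : Set C := {ν | ((ζζ ν, mm ν, (qq ν).1.st (ζζ ν).1) : S × ℕ × List ℕ) = (ζS, m, t)}
    with hC'def
  have hC'1 : ∀ ν ∈ C', (ζζ ν).1 = (ζ : WithTop J) ∧ mm ν = m ∧ (qq ν).1.st ζ = t := by
    intro ν hν
    have h2 : ((ζζ ν, mm ν, (qq ν).1.st (ζζ ν).1) : S × ℕ × List ℕ) = (ζS, m, t) := hν
    rw [Prod.mk.injEq, Prod.mk.injEq] at h2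
    obtain ⟨h3, h4, h5⟩ := h2
    have h6 : (ζζ ν).1 = (ζ : WithTop J) := by rw [h3, hζ]
    exact ⟨h6, h4, by rw [← h6]; exact h5⟩
  have hC'cof : ∀ b, ∃ ν ∈ C', b ≤ ν := by
    intro b
    obtain ⟨ν, h2, h3⟩ := hcof b
    exact ⟨ν, h3, h2⟩
  have hζη : (ζ : WithTop J) < η := by rw [hζ]; exact hSη ζS.1 ζS.2
  have hξζ' : ξ₀ ≤ (ζ : WithTop J) := by
    obtain ⟨ν⟩ := ‹Nonempty C›
    obtain ⟨ν', h2, _⟩ := hC'cof ν
    rw [← (hC'1 ν' h2).1]
    exact hξζ ν'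
  have habove' : ∀ ν ∈ C', ∀ ζ', (ζ : WithTop J) < ζ' →
      (qq ν).1.st ζ' = [] ∧ (qq ν).1.pr ζ' = ∅ := by
    intro ν hν ζ' h2
    exact habove ν ζ' (by rw [(hC'1 ν hν).1]; exact h2)
  have hTζ : ∀ ν z, Loc (ζ : WithTop J) (T ν z) := fun ν z => (hTloc ν z).mono hξζ'
  have hsubq' : ∀ ν ∈ C', SubAt (qq ν) X (T ν) m := by
    intro ν hν
    rw [← (hC'1 ν hν).2.1]
    exact hsubq ν
  have hfb : ∀ ν ∈ C', resP (qq ν) (ζ : WithTop J) ≤ b₀ := fun ν _ =>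
    resP_le ((hqq ν).trans hq) (hb₀.mono hξζ')
  obtain ⟨q1, hq1b, hq1ζ, hoften⟩ := exists_often hC (hb₀.mono hξζ')
    (fun ν => resP (qq ν) (ζ : WithTop J)) C' hC'cof hfb (fun ν _ => below_resP _ _)
  have hXdown : ∀ z, Down {p : Cond E | m ≤ z ∧ ∀ ν ∈ C', ∀ r ≤ p,
      r ≤ resP (qq ν) (ζ : WithTop J) → r ∈ T ν z} := by
    intro z p hp p' hp'
    exact ⟨hp.1, fun ν hν r hr => hp.2 ν hν r (hr.trans hp')⟩
  refine ⟨ζ, hζη, q1, hq1b, hq1ζ, fun z => {p : Cond E | m ≤ z ∧ ∀ ν ∈ C', ∀ r ≤ p,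
    r ≤ resP (qq ν) (ζ : WithTop J) → r ∈ T ν z}, fun z => ⟨hXdown z, ?_⟩, fun z p => ⟨?_, ?_⟩,
    ⟨max k m, ?_⟩, ?_⟩
  · -- regular
    intro p hp
    obtain ⟨r, _, hr⟩ := hp p le_rfl
    refine ⟨hr.1, fun ν hν r' hr' hr'f => (hTreg ν z).2 r' fun q' hq' => ?_⟩
    obtain ⟨r'', h2, h3⟩ := hp q' (hq'.trans hr')
    exact ⟨r'', h2, h3.2 ν hν r'' le_rfl (h2.trans (hq'.trans hr'f))⟩
  · -- local
    rintro ⟨hmz, hp⟩
    refine ⟨hmz, fun ν hν r hr hrf => ?_⟩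
    obtain ⟨s, hs, he, hs2⟩ := exists_glue hr
    have h2 : s ≤ resP (qq ν) (ζ : WithTop J) := hs2.trans (resP_le hrf (below_resP _ _))
    exact (loc_iff (hTζ ν z) he).1 (hp ν hν s hs h2)
  · intro hp
    exact hXdown z _ hp p (le_resP p _)
  · -- the bound
    intro j hj y r hr hrH
    by_contra hcon
    push Not at hcon
    obtain ⟨νs, hνs, _, r0, hr0r, hr0f⟩ := hoften r hr (Classical.arbitrary C)
    have hind : ∀ n : ℕ, ∃ rn ≤ r0, ∃ nu : ℕ → C, ∀ z, j ≤ z → z < n → z ≤ y →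
        nu z ∈ C' ∧ rn ≤ resP (qq (nu z)) (ζ : WithTop J) ∧ rn ∈ fnot (T (nu z) z) := by
      intro n
      induction n with
      | zero => exact ⟨r0, le_rfl, fun _ => νs, fun z _ h2 => absurd h2 (Nat.not_lt_zero z)⟩
      | succ n ih =>
        obtain ⟨rn, hrn, nu, hnu⟩ := ih
        by_cases hn : j ≤ n ∧ n ≤ y
        · have h2 := hcon rn (hrn.trans hr0r) n hn.1 hn.2
          have h3 : ∃ ν ∈ C', ∃ r' ≤ rn, r' ≤ resP (qq ν) (ζ : WithTop J) ∧ r' ∉ T ν n := by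
            by_contra h4
            push Not at h4
            exact h2 ⟨((le_max_right k m).trans hj).trans hn.1, h4⟩
          obtain ⟨ν, hν, r', hr', hr'f, hr'T⟩ := h3
          obtain ⟨r'', hr'', h5⟩ := exists_fnot (hTreg ν n) hr'T
          refine ⟨r'', (hr''.trans hr').trans hrn, fun z => if z = n then ν else nu z, ?_⟩
          intro z hz1 hz2 hz3
          by_cases hzn : z = n
          · subst hzn
            simp only [if_true]
            exact ⟨hν, hr''.trans hr'f, h5⟩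
          · simp only [if_neg hzn]
            obtain ⟨h6, h7, h8⟩ := hnu z hz1 (by omega) hz3
            exact ⟨h6, (hr''.trans hr').trans h7, down_fnot _ _ h8 _ (hr''.trans hr')⟩
        · exact ⟨rn, hrn, nu, fun z hz1 hz2 hz3 => hnu z hz1 (by
            rcases Nat.lt_or_ge z n with h2 | h2
            · exact h2
            · exact absurd ⟨by omega, by omega⟩ hn) hz3⟩
    obtain ⟨rf, hrf, nu, hnu⟩ := hind (y + 1)
    set Q : Finset (Pr (WithTop J)) := (qq νs).1.pr ζ ∪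
      ((Finset.range (y + 1)).filter (fun z => j ≤ z)).biUnion (fun z => (qq (nu z)).1.pr ζ)
      with hQdef
    have hQ : ∀ R ∈ Q, R ∈ ER E (ζ : WithTop J) := by
      intro R hR
      rw [hQdef, Finset.mem_union, Finset.mem_biUnion] at hR
      rcases hR with hR | ⟨z, _, hR⟩
      · exact (qq νs).2.1 ζ R hR
      · exact (qq (nu z)).2.1 ζ R hR
    have hle : ∀ ν ∈ C', rf ≤ resP (qq ν) (ζ : WithTop J) → (qq ν).1.pr ζ ⊆ Q →
        mkP rf ζ t Q hQ (resP rf ζ) ≤ qq ν := by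
      intro ν hν h2 h3
      show mk3 rf.1 ζ t Q (resP rf ζ).1 ≤ (qq ν).1
      refine mk3_le h2 ?_ h3 ?_ ?_
      · rw [(hC'1 ν hν).2.2]
      · rw [(hC'1 ν hν).2.2]
        intro R _ i hi hi'
        exact absurd hi' (not_lt.2 hi)
      · intro ζ' hζ'
        exact Or.inl (habove' ν hν ζ' hζ')
    have hres : resP (mkP rf ζ t Q hQ (resP rf ζ)) (ζ : WithTop J) = resP rf ζ :=
      Subtype.ext res_mk3
    have hrgq : mkP rf ζ t Q hQ (resP rf ζ) ≤ q :=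
      (hle νs hνs (hrf.trans hr0f) Finset.subset_union_left).trans (hqq νs)
    have hrgH : mkP rf ζ t Q hQ (resP rf ζ) ∈ H j y := by
      refine (loc_iff ((hHloc j y).mono hξζ') hres).2 ?_
      exact hH.down j y r hrH rf (hrf.trans hr0r)
    obtain ⟨r', hr', z, hz1, hz2, hz3⟩ := hk j ((le_max_left k m).trans hj) y _ hrgq hrgH
    obtain ⟨h2, h3, h4⟩ := hnu z hz1 (by omega) hz2
    have h5 : mkP rf ζ t Q hQ (resP rf ζ) ≤ qq (nu z) := by
      refine hle _ h2 h3 fun R hR => ?_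
      rw [hQdef, Finset.mem_union, Finset.mem_biUnion]
      exact Or.inr ⟨z, by simp; omega, hR⟩
    have h6 : r' ∈ T (nu z) z :=
      hsubq' (nu z) h2 z (((le_max_right k m).trans hj).trans hz1) r' (hr'.trans h5) hz3
    have h7 : r' ≤ resP rf (ζ : WithTop J) := by
      rw [← hres]
      exact hr'.trans (le_resP _ _)
    obtain ⟨s, hs, he, _⟩ := exists_glue h7
    exact h4 s hs ((loc_iff (hTζ (nu z) z) he).2 h6)
  · -- almost inclusion
    intro ν₀ r hr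
    obtain ⟨β, hβ⟩ := hC {ν₀} (Set.countable_singleton ν₀)
    obtain ⟨ν, hν, hβν, r1, hr1, hr1f⟩ := hoften r hr β
    have hlt : ν₀ < ν := (hβ ν₀ rfl).trans_le hβν
    obtain ⟨s, hs, k', hk'⟩ := hT ν₀ ν hlt r1 ((hr1.trans hr).trans hq1b)
    refine ⟨s, hs.trans hr1, k', fun z hz s' hs' hs'X => ?_⟩
    exact hk' z hz s' hs' (hs'X.2 ν hν s' le_rfl ((hs'.trans hs).trans hr1f))

/-- a pseudointersection, meeting the intervals given by `H`, of a decreasing sequence of length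
`ω₁` of names below `ξ₀` can be found below `ξ₀` -/
theorem tower_pseudo {C : Type u} [LinearOrder C] [Nonempty C]
    (hC : ∀ S : Set C, S.Countable → ∃ b, ∀ s ∈ S, s < b) {ξ₀ : WithTop J}
    (T : C → ℕ → Set (Cond E)) (hTreg : ∀ ν z, Reg (T ν z)) (hTloc : ∀ ν z, Loc ξ₀ (T ν z))
    {b₀ : Cond E} (hb₀ : Below b₀.1 ξ₀) (hT : ∀ ν ν', ν < ν' → ASub b₀ (T ν') (T ν))
    {H : ℕ → ℕ → Set (Cond E)} (hH : FName H) (hHloc : ∀ m y, Loc ξ₀ (H m y))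
    {u : Cond E} (hu : u ≤ b₀) {X : ℕ → Set (Cond E)} (hX : ∀ z, Reg (X z)) {k₀ : ℕ}
    (hBd : Bd u H X k₀) (hsub : ∀ ν, ASub u X (T ν)) :
    ∃ q ≤ b₀, Below q.1 ξ₀ ∧ ∃ X' : ℕ → Set (Cond E), (∀ z, Reg (X' z)) ∧
      (∀ z, Loc ξ₀ (X' z)) ∧ (∃ k, Bd q H X' k) ∧ ∀ ν, ASub q X' (T ν) := by
  have main : ∀ η : WithTop J, PP b₀ H T η → PP b₀ H T ξ₀ := by
    intro η
    induction η using WellFoundedLT.induction with
    | ind η ih =>
      intro hP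
      rcases le_or_gt η ξ₀ with hle | hlt
      · obtain ⟨q, hq, hqη, X, hX, hXη, hk, hsub⟩ := hP
        exact ⟨q, hq, hqη.mono hle, X, hX, fun z => (hXη z).mono hle, hk, hsub⟩
      · by_cases hB : ∃ S : Set (WithTop J), S.Countable ∧ (∀ s ∈ S, s < η) ∧
            ∀ x < η, ∃ s ∈ S, x ≤ s
        · obtain ⟨S, h1, h2, h3⟩ := hB
          obtain ⟨η', h4, h5⟩ := caseB hC T hTreg hTloc hb₀ hT hH hHloc hlt S h1 h2 h3 hP
          exact ih η' h4 h5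
        · push Not at hB
          obtain ⟨η', h4, h5⟩ := caseA (fun S h1 h2 => by
            obtain ⟨x, h3, h6⟩ := hB S h1 h2
            exact ⟨x, h3, h6⟩) hP
          exact ih η' h4 h5
  exact main ⊤ ⟨u, hu, u.2.2, X, hX, fun z => loc_top _, ⟨k₀, hBd⟩, hsub⟩

end Pool.Agent.Helper669.OTower2
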