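import Mathlib
import Pool.Agent.Helper669.Forcing

/-!
# The statement `cov(M) < od` in the forcing language
-/

namespace Pool.Agent.Helper669.OFormula

open Cardinal Pool.Agent.Helper669.Forcing

universe u v w

variable {P : Type u} [Preorder P]

/-- `φ or ψ` is `not (not φ and not ψ)`. -/
def forr (φ ψ : Set P) : Set P := fnot (fand (fnot φ) (fnot ψ))

/-- The subset of `ℕ` named by `X` is infinite. -/
def InfSet (X : ℕ → Set P) : Set P :=
  fall fun k : ℕ => fex fun m : ℕ => fand (fground (k ≤ m)) (meets (X m))

/-- The subset of `ℕ` named by `X` is almost contained in the one named by `X'`: for some `k`,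
all elements `m ≥ k` of the first are in the second. -/
def AlmostSub (X X' : ℕ → Set P) : Set P :=
  fex fun k : ℕ => fall fun m : ℕ =>
    fimp (fand (fground (k ≤ m)) (meets (X m))) (meets (X' m))

/-- `A` names a family, indexed by the ground model set `Y`, of sequences `A y 0, A y 1, ...` of
infinite subsets of `ℕ` such that for every `n` the sets `A y n`, `y : Y`, are linearly
quasiordered by almost inclusion: a τ-family. -/
def IsTau {Y : Type w} (A : Y → ℕ → ℕ → Set P) : Set P :=
  fall fun n : ℕ => fand (fall fun y => InfSet (A y n))
    (fall fun y => fall fun y' => forr (AlmostSub (A y n) (A y' n)) (AlmostSub (A y' n) (A y n)))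

/-- The family named by `A` is `o`-diagonalizable: there is a function `g` from `ℕ` to `ℕ` such
that for every `y` there is `n` with `g n` in `A y n`. -/
def ODiag {Y : Type w} (A : Y → ℕ → ℕ → Set P) : Set P :=
  fex fun g : ℕ → ℕ → Set P =>
    fand (IsFun g) (fall fun y => fex fun n => fex fun m => fand (meets (g n m)) (meets (A y n m)))

/-- Every τ-family indexed by `Y` is `o`-diagonalizable, that is, the cardinality of `Y` in the
extension is less than `od`. -/
def LtOd (P : Type u) [Preorder P] (Y : Type w) : Set P :=
  fall fun A : Y → ℕ → ℕ → Set P => fimp (IsTau A) (ODiag A)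

/-- `cov(M) < od`: for some `κ` the Baire space is covered by `κ` many meager sets, while every
τ-family indexed by `κ` is `o`-diagonalizable. -/
def CovLtOd (P : Type u) [Preorder P] : Set P :=
  fex fun κ : Cardinal.{u} => fand (CovLe P κ.out) (LtOd P κ.out)

/-- The countable chain condition: every family of pairwise incompatible conditions is
countable. -/
def CCC (P : Type u) [Preorder P] : Prop :=
  ∀ S : Set P, (∀ p ∈ S, ∀ q ∈ S, (∃ r, r ≤ p ∧ r ≤ q) → p = q) → S.Countable

end Pool.Agent.Helper669.OFormula
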