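import Mathlib
import Pool.Agent.Helper669.OClose

/-!
# Constructing the closed point and everything that goes with it
-/

namespace Pool.Agent.Helper669.OSetting

open Cardinal Ordinal Pool.Agent.Helper669.Iter Pool.Agent.Helper669.Forcing
  Pool.Agent.Helper669.OIter Pool.Agent.Helper669.ODefs Pool.Agent.Helper669.OSupp
  Pool.Agent.Helper669.OIdx Pool.Agent.Helper669.OCode Pool.Agent.Helper669.OCase
  Pool.Agent.Helper669.OClose

set_option linter.unusedSectionVars false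

variable {K L : Type} [LinearOrder K] [WellFoundedLT K] [LinearOrder L] [WellFoundedLT L]

/-- there is a lower bound of the members before `i` -/
def LB (T : K → ℕ → Set (Cond (EE K L))) (i : K) (d : Cond (EE K L)) : Prop :=
  ∃ i', ∀ i'', i'' < i → ASub d (T i') (T i'')

theorem exists_A (T : K → ℕ → Set (Cond (EE K L))) :
    ∃ A ⊆ {p : Cond (EE K L) | PI T p ∨ ((∀ q ≤ p, ¬ PI T q) ∧
      (BDD T p ∨ ∀ q ≤ p, ¬ BDD T q))}, A.Countable ∧ (∀ p, ∃ a ∈ A, Compat a p) ∧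
      ∀ a ∈ A, ∀ b ∈ A, Compat a b → a = b := by
  apply exists_antichain
  intro p
  by_cases h1 : ∃ q ≤ p, PI T q
  · obtain ⟨q, hq, h⟩ := h1
    exact ⟨q, hq, Or.inl h⟩
  · push Not at h1
    by_cases h2 : ∃ q ≤ p, BDD T q
    · obtain ⟨q, hq, h⟩ := h2
      exact ⟨q, hq, Or.inr ⟨fun r hr => h1 r (hr.trans hq), Or.inl h⟩⟩
    · push Not at h2
      exact ⟨p, le_rfl, Or.inr ⟨h1, Or.inr h2⟩⟩

theorem exists_D (T : K → ℕ → Set (Cond (EE K L))) (i : K) :
    ∃ A ⊆ {p : Cond (EE K L) | LB T i p ∨ ∀ q ≤ p, ¬ LB T i q}, A.Countable ∧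
      (∀ p, ∃ a ∈ A, Compat a p) ∧ ∀ a ∈ A, ∀ b ∈ A, Compat a b → a = b := by
  apply exists_antichain
  intro p
  by_cases h1 : ∃ q ≤ p, LB T i q
  · obtain ⟨q, hq, h⟩ := h1
    exact ⟨q, hq, Or.inl h⟩
  · push Not at h1
    exact ⟨p, le_rfl, Or.inr h1⟩

theorem exists_xcode (T : K → ℕ → Set (Cond (EE K L))) (p : Cond (EE K L)) :
    ∃ x : ℕ → Set (Cond (EE K L)), (∀ z, (x z).Countable) ∧
      (PI T p → Inf p (fun z => meets (x z)) ∧ ∀ i, ASub p (fun z => meets (x z)) (T i)) := by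
  by_cases h : PI T p
  · obtain ⟨X, h1, h2, h3⟩ := h
    choose x hxc _ hx using fun z => exists_code (ξ := ⊤) (h1 z) (loc_top _)
    refine ⟨x, hxc, fun _ => ?_⟩
    have : (fun z => meets (x z)) = X := funext hx
    rw [this]
    exact ⟨h2, h3⟩
  · exact ⟨fun _ => ∅, fun _ => Set.countable_empty, fun h' => absurd h' h⟩

theorem exists_hcode (T : K → ℕ → Set (Cond (EE K L))) (p : Cond (EE K L)) :
    ∃ h : ℕ → ℕ → Set (Cond (EE K L)), (∀ m y, (h m y).Countable) ∧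
      (BDD T p → FName (fun m y => meets (h m y)) ∧
        ∀ i, ABd p (fun m y => meets (h m y)) (T i)) := by
  by_cases h : BDD T p
  · obtain ⟨H, h1, h2⟩ := h
    obtain ⟨h, hc, _, hF, hh⟩ := exists_fcode (ξ := ⊤) h1 fun _ _ => loc_top _
    exact ⟨h, hc, fun _ => ⟨hF, fun i => hh p _ (h2 i)⟩⟩
  · exact ⟨fun _ _ => ∅, fun _ _ => Set.countable_empty, fun h' => absurd h' h⟩

theorem exists_setting {μ : Cardinal.{0}} (hμ : ℵ₁ ≤ μ) (hpow : μ ^ ℵ₀ = μ)
    (hIio : ∀ i : K, #(Set.Iio i) ≤ μ) (hbd : ∀ S : Set K, #S ≤ μ → ∃ b, ∀ s ∈ S, s < b)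
    (hKL : #K < #L) (hμK : μ ≤ #K)
    {pst : Cond (EE K L)} {T : ℕ → K → ℕ → Set (Cond (EE K L))} (hreg : ∀ n i z, Reg (T n i z))
    (hinf : ∀ n i, Inf pst (T n i))
    (hlin : ∀ n i i', ∀ r ≤ pst, ∃ s ≤ r, ASub s (T n i) (T n i') ∨ ASub s (T n i') (T n i)) :
    ∃ (C : Type) (_ : LinearOrder C) (δ : K) (ξ : WithTop (Idx K L)) (S L₀ : Set L) (f : C → K)
      (A : ℕ → Set (Cond (EE K L))) (D : ℕ → C → Set (Cond (EE K L))) (j : L),
      (∀ n, Setting δ ξ S L₀ pst (T n) f (A n) (D n)) ∧ Below pst.1 ξ ∧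
      ξ ≤ ((toLex (δ, (j : WithTop L)) : Idx K L) : WithTop (Idx K L)) ∧
      ∀ n i z, ∃ a : Set (Cond (EE K L)), meets a = T n i z ∧ ∀ p ∈ a,
        ∃ K' : Set (WithTop (Idx K L)), p.1 ∈ VK (EE K L) K' ⊤ ∧
          ((toLex (δ, (j : WithTop L)) : Idx K L) : WithTop (Idx K L)) ∉ K' := by
  classical
  have hμ0 : ℵ₀ ≤ μ := aleph0_lt_aleph_one.le.trans hμ
  have hK0 : ℵ₀ ≤ #K := hμ0.trans hμK
  have hL0 : ℵ₀ ≤ #L := hK0.trans hKL.le
  have hcK : ∀ S : Set K, S.Countable → ∃ b, ∀ s ∈ S, s < b := fun S hS =>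
    hbd S (mk_countable_small hμ0 hS)
  choose a hac _ ha using fun n i z => exists_code (ξ := ⊤) (hreg n i z) (loc_top _)
  choose A hAD hAc hAp _ using fun n => exists_A (T n)
  choose x hxc hx using fun n p => exists_xcode (T n) p
  choose hc hcc hch using fun n p => exists_hcode (T n) p
  set N₀ : Set (Cond (EE K L)) := {pst} ∪ ⋃ n, (A n ∪ ⋃ p ∈ A n, ((⋃ z, x n p z) ∪
    ⋃ m, ⋃ y, hc n p m y)) with hN₀
  have hN₀c : N₀.Countable := by
    refine (Set.countable_singleton pst).union (Set.countable_iUnion fun n => (hAc n).union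
      ((hAc n).biUnion fun p _ => (Set.countable_iUnion fun z => hxc n p z).union
        (Set.countable_iUnion fun m => Set.countable_iUnion fun y => hcc n p m y)))
  choose D hDD hDc hDp hDa using fun n i => exists_D (T n) i
  have hlb : ∀ n i d, ∃ i', LB (T n) i d → ∀ i'', i'' < i → ASub d (T n i') (T n i'') := by
    intro n i d
    by_cases h : LB (T n) i d
    · obtain ⟨i', hi'⟩ := h
      exact ⟨i', fun _ => hi'⟩
    · exact ⟨i, fun h' => absurd h' h⟩
  choose lb hlb using hlb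
  choose w s hsc hs using fun i => exists_supp_top hcK (N := N₀ ∪ ⋃ n, ((⋃ z, a n i z) ∪ D n i))
    (hN₀c.union (Set.countable_iUnion fun n =>
      (Set.countable_iUnion fun z => hac n i z).union (hDc n i)))
  have hs0 : ∀ i, ∀ p ∈ N₀, p.1 ∈ VK (EE K L) (NN (w i) (s i)) ⊤ := fun i p hp =>
    hs i p (Or.inl hp)
  have hsa : ∀ n i z, ∀ p ∈ a n i z, p.1 ∈ VK (EE K L) (NN (w i) (s i)) ⊤ := fun n i z p hp =>
    hs i p (Or.inr (Set.mem_iUnion.2 ⟨n, Or.inl (Set.mem_iUnion.2 ⟨z, hp⟩)⟩))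
  have hsD : ∀ n i, ∀ p ∈ D n i, p.1 ∈ VK (EE K L) (NN (w i) (s i)) ⊤ := fun n i p hp =>
    hs i p (Or.inr (Set.mem_iUnion.2 ⟨n, Or.inr hp⟩))
  have hSU : #(⋃ i, s i : Set L) ≤ #K :=
    mk_iUnion_small hK0 le_rfl fun i => mk_countable_small hK0 (hsc i)
  obtain ⟨L₀, hL₀sub, hL₀card⟩ : ∃ L₀ ⊆ (⋃ i, s i : Set L)ᶜ, #L₀ = μ := by
    rw [← le_mk_iff_exists_subset]
    have h1 : #((⋃ i, s i : Set L)ᶜ : Set L) = #L := by
      have : Infinite L := Cardinal.infinite_iff.2 hL0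
      exact mk_compl_of_infinite _ (hSU.trans_lt hKL)
    rw [h1]
    exact hμK.trans hKL.le
  obtain ⟨j, hj⟩ : ∃ j, j ∉ (⋃ i, s i : Set L) ∪ L₀ := by
    by_contra hcon
    push Not at hcon
    have h1 : #((⋃ i, s i : Set L) ∪ L₀ : Set L) = #L := by
      rw [Set.eq_univ_of_forall hcon, mk_univ]
    have h2 := mk_union_small hK0 hSU (hL₀card.le.trans hμK)
    rw [h1] at h2
    exact absurd h2 (not_le.2 hKL)
  rw [Set.mem_union, not_or] at hj
  have hw1 : ∀ n (c : Cond (EE K L) × (ℕ → ℕ → Set (Cond (EE K L)))), ∃ i',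
      (∃ i', ¬ ASub c.1 (fun z => meets (c.2 z 0)) (T n i')) →
        ¬ ASub c.1 (fun z => meets (c.2 z 0)) (T n i') := by
    intro n c
    by_cases h : ∃ i', ¬ ASub c.1 (fun z => meets (c.2 z 0)) (T n i')
    · obtain ⟨i', hi'⟩ := h
      exact ⟨i', fun _ => hi'⟩
    · obtain ⟨k₀, _⟩ := hcK ∅ Set.countable_empty
      exact ⟨k₀, fun h' => absurd h' h⟩
  choose w1 hw1 using hw1
  have hw2 : ∀ n (c : Cond (EE K L) × (ℕ → ℕ → Set (Cond (EE K L)))), ∃ i',
      (∃ i', ¬ ABd c.1 (fun m y => meets (c.2 m y)) (T n i')) →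
        ¬ ABd c.1 (fun m y => meets (c.2 m y)) (T n i') := by
    intro n c
    by_cases h : ∃ i', ¬ ABd c.1 (fun m y => meets (c.2 m y)) (T n i')
    · obtain ⟨i', hi'⟩ := h
      exact ⟨i', fun _ => hi'⟩
    · obtain ⟨k₀, _⟩ := hcK ∅ Set.countable_empty
      exact ⟨k₀, fun h' => absurd h' h⟩
  choose w2 hw2 using hw2
  let Ls : K → Set L := fun i => L₀ ∪ ⋃ i' ∈ Set.Iio i, s i'
  have hLs : ∀ i, #(Ls i) ≤ μ := fun i => mk_union_small hμ0 hL₀card.le
    (mk_biUnion_small hμ0 (hIio i) fun i' _ => mk_countable_small hμ0 (hsc i'))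
  let V : K → Set (Cond (EE K L)) := fun i => {p | p.1 ∈ VK (EE K L) (NN i (Ls i)) ⊤}
  have hV : ∀ i, #(V i) ≤ μ := by
    intro i
    refine (mk_le_of_injective (f := fun p : V i =>
      (⟨p.1.1, p.2⟩ : VK (EE K L) (NN i (Ls i)) ⊤)) ?_).trans
      (OCount.mk_VK_le hμ0 hpow (mk_NN_le hμ0 (hIio i) (hLs i)) ⊤)
    intro p q hpq
    have h : p.1.1 = q.1.1 := by
      have := Subtype.mk.inj hpq
      exact this
    exact Subtype.ext (Subtype.ext h)
  let Cd : K → Set (Cond (EE K L) × (ℕ → ℕ → Set (Cond (EE K L)))) := fun i =>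
    V i ×ˢ {x | ∀ m y, (x m y).Countable ∧ x m y ⊆ V i}
  have hCd : ∀ i, #(Cd i) ≤ μ := by
    intro i
    rw [mk_setProd]
    exact (mul_le_mul' (hV i) (mk_code_le hμ0 hpow (hV i))).trans (mul_eq_self hμ0).le
  have hN : #ℕ ≤ μ := by rw [mk_nat]; exact hμ0
  obtain ⟨C, _, f, δ, hC, hfδ, hfcof, hfmono, hfU, hδU⟩ := exists_closed hμ hIio hbd
    (fun i => ({w i} ∪ ⋃ n, lb n i '' D n i) ∪ ((⋃ n, w1 n '' Cd i) ∪ ⋃ n, w2 n '' Cd i))
    (fun i => mk_union_small hμ0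
      (mk_union_small hμ0 (mk_countable_small hμ0 (Set.countable_singleton _))
        (mk_countable_small hμ0 (Set.countable_iUnion fun n => (hDc n i).image _)))
      (mk_union_small hμ0
        (mk_iUnion_small hμ0 hN fun n => mk_image_le.trans (hCd i))
        (mk_iUnion_small hμ0 hN fun n => mk_image_le.trans (hCd i))))
  have hwδ : ∀ i < δ, w i < δ := fun i hi => hδU i hi _ (Or.inl (Or.inl rfl))
  obtain ⟨ν₀, _⟩ := hC ∅ Set.countable_empty
  -- the cut
  have hLne : Nonempty L := by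
    have : Infinite L := Cardinal.infinite_iff.2 hL0
    infer_instance
  obtain ⟨l₀, _, hl₀⟩ := (wellFounded_lt (α := L)).has_min Set.univ Set.univ_nonempty
  have hl₀' : ∀ y : WithTop L, ¬ y < (l₀ : WithTop L) := by
    intro y hy
    induction y using WithTop.recTopCoe with
    | top => exact absurd hy not_top_lt
    | coe l => exact hl₀ l (Set.mem_univ l) (WithTop.coe_lt_coe.1 hy)
  have hcut : ∀ (a : K) (y : WithTop L), ((toLex (a, y) : Idx K L) : WithTop (Idx K L)) <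
      ((toLex (δ, (l₀ : WithTop L)) : Idx K L) : WithTop (Idx K L)) ↔ a < δ := by
    intro a y
    rw [WithTop.coe_lt_coe, Prod.Lex.toLex_lt_toLex]
    constructor
    · rintro (h | ⟨_, h⟩)
      · exact h
      · exact absurd h (hl₀' y)
    · exact fun h => Or.inl h
  have hbel : ∀ i < δ, ∀ p : Cond (EE K L), p.1 ∈ VK (EE K L) (NN (w i) (s i)) ⊤ →
      Below p.1 ((toLex (δ, (l₀ : WithTop L)) : Idx K L) : WithTop (Idx K L)) :=
    fun i hi p hp => below_of_NN hcut (hwδ i hi).le hp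
  have hsup : ∀ i < δ, ∀ p : Cond (EE K L), p.1 ∈ VK (EE K L) (NN (w i) (s i)) ⊤ →
      p.1 ∈ VK (EE K L) (NN δ (⋃ i ∈ Set.Iio δ, s i)) ⊤ := fun i hi p hp =>
    OCount.VK_mono (NN_mono (hwδ i hi).le
      (Set.subset_biUnion_of_mem (u := fun i => s i) (Set.mem_Iio.2 hi))) ⊤ hp
  have hdisj : Disjoint (⋃ i ∈ Set.Iio δ, s i) L₀ := by
    rw [Set.disjoint_left]
    intro l hl hl'
    apply hL₀sub hl'
    simp only [Set.mem_iUnion] at hl ⊢
    obtain ⟨i, _, hi⟩ := hl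
    exact ⟨i, hi⟩
  have hunc : ¬ L₀.Countable := by
    intro h
    have := Cardinal.le_aleph0_iff_set_countable.2 h
    rw [hL₀card] at this
    exact absurd (hμ.trans this) (not_le.2 aleph0_lt_aleph_one)
  have hclos : ∀ Kc : Set (WithTop (Idx K L)), Kc.Countable →
      Kc ⊆ NN δ ((⋃ i ∈ Set.Iio δ, s i) ∪ L₀) → ∃ i < δ, Kc ⊆ NN i (Ls i) := by
    intro Kc hKc hsub
    have h1 : ∀ y : WithTop (Idx K L), ∃ ν : C, y ∈ Kc → y ∈ NN (f ν) (Ls (f ν)) := by
      intro y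
      by_cases hy : y ∈ Kc
      · obtain ⟨a', ha', y', rfl, hy'⟩ := hsub hy
        obtain ⟨ν, hν⟩ := hfcof a' ha'
        rcases hy' with rfl | ⟨l, hl | hl, rfl⟩
        · exact ⟨ν, fun _ => ⟨a', hν, ⊤, rfl, Or.inl rfl⟩⟩
        · simp only [Set.mem_iUnion] at hl
          obtain ⟨i, hi, hl⟩ := hl
          obtain ⟨ν', hν'⟩ := hfcof i hi
          have h2 : a' < f (max ν ν') := hν.trans_le (by
            rcases le_total ν ν' with h | h
            · rw [max_eq_right h]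
              rcases h.lt_or_eq with h | rfl
              · exact (hfmono _ _ h).le
              · exact le_rfl
            · rw [max_eq_left h])
          have h3 : i < f (max ν ν') := hν'.trans_le (by
            rcases le_total ν ν' with h | h
            · rw [max_eq_right h]
            · rw [max_eq_left h]
              rcases h.lt_or_eq with h | rfl
              · exact (hfmono _ _ h).le
              · exact le_rfl)
          exact ⟨max ν ν', fun _ => ⟨a', h2, _, rfl,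
            Or.inr ⟨l, Or.inr (Set.mem_biUnion (Set.mem_Iio.2 h3) hl), rfl⟩⟩⟩
        · exact ⟨ν, fun _ => ⟨a', hν, _, rfl, Or.inr ⟨l, Or.inl hl, rfl⟩⟩⟩
      · exact ⟨ν₀, fun h => absurd h hy⟩
    choose g hg using h1
    obtain ⟨ν, hν⟩ := hC (g '' Kc) (hKc.image g)
    refine ⟨f ν, hfδ ν, fun y hy => NN_mono (hfmono _ _ (hν _ ⟨y, hy, rfl⟩)).le ?_ (hg y hy)⟩
    rintro l (hl | hl)
    · exact Or.inl hl
    · simp only [Set.mem_iUnion] at hl
      obtain ⟨i, hi, hl⟩ := hl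
      exact Or.inr (Set.mem_biUnion (Set.mem_Iio.2
        ((Set.mem_Iio.1 hi).trans (hfmono _ _ (hν _ ⟨y, hy, rfl⟩)))) hl)
  refine ⟨C, inferInstance, δ, _, ⋃ i ∈ Set.Iio δ, s i, L₀, f, A, fun n ν => D n (f ν), j,
    fun n => ?_, hbel (f ν₀) (hfδ ν₀) pst (hs0 _ pst (Or.inl rfl)), ?_, ?_⟩
  · have hAN₀ : ∀ p ∈ A n, p ∈ N₀ := fun p hp => Or.inr (Set.mem_iUnion.2 ⟨n, Or.inl hp⟩)
    refine
      { cut := hcut
        reg := hreg n
        inf := hinf n
        lin := hlin n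
        loc := fun i hi z => ?_
        fix := fun Θ hΘ i hi z p => ?_
        f_lt := hfδ
        f_cof := hfcof
        C_cof := hC
        A_pre := hAp n
        A_below := fun p hp => hbel (f ν₀) (hfδ ν₀) p (hs0 _ p (hAN₀ p hp))
        A_fix := fun p hp => hsup (f ν₀) (hfδ ν₀) p (hs0 _ p (hAN₀ p hp))
        A_spec := fun p hp => ?_
        D_pre := fun ν => hDp n (f ν)
        D_anti := fun ν => hDa n (f ν)
        D_below := fun ν d hd => hbel (f ν) (hfδ ν) d (hsD n (f ν) d hd)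
        D_spec := fun ν d hd => ?_
        clos := fun Kc hKc hsub q hq y hyc hy => ?_
        disj := hdisj
        unc := hunc }
    · rw [← ha n i z]
      exact loc_meets fun p hp => hbel i hi p (hsa n i z p hp)
    · rw [← ha n i z]
      exact OHit.meets_act Θ (fun r hr => hΘ r (hsup i hi r (hsa n i z r hr))) p
    · rcases hAD n hp with h | ⟨h1, h2⟩
      · left
        obtain ⟨h3, h4⟩ := hx n p h
        refine ⟨_, fun z => reg_meets _, fun z => loc_meets fun r hr =>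
          hbel (f ν₀) (hfδ ν₀) r (hs0 _ r ?_), h3, h4⟩
        exact Or.inr (Set.mem_iUnion.2 ⟨n, Or.inr (Set.mem_biUnion hp
          (Or.inl (Set.mem_iUnion.2 ⟨z, hr⟩)))⟩)
      · right
        refine ⟨h1, ?_⟩
        rcases h2 with h2 | h2
        · left
          obtain ⟨h3, h4⟩ := hch n p h2
          refine ⟨_, h3, fun m y => loc_meets fun r hr =>
            hbel (f ν₀) (hfδ ν₀) r (hs0 _ r ?_), h4⟩
          exact Or.inr (Set.mem_iUnion.2 ⟨n, Or.inr (Set.mem_biUnion hp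
            (Or.inr (Set.mem_iUnion.2 ⟨m, Set.mem_iUnion.2 ⟨y, hr⟩⟩)))⟩)
        · exact Or.inr h2
    · rcases hDD n (f ν) hd with h | h
      · left
        refine ⟨lb n (f ν) d, ?_, fun ν' hν' => ?_, hlb n (f ν) d h⟩
        · exact hδU (f ν) (hfδ ν) _ (Or.inl (Or.inr (Set.mem_iUnion.2 ⟨n, d, hd, rfl⟩)))
        · exact hfU ν ν' hν' _ (Or.inl (Or.inr (Set.mem_iUnion.2 ⟨n, d, hd, rfl⟩)))
      · right
        exact fun q hq h' => h q hq h'
    · obtain ⟨i, hi, hKi⟩ := hclos Kc hKc hsub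
      have hqV : (q, y) ∈ Cd i := ⟨OCount.VK_mono hKi ⊤ hq, fun m k => ⟨hyc m k, fun p hp =>
        OCount.VK_mono hKi ⊤ (hy m k p hp)⟩⟩
      constructor
      · intro h i'
        by_contra hcon
        exact hw1 n (q, y) ⟨i', hcon⟩ (h _ (hδU i hi _
          (Or.inr (Or.inl (Set.mem_iUnion.2 ⟨n, _, hqV, rfl⟩)))))
      · intro h i'
        by_contra hcon
        exact hw2 n (q, y) ⟨i', hcon⟩ (h _ (hδU i hi _
          (Or.inr (Or.inr (Set.mem_iUnion.2 ⟨n, _, hqV, rfl⟩)))))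
  · rw [WithTop.coe_le_coe, Prod.Lex.toLex_le_toLex]
    exact Or.inr ⟨rfl, not_lt.1 (hl₀' _)⟩
  · intro n i z
    refine ⟨a n i z, ha n i z, fun p hp => ⟨NN (w i) (s i), hsa n i z p hp, ?_⟩⟩
    rintro ⟨a', _, y, h1, h2⟩
    have h3 := toLex.injective (WithTop.coe_injective h1)
    have h4 : (j : WithTop L) = y := (Prod.mk.injEq _ _ _ _ ▸ h3 : δ = a' ∧ (j : WithTop L) = y).2
    rcases h2 with rfl | ⟨l, hl, rfl⟩
    · exact WithTop.coe_ne_top h4
    · rw [← WithTop.coe_injective h4] at hl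
      exact hj.1 (Set.mem_iUnion.2 ⟨i, hl⟩)

end Pool.Agent.Helper669.OSetting
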