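import Mathlib
import Pool.Agent.Helper669.OSetting
import Pool.Agent.Helper669.OCov
import Pool.Agent.Helper669.OFormula

/-!
# `cov(M) < od`
-/

namespace Pool.Agent.Helper669.OMain

open Cardinal Ordinal Pool.Agent.Helper669.Iter Pool.Agent.Helper669.Forcing
  Pool.Agent.Helper669.OIter Pool.Agent.Helper669.ODefs Pool.Agent.Helper669.OSupp
  Pool.Agent.Helper669.OIdx Pool.Agent.Helper669.OCode Pool.Agent.Helper669.OCase
  Pool.Agent.Helper669.OCov Pool.Agent.Helper669.OFormula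

set_option linter.unusedSectionVars false

/-! ### The forcing language -/

section
variable {P : Type} [Preorder P]

theorem inf_of_mem {X : ℕ → Set P} {p : P} (h : p ∈ InfSet X) : Inf p fun z => meets (X z) := by
  intro k r hr
  obtain ⟨s, hs, m, h1, h2⟩ := mem_fex.1 (h k) r hr
  exact ⟨s, hs, m, h1, h2⟩

theorem asub_of_mem {X X' : ℕ → Set P} {p : P} (h : p ∈ AlmostSub X X') :
    ASub p (fun z => meets (X z)) fun z => meets (X' z) := by
  intro r hr
  obtain ⟨s, hs, k, hk⟩ := mem_fex.1 h r hr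
  refine ⟨s, hs, k, fun m hm t ht htX => ?_⟩
  refine (reg_meets (X' m)).2 t fun q hq => ?_
  exact mem_fimp.1 (hk m) q (hq.trans ht) ⟨hm, down_meets _ _ htX q hq⟩

theorem exists_of_forr {φ ψ : Set P} {p : P} (h : p ∈ forr φ ψ) : ∀ q ≤ p, ∃ r ≤ q,
    r ∈ φ ∨ r ∈ ψ := by
  intro q hq
  by_contra hcon
  push Not at hcon
  exact h q hq ⟨fun r hr => (hcon r hr).1, fun r hr => (hcon r hr).2⟩

theorem tau_inf {Y : Type} {A : Y → ℕ → ℕ → Set P} {p : P} (h : p ∈ IsTau A) (n : ℕ) (y : Y) :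
    Inf p fun z => meets (A y n z) := inf_of_mem ((h n).1 y)

theorem tau_lin {Y : Type} {A : Y → ℕ → ℕ → Set P} {p : P} (h : p ∈ IsTau A) (n : ℕ)
    (y y' : Y) : ∀ r ≤ p, ∃ s ≤ r, ASub s (fun z => meets (A y n z)) (fun z => meets (A y' n z)) ∨
      ASub s (fun z => meets (A y' n z)) fun z => meets (A y n z) := by
  intro r hr
  obtain ⟨s, hs, h1⟩ := exists_of_forr ((h n).2 y y') r hr
  exact ⟨s, hs, h1.imp asub_of_mem asub_of_mem⟩

end

variable {K L : Type} [LinearOrder K] [WellFoundedLT K] [LinearOrder L] [WellFoundedLT L]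

theorem coe_notMem_EE (a : K) (j : L) :
    ((toLex (a, (j : WithTop L)) : Idx K L) : WithTop (Idx K L)) ∉ EE K L := by
  rintro ⟨a', h⟩
  have h3 := toLex.injective (WithTop.coe_injective h)
  have h4 : (j : WithTop L) = ⊤ :=
    (Prod.mk.injEq _ _ _ _ ▸ h3 : a = a' ∧ (j : WithTop L) = ⊤).2
  exact WithTop.coe_ne_top h4

/-- every τ-family indexed by `Y` is `o`-diagonalizable -/
theorem odiag (hfus : Fusion (EE K L)) {μ : Cardinal.{0}} (hμ : ℵ₁ ≤ μ) (hpow : μ ^ ℵ₀ = μ)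
    (hIio : ∀ i : K, #(Set.Iio i) ≤ μ) (hbd : ∀ S : Set K, #S ≤ μ → ∃ b, ∀ s ∈ S, s < b)
    (hKL : #K < #L) (hμK : μ ≤ #K) {Y : Type} (e : K ≃ Y) {A : Y → ℕ → ℕ → Set (Cond (EE K L))}
    {pst : Cond (EE K L)} (hA : pst ∈ IsTau A) : pst ∈ ODiag A := by
  obtain ⟨C, _, δ, ξ, S, L₀, f, A', D, j, hset, hpst, hξ, hcode⟩ :=
    OSetting.exists_setting hμ hpow hIio hbd hKL hμK (pst := pst)
      (T := fun n i z => meets (A (e i) n z)) (fun n i z => reg_meets _)
      (fun n i => tau_inf hA n (e i)) (fun n i i' => tau_lin hA n (e i) (e i'))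
  refine mem_fex_of_mem (Gr (EE K L) (toLex (δ, (j : WithTop L)))) (down_fand (down_IsFun _)
    (down_fall fun _ => down_fex _)) ⟨isFun_Gr _ pst, fun y => mem_fex.2 fun q hq => ?_⟩
  obtain ⟨i, rfl⟩ := e.surjective y
  set c : Idx K L := toLex (δ, (j : WithTop L)) with hc
  set n := (q.1.st (c : WithTop (Idx K L))).length with hn
  obtain ⟨p₀, hp₀, hp₀b, B, hB1, hB2, hB3, hB4⟩ := OCase.main hfus (hset n) i
    (u := resP q ξ) (resP_le hq hpst) (below_resP q ξ)
  have hs1 : glueP p₀ q ξ ≤ q := glueP_le hp₀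
  have hs2 : glueP p₀ q ξ ≤ p₀ := glueP_le_left hp₀b
  choose a ha1 ha2 using fun z => hcode n i z
  obtain ⟨v, r, hr, hrv⟩ := OHit.hit hfus hξ (coe_notMem_EE δ j) hB1 hB2 (a := a) ha2
    hp₀b hB3 (by
      have : (fun z => meets (a z)) = fun z => meets (A (e i) n z) := funext ha1
      rw [this]; exact hB4) (glueP p₀ q ξ) hs2
  have h1 : OHit.pushC (glueP p₀ q ξ) c v ≤ glueP p₀ q ξ := OHit.pushC_le _ (coe_notMem_EE δ j) v
  have h2 : OHit.pushC (glueP p₀ q ξ) c v ∈ Gr (EE K L) c n v := by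
    have e1 : (OHit.pushC (glueP p₀ q ξ) c v).1.st (c : WithTop (Idx K L)) =
        q.1.st (c : WithTop (Idx K L)) ++ [v] := by
      show (push (glueP p₀ q ξ).1 c v).st (c : WithTop (Idx K L)) = _
      rw [push_st_self]
      show (glue p₀.1 q.1 ξ).st (c : WithTop (Idx K L)) ++ [v] = _
      rw [glue_st_ge hξ]
    refine ⟨?_, ?_⟩
    · rw [e1, List.length_append]; simp [hn]
    · rw [e1, List.getD_append_right _ _ _ _ (by rw [hn])]
      simp [hn]
  refine ⟨r, hr.trans (h1.trans hs1), n, mem_fex_of_mem v (down_fand (down_meets _)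
    (down_meets _)) ⟨meets_of_mem (down_Gr c n v _ h2 r hr), ?_⟩⟩
  rw [← ha1 v]
  exact hrv

theorem hcof_idx (hcK : ∀ S : Set K, S.Countable → ∃ b, ∀ s ∈ S, s < b) :
    ∀ S : Set (Idx K L), S.Countable → ∃ b, ∀ s ∈ S, s < b := by
  intro S hS
  obtain ⟨b, hb⟩ := hcK ((fun x : Idx K L => (ofLex x).1) '' S) (hS.image _)
  refine ⟨toLex (b, ⊤), fun s hs => ?_⟩
  rw [Prod.Lex.lt_iff]
  exact Or.inl (hb _ ⟨s, hs, rfl⟩)

theorem exists_orders {μ : Cardinal.{0}} (hμ : ℵ₀ ≤ μ) :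
    ∃ (K : Type) (_ : LinearOrder K) (_ : WellFoundedLT K), #K = Order.succ μ ∧
      (∀ i : K, #(Set.Iio i) ≤ μ) ∧ ∀ S : Set K, #S ≤ μ → ∃ b, ∀ s ∈ S, s < b := by
  have hreg := isRegular_succ hμ
  have hcard : #((Order.succ μ).ord.ToType) = Order.succ μ := by rw [mk_toType, card_ord]
  have hc : Order.cof (Order.succ μ).ord.ToType = Order.succ μ := by
    rw [cof_toType, hreg.cof_ord]
  refine ⟨(Order.succ μ).ord.ToType, inferInstance, inferInstance, hcard, fun i => ?_,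
    fun S hS => ?_⟩
  · have := Cardinal.mk_Iio_lt i (by rw [hcard, type_toType])
    rw [hcard] at this
    exact Order.lt_succ_iff.1 this
  · by_contra hcon
    push Not at hcon
    have h1 : IsCofinal S := fun b => by
      obtain ⟨s, hs, hb⟩ := hcon b
      exact ⟨s, hs, hb⟩
    have h2 := Order.cof_le h1
    rw [hc] at h2
    exact absurd (h2.trans hS) (not_le.2 (Order.lt_succ μ))

theorem exists_forcing : ∃ (P : Type) (_ : Preorder P), Nonempty P ∧ CCC P ∧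
    ∀ p : P, p ∈ CovLtOd P := by
  set μ : Cardinal.{0} := 𝔠 with hμdef
  have hμ1 : ℵ₁ ≤ μ := by
    rw [← succ_aleph0]
    exact Order.succ_le_of_lt aleph0_lt_continuum
  have hμ0 : ℵ₀ ≤ μ := aleph0_lt_aleph_one.le.trans hμ1
  have hpow : μ ^ ℵ₀ = μ := continuum_power_aleph0
  obtain ⟨K, _, _, hK, hIio, hbd⟩ := exists_orders hμ0
  obtain ⟨L, _, _, hL, _⟩ := exists_orders (μ := Order.succ μ) (hμ0.trans (Order.le_succ μ))
  have hKL : #K < #L := by rw [hK, hL]; exact Order.lt_succ _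
  have hμK : μ ≤ #K := by rw [hK]; exact Order.le_succ μ
  have hcK : ∀ S : Set K, S.Countable → ∃ b, ∀ s ∈ S, s < b := fun S hS =>
    hbd S (OClose.mk_countable_small hμ0 hS)
  obtain ⟨e⟩ : Nonempty (K ≃ (#K).out) := Cardinal.eq.1 (by rw [mk_out])
  refine ⟨Cond (EE K L), inferInstance, inferInstance, fun S hS => ?_, fun p => ?_⟩
  · by_contra hcon
    have hcon' : ¬ Countable S := hcon
    obtain ⟨y, y', hne, r, h1, h2⟩ := cond_ccc (fun s : S => s.1) hcon'
    exact hne (Subtype.ext (hS y.1 y.2 y'.1 y'.2 ⟨r, h1, h2⟩))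
  · have hdown : Down (fand (CovLe (Cond (EE K L)) (#K).out) (LtOd (Cond (EE K L)) (#K).out)) :=
      down_fand (down_fex _) (down_fall fun _ => down_fimp _ _)
    refine mem_fex_of_mem (#K) hdown ⟨?_, fun A => mem_fimp.2 fun q _ hq => ?_⟩
    · refine covLe (E := EE K L) (hcof_idx hcK)
        (fun y : (#K).out => (toLex (e.symm y, (⊤ : WithTop L)) : Idx K L))
        (fun y => ⟨e.symm y, rfl⟩) (fun b => ⟨e (ofLex b).1, ?_⟩) p
      rw [e.symm_apply_apply, Prod.Lex.le_iff]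
      exact Or.inr ⟨rfl, le_top⟩
    · exact ⟨q, le_rfl, odiag (OFusion.fusion _) hμ1 hpow hIio hbd hKL hμK e hq⟩

end Pool.Agent.Helper669.OMain
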