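import Mathlib
import Pool.Agent.Helper669.MMain

/-!
# The positive relation after the iteration of Mathias-Prikry forcing
-/

namespace Pool.Agent.Helper669.Pos

open Cardinal Pool.Agent.Helper669.Iter Pool.Agent.Helper669.MIter Pool.Agent.Helper669.Forcing
  Pool.Agent.Helper669.GBase Pool.Agent.Helper669.Forcing2 Pool.Agent.Helper669.MMain

set_option linter.unusedSectionVars false

universe u

section

variable {P : Type u} [Preorder P]

open Classical in
/-- the number of elements below `y` of the set named by `B`, as far as forced by `r` -/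
noncomputable def cnt (B : ℕ → Set P) (r : P) (y : ℕ) : ℕ :=
  ((Finset.range y).filter fun k => r ∈ meets (B k)).card

/-- `r` decides `B` below `y` -/
def Dec (B : ℕ → Set P) (r : P) (y : ℕ) : Prop :=
  ∀ k < y, r ∈ meets (B k) ∨ r ∈ fnot (meets (B k))

theorem Dec.down {B : ℕ → Set P} {r s : P} {y : ℕ} (h : Dec B r y) (hs : s ≤ r) : Dec B s y :=
  fun k hk => (h k hk).imp (fun h' => down_meets _ _ h' _ hs) fun h' => down_fnot _ _ h' _ hs

theorem cnt_eq {B : ℕ → Set P} {r s : P} {y : ℕ} (h : Dec B r y) (hs : s ≤ r) :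
    cnt B s y = cnt B r y := by
  classical
  unfold cnt
  congr 1
  ext k
  simp only [Finset.mem_filter, Finset.mem_range]
  constructor
  · rintro ⟨h1, h2⟩
    rcases h k h1 with h3 | h3
    · exact ⟨h1, h3⟩
    · exact absurd h2 (h3 s hs)
  · rintro ⟨h1, h2⟩
    exact ⟨h1, down_meets _ _ h2 _ hs⟩

/-- the name of the increasing enumeration of a set of natural numbers -/
def enumName (B : ℕ → Set P) (x y : ℕ) : Set P := {r | r ∈ meets (B y) ∧ Dec B r y ∧ cnt B r y = x}

theorem down_enumName (B : ℕ → Set P) (x y : ℕ) : Down (enumName B x y) :=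
  fun _ hr _ hs => ⟨down_meets _ _ hr.1 _ hs, hr.2.1.down hs, (cnt_eq hr.2.1 hs).trans hr.2.2⟩

theorem exists_enum {B : ℕ → Set P} {q : P} (hB : ∀ N : ℕ, ∀ q' ≤ q, ∃ r ≤ q', ∃ k ≥ N, r ∈ meets (B k))
    (x : ℕ) : ∀ q' ≤ q, ∃ r ≤ q', ∃ y, r ∈ enumName B x y := by
  classical
  induction x with
  | zero =>
    intro q' hq'
    have hex : ∃ k, ∃ r ≤ q', r ∈ meets (B k) := by
      obtain ⟨r, hr, k, _, h⟩ := hB 0 q' hq'
      exact ⟨k, r, hr, h⟩
    obtain ⟨r, hr, h⟩ := Nat.find_spec hex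
    refine ⟨r, hr, Nat.find hex, h, fun k hk => Or.inr fun s hs h' => ?_, ?_⟩
    · exact Nat.find_min hex hk ⟨s, hs.trans hr, h'⟩
    · unfold cnt
      rw [Finset.card_eq_zero, Finset.filter_eq_empty_iff]
      intro k hk h'
      exact Nat.find_min hex (Finset.mem_range.1 hk) ⟨r, hr, h'⟩
  | succ x ih =>
    intro q' hq'
    obtain ⟨r, hr, y, h1, h2, h3⟩ := ih q' hq'
    have hex : ∃ k, y < k ∧ ∃ s ≤ r, s ∈ meets (B k) := by
      obtain ⟨s, hs, k, hk, h⟩ := hB (y + 1) r (hr.trans hq')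
      exact ⟨k, hk, s, hs, h⟩
    obtain ⟨hyk, s, hs, h⟩ := Nat.find_spec hex
    have hbetween : ∀ j, y < j → j < Nat.find hex → ∀ t ≤ r, t ∉ meets (B j) :=
      fun j h4 h5 t ht h6 => Nat.find_min hex h5 ⟨h4, t, ht, h6⟩
    refine ⟨s, hs.trans hr, Nat.find hex, h, fun k hk => ?_, ?_⟩
    · rcases lt_trichotomy k y with h4 | h4 | h4
      · exact h2.down hs k h4
      · rw [h4]; exact Or.inl (down_meets _ _ h1 _ hs)
      · exact Or.inr fun t ht h5 => hbetween k h4 hk t (ht.trans hs) h5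
    · have h4 : (Finset.range (Nat.find hex)).filter (fun k => s ∈ meets (B k)) =
          insert y ((Finset.range y).filter fun k => s ∈ meets (B k)) := by
        ext k
        simp only [Finset.mem_filter, Finset.mem_range, Finset.mem_insert]
        constructor
        · rintro ⟨h5, h6⟩
          rcases lt_trichotomy k y with h7 | h7 | h7
          · exact Or.inr ⟨h7, h6⟩
          · exact Or.inl h7
          · exact absurd h6 (hbetween k h7 h5 s hs)
        · rintro (rfl | ⟨h5, h6⟩)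
          · exact ⟨hyk, down_meets _ _ h1 _ hs⟩
          · exact ⟨h5.trans hyk, h6⟩
      have h5 : cnt B s (Nat.find hex) = cnt B s y + 1 := by
        unfold cnt
        rw [h4, Finset.card_insert_of_notMem]
        simp
      rw [h5, cnt_eq h2 hs, h3]

/-- an infinite set of natural numbers has full size -/
theorem fullSize_nat {B : ℕ → Set P} {q : P}
    (hB : ∀ N : ℕ, ∀ q' ≤ q, ∃ r ≤ q', ∃ k ≥ N, r ∈ meets (B k)) : q ∈ HasFullSize B := by
  classical
  refine mem_fex_of_mem (enumName B) (down_fand (down_IsFun _) (down_fand (down_IsInj _)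
    (down_fall fun _ => down_fall fun _ => down_fimp _ _))) ⟨⟨fun x => ?_, fun x y y' => ?_⟩,
    fun x x' y => ?_, fun x y => ?_⟩
  · refine mem_fex.2 fun q' hq' => ?_
    obtain ⟨r, hr, y, h⟩ := exists_enum hB x q' hq'
    exact ⟨r, hr, y, meets_of_mem h⟩
  · refine mem_fimp.2 fun r _ h => ?_
    obtain ⟨s, hs, h1⟩ := exists_of_meets (down_enumName B x y) h.1
    obtain ⟨t, ht, h2⟩ := exists_of_meets (down_enumName B x y') (down_meets _ _ h.2 s hs)
    have h3 := down_enumName B x y s h1 t ht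
    have key : ∀ a b : ℕ, a < b → t ∈ enumName B x a → t ∈ enumName B x b → False := by
      intro a b hab ha hb
      have h4 : insert a ((Finset.range a).filter fun k => t ∈ meets (B k)) ⊆
          (Finset.range b).filter fun k => t ∈ meets (B k) := by
        intro k hk
        rcases Finset.mem_insert.1 hk with rfl | hk
        · exact Finset.mem_filter.2 ⟨Finset.mem_range.2 hab, ha.1⟩
        · obtain ⟨h5, h6⟩ := Finset.mem_filter.1 hk
          exact Finset.mem_filter.2 ⟨Finset.mem_range.2 ((Finset.mem_range.1 h5).trans hab), h6⟩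
      have h7 := Finset.card_le_card h4
      rw [Finset.card_insert_of_notMem (by simp)] at h7
      have h8 : cnt B t a = x := ha.2.2
      have h9 : cnt B t b = x := hb.2.2
      unfold cnt at h8 h9
      omega
    refine ⟨t, ht.trans hs, ?_⟩
    rcases lt_trichotomy y y' with h4 | h4 | h4
    · exact absurd (key _ _ h4 h3 h2) id
    · exact h4
    · exact absurd (key _ _ h4 h2 h3) id
  · refine mem_fimp.2 fun r _ h => ?_
    obtain ⟨s, hs, h1⟩ := exists_of_meets (down_enumName B x y) h.1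
    obtain ⟨t, ht, h2⟩ := exists_of_meets (down_enumName B x' y) (down_meets _ _ h.2 s hs)
    have h3 := down_enumName B x y s h1 t ht
    exact ⟨t, ht.trans hs, h3.2.2.symm.trans h2.2.2⟩
  · refine mem_fimp.2 fun r _ h => ?_
    obtain ⟨s, hs, h1⟩ := exists_of_meets (down_enumName B x y) h
    exact ⟨s, hs, h1.1⟩

/-- the name of the least element above `z` of the set named by `A` -/
def leastName {K : Type u} [LinearOrder K] (A : K → Set P) (z y : K) : Set P :=
  {r | z < y ∧ r ∈ meets (A y) ∧ ∀ β, z < β → β < y → r ∈ fnot (meets (A β))}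

theorem down_leastName {K : Type u} [LinearOrder K] (A : K → Set P) (z y : K) :
    Down (leastName A z y) :=
  fun _ hr _ hs => ⟨hr.1, down_meets _ _ hr.2.1 _ hs,
    fun β h1 h2 => down_fnot _ _ (hr.2.2 β h1 h2) _ hs⟩

theorem leastName_unique {K : Type u} [LinearOrder K] {A : K → Set P} {z y y' : K} {r : P}
    (h : r ∈ leastName A z y) (h' : r ∈ leastName A z y') : y = y' := by
  rcases lt_trichotomy y y' with h4 | h4 | h4
  · exact absurd h.2.1 (h'.2.2 y h.1 h4 r le_rfl)
  · exact h4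
  · exact absurd h'.2.1 (h.2.2 y' h'.1 h4 r le_rfl)

/-- an unbounded subset of a regular cardinal has full size, for a forcing notion with the
countable chain condition -/
theorem fullSize_of_unbounded {K : Type u} [LinearOrder K] [WellFoundedLT K]
    (hccc : ∀ {Y : Type u} (f : Y → P), ¬ Countable Y → ∃ y y', y ≠ y' ∧ Compat (f y) (f y'))
    (hbd : ∀ V : Set K, #V < #K → ∃ b, ∀ v ∈ V, v < b) (hunc : ℵ₀ < #K)
    (hIio : ∀ x : K, #(Set.Iio x) < #K)
    {A : K → Set P} {q : P} (hA : ∀ z : K, ∀ q' ≤ q, ∃ r ≤ q', ∃ α > z, r ∈ meets (A α)) :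
    q ∈ HasFullSize A := by
  classical
  -- bounds for the possible least elements
  have hu : ∀ z : K, ∃ u : K, ∀ y, (∃ r ≤ q, r ∈ leastName A z y) → y < u := by
    intro z
    have hc : Countable {y | ∃ r ≤ q, r ∈ leastName A z y} := by
      by_contra hc
      choose f hf1 hf2 using fun y : {y | ∃ r ≤ q, r ∈ leastName A z y} => y.2
      obtain ⟨y, y', hne, s, hs1, hs2⟩ := hccc f hc
      exact hne (Subtype.ext (leastName_unique (down_leastName _ _ _ _ (hf2 y) _ hs1)
        (down_leastName _ _ _ _ (hf2 y') _ hs2)))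
    obtain ⟨u, hu⟩ := hbd {y | ∃ r ≤ q, r ∈ leastName A z y}
      (lt_of_le_of_lt (Cardinal.mk_le_aleph0_iff.2 hc) hunc)
    exact ⟨u, fun y hy => hu y hy⟩
  choose u hu using hu
  have hb : ∀ x : K, ∀ g : (∀ w, w < x → K), ∃ b, ∀ w (h : w < x), g w h < b := by
    intro x g
    obtain ⟨b, hb⟩ := hbd (Set.range fun w : Set.Iio x => g w.1 w.2)
      (mk_range_le.trans_lt (hIio x))
    exact ⟨b, fun w h => hb _ ⟨⟨w, h⟩, rfl⟩⟩
  choose bd hbd' using hb
  let h : K → K := WellFoundedLT.fix (motive := fun _ : K => K) fun x f => bd x fun w hw => u (f w hw)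
  have hh : ∀ x, ∀ w < x, u (h w) < h x := by
    intro x w hw
    have h1 : h x = bd x fun w _ => u (h w) := WellFoundedLT.fix_eq _ x
    rw [h1]
    exact hbd' x (fun w _ => u (h w)) w hw
  refine mem_fex_of_mem (fun x y => leastName A (h x) y) (down_fand (down_IsFun _)
    (down_fand (down_IsInj _) (down_fall fun _ => down_fall fun _ => down_fimp _ _)))
    ⟨⟨fun x => ?_, fun x y y' => ?_⟩, fun x x' y => ?_, fun x y => ?_⟩
  · refine mem_fex.2 fun q' hq' => ?_
    obtain ⟨y, ⟨hy1, r, hr, hy2⟩, hmin⟩ := WellFounded.has_min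
      (wellFounded_lt (α := K)) {y | h x < y ∧ ∃ r ≤ q', r ∈ meets (A y)} (by
        obtain ⟨r, hr, α, hα, h'⟩ := hA (h x) q' hq'
        exact ⟨α, hα, r, hr, h'⟩)
    refine ⟨r, hr, y, meets_of_mem ⟨hy1, hy2, fun β h1 h2 s hs h3 => ?_⟩⟩
    exact hmin β ⟨h1, s, hs.trans hr, h3⟩ h2
  · refine mem_fimp.2 fun r _ h' => ?_
    obtain ⟨s, hs, h1⟩ := exists_of_meets (down_leastName A (h x) y) h'.1
    obtain ⟨t, ht, h2⟩ := exists_of_meets (down_leastName A (h x) y') (down_meets _ _ h'.2 s hs)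
    exact ⟨t, ht.trans hs, leastName_unique (down_leastName _ _ _ _ h1 _ ht) h2⟩
  · refine mem_fimp.2 fun r hr h' => ?_
    obtain ⟨s, hs, h1⟩ := exists_of_meets (down_leastName A (h x) y) h'.1
    obtain ⟨t, ht, h2⟩ := exists_of_meets (down_leastName A (h x') y) (down_meets _ _ h'.2 s hs)
    have h3 := down_leastName A (h x) y s h1 t ht
    have htq : t ≤ q := ht.trans (hs.trans hr)
    refine ⟨t, ht.trans hs, ?_⟩
    rcases lt_trichotomy x x' with h4 | h4 | h4
    · have h5 : y < u (h x) := hu (h x) y ⟨t, htq, h3⟩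
      exact absurd (h5.trans ((hh x' x h4).trans h2.1)) (lt_irrefl _)
    · exact h4
    · have h5 : y < u (h x') := hu (h x') y ⟨t, htq, h2⟩
      exact absurd (h5.trans ((hh x x' h4).trans h3.1)) (lt_irrefl _)
  · refine mem_fimp.2 fun r _ h' => ?_
    obtain ⟨s, hs, h1⟩ := exists_of_meets (down_leastName A (h x) y) h'
    exact ⟨s, hs, h1.2.1⟩

end

variable {J : Type} [LinearOrder J] [WellFoundedLT J] {K : Type}

theorem polarized (hK : (#K).IsRegular) (hunc : ℵ₀ < #K)
    (hcof : ∀ S : Set J, #S ≤ #K → ∃ b, ∀ s ∈ S, s < b) (p0 : PM J) :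
    p0 ∈ Polarized (PM J) K ℕ := by
  classical
  obtain ⟨_, _, hord⟩ := exists_ord_eq_type_lt K
  have hbd : ∀ V : Set K, #V < #K → ∃ b, ∀ v ∈ V, v < b := by
    intro V hV
    by_contra hcon
    push Not at hcon
    have h1 : IsCofinal V := fun b => by
      obtain ⟨s, hs, hb⟩ := hcon b
      exact ⟨s, hs, hb⟩
    have h2 := Order.cof_le h1
    rw [← Ordinal.cof_type, ← hord, hK.cof_ord] at h2
    exact absurd h2 (not_le.2 hV)
  intro c
  obtain ⟨b, hb⟩ := exists_decBelow hK.aleph0_le hcof le_rfl c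
  refine mem_fex.2 fun p _ => ?_
  have h1 : ∀ α : K, ∃ p' ≤ p, ∃ t : Bool × ℕ, ∀ k ≥ t.2, ∀ r ≤ p', r ∈ meets (Mm b k) →
      (t.1 = false → r ∉ meets (c α k)) ∧ (t.1 = true → r ∉ fnot (meets (c α k))) := by
    intro α
    obtain ⟨p', hp', N, h | h⟩ := unsplit (hb b le_rfl α) p
    · exact ⟨p', hp', (false, N), fun k hk r hr hm => ⟨fun _ => h k hk r hr hm, by simp⟩⟩
    · exact ⟨p', hp', (true, N), fun k hk r hr hm => ⟨by simp, fun _ => h k hk r hr hm⟩⟩
  choose f hfp t ht using h1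
  obtain ⟨t0, ht0⟩ := infinite_pigeonhole_card t #K le_rfl hunc.le (by
    rw [hK.cof_ord]
    exact (mk_le_aleph0 (α := Bool × ℕ)).trans_lt hunc)
  let A : K → Set (PM J) := fun α => {r | t α = t0 ∧ r ≤ f α}
  let B : ℕ → Set (PM J) := fun k => {r | t0.2 ≤ k ∧ r ∈ Mm b k}
  have hdA : ∀ α, Down (A α) := fun α r hr s hs => ⟨hr.1, hs.trans hr.2⟩
  have hdB : ∀ k, Down (B k) := fun k r hr s hs => ⟨hr.1, down_Mm _ _ _ hr.2 _ hs⟩
  -- some condition forces `A` to be unbounded
  have hex : ∃ q ≤ p, ∀ z : K, ∀ q' ≤ q, ∃ r ≤ q', ∃ α > z, r ∈ meets (A α) := by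
    by_contra hcon
    push Not at hcon
    obtain ⟨A0, hA0D, hA0c, hA0pre, _⟩ := exists_antichain
      {q : PM J | (∃ z : K, ∀ r ≤ q, ∀ α > z, r ∉ meets (A α)) ∨ ¬ Compat q p} (fun q => by
        by_cases hq : Compat q p
        · obtain ⟨s, hs1, hs2⟩ := hq
          obtain ⟨z, q', hq', h⟩ := hcon s hs2
          exact ⟨q', hq'.trans hs1, Or.inl ⟨z, h⟩⟩
        · exact ⟨q, le_rfl, Or.inr hq⟩)
    have hz : ∀ a : PM J, ∃ z : K, a ∈ A0 → Compat a p → ∀ r ≤ a, ∀ α > z, r ∉ meets (A α) := by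
      intro a
      by_cases ha : a ∈ A0
      · rcases hA0D ha with ⟨z, hz⟩ | hna
        · exact ⟨z, fun _ _ => hz⟩
        · obtain ⟨z0, _⟩ := hbd ∅ (by rw [mk_eq_zero]; exact aleph0_pos.trans hunc)
          exact ⟨z0, fun _ h => absurd h hna⟩
      · obtain ⟨z0, _⟩ := hbd ∅ (by rw [mk_eq_zero]; exact aleph0_pos.trans hunc)
        exact ⟨z0, fun h => absurd h ha⟩
    choose z hz using hz
    obtain ⟨z', hz'⟩ := hbd (z '' A0)
      (lt_of_le_of_lt (Cardinal.le_aleph0_iff_set_countable.2 (hA0c.image z)) hunc)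
    obtain ⟨α, hα, hαz⟩ : ∃ α, t α = t0 ∧ z' < α := by
      by_contra hc
      push Not at hc
      have hsub : t ⁻¹' {t0} ⊆ Set.Iic z' := fun α hα => hc α hα
      have h2 : #(Set.Iic z') < #K := by
        have h3 : Set.Iic z' = insert z' (Set.Iio z') := by
          ext y; simp [le_iff_eq_or_lt]
        rw [h3]
        exact (mk_insert_le).trans_lt (add_lt_of_lt hK.aleph0_le (mk_Iio_lt z' hord)
          (one_lt_aleph0.trans hunc))
      exact absurd (ht0.trans (mk_le_mk_of_subset hsub)) (not_le.2 h2)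
    obtain ⟨a, ha, s, hs1, hs2⟩ := hA0pre (f α)
    refine hz a ha ⟨s, hs1, hs2.trans (hfp α)⟩ s hs1 α ?_ (meets_of_le (s := f α) ⟨hα, le_rfl⟩ hs2)
    exact (hz' _ ⟨a, ha, rfl⟩).trans hαz
  obtain ⟨q, hq, hqA⟩ := hex
  refine ⟨q, hq, A, mem_fex_of_mem B ?_ ⟨?_, ?_, ?_⟩⟩
  · exact down_fand (down_HasFullSize _) (down_fand (down_HasFullSize _) (down_for _ _))
  · exact fullSize_of_unbounded cond_ccc hbd hunc (fun x => mk_Iio_lt x hord) hqA
  · refine fullSize_nat fun N q' _ => ?_
    obtain ⟨r, hr, k, hk, hrk⟩ := mem_fex.1 (infSet_Mm b q' (max N t0.2)) q' le_rfl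
    obtain ⟨s, hs, hsk⟩ := exists_of_meets (down_Mm b k) hrk
    have hk' : max N t0.2 ≤ k := hk
    exact ⟨s, hs.trans hr, k, (le_max_left _ _).trans hk',
      meets_of_mem ⟨(le_max_right _ _).trans hk', hsk⟩⟩
  · refine mem_for.2 fun q' hq' => ⟨q', le_rfl, ?_⟩
    cases hi : t0.1 with
    | false =>
      right
      refine fun α k => mem_fimp.2 fun r _ h => ?_
      obtain ⟨s, hs, hsA⟩ := exists_of_meets (hdA α) h.1
      obtain ⟨s', hs', hsB⟩ := exists_of_meets (hdB k) (down_meets _ _ h.2 s hs)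
      refine ⟨s', hs'.trans hs, fun v hv hvc => ?_⟩
      refine (ht α k (by rw [hsA.1]; exact hsB.1) v (hv.trans (hs'.trans hsA.2))
        (down_meets _ _ (meets_of_mem hsB.2) _ hv)).1 (by rw [hsA.1]; exact hi) hvc
    | true =>
      left
      refine fun α k => mem_fimp.2 fun r _ h => ?_
      obtain ⟨s, hs, hsA⟩ := exists_of_meets (hdA α) h.1
      obtain ⟨s', hs', hsB⟩ := exists_of_meets (hdB k) (down_meets _ _ h.2 s hs)
      refine ⟨s', hs'.trans hs, meets_of_dense fun v hv => ?_⟩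
      have h2 := (ht α k (by rw [hsA.1]; exact hsB.1) v (hv.trans (hs'.trans hsA.2))
        (down_meets _ _ (meets_of_mem hsB.2) _ hv)).2 (by rw [hsA.1]; exact hi)
      simp only [fnot, Set.mem_ofPred_eq, not_forall, not_not] at h2
      obtain ⟨w, hw, hwc⟩ := h2
      exact ⟨w, hw, hwc⟩

end Pool.Agent.Helper669.Pos
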