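import Mathlib
import Pool.Agent.Helper669.Forcing

/-!
# Adding Cohen reals: set mappings without uncountable free sets
-/

namespace Pool.Agent.Helper669.SetMap

open Cardinal Pool.Agent.Helper669.Forcing

set_option linter.unusedSectionVars false

/-! ### Finite partial functions -/

/-- finite partial functions from `I` to `ℕ` -/
def Fn (I : Type) : Type := {f : I → Option ℕ // {i | f i ≠ none}.Finite}

instance (I : Type) : Preorder (Fn I) where
  le q p := ∀ i n, p.1 i = some n → q.1 i = some n
  le_refl _ _ _ h := h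
  le_trans _ _ _ hab hbc i n h := hab i n (hbc i n h)

/-- the empty function -/
def Fn.emp (I : Type) : Fn I := ⟨fun _ => none, by simp⟩

instance (I : Type) : Nonempty (Fn I) := ⟨Fn.emp I⟩

variable {I : Type}

/-- the size of the domain -/
noncomputable def sz (p : Fn I) : ℕ := p.2.toFinset.card

theorem mem_dom {p : Fn I} {i : I} : i ∈ p.2.toFinset ↔ p.1 i ≠ none := by simp

open Classical in
/-- remove one point from the domain -/
noncomputable def rem (p : Fn I) (e : I) : Fn I :=
  ⟨Function.update p.1 e none, p.2.subset fun i hi => by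
    by_cases h : i = e
    · subst h; simp at hi
    · simpa [Function.update_of_ne h] using hi⟩

theorem rem_self (p : Fn I) (e : I) : (rem p e).1 e = none := by
  classical
  show Function.update p.1 e none e = none
  simp

theorem rem_ne (p : Fn I) {e i : I} (h : i ≠ e) : (rem p e).1 i = p.1 i := by
  classical
  show Function.update p.1 e none i = p.1 i
  simp [h]

theorem sz_rem {p : Fn I} {e : I} (h : p.1 e ≠ none) {n : ℕ} (hn : sz p ≤ n + 1) :
    sz (rem p e) ≤ n := by
  classical
  have h1 : (rem p e).2.toFinset ⊆ p.2.toFinset.erase e := by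
    intro i hi
    rw [mem_dom] at hi
    have hne : i ≠ e := by
      rintro rfl
      exact hi (rem_self p i)
    rw [rem_ne p hne] at hi
    exact Finset.mem_erase.2 ⟨hne, mem_dom.2 hi⟩
  have h2 := Finset.card_le_card h1
  rw [Finset.card_erase_of_mem (mem_dom.2 h)] at h2
  unfold sz at hn ⊢
  omega

/-- in an uncountable family of finite functions there are arbitrarily large finite subfamilies
whose union is a function -/
theorem exists_family {ι : Type} (n : ℕ) : ∀ (A : Set ι) (p : ι → Fn I), ¬ A.Countable →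
    (∀ i ∈ A, sz (p i) ≤ n) → ∀ N : ℕ, ∃ s : Finset ι, ↑s ⊆ A ∧ s.card = N ∧
      ∀ i ∈ s, ∀ j ∈ s, ∀ e a b, (p i).1 e = some a → (p j).1 e = some b → a = b := by
  classical
  induction n with
  | zero =>
    intro A p hA hp N
    have hinf : A.Infinite := fun h => hA h.countable
    obtain ⟨s, hs, hN⟩ := hinf.exists_subset_card_eq N
    refine ⟨s, hs, hN, fun i hi j _ e a b ha _ => ?_⟩
    have h1 : sz (p i) = 0 := Nat.le_zero.1 (hp i (hs hi))
    have h2 : e ∈ (p i).2.toFinset := mem_dom.2 (by rw [ha]; simp)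
    rw [Finset.card_eq_zero.1 h1] at h2
    exact absurd h2 (by simp)
  | succ n ih =>
    intro A p hA hp N
    by_cases h : ∃ e, ¬ {i | i ∈ A ∧ (p i).1 e ≠ none}.Countable
    · obtain ⟨e, he⟩ := h
      have h1 : ∃ v : ℕ, ¬ {i | i ∈ A ∧ (p i).1 e = some v}.Countable := by
        by_contra hcon
        push Not at hcon
        apply he
        refine (Set.countable_iUnion hcon).mono ?_
        rintro i ⟨hi, hne⟩
        obtain ⟨v, hv⟩ := Option.ne_none_iff_exists'.1 hne
        exact Set.mem_iUnion.2 ⟨v, hi, hv⟩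
      obtain ⟨v, hv⟩ := h1
      obtain ⟨s, hs, hN, hcons⟩ := ih {i | i ∈ A ∧ (p i).1 e = some v} (fun i => rem (p i) e) hv
        (fun i hi => sz_rem (by rw [hi.2]; simp) (hp i hi.1)) N
      refine ⟨s, fun i hi => (hs hi).1, hN, fun i hi j hj e' a b ha hb => ?_⟩
      by_cases hee : e' = e
      · subst hee
        have h2 := (hs hi).2
        have h3 := (hs hj).2
        rw [ha] at h2
        rw [hb] at h3
        rw [Option.some.inj h2, Option.some.inj h3]
      · exact hcons i hi j hj e' a b (by rw [rem_ne _ hee]; exact ha) (by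
          rw [rem_ne _ hee]; exact hb)
    · push Not at h
      induction N with
      | zero => exact ⟨∅, by simp, rfl, fun i hi => absurd hi (by simp)⟩
      | succ N ihN =>
        obtain ⟨s, hs, hN, hcons⟩ := ihN
        have hB : ((s : Set ι) ∪ ⋃ j ∈ s, ⋃ e ∈ (p j).2.toFinset,
            {i | i ∈ A ∧ (p i).1 e ≠ none}).Countable := by
          refine s.countable_toSet.union ?_
          refine Set.Countable.biUnion s.countable_toSet fun j _ => ?_
          exact Set.Countable.biUnion (Finset.countable_toSet _) fun e _ => h e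
        obtain ⟨i, hi, hiB⟩ : ∃ i ∈ A, i ∉ ((s : Set ι) ∪ ⋃ j ∈ s, ⋃ e ∈ (p j).2.toFinset,
            {i | i ∈ A ∧ (p i).1 e ≠ none}) := by
          by_contra hcon
          push Not at hcon
          exact hA (hB.mono hcon)
        have his : i ∉ s := fun h => hiB (Or.inl h)
        have hdis : ∀ j ∈ s, ∀ e, (p i).1 e ≠ none → (p j).1 e ≠ none → False := by
          intro j hj e h1 h2
          apply hiB
          right
          simp only [Set.mem_iUnion]
          exact ⟨j, hj, e, mem_dom.2 h2, hi, h1⟩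
        refine ⟨insert i s, ?_, by rw [Finset.card_insert_of_notMem his, hN], ?_⟩
        · intro j hj
          rcases Finset.mem_insert.1 hj with rfl | hj
          · exact hi
          · exact hs hj
        · intro j hj' k hk' e a b ha hb
          rcases Finset.mem_insert.1 hj' with rfl | hj <;>
            rcases Finset.mem_insert.1 hk' with rfl | hk
          · rw [ha] at hb; exact Option.some.inj hb
          · exact (hdis k hk e (by rw [ha]; simp) (by rw [hb]; simp)).elim
          · exact (hdis j hj e (by rw [hb]; simp) (by rw [ha]; simp)).elim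
          · exact hcons j hj k hk e a b ha hb

/-- the union of such a family -/
theorem exists_lb {ι : Type} (s : Finset ι) (p : ι → Fn I) {n : ℕ} (hp : ∀ i ∈ s, sz (p i) ≤ n)
    (h : ∀ i ∈ s, ∀ j ∈ s, ∀ e a b, (p i).1 e = some a → (p j).1 e = some b → a = b) :
    ∃ q : Fn I, (∀ i ∈ s, q ≤ p i) ∧ sz q ≤ n * s.card := by
  classical
  let f : I → Option ℕ := fun e => if h : ∃ i ∈ s, (p i).1 e ≠ none then (p h.choose).1 e else none
  have hf : ∀ i ∈ s, ∀ e a, (p i).1 e = some a → f e = some a := by
    intro i hi e a ha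
    have h1 : ∃ i ∈ s, (p i).1 e ≠ none := ⟨i, hi, by rw [ha]; simp⟩
    have h2 : f e = (p h1.choose).1 e := dif_pos h1
    obtain ⟨b, hb⟩ := Option.ne_none_iff_exists'.1 h1.choose_spec.2
    rw [h2, hb, h i hi _ h1.choose_spec.1 e a b ha hb]
  have hsub : {e | f e ≠ none} ⊆ ↑(s.biUnion fun i => (p i).2.toFinset) := by
    intro e he
    by_cases h1 : ∃ i ∈ s, (p i).1 e ≠ none
    · obtain ⟨i, hi, hne⟩ := h1
      exact Finset.mem_coe.2 (Finset.mem_biUnion.2 ⟨i, hi, mem_dom.2 hne⟩)
    · exact absurd (dif_neg h1) he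
  refine ⟨⟨f, (Finset.finite_toSet _).subset hsub⟩, fun i hi e a ha => hf i hi e a ha, ?_⟩
  have h1 : sz (⟨f, (Finset.finite_toSet _).subset hsub⟩ : Fn I) ≤
      (s.biUnion fun i => (p i).2.toFinset).card := by
    refine Finset.card_le_card fun e he => ?_
    exact hsub ((Set.Finite.mem_toFinset _).1 he)
  refine h1.trans (Finset.card_biUnion_le.trans ?_)
  refine (Finset.sum_le_card_nsmul s _ n fun i hi => hp i hi).trans ?_
  rw [smul_eq_mul, mul_comm]

/-! ### Robust set mappings -/

variable {K K' : Type}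

/-- the value at `Y` has at most one element -/
def One (M : Finset K → K → Set (Fn I)) : Prop :=
  ∀ Y x x' (q q' r : Fn I), r ≤ q → r ≤ q' → q ∈ M Y x → q' ∈ M Y x' → x = x'

/-- no large finite set is free, even for small conditions -/
def Rob (r : ℕ) (M : Finset K → K → Set (Fn I)) : Prop :=
  ∀ m : ℕ, ∃ N : ℕ, 1 ≤ N ∧ ∀ S : Finset K, S.card = N → ∀ p : Fn I, sz p ≤ m * N →
    ∃ Y ⊆ S, Y.card = r ∧ ∃ x ∈ S, x ∉ Y ∧ ∃ q ≤ p, q ∈ M Y x

/-- the generic function on the pairs of `K` -/
def M2 [LinearOrder K] (ε : K → ℕ → K) (Y : Finset K) (x : K) : Set (Fn (K × K)) :=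
  {q | ∃ a b k, a < b ∧ Y = {a, b} ∧ q.1 (a, b) = some k ∧ ε b k = x}

theorem one_M2 [LinearOrder K] (ε : K → ℕ → K) : One (M2 ε) := by
  rintro Y x x' q q' r hq hq' ⟨a, b, k, hab, hY, hk, hx⟩ ⟨a', b', k', hab', hY', hk', hx'⟩
  have h1 : a = a' ∧ b = b' := by
    have h2 : ({a, b} : Finset K) = {a', b'} := hY.symm.trans hY'
    have ha : a ∈ ({a', b'} : Finset K) := h2 ▸ (by simp)
    have hb : b ∈ ({a', b'} : Finset K) := h2 ▸ (by simp)
    have ha' : a' ∈ ({a, b} : Finset K) := h2 ▸ (by simp)
    simp only [Finset.mem_insert, Finset.mem_singleton] at ha hb ha'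
    rcases ha with rfl | rfl
    · rcases hb with rfl | rfl
      · exact absurd hab (lt_irrefl _)
      · exact ⟨rfl, rfl⟩
    · rcases hb with rfl | rfl
      · exact absurd (hab.trans hab') (lt_irrefl _)
      · exact absurd hab (lt_irrefl _)
  obtain ⟨rfl, rfl⟩ := h1
  have h3 := hq _ _ hk
  have h4 := hq' _ _ hk'
  rw [h3] at h4
  rw [← hx, ← hx', Option.some.inj h4]

open Classical in
/-- add one value -/
noncomputable def ins (p : Fn I) (e : I) (k : ℕ) : Fn I :=
  ⟨Function.update p.1 e (some k), (p.2.insert e).subset fun i hi => by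
    by_cases h : i = e
    · exact Or.inl h
    · right
      simpa [Function.update_of_ne h] using hi⟩

theorem ins_le (p : Fn I) {e : I} (k : ℕ) (h : p.1 e = none) : ins p e k ≤ p := by
  classical
  intro i n hn
  have hne : i ≠ e := by
    rintro rfl
    rw [h] at hn
    exact absurd hn (by simp)
  show Function.update p.1 e (some k) i = some n
  rw [Function.update_of_ne hne, hn]

theorem ins_self (p : Fn I) (e : I) (k : ℕ) : (ins p e k).1 e = some k := by
  classical
  show Function.update p.1 e (some k) e = some k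
  simp

theorem rob_M2 [LinearOrder K] (ε : K → ℕ → K) (hε : ∀ b x, x < b → ∃ k, ε b k = x) :
    Rob 2 (M2 ε) := by
  classical
  intro m
  refine ⟨2 * m + 5, by omega, fun S hS p hp => ?_⟩
  have hne : S.Nonempty := Finset.card_pos.1 (by omega)
  set x := S.min' hne with hx
  have hxS : x ∈ S := Finset.min'_mem S hne
  set S1 := S.erase x with hS1
  have hcard : S1.card = 2 * m + 4 := by
    rw [hS1, Finset.card_erase_of_mem hxS]; omega
  have hlt : ∀ y ∈ S1, x < y := by
    intro y hy
    exact lt_of_le_of_ne (Finset.min'_le S y (Finset.mem_of_mem_erase hy))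
      (Finset.ne_of_mem_erase hy).symm
  -- a pair which is not in the domain of `p`
  obtain ⟨a, ha, b, hb, hab, hnone⟩ : ∃ a ∈ S1, ∃ b ∈ S1, a < b ∧ p.1 (a, b) = none := by
    by_contra hcon
    push Not at hcon
    let g : Finset K → K × K := fun Y => if h : Y.Nonempty then (Y.min' h, Y.max' h) else (x, x)
    have hg : ∀ Y ∈ S1.powersetCard 2, ∃ a b, a < b ∧ Y = {a, b} ∧ g Y = (a, b) ∧
        (a, b) ∈ p.2.toFinset := by
      intro Y hY
      obtain ⟨hYS, hYc⟩ := Finset.mem_powersetCard.1 hY
      obtain ⟨a, b, hab, hYab⟩ : ∃ a b, a < b ∧ Y = {a, b} := by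
        obtain ⟨a, b, hne', hYab⟩ := Finset.card_eq_two.1 hYc
        rcases lt_or_gt_of_ne hne' with h | h
        · exact ⟨a, b, h, hYab⟩
        · exact ⟨b, a, h, by rw [hYab, Finset.pair_comm]⟩
      refine ⟨a, b, hab, hYab, ?_, ?_⟩
      · have h1 : Y.Nonempty := Finset.card_pos.1 (by omega)
        have h2 : g Y = (Y.min' h1, Y.max' h1) := dif_pos h1
        have h3 : Y.min' h1 = a := by
          apply le_antisymm
          · exact Finset.min'_le _ _ (by rw [hYab]; simp)
          · refine Finset.le_min' _ _ _ fun y hy => ?_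
            rw [hYab] at hy
            simp only [Finset.mem_insert, Finset.mem_singleton] at hy
            rcases hy with rfl | rfl
            · exact le_rfl
            · exact hab.le
        have h4 : Y.max' h1 = b := by
          apply le_antisymm
          · refine Finset.max'_le _ _ _ fun y hy => ?_
            rw [hYab] at hy
            simp only [Finset.mem_insert, Finset.mem_singleton] at hy
            rcases hy with rfl | rfl
            · exact hab.le
            · exact le_rfl
          · exact Finset.le_max' _ _ (by rw [hYab]; simp)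
        rw [h2, h3, h4]
      · rw [mem_dom]
        exact hcon a (hYS (by rw [hYab]; simp)) b (hYS (by rw [hYab]; simp)) hab
    have hinj : Set.InjOn g ↑(S1.powersetCard 2) := by
      intro Y hY Y' hY' hgg
      obtain ⟨a, b, _, h1, h2, _⟩ := hg Y hY
      obtain ⟨a', b', _, h1', h2', _⟩ := hg Y' hY'
      rw [h2, h2'] at hgg
      have h3 : a = a' := congrArg Prod.fst hgg
      have h4 : b = b' := congrArg Prod.snd hgg
      rw [h1, h1', h3, h4]
    have hle : (S1.powersetCard 2).card ≤ p.2.toFinset.card := by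
      refine Finset.card_le_card_of_injOn g (fun Y hY => ?_) hinj
      obtain ⟨a, b, _, _, h2, h3⟩ := hg Y hY
      rw [h2]
      exact h3
    rw [Finset.card_powersetCard, hcard, Nat.choose_two_right] at hle
    have h5 : (2 * m + 4) * (2 * m + 4 - 1) / 2 = (m + 2) * (2 * m + 3) := by
      have h6 : (2 * m + 4) * (2 * m + 4 - 1) = 2 * ((m + 2) * (2 * m + 3)) := by
        have h7 : 2 * m + 4 - 1 = 2 * m + 3 := by omega
        rw [h7]; ring
      rw [h6, Nat.mul_div_cancel_left _ (by norm_num)]
    rw [h5] at hle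
    have h8 : (m + 2) * (2 * m + 3) ≤ m * (2 * m + 5) := hle.trans hp
    nlinarith
  obtain ⟨k, hk⟩ := hε b x (hlt b hb)
  refine ⟨{a, b}, ?_, Finset.card_pair hab.ne, x, hxS, ?_, ins p (a, b) k, ins_le p k hnone,
    ⟨a, b, k, hab, rfl, ins_self p _ k, hk⟩⟩
  · intro y hy
    simp only [Finset.mem_insert, Finset.mem_singleton] at hy
    rcases hy with rfl | rfl
    · exact Finset.mem_of_mem_erase ha
    · exact Finset.mem_of_mem_erase hb
  · intro hy
    simp only [Finset.mem_insert, Finset.mem_singleton] at hy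
    rcases hy with h | h
    · exact absurd (hlt a ha) (by rw [← h]; exact lt_irrefl _)
    · exact absurd (hlt b hb) (by rw [← h]; exact lt_irrefl _)

open Classical in
/-- stepping up -/
def Mstep [LinearOrder K] (g : K → K → K') (M' : Finset K' → K' → Set (Fn I)) (Y : Finset K)
    (x : K) : Set (Fn I) :=
  {q | ∃ z ∈ Y, (∀ y ∈ Y, y ≤ z) ∧ x < z ∧ q ∈ M' ((Y.erase z).image (g z)) (g z x)}

theorem one_Mstep [LinearOrder K] {g : K → K → K'} (hg : ∀ z, Set.InjOn (g z) (Set.Iio z))
    {M' : Finset K' → K' → Set (Fn I)} (h : One M') : One (Mstep g M') := by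
  rintro Y x x' q q' r hq hq' ⟨z, hz, hmax, hxz, hqM⟩ ⟨z', hz', hmax', hxz', hqM'⟩
  have hzz : z = z' := le_antisymm (hmax' z hz) (hmax z' hz')
  subst hzz
  exact hg z hxz hxz' (h _ _ _ q q' r hq hq' hqM hqM')

theorem rob_Mstep [LinearOrder K] {g : K → K → K'} (hg : ∀ z, Set.InjOn (g z) (Set.Iio z))
    {M' : Finset K' → K' → Set (Fn I)} {r : ℕ} (h : Rob r M') : Rob (r + 1) (Mstep g M') := by
  classical
  intro m
  obtain ⟨N, hN, hrob⟩ := h (2 * m)
  refine ⟨N + 1, by omega, fun S hS p hp => ?_⟩
  have hne : S.Nonempty := Finset.card_pos.1 (by omega)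
  set z := S.max' hne with hz
  have hzS : z ∈ S := Finset.max'_mem S hne
  have hlt : ∀ y ∈ S.erase z, y < z := by
    intro y hy
    exact lt_of_le_of_ne (Finset.le_max' S y (Finset.mem_of_mem_erase hy))
      (Finset.ne_of_mem_erase hy)
  have hinj : Set.InjOn (g z) ↑(S.erase z) := (hg z).mono fun y hy => hlt y hy
  have hcard : ((S.erase z).image (g z)).card = N := by
    rw [Finset.card_image_of_injOn hinj, Finset.card_erase_of_mem hzS, hS]; omega
  obtain ⟨Y', hY', hYc, x', hx', hxY', q, hq, hqM⟩ := hrob _ hcard p (hp.trans (by nlinarith))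
  obtain ⟨x, hxS, rfl⟩ := Finset.mem_image.1 hx'
  let Y0 := (S.erase z).filter fun y => g z y ∈ Y'
  have hY0 : Y0.image (g z) = Y' := by
    ext w
    constructor
    · intro hw
      obtain ⟨y, hy, rfl⟩ := Finset.mem_image.1 hw
      exact (Finset.mem_filter.1 hy).2
    · intro hw
      obtain ⟨y, hy, rfl⟩ := Finset.mem_image.1 (hY' hw)
      exact Finset.mem_image.2 ⟨y, Finset.mem_filter.2 ⟨hy, hw⟩, rfl⟩
  have hY0S : Y0 ⊆ S.erase z := Finset.filter_subset _ _
  have hzY0 : z ∉ Y0 := fun h => (Finset.mem_erase.1 (hY0S h)).1 rfl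
  refine ⟨insert z Y0, ?_, ?_, x, Finset.mem_of_mem_erase hxS, ?_, q, hq,
    ⟨z, Finset.mem_insert_self _ _, ?_, hlt x hxS, ?_⟩⟩
  · intro y hy
    rcases Finset.mem_insert.1 hy with rfl | hy
    · exact hzS
    · exact Finset.mem_of_mem_erase (hY0S hy)
  · rw [Finset.card_insert_of_notMem hzY0, ← hYc, ← hY0,
      Finset.card_image_of_injOn (hinj.mono hY0S)]
  · intro hx
    rcases Finset.mem_insert.1 hx with h1 | h1
    · exact (Finset.mem_erase.1 hxS).1 h1
    · exact hxY' (Finset.mem_filter.1 h1).2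
  · intro y hy
    rcases Finset.mem_insert.1 hy with rfl | hy
    · exact le_rfl
    · exact (hlt y (hY0S hy)).le
  · rw [Finset.erase_insert hzY0, hY0]
    exact hqM

/-- transfer along a bijection -/
theorem exists_transfer {r : ℕ} (e : K' ≃ K) {M : Finset K → K → Set (Fn I)} (h : One M)
    (h' : Rob r M) : ∃ M' : Finset K' → K' → Set (Fn I), One M' ∧ Rob r M' := by
  classical
  refine ⟨fun Y x => M (Y.map e.toEmbedding) (e x), ?_, ?_⟩
  · intro Y x x' q q' t hq hq' hM hM'
    exact e.injective (h _ _ _ q q' t hq hq' hM hM')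
  · intro m
    obtain ⟨N, hN, hrob⟩ := h' m
    refine ⟨N, hN, fun S hS p hp => ?_⟩
    obtain ⟨Y, hY, hYc, x, hx, hxY, q, hq, hqM⟩ := hrob (S.map e.toEmbedding) (by
      rw [Finset.card_map]; exact hS) p hp
    refine ⟨Y.map e.symm.toEmbedding, ?_, by rw [Finset.card_map, hYc], e.symm x, ?_, ?_, q, hq, ?_⟩
    · intro y hy
      obtain ⟨w, hw, rfl⟩ := Finset.mem_map.1 hy
      obtain ⟨v, hv, hvw⟩ := Finset.mem_map.1 (hY hw)
      rw [← hvw]
      simpa using hv
    · obtain ⟨v, hv, hvx⟩ := Finset.mem_map.1 hx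
      rw [← hvx]
      simpa using hv
    · intro hx'
      obtain ⟨w, hw, hwx⟩ := Finset.mem_map.1 hx'
      have : w = x := e.symm.injective hwx
      exact hxY (this ▸ hw)
    · have h1 : (Y.map e.symm.toEmbedding).map e.toEmbedding = Y := by
        rw [Finset.map_map]
        ext w
        simp
      show q ∈ M ((Y.map e.symm.toEmbedding).map e.toEmbedding) (e (e.symm x))
      rw [h1, Equiv.apply_symm_apply]
      exact hqM

/-- the index set of the Cohen reals -/
abbrev K1 : Type := (ℵ₁ : Cardinal.{0}).ord.ToType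

theorem exists_mapping (n : ℕ) :
    ∃ M : Finset ((ℵ_ (n + 1) : Cardinal.{0}).ord.ToType) → (ℵ_ (n + 1) : Cardinal.{0}).ord.ToType →
      Set (Fn (K1 × K1)), One M ∧ Rob (n + 2) M := by
  induction n with
  | zero =>
    have hK : ∀ b : K1, ∃ ε : ℕ → K1, ∀ x, x < b → ∃ k, ε k = x := by
      intro b
      have h1 : #(Set.Iio b) < ℵ₁ := by
        have := Cardinal.mk_Iio_lt b (by rw [Cardinal.mk_toType, Cardinal.card_ord,
          Ordinal.type_toType])
        rwa [Cardinal.mk_toType, Cardinal.card_ord] at this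
      have h2 : (Set.Iio b).Countable := by
        rw [← Cardinal.le_aleph0_iff_set_countable, ← Order.lt_succ_iff, succ_aleph0]
        exact h1
      by_cases hne : (Set.Iio b).Nonempty
      · obtain ⟨ε, hε⟩ := h2.exists_eq_range hne
        exact ⟨ε, fun x hx => by
          have : x ∈ Set.range ε := hε ▸ hx
          exact this⟩
      · exact ⟨fun _ => b, fun x hx => absurd ⟨x, hx⟩ hne⟩
    choose ε hε using hK
    have h0 : (ℵ_ ((0 : ℕ) + 1 : Ordinal.{0}) : Cardinal.{0}) = ℵ₁ := by simp
    have e : (ℵ_ ((0 : ℕ) + 1 : Ordinal.{0}) : Cardinal.{0}).ord.ToType ≃ K1 := by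
      rw [h0]
    exact exists_transfer e (one_M2 ε) (rob_M2 ε fun b x hx => hε b x hx)
  | succ n ih =>
    obtain ⟨M', hone, hrob⟩ := ih
    have hg : ∀ z : (ℵ_ ((n + 1 : ℕ) + 1 : Ordinal.{0}) : Cardinal.{0}).ord.ToType,
        ∃ g : (ℵ_ ((n + 1 : ℕ) + 1 : Ordinal.{0}) : Cardinal.{0}).ord.ToType →
          (ℵ_ (n + 1) : Cardinal.{0}).ord.ToType, Set.InjOn g (Set.Iio z) := by
      intro z
      have h1 : #(Set.Iio z) < ℵ_ ((n + 1 : ℕ) + 1 : Ordinal.{0}) := by
        have := Cardinal.mk_Iio_lt z (by rw [Cardinal.mk_toType, Cardinal.card_ord,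
          Ordinal.type_toType])
        rwa [Cardinal.mk_toType, Cardinal.card_ord] at this
      have h2 : #(Set.Iio z) ≤ #((ℵ_ (n + 1) : Cardinal.{0}).ord.ToType) := by
        rw [Cardinal.mk_toType, Cardinal.card_ord]
        have h3 : (ℵ_ ((n + 1 : ℕ) + 1 : Ordinal.{0}) : Cardinal.{0}) =
            Order.succ (ℵ_ (n + 1 : Ordinal.{0})) := by
          rw [Cardinal.succ_aleph, Nat.cast_add, Nat.cast_one]
        exact Order.lt_succ_iff.1 (h1.trans_eq h3)
      obtain ⟨g⟩ := Cardinal.le_def _ _ |>.1 h2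
      classical
      have hne : Nonempty ((ℵ_ (n + 1) : Cardinal.{0}).ord.ToType) := by
        rw [← Cardinal.mk_ne_zero_iff, Cardinal.mk_toType, Cardinal.card_ord]
        exact (aleph_pos _).ne'
      refine ⟨fun y => if h : y < z then g ⟨y, h⟩ else Classical.arbitrary _, ?_⟩
      intro y hy y' hy' hyy
      have h3 : y < z := hy
      have h4 : y' < z := hy'
      simp only [h3, h4, dif_pos] at hyy
      exact congrArg Subtype.val (g.injective hyy)
    choose g hg using hg
    exact ⟨Mstep g M', one_Mstep hg hone, rob_Mstep hg hrob⟩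

end Pool.Agent.Helper669.SetMap
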