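import Mathlib
import Pool.Agent.Helper669.SetMap

/-!
# Set mappings without uncountable free sets: statements about the extension, and their proofs
-/

namespace Pool.Agent.Helper669.SetMap2

open Cardinal Pool.Agent.Helper669.Forcing Pool.Agent.Helper669.SetMap

set_option linter.unusedSectionVars false

universe u v

/-! ### The statements -/

section Defs

variable {P : Type u} [Preorder P]

/-- `f` assigns to every `r`-element subset `Y` of `X` a set of at most one element of `X`,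
the set of all `x` with `f Y x`. -/
def IsSetMapping {X : Type v} (r : ℕ) (f : Finset X → X → Set P) : Set P :=
  fall fun Y : Finset X => fall fun _ : Y.card = r => fall fun x => fall fun x' =>
    fimp (fand (meets (f Y x)) (meets (f Y x'))) (fground (x = x'))

/-- The subset of `X` named by `A` has at least `κ` elements: some injective function from `κ` to
`X` takes all its values in `A`. -/
def HasManyElements {X : Type v} (κ : Cardinal.{v}) (A : X → Set P) : Set P :=
  fex fun E : κ.out → X → Set P =>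
    fand (IsFun E) (fand (IsInj E)
      (fall fun i => fall fun x => fimp (meets (E i x)) (meets (A x))))

/-- The subset of `X` named by `A` is free for `f`: for every `r`-element subset `Y` of `A` and
for every element `x` of `A` which is not in `Y`, `x` is not in `f Y`. -/
def IsFree {X : Type v} (r : ℕ) (f : Finset X → X → Set P) (A : X → Set P) : Set P :=
  fall fun Y : Finset X => fall fun _ : Y.card = r => fall fun x : X => fall fun _ : x ∉ Y =>
    fimp (fand (fall fun y : X => fall fun _ : y ∈ Y => meets (A y)) (meets (A x)))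
      (fnot (meets (f Y x)))

/-- The negative relation `(κ, r, 2) ↛ μ` in the extension: there is a function assigning to every
`r`-element subset of `κ` a set of at most one element of `κ`, for which no subset of `κ` with at
least `μ` elements is free. -/
def NoFreeSet (P : Type u) [Preorder P] (κ : Cardinal.{v}) (r : ℕ) (μ : Cardinal.{v}) : Set P :=
  fex fun f : Finset κ.out → κ.out → Set P =>
    fand (IsSetMapping r f)
      (fall fun A : κ.out → Set P => fimp (HasManyElements μ A) (fnot (IsFree r f A)))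

/-- The named subsets `x` and `y` of `X` are equal. -/
def SameSubset {X : Type v} (x y : X → Set P) : Set P :=
  fall fun k : X => fand (fimp (meets (x k)) (meets (y k))) (fimp (meets (y k)) (meets (x k)))

/-- The generalized continuum hypothesis in the extension: for every infinite cardinal `μ` there
is a map from `μ⁺` onto the power set of `μ`. -/
def ForcesGCH (P : Type u) [Preorder P] : Set P :=
  fall fun μ : Cardinal.{v} => fall fun _ : ℵ₀ ≤ μ =>
    fex fun E : (Order.succ μ).out → μ.out → Set P =>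
      fall fun x : μ.out → Set P => fex fun y => SameSubset x (E y)

end Defs

/-! ### The proofs -/

section

variable {I : Type}

/-- two compatible members of an uncountable family -/
theorem exists_large {ι : Type} {A : Set ι} (hA : ¬ A.Countable) (p : ι → Fn I) :
    ∃ m : ℕ, ¬ {i | i ∈ A ∧ sz (p i) ≤ m}.Countable := by
  by_contra hcon
  push Not at hcon
  apply hA
  refine (Set.countable_iUnion hcon).mono fun i hi => ?_
  exact Set.mem_iUnion.2 ⟨sz (p i), hi, le_rfl⟩

theorem exists_pair {ι : Type} {A : Set ι} (hA : ¬ A.Countable) (p : ι → Fn I) :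
    ∃ i ∈ A, ∃ j ∈ A, i ≠ j ∧ ∃ q, q ≤ p i ∧ q ≤ p j := by
  classical
  obtain ⟨m, hm⟩ := exists_large hA p
  obtain ⟨s, hs, hN, hcons⟩ := exists_family m _ p hm (fun i hi => hi.2) 2
  obtain ⟨q, hq, _⟩ := exists_lb s p (fun i hi => (hs hi).2) hcons
  obtain ⟨i, j, hij, rfl⟩ := Finset.card_eq_two.1 hN
  exact ⟨i, (hs (by simp)).1, j, (hs (by simp)).1, hij, q, hq i (by simp), hq j (by simp)⟩

/-- the main lemma -/
theorem noFree {X : Type} {r : ℕ} {M : Finset X → X → Set (Fn I)} (h1 : One M) (h2 : Rob r M)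
    (p : Fn I) : p ∈ fand (IsSetMapping r M)
      (fall fun A : X → Set (Fn I) => fimp (HasManyElements ℵ₁ A) (fnot (IsFree r M A))) := by
  classical
  refine ⟨fun Y _ x x' => mem_fimp.2 ?_, fun A => mem_fimp.2 ?_⟩
  · rintro q _ ⟨hx, hx'⟩
    obtain ⟨q1, hq1, s, hs, hs1⟩ := hx q le_rfl
    obtain ⟨q2, hq2, s', hs', hs2⟩ := hx' q1 hq1
    exact ⟨q2, hq2.trans hq1, h1 Y x x' s s' q2 (hq2.trans hs1) hs2 hs hs'⟩
  · intro q _ hE
    refine ⟨q, le_rfl, fun q' hq' hfree => ?_⟩
    obtain ⟨q1, hq1, E, hE1, hE2, hE3⟩ := mem_fex.1 hE q' hq'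
    have hch : ∀ i : (ℵ₁ : Cardinal.{0}).out, ∃ (s : Fn I) (x : X), s ≤ q1 ∧
        s ∈ meets (E i x) ∧ s ∈ meets (A x) := by
      intro i
      obtain ⟨s, hs, x, hx⟩ := mem_fex.1 (hE1.1 i) q1 le_rfl
      obtain ⟨s', hs', hx'⟩ := mem_fimp.1 (hE3 i x) s hs hx
      exact ⟨s', x, hs'.trans hs, down_meets _ _ hx _ hs', hx'⟩
    choose s x hs1 hs2 hs3 using hch
    have hunc : ¬ (Set.univ : Set (ℵ₁ : Cardinal.{0}).out).Countable := by
      rw [← Cardinal.le_aleph0_iff_set_countable, mk_univ, mk_out, not_le]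
      exact aleph0_lt_aleph_one
    obtain ⟨m, hm⟩ := exists_large hunc s
    obtain ⟨N, _, hrob⟩ := h2 m
    obtain ⟨t, ht, htN, hcons⟩ := exists_family m _ s hm (fun i hi => hi.2) N
    obtain ⟨q2, hq2, hsz⟩ := exists_lb t s (fun i hi => (ht hi).2) hcons
    have hinj : Set.InjOn x ↑t := by
      intro i hi j hj hij
      by_contra hne
      have hle : q2 ≤ q1 := (hq2 i hi).trans (hs1 i)
      have h3 : q2 ∈ meets (E i (x i)) := down_meets _ _ (hs2 i) _ (hq2 i hi)
      have h4 : q2 ∈ meets (E j (x i)) := by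
        rw [hij]
        exact down_meets _ _ (hs2 j) _ (hq2 j hj)
      exact hne (IsInj.eq (down_IsInj E _ hE2 _ hle) h3 h4)
    obtain ⟨Y, hY, hYr, y, hy, hyY, q3, hq3, hq3M⟩ := hrob (t.image x) (by
      rw [Finset.card_image_of_injOn hinj, htN]) q2 (by rw [htN] at hsz; exact hsz)
    have hA : ∀ z ∈ t.image x, q2 ∈ meets (A z) ∧ q2 ≤ q1 := by
      intro z hz
      obtain ⟨i, hi, rfl⟩ := Finset.mem_image.1 hz
      exact ⟨down_meets _ _ (hs3 i) _ (hq2 i hi), (hq2 i hi).trans (hs1 i)⟩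
    have hle : q2 ≤ q1 := (hA y hy).2
    obtain ⟨q4, hq4, h4⟩ := mem_fimp.1 (hfree Y hYr y hyY) q3 (hq3.trans (hle.trans hq1))
      ⟨fun z hz => down_meets _ _ (hA z (hY hz)).1 _ hq3, down_meets _ _ (hA y hy).1 _ hq3⟩
    exact h4 q4 le_rfl (down_meets _ _ (meets_of_mem hq3M) _ hq4)

theorem down_stuff {X : Type} {r : ℕ} {M : Finset X → X → Set (Fn I)} (κ : Cardinal.{0}) :
    Down (fand (IsSetMapping r M)
      (fall fun A : X → Set (Fn I) => fimp (HasManyElements κ A) (fnot (IsFree r M A)))) :=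
  down_fand (down_fall fun _ => down_fall fun _ => down_fall fun _ => down_fall fun _ =>
    down_fimp _ _) (down_fall fun _ => down_fimp _ _)

/-- the negative relations -/
theorem noFreeSet (n : ℕ) (p : Fn (K1 × K1)) :
    p ∈ NoFreeSet.{0, 0} (Fn (K1 × K1)) (ℵ_ (n + 1)) (n + 2) ℵ₁ := by
  obtain ⟨M, h1, h2⟩ := exists_mapping n
  have e : (ℵ_ (n + 1) : Cardinal.{0}).out ≃ (ℵ_ (n + 1) : Cardinal.{0}).ord.ToType := by
    have h : #((ℵ_ (n + 1) : Cardinal.{0}).out) = #((ℵ_ (n + 1) : Cardinal.{0}).ord.ToType) := by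
      rw [mk_out, mk_toType, card_ord]
    exact Classical.choice (Cardinal.eq.1 h)
  obtain ⟨M', h1', h2'⟩ := exists_transfer e h1 h2
  exact mem_fex_of_mem M' (down_stuff _) (noFree h1' h2' p)

/-! ### Cardinals are preserved -/

theorem cardinalsPreserved (p : Fn I) : p ∈ CardinalsPreserved.{0, 0} (Fn I) := by
  intro μ ν hμν hν q _ hq
  obtain ⟨q1, _, R, hR1, hR2⟩ := mem_fex.1 hq q le_rfl
  have hcount : ∀ x : μ.out, {y : ν.out | ∃ s ≤ q1, s ∈ meets (R x y)}.Countable := by
    intro x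
    by_contra hcon
    have hch : ∀ y : ν.out, ∃ s : Fn I, (∃ s' ≤ q1, s' ∈ meets (R x y)) →
        s ≤ q1 ∧ s ∈ meets (R x y) := by
      intro y
      by_cases h : ∃ s' ≤ q1, s' ∈ meets (R x y)
      · obtain ⟨s', h1, h2⟩ := h
        exact ⟨s', fun _ => ⟨h1, h2⟩⟩
      · exact ⟨q1, fun h' => absurd h' h⟩
    choose s hs using hch
    obtain ⟨y, hy, y', hy', hne, t, ht, ht'⟩ := exists_pair hcon s
    have h1 := hs y hy
    have h2 := hs y' hy'
    exact hne (IsFun.unique (down_IsFun R _ hR1 _ (ht.trans h1.1)) (down_meets _ _ h1.2 _ ht)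
      (down_meets _ _ h2.2 _ ht'))
  have hcover : (Set.univ : Set ν.out) ⊆ ⋃ x : μ.out, {y : ν.out | ∃ s ≤ q1, s ∈ meets (R x y)} := by
    intro y _
    obtain ⟨s, hs, x, hx⟩ := mem_fex.1 (hR2 y) q1 le_rfl
    exact Set.mem_iUnion.2 ⟨x, s, hs, hx⟩
  have h1 : ν ≤ μ * ℵ₀ := by
    calc ν = #(Set.univ : Set ν.out) := by rw [mk_univ, mk_out]
      _ ≤ #(⋃ x : μ.out, {y : ν.out | ∃ s ≤ q1, s ∈ meets (R x y)}) := mk_le_mk_of_subset hcover
      _ ≤ Cardinal.sum fun x : μ.out => #{y : ν.out | ∃ s ≤ q1, s ∈ meets (R x y)} :=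
          mk_iUnion_le_sum_mk
      _ ≤ Cardinal.sum fun _ : μ.out => ℵ₀ := Cardinal.sum_le_sum _ _ fun x =>
          Cardinal.le_aleph0_iff_set_countable.2 (hcount x)
      _ = μ * ℵ₀ := by rw [Cardinal.sum_const', mk_out]
  exact absurd h1 (not_le.2 (mul_lt_of_lt hν.le hμν hν))

/-! ### The generalized continuum hypothesis -/

theorem exists_nice (N : Set (Fn I)) : ∃ A : Set (Fn I), A.Countable ∧
    ∀ q, q ∈ meets N ↔ q ∈ meets A := by
  obtain ⟨A, hA⟩ := zorn_subset {A : Set (Fn I) | (∀ a ∈ A, ∃ s ∈ N, a ≤ s) ∧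
      ∀ a ∈ A, ∀ b ∈ A, (∃ q, q ≤ a ∧ q ≤ b) → a = b} (by
    intro c hc hchain
    refine ⟨⋃₀ c, ⟨?_, ?_⟩, fun s hs => Set.subset_sUnion_of_mem hs⟩
    · rintro a ⟨s, hs, ha⟩
      exact (hc hs).1 a ha
    · rintro a ⟨s, hs, ha⟩ b ⟨t, ht, hb⟩ hab
      rcases hchain.total hs ht with h | h
      · exact (hc ht).2 a (h ha) b hb hab
      · exact (hc hs).2 a ha b (h hb) hab)
  refine ⟨A, ?_, fun q => ⟨?_, ?_⟩⟩
  · by_contra hcon
    obtain ⟨a, ha, b, hb, hne, q, h1, h2⟩ := exists_pair hcon (fun a => a)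
    exact hne (hA.prop.2 a ha b hb ⟨q, h1, h2⟩)
  · intro h q' hq'
    obtain ⟨r, hr, s, hs, hrs⟩ := h q' hq'
    by_cases hcon : ∃ a ∈ A, ∃ t, t ≤ a ∧ t ≤ r
    · obtain ⟨a, ha, t, hta, htr⟩ := hcon
      exact ⟨t, htr.trans hr, a, ha, hta⟩
    · exfalso
      have hins : insert r A ∈ {A : Set (Fn I) | (∀ a ∈ A, ∃ s ∈ N, a ≤ s) ∧
          ∀ a ∈ A, ∀ b ∈ A, (∃ q, q ≤ a ∧ q ≤ b) → a = b} := by
        refine ⟨?_, ?_⟩
        · rintro a (rfl | ha)
          · exact ⟨s, hs, hrs⟩
          · exact hA.prop.1 a ha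
        · rintro a (rfl | ha) b (rfl | hb) hab
          · rfl
          · obtain ⟨t, h1, h2⟩ := hab
            exact absurd ⟨b, hb, t, h2, h1⟩ hcon
          · obtain ⟨t, h1, h2⟩ := hab
            exact absurd ⟨a, ha, t, h1, h2⟩ hcon
          · exact hA.prop.2 a ha b hb hab
      have h3 : r ∈ A := hA.le_of_ge hins (Set.subset_insert r A) (Set.mem_insert r A)
      exact hcon ⟨r, h3, r, le_rfl, le_rfl⟩
  · intro h q' hq'
    obtain ⟨r, hr, a, ha, hra⟩ := h q' hq'
    obtain ⟨s, hs, has⟩ := hA.prop.1 a ha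
    exact ⟨r, hr, s, hs, hra.trans has⟩

theorem mk_Fn_le (h : #I ≤ 2 ^ ℵ₀) : #(Fn I) ≤ 2 ^ ℵ₀ := by
  classical
  have h1 : #(Fn I) ≤ #(Finset (I × ℕ)) := by
    let g : Fn I → Finset (I × ℕ) := fun p =>
      p.2.toFinset.image fun i => (i, (p.1 i).getD 0)
    have hg : Function.Injective g := by
      intro p q hpq
      have key : ∀ (p q : Fn I), g p = g q → ∀ i n, p.1 i = some n → q.1 i = some n := by
        intro p q hpq i n hn
        have h2 : (i, n) ∈ g p := Finset.mem_image.2 ⟨i, mem_dom.2 (by rw [hn]; simp), by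
          rw [hn]; rfl⟩
        rw [hpq] at h2
        obtain ⟨j, hj, hji⟩ := Finset.mem_image.1 h2
        have h3 : j = i := congrArg Prod.fst hji
        subst h3
        obtain ⟨m, hm⟩ := Option.ne_none_iff_exists'.1 (mem_dom.1 hj)
        have h4 : (q.1 j).getD 0 = n := congrArg Prod.snd hji
        rw [hm] at h4
        rw [hm, ← h4]
        rfl
      refine Subtype.ext (funext fun i => ?_)
      rcases h3 : p.1 i with _ | n
      · rcases h4 : q.1 i with _ | n
        · rfl
        · have := key q p hpq.symm i n h4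
          rw [h3] at this
          exact this
      · exact (key p q hpq i n h3).symm
    exact mk_le_of_injective hg
  refine h1.trans ?_
  rcases finite_or_infinite (I × ℕ) with hf | hf
  · exact (mk_le_aleph0 (α := Finset (I × ℕ))).trans (cantor ℵ₀).le
  · rw [mk_finset_of_infinite, mk_prod, lift_id, lift_id, mk_nat]
    exact (mul_le_mul' h (cantor ℵ₀).le).trans (mul_eq_self (cantor ℵ₀).le).le

theorem mk_countable_le {X : Type} (h : #X ≤ 2 ^ ℵ₀) : #{A : Set X // A.Countable} ≤ 2 ^ ℵ₀ := by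
  classical
  have h1 : #{A : Set X // A.Countable} ≤ #(ℕ → Option X) := by
    have hch : ∀ A : {A : Set X // A.Countable}, ∃ f : ℕ → Option X,
        A.1 = {x | ∃ n, f n = some x} := by
      rintro ⟨A, hA⟩
      by_cases hne : A.Nonempty
      · obtain ⟨f, hf⟩ := hA.exists_eq_range hne
        refine ⟨fun n => some (f n), ?_⟩
        ext x
        show x ∈ A ↔ _
        rw [hf]
        simp
      · refine ⟨fun _ => none, ?_⟩
        rw [Set.not_nonempty_iff_eq_empty] at hne
        show A = _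
        rw [hne]
        ext x
        simp
    choose f hf using hch
    refine mk_le_of_injective (f := f) fun A B hAB => Subtype.ext ?_
    rw [hf A, hf B, hAB]
  refine h1.trans ?_
  rw [mk_arrow, lift_id, lift_id, mk_nat, mk_option]
  calc (#X + 1) ^ ℵ₀ ≤ (2 ^ ℵ₀) ^ ℵ₀ := by
        refine power_le_power_right ?_
        exact (add_le_add h (one_le_aleph0.trans (cantor ℵ₀).le)).trans
          (add_eq_self (cantor ℵ₀).le).le
    _ = 2 ^ ℵ₀ := by rw [← power_mul, aleph0_mul_aleph0]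

theorem forcesGCH (hI : #I ≤ 2 ^ ℵ₀)
    (hgch : ∀ μ : Cardinal.{0}, ℵ₀ ≤ μ → 2 ^ μ = Order.succ μ) (p : Fn I) :
    p ∈ ForcesGCH.{0, 0} (Fn I) := by
  classical
  intro μ hμ
  let X : Type := μ.out → {A : Set (Fn I) // A.Countable}
  have hX : #X ≤ #((Order.succ μ).out) := by
    have h1 : #X = #{A : Set (Fn I) // A.Countable} ^ μ := by
      show #(μ.out → {A : Set (Fn I) // A.Countable}) = _
      rw [mk_arrow, lift_id, lift_id, mk_out]
    rw [h1, mk_out, ← hgch μ hμ]
    calc #{A : Set (Fn I) // A.Countable} ^ μ ≤ (2 ^ ℵ₀) ^ μ :=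
          power_le_power_right (mk_countable_le (mk_Fn_le hI))
      _ = 2 ^ μ := by rw [← power_mul, aleph0_mul_eq hμ]
  have hne : Nonempty X := ⟨fun _ => ⟨∅, Set.countable_empty⟩⟩
  obtain ⟨g⟩ := Cardinal.le_def _ _ |>.1 hX
  let E : (Order.succ μ).out → μ.out → Set (Fn I) := fun y k => (Function.invFun g y k).1
  have hE : ∀ z : X, ∃ y, ∀ k, E y k = (z k).1 := fun z => ⟨g z, fun k => by
    show (Function.invFun g (g z) k).1 = _
    rw [Function.leftInverse_invFun g.injective]⟩
  refine mem_fex_of_mem E (down_fall fun _ => down_fex _) fun x => ?_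
  have hch : ∀ k, ∃ A : Set (Fn I), A.Countable ∧ ∀ q, q ∈ meets (x k) ↔ q ∈ meets A :=
    fun k => exists_nice (x k)
  choose A hA1 hA2 using hch
  obtain ⟨y, hy⟩ := hE fun k => ⟨A k, hA1 k⟩
  refine mem_fex_of_mem y (down_fall fun _ => down_fand (down_fimp _ _) (down_fimp _ _)) ?_
  intro k
  show p ∈ fand (fimp (meets (x k)) (meets (E y k))) (fimp (meets (E y k)) (meets (x k)))
  have hyk : E y k = A k := hy k
  have h2 : ∀ q, q ∈ meets (x k) ↔ q ∈ meets (E y k) := fun q => by
    rw [hyk]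
    exact hA2 k q
  exact ⟨mem_fimp.2 fun q _ h => ⟨q, le_rfl, (h2 q).1 h⟩,
    mem_fimp.2 fun q _ h => ⟨q, le_rfl, (h2 q).2 h⟩⟩

end

end Pool.Agent.Helper669.SetMap2
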