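import Mathlib
import Pool.Agent.Helper669.Coll

/-!
# The cardinals of the extension below `L ω₁`
-/

namespace Pool.Agent.Helper669.Surj

open Cardinal Ordinal Order Pool.Agent.Helper669.Forcing Pool.Agent.Helper669.GBase
  Pool.Agent.Helper669.Forcing2 Pool.Agent.Helper669.Easton Pool.Agent.Helper669.Seq
  Pool.Agent.Helper669.Lift Pool.Agent.Helper669.Coll

set_option linter.unusedSectionVars false

universe u v w

section

variable {D : Type u} [Preorder D]

/-- the relation is functional -/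
def Fn {X : Type v} {Y : Type w} (R : X → Y → Set D) (d : D) : Prop :=
  ∀ z x x', d ∈ fimp (fand (meets (R z x)) (meets (R z x'))) (fground (x = x'))

theorem Fn.eq {X : Type v} {Y : Type w} {R : X → Y → Set D} {d : D} (h : Fn R d) {e : D}
    (he : e ≤ d) {z : X} {x x' : Y} (h1 : e ∈ meets (R z x)) (h2 : e ∈ meets (R z x')) :
    x = x' := by
  obtain ⟨_, _, h'⟩ := mem_fimp.1 (h z x x') e he ⟨h1, h2⟩
  exact h'

/-- no surjection from a finite set onto an infinite one -/
theorem noOnto_finite {Z X : Type v} [Finite Z] [Infinite X] : NoOnto D Z X := by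
  classical
  intro R d hfun honto
  have hfn : Fn R d := hfun
  have key : ∀ s : Finset Z, ∃ d' ≤ d, ∃ F : Finset X, ∀ z ∈ s, ∀ e ≤ d', ∀ x,
      e ∈ meets (R z x) → x ∈ F := by
    intro s
    induction s using Finset.induction_on with
    | empty => exact ⟨d, le_rfl, ∅, fun z hz => absurd hz (by simp)⟩
    | insert z s _ ih =>
      obtain ⟨d', hd', F, hF⟩ := ih
      by_cases h : ∃ e ≤ d', ∃ x, e ∈ meets (R z x)
      · obtain ⟨e, he, x, hx⟩ := h
        refine ⟨e, he.trans hd', insert x F, fun z' hz' e' he' x' hx' => ?_⟩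
        rcases Finset.mem_insert.1 hz' with rfl | hz'
        · have : x = x' := hfn.eq (he'.trans (he.trans hd')) (down_meets _ _ hx e' he') hx'
          rw [← this]; simp
        · exact Finset.mem_insert_of_mem (hF z' hz' e' (he'.trans he) x' hx')
      · push Not at h
        refine ⟨d', hd', F, fun z' hz' e' he' x' hx' => ?_⟩
        rcases Finset.mem_insert.1 hz' with rfl | hz'
        · exact absurd hx' (h e' he' x')
        · exact hF z' hz' e' he' x' hx'
  have := Fintype.ofFinite Z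
  obtain ⟨d', hd', F, hF⟩ := key Finset.univ
  obtain ⟨x, hx⟩ := Infinite.exists_notMem_finset F
  obtain ⟨e, he, z, hz⟩ := mem_fex.1 (honto x) d' hd'
  exact hx (hF z (Finset.mem_univ z) e he x hz)

/-- in the extension there is a map from `Z` onto `X` -/
def Onto (D : Type u) [Preorder D] (Z : Type v) (X : Type w) : Set D :=
  fex fun R : Z → X → Set D => fand (IsFun R) (IsOnto R)

theorem not_onto {Z X : Type v} (h : NoOnto D Z X) (d : D) : d ∈ fnot (Onto D Z X) := by
  intro d1 _ hd1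
  obtain ⟨d2, _, R, hR1, hR2⟩ := mem_fex.1 hd1 d1 le_rfl
  exact h R d2 (fun z x x' => hR1.2 z x x') hR2

theorem NoOnto.restrict {Z X X' : Type v} (h : NoOnto D Z X') (g : X' → X)
    (hg : Function.Injective g) : NoOnto D Z X := by
  intro R d hfun honto
  refine h (fun z x => R z (g x)) d (fun z x x' => ?_) fun x => honto (g x)
  refine mem_fimp.2 fun e he h' => ?_
  obtain ⟨r, hr, h''⟩ := mem_fimp.1 (hfun z (g x) (g x')) e he h'
  exact ⟨r, hr, hg h''⟩

/-- a set onto which a smaller one can be mapped -/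
theorem NoOnto.of_onto {Z Y X : Type v} (h : NoOnto D Z X) (hY : ∀ d, d ∈ Onto D Z Y) :
    NoOnto D Y X := by
  intro R d hfun honto
  have hfn : Fn R d := hfun
  obtain ⟨d1, hd1, S, hS1, hS2⟩ := mem_fex.1 (hY d) d le_rfl
  let T : Z → X → Set D := fun z x => {e | ∃ y, e ∈ meets (S z y) ∧ e ∈ meets (R y x)}
  have hT : ∀ z x, Down (T z x) := by
    rintro z x e ⟨y, h1, h2⟩ e' he'
    exact ⟨y, down_meets _ _ h1 e' he', down_meets _ _ h2 e' he'⟩
  refine h T d1 (fun z x x' => mem_fimp.2 fun e he h' => ?_) fun x => mem_fex.2 fun e he => ?_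
  · obtain ⟨e1, he1, y, h1, h2⟩ := exists_of_meets (hT z x) h'.1
    obtain ⟨e2, he2, y', h3, h4⟩ := exists_of_meets (hT z x') (down_meets _ _ h'.2 e1 he1)
    have hyy : y = y' := IsFun.unique (down_IsFun _ _ hS1 e2 (he2.trans (he1.trans he)))
      (down_meets _ _ h1 e2 he2) h3
    subst hyy
    exact ⟨e2, he2.trans he1, hfn.eq (he2.trans (he1.trans (he.trans hd1)))
      (down_meets _ _ h2 e2 he2) h4⟩
  · obtain ⟨e1, he1, y, h1⟩ := mem_fex.1 (honto x) e (he.trans hd1)
    obtain ⟨e2, he2, z, h2⟩ := mem_fex.1 (hS2 y) e1 (he1.trans he)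
    exact ⟨e2, he2.trans he1, z, meets_of_mem ⟨y, h2, down_meets _ _ h1 e2 he2⟩⟩

end

/-! ### The collapses -/

section

variable {P : Type} [Preorder P]

open Classical in
/-- add one value to a condition -/
noncomputable def addPt {K M : Type} (hK : ℵ₀ ≤ #K) (s : Lv K M) (k : K) (m : M) : Lv K M :=
  ⟨Function.update s.1 k (some m), by
    have h1 : {k' | Function.update s.1 k (some m) k' ≠ none} ⊆ insert k {k' | s.1 k' ≠ none} := by
      intro k' hk'
      by_cases h : k' = k
      · exact Or.inl h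
      · right
        simpa [Function.update_of_ne h] using hk'
    refine (mk_le_mk_of_subset h1).trans_lt (mk_insert_le.trans_lt ?_)
    exact add_lt_of_lt hK s.2 (one_lt_aleph0.trans_le hK)⟩

theorem addPt_le {K M : Type} (hK : ℵ₀ ≤ #K) (s : Lv K M) (k : K) (m : M) (h : s.1 k = none) :
    addPt hK s k m ≤ s := by
  classical
  intro k' m' hm'
  have hne : k' ≠ k := by
    rintro rfl
    rw [h] at hm'
    exact absurd hm' (by simp)
  show Function.update s.1 k (some m) k' = some m'
  rw [Function.update_of_ne hne]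
  exact hm'

theorem addPt_self {K M : Type} (hK : ℵ₀ ≤ #K) (s : Lv K M) (k : K) (m : M) :
    (addPt hK s k m).1 k = some m := by
  classical
  show Function.update s.1 k (some m) k = some m
  simp

theorem exists_free {K M : Type} (s : Lv K M) : ∃ k, s.1 k = none := by
  by_contra hcon
  push Not at hcon
  have h := s.2
  rw [show {k | s.1 k ≠ none} = Set.univ from Set.eq_univ_of_forall hcon, mk_univ] at h
  exact lt_irrefl _ h

open Classical in
noncomputable def updQ (α : Ix) (q : QQ) (s : Lv (KK α) (MM α)) : QQ := Function.update q α s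

theorem updQ_le (α : Ix) (q : QQ) (s : Lv (KK α) (MM α)) (h : s ≤ q α) : updQ α q s ≤ q := by
  intro β
  by_cases hβ : β = α
  · subst hβ
    simpa [updQ] using h
  · simp [updQ, Function.update_of_ne hβ]

theorem updQ_self (α : Ix) (q : QQ) (s : Lv (KK α) (MM α)) : updQ α q s α = s := by
  simp [updQ]

/-- the `α`-th collapse -/
theorem onto_step (α : Ix) {X : Type} (hX : #X ≤ 2 ^ th α) (hne : Nonempty X) (d : QQ × P) :
    d ∈ Onto (QQ × P) (KK α) X := by
  have hK : ℵ₀ ≤ #(KK α) := by rw [mk_KK]; exact (th_unc α).le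
  obtain ⟨f, hf⟩ : ∃ f : MM α → X, Function.Surjective f := by
    obtain ⟨g⟩ : Nonempty (X ↪ MM α) := Cardinal.le_def _ _ |>.1 (by rw [mk_MM]; exact hX)
    exact ⟨Function.invFun g, Function.invFun_surjective g.injective⟩
  let R : KK α → X → Set (QQ × P) := fun k x => {e | ∃ m, (e.1 α).1 k = some m ∧ f m = x}
  have hR : ∀ k x, Down (R k x) := by
    rintro k x e ⟨m, h1, h2⟩ e' he'
    exact ⟨m, he'.1 α k m h1, h2⟩
  refine mem_fex_of_mem R (down_fand (down_IsFun _) (down_IsOnto _)) ⟨⟨fun k => ?_, ?_⟩, ?_⟩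
  · refine mem_fex.2 fun e _ => ?_
    obtain ⟨x0⟩ := hne
    obtain ⟨m0, _⟩ := hf x0
    by_cases h : (e.1 α).1 k = none
    · refine ⟨(updQ α e.1 (addPt hK (e.1 α) k m0), e.2),
        ⟨updQ_le _ _ _ (addPt_le _ _ _ _ h), le_rfl⟩, f m0, meets_of_mem ⟨m0, ?_, rfl⟩⟩
      show (updQ α e.1 (addPt hK (e.1 α) k m0) α).1 k = some m0
      rw [updQ_self, addPt_self]
    · obtain ⟨m, hm⟩ := Option.ne_none_iff_exists'.1 h
      exact ⟨e, le_rfl, f m, meets_of_mem ⟨m, hm, rfl⟩⟩
  · intro k x x'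
    refine mem_fimp.2 fun e _ h => ?_
    obtain ⟨e1, he1, m, hm, h1⟩ := exists_of_meets (hR k x) h.1
    obtain ⟨e2, he2, m', hm', h2⟩ := exists_of_meets (hR k x') (down_meets _ _ h.2 e1 he1)
    refine ⟨e2, he2.trans he1, ?_⟩
    have h3 : (e2.1 α).1 k = some m := he2.1 α k m hm
    rw [hm'] at h3
    show x = x'
    rw [← h1, ← h2, Option.some.inj h3]
  · intro x
    refine mem_fex.2 fun e _ => ?_
    obtain ⟨m, hm⟩ := hf x
    obtain ⟨k, hk⟩ := exists_free (e.1 α)
    refine ⟨(updQ α e.1 (addPt hK (e.1 α) k m), e.2),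
      ⟨updQ_le _ _ _ (addPt_le _ _ _ _ hk), le_rfl⟩, k, meets_of_mem ⟨m, ?_, hm⟩⟩
    show (updQ α e.1 (addPt hK (e.1 α) k m) α).1 k = some m
    rw [updQ_self, addPt_self]

theorem onto_of_equiv {D : Type u} [Preorder D] {Z Z' : Type v} {X : Type w} (e : Z' ≃ Z) {d : D}
    (h : d ∈ Onto D Z X) : d ∈ Onto D Z' X := by
  refine mem_fex.2 fun q hq => ?_
  obtain ⟨r, hr, R, hR1, hR2⟩ := mem_fex.1 h q hq
  refine ⟨r, hr, fun z x => R (e z) x, ⟨fun z => hR1.1 (e z), fun z x x' => hR1.2 (e z) x x'⟩,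
    fun x => ?_⟩
  refine mem_fex.2 fun s hs => ?_
  obtain ⟨t, ht, z, hz⟩ := mem_fex.1 (hR2 x) s hs
  exact ⟨t, ht, e.symm z, by simpa using hz⟩

/-! ### The cardinals of the extension -/

theorem noOnto_succ (hP : AC P) {a : Ordinal.{0}} (ha : a < ω₁) {Z X : Type} (hZ : #Z ≤ L a)
    (hX : #X = L (a + 1)) : NoOnto (QQ × P) Z X := by
  obtain ⟨δ, hδ⟩ := exists_oo ha
  subst hδ
  exact noOnto_step hP δ hZ hX

/-- no smaller cardinal is mapped onto `L α` -/
theorem noOnto_L (hP : AC P) {α : Ordinal.{0}} (hα : α ≤ ω₁) {Z X : Type} (hZ : #Z < L α)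
    (hX : #X = L α) : NoOnto (QQ × P) Z X := by
  -- the case of a successor
  have hsucc : ∀ a < ω₁, ∀ Z X : Type, #Z < L (a + 1) → #X = L (a + 1) →
      NoOnto (QQ × P) Z X := by
    intro a ha Z X hZ hX
    by_cases h : #Z ≤ L a
    · exact noOnto_succ hP ha h hX
    · by_cases hpre : IsSuccPrelimit a
      · rw [L_add_one_pre hpre, lt_succ_iff] at hZ
        exact absurd hZ h
      · rw [L_add_one_not hpre, lt_succ_iff] at hZ
        have hbex : ∃ b, a = b + 1 := by
          by_contra hcon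
          push Not at hcon
          apply hpre
          intro b hb
          apply hcon b
          rw [← succ_eq_add_one]
          exact hb.succ_eq.symm
        obtain ⟨b, rfl⟩ := hbex
        have hb : b < ω₁ := lt_of_le_of_lt (by simp) ha
        obtain ⟨β, rfl⟩ := exists_oo hb
        have hne : Nonempty Z := by
          rw [← mk_ne_zero_iff]
          intro h0
          exact h (h0 ▸ zero_le)
        have h1 : NoOnto (QQ × P) (KK β) X := noOnto_succ hP ha (by rw [mk_KK]; rfl) hX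
        exact NoOnto.of_onto h1 fun d => onto_step β hZ hne d
  rcases Ordinal.zero_or_succ_or_isSuccLimit α with rfl | ⟨a, rfl⟩ | hlim
  · rw [L_zero] at hZ hX
    have h1 : Finite Z := lt_aleph0_iff_finite.1 hZ
    have h2 : Infinite X := infinite_iff.2 hX.ge
    exact noOnto_finite
  · exact hsucc a (lt_of_lt_of_le (by simp) hα) Z X hZ hX
  · obtain ⟨b, hb, hlt⟩ := (lt_L_limit hlim).1 hZ
    have hb1 : b + 1 < α := by rw [← succ_eq_add_one]; exact hlim.succ_lt hb
    have hle : L (b + 1) ≤ #X := by rw [hX]; exact (L_lt hb1).le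
    obtain ⟨g⟩ : Nonempty ((L (b + 1)).out ↪ X) := Cardinal.le_def _ _ |>.1 (by
      rw [mk_out]; exact hle)
    exact NoOnto.restrict (hsucc b (hb.trans_le hα) Z _ (hlt.trans (L_lt_add_one b)) (mk_out _))
      g g.injective

/-- every other infinite cardinal below `L ω₁` is collapsed to a smaller one -/
theorem onto_of_ne {ν : Cardinal.{0}} (h0 : ℵ₀ ≤ ν) (h1 : ν ≤ L ω₁) (hne : ∀ α ≤ ω₁, L α ≠ ν) :
    ∃ μ < ν, ∀ d : QQ × P, d ∈ Onto (QQ × P) μ.out ν.out := by
  have h2 : ν < L ω₁ := lt_of_le_of_ne h1 (hne ω₁ le_rfl).symm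
  obtain ⟨a, ha, h3, h4⟩ := exists_interval h0 h2
  have h5 : L a < ν := lt_of_le_of_ne h3 (hne a ha.le)
  by_cases hpre : IsSuccPrelimit a
  · rw [L_add_one_pre hpre, lt_succ_iff] at h4
    exact absurd h4 (not_le.2 h5)
  · rw [L_add_one_not hpre, lt_succ_iff] at h4
    have hbex : ∃ b, a = b + 1 := by
      by_contra hcon
      push Not at hcon
      apply hpre
      intro b hb
      apply hcon b
      rw [← succ_eq_add_one]
      exact hb.succ_eq.symm
    obtain ⟨b, rfl⟩ := hbex
    have hb : b < ω₁ := lt_of_le_of_lt (by simp) ha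
    obtain ⟨β, rfl⟩ := exists_oo hb
    refine ⟨_, h5, fun d => ?_⟩
    obtain ⟨e⟩ : Nonempty ((L (oo β + 1)).out ≃ KK β) := Cardinal.eq.1 (by
      rw [mk_out, mk_KK]; rfl)
    refine onto_of_equiv e (onto_step β (by rw [mk_out]; exact h4) ?_ d)
    rw [← mk_ne_zero_iff, mk_out]
    exact (aleph0_pos.trans_le h0).ne'

end

end Pool.Agent.Helper669.Surj
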