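import Mathlib
import Pool.Agent.Helper669.MMain

/-!
# The two-step iteration with the Levy collapse: the polarized relation fails
-/

namespace Pool.Agent.Helper669.Two

open Cardinal Pool.Agent.Helper669.Iter Pool.Agent.Helper669.MIter Pool.Agent.Helper669.Forcing
  Pool.Agent.Helper669.GBase Pool.Agent.Helper669.Forcing2 Pool.Agent.Helper669.MMain

set_option linter.unusedSectionVars false

universe u

/-! ### Small partial functions whose values are names -/

section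

variable {P : Type u} [Preorder P] {K : Type u}

/-- names of Levy conditions, with literal extension as order -/
def TT (P : Type u) (K : Type u) : Type u :=
  {s : K → Option (ℕ → Set P) // #{k | s k ≠ none} < #K}

instance : Preorder (TT P K) where
  le s' s := ∀ k x, s.1 k = some x → s'.1 k = some x
  le_refl _ _ _ h := h
  le_trans _ _ _ hab hbc k x h := hab k x (hbc k x h)

/-- the condition with given coordinates -/
def mk (p : P) (s : TT P K) : LevyIter P K := ⟨p, s.1, s.2⟩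

theorem mk_le {p p' : P} {s s' : TT P K} (hp : p' ≤ p) (hs : s' ≤ s) : mk p' s' ≤ mk p s :=
  ⟨hp, fun k x h => ⟨x, hs k x h, mem_sameSet.2 fun _ _ _ => Iff.rfl⟩⟩

/-- lowering the first coordinate -/
def low (d : LevyIter P K) (p : P) : LevyIter P K := ⟨p, d.snd, d.small⟩

theorem low_le (d : LevyIter P K) {p : P} (hp : p ≤ d.fst) : low d p ≤ d :=
  ⟨hp, fun _ x h => ⟨x, h, mem_sameSet.2 fun _ _ _ => Iff.rfl⟩⟩

theorem low_le_of_le {d e : LevyIter P K} {p q : P} (h : d ≤ e) (hp : p ≤ d.fst) (hpq : p ≤ q) :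
    low d p ≤ low e q := by
  refine ⟨hpq, fun k x hx => ?_⟩
  obtain ⟨x', h1, h2⟩ := h.2 k x hx
  exact ⟨x', h1, down_SameSet _ _ _ h2 _ hp⟩

theorem TT_closed (hK : (#K).IsRegular) (S : Set (TT P K))
    (hS : ∀ s ∈ S, ∀ t ∈ S, s ≤ t ∨ t ≤ s) (hcard : #S < #K) : ∃ t, ∀ s ∈ S, t ≤ s := by
  classical
  let f : K → Option (ℕ → Set P) := fun k =>
    if h : ∃ s ∈ S, s.1 k ≠ none then h.choose.1 k else none
  have hf : ∀ s ∈ S, ∀ k x, s.1 k = some x → f k = some x := by
    intro s hs k x hx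
    have h : ∃ s ∈ S, s.1 k ≠ none := ⟨s, hs, by rw [hx]; simp⟩
    have h1 : f k = h.choose.1 k := dif_pos h
    rw [h1]
    have h2 := h.choose_spec.1
    have h3 := h.choose_spec.2
    rcases hS s hs _ h2 with h4 | h4
    · obtain ⟨x0, hx0⟩ := Option.ne_none_iff_exists'.1 h3
      have := h4 k x0 hx0
      rw [hx0, ← this, hx]
    · exact h4 k x hx
  have hsub : {k | f k ≠ none} ⊆ ⋃ s, ⋃ _ : s ∈ S, {k | s.1 k ≠ none} := by
    intro k hk
    by_cases h : ∃ s ∈ S, s.1 k ≠ none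
    · obtain ⟨s, hs, hsk⟩ := h
      exact Set.mem_iUnion.2 ⟨s, Set.mem_iUnion.2 ⟨hs, hsk⟩⟩
    · exact absurd (dif_neg h) hk
  refine ⟨⟨f, (mk_le_mk_of_subset hsub).trans_lt ?_⟩, fun s hs k x hx => hf s hs k x hx⟩
  refine (card_biUnion_lt_iff_forall_of_isRegular
    (t := fun (s : TT P K) _ => {k | s.1 k ≠ none}) hK hcard).2 ?_
  exact fun s _ => s.2

/-- inside every dense set there is a maximal antichain -/
theorem exists_antichain' (D : Set P) (hD : ∀ p, ∃ q ≤ p, q ∈ D) :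
    ∃ A ⊆ D, (∀ p, ∃ a ∈ A, Compat a p) ∧ ∀ a ∈ A, ∀ b ∈ A, Compat a b → a = b := by
  obtain ⟨A, hA⟩ := zorn_subset {A : Set P | A ⊆ D ∧ ∀ a ∈ A, ∀ b ∈ A, Compat a b → a = b}
    (by
      intro c hc hchain
      refine ⟨⋃₀ c, ⟨Set.sUnion_subset fun s hs => (hc hs).1, ?_⟩,
        fun s hs => Set.subset_sUnion_of_mem hs⟩
      rintro a ⟨s, hs, ha⟩ b ⟨t, ht, hb⟩ hab
      rcases hchain.total hs ht with h | h
      · exact (hc ht).2 a (h ha) b hb hab
      · exact (hc hs).2 a ha b (h hb) hab)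
  refine ⟨A, hA.prop.1, ?_, hA.prop.2⟩
  intro p
  by_contra hcon
  push Not at hcon
  obtain ⟨q, hqp, hqD⟩ := hD p
  have hq : q ∉ A := by
    intro hq
    exact hcon q hq ⟨q, le_rfl, hqp⟩
  have hcon' : ∀ a ∈ A, ¬ Compat a q := by
    rintro a ha ⟨s, h1, h2⟩
    exact hcon a ha ⟨s, h1, h2.trans hqp⟩
  have hmem : insert q A ∈ {A : Set P | A ⊆ D ∧ ∀ a ∈ A, ∀ b ∈ A, Compat a b → a = b} := by
    refine ⟨Set.insert_subset hqD hA.prop.1, ?_⟩
    rintro a (rfl | ha) b (rfl | hb) hab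
    · rfl
    · obtain ⟨s, h1, h2⟩ := hab
      exact absurd ⟨s, h2, h1⟩ (hcon' b hb)
    · exact absurd hab (hcon' a ha)
    · exact hA.prop.2 a ha b hb hab
  exact hq (hA.le_of_ge hmem (Set.subset_insert q A) (Set.mem_insert q A))

/-- Easton's lemma for the two-step iteration -/
theorem iter_baire (hK : (#K).IsRegular) (hunc : ℵ₀ < #K)
    (hccc : ∀ A : Set P, (∀ a ∈ A, ∀ b ∈ A, Compat a b → a = b) → A.Countable)
    {Λ : Type u} (hΛ : #Λ < #K) (D : Λ → Set (LevyIter P K)) (hdown : ∀ i, Down (D i))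
    (hdense : ∀ i d, ∃ d' ≤ d, d' ∈ D i) (s : TT P K) :
    ∃ s' ≤ s, ∀ i b, ∃ b' ≤ b, mk b' s' ∈ D i := by
  classical
  refine easton hunc hccc (fun S h1 h2 _ => TT_closed hK S h1 h2) hΛ (fun i b t => mk b t ∈ D i)
    ?_ ?_ s
  · intro i b t h b' hb' t' ht'
    exact hdown i _ h _ (mk_le hb' ht')
  · intro i b t
    obtain ⟨d', hd', hD⟩ := hdense i (mk b t)
    let g : K → Option (ℕ → Set P) := fun k => if t.1 k = none then d'.snd k else t.1 k
    have hg : {k | g k ≠ none} ⊆ {k | d'.snd k ≠ none} := by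
      intro k hk
      by_cases h : t.1 k = none
      · simpa [g, h] using hk
      · obtain ⟨x, hx⟩ := Option.ne_none_iff_exists'.1 h
        obtain ⟨x', hx', _⟩ := hd'.2 k x hx
        show d'.snd k ≠ none
        rw [hx']; simp
    refine ⟨d'.fst, hd'.1, ⟨g, (mk_le_mk_of_subset hg).trans_lt d'.small⟩, ?_, ?_⟩
    · intro k x hx
      have : t.1 k ≠ none := by rw [hx]; simp
      show g k = some x
      simp only [g, this, if_false]
      exact hx
    · refine hdown i _ hD _ ⟨le_rfl, fun k x hx => ?_⟩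
      show ∃ x', g k = some x' ∧ d'.fst ∈ SameSet x x'
      by_cases h : t.1 k = none
      · exact ⟨x, by simp only [g, h, if_true]; exact hx, mem_sameSet.2 fun _ _ _ => Iff.rfl⟩
      · obtain ⟨x0, hx0⟩ := Option.ne_none_iff_exists'.1 h
        obtain ⟨x', hx', hs⟩ := hd'.2 k x0 hx0
        rw [hx] at hx'
        obtain rfl : x = x' := Option.some.inj hx'
        refine ⟨x0, by simp only [g, h, if_false]; exact hx0, mem_sameSet.2 fun j q hq => ?_⟩
        exact (mem_sameSet.1 hs j q hq).symm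

/-- A set of full size is not contained in a ground model set of cardinality less than `|K|`. -/
theorem iter_mem_notMem (hK : (#K).IsRegular) (hunc : ℵ₀ < #K)
    (hccc' : ∀ {Y : Type u} (f : Y → P), ¬ Countable Y → ∃ y y', y ≠ y' ∧ Compat (f y) (f y'))
    (hccc : ∀ A : Set P, (∀ a ∈ A, ∀ b ∈ A, Compat a b → a = b) → A.Countable)
    {A : K → Set (LevyIter P K)} {d : LevyIter P K}
    (hd : d ∈ HasFullSize A) (Z : Set K) (hZ : #Z < #K) :
    ∃ r ≤ d, ∃ x, x ∉ Z ∧ r ∈ meets (A x) := by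
  obtain ⟨q, hq, R, hR1, hR2, hR3⟩ := mem_fex.1 hd d le_rfl
  by_contra hcon
  push Not at hcon
  let D : Z → Set (LevyIter P K) := fun z =>
    {s | (∃ x, s ∈ meets (R x z.1)) ∨ ∀ x, s ∈ fnot (meets (R x z.1))}
  have hdense : ∀ z, ∀ s : LevyIter P K, ∃ t ≤ s, t ∈ D z := by
    intro z s
    by_cases h : ∀ x, s ∈ fnot (meets (R x z.1))
    · exact ⟨s, le_rfl, Or.inr h⟩
    · simp only [fnot, Set.mem_ofPred_eq, not_forall, not_not] at h
      obtain ⟨x, t, ht, h'⟩ := h
      exact ⟨t, ht, Or.inl ⟨x, h'⟩⟩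
  have hdown : ∀ z, Down (D z) := by
    rintro z s (⟨x, hs⟩ | hs) t ht
    · exact Or.inl ⟨x, down_meets _ _ hs _ ht⟩
    · exact Or.inr fun x => down_fnot _ _ (hs x) _ ht
  obtain ⟨s', hs', hs'D⟩ := iter_baire hK hunc hccc hZ D hdown hdense ⟨q.snd, q.small⟩
  have he0 : mk q.fst s' ≤ q := mk_le (s := ⟨q.snd, q.small⟩) le_rfl hs'
  let V : Z → Set K := fun z => {x | ∃ b ≤ q.fst, mk b s' ∈ meets (R x z.1)}
  have hV : ∀ z, #(V z) ≤ ℵ₀ := by
    intro z
    by_contra hc
    have hc' : ¬ Countable (V z) := by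
      rw [← mk_le_aleph0_iff]; exact hc
    choose f hf1 hf2 using fun x : V z => x.2
    obtain ⟨x, x', hne, b, hb1, hb2⟩ := hccc' f hc'
    apply hne
    apply Subtype.ext
    have hle : mk b s' ≤ q := (mk_le (hb1.trans (hf1 x)) le_rfl).trans he0
    exact IsInj.eq (down_IsInj R q hR2 _ hle) (down_meets _ _ (hf2 x) _ (mk_le hb1 le_rfl))
      (down_meets _ _ (hf2 x') _ (mk_le hb2 le_rfl))
  have hVU : #(⋃ z, V z) < #K := by
    refine (mk_iUnion_le_sum_mk).trans_lt ?_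
    refine (Cardinal.sum_le_sum _ (fun _ => ℵ₀) fun z => hV z).trans_lt ?_
    rw [Cardinal.sum_const']
    exact mul_lt_of_lt hK.aleph0_le hZ hunc
  obtain ⟨x, hx⟩ : ∃ x, x ∉ ⋃ z, V z := by
    by_contra hc
    push Not at hc
    rw [Set.eq_univ_of_forall hc, mk_univ] at hVU
    exact lt_irrefl _ hVU
  obtain ⟨e1, he1, y, hy⟩ := IsFun.total (down_IsFun R q hR1 _ he0) x
  obtain ⟨e2, he2, hy2⟩ := mem_fimp.1 (hR3 x y) e1 (he1.trans he0) hy
  have hyZ : y ∈ Z := by
    by_contra hyZ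
    exact hcon e2 (he2.trans (he1.trans (he0.trans hq))) y hyZ hy2
  obtain ⟨b', hb', hD⟩ := hs'D ⟨y, hyZ⟩ e1.fst
  have h1 : low e1 b' ≤ e1 := low_le e1 hb'
  have h2 : low e1 b' ≤ mk b' s' := low_le_of_le (q := b') he1 hb' le_rfl
  rcases hD with ⟨x', hx'⟩ | hx'
  · have h3 : x = x' := IsInj.eq (down_IsInj R q hR2 _ (h1.trans (he1.trans he0)))
      (down_meets _ _ hy _ h1) (down_meets _ _ hx' _ h2)
    apply hx
    refine Set.mem_iUnion.2 ⟨⟨y, hyZ⟩, b', hb'.trans he1.1, ?_⟩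
    rw [h3]
    exact hx'
  · exact hx' x (low e1 b') h2 (down_meets _ _ hy _ h1)

end

/-! ### The main argument -/

variable {J : Type} [LinearOrder J] [WellFoundedLT J] {K : Type}

theorem pm_ccc (A : Set (PM J)) (hA : ∀ a ∈ A, ∀ b ∈ A, Compat a b → a = b) : A.Countable := by
  by_contra hcount
  have hcount' : ¬ Countable A := hcount
  obtain ⟨y, y', hne, h⟩ := cond_ccc (fun a : A => a.1) hcount'
  exact hne (Subtype.ext (hA y.1 y.2 y'.1 y'.2 h))

theorem not_polarized_iter (hK : (#K).IsRegular) (hunc : ℵ₀ < #K)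
    (hcof : ∀ S : Set J, #S ≤ #K → ∃ b, ∀ s ∈ S, s < b) (d : LevyIter (PM J) K) :
    d ∈ fnot (Polarized (LevyIter (PM J) K) K ℕ) := by
  classical
  obtain ⟨_, _, hord⟩ := exists_ord_eq_type_lt K
  -- maximal antichains of conditions with large domain
  have hanti : ∀ x : K, ∃ A ⊆ {d : LevyIter (PM J) K | ∀ y < x, d.snd y ≠ none},
      (∀ p, ∃ a ∈ A, Compat a p) ∧ ∀ a ∈ A, ∀ b ∈ A, Compat a b → a = b := by
    intro x
    apply exists_antichain'
    intro d
    refine ⟨⟨d.fst, fun k => if k < x ∧ d.snd k = none then some fun _ => ∅ else d.snd k, ?_⟩,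
      ⟨le_rfl, fun k z hz => ⟨z, ?_, mem_sameSet.2 fun _ _ _ => Iff.rfl⟩⟩, fun y hy => ?_⟩
    · have hsub : {k | (if k < x ∧ d.snd k = none then some fun _ : ℕ => (∅ : Set (PM J))
          else d.snd k) ≠ none} ⊆ {k | d.snd k ≠ none} ∪ Set.Iio x := by
        intro k hk
        by_cases h : k < x
        · exact Or.inr h
        · left
          simpa [h] using hk
      refine (mk_le_mk_of_subset hsub).trans_lt ((mk_union_le _ _).trans_lt ?_)
      exact add_lt_of_lt hK.aleph0_le d.small (mk_Iio_lt x hord)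
    · simp [hz]
    · by_cases h : d.snd y = none
      · simp [hy, h]
      · simp [h]
  choose 𝔄 h𝔄D h𝔄pre h𝔄anti using hanti
  -- stages capturing the listed names
  have hstage : ∀ (x : K) (a : LevyIter (PM J) K), ∃ ξ : J, ∀ y : Set.Iio x,
      DecBelow ((a.snd y.1).getD fun _ => ∅) ξ := by
    intro x a
    obtain ⟨b, hb⟩ := exists_decBelow hK.aleph0_le hcof (mk_Iio_lt x hord).le
      fun y : Set.Iio x => (a.snd y.1).getD fun _ => ∅
    exact ⟨b, fun y => hb b le_rfl y⟩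
  choose st hst using hstage
  let c : K → ℕ → Set (LevyIter (PM J) K) := fun x n =>
    {d | ∃ a ∈ 𝔄 x, d ≤ a ∧ d.fst ∈ Ch (st x a) n}
  intro q0 _ hpol
  obtain ⟨q1, hq1, A, hA⟩ := mem_fex.1 (hpol c) q0 le_rfl
  obtain ⟨q2, hq2, B, hAsize, hBsize, hhom⟩ := mem_fex.1 hA q1 le_rfl
  -- the name `B` is the name of a set in the extension by `P`
  obtain ⟨s3, hs3, hs3D⟩ := iter_baire (Λ := ℕ) hK hunc pm_ccc (by simpa using hunc)
    (fun n => {e | e ∈ meets (B n) ∨ e ∈ fnot (meets (B n))})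
    (fun n => by
      rintro q (hq | hq) r hr
      · exact Or.inl (down_meets _ _ hq _ hr)
      · exact Or.inr (down_fnot _ _ hq _ hr))
    (fun n e => Forcing2.exists_decide (B n) e) ⟨q2.snd, q2.small⟩
  have he3 : mk q2.fst s3 ≤ q2 := mk_le (s := ⟨q2.snd, q2.small⟩) le_rfl hs3
  let x0 : ℕ → Set (PM J) := fun n => {b | mk b s3 ∈ meets (B n)}
  have hB1 : ∀ e ≤ mk q2.fst s3, ∀ n, e.fst ∈ meets (x0 n) → e ∈ meets (B n) := by
    intro e he n hn
    refine meets_of_dense fun e' he' => ?_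
    obtain ⟨r, hr, b, hb, hrb⟩ := down_meets _ _ hn e'.fst he'.1 e'.fst le_rfl
    refine ⟨low e' r, low_le e' hr, ?_⟩
    have h1 : low e' r ≤ mk b s3 := by
      have h2 : low e' r ≤ low (mk q2.fst s3) b := low_le_of_le (he'.trans he) hr hrb
      exact h2
    exact down_meets _ _ hb _ h1
  have hB2 : ∀ e ≤ mk q2.fst s3, ∀ n, e ∈ meets (B n) → e.fst ∈ meets (x0 n) := by
    intro e he n hn b hb
    obtain ⟨b', hb', h | h⟩ := hs3D n b
    · exact ⟨b', hb', b', h, le_rfl⟩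
    · exfalso
      have h1 : low e b' ≤ mk b' s3 := by
        have h2 : low e b' ≤ low (mk q2.fst s3) b' :=
          low_le_of_le he (hb'.trans hb) le_rfl
        exact h2
      exact h _ h1 (down_meets _ _ hn _ (low_le e (hb'.trans hb)))
  -- list this set at a new place
  obtain ⟨y0, hy0⟩ : ∃ y0 : K, s3.1 y0 = none := by
    by_contra hcon
    push Not at hcon
    have h1 : {k | s3.1 k ≠ none} = Set.univ := Set.eq_univ_of_forall hcon
    have h2 := s3.2
    rw [h1, mk_univ] at h2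
    exact lt_irrefl _ h2
  let s4 : TT (PM J) K := ⟨Function.update s3.1 y0 (some x0), by
    have hsub : {k | Function.update s3.1 y0 (some x0) k ≠ none} ⊆
        insert y0 {k | s3.1 k ≠ none} := by
      intro k hk
      by_cases h : k = y0
      · exact Or.inl h
      · right
        simpa [Function.update_of_ne h] using hk
    refine (mk_le_mk_of_subset hsub).trans_lt (mk_insert_le.trans_lt ?_)
    exact add_lt_of_lt hK.aleph0_le s3.2 (one_lt_aleph0.trans hunc)⟩
  have hs43 : s4 ≤ s3 := by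
    intro k x hx
    show Function.update s3.1 y0 (some x0) k = some x
    have : k ≠ y0 := by
      rintro rfl
      rw [hy0] at hx
      cases hx
    rw [Function.update_of_ne this, hx]
  have hs4y : s4.1 y0 = some x0 := Function.update_self _ _ _
  have he43 : mk q2.fst s4 ≤ mk q2.fst s3 := mk_le le_rfl hs43
  -- find `x > y0` forced into `A`
  have hZ : #(Set.Iic y0) < #K := by
    have h1 : Set.Iic y0 = insert y0 (Set.Iio y0) := by
      ext z; simp [le_iff_eq_or_lt]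
    rw [h1]
    exact (mk_insert_le).trans_lt (add_lt_of_lt hK.aleph0_le (mk_Iio_lt y0 hord)
      (one_lt_aleph0.trans hunc))
  obtain ⟨e5, he5, x, hx, hxA⟩ :=
    iter_mem_notMem hK hunc cond_ccc pm_ccc
      (down_HasFullSize _ _ hAsize _ (he43.trans he3)) _ hZ
  have hx : y0 < x := not_le.1 hx
  have he52 : e5 ≤ q2 := he5.trans (he43.trans he3)
  obtain ⟨e7, he7, h7⟩ := mem_for.1 hhom e5 he52
  obtain ⟨a, ha, e8, he8a, he87⟩ := h𝔄pre x e7
  have he85 : e8 ≤ e5 := he87.trans he7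
  have he83 : e8 ≤ mk q2.fst s3 := he85.trans (he5.trans he43)
  -- the name listed at `y0`
  obtain ⟨z, hz⟩ := Option.ne_none_iff_exists'.1 (h𝔄D x ha y0 hx)
  have hzx0 : e8.fst ∈ SameSet z x0 := by
    obtain ⟨z', hz', h1⟩ := he8a.2 y0 z hz
    obtain ⟨z'', hz'', h2⟩ := (he85.trans he5).2 y0 x0 hs4y
    rw [hz'] at hz''
    obtain rfl : z' = z'' := Option.some.inj hz''
    exact mem_sameSet.2 fun j q hq =>
      (mem_sameSet.1 h1 j q hq).trans (mem_sameSet.1 h2 j q hq).symm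
  have hdec : DecBelow z (st x a) := by
    have := hst x a ⟨y0, hx⟩
    rw [hz] at this
    exact this
  have hinf : e8.fst ∈ InfSet z := by
    intro N
    refine mem_fex.2 fun b hb => ?_
    have h1 : low e8 b ∈ HasFullSize B :=
      down_HasFullSize _ _ hBsize _ ((low_le e8 hb).trans (he83.trans he3))
    obtain ⟨r, hr, n, hn, hrn⟩ := exists_mem_ge h1 N
    have h2 : r.fst ≤ b := hr.1
    refine ⟨r.fst, h2, n, hn, ?_⟩
    refine (mem_sameSet.1 hzx0 n r.fst (h2.trans hb)).2 ?_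
    exact hB2 r (hr.trans ((low_le e8 hb).trans he83)) n hrn
  -- the two cases
  have hkey : ∀ i : ℕ, ∃ k, ∃ e9 ≤ e8, e9 ∈ meets (A x) ∧ e9 ∈ meets (B k) ∧
      k < (e9.fst.1.st (st x a : WithTop J)).length ∧
      (Nat.unpair ((e9.fst.1.st (st x a : WithTop J)).getD k 0)).2 = i := by
    intro i
    obtain ⟨k, _, t, ht, h1, h2, h3⟩ := cohen_hits hdec hinf 0 i
    refine ⟨k, low e8 t, low_le e8 ht, ?_, ?_, h2, h3⟩
    · exact down_meets _ _ hxA _ ((low_le e8 ht).trans he85)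
    · refine hB1 _ ((low_le e8 ht).trans he83) k ?_
      exact (mem_sameSet.1 hzx0 k t ht).1 h1
  rcases h7 with h7 | h7
  · obtain ⟨k, e9, he9, h1, h2, h3, h4⟩ := hkey 0
    obtain ⟨e10, he10, h5⟩ := mem_fimp.1 (h7 x k) e9 (he9.trans he87) ⟨h1, h2⟩
    obtain ⟨e11, he11, d', ⟨a', ha', hd'a, hd'C⟩, hle⟩ := h5 e10 le_rfl
    have haa : a' = a := h𝔄anti x a' ha' a ha
      ⟨e11, hle.trans hd'a, he11.trans (he10.trans (he9.trans he8a))⟩
    subst haa
    have h6 : e11.fst ∈ Ch (st x a') k := down_Ch _ _ _ hd'C _ hle.1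
    exact not_Ch (by norm_num) h3 h4 e11.fst (he11.trans he10).1 (meets_of_mem h6)
  · obtain ⟨k, e9, he9, h1, h2, h3, h4⟩ := hkey 1
    obtain ⟨e10, he10, h5⟩ := mem_fimp.1 (h7 x k) e9 (he9.trans he87) ⟨h1, h2⟩
    refine h5 e10 le_rfl (meets_of_le (s := e9) ?_ he10)
    exact ⟨a, ha, he9.trans he8a, h3, h4⟩

end Pool.Agent.Helper669.Two
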