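import Mathlib
import Pool.Agent.Helper669.KHuge

set_option autoImplicit false

/-!
# Huge cardinals and an iterated collapse: definitions
-/

namespace Pool.Agent.Helper669.U

open Cardinal Pool.Agent.Helper669.Forcing Pool.Agent.Helper669.K

section

variable {P : Type} [Preorder P]

/-- Every cardinal below `κ` has cardinality at most `μ` in the extension: some partial function
from `μ` is onto it. -/
def CollapsedTo (P : Type) [Preorder P] (μ κ : Cardinal.{0}) : Set P :=
  fall fun ν : Cardinal.{0} => fall fun _ : ν < κ =>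
    fex fun R : μ.ord.ToType → ν.out → Set P =>
      fand (fall fun x => fall fun y => fall fun y' =>
        fimp (fand (meets (R x y)) (meets (R x y'))) (fground (y = y'))) (IsOnto R)

/-- The named subset `S` of `X` is countably infinite: it is the range of a one-to-one function
from `ℕ` to `X`. -/
def IsDenum {X : Type} (S : X → Set P) : Set P :=
  fex fun f : ℕ → X → Set P => fand (IsFun f) (fand (IsInj f)
    (fall fun y => fand (fimp (meets (S y)) (fex fun n => meets (f n y)))
      (fall fun n => fimp (meets (f n y)) (meets (S y)))))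

/-- `c` names a function which assigns to every countably infinite subset of `X` an element
of `K`. -/
def IsDenumColouring {X K : Type} (c : (X → Set P) → K → Set P) : Set P :=
  fall fun S => fimp (IsDenum S)
    (fand (fex fun a => meets (c S a))
      (fand
        (fall fun a => fall fun b =>
          fimp (fand (meets (c S a)) (meets (c S b))) (fground (a = b)))
        (fall fun T => fimp (fand (Sub S T) (Sub T S))
          (fall fun a => fimp (meets (c S a)) (meets (c T a))))))

/-- The square bracket relation `|M| → [|K|]^{ℵ₀}_{|K|}`: for every function `c` from the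
countably infinite subsets of `M` to `K` there are `X ⊆ M` with `|X| = |K|` and `a ∈ K` such that
`c` does not take the value `a` on the countably infinite subsets of `X`. -/
def SquareBracket (P : Type) [Preorder P] (K M : Type) : Set P :=
  fall fun c : (M → Set P) → K → Set P => fimp (IsDenumColouring c)
    (fex fun X : M → Set P => fand (SameSize (K := K) X) (fex fun a : K =>
      fall fun S : M → Set P => fimp (fand (IsDenum S) (Sub S X)) (fnot (meets (c S a)))))

end

section

variable {M : Type}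

/-- A partial function from `M × M` to the subsets of `M × M`, with domain `D`. -/
structure Sl (M : Type) where
  D : Set (M × M)
  E : Set ((M × M) × (M × M))
  sub : ∀ t s, (t, s) ∈ E → t ∈ D

theorem Sl.ext' {q q' : Sl M} (h : q.D = q'.D) (h' : q.E = q'.E) : q = q' := by
  cases q; cases q'; simp only [Sl.mk.injEq]; exact ⟨h, h'⟩

/-- `q'` extends `q` -/
def Sl.Ext (q' q : Sl M) : Prop := q.D ⊆ q'.D ∧ ∀ t ∈ q.D, ∀ s, (t, s) ∈ q'.E ↔ (t, s) ∈ q.E

/-- `q` and `q'` agree on the intersection of the domains -/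
def Sl.Comp (q q' : Sl M) : Prop := ∀ t ∈ q.D, t ∈ q'.D → ∀ s, (t, s) ∈ q.E ↔ (t, s) ∈ q'.E

theorem Sl.Ext.refl (q : Sl M) : q.Ext q := ⟨subset_rfl, fun _ _ _ => Iff.rfl⟩

theorem Sl.Ext.trans {a b c : Sl M} (h : a.Ext b) (h' : b.Ext c) : a.Ext c :=
  ⟨h'.1.trans h.1, fun t ht s => (h.2 t (h'.1 ht) s).trans (h'.2 t ht s)⟩

end

section

variable {M : Type} [LinearOrder M]

/-- The data extracted from a huge cardinal: `M` is (the target) with its well-order, `k` is the
`κ`-th element of `M`, `U` is the normal ultrafilter and `π X` enumerates `X` in order. -/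
structure HS (M : Type) [LinearOrder M] (k : M) (κ : Cardinal.{0}) (U : Ultrafilter (Set M))
    (π : Set M → M → M) : Prop where
  wf : WellFoundedLT M
  unc : ℵ₁ < κ
  reg : κ.IsRegular
  strong : ∀ μ < κ, 2 ^ μ < κ
  mk_k : #(Set.Iio k) = κ
  mk_lt : ∀ a < k, #(Set.Iio a) < κ
  comp : ∀ (ι : Type), #ι < κ → ∀ A : ι → Set (Set M), (∀ i, A i ∈ U) →
    {X : Set M | ∀ i, X ∈ A i} ∈ U
  fine : ∀ a : M, {X : Set M | a ∈ X} ∈ U
  norm : ∀ A : M → Set (Set M), (∀ a, A a ∈ U) → {X : Set M | ∀ a ∈ X, X ∈ A a} ∈ U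
  mono : {X : Set M | StrictMonoOn (π X) (Set.Iio k) ∧ π X '' Set.Iio k = X} ∈ U

/-- The set of the elements below `α` has regular uncountable size, and `α` is an initial
ordinal. -/
def Good (α : M) : Prop :=
  ℵ₀ < #(Set.Iio α) ∧ (∀ b < α, #(Set.Iio b) < #(Set.Iio α)) ∧
    ∀ C : Set M, C ⊆ Set.Iio α → #C < #(Set.Iio α) → ∃ γ < α, ∀ c ∈ C, c < γ

/-- `α` is the intersection of `X` with `k`, and it is mapped to `k` by the enumeration of `X` -/
structure IsAl (k : M) (π : Set M → M → M) (X : Set M) (α : M) : Prop where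
  mono : StrictMonoOn (π X) (Set.Iio k)
  img : π X '' Set.Iio k = X
  lt : α < k
  seg : X ∩ Set.Iio k = Set.Iio α
  fix : ∀ b < α, π X b = b
  top : π X α = k
  good : Good α

/-- a condition of the collapse of the elements of `T` to `α` -/
structure IsSil (α : M) (T : Set M) (q : Sl M) : Prop where
  card : #q.D ≤ #(Set.Iio α)
  ht : ∃ γ < α, ∀ t ∈ q.D, t.2 < γ
  dom : ∀ t ∈ q.D, α ≤ t.1 ∧ t.1 ∈ T
  val : ∀ t s, (t, s) ∈ q.E → s.1 < α ∧ s.2 < t.1

/-- the first forcing: a product with countable supports -/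
structure PC (M : Type) [LinearOrder M] (k : M) where
  f : M → Sl M
  cnt : {α | (f α).D.Nonempty}.Countable
  ok : ∀ α, (f α).D.Nonempty → α < k ∧ Good α ∧ IsSil α (Set.Iio k) (f α)

instance (k : M) : Preorder (PC M k) where
  le p' p := ∀ α, (p'.f α).Ext (p.f α)
  le_refl _ _ := Sl.Ext.refl _
  le_trans _ _ _ h h' α := (h α).trans (h' α)

/-- the collapse of all elements of `M` to `k` -/
structure SC (M : Type) [LinearOrder M] (k : M) where
  q : Sl M
  ok : IsSil k Set.univ q

/-- the name of a subset of `M` which `q` has as its value at `t` -/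
def nm {k : M} (cP : PC M k → M) (q : Sl M) (t : M × M) (η : M) : Set (PC M k) :=
  {p | ∃ b, p ≤ b ∧ (t, (cP b, η)) ∈ q.E}

/-- the iteration -/
structure RC (M : Type) [LinearOrder M] (k : M) (cP : PC M k → M) where
  p : PC M k
  q : SC M k

instance (k : M) (cP : PC M k → M) : Preorder (RC M k cP) where
  le r' r := r'.p ≤ r.p ∧ ∀ t ∈ r.q.q.D, t ∈ r'.q.q.D ∧ ∀ η, ∀ p ≤ r'.p,
    p ∈ meets (nm cP r'.q.q t η) ↔ p ∈ meets (nm cP r.q.q t η)
  le_refl _ := ⟨le_rfl, fun _ ht => ⟨ht, fun _ _ _ => Iff.rfl⟩⟩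
  le_trans a b c h h' := ⟨h.1.trans h'.1, fun t ht => ⟨(h.2 t (h'.2 t ht).1).1, fun η p hp =>
    ((h.2 t (h'.2 t ht).1).2 η p hp).trans ((h'.2 t ht).2 η p (hp.trans h.1))⟩⟩

/-- the part of `q` seen by `X`, moved to `k` -/
def pull (k : M) (π : M → M) (q : Sl M) : Sl M where
  D := {t | t.1 < k ∧ t.2 < k ∧ (π t.1, π t.2) ∈ q.D}
  E := {u | u.1.1 < k ∧ u.1.2 < k ∧ u.2.1 < k ∧ u.2.2 < k ∧
    ((π u.1.1, π u.1.2), (π u.2.1, π u.2.2)) ∈ q.E}
  sub := fun _ _ h => ⟨h.1, h.2.1, q.sub _ _ h.2.2.2.2⟩

/-- all coordinates of `p` are below `b` -/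
def Bdd {k : M} (p : PC M k) (b : M) : Prop := ∀ β, ∀ t ∈ (p.f β).D, β < b ∧ t.1 < b

end


end Pool.Agent.Helper669.U
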