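import Mathlib
import Pool.Agent.Helper669.UDefs

set_option autoImplicit false

/-!
# Huge cardinals: properties of the normal ultrafilter
-/

namespace Pool.Agent.Helper669.U

open Cardinal Pool.Agent.Helper669.Forcing Pool.Agent.Helper669.K

theorem IsHuge.hs {κ m : Cardinal.{0}} (h : IsHuge κ m) :
    ∃ (k : m.ord.ToType) (U : Ultrafilter (Set m.ord.ToType))
      (π : Set m.ord.ToType → m.ord.ToType → m.ord.ToType), HS m.ord.ToType k κ U π := by
  classical
  obtain ⟨hreg, hstr⟩ := h.regular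
  obtain ⟨hκ, hlt, U, hcomp, hfine, hnorm, htype⟩ := h
  have hord : κ.ord < m.ord := Cardinal.ord_lt_ord.2 hlt
  let F := Ordinal.principalSegToType hord
  let k : m.ord.ToType := F.top
  have htk : Ordinal.type (fun a b : Set.Iio k => a < b) = κ.ord := by
    have h1 := Ordinal.typein_top F
    rw [Ordinal.type_toType] at h1
    exact h1
  have hmkk : #(Set.Iio k) = κ := by
    have := congrArg Ordinal.card htk
    rw [Ordinal.card_type, Cardinal.card_ord] at this
    exact this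
  have hmklt : ∀ a < k, #(Set.Iio a) < κ := by
    intro a ha
    have h1 : Ordinal.typein (α := m.ord.ToType) (· < ·) a <
        Ordinal.typein (α := m.ord.ToType) (· < ·) k :=
      (Ordinal.typein_lt_typein (α := m.ord.ToType) (· < ·)).2 ha
    have h2 : Ordinal.typein (α := m.ord.ToType) (· < ·) k = κ.ord := htk
    rw [h2, Cardinal.lt_ord] at h1
    exact h1
  have hex : ∀ X : Set m.ord.ToType, ∃ f : m.ord.ToType → m.ord.ToType,
      Ordinal.type (fun a b : X => a < b) = κ.ord →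
        StrictMonoOn f (Set.Iio k) ∧ f '' Set.Iio k = X := by
    intro X
    by_cases hX : Ordinal.type (fun a b : X => a < b) = κ.ord
    · obtain ⟨e⟩ := Ordinal.type_eq.1 (htk.trans hX.symm)
      refine ⟨fun a => if ha : a ∈ Set.Iio k then (e ⟨a, ha⟩ : X).1 else a, fun _ => ⟨?_, ?_⟩⟩
      · intro a ha b hb hab
        simp only [ha, hb, dite_true]
        have := e.map_rel_iff (a := ⟨a, ha⟩) (b := ⟨b, hb⟩)
        exact this.2 hab
      · ext x
        constructor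
        · rintro ⟨a, ha, rfl⟩
          simp only [ha, dite_true]
          exact (e ⟨a, ha⟩).2
        · intro hx
          refine ⟨(e.symm ⟨x, hx⟩).1, (e.symm ⟨x, hx⟩).2, ?_⟩
          have h3 : (e.symm ⟨x, hx⟩).1 ∈ Set.Iio k := (e.symm ⟨x, hx⟩).2
          simp only [h3, dite_true]
          simp
    · exact ⟨id, fun h => absurd h hX⟩
  choose π hπ using hex
  refine ⟨k, U, π, ?_⟩
  constructor
  · infer_instance
  · have h1 : (2 : Cardinal.{0}) ^ ℵ₀ < κ := hstr _ hκ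
    refine lt_of_le_of_lt ?_ h1
    exact Cardinal.aleph_one_le_continuum.trans_eq Cardinal.two_power_aleph0.symm
  · exact hreg
  · exact hstr
  · exact hmkk
  · exact hmklt
  · intro ι hι A hA
    have e : ι ≃ (#ι).out := Cardinal.outMkEquiv.symm
    have h1 := hcomp (#ι) hι (fun i => A (e.symm i)) (fun i => hA _)
    have h2 : (⋂ i, A (e.symm i)) = {X : Set m.ord.ToType | ∀ i, X ∈ A i} := by
      ext X
      simp only [Set.mem_iInter, Set.mem_ofPred_eq]
      constructor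
      · intro h i
        have := h (e i)
        rwa [e.symm_apply_apply] at this
      · intro h i
        exact h _
    rwa [h2] at h1
  · exact hfine
  · exact hnorm
  · exact Filter.mem_of_superset htype fun X hX => hπ X hX

section

variable {M : Type} [LinearOrder M] {k : M} {κ : Cardinal.{0}} {U : Ultrafilter (Set M)}
  {π : Set M → M → M}

theorem HS.norm'_const (h : HS M k κ U π) (f : Set M → M) (hf : {X : Set M | f X ∈ X} ∈ U) :
    ∃ c, {X : Set M | f X = c} ∈ U := by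
  by_contra hcon
  push Not at hcon
  have h1 : ∀ c, {X : Set M | f X ≠ c} ∈ U := by
    intro c
    exact Ultrafilter.compl_mem_iff_notMem.2 (hcon c)
  have h2 := h.norm (fun a => {X : Set M | f X ≠ a}) h1
  obtain ⟨X, hX1, hX2⟩ := Ultrafilter.nonempty_of_mem (Filter.inter_mem h2 hf)
  exact hX1 (f X) hX2 rfl

/-- normality for families of fewer than `κ` elements -/
theorem HS.norm' (h : HS M k κ U π) {ι : Type} (hι : #ι < κ) (Φ : Set M → (ι → M) → Prop)
    (hΦ : ∀ x, {X | Φ X x} ∈ U) : {X : Set M | ∀ x : ι → M, (∀ i, x i ∈ X) → Φ X x} ∈ U := by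
  classical
  by_contra hcon
  have hS := Ultrafilter.compl_mem_iff_notMem.2 hcon
  have hw : ∀ X : Set M, ∃ g : ι → M, X ∈ {X : Set M | ∀ x : ι → M, (∀ i, x i ∈ X) → Φ X x}ᶜ →
      (∀ i, g i ∈ X) ∧ ¬ Φ X g := by
    intro X
    by_cases hX : ∃ g : ι → M, (∀ i, g i ∈ X) ∧ ¬ Φ X g
    · obtain ⟨g, hg⟩ := hX
      exact ⟨g, fun _ => hg⟩
    · refine ⟨fun _ => k, fun hX' => ?_⟩
      exfalso
      apply hX'
      intro x hx
      by_contra hx'
      exact hX ⟨x, hx, hx'⟩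
  choose g hg using hw
  have hc : ∀ i, ∃ c, {X : Set M | g X i = c} ∈ U := by
    intro i
    apply h.norm'_const (fun X => g X i)
    exact Filter.mem_of_superset hS (fun X hX => (hg X hX).1 i)
  choose c hc using hc
  have h1 := h.comp ι hι (fun i => {X : Set M | g X i = c i}) hc
  obtain ⟨X, ⟨hX1, hX2⟩, hX3⟩ := Ultrafilter.nonempty_of_mem
    (Filter.inter_mem (Filter.inter_mem h1 hS) (hΦ c))
  have h2 : g X = c := funext hX1
  apply (hg X hX2).2
  rw [h2]
  exact hX3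

theorem HS.isAl' (h : HS M k κ U π) :
    {X : Set M | ∃ α < k, X ∩ Set.Iio k = Set.Iio α ∧ (∀ b < α, π X b = b) ∧ π X α = k} ∈ U := by
  have := h.wf
  have h1 : {X : Set M | ∀ b ∈ X, X ∈ {Y : Set M | b < k → ∀ c < b, c ∈ Y}} ∈ U := by
    refine h.norm (fun b => {Y : Set M | b < k → ∀ c < b, c ∈ Y}) fun b => ?_
    by_cases hb : b < k
    · have := h.comp (Set.Iio b) (h.mk_lt b hb) (fun c => {X : Set M | c.1 ∈ X})
        (fun c => h.fine c.1)
      refine U.mem_of_superset this fun X hX => ?_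
      intro _ c hc
      exact hX ⟨c, hc⟩
    · refine U.mem_of_superset U.univ_mem fun X _ => ?_
      intro hb'
      exact absurd hb' hb
  have h2 := h.fine k
  refine U.mem_of_superset (U.inter_mem (U.inter_mem h1 h2) h.mono) ?_
  rintro X ⟨⟨hX1, hX2⟩, hX3, hX4⟩
  have hX1' : ∀ b ∈ X, b < k → ∀ c < b, c ∈ X := hX1
  have himg : ∀ x ∈ X, ∃ c, c ∈ Set.Iio k ∧ π X c = x := by
    intro x hx
    have : x ∈ π X '' Set.Iio k := by rw [hX4]; exact hx
    exact this
  obtain ⟨α, hα, hαk⟩ := himg k hX2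
  have hα' : α < k := hα
  have hlt : ∀ b < α, π X b < k := by
    intro b hb
    rw [← hαk]
    exact hX3 (hb.trans hα') hα hb
  have hmem : ∀ b < k, π X b ∈ X := by
    intro b hb
    have : π X b ∈ π X '' Set.Iio k := ⟨b, hb, rfl⟩
    rwa [hX4] at this
  have hfix : ∀ b < α, π X b = b := by
    intro b
    induction b using WellFoundedLT.induction with
    | ind b ih =>
      intro hb
      rcases lt_trichotomy (π X b) b with hlt' | heq | hgt
      · -- `π b < b` contradicts the induction hypothesis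
        have h3 := ih (π X b) hlt' (hlt'.trans hb)
        have h4 : π X (π X b) < π X b := hX3 ((hlt'.trans hb).trans hα') (hb.trans hα') hlt'
        rw [h3] at h4
        exact absurd h4 (lt_irrefl _)
      · exact heq
      · have h5 : b ∈ X := hX1' _ (hmem b (hb.trans hα')) (hlt b hb) b hgt
        obtain ⟨c, hc, hcb⟩ := himg b h5
        have hcb' : c < b := by
          by_contra hcon
          rcases (not_lt.1 hcon).eq_or_lt with h6 | h6
          · rw [← h6] at hcb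
            exact absurd hcb hgt.ne'
          · have h7 : π X b < π X c := hX3 (hb.trans hα') hc h6
            rw [hcb] at h7
            exact absurd (hgt.trans h7) (lt_irrefl _)
        have h8 := ih c hcb' (hcb'.trans hb)
        rw [h8] at hcb
        exact absurd hcb hcb'.ne
  refine ⟨α, hα', ?_, hfix, hαk⟩
  ext x
  constructor
  · rintro ⟨hx1, hx2⟩
    obtain ⟨c, hc, hcx⟩ := himg x hx1
    have hcα : c < α := by
      by_contra hcon
      rcases (not_lt.1 hcon).eq_or_lt with h6 | h6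
      · rw [← h6, hαk] at hcx
        rw [← hcx] at hx2
        exact absurd hx2 (by simp)
      · have h7 : π X α < π X c := hX3 hα hc h6
        rw [hαk, hcx] at h7
        exact absurd (lt_trans h7 hx2) (lt_irrefl _)
    rw [← hcx, hfix c hcα]
    exact hcα
  · intro hx
    have hx' : x < α := hx
    refine ⟨?_, hx'.trans hα'⟩
    rw [← hfix x hx']
    exact hmem x (hx'.trans hα')

theorem hg_exists [WellFoundedLT M] (a : M) (μ : Cardinal.{0}) (h : μ < #(Set.Iio a)) :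
    ∃ b < a, #(Set.Iio b) = μ := by
  have ha : (Ordinal.typein (· < · : M → M → Prop) a).card = #(Set.Iio a) := rfl
  have h1 : μ.ord < Ordinal.typein (· < · : M → M → Prop) a := by
    by_contra hc
    have h2 := Ordinal.card_le_card (not_lt.1 hc)
    rw [Cardinal.card_ord, ha] at h2
    exact absurd h (not_lt.2 h2)
  obtain ⟨b, hb⟩ := Ordinal.typein_surj (· < · : M → M → Prop)
    (h1.trans (Ordinal.typein_lt_type _ a))
  refine ⟨b, ?_, ?_⟩
  · rw [← hb] at h1
    exact (Ordinal.typein_lt_typein _).1 h1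
  · have hb' : (Ordinal.typein (· < · : M → M → Prop) b).card = #(Set.Iio b) := rfl
    rw [← hb', hb, Cardinal.card_ord]

theorem hg_bdd (h : HS M k κ U π) {ι : Type} (hι : #ι < κ) (x : ι → M) (hx : ∀ i, x i < k) :
    ∃ γ < k, ∀ i, x i < γ := by
  by_contra hc
  push Not at hc
  have h1 : Set.Iio k ⊆ ⋃ i, Set.Iic (x i) := by
    intro γ hγ
    obtain ⟨i, hi⟩ := hc γ hγ
    exact Set.mem_iUnion.2 ⟨i, hi⟩
  have h2 : #(⋃ i, Set.Iic (x i)) < κ := by
    rw [Cardinal.card_iUnion_lt_iff_forall_of_isRegular h.reg hι]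
    intro i
    have : Set.Iic (x i) = insert (x i) (Set.Iio (x i)) := (Set.Iio_insert (a := x i)).symm
    rw [this]
    exact (Cardinal.mk_insert_le).trans_lt (Cardinal.add_lt_of_lt h.reg.aleph0_le
      (h.mk_lt _ (hx i)) (Cardinal.one_lt_aleph0.trans_le h.reg.aleph0_le))
  have h3 := (Cardinal.mk_le_mk_of_subset h1).trans_lt h2
  rw [h.mk_k] at h3
  exact lt_irrefl _ h3


theorem HS.good (h : HS M k κ U π) :
    {X : Set M | ∀ α < k, X ∩ Set.Iio k = Set.Iio α → Good α} ∈ U := by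
  have hwf := h.wf
  obtain ⟨b₁, hb₁k, hb₁⟩ := hg_exists k ℵ₁ (by rw [h.mk_k]; exact h.unc)
  have P1 := h.fine b₁
  have P2 := h.norm (fun b => {X | b < k → ∀ α < k, X ∩ Set.Iio k = Set.Iio α →
      #(Set.Iio b) < #(Set.Iio α)}) (by
    intro b
    by_cases hb : b < k
    · obtain ⟨b₂, hb₂k, hb₂⟩ := hg_exists k (2 ^ #(Set.Iio b))
        (by rw [h.mk_k]; exact h.strong _ (h.mk_lt b hb))
      refine Filter.mem_of_superset (h.fine b₂) ?_
      intro X hX _ α hα hXα
      have h4 : b₂ ∈ Set.Iio α := by rw [← hXα]; exact ⟨hX, hb₂k⟩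
      calc #(Set.Iio b) < 2 ^ #(Set.Iio b) := Cardinal.cantor _
        _ = #(Set.Iio b₂) := hb₂.symm
        _ ≤ #(Set.Iio α) := Cardinal.mk_le_mk_of_subset (Set.Iio_subset_Iio (le_of_lt h4))
    · exact Filter.mem_of_superset Filter.univ_mem (fun X _ hbk => absurd hbk hb))
  have P3 := h.norm (fun b => {X | b < k → ∀ x : Set.Iio b → M, (∀ i, x i ∈ X) →
      (∀ i, x i < k) → ∀ α < k, X ∩ Set.Iio k = Set.Iio α → ∃ γ < α, ∀ i, x i < γ}) (by
    intro b
    by_cases hb : b < k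
    · have h5 := h.norm' (h.mk_lt b hb) (fun X x => (∀ i, x i < k) → ∀ α < k,
          X ∩ Set.Iio k = Set.Iio α → ∃ γ < α, ∀ i, x i < γ) (by
        intro x
        by_cases hx : ∀ i, x i < k
        · obtain ⟨γ, hγ, hγ'⟩ := hg_bdd h (h.mk_lt b hb) x hx
          refine Filter.mem_of_superset (h.fine γ) ?_
          intro X hX _ α hα hXα
          have h4 : γ ∈ Set.Iio α := by rw [← hXα]; exact ⟨hX, hγ⟩
          exact ⟨γ, h4, hγ'⟩
        · exact Filter.mem_of_superset Filter.univ_mem (fun X _ hbk => absurd hbk hx))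
      exact Filter.mem_of_superset h5 (fun X hX _ => hX)
    · exact Filter.mem_of_superset Filter.univ_mem (fun X _ hbk => absurd hbk hb))
  refine Filter.mem_of_superset (Filter.inter_mem P1 (Filter.inter_mem P2 P3)) ?_
  rintro X ⟨h1, h2, h3⟩ α hα hXα
  have hmem : ∀ c ∈ Set.Iio α, c ∈ X ∧ c < k := by
    intro c hc
    rw [← hXα] at hc
    exact ⟨hc.1, hc.2⟩
  refine ⟨?_, ?_, ?_⟩
  · have h4 : b₁ ∈ Set.Iio α := by rw [← hXα]; exact ⟨h1, hb₁k⟩
    calc ℵ₀ < ℵ₁ := Cardinal.aleph0_lt_aleph_one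
      _ = #(Set.Iio b₁) := hb₁.symm
      _ ≤ #(Set.Iio α) := Cardinal.mk_le_mk_of_subset (Set.Iio_subset_Iio (le_of_lt h4))
  · intro b hb
    obtain ⟨hbX, hbk⟩ := hmem b hb
    exact h2 b hbX hbk α hα hXα
  · intro C hC hcard
    obtain ⟨b, hbα, hb⟩ := hg_exists α (#C) hcard
    obtain ⟨hbX, hbk⟩ := hmem b hbα
    obtain ⟨e⟩ := Cardinal.eq.1 hb
    obtain ⟨γ, hγ, hγ'⟩ := h3 b hbX hbk (fun i => (e i : M)) (fun i => (hmem _ (hC (e i).2)).1)
      (fun i => (hmem _ (hC (e i).2)).2) α hα hXα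
    refine ⟨γ, hγ, fun c hc => ?_⟩
    have h6 := hγ' (e.symm ⟨c, hc⟩)
    simpa using h6


theorem HS.isAl (h : HS M k κ U π) : {X : Set M | ∃ α, IsAl k π X α} ∈ U := by
  filter_upwards [h.isAl', h.good, h.mono] with X h1 h2 h3
  obtain ⟨α, hα, h4, h5, h6⟩ := h1
  exact ⟨α, ⟨h3.1, h3.2, hα, h4, h5, h6, h2 α hα h4⟩⟩

theorem HStarget_seg [WellFoundedLT M] (μ : Cardinal.{0}) (h : μ < #M) :
    ∃ d : M, #(Set.Iio d) = μ := by
  have h1 : μ.ord < Ordinal.type (α := M) (· < ·) :=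
    lt_of_lt_of_le (Cardinal.ord_lt_ord.mpr h) (Cardinal.ord_le_type _)
  obtain ⟨d, hd⟩ := Ordinal.typein_surj (α := M) (· < ·) h1
  refine ⟨d, ?_⟩
  have h2 := congrArg Ordinal.card hd
  rw [Ordinal.card_typein, Cardinal.card_ord] at h2
  exact h2

theorem HStarget_ord [WellFoundedLT M] (hM : ∀ a : M, #(Set.Iio a) < #M) :
    (#M).ord = Ordinal.type (α := M) (· < ·) := by
  refine le_antisymm (Cardinal.ord_le_type _) ?_
  by_contra hcon
  push Not at hcon
  obtain ⟨d, hd⟩ := Ordinal.typein_surj (α := M) (· < ·) hcon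
  have h2 := congrArg Ordinal.card hd
  rw [Ordinal.card_typein, Cardinal.card_ord] at h2
  exact absurd (hM d) (not_lt.mpr (le_of_eq h2.symm))

theorem HStarget_cl1 (h : HS M k κ U π) (f : M → M) : {X : Set M | ∀ a ∈ X, f a ∈ X} ∈ U := by
  have h1 := h.norm' (ι := Unit) (Cardinal.mk_lt_aleph0.trans_le h.reg.aleph0_le)
    (fun X x => f (x ()) ∈ X) (fun x => h.fine _)
  exact Filter.mem_of_superset h1 (fun X hX a ha => hX (fun _ => a) (fun _ => ha))

theorem HStarget_cl2 (h : HS M k κ U π) (f : M → M → M) :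
    {X : Set M | ∀ a ∈ X, ∀ b ∈ X, f a b ∈ X} ∈ U := by
  have h1 := h.norm' (ι := Bool) (Cardinal.mk_lt_aleph0.trans_le h.reg.aleph0_le)
    (fun X x => f (x true) (x false) ∈ X) (fun x => h.fine _)
  refine Filter.mem_of_superset h1 (fun X hX a ha b hb => ?_)
  exact hX (fun i => if i = true then a else b) (fun i => by
    cases i
    · simpa using hb
    · simpa using ha)

theorem HStarget_card (h : HS M k κ U π) {X : Set M} (hm : StrictMonoOn (π X) (Set.Iio k))
    (hi : π X '' Set.Iio k = X) : #X = κ := by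
  have h1 := Cardinal.mk_image_eq_of_injOn (π X) (Set.Iio k) hm.injOn
  rw [hi, h.mk_k] at h1
  exact h1

theorem HStarget_small (h : HS M k κ U π) {X : Set M} (hm : StrictMonoOn (π X) (Set.Iio k))
    (hi : π X '' Set.Iio k = X) {d : M} (hd : d ∈ X) : #(X ∩ Set.Iio d : Set M) < κ := by
  rw [← hi] at hd
  obtain ⟨c, hc, rfl⟩ := hd
  have hsub : X ∩ Set.Iio (π X c) ⊆ π X '' Set.Iio c := by
    rintro y ⟨hy1, hy2⟩
    rw [← hi] at hy1
    obtain ⟨b, hb, rfl⟩ := hy1
    refine ⟨b, ?_, rfl⟩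
    exact (hm.lt_iff_lt hb hc).mp hy2
  exact lt_of_le_of_lt ((Cardinal.mk_le_mk_of_subset hsub).trans Cardinal.mk_image_le)
    (h.mk_lt c hc)

theorem HStarget_strong (h : HS M k κ U π) (μ : Cardinal.{0}) (hμ : μ < #M) : 2 ^ μ < #M := by
  have hwf := h.wf
  by_contra hcon
  push Not at hcon
  obtain ⟨d, hd⟩ := HStarget_seg μ hμ
  rw [← hd, ← Cardinal.mk_set] at hcon
  obtain ⟨g⟩ : Nonempty (M ↪ Set (Set.Iio d)) := hcon
  have hw0 : ∀ a b : M, ∃ w : M, a ≠ b →
      ∃ hw : w ∈ Set.Iio d, ¬ ((⟨w, hw⟩ : Set.Iio d) ∈ g a ↔ (⟨w, hw⟩ : Set.Iio d) ∈ g b) := by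
    intro a b
    by_cases hab : a = b
    · exact ⟨a, fun hne => absurd hab hne⟩
    · have h1 : g a ≠ g b := fun e => hab (g.injective e)
      have h2 : ∃ y, ¬ (y ∈ g a ↔ y ∈ g b) := by
        by_contra hall
        push Not at hall
        exact h1 (Set.ext hall)
      obtain ⟨y, hy⟩ := h2
      exact ⟨y.1, fun _ => ⟨y.2, hy⟩⟩
  choose w hw using hw0
  have hU : ({X : Set M | ∀ a ∈ X, ∀ b ∈ X, w a b ∈ X} ∩ {X : Set M | d ∈ X} ∩
      {X : Set M | StrictMonoOn (π X) (Set.Iio k) ∧ π X '' Set.Iio k = X}) ∈ U :=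
    Filter.inter_mem (Filter.inter_mem (HStarget_cl2 h w) (h.fine d)) h.mono
  obtain ⟨X, ⟨hX1, hX2⟩, hX3, hX4⟩ := U.nonempty_of_mem hU
  have h1 := HStarget_card h hX3 hX4
  have h2 := HStarget_small h hX3 hX4 hX2
  have h3 : #X ≤ #(Set (X ∩ Set.Iio d : Set M)) := by
    refine ⟨⟨fun x => {y | (⟨y.1, y.2.2⟩ : Set.Iio d) ∈ g x.1}, ?_⟩⟩
    intro x x' hxx'
    by_contra hne
    have hne' : x.1 ≠ x'.1 := fun e => hne (Subtype.ext e)
    obtain ⟨hwd, hwn⟩ := hw x.1 x'.1 hne'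
    have hwX : w x.1 x'.1 ∈ X := hX1 _ x.2 _ x'.2
    apply hwn
    have h4 := Set.ext_iff.mp hxx' ⟨w x.1 x'.1, hwX, hwd⟩
    exact h4
  rw [Cardinal.mk_set, h1] at h3
  exact absurd (h.strong _ h2) (not_lt.mpr h3)

theorem HStarget_reg (h : HS M k κ U π) (hM : ∀ a : M, #(Set.Iio a) < #M) :
    (#M).IsRegular := by
  have hwf := h.wf
  have hκM : κ ≤ #M := by
    rw [← h.mk_k]
    exact Cardinal.mk_set_le _
  refine ⟨h.reg.aleph0_le.trans hκM, ?_⟩
  rw [HStarget_ord hM, Ordinal.cof_type, Order.le_cof_iff]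
  intro S hS
  by_contra hcon
  push Not at hcon
  obtain ⟨d, hd⟩ := HStarget_seg _ hcon
  obtain ⟨e⟩ := Cardinal.eq.mp hd
  classical
  obtain ⟨c, hc⟩ : ∃ c : M → M, ∀ x (hx : x ∈ Set.Iio d), c x = (e ⟨x, hx⟩ : M) :=
    ⟨fun x => if hx : x ∈ Set.Iio d then (e ⟨x, hx⟩ : M) else x, fun x hx => by
      simp only [dif_pos hx]⟩
  have hu0 : ∀ a : M, ∃ u : M, u < d ∧ a ≤ c u := by
    intro a
    obtain ⟨b, hb, hab⟩ := hS a
    refine ⟨(e.symm ⟨b, hb⟩).1, (e.symm ⟨b, hb⟩).2, ?_⟩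
    rw [hc _ (e.symm ⟨b, hb⟩).2]
    simpa using hab
  choose u hu1 hu2 using hu0
  have hU : ({X : Set M | ∀ a ∈ X, c a ∈ X} ∩ {X : Set M | ∀ a ∈ X, u a ∈ X} ∩
      {X : Set M | d ∈ X} ∩
      {X : Set M | StrictMonoOn (π X) (Set.Iio k) ∧ π X '' Set.Iio k = X}) ∈ U :=
    Filter.inter_mem (Filter.inter_mem (Filter.inter_mem (HStarget_cl1 h c) (HStarget_cl1 h u))
      (h.fine d)) h.mono
  obtain ⟨X, ⟨⟨hX1, hX1'⟩, hX2⟩, hX3, hX4⟩ := U.nonempty_of_mem hU
  have h2 := HStarget_small h hX3 hX4 hX2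
  have hcov : Set.Iio k ⊆ ⋃ t : (X ∩ Set.Iio d : Set M), {b : M | b < k ∧ π X b ≤ c t.1} := by
    intro b hb
    have hbX : π X b ∈ X := by
      have h3 : π X b ∈ π X '' Set.Iio k := ⟨b, hb, rfl⟩
      rwa [hX4] at h3
    rw [Set.mem_iUnion]
    exact ⟨⟨u (π X b), hX1' _ hbX, hu1 _⟩, hb, hu2 _⟩
  have hlt : #(⋃ t : (X ∩ Set.Iio d : Set M), {b : M | b < k ∧ π X b ≤ c t.1} : Set M) < κ := by
    rw [Cardinal.card_iUnion_lt_iff_forall_of_isRegular h.reg h2]
    rintro ⟨t, ht1, ht2⟩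
    have h3 : c t ∈ X := hX1 t ht1
    rw [← hX4] at h3
    obtain ⟨m, hm, hmc⟩ := h3
    have hsub : {b : M | b < k ∧ π X b ≤ c t} ⊆ insert m (Set.Iio m) := by
      rintro b ⟨hb1, hb2⟩
      rw [← hmc, hX3.le_iff_le hb1 hm] at hb2
      rcases eq_or_lt_of_le hb2 with h5 | h5
      · exact Or.inl h5
      · exact Or.inr h5
    refine lt_of_le_of_lt ((Cardinal.mk_le_mk_of_subset hsub).trans Cardinal.mk_insert_le) ?_
    exact Cardinal.add_lt_of_lt h.reg.aleph0_le (h.mk_lt m hm)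
      (lt_of_lt_of_le Cardinal.one_lt_aleph0 h.reg.aleph0_le)
  have h4 := Cardinal.mk_le_mk_of_subset hcov
  rw [h.mk_k] at h4
  exact absurd hlt (not_lt.mpr h4)

theorem HS.target (h : HS M k κ U π) (hM : ∀ a : M, #(Set.Iio a) < #M) :
    (#M).IsRegular ∧ ∀ μ < #M, 2 ^ μ < #M :=
  ⟨HStarget_reg h hM, HStarget_strong h⟩

end

end Pool.Agent.Helper669.U
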