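import Mathlib
import Pool.Agent.Helper669.UA

set_option autoImplicit false

/-!
# Huge cardinals: the iteration seen by almost every set
-/

namespace Pool.Agent.Helper669.U

open Cardinal Pool.Agent.Helper669.Forcing Pool.Agent.Helper669.K

section

variable {M : Type} [LinearOrder M] {k : M} {κ : Cardinal.{0}} {U : Ultrafilter (Set M)}
  {π : Set M → M → M}

theorem PC.bdd (h : HS M k κ U π) (p : PC M k) : ∃ b < k, Bdd p b := by
  have hκ : ℵ₀ < κ := lt_trans (by rw [← aleph_zero]; exact aleph_lt_aleph.mpr one_pos) h.unc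
  have key : ∀ C : Set M, C ⊆ Set.Iio k → #C < κ → ∃ b < k, ∀ c ∈ C, c < b := by
    intro C hC hcard
    by_contra hcon
    push Not at hcon
    have h1 : Set.Iio k ⊆ ⋃ c ∈ C, Set.Iic c := by
      intro b hb
      obtain ⟨c, hc, hbc⟩ := hcon b hb
      exact Set.mem_biUnion hc hbc
    have h2 : #(⋃ c ∈ C, Set.Iic c : Set M) < κ := by
      rw [card_biUnion_lt_iff_forall_of_isRegular h.reg hcard]
      intro c hc
      have h3 : #(Set.Iio c) < κ := h.mk_lt c (hC hc)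
      have h4 : Set.Iic c ⊆ insert c (Set.Iio c) := by
        intro x hx
        rcases eq_or_lt_of_le (Set.mem_Iic.mp hx) with h5 | h5
        · exact Or.inl h5
        · exact Or.inr h5
      refine lt_of_le_of_lt (mk_le_mk_of_subset h4) ?_
      refine lt_of_le_of_lt mk_insert_le ?_
      exact add_lt_of_lt hκ.le h3 (one_lt_aleph0.trans hκ)
    have h5 := lt_of_le_of_lt (mk_le_mk_of_subset h1) h2
    rw [h.mk_k] at h5
    exact lt_irrefl _ h5
  let S : Set M := {α | (p.f α).D.Nonempty}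
  have hS : #S < κ := lt_of_le_of_lt (le_aleph0_iff_set_countable.mpr p.cnt) hκ
  let C : Set M := S ∪ ⋃ β ∈ S, Prod.fst '' (p.f β).D
  have hC2 : #(⋃ β ∈ S, Prod.fst '' (p.f β).D : Set M) < κ := by
    rw [card_biUnion_lt_iff_forall_of_isRegular h.reg hS]
    intro β hβ
    obtain ⟨h1, -, h3⟩ := p.ok β hβ
    exact lt_of_le_of_lt mk_image_le (lt_of_le_of_lt h3.card (h.mk_lt β h1))
  have hC : #C < κ := lt_of_le_of_lt (mk_union_le _ _) (add_lt_of_lt hκ.le hS hC2)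
  have hCk : C ⊆ Set.Iio k := by
    rintro x (hx | hx)
    · exact (p.ok x hx).1
    · rw [Set.mem_iUnion₂] at hx
      obtain ⟨β, hβ, t, ht, rfl⟩ := hx
      exact ((p.ok β hβ).2.2.dom t ht).2
  obtain ⟨b, hb, hbC⟩ := key C hCk hC
  refine ⟨b, hb, fun β t ht => ⟨hbC β (Or.inl ⟨t, ht⟩), hbC t.1 (Or.inr ?_)⟩⟩
  rw [Set.mem_iUnion₂]
  exact ⟨β, ⟨t, ht⟩, t, ht, rfl⟩

theorem PC.few (h : HS M k κ U π) (b : M) (hb : b < k) : #{p : PC M k | Bdd p b} < κ := by
  have hℵ : ℵ₀ < κ := aleph0_lt_aleph_one.trans h.unc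
  have hμ : #(Set.Iio b) < κ := h.mk_lt b hb
  have hml : ∀ a c : Cardinal.{0}, a < κ → c < κ → a * c < κ :=
    fun a c ha hc => Cardinal.mul_lt_of_lt hℵ.le ha hc
  let I := Set.Iio b
  have hX : #(I × (I × I)) < κ := by
    simp only [Cardinal.mk_prod, Cardinal.lift_id]
    exact hml _ _ hμ (hml _ _ hμ hμ)
  have hY : #(I × ((I × I) × (I × I))) < κ := by
    simp only [Cardinal.mk_prod, Cardinal.lift_id]
    exact hml _ _ hμ (hml _ _ (hml _ _ hμ hμ) (hml _ _ hμ hμ))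
  have hT : #(Set (I × (I × I)) × Set (I × ((I × I) × (I × I)))) < κ := by
    rw [Cardinal.mk_prod, Cardinal.lift_id, Cardinal.lift_id, Cardinal.mk_set, Cardinal.mk_set]
    exact hml _ _ (h.strong _ hX) (h.strong _ hY)
  refine lt_of_le_of_lt ?_ hT
  let F : {p : PC M k | Bdd p b} → Set (I × (I × I)) × Set (I × ((I × I) × (I × I))) :=
    fun p => ({x | ((x.2.1 : M), (x.2.2 : M)) ∈ (p.1.f (x.1 : M)).D},
      {x | (((x.2.1.1 : M), (x.2.1.2 : M)), ((x.2.2.1 : M), (x.2.2.2 : M))) ∈ (p.1.f (x.1 : M)).E})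
  have hD : ∀ p : PC M k, Bdd p b → ∀ β t, t ∈ (p.f β).D → β < b ∧ t.1 < b ∧ t.2 < b := by
    intro p hp β t ht
    obtain ⟨h1, h2⟩ := hp β t ht
    obtain ⟨_, _, h3⟩ := p.ok β ⟨t, ht⟩
    obtain ⟨γ, hγ, h4⟩ := h3.ht
    exact ⟨h1, h2, (h4 t ht).trans (hγ.trans h1)⟩
  have hE : ∀ p : PC M k, Bdd p b → ∀ β t s, (t, s) ∈ (p.f β).E →
      β < b ∧ t.1 < b ∧ t.2 < b ∧ s.1 < b ∧ s.2 < b := by
    intro p hp β t s hts
    have ht := (p.f β).sub t s hts
    obtain ⟨h1, h2, h2'⟩ := hD p hp β t ht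
    obtain ⟨_, _, h3⟩ := p.ok β ⟨t, ht⟩
    obtain ⟨h4, h5⟩ := h3.val t s hts
    exact ⟨h1, h2, h2', h4.trans h1, h5.trans h2⟩
  have key : ∀ p q : {p : PC M k | Bdd p b}, F p = F q → ∀ β, 
      (p.1.f β).D ⊆ (q.1.f β).D ∧ (p.1.f β).E ⊆ (q.1.f β).E := by
    intro p q hpq β
    have e1 : (F p).1 = (F q).1 := by rw [hpq]
    have e2 : (F p).2 = (F q).2 := by rw [hpq]
    refine ⟨?_, ?_⟩
    · rintro ⟨t1, t2⟩ ht
      obtain ⟨h1, h2, h3⟩ := hD p.1 p.2 β _ ht
      have hm : ((⟨β, h1⟩, (⟨t1, h2⟩, ⟨t2, h3⟩)) : I × (I × I)) ∈ (F p).1 := ht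
      rw [e1] at hm
      exact hm
    · rintro ⟨⟨t1, t2⟩, ⟨s1, s2⟩⟩ ht
      obtain ⟨h1, h2, h3, h4, h5⟩ := hE p.1 p.2 β _ _ ht
      have hm : ((⟨β, h1⟩, ((⟨t1, h2⟩, ⟨t2, h3⟩), (⟨s1, h4⟩, ⟨s2, h5⟩))) :
          I × ((I × I) × (I × I))) ∈ (F p).2 := ht
      rw [e2] at hm
      exact hm
  refine Cardinal.mk_le_of_injective (f := F) ?_
  intro p q hpq
  have hf : p.1.f = q.1.f := by
    funext β
    refine Sl.ext' ?_ ?_
    · exact Set.Subset.antisymm (key p q hpq β).1 (key q p hpq.symm β).1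
    · exact Set.Subset.antisymm (key p q hpq β).2 (key q p hpq.symm β).2
  apply Subtype.ext
  obtain ⟨⟨pf, pc, po⟩, pb⟩ := p
  obtain ⟨⟨qf, qc, qo⟩, qb⟩ := q
  simp only at hf
  subst hf
  rfl

theorem HS.exists_cP (h : HS M k κ U π) :
    ∃ cP : PC M k → M, Function.Injective cP ∧ ∀ p, cP p < k := by
  have hinf : ℵ₀ ≤ κ := h.reg.aleph0_le
  have hcov : (Set.univ : Set (PC M k)) = ⋃ b : Set.Iio k, {p : PC M k | Bdd p b.1} := by
    symm
    rw [Set.eq_univ_iff_forall]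
    intro p
    obtain ⟨b, hb, hp⟩ := PC.bdd h p
    exact Set.mem_iUnion.2 ⟨⟨b, hb⟩, hp⟩
  have h1 : #(PC M k) ≤ κ := by
    rw [← Cardinal.mk_univ, hcov]
    refine (Cardinal.mk_iUnion_le _).trans ?_
    rw [h.mk_k]
    have h2 : ⨆ b : Set.Iio k, #{p : PC M k | Bdd p b.1} ≤ κ :=
      ciSup_le' (fun b => (PC.few h b.1 b.2).le)
    calc κ * ⨆ b : Set.Iio k, #{p : PC M k | Bdd p b.1} ≤ κ * κ := mul_le_mul_right h2 κ
      _ = κ := Cardinal.mul_eq_self hinf
  rw [← h.mk_k, Cardinal.le_def] at h1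
  obtain ⟨f⟩ := h1
  exact ⟨fun p => (f p).1, fun a b hab => f.injective (Subtype.ext hab), fun p => (f p).2⟩

theorem cpi_bound (h : HS M k κ U π) {ι : Type} (hι : #ι < κ) (f : ι → M) (hf : ∀ i, f i < k) :
    ∃ a < k, ∀ i, f i < a := by
  by_contra hc
  push Not at hc
  have hsub : Set.Iio k ⊆ ⋃ i, Set.Iic (f i) := by
    intro a ha
    obtain ⟨i, hi⟩ := hc a ha
    exact Set.mem_iUnion.2 ⟨i, hi⟩
  have h1 : #(⋃ i, Set.Iic (f i) : Set M) < κ := by
    rw [Cardinal.card_iUnion_lt_iff_forall_of_isRegular h.reg hι]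
    intro i
    rw [← Set.Iio_insert]
    exact lt_of_le_of_lt Cardinal.mk_insert_le (Cardinal.add_lt_of_lt h.reg.aleph0_le
      (h.mk_lt _ (hf i)) (Cardinal.one_lt_aleph0.trans_le h.reg.aleph0_le))
  have h2 := Cardinal.mk_le_mk_of_subset hsub
  rw [h.mk_k] at h2
  exact absurd h1 (not_lt.2 h2)

theorem cpi_good {α : M} (hα : Good α) {p : PC M k} (hp : Bdd p α) : ∃ b < α, Bdd p b := by
  obtain ⟨g1, g2, g3⟩ := hα
  have hinf : ℵ₀ ≤ #(Set.Iio α) := g1.le
  have h1 : ∀ β, ∃ γ, (p.f β).D.Nonempty → γ < α ∧ ∀ t ∈ (p.f β).D, β < γ ∧ t.1 < γ := by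
    intro β
    by_cases hβ : (p.f β).D.Nonempty
    · obtain ⟨t0, ht0⟩ := hβ
      have hβα : β < α := (hp β t0 ht0).1
      have hsil := (p.ok β ⟨t0, ht0⟩).2.2
      obtain ⟨γ, hγ, hγ2⟩ := g3 (insert β (Prod.fst '' (p.f β).D)) (by
        intro x hx
        rcases hx with rfl | ⟨t, ht, rfl⟩
        · exact hβα
        · exact (hp β t ht).2) (by
        refine lt_of_le_of_lt Cardinal.mk_insert_le ?_
        apply Cardinal.add_lt_of_lt hinf
        · exact lt_of_le_of_lt (Cardinal.mk_image_le.trans hsil.card) (g2 β hβα)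
        · exact Cardinal.one_lt_aleph0.trans_le hinf)
      exact ⟨γ, fun _ => ⟨hγ, fun t ht => ⟨hγ2 _ (Set.mem_insert _ _),
        hγ2 _ (Set.mem_insert_of_mem _ ⟨t, ht, rfl⟩)⟩⟩⟩
    · exact ⟨β, fun h => absurd h hβ⟩
  choose γ hγ using h1
  obtain ⟨b, hb, hb2⟩ := g3 (γ '' {β | (p.f β).D.Nonempty}) (by
    rintro _ ⟨β, hβ, rfl⟩
    exact (hγ β hβ).1) (lt_of_le_of_lt (p.cnt.image γ).le_aleph0 g1)
  refine ⟨b, hb, fun β t ht => ?_⟩
  have h2 := (hγ β ⟨t, ht⟩).2 t ht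
  have h3 := hb2 _ ⟨β, ⟨t, ht⟩, rfl⟩
  exact ⟨h2.1.trans h3, h2.2.trans h3⟩


theorem HS.cP_iff (h : HS M k κ U π) {cP : PC M k → M} (hcP : Function.Injective cP)
    (hlt : ∀ p, cP p < k) :
    {X : Set M | ∀ α, IsAl k π X α → ∀ p : PC M k, cP p ∈ X ↔ Bdd p α} ∈ U := by
  classical
  have hu : ∀ b : M, ∃ u : M, b < k → u < k ∧ ∀ p : PC M k, Bdd p b → cP p < u := by
    intro b
    by_cases hb : b < k
    · obtain ⟨a, ha, h1⟩ := cpi_bound h (PC.few h b hb)
        (fun p : {p : PC M k | Bdd p b} => cP p.1) (fun p => hlt _)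
      exact ⟨a, fun _ => ⟨ha, fun p hp => h1 ⟨p, hp⟩⟩⟩
    · exact ⟨b, fun hb' => absurd hb' hb⟩
  choose u hu using hu
  have hv : ∀ p : PC M k, ∃ b < k, Bdd p b := PC.bdd h
  choose v hvk hvb using hv
  have A1 := h.norm (fun b => {X | b < k → u b ∈ X})
    (fun b => Filter.mem_of_superset (h.fine (u b)) fun X hX _ => hX)
  have A2 := h.norm (fun m => {X | ∀ p, cP p = m → v p ∈ X}) (fun m => by
    by_cases hm : ∃ p, cP p = m
    · obtain ⟨p, hp⟩ := hm
      exact Filter.mem_of_superset (h.fine (v p)) fun X hX q hq => by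
        have : q = p := hcP (hq.trans hp.symm)
        rw [this]; exact hX
    · exact Filter.mem_of_superset Filter.univ_mem fun X _ q hq => absurd ⟨q, hq⟩ hm)
  refine Filter.mem_of_superset (Filter.inter_mem A1 A2) ?_
  rintro X ⟨hX1, hX2⟩ α hα p
  have hseg : ∀ x, (x ∈ X ∧ x < k) ↔ x < α := fun x => Set.ext_iff.1 hα.seg x
  constructor
  · intro hp
    have h1 : v p ∈ X := hX2 (cP p) hp p rfl
    have h2 : v p < α := (hseg _).1 ⟨h1, hvk p⟩
    intro β t ht
    obtain ⟨h3, h4⟩ := hvb p β t ht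
    exact ⟨h3.trans h2, h4.trans h2⟩
  · intro hp
    obtain ⟨b, hb, hpb⟩ := cpi_good hα.good hp
    have hbX := (hseg b).2 hb
    have h1 : u b ∈ X := hX1 b hbX.1 hbX.2
    obtain ⟨h2, h3⟩ := hu b hbX.2
    have h4 : u b < α := (hseg _).1 ⟨h1, h2⟩
    exact ((hseg _).2 ((h3 p hpb).trans h4)).1

end

section

variable {M : Type} [LinearOrder M] {k : M}

theorem cS_bdd (hreg : (#M).IsRegular) (hM : ∀ a : M, #(Set.Iio a) < #M) (C : Set M)
    (hC : #C < #M) : ∃ c : M, ∀ x ∈ C, x < c := by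
  by_contra hcon
  push Not at hcon
  have h1 : (Set.univ : Set M) ⊆ ⋃ x ∈ C, Set.Iic x := by
    intro c _
    obtain ⟨x, hx, hcx⟩ := hcon c
    exact Set.mem_biUnion hx hcx
  have h2 : #(⋃ x ∈ C, Set.Iic x : Set M) < #M := by
    rw [Cardinal.card_biUnion_lt_iff_forall_of_isRegular hreg hC]
    intro x _
    rw [← Set.Iio_insert]
    refine (Cardinal.mk_insert_le).trans_lt ?_
    exact Cardinal.add_lt_of_lt hreg.aleph0_le (hM x) (Cardinal.one_lt_aleph0.trans_le hreg.aleph0_le)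
  have h3 := Cardinal.mk_le_mk_of_subset h1
  rw [Cardinal.mk_univ] at h3
  exact absurd h2 (not_lt.2 h3)

theorem cS_injOn {α : Type} [Nonempty M] (T : Set α) (hT : #T ≤ #M) :
    ∃ f : α → M, Set.InjOn f T := by
  classical
  obtain ⟨g⟩ := hT
  refine ⟨fun a => if h : a ∈ T then g ⟨a, h⟩ else Classical.arbitrary M, ?_⟩
  intro a ha b hb hab
  simp only [dif_pos ha, dif_pos hb] at hab
  have := g.injective hab
  exact congrArg Subtype.val this

theorem cS_pow (hreg : (#M).IsRegular) (hstrong : ∀ μ < #M, 2 ^ μ < #M) {α : Type} (s : Set α)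
    (hs : #s < #M) : #(𝒫 s) ≤ #M := by
  rw [Cardinal.mk_powerset]
  exact (hstrong _ hs).le

theorem cS_prod (hreg : (#M).IsRegular) {α β : Type} (s : Set α) (t : Set β)
    (hs : #s < #M) (ht : #t < #M) : #(s ×ˢ t : Set (α × β)) < #M := by
  have h1 : #(s ×ˢ t : Set (α × β)) = #s * #t := by
    rw [Cardinal.mk_congr (Equiv.Set.prod s t)]
    simp
  rw [h1]
  exact Cardinal.mul_lt_of_lt hreg.aleph0_le hs ht


theorem exists_cS (hreg : (#M).IsRegular) (hstrong : ∀ μ < #M, 2 ^ μ < #M)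
    (hM : ∀ a : M, #(Set.Iio a) < #M) (hk : ℵ₀ ≤ #(Set.Iio k)) :
    ∃ cS : SC M k → M, Function.Injective cS := by
  classical
  haveI : Nonempty M := ⟨k⟩
  have hb : ∀ q : SC M k, ∃ b : M, q.q.D ⊆ Set.Iio b ×ˢ Set.Iio b ∧
      q.q.E ⊆ (Set.Iio b ×ˢ Set.Iio b) ×ˢ (Set.Iio b ×ˢ Set.Iio b) := by
    intro q
    have hD : #q.q.D < #M := q.ok.card.trans_lt (hM k)
    have hC : #((Prod.fst '' q.q.D) ∪ (Prod.snd '' q.q.D) ∪ {k} : Set M) < #M := by
      refine (Cardinal.mk_union_le _ _).trans_lt ?_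
      refine Cardinal.add_lt_of_lt hreg.aleph0_le ?_ ?_
      · refine (Cardinal.mk_union_le _ _).trans_lt ?_
        exact Cardinal.add_lt_of_lt hreg.aleph0_le (Cardinal.mk_image_le.trans_lt hD)
          (Cardinal.mk_image_le.trans_lt hD)
      · rw [Cardinal.mk_singleton]
        exact Cardinal.one_lt_aleph0.trans_le hreg.aleph0_le
    obtain ⟨b, hb⟩ := cS_bdd hreg hM _ hC
    have h1 : q.q.D ⊆ Set.Iio b ×ˢ Set.Iio b := by
      intro t ht
      exact ⟨hb _ (Or.inl (Or.inl ⟨t, ht, rfl⟩)), hb _ (Or.inl (Or.inr ⟨t, ht, rfl⟩))⟩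
    refine ⟨b, h1, ?_⟩
    rintro ⟨t, s⟩ hts
    have ht := h1 (q.q.sub t s hts)
    obtain ⟨v1, v2⟩ := q.ok.val t s hts
    exact ⟨ht, v1.trans (hb k (Or.inr rfl)), v2.trans ht.1⟩
  choose bb hbD hbE using hb
  have hι : ∀ b : M, ∃ f : Set (M × M) → M, Set.InjOn f (𝒫 (Set.Iio b ×ˢ Set.Iio b)) := by
    intro b
    exact cS_injOn _ (cS_pow hreg hstrong _ (cS_prod hreg _ _ (hM b) (hM b)))
  have hκ : ∀ b : M, ∃ f : Set ((M × M) × (M × M)) → M,
      Set.InjOn f (𝒫 ((Set.Iio b ×ˢ Set.Iio b) ×ˢ (Set.Iio b ×ˢ Set.Iio b))) := by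
    intro b
    exact cS_injOn _ (cS_pow hreg hstrong _ (cS_prod hreg _ _
      (cS_prod hreg _ _ (hM b) (hM b)) (cS_prod hreg _ _ (hM b) (hM b))))
  choose ι hι using hι
  choose κ' hκ using hκ
  have hcode : Nonempty (M × M × M ↪ M) := by
    rw [← Cardinal.le_def]
    simp only [Cardinal.mk_prod, Cardinal.lift_id]
    rw [Cardinal.mul_eq_self hreg.aleph0_le, Cardinal.mul_eq_self hreg.aleph0_le]
  obtain ⟨code⟩ := hcode
  refine ⟨fun q => code (bb q, ι (bb q) q.q.D, κ' (bb q) q.q.E), ?_⟩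
  intro q q' h
  have h1 := code.injective h
  simp only [Prod.mk.injEq] at h1
  obtain ⟨e1, e2, e3⟩ := h1
  rw [← e1] at e2 e3
  have e4 : q.q.D = q'.q.D := hι (bb q) (hbD q) (by rw [e1]; exact hbD q') e2
  have e5 : q.q.E = q'.q.E := hκ (bb q) (hbE q) (by rw [e1]; exact hbE q') e3
  have e6 : q.q = q'.q := Sl.ext' e4 e5
  cases q; cases q'
  simp only at e6
  subst e6
  rfl

/-- a stronger condition can be replaced by an equivalent one whose second coordinate is an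
extension -/
theorem RC.direct {cP : PC M k → M} {r r' : RC M k cP} (hr : r' ≤ r) :
    ∃ q : SC M k, q.q.Ext r.q.q ∧ (⟨r'.p, q⟩ : RC M k cP) ≤ r' := by
  classical
  let Q : Sl M :=
    { D := r'.q.q.D
      E := {u | (u.1 ∈ r.q.q.D ∧ u ∈ r.q.q.E) ∨
        (u.1 ∉ r.q.q.D ∧ u ∈ r'.q.q.E)}
      sub := by
        rintro t s (⟨h, h'⟩ | ⟨h, h'⟩)
        · exact (hr.2 t h).1
        · exact r'.q.q.sub t s h' }
  have hQ : IsSil k Set.univ Q :=
    { card := r'.q.ok.card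
      ht := r'.q.ok.ht
      dom := r'.q.ok.dom
      val := by
        rintro t s (⟨h, h'⟩ | ⟨h, h'⟩)
        · exact r.q.ok.val t s h'
        · exact r'.q.ok.val t s h' }
  refine ⟨⟨Q, hQ⟩, ⟨fun t ht => (hr.2 t ht).1, ?_⟩, le_rfl, ?_⟩
  · intro t ht s
    constructor
    · rintro (⟨h, h'⟩ | ⟨h, h'⟩)
      · exact h'
      · exact absurd ht h
    · intro h
      exact Or.inl ⟨ht, h⟩
  · intro t ht
    refine ⟨ht, ?_⟩
    intro η p hp
    by_cases h : t ∈ r.q.q.D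
    · have e : nm cP Q t η = nm cP r.q.q t η := by
        ext x
        constructor
        · rintro ⟨b, hb, hE⟩
          rcases hE with ⟨_, h'⟩ | ⟨h', _⟩
          · exact ⟨b, hb, h'⟩
          · exact absurd h h'
        · rintro ⟨b, hb, hE⟩
          exact ⟨b, hb, Or.inl ⟨h, hE⟩⟩
      show p ∈ meets (nm cP Q t η) ↔ _
      rw [e]
      exact ((hr.2 t h).2 η p hp).symm
    · have e : nm cP Q t η = nm cP r'.q.q t η := by
        ext x
        constructor
        · rintro ⟨b, hb, hE⟩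
          rcases hE with ⟨h', _⟩ | ⟨_, h'⟩
          · exact absurd h' h
          · exact ⟨b, hb, h'⟩
        · rintro ⟨b, hb, hE⟩
          exact ⟨b, hb, Or.inr ⟨h, hE⟩⟩
      show p ∈ meets (nm cP Q t η) ↔ _
      rw [e]

end

section

variable {M : Type} [LinearOrder M] {k : M} {κ : Cardinal.{0}} {U : Ultrafilter (Set M)}
  {π : Set M → M → M}

theorem HS.comp_of_pull (h : HS M k κ U π) {cS : SC M k → M} (hcS : Function.Injective cS) :
    {X : Set M | ∀ q q' : SC M k, cS q ∈ X → cS q' ∈ X →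
      (pull k (π X) q.q).Comp (pull k (π X) q'.q) → q.q.Comp q'.q} ∈ U := by
  classical
  have hw : ∀ q q' : SC M k, ∃ v : (M × M) × (M × M), ¬ q.q.Comp q'.q →
      v.1 ∈ q.q.D ∧ v.1 ∈ q'.q.D ∧ ¬ (((v.1, v.2) ∈ q.q.E) ↔ ((v.1, v.2) ∈ q'.q.E)) := by
    intro q q'
    by_cases hC : q.q.Comp q'.q
    · exact ⟨((k, k), (k, k)), fun h => absurd hC h⟩
    · have hC' := hC
      unfold Sl.Comp at hC'
      push Not at hC'
      obtain ⟨t, ht, ht', s, hs⟩ := hC'
      refine ⟨(t, s), fun _ => ⟨ht, ht', ?_⟩⟩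
      rcases hs with ⟨h1, h2⟩ | ⟨h1, h2⟩
      · exact fun h => h2 (h.1 h1)
      · exact fun h => h1 (h.2 h2)
  choose v hv using hw
  have h2k : #(Fin 2) < κ := by
    rw [Cardinal.mk_fin]
    exact (Cardinal.natCast_lt_aleph0.trans Cardinal.aleph0_lt_aleph_one).trans h.unc
  have hN := h.norm' h2k (fun X x => ∀ q q' : SC M k, cS q = x 0 → cS q' = x 1 →
    (v q q').1.1 ∈ X ∧ (v q q').1.2 ∈ X ∧ (v q q').2.1 ∈ X ∧ (v q q').2.2 ∈ X) (by
      intro x
      by_cases hx : ∃ q q' : SC M k, cS q = x 0 ∧ cS q' = x 1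
      · obtain ⟨q, q', hq, hq'⟩ := hx
        filter_upwards [h.fine (v q q').1.1, h.fine (v q q').1.2, h.fine (v q q').2.1,
          h.fine (v q q').2.2] with X h1 h2 h3 h4
        intro q₁ q₁' hq₁ hq₁'
        have e1 : q₁ = q := hcS (hq₁.trans hq.symm)
        have e2 : q₁' = q' := hcS (hq₁'.trans hq'.symm)
        rw [e1, e2]
        exact ⟨h1, h2, h3, h4⟩
      · filter_upwards with X
        intro q q' hq hq'
        exact absurd ⟨q, q', hq, hq'⟩ hx)
  filter_upwards [hN, h.mono] with X h1 h2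
  intro q q' hq hq' hC
  by_contra hn
  obtain ⟨a1, a2, a3, a4⟩ := h1 ![cS q, cS q'] (by
    intro i
    fin_cases i
    · exact hq
    · exact hq') q q' rfl rfl
  obtain ⟨b1, b2, b3⟩ := hv q q' hn
  rw [← h2.2] at a1 a2 a3 a4
  obtain ⟨c1, hc1, e1⟩ := a1
  obtain ⟨c2, hc2, e2⟩ := a2
  obtain ⟨c3, hc3, e3⟩ := a3
  obtain ⟨c4, hc4, e4⟩ := a4
  have ht : ((π X c1, π X c2) : M × M) = (v q q').1 := by rw [e1, e2]
  have hs : ((π X c3, π X c4) : M × M) = (v q q').2 := by rw [e3, e4]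
  have h3 := hC (c1, c2) ⟨hc1, hc2, by show (π X c1, π X c2) ∈ _; rw [ht]; exact b1⟩
    ⟨hc1, hc2, by show (π X c1, π X c2) ∈ _; rw [ht]; exact b2⟩ (c3, c4)
  apply b3
  constructor
  · intro h4
    have h5 := h3.1 ⟨hc1, hc2, hc3, hc4, by
      show ((π X c1, π X c2), (π X c3, π X c4)) ∈ _
      rw [ht, hs]
      exact h4⟩
    have h6 := h5.2.2.2.2
    have h7 : ((π X c1, π X c2), (π X c3, π X c4)) ∈ q'.q.E := h6
    rwa [ht, hs] at h7
  · intro h4
    have h5 := h3.2 ⟨hc1, hc2, hc3, hc4, by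
      show ((π X c1, π X c2), (π X c3, π X c4)) ∈ _
      rw [ht, hs]
      exact h4⟩
    have h6 := h5.2.2.2.2
    have h7 : ((π X c1, π X c2), (π X c3, π X c4)) ∈ q.q.E := h6
    rwa [ht, hs] at h7

theorem HS.regrC (h : HS M k κ U π) (f : Set M → M) (hf : {X : Set M | f X ∈ X} ∈ U) :
    ∃ c, {X : Set M | f X = c} ∈ U := by
  by_contra hc
  push Not at hc
  have h1 : ∀ a, {X : Set M | f X ≠ a} ∈ U := fun a =>
    Ultrafilter.compl_mem_iff_notMem.2 (hc a)
  have h2 := h.norm (fun a => {X : Set M | f X ≠ a}) h1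
  obtain ⟨X, hX1, hX2⟩ := U.nonempty_of_mem (Filter.inter_mem hf h2)
  exact hX2 _ hX1 rfl


theorem HS.exists_pull (h : HS M k κ U π) {cS : SC M k → M} (hcS : Function.Injective cS) :
    {X : Set M | ∀ α, IsAl k π X α → ∀ q' : Sl M, IsSil α (Set.Iio k) q' →
      ∃ q : SC M k, cS q ∈ X ∧ pull k (π X) q.q = q'} ∈ U := by
  classical
  by_contra hG
  obtain ⟨G, hGdef⟩ : ∃ G : Set (Set M), G = {X : Set M | ∀ α, IsAl k π X α → ∀ q' : Sl M,
      IsSil α (Set.Iio k) q' → ∃ q : SC M k, cS q ∈ X ∧ pull k (π X) q.q = q'} := ⟨_, rfl⟩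
  rw [← hGdef] at hG
  have hB : Gᶜ ∈ U := Ultrafilter.compl_mem_iff_notMem.2 hG
  have ch : ∀ X : Set M, ∃ α : M, ∃ q' : Sl M, ∃ inv : M → M, ∃ γ : M, ∃ i : M × M → M,
      X ∈ Gᶜ → IsAl k π X α ∧ IsSil α (Set.Iio k) q' ∧
      (∀ q : SC M k, cS q ∈ X → pull k (π X) q.q ≠ q') ∧
      (∀ x ∈ X, inv x < k ∧ π X (inv x) = x) ∧ (∀ x < k, inv (π X x) = x) ∧
      γ < α ∧ (∀ t ∈ q'.D, t.2 < γ) ∧ Set.InjOn i q'.D ∧ Set.MapsTo i q'.D (Set.Iio α) := by
    intro X
    by_cases hX : X ∈ Gᶜ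
    · rw [hGdef] at hX
      simp only [Set.mem_compl_iff, Set.mem_ofPred_eq, not_forall, not_exists, not_and] at hX
      obtain ⟨α, hα, q', hq', hno⟩ := hX
      obtain ⟨γ, hγ, hγ'⟩ := hq'.ht
      obtain ⟨e⟩ := Cardinal.le_def _ _ |>.1 hq'.card
      have hinv : ∀ x : M, ∃ y : M, x ∈ X → y < k ∧ π X y = x := by
        intro x
        by_cases hx : x ∈ X
        · rw [← hα.img] at hx
          obtain ⟨y, hy, hyx⟩ := hx
          exact ⟨y, fun _ => ⟨hy, hyx⟩⟩
        · exact ⟨x, fun h => absurd h hx⟩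
      choose inv hinv using hinv
      refine ⟨α, q', inv, γ, fun t => if ht : t ∈ q'.D then (e ⟨t, ht⟩ : M) else k, fun _ =>
        ⟨hα, hq', hno, hinv, ?_, hγ, hγ', ?_, ?_⟩⟩
      · intro x hx
        have hm : π X x ∈ X := by
          have : π X x ∈ π X '' Set.Iio k := ⟨x, hx, rfl⟩
          rwa [hα.img] at this
        obtain ⟨h1, h2⟩ := hinv _ hm
        exact hα.mono.injOn h1 hx h2
      · intro t ht t2 ht2 htt
        simp only [ht, ht2, dif_pos] at htt
        have := e.injective (Subtype.ext htt)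
        exact congrArg Subtype.val this
      · intro t ht
        simp only [ht, dif_pos]
        exact (e ⟨t, ht⟩).2
    · exact ⟨k, ⟨∅, ∅, fun _ _ h => h.elim⟩, id, k, fun _ => k, fun h => absurd h hX⟩
  choose α Q inv γ i hch using ch
  have hmemX : ∀ X ∈ Gᶜ, ∀ a < α X, a ∈ X ∧ a < k := by
    intro X hX a ha
    have := (hch X hX).1.seg
    have h2 : a ∈ X ∩ Set.Iio k := by rw [this]; exact ha
    exact h2
  obtain ⟨Ds, hDs⟩ : ∃ Ds : Set (M × M), ∀ t, t ∈ Ds ↔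
      {X : Set M | (inv X t.1, inv X t.2) ∈ (Q X).D} ∈ U := ⟨{t | _}, fun t => Iff.rfl⟩
  obtain ⟨Es, hEs⟩ : ∃ Es : Set ((M × M) × (M × M)), ∀ u, u ∈ Es ↔
      {X : Set M | ((inv X u.1.1, inv X u.1.2), (inv X u.2.1, inv X u.2.2)) ∈ (Q X).E} ∈ U :=
    ⟨{t | _}, fun t => Iff.rfl⟩
  have hfin : ∀ n : ℕ, #(Fin n) < κ := by
    intro n
    rw [Cardinal.mk_fin]
    exact (Cardinal.natCast_lt_aleph0).trans_le ((Cardinal.aleph0_le_aleph 1).trans h.unc.le)
  have nD := h.norm' (hfin 2) (fun X x => ((x 0, x 1) ∈ Ds ↔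
    (inv X (x 0), inv X (x 1)) ∈ (Q X).D)) (by
      intro x
      by_cases hx : (x 0, x 1) ∈ Ds
      · have := (hDs _).1 hx
        simp only [hx, true_iff]
        exact this
      · have h2 : {X : Set M | (inv X (x 0), inv X (x 1)) ∈ (Q X).D} ∉ U :=
          fun hh => hx ((hDs _).2 hh)
        simp only [hx, false_iff]
        exact Ultrafilter.compl_mem_iff_notMem.2 h2)
  have nE := h.norm' (hfin 4) (fun X x => (((x 0, x 1), (x 2, x 3)) ∈ Es ↔
    ((inv X (x 0), inv X (x 1)), (inv X (x 2), inv X (x 3))) ∈ (Q X).E)) (by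
      intro x
      by_cases hx : ((x 0, x 1), (x 2, x 3)) ∈ Es
      · have := (hEs _).1 hx
        simp only [hx, true_iff]
        exact this
      · have h2 : {X : Set M | ((inv X (x 0), inv X (x 1)), (inv X (x 2), inv X (x 3))) ∈
            (Q X).E} ∉ U := fun hh => hx ((hEs _).2 hh)
        simp only [hx, false_iff]
        exact Ultrafilter.compl_mem_iff_notMem.2 h2)
  have sub : ∀ t s, (t, s) ∈ Es → t ∈ Ds := by
    intro t s hts
    rw [hEs] at hts
    rw [hDs]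
    exact Filter.mem_of_superset hts (fun X hX => (Q X).sub _ _ hX)
  -- comparison of elements with their preimages
  have cmp : ∀ X ∈ Gᶜ, ∀ x ∈ X, ∀ y < k, inv X x < y → x < π X y := by
    intro X hX x hx y hy hxy
    obtain ⟨h1, h2⟩ := (hch X hX).2.2.2.1 x hx
    have := (hch X hX).1.mono h1 hy hxy
    rwa [h2] at this
  have ok : IsSil k Set.univ (⟨Ds, Es, sub⟩ : Sl M) := by
    refine ⟨?_, ?_, ?_, ?_⟩
    · -- card
      have hj : ∀ t : M × M, ∃ c : M, t ∈ Ds →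
          {X : Set M | i X (inv X t.1, inv X t.2) = c} ∈ U ∧ c < k := by
        intro t
        by_cases ht : t ∈ Ds
        · have ht' := (hDs t).1 ht
          have hr : {X : Set M | i X (inv X t.1, inv X t.2) ∈ X} ∈ U := by
            refine Filter.mem_of_superset (Filter.inter_mem hB ht') ?_
            rintro X ⟨hX, hX'⟩
            exact (hmemX X hX _ ((hch X hX).2.2.2.2.2.2.2.2 hX')).1
          obtain ⟨c, hc⟩ := h.regrC _ hr
          refine ⟨c, fun _ => ⟨hc, ?_⟩⟩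
          obtain ⟨X, ⟨hX, hX'⟩, hXc⟩ := U.nonempty_of_mem
            (Filter.inter_mem (Filter.inter_mem hB ht') hc)
          have := (hmemX X hX _ ((hch X hX).2.2.2.2.2.2.2.2 hX')).2
          have e : i X (inv X t.1, inv X t.2) = c := hXc
          rwa [e] at this
        · exact ⟨k, fun h => absurd h ht⟩
      choose j hj using hj
      refine Cardinal.mk_le_of_injective (f := fun t : Ds => (⟨j t.1, (hj t.1 t.2).2⟩ : Set.Iio k))
        ?_
      rintro ⟨t, ht⟩ ⟨t2, ht2⟩ htt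
      have htt' : j t = j t2 := congrArg Subtype.val htt
      apply Subtype.ext
      have f1 := h.fine t.1
      have f2 := h.fine t.2
      have f3 := h.fine t2.1
      have f4 := h.fine t2.2
      obtain ⟨X, ⟨⟨⟨⟨hX, g1⟩, g2⟩, g3⟩, g4⟩, ⟨a1, a2⟩, a3, a4⟩ := U.nonempty_of_mem
        (Filter.inter_mem (Filter.inter_mem (Filter.inter_mem (Filter.inter_mem
          (Filter.inter_mem hB f1) f2) f3) f4)
          (Filter.inter_mem (Filter.inter_mem ((hDs t).1 ht) ((hDs t2).1 ht2))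
            (Filter.inter_mem (hj t ht).1 (hj t2 ht2).1)))
      have e1 : i X (inv X t.1, inv X t.2) = j t := a3
      have e2 : i X (inv X t2.1, inv X t2.2) = j t2 := a4
      have e3 := (hch X hX).2.2.2.2.2.2.2.1 a1 a2 (e1.trans (htt'.trans e2.symm))
      have e4 : inv X t.1 = inv X t2.1 := congrArg Prod.fst e3
      have e5 : inv X t.2 = inv X t2.2 := congrArg Prod.snd e3
      have r := (hch X hX).2.2.2.1
      refine Prod.ext ?_ ?_
      · rw [← (r t.1 g1).2, ← (r t2.1 g3).2, e4]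
      · rw [← (r t.2 g2).2, ← (r t2.2 g4).2, e5]
    · -- ht
      have hr : {X : Set M | γ X ∈ X} ∈ U := by
        refine Filter.mem_of_superset hB ?_
        intro X hX
        exact (hmemX X hX _ (hch X hX).2.2.2.2.2.1).1
      obtain ⟨c, hc⟩ := h.regrC _ hr
      refine ⟨c, ?_, ?_⟩
      · obtain ⟨X, hX, hXc⟩ := U.nonempty_of_mem (Filter.inter_mem hB hc)
        have := (hmemX X hX _ (hch X hX).2.2.2.2.2.1).2
        have e : γ X = c := hXc
        rwa [e] at this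
      · intro t ht
        obtain ⟨X, ⟨⟨hX, hXc⟩, h1⟩, h2⟩ := U.nonempty_of_mem (Filter.inter_mem
          (Filter.inter_mem (Filter.inter_mem hB hc) ((hDs t).1 ht)) (h.fine t.2))
        have e : γ X = c := hXc
        have hγ := (hch X hX).2.2.2.2.2.1
        have l := (hch X hX).2.2.2.2.2.2.1 _ h1
        have l2 := cmp X hX t.2 h2 (γ X) (hmemX X hX _ hγ).2 l
        rw [(hch X hX).1.fix _ hγ, e] at l2
        exact l2
    · -- dom
      intro t ht
      refine ⟨?_, Set.mem_univ _⟩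
      obtain ⟨X, ⟨hX, h1⟩, h2⟩ := U.nonempty_of_mem (Filter.inter_mem
          (Filter.inter_mem hB ((hDs t).1 ht)) (h.fine t.1))
      have l := ((hch X hX).2.1.dom _ h1).1
      obtain ⟨r1, r2⟩ := (hch X hX).2.2.2.1 t.1 h2
      have hα := (hch X hX).1
      have := hα.mono.monotoneOn hα.lt r1 l
      rw [hα.top, r2] at this
      exact this
    · -- val
      intro t s hts
      obtain ⟨X, ⟨⟨⟨hX, h1⟩, h2⟩, h3⟩, h4⟩ := U.nonempty_of_mem (Filter.inter_mem (Filter.inter_mem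
        (Filter.inter_mem (Filter.inter_mem hB ((hEs (t, s)).1 hts)) (h.fine s.1)) (h.fine s.2))
          (h.fine t.1))
      obtain ⟨l1, l2⟩ := (hch X hX).2.1.val _ _ h1
      have hα := (hch X hX).1
      refine ⟨?_, ?_⟩
      · have := cmp X hX s.1 h2 (α X) hα.lt l1
        rwa [hα.top] at this
      · obtain ⟨r1, r2⟩ := (hch X hX).2.2.2.1 t.1 h4
        have := cmp X hX s.2 h3 (inv X t.1) r1 l2
        rwa [r2] at this
  obtain ⟨X, ⟨⟨hX, h1⟩, h2⟩, h3⟩ := U.nonempty_of_mem (Filter.inter_mem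
    (Filter.inter_mem (Filter.inter_mem hB nD) nE) (h.fine (cS ⟨⟨Ds, Es, sub⟩, ok⟩)))
  obtain ⟨hα, hS, hno, hinv, hinv', -⟩ := hch X hX
  have hm : ∀ x < k, π X x ∈ X := by
    intro x hx
    have : π X x ∈ π X '' Set.Iio k := ⟨x, hx, rfl⟩
    rwa [hα.img] at this
  refine hno ⟨⟨Ds, Es, sub⟩, ok⟩ h3 (Sl.ext' ?_ ?_)
  · ext t
    simp only [pull, Set.mem_ofPred_eq]
    constructor
    · rintro ⟨a1, a2, a3⟩
      have := (h1 ![π X t.1, π X t.2] (by
        intro j; fin_cases j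
        · exact hm _ a1
        · exact hm _ a2)).1 a3
      simp only [Matrix.cons_val_zero, Matrix.cons_val_one] at this
      rw [hinv' _ a1, hinv' _ a2] at this
      exact this
    · intro ht
      have a1 : t.1 < k := (hS.dom t ht).2
      obtain ⟨g, hg, hg'⟩ := hS.ht
      have a2 : t.2 < k := ((hg' t ht).trans hg).trans hα.lt
      refine ⟨a1, a2, ?_⟩
      have := (h1 ![π X t.1, π X t.2] (by
        intro j; fin_cases j
        · exact hm _ a1
        · exact hm _ a2)).2 (by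
          simp only [Matrix.cons_val_zero, Matrix.cons_val_one]
          rw [hinv' _ a1, hinv' _ a2]
          exact ht)
      exact this
  · ext u
    simp only [pull, Set.mem_ofPred_eq]
    constructor
    · rintro ⟨a1, a2, a3, a4, a5⟩
      have := (h2 ![π X u.1.1, π X u.1.2, π X u.2.1, π X u.2.2] (by
        intro j; fin_cases j
        · exact hm _ a1
        · exact hm _ a2
        · exact hm _ a3
        · exact hm _ a4)).1 a5
      have h' : ((inv X (π X u.1.1), inv X (π X u.1.2)), inv X (π X u.2.1), inv X (π X u.2.2)) ∈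
        (Q X).E := this
      rw [hinv' _ a1, hinv' _ a2, hinv' _ a3, hinv' _ a4] at h'
      exact h'
    · intro hu
      have hd : u.1 ∈ (Q X).D := (Q X).sub u.1 u.2 hu
      have a1 : u.1.1 < k := (hS.dom _ hd).2
      obtain ⟨g, hg, hg'⟩ := hS.ht
      have a2 : u.1.2 < k := ((hg' _ hd).trans hg).trans hα.lt
      obtain ⟨v1, v2⟩ := hS.val u.1 u.2 hu
      have a3 : u.2.1 < k := v1.trans hα.lt
      have a4 : u.2.2 < k := v2.trans a1
      refine ⟨a1, a2, a3, a4, ?_⟩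
      have := (h2 ![π X u.1.1, π X u.1.2, π X u.2.1, π X u.2.2] (by
        intro j; fin_cases j
        · exact hm _ a1
        · exact hm _ a2
        · exact hm _ a3
        · exact hm _ a4)).2 (by
          show ((inv X (π X u.1.1), inv X (π X u.1.2)), inv X (π X u.2.1), inv X (π X u.2.2)) ∈
            (Q X).E
          rw [hinv' _ a1, hinv' _ a2, hinv' _ a3, hinv' _ a4]
          exact hu)
      exact this

theorem HS.isSil_pull (h : HS M k κ U π) {cS : SC M k → M} (hcS : Function.Injective cS) :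
    {X : Set M | ∀ α, IsAl k π X α → ∀ q : SC M k, cS q ∈ X →
      IsSil α (Set.Iio k) (pull k (π X) q.q)} ∈ U := by
  classical
  have hγ : ∀ q : SC M k, ∃ γ < k, ∀ t ∈ q.q.D, t.2 < γ := fun q => q.ok.ht
  choose γ hγk hγ using hγ
  have hi : ∀ q : SC M k, Nonempty (q.q.D ↪ Set.Iio k) := fun q => q.ok.card
  obtain ⟨e, -⟩ : ∃ e : ∀ q : SC M k, (q.q.D ↪ Set.Iio k), True :=
    ⟨fun q => (hi q).some, trivial⟩
  have C1 : {X : Set M | ∀ a ∈ X, X ∈ {X : Set M | ∀ q : SC M k, cS q = a → γ q ∈ X}} ∈ U := by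
    refine h.norm _ ?_
    intro a
    by_cases ha : ∃ q : SC M k, cS q = a
    · obtain ⟨q, hq⟩ := ha
      refine Filter.mem_of_superset (f := (U : Filter (Set M))) (h.fine (γ q)) ?_
      intro X hX q' hq'
      have : q' = q := hcS (hq'.trans hq.symm)
      rw [this]
      exact hX
    · have : {X : Set M | ∀ q : SC M k, cS q = a → γ q ∈ X} = Set.univ := by
        ext X
        simp only [Set.mem_setOf_eq, Set.mem_univ, iff_true]
        intro q hq
        exact absurd ⟨q, hq⟩ ha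
      rw [this]
      exact Filter.univ_mem (f := (U : Filter (Set M)))
  have hfin : #(Fin 3) < κ := by
    have h1 : #(Fin 3) < ℵ₀ := Cardinal.lt_aleph0_of_finite _
    exact h1.trans_le (h.reg.aleph0_le)
  have C2 := h.norm' hfin (fun (X : Set M) (x : Fin 3 → M) => ∀ (q : SC M k) (t : q.q.D),
    cS q = x 0 → (t : M × M).1 = x 1 → (t : M × M).2 = x 2 → ((e q t : Set.Iio k) : M) ∈ X) (by
      intro x
      by_cases hx : ∃ (q : SC M k) (t : q.q.D), cS q = x 0 ∧ (t : M × M).1 = x 1 ∧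
        (t : M × M).2 = x 2
      · obtain ⟨q, t, h0, h1, h2⟩ := hx
        refine Filter.mem_of_superset (f := (U : Filter (Set M)))
          (h.fine ((e q t : Set.Iio k) : M)) ?_
        intro X hX q' t' h0' h1' h2'
        have hqq : q' = q := hcS (h0'.trans h0.symm)
        subst hqq
        have htt : t' = t := Subtype.ext (Prod.ext (h1'.trans h1.symm) (h2'.trans h2.symm))
        rw [htt]
        exact hX
      · refine Filter.mem_of_superset (f := (U : Filter (Set M)))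
          (Filter.univ_mem (f := (U : Filter (Set M)))) ?_
        intro X _ q t h0 h1 h2
        exact absurd ⟨q, t, h0, h1, h2⟩ hx)
  refine Filter.mem_of_superset (f := (U : Filter (Set M)))
    (Filter.inter_mem (f := (U : Filter (Set M))) C1 C2) ?_
  rintro X ⟨hX1, hX2⟩ α hα q hq
  have hc1 : γ q ∈ X := hX1 (cS q) hq q rfl
  have hmem : ∀ b < k, π X b ∈ X := by
    intro b hb
    have : π X b ∈ π X '' Set.Iio k := ⟨b, hb, rfl⟩
    rwa [hα.img] at this
  have hc2 : ∀ t : q.q.D, (t : M × M).1 ∈ X → (t : M × M).2 ∈ X →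
      ((e q t : Set.Iio k) : M) ∈ X := by
    intro t h1 h2
    refine hX2 ![cS q, (t : M × M).1, (t : M × M).2] ?_ q t rfl rfl rfl
    intro i
    fin_cases i
    · exact hq
    · exact h1
    · exact h2
  have hlow : ∀ b ∈ X, b < k → b < α := by
    intro b hb hbk
    have : b ∈ X ∩ Set.Iio k := ⟨hb, hbk⟩
    rw [hα.seg] at this
    exact this
  have hγα : γ q < α := hlow _ hc1 (hγk q)
  refine ⟨?_, ⟨γ q, hγα, ?_⟩, ?_, ?_⟩
  · have key : ∀ t : (pull k (π X) q.q).D, (((e q ⟨(π X (t : M × M).1, π X (t : M × M).2),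
        t.2.2.2⟩ : Set.Iio k)) : M) < α := by
      intro t
      refine hlow _ (hc2 _ (hmem _ t.2.1) (hmem _ t.2.2.1)) ?_
      exact (e q _).2
    refine Cardinal.mk_le_of_injective (f := fun t : (pull k (π X) q.q).D =>
      (⟨(((e q ⟨(π X (t : M × M).1, π X (t : M × M).2), t.2.2.2⟩ : Set.Iio k)) : M),
        key t⟩ : Set.Iio α)) ?_
    intro t t' htt
    have h1 : (((e q ⟨(π X (t : M × M).1, π X (t : M × M).2), t.2.2.2⟩ : Set.Iio k)) : M) =
      (((e q ⟨(π X (t' : M × M).1, π X (t' : M × M).2), t'.2.2.2⟩ : Set.Iio k)) : M) :=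
      congrArg (fun z : Set.Iio α => (z : M)) htt
    have h2 := (e q).injective (Subtype.ext h1)
    have h3 := congrArg Subtype.val h2
    have h4 : π X (t : M × M).1 = π X (t' : M × M).1 := congrArg Prod.fst h3
    have h5 : π X (t : M × M).2 = π X (t' : M × M).2 := congrArg Prod.snd h3
    have h6 := hα.mono.injOn t.2.1 t'.2.1 h4
    have h7 := hα.mono.injOn t.2.2.1 t'.2.2.1 h5
    exact Subtype.ext (Prod.ext h6 h7)
  · rintro t ⟨ht1, ht2, ht3⟩
    have h1 : π X t.2 < γ q := hγ q _ ht3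
    rw [← hα.fix _ hγα] at h1
    exact (hα.mono.lt_iff_lt ht2 (hγk q)).1 h1
  · rintro t ⟨ht1, ht2, ht3⟩
    refine ⟨?_, ht1⟩
    have h1 := (q.ok.dom _ ht3).1
    have h2 : π X α ≤ π X t.1 := by
      rw [hα.top]
      exact h1
    exact (hα.mono.le_iff_le hα.lt ht1).1 h2
  · rintro t s ⟨ht1, ht2, hs1, hs2, hE⟩
    have h1 := q.ok.val _ _ hE
    constructor
    · have h2 : π X s.1 < π X α := by
        rw [hα.top]
        exact h1.1
      exact (hα.mono.lt_iff_lt hs1 hα.lt).1 h2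
    · exact (hα.mono.lt_iff_lt hs2 ht1).1 h1.2

theorem closed_aux (h : HS M k κ U π) {cP : PC M k → M} (hcP : Function.Injective cP)
    {cS : SC M k → M} (hcS : Function.Injective cS) (G : Set M → M → Set (RC M k cP))
    (hd : ∀ s a, Down (G s a))
    (hG : ∀ s : Set M, s.Countable → ∀ r : RC M k cP, ∃ r' ≤ r, ∃ a < k, r' ∈ G s a)
    (S : (ℕ → M) → Set M) (hS : ∀ x, (S x).Countable) :
    {X : Set M | ∀ x : ℕ → M, (∀ i, x i ∈ X) → ∀ (p : PC M k) (q : SC M k), cP p = x 0 →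
      cS q = x 1 → ∃ (p' : PC M k) (q' : SC M k) (a : M), cP p' ∈ X ∧ cS q' ∈ X ∧ a ∈ X ∧ a < k ∧
        p' ≤ p ∧ q'.q.Ext q.q ∧ (⟨p', q'⟩ : RC M k cP) ∈ G (S x) a} ∈ U := by
  have key : ∀ x : ℕ → M, ∃ w1 w2 w3 : M, ∀ (p : PC M k) (q : SC M k), cP p = x 0 → cS q = x 1 →
      ∃ (p' : PC M k) (q' : SC M k), cP p' = w1 ∧ cS q' = w2 ∧ w3 < k ∧
        p' ≤ p ∧ q'.q.Ext q.q ∧ (⟨p', q'⟩ : RC M k cP) ∈ G (S x) w3 := by
    intro x
    by_cases hx : ∃ (p : PC M k) (q : SC M k), cP p = x 0 ∧ cS q = x 1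
    · obtain ⟨p, q, hp, hq⟩ := hx
      obtain ⟨r', hr', a, ha, hr'G⟩ := hG (S x) (hS x) ⟨p, q⟩
      obtain ⟨q2, hq2, hle⟩ := RC.direct hr'
      refine ⟨cP r'.p, cS q2, a, fun p0 q0 hp0 hq0 => ?_⟩
      have e1 : p0 = p := hcP (hp0.trans hp.symm)
      have e2 : q0 = q := hcS (hq0.trans hq.symm)
      subst e1
      subst e2
      exact ⟨r'.p, q2, rfl, rfl, ha, hr'.1, hq2, hd _ _ _ hr'G _ hle⟩
    · exact ⟨x 0, x 0, x 0, fun p q hp hq => absurd ⟨p, q, hp, hq⟩ hx⟩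
  choose w1 w2 w3 hw using key
  have hcard : #ℕ < κ := by
    rw [Cardinal.mk_nat]
    exact Cardinal.aleph0_lt_aleph_one.trans h.unc
  have hmem := h.norm' hcard (fun X x => w1 x ∈ X ∧ w2 x ∈ X ∧ w3 x ∈ X) (fun x => by
    have h1 := h.fine (w1 x)
    have h2 := h.fine (w2 x)
    have h3 := h.fine (w3 x)
    filter_upwards [h1, h2, h3] with X a1 a2 a3
    exact ⟨a1, a2, a3⟩)
  filter_upwards [hmem] with X hX x hx p q hp hq
  obtain ⟨p', q', e1, e2, hk, hle, hext, hG'⟩ := hw x p q hp hq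
  obtain ⟨m1, m2, m3⟩ := hX x hx
  exact ⟨p', q', w3 x, by rw [e1]; exact m1, by rw [e2]; exact m2, m3, hk, hle, hext, hG'⟩


theorem HS.closed (h : HS M k κ U π) {cP : PC M k → M} (hcP : Function.Injective cP)
    {cS : SC M k → M} (hcS : Function.Injective cS) (G : Set M → M → Set (RC M k cP))
    (hd : ∀ s a, Down (G s a))
    (hG : ∀ s : Set M, s.Countable → ∀ r : RC M k cP, ∃ r' ≤ r, ∃ a < k, r' ∈ G s a) :
    {X : Set M | ∀ s ⊆ X, s.Countable → ∀ (p : PC M k) (q : SC M k), cP p ∈ X → cS q ∈ X →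
      ∃ (p' : PC M k) (q' : SC M k) (a : M), cP p' ∈ X ∧ cS q' ∈ X ∧ a ∈ X ∧ a < k ∧ p' ≤ p ∧
        q'.q.Ext q.q ∧ (⟨p', q'⟩ : RC M k cP) ∈ G s a} ∈ U := by
  have h1 := closed_aux h hcP hcS G hd hG (fun _ => ∅) (fun _ => Set.countable_empty)
  have h2 := closed_aux h hcP hcS G hd hG (fun x => Set.range fun n => x (n + 2))
    (fun _ => Set.countable_range _)
  filter_upwards [h1, h2] with X hX1 hX2 s hsX hsc p q hp hq
  rcases Set.eq_empty_or_nonempty s with hs | hs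
  · subst hs
    exact hX1 (fun n => if n = 0 then cP p else cS q) (fun i => by
      by_cases hi : i = 0
      · rw [if_pos hi]; exact hp
      · rw [if_neg hi]; exact hq) p q (by simp) (by simp)
  · obtain ⟨f, rfl⟩ := hsc.exists_eq_range hs
    exact hX2 (fun n => if n = 0 then cP p else if n = 1 then cS q else f (n - 2)) (fun i => by
      by_cases hi : i = 0
      · rw [if_pos hi]; exact hp
      · rw [if_neg hi]
        by_cases hi1 : i = 1
        · rw [if_pos hi1]; exact hq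
        · rw [if_neg hi1]
          exact hsX ⟨i - 2, rfl⟩) p q (by simp) (by simp)

end

end Pool.Agent.Helper669.U
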