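import Mathlib
import Pool.Agent.Helper669.UB

set_option autoImplicit false

/-!
# The iteration: closure, chain condition, collapses
-/

namespace Pool.Agent.Helper669.U

open Cardinal Pool.Agent.Helper669.Forcing Pool.Agent.Helper669.K

section

variable {M : Type} [LinearOrder M] {k : M} {κ : Cardinal.{0}} {U : Ultrafilter (Set M)}
  {π : Set M → M → M}

theorem mk_ctbl_union_le {ι β : Type} {s : Set ι} (hs : s.Countable) (A : ι → Set β)
    {c : Cardinal.{0}} (hc : ℵ₀ ≤ c) (hA : ∀ i ∈ s, #(A i) ≤ c) : #(⋃ i ∈ s, A i : Set β) ≤ c := by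
  refine (Cardinal.mk_biUnion_le A s).trans ?_
  refine Cardinal.mul_le_of_le hc ((Cardinal.le_aleph0_iff_set_countable.2 hs).trans hc) ?_
  exact ciSup_le' fun i => hA i.1 i.2

theorem bdd_below_k (h : HS M k κ U π) {C : Set M} (hC : C ⊆ Set.Iio k) (hc : C.Countable) :
    ∃ γ < k, ∀ c ∈ C, c < γ := by
  by_contra hcon
  push Not at hcon
  have hcov : Set.Iio k ⊆ ⋃ c ∈ C, Set.Iic c := by
    intro γ hγ
    obtain ⟨c, hcC, hle⟩ := hcon γ hγ
    exact Set.mem_biUnion hcC hle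
  have hκ : ℵ₀ ≤ κ := h.reg.aleph0_le
  have hlt : #(⋃ c ∈ C, Set.Iic c : Set M) < κ := by
    refine (Cardinal.card_biUnion_lt_iff_forall_of_isRegular (t := fun c _ => Set.Iic c) h.reg
      ?_).2 ?_
    · exact ((Cardinal.countable_iff_lt_aleph_one C).1 hc).trans h.unc
    · intro a ha
      have h1 : Set.Iic a = insert a (Set.Iio a) := by
        ext x; simp [le_iff_eq_or_lt]
      rw [h1]
      refine (Cardinal.mk_insert_le).trans_lt ?_
      exact Cardinal.add_lt_of_lt hκ (h.mk_lt a (hC ha)) (Cardinal.one_lt_aleph0.trans_le hκ)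
  have h2 : κ ≤ #(⋃ c ∈ C, Set.Iic c : Set M) := by
    rw [← h.mk_k]
    exact Cardinal.mk_le_mk_of_subset hcov
  exact absurd hlt (not_lt.2 h2)

/-- the union of a directed set of conditions of the first forcing -/
def unionP (k : M) (D : Set (PC M k)) (α : M) : Sl M where
  D := ⋃ r ∈ D, (r.f α).D
  E := ⋃ r ∈ D, (r.f α).E
  sub := by
    intro t s hts
    simp only [Set.mem_iUnion] at hts ⊢
    obtain ⟨r, hr, h⟩ := hts
    exact ⟨r, hr, (r.f α).sub _ _ h⟩

theorem unionP_ext {D : Set (PC M k)} (hdir : ∀ a ∈ D, ∀ b ∈ D, ∃ c ∈ D, c ≤ a ∧ c ≤ b)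
    {r : PC M k} (hr : r ∈ D) (α : M) : (unionP k D α).Ext (r.f α) := by
  refine ⟨fun t ht => Set.mem_biUnion hr ht, fun t ht s => ⟨fun hts => ?_, fun hts =>
    Set.mem_biUnion hr hts⟩⟩
  simp only [unionP, Set.mem_iUnion] at hts
  obtain ⟨r', hr', hts⟩ := hts
  obtain ⟨c, hc, hcr, hcr'⟩ := hdir r hr r' hr'
  have h1 := (hcr α).2 t ht s
  have h2 := (hcr' α).2 t ((r'.f α).sub _ _ hts) s
  exact h1.1 (h2.2 hts)

theorem exists_boundP {D : Set (PC M k)} (hD : D.Countable)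
    (hdir : ∀ a ∈ D, ∀ b ∈ D, ∃ c ∈ D, c ≤ a ∧ c ≤ b) : ∃ p : PC M k, ∀ r ∈ D, p ≤ r := by
  have hne : ∀ α, (unionP k D α).D.Nonempty → ∃ r ∈ D, (r.f α).D.Nonempty := by
    rintro α ⟨t, ht⟩
    simp only [unionP, Set.mem_iUnion] at ht
    obtain ⟨r, hr, ht⟩ := ht
    exact ⟨r, hr, t, ht⟩
  refine ⟨⟨unionP k D, ?_, ?_⟩, fun r hr α => unionP_ext hdir hr α⟩
  · refine (hD.biUnion (t := fun r _ => {α | (r.f α).D.Nonempty}) fun r _ => r.cnt).mono ?_
    intro α hα
    obtain ⟨r, hr, h⟩ := hne α hα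
    exact Set.mem_biUnion hr h
  · intro α hα
    obtain ⟨r, hr, hrn⟩ := hne α hα
    obtain ⟨hαk, hgood, -⟩ := r.ok α hrn
    refine ⟨hαk, hgood, ?_, ?_, ?_, ?_⟩
    · refine mk_ctbl_union_le hD (fun r => (r.f α).D) hgood.1.le ?_
      intro r' hr'
      rcases (r'.f α).D.eq_empty_or_nonempty with he | hn
      · rw [he]; simp
      · exact (r'.ok α hn).2.2.card
    · have hg : ∀ r' ∈ D, ∃ γ < α, ∀ t ∈ (r'.f α).D, t.2 < γ := by
        intro r' hr'
        rcases (r'.f α).D.eq_empty_or_nonempty with he | hn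
        · obtain ⟨γ, hγ, -⟩ := (r.ok α hrn).2.2.ht
          exact ⟨γ, hγ, by simp [he]⟩
        · exact (r'.ok α hn).2.2.ht
      haveI : Nonempty M := ⟨α⟩
      choose! γ hγ hγt using hg
      obtain ⟨δ, hδ, hδC⟩ := hgood.2.2 (γ '' D) (by rintro _ ⟨r', hr', rfl⟩; exact hγ r' hr')
        ((Cardinal.le_aleph0_iff_set_countable.2 (hD.image γ)).trans_lt hgood.1)
      refine ⟨δ, hδ, ?_⟩
      intro t ht
      simp only [unionP, Set.mem_iUnion] at ht
      obtain ⟨r', hr', ht⟩ := ht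
      exact (hγt r' hr' t ht).trans (hδC _ ⟨r', hr', rfl⟩)
    · intro t ht
      simp only [unionP, Set.mem_iUnion] at ht
      obtain ⟨r', hr', ht⟩ := ht
      exact (r'.ok α ⟨t, ht⟩).2.2.dom t ht
    · intro t s hts
      simp only [unionP, Set.mem_iUnion] at hts
      obtain ⟨r', hr', hts⟩ := hts
      exact (r'.ok α ⟨t, (r'.f α).sub _ _ hts⟩).2.2.val t s hts


theorem RC.dirClosed (h : HS M k κ U π) (cP : PC M k → M) : DirClosed ℵ₁ (RC M k cP) := by
  classical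
  intro D hD hDne hdir
  have hDc : D.Countable := (Cardinal.countable_iff_lt_aleph_one D).2 hD
  obtain ⟨p, hp⟩ := exists_boundP (D := (fun r : RC M k cP => r.p) '' D) (hDc.image _) (by
    rintro _ ⟨a, ha, rfl⟩ _ ⟨b, hb, rfl⟩
    obtain ⟨c, hc, hca, hcb⟩ := hdir a ha b hb
    exact ⟨c.p, ⟨c, hc, rfl⟩, hca.1, hcb.1⟩)
  obtain ⟨r₀, hr₀⟩ := hDne
  have hg : ∀ t : M × M, ∃ r : RC M k cP, (∃ r' ∈ D, t ∈ r'.q.q.D) → r ∈ D ∧ t ∈ r.q.q.D := by
    intro t
    by_cases ht : ∃ r' ∈ D, t ∈ r'.q.q.D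
    · obtain ⟨r', h1, h2⟩ := ht
      exact ⟨r', fun _ => ⟨h1, h2⟩⟩
    · exact ⟨r₀, fun h' => absurd h' ht⟩
  choose g hg using hg
  let qs : Sl M :=
    { D := {t | ∃ r' ∈ D, t ∈ r'.q.q.D}
      E := {u | (∃ r' ∈ D, u.1 ∈ r'.q.q.D) ∧ u ∈ (g u.1).q.q.E}
      sub := fun t s hts => hts.1 }
  have hqs : IsSil k Set.univ qs := by
    refine ⟨?_, ?_, ?_, ?_⟩
    · have h1 : qs.D = ⋃ r ∈ D, r.q.q.D := by
        ext t; simp [qs]
      rw [h1]
      refine mk_ctbl_union_le hDc (fun r => r.q.q.D) ?_ fun r _ => r.q.ok.card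
      rw [h.mk_k]; exact h.reg.aleph0_le
    · have hγ : ∀ r : RC M k cP, ∃ γ < k, ∀ t ∈ r.q.q.D, t.2 < γ := fun r => r.q.ok.ht
      choose γ hγ hγt using hγ
      obtain ⟨δ, hδ, hδC⟩ := bdd_below_k h (C := γ '' D)
        (by rintro _ ⟨r', hr', rfl⟩; exact hγ r') (hDc.image γ)
      refine ⟨δ, hδ, ?_⟩
      rintro t ⟨r', hr', ht⟩
      exact (hγt r' t ht).trans (hδC _ ⟨r', hr', rfl⟩)
    · rintro t ⟨r', hr', ht⟩
      exact r'.q.ok.dom t ht
    · rintro t s ⟨-, hts⟩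
      exact (g t).q.ok.val t s hts
  refine ⟨⟨p, ⟨qs, hqs⟩⟩, ?_⟩
  intro r hr
  refine ⟨hp _ ⟨r, hr, rfl⟩, ?_⟩
  intro t ht
  have htD : ∃ r' ∈ D, t ∈ r'.q.q.D := ⟨r, hr, ht⟩
  refine ⟨htD, ?_⟩
  intro η p' hp'
  obtain ⟨hgD, hgt⟩ := hg t htD
  have hnm : nm cP qs t η = nm cP (g t).q.q t η := by
    ext x
    constructor
    · rintro ⟨b, hb, hE⟩
      exact ⟨b, hb, hE.2⟩
    · rintro ⟨b, hb, hE⟩
      exact ⟨b, hb, htD, hE⟩
  obtain ⟨c, hc, hcr, hcg⟩ := hdir r hr (g t) hgD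
  have hpc : p' ≤ c.p := le_trans hp' (hp _ ⟨c, hc, rfl⟩)
  have h1 := (hcr.2 t ht).2 η p' hpc
  have h2 := (hcg.2 t hgt).2 η p' hpc
  show p' ∈ meets (nm cP qs t η) ↔ p' ∈ meets (nm cP r.q.q t η)
  rw [hnm, ← h2, h1]

theorem HS.sil_cc (h : HS M k κ U π) {α : M} (hα : α < k) (hg : Good α) (ι : Type) (f : ι → Sl M)
    (hf : ∀ i, IsSil α (Set.Iio k) (f i)) (hι : κ ≤ #ι) : ∃ i j, i ≠ j ∧ (f i).Comp (f j) := by
  classical
  -- an injection of `Iio k` into `ι`
  obtain ⟨e⟩ : Nonempty (Set.Iio k ↪ ι) := by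
    rw [← Cardinal.le_def, h.mk_k]
    exact hι
  let idx : M → ι := fun ξ => if hξ : ξ < k then e ⟨ξ, hξ⟩ else e ⟨α, hα⟩
  have hidx : ∀ ξ ξ', ξ < k → ξ' < k → idx ξ = idx ξ' → ξ = ξ' := by
    intro ξ ξ' h1 h2 h3
    have h4 : idx ξ = e ⟨ξ, h1⟩ := dif_pos h1
    have h5 : idx ξ' = e ⟨ξ', h2⟩ := dif_pos h2
    rw [h4, h5] at h3
    exact congrArg Subtype.val (e.injective h3)
  let B : Set M → M := fun X => if hX : ∃ β, IsAl k π X β then hX.choose else k
  have hB : {X : Set M | IsAl k π X (B X)} ∈ U := by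
    filter_upwards [h.isAl] with X hX
    have h1 : B X = hX.choose := dif_pos hX
    show IsAl k π X (B X)
    rw [h1]
    exact hX.choose_spec
  have hαX : {X : Set M | α ∈ X} ∈ U := h.fine α
  have hlam : #(Set.Iio α) < κ := h.mk_lt α hα
  -- Step 1: a common bound
  obtain ⟨γ, hγ⟩ : ∃ γ : M, {X : Set M | γ < B X ∧
      ∀ t ∈ (f (idx (B X))).D, t.1 < B X → t.1 < γ} ∈ U := by
    by_contra hcon
    push Not at hcon
    have hA : ∀ γ : M, {X : Set M | γ < B X ∧
        ∀ t ∈ (f (idx (B X))).D, t.1 < B X → t.1 < γ}ᶜ ∈ U :=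
      fun γ => Ultrafilter.compl_mem_iff_notMem.mpr (hcon γ)
    have hN := h.norm _ hA
    have hall := Filter.inter_mem hN (Filter.inter_mem hB hαX)
    obtain ⟨X, hX1, hX2, hX3⟩ := U.neBot.nonempty_of_mem hall
    have hX2' : IsAl k π X (B X) := hX2
    have hαB : α < B X := by
      have : α ∈ X ∩ Set.Iio k := ⟨hX3, hα⟩
      rw [hX2'.seg] at this
      exact this
    obtain ⟨γ, hγ1, hγ2⟩ := hX2'.good.2.2
      {c | c < B X ∧ ∃ t ∈ (f (idx (B X))).D, t.1 = c} (fun c hc => hc.1) (by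
        have h1 : {c | c < B X ∧ ∃ t ∈ (f (idx (B X))).D, t.1 = c} ⊆
            Prod.fst '' (f (idx (B X))).D := by
          rintro c ⟨_, t, ht, rfl⟩
          exact ⟨t, ht, rfl⟩
        calc #{c | c < B X ∧ ∃ t ∈ (f (idx (B X))).D, t.1 = c}
            ≤ #(Prod.fst '' (f (idx (B X))).D) := Cardinal.mk_le_mk_of_subset h1
          _ ≤ #(f (idx (B X))).D := Cardinal.mk_image_le
          _ ≤ #(Set.Iio α) := (hf _).card
          _ < #(Set.Iio (B X)) := hX2'.good.2.1 α hαB)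
    have hγX : γ ∈ X := by
      have : γ ∈ Set.Iio (B X) := hγ1
      rw [← hX2'.seg] at this
      exact this.1
    exact hX1 γ hγX ⟨hγ1, fun t ht htB => hγ2 t.1 ⟨htB, t, ht, rfl⟩⟩
  have hγk : γ < k := by
    obtain ⟨X, hX1, hX2⟩ := U.neBot.nonempty_of_mem (Filter.inter_mem hγ hB)
    exact hX1.1.trans hX2.lt
  -- Step 2: a common restriction
  let δ : M := max γ α
  have hδ : δ < k := max_lt hγk hα
  have hδκ : #(Set.Iio δ) < κ := h.mk_lt δ hδ
  have hκ : ℵ₀ ≤ κ := h.reg.aleph0_le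
  let T : Type := (Set.Iio δ × Set.Iio δ) × (Set.Iio δ × Set.Iio δ)
  have hT : #T < κ := by
    have h1 : #(Set.Iio δ × Set.Iio δ) < κ := by
      rw [← Cardinal.mul_def]
      exact Cardinal.mul_lt_of_lt hκ hδκ hδκ
    show #((Set.Iio δ × Set.Iio δ) × (Set.Iio δ × Set.Iio δ)) < κ
    rw [← Cardinal.mul_def]
    exact Cardinal.mul_lt_of_lt hκ h1 h1
  let R : Set M → Set T := fun X =>
    {u | (((u.1.1 : M), (u.1.2 : M)), ((u.2.1 : M), (u.2.2 : M))) ∈ (f (idx (B X))).E}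
  obtain ⟨c, hc⟩ : ∃ c : Set T, {X : Set M | R X = c} ∈ U := by
    by_contra hcon
    push Not at hcon
    have hA : ∀ c : Set T, {X : Set M | R X = c}ᶜ ∈ U :=
      fun c => Ultrafilter.compl_mem_iff_notMem.mpr (hcon c)
    have hP : #(Set T) < κ := by
      rw [Cardinal.mk_set]
      exact h.strong _ hT
    have h2 := h.comp (Set T) hP _ hA
    obtain ⟨X, hX⟩ := U.neBot.nonempty_of_mem h2
    exact hX (R X) rfl
  -- Step 3: two members
  have hG := Filter.inter_mem hB (Filter.inter_mem hγ hc)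
  obtain ⟨X1, hX1a, hX1b, hX1c⟩ := U.neBot.nonempty_of_mem hG
  have hX1a' : IsAl k π X1 (B X1) := hX1a
  have hD1 : #(f (idx (B X1))).D < κ := (hf _).card.trans_lt hlam
  have h3 := h.comp (f (idx (B X1))).D hD1 (fun t => {X : Set M | (t : M × M).1 ∈ X})
    (fun t => h.fine _)
  have h4 := h.fine (B X1)
  obtain ⟨X2, hX2a, ⟨hX2b, hX2c⟩, hX2d, hX2e⟩ := U.neBot.nonempty_of_mem
    (Filter.inter_mem hB (Filter.inter_mem (Filter.inter_mem hγ hc) (Filter.inter_mem h3 h4)))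
  have hX2a' : IsAl k π X2 (B X2) := hX2a
  have hlt : B X1 < B X2 := by
    have : B X1 ∈ X2 ∩ Set.Iio k := ⟨hX2e, hX1a'.lt⟩
    rw [hX2a'.seg] at this
    exact this
  refine ⟨idx (B X1), idx (B X2), ?_, ?_⟩
  · intro heq
    exact hlt.ne (hidx _ _ hX1a'.lt hX2a'.lt heq)
  · intro t ht1 ht2 s
    have ht1k : t.1 < k := ((hf _).dom t ht1).2
    have htB2 : t.1 < B X2 := by
      have : t.1 ∈ X2 ∩ Set.Iio k := ⟨hX2d ⟨t, ht1⟩, ht1k⟩
      rw [hX2a'.seg] at this
      exact this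
    have htγ : t.1 < γ := hX2b.2 t ht2 htB2
    have htδ : t.1 < δ := htγ.trans_le (le_max_left _ _)
    have ht2α : t.2 < α := by
      obtain ⟨γ', hγ', h5⟩ := (hf (idx (B X1))).ht
      exact (h5 t ht1).trans hγ'
    have ht2δ : t.2 < δ := ht2α.trans_le (le_max_right _ _)
    have hR : R X1 = R X2 := by
      have e1 : R X1 = c := hX1c
      have e2 : R X2 = c := hX2c
      rw [e1, e2]
    by_cases hs : s.1 < δ ∧ s.2 < δ
    · have h6 : ((⟨⟨t.1, htδ⟩, ⟨t.2, ht2δ⟩⟩, ⟨⟨s.1, hs.1⟩, ⟨s.2, hs.2⟩⟩) : T) ∈ R X1 ↔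
          ((⟨⟨t.1, htδ⟩, ⟨t.2, ht2δ⟩⟩, ⟨⟨s.1, hs.1⟩, ⟨s.2, hs.2⟩⟩) : T) ∈ R X2 := by
        rw [hR]
      exact h6
    · constructor
      · intro h7
        have h8 := (hf _).val t s h7
        exact absurd ⟨h8.1.trans_le (le_max_right _ _), h8.2.trans htδ⟩ hs
      · intro h7
        have h8 := (hf _).val t s h7
        exact absurd ⟨h8.1.trans_le (le_max_right _ _), h8.2.trans htδ⟩ hs

/-- the union of two compatible conditions -/
def rccUnion (a b : Sl M) : Sl M where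
  D := a.D ∪ b.D
  E := a.E ∪ b.E
  sub := by
    intro t s h
    rcases h with h | h
    · exact Or.inl (a.sub t s h)
    · exact Or.inr (b.sub t s h)

theorem rccUnion_left {a b : Sl M} (h : a.Comp b) (t : M × M) (ht : t ∈ a.D) (s : M × M) :
    (t, s) ∈ (rccUnion a b).E ↔ (t, s) ∈ a.E := by
  constructor
  · intro h'
    rcases h' with h' | h'
    · exact h'
    · exact (h t ht (b.sub t s h') s).2 h'
  · intro h'
    exact Or.inl h'

theorem rccUnion_right {a b : Sl M} (h : a.Comp b) (t : M × M) (ht : t ∈ b.D) (s : M × M) :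
    (t, s) ∈ (rccUnion a b).E ↔ (t, s) ∈ b.E := by
  constructor
  · intro h'
    rcases h' with h' | h'
    · exact (h t (a.sub t s h') ht s).1 h'
    · exact h'
  · intro h'
    exact Or.inr h'

theorem rccUnion_isSil (hk : ℵ₀ ≤ #(Set.Iio k)) {a b : Sl M} (ha : IsSil k Set.univ a)
    (hb : IsSil k Set.univ b) : IsSil k Set.univ (rccUnion a b) where
  card := by
    have h1 : #(↑(a.D ∪ b.D) : Type) ≤ #a.D + #b.D := Cardinal.mk_union_le _ _
    refine h1.trans ((add_le_add ha.card hb.card).trans ?_)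
    rw [Cardinal.add_eq_self hk]
  ht := by
    obtain ⟨γ, hγ, h1⟩ := ha.ht
    obtain ⟨δ, hδ, h2⟩ := hb.ht
    refine ⟨max γ δ, max_lt hγ hδ, ?_⟩
    intro t ht
    rcases ht with ht | ht
    · exact (h1 t ht).trans_le (le_max_left _ _)
    · exact (h2 t ht).trans_le (le_max_right _ _)
  dom := by
    intro t ht
    rcases ht with ht | ht
    · exact ha.dom t ht
    · exact hb.dom t ht
  val := by
    intro t s hts
    rcases hts with h | h
    · exact ha.val t s h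
    · exact hb.val t s h

theorem RC.cc (h : HS M k κ U π) (hM : ∀ a : M, #(Set.Iio a) < #M) {cP : PC M k → M}
    (hcP : Function.Injective cP) (hlt : ∀ p, cP p < k) {cS : SC M k → M}
    (hcS : Function.Injective cS) (ι : Type) (f : ι → RC M k cP) (hι : #M ≤ #ι) :
    ∃ i j, i ≠ j ∧ ∃ r, r ≤ f i ∧ r ≤ f j := by
  by_contra hno
  have hκ0 : ℵ₀ ≤ κ := (Cardinal.aleph0_lt_aleph_one.trans h.unc).le
  have hkinf : ℵ₀ ≤ #(Set.Iio k) := by rw [h.mk_k]; exact hκ0
  have hreg : (#M).IsRegular := (h.target hM).1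
  obtain ⟨e⟩ := hι
  obtain ⟨a, ha⟩ := Cardinal.infinite_pigeonhole_card
    (fun x : M => (⟨cP (f (e x)).p, hlt _⟩ : Set.Iio k)) (#M) le_rfl hreg.aleph0_le
    (by rw [hreg.cof_eq]; exact hM k)
  obtain ⟨g0⟩ := ha
  have hg0 : ∀ x, cP (f (e (g0 x).1)).p = a.1 := fun x => congrArg Subtype.val (g0 x).2
  have hinj : Function.Injective fun x : M => e (g0 x).1 :=
    fun x y hxy => g0.injective (Subtype.ext (e.injective hxy))
  set g : M → ι := fun x => e (g0 x).1 with hg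
  have hp : ∀ x y, (f (g x)).p = (f (g y)).p := fun x y => hcP ((hg0 x).trans (hg0 y).symm)
  have hnc : ∀ x y, x ≠ y → ¬ (f (g x)).q.q.Comp (f (g y)).q.q := by
    intro x y hxy hc
    apply hno
    refine ⟨g x, g y, fun h' => hxy (hinj h'), ⟨(f (g x)).p, ⟨rccUnion (f (g x)).q.q (f (g y)).q.q,
      rccUnion_isSil hkinf (f (g x)).q.ok (f (g y)).q.ok⟩⟩, ?_, ?_⟩
    · refine ⟨le_rfl, ?_⟩
      intro t ht
      refine ⟨Or.inl ht, ?_⟩
      intro η p _
      have : nm cP (rccUnion (f (g x)).q.q (f (g y)).q.q) t η = nm cP (f (g x)).q.q t η := by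
        ext z
        constructor
        · rintro ⟨b, hb, hb'⟩
          exact ⟨b, hb, (rccUnion_left hc t ht _).1 hb'⟩
        · rintro ⟨b, hb, hb'⟩
          exact ⟨b, hb, (rccUnion_left hc t ht _).2 hb'⟩
      change p ∈ meets (nm cP (rccUnion (f (g x)).q.q (f (g y)).q.q) t η) ↔ _
      rw [this]
    · refine ⟨(hp x y).le, ?_⟩
      intro t ht
      refine ⟨Or.inr ht, ?_⟩
      intro η p _
      have : nm cP (rccUnion (f (g x)).q.q (f (g y)).q.q) t η = nm cP (f (g y)).q.q t η := by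
        ext z
        constructor
        · rintro ⟨b, hb, hb'⟩
          exact ⟨b, hb, (rccUnion_right hc t ht _).1 hb'⟩
        · rintro ⟨b, hb, hb'⟩
          exact ⟨b, hb, (rccUnion_right hc t ht _).2 hb'⟩
      change p ∈ meets (nm cP (rccUnion (f (g x)).q.q (f (g y)).q.q) t η) ↔ _
      rw [this]
  have hcl : {X : Set M | ∀ x ∈ X, X ∈ {X : Set M | cS (f (g x)).q ∈ X}} ∈ U :=
    h.norm (fun x => {X : Set M | cS (f (g x)).q ∈ X}) (fun x => h.fine _)
  have hall := Filter.inter_mem (Filter.inter_mem hcl h.isAl)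
    (Filter.inter_mem (h.comp_of_pull hcS) (h.isSil_pull hcS))
  obtain ⟨X, ⟨hX1, α, hα⟩, hX3, hX4⟩ := U.nonempty_of_mem hall
  have hcard : κ ≤ #X := by
    have h1 : #(π X '' Set.Iio k) = #(Set.Iio k) := Cardinal.mk_image_eq_of_injOn _ _ hα.mono.injOn
    rw [hα.img] at h1
    rw [h1, h.mk_k]
  obtain ⟨i, j, hij, hc⟩ := h.sil_cc hα.lt hα.good X (fun x => pull k (π X) (f (g x.1)).q.q)
    (fun x => hX4 α hα _ (hX1 x.1 x.2)) hcard
  exact hnc i.1 j.1 (fun h' => hij (Subtype.ext h'))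
    (hX3 _ _ (hX1 i.1 i.2) (hX1 j.1 j.2) hc)

theorem HS.exists_omega (h : HS M k κ U π) : ∃ α < k, Good α ∧ #(Set.Iio α) = ℵ₁ := by
  classical
  haveI := h.wf
  -- initial segments all of whose proper initial segments are countable have size at most aleph1
  have key : ∀ α : M, (∀ b < α, #(Set.Iio b) ≤ ℵ₀) → #(Set.Iio α) ≤ ℵ₁ := by
    intro α hα
    by_contra hcon
    push Not at hcon
    -- the order type of Iio α is larger than omega_1
    let r : Set.Iio α → Set.Iio α → Prop := (· < ·)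
    have hwo : IsWellOrder (Set.Iio α) r := inferInstance
    have h1 : (Cardinal.ord ℵ₁ : Ordinal.{0}) < Ordinal.type r := by
      have h2 : (Ordinal.type r).card = #(Set.Iio α) := Ordinal.card_type r
      by_contra h3
      push Not at h3
      have h4 := Ordinal.card_le_card h3
      rw [h2] at h4
      have h5 : (Cardinal.ord ℵ₁ : Ordinal.{0}).card = ℵ₁ := Cardinal.card_ord _
      rw [h5] at h4
      exact absurd hcon (not_lt.2 h4)
    obtain ⟨b, hb⟩ : ∃ b, Ordinal.typein r b = Cardinal.ord ℵ₁ := Ordinal.typein_surj r h1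
    have h6 : #{c : Set.Iio α // r c b} = ℵ₁ := by
      have h7 : (Ordinal.typein r b).card = #{c : Set.Iio α // r c b} := rfl
      rw [← h7, hb]
      exact Cardinal.card_ord _
    have h8 : #{c : Set.Iio α // r c b} ≤ #(Set.Iio (b : M)) := by
      refine Cardinal.mk_le_of_injective (f := fun c => ⟨c.1.1, c.2⟩) ?_
      intro c c' hcc
      have := congrArg Subtype.val hcc
      exact Subtype.ext (Subtype.ext this)
    have h9 := hα b b.2
    rw [h6] at h8
    exact absurd (le_trans h8 h9) (not_le.2 Cardinal.aleph0_lt_aleph_one)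
  have hk1 : ℵ₁ ≤ #(Set.Iio k) := by rw [h.mk_k]; exact h.unc.le
  obtain ⟨α, hα, hmin⟩ := WellFounded.has_min h.wf.wf {a : M | ℵ₁ ≤ #(Set.Iio a)} ⟨k, hk1⟩
  have hcount : ∀ b < α, #(Set.Iio b) ≤ ℵ₀ := by
    intro b hb
    have h1 : ¬ ℵ₁ ≤ #(Set.Iio b) := fun h2 => hmin b h2 hb
    have h3 : #(Set.Iio b) < ℵ₁ := not_le.1 h1
    exact Cardinal.lt_aleph_one_iff.1 h3
  have hαle := key α hcount
  have hαeq : #(Set.Iio α) = ℵ₁ := le_antisymm hαle hα
  have hαk : α < k := by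
    rcases lt_trichotomy α k with h1 | h1 | h1
    · exact h1
    · exfalso
      rw [h1, h.mk_k] at hαeq
      exact absurd h.unc (by rw [hαeq]; exact lt_irrefl _)
    · exact absurd h1 (hmin k hk1)
  refine ⟨α, hαk, ⟨?_, ?_, ?_⟩, hαeq⟩
  · rw [hαeq]; exact Cardinal.aleph0_lt_aleph_one
  · intro b hb
    rw [hαeq]
    exact lt_of_le_of_lt (hcount b hb) Cardinal.aleph0_lt_aleph_one
  · intro C hC hCc
    rw [hαeq] at hCc
    have hC0 : #C ≤ ℵ₀ := Cardinal.lt_aleph_one_iff.1 hCc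
    by_contra hcon
    push Not at hcon
    -- then Iio α is a countable union of countable sets
    have hlim : ∀ c < α, #(Set.Iic c) ≤ ℵ₀ := by
      intro c hc
      have h1 : Set.Iic c = insert c (Set.Iio c) := by
        ext x; simp [le_iff_eq_or_lt]
      rw [h1, Cardinal.mk_le_aleph0_iff]
      have h2 : (Set.Iio c).Countable := by
        rw [← Cardinal.le_aleph0_iff_set_countable]; exact hcount c hc
      exact (h2.insert c).to_subtype
    have hsub : Set.Iio α ⊆ ⋃ c ∈ C, Set.Iic c := by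
      intro γ hγ
      obtain ⟨c, hc, hcγ⟩ := hcon γ hγ
      exact Set.mem_biUnion hc hcγ
    have hCcount : C.Countable := by
      rw [← Cardinal.le_aleph0_iff_set_countable]; exact hC0
    have hU : (⋃ c ∈ C, Set.Iic c).Countable := by
      apply Set.Countable.biUnion hCcount
      intro c hc
      rw [← Cardinal.le_aleph0_iff_set_countable]
      exact hlim c (hC hc)
    have h3 := Cardinal.le_aleph0_iff_set_countable.2 (hU.mono hsub)
    rw [hαeq] at h3
    exact absurd h3 (not_le.2 Cardinal.aleph0_lt_aleph_one)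

theorem h208_exists_seg (h : HS M k κ U π) (ν : Cardinal.{0}) (hν : ν < κ) :
    ∃ d < k, ν ≤ #(Set.Iio d) := by
  have := h.wf
  have h1 : ν.ord < Ordinal.type (fun a b : Set.Iio k => a < b) := by
    refine lt_of_lt_of_le (Cardinal.ord_lt_ord.2 hν) ?_
    rw [Cardinal.ord_le, Ordinal.card_type, h.mk_k]
  obtain ⟨d, hd⟩ := Ordinal.typein_surj (fun a b : Set.Iio k => a < b) h1
  refine ⟨d.1, d.2, ?_⟩
  have h2 : #{x : Set.Iio k // x < d} = ν := by
    have := congrArg Ordinal.card hd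
    rw [Cardinal.card_ord] at this
    rw [← this]
    rfl
  rw [← h2]
  exact Cardinal.mk_le_of_injective (f := fun x => (⟨x.1.1, x.2⟩ : Set.Iio d.1)) (by
    intro x y hxy
    have := congrArg Subtype.val hxy
    exact Subtype.ext (Subtype.ext this))

/-- add one value to a condition -/
def h208_add (q : Sl M) (t0 s0 : M × M) : Sl M where
  D := insert t0 q.D
  E := insert (t0, s0) q.E
  sub := fun t s hts => by
    rcases hts with h | h
    · left
      exact (Prod.mk.inj h).1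
    · right
      exact q.sub _ _ h

theorem h208_add_ext (q : Sl M) (t0 s0 : M × M) (h : t0 ∉ q.D) : (h208_add q t0 s0).Ext q := by
  refine ⟨Set.subset_insert _ _, fun t ht s => ⟨fun h' => ?_, fun h' => Or.inr h'⟩⟩
  rcases h' with h' | h'
  · rw [Prod.mk.injEq] at h'
    rw [h'.1] at ht
    exact absurd ht h
  · exact h'


theorem RC.collapsed (h : HS M k κ U π) (cP : PC M k → M) (r : RC M k cP) :
    r ∈ CollapsedTo (RC M k cP) ℵ₁ κ := by
  classical
  obtain ⟨α, hαk, hgood, hαc⟩ := h.exists_omega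
  intro ν hν
  obtain ⟨d0, hd0, hd0ν⟩ := h208_exists_seg h ν hν
  -- the element d
  obtain ⟨d, hαd, hdk, hdν⟩ : ∃ d, α ≤ d ∧ d < k ∧ ν ≤ #(Set.Iio d) := by
    refine ⟨max d0 α, le_max_right _ _, max_lt hd0 hαk, hd0ν.trans ?_⟩
    exact Cardinal.mk_le_mk_of_subset (Set.Iio_subset_Iio (le_max_left _ _))
  obtain ⟨e⟩ : Nonempty (ν.out ↪ Set.Iio d) := by
    rw [← Cardinal.le_def, Cardinal.mk_out]
    exact hdν
  obtain ⟨g⟩ : Nonempty ((ℵ₁ : Cardinal.{0}).ord.ToType ≃ Set.Iio α) := by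
    rw [← Cardinal.eq, Cardinal.mk_ord_toType, hαc]
  obtain ⟨b0, hb0⟩ : ∃ b0 : M, b0 < α := by
    have : (Set.Iio α).Nonempty := by
      rw [← Cardinal.mk_set_ne_zero_iff, hαc]
      exact (Cardinal.aleph_pos 1).ne'
    exact this
  let R : (ℵ₁ : Cardinal.{0}).ord.ToType → ν.out → Set (RC M k cP) := fun ξ y =>
    {r | (d, (g ξ : M)) ∈ (r.p.f α).D ∧
      ∀ s, ((d, (g ξ : M)), s) ∈ (r.p.f α).E ↔ s = (b0, (e y : M))}
  have hdown : ∀ ξ y, Down (R ξ y) := by
    rintro ξ y p ⟨hp1, hp2⟩ q hq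
    have hext := hq.1 α
    exact ⟨hext.1 hp1, fun s => (hext.2 _ hp1 s).trans (hp2 s)⟩
  refine mem_fex_of_mem R (down_fand (down_fall fun _ => down_fall fun _ => down_fall fun _ =>
    down_fimp _ _) (down_IsOnto _)) ⟨?_, ?_⟩
  · intro ξ y y'
    rw [mem_fimp]
    rintro q _ ⟨h1, h2⟩
    refine ⟨q, le_rfl, ?_⟩
    obtain ⟨q1, hq1, h3⟩ := exists_of_meets (hdown _ _) h1
    obtain ⟨q2, hq2, h4⟩ := exists_of_meets (hdown _ _) (down_meets _ _ h2 q1 hq1)
    have h5 := hdown _ _ _ h3 q2 hq2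
    have h6 := (h4.2 _).1 ((h5.2 _).2 rfl)
    rw [Prod.mk.injEq] at h6
    exact e.injective (Subtype.ext h6.2)
  · intro y
    rw [mem_fex]
    intro r _
    -- the height
    obtain ⟨γ, hγ, hγD⟩ : ∃ γ < α, ∀ t ∈ (r.p.f α).D, t.2 < γ := by
      by_cases hD : (r.p.f α).D.Nonempty
      · exact (r.p.ok α hD).2.2.ht
      · exact ⟨b0, hb0, fun t ht => absurd ⟨t, ht⟩ hD⟩
    obtain ⟨γ', hγ', hγγ'⟩ : ∃ γ' < α, γ < γ' := by
      obtain ⟨γ', h1, h2⟩ := hgood.2.2 {γ} (by simpa using hγ) (by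
        rw [Cardinal.mk_singleton]
        exact Cardinal.one_lt_aleph0.trans hgood.1)
      exact ⟨γ', h1, h2 γ rfl⟩
    have ht0 : (d, γ) ∉ (r.p.f α).D := fun hc => lt_irrefl _ (hγD _ hc)
    have hinf : ℵ₀ ≤ #(Set.Iio α) := hgood.1.le
    have hsil : IsSil α (Set.Iio k) (h208_add (r.p.f α) (d, γ) (b0, (e y : M))) := by
      refine ⟨?_, ⟨γ', hγ', ?_⟩, ?_, ?_⟩
      · refine (Cardinal.mk_insert_le).trans ?_
        refine Cardinal.add_le_of_le hinf ?_ (Cardinal.one_lt_aleph0.le.trans hinf)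
        by_cases hD : (r.p.f α).D.Nonempty
        · exact (r.p.ok α hD).2.2.card
        · rw [Set.not_nonempty_iff_eq_empty.1 hD]
          simp
      · rintro t (rfl | ht)
        · exact hγγ'
        · exact (hγD t ht).trans hγγ'
      · rintro t (rfl | ht)
        · exact ⟨hαd, hdk⟩
        · exact (r.p.ok α ⟨t, ht⟩).2.2.dom t ht
      · rintro t s (hts | hts)
        · rw [Prod.mk.injEq] at hts
          rw [hts.1, hts.2]
          exact ⟨hb0, (e y).2⟩
        · exact (r.p.ok α ⟨t, (r.p.f α).sub _ _ hts⟩).2.2.val t s hts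
    let p' : PC M k :=
      { f := Function.update r.p.f α (h208_add (r.p.f α) (d, γ) (b0, (e y : M)))
        cnt := by
          refine (r.p.cnt.insert α).mono ?_
          intro β hβ
          by_cases hβα : β = α
          · exact Or.inl hβα
          · right
            have hβ' : (Function.update r.p.f α (h208_add (r.p.f α) (d, γ) (b0, (e y : M))) β).D.Nonempty := hβ
            rw [Function.update_of_ne hβα] at hβ'
            exact hβ'
        ok := by
          intro β hβ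
          by_cases hβα : β = α
          · subst hβα
            rw [Function.update_self]
            exact ⟨hαk, hgood, hsil⟩
          · rw [Function.update_of_ne hβα] at hβ ⊢
            exact r.p.ok β hβ }
    have hp'α : p'.f α = h208_add (r.p.f α) (d, γ) (b0, (e y : M)) := Function.update_self _ _ _
    have hple : p' ≤ r.p := by
      intro β
      by_cases hβα : β = α
      · subst hβα
        rw [hp'α]
        exact h208_add_ext _ _ _ ht0
      · have : p'.f β = r.p.f β := Function.update_of_ne hβα _ _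
        rw [this]
        exact Sl.Ext.refl _
    have hle : (⟨p', r.q⟩ : RC M k cP) ≤ r :=
      ⟨hple, fun t ht => ⟨ht, fun _ _ _ => Iff.rfl⟩⟩
    refine ⟨⟨p', r.q⟩, hle, g.symm ⟨γ, hγ⟩, meets_of_mem ?_⟩
    have hgγ : ((g (g.symm ⟨γ, hγ⟩) : Set.Iio α) : M) = γ := by rw [Equiv.apply_symm_apply]
    refine ⟨?_, fun s => ?_⟩
    · rw [hgγ]
      change _ ∈ (p'.f α).D
      rw [hp'α]
      exact Or.inl rfl
    · rw [hgγ]
      change _ ∈ (p'.f α).E ↔ _
      rw [hp'α]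
      constructor
      · rintro (hs | hs)
        · exact (Prod.mk.inj hs).2
        · exact absurd ((r.p.f α).sub _ _ hs) ht0
      · rintro rfl
        exact Or.inl rfl

omit [LinearOrder M] in
theorem RC.coll_aux0 [LinearOrder M] [WellFoundedLT M] (ν : Cardinal.{0}) (hν : ν < #M) :
    ∃ a : M, ν ≤ #(Set.Iio a) := by
  have h1 : ν.ord < Ordinal.type (fun a b : M => a < b) := by
    refine lt_of_le_of_ne (Cardinal.ord_le.2 (by rw [Ordinal.card_type]; exact hν.le)) ?_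
    intro he
    have h2 := congrArg Ordinal.card he
    rw [Ordinal.card_type, Cardinal.card_ord] at h2
    exact hν.ne h2
  obtain ⟨a, ha⟩ := Ordinal.typein_surj _ h1
  refine ⟨a, ?_⟩
  have h3 := congrArg Ordinal.card ha
  rw [Ordinal.card_typein, Cardinal.card_ord] at h3
  exact h3.ge


theorem RC.collapsed' (h : HS M k κ U π) (hM : ∀ a : M, #(Set.Iio a) < #M) (cP : PC M k → M)
    (hlt : ∀ p, cP p < k) (r : RC M k cP) :
    r ∈ CollapsedTo (RC M k cP) κ (#M) := by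
  haveI := h.wf
  intro ν hν
  obtain ⟨a, ha⟩ := RC.coll_aux0 ν hν
  obtain ⟨d, hkd, hνd⟩ : ∃ d : M, k ≤ d ∧ ν ≤ #(Set.Iio d) :=
    ⟨max k a, le_max_left _ _, ha.trans (Cardinal.mk_le_mk_of_subset
      (Set.Iio_subset_Iio (le_max_right _ _)))⟩
  obtain ⟨e⟩ : Nonempty (ν.out ↪ Set.Iio d) := by
    rw [← Cardinal.le_def, Cardinal.mk_out]; exact hνd
  obtain ⟨g⟩ : Nonempty (κ.ord.ToType ≃ Set.Iio k) := by
    rw [← Cardinal.eq, Cardinal.mk_ord_toType, h.mk_k]
  let R : κ.ord.ToType → ν.out → Set (RC M k cP) := fun ξ y =>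
    {r | (d, (g ξ : M)) ∈ r.q.q.D ∧ ∀ η, ∀ p ≤ r.p,
      (p ∈ meets (nm cP r.q.q (d, (g ξ : M)) η) ↔ η = (e y : M))}
  have hRd : ∀ ξ y, Down (R ξ y) := by
    intro ξ y r hr r2 hle
    exact ⟨(hle.2 _ hr.1).1, fun η p hp => ((hle.2 _ hr.1).2 η p hp).trans (hr.2 η p (hp.trans hle.1))⟩
  refine mem_fex_of_mem R (down_fand (down_fall fun _ => down_fall fun _ => down_fall fun _ =>
    down_fimp _ _) (down_IsOnto R)) ⟨?_, ?_⟩
  · intro x y y'
    rw [mem_fimp]
    intro q hq hh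
    refine ⟨q, le_rfl, ?_⟩
    obtain ⟨r1, hr1, h1⟩ := exists_of_meets (hRd x y) hh.1
    obtain ⟨r2, hr2, h2⟩ := exists_of_meets (hRd x y') (down_meets _ _ hh.2 _ hr1)
    have h1' := hRd x y _ h1 _ hr2
    have h3 := (h1'.2 (e y : M) r2.p le_rfl).2 rfl
    have h4 := (h2.2 (e y : M) r2.p le_rfl).1 h3
    show y = y'
    exact e.injective (Subtype.ext h4)
  · intro y
    rw [mem_fex]
    intro r0 hr0
    obtain ⟨γ, hγk, hγ⟩ := r0.q.ok.ht
    -- an element between
    obtain ⟨γ', hγγ', hγ'k⟩ : ∃ γ', γ < γ' ∧ γ' < k := by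
      by_contra hcon
      push Not at hcon
      have hsub : Set.Iio k ⊆ insert γ (Set.Iio γ) := by
        intro z hz
        rcases lt_trichotomy z γ with h1 | h1 | h1
        · exact Set.mem_insert_of_mem _ h1
        · rw [h1]; exact Set.mem_insert _ _
        · exact absurd hz (not_lt.2 (hcon z h1))
      have h2 := (Cardinal.mk_le_mk_of_subset hsub).trans Cardinal.mk_insert_le
      rw [h.mk_k] at h2
      have h3 : #(Set.Iio γ) + 1 < κ := Cardinal.add_lt_of_lt h.reg.aleph0_le (h.mk_lt γ hγk)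
        (Cardinal.one_lt_aleph0.trans_le h.reg.aleph0_le)
      exact absurd h2 (not_le.2 h3)
    have hnot : ((d, γ) : M × M) ∉ r0.q.q.D := fun hc => lt_irrefl _ (hγ _ hc)
    let q1 : Sl M :=
      { D := insert (d, γ) r0.q.q.D
        E := r0.q.q.E ∪ {u | u.1 = (d, γ) ∧ u.2.1 < k ∧ u.2.2 = (e y : M)}
        sub := by
          rintro t s (hts | hts)
          · exact Set.mem_insert_of_mem _ (r0.q.q.sub t s hts)
          · rw [show t = (d, γ) from hts.1]; exact Set.mem_insert _ _ }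
    have hq1 : IsSil k Set.univ q1 := by
      refine ⟨?_, ⟨γ', hγ'k, ?_⟩, ?_, ?_⟩
      · refine Cardinal.mk_insert_le.trans ?_
        have hinf : ℵ₀ ≤ #(Set.Iio k) := by rw [h.mk_k]; exact h.reg.aleph0_le
        exact Cardinal.add_le_of_le hinf r0.q.ok.card (Cardinal.one_le_aleph0.trans hinf)
      · rintro t (rfl | ht)
        · exact hγγ'
        · exact (hγ t ht).trans hγγ'
      · rintro t (rfl | ht)
        · exact ⟨hkd, trivial⟩
        · exact r0.q.ok.dom t ht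
      · rintro t s (hts | hts)
        · exact r0.q.ok.val t s hts
        · refine ⟨hts.2.1, ?_⟩
          rw [show s.2 = (e y : M) from hts.2.2, show t = (d, γ) from hts.1]
          exact (e y).2
    let r1 : RC M k cP := ⟨r0.p, ⟨q1, hq1⟩⟩
    have hr1 : r1 ≤ r0 := by
      refine ⟨le_rfl, fun t ht => ⟨Set.mem_insert_of_mem _ ht, fun η p _ => ?_⟩⟩
      have hne : t ≠ (d, γ) := fun hc => hnot (hc ▸ ht)
      have he : nm cP r1.q.q t η = nm cP r0.q.q t η := by
        ext p'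
        constructor
        · rintro ⟨b, hb, hb' | hb'⟩
          · exact ⟨b, hb, hb'⟩
          · exact absurd hb'.1 hne
        · rintro ⟨b, hb, hb'⟩
          exact ⟨b, hb, Or.inl hb'⟩
      rw [he]
    refine ⟨r1, hr1, g.symm ⟨γ, hγk⟩, meets_of_mem ?_⟩
    have hgx : ((g (g.symm ⟨γ, hγk⟩) : Set.Iio k) : M) = γ := by rw [Equiv.apply_symm_apply]
    show (d, ((g (g.symm ⟨γ, hγk⟩) : Set.Iio k) : M)) ∈ q1.D ∧ ∀ η, ∀ p ≤ r0.p,
      (p ∈ meets (nm cP q1 (d, ((g (g.symm ⟨γ, hγk⟩) : Set.Iio k) : M)) η) ↔ η = (e y : M))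
    rw [hgx]
    refine ⟨Set.mem_insert _ _, fun η p _ => ⟨fun hp => ?_, fun hη => ?_⟩⟩
    · obtain ⟨_, _, s, ⟨b, _, hb | hb⟩, _⟩ := hp p le_rfl
      · exact absurd (r0.q.q.sub _ _ hb) hnot
      · exact hb.2.2
    · refine meets_of_mem ⟨p, le_rfl, Or.inr ⟨rfl, hlt p, hη⟩⟩

theorem forcesCH_exists_d (h : HS M k κ U π) (μ : Cardinal.{0}) (hμ : μ < κ) :
    ∃ d < k, μ ≤ #(Set.Iio d) := by
  by_contra hc
  push Not at hc
  have := h.wf
  have h1 : Ordinal.type (fun a b : Set.Iio k => a < b) ≤ μ.ord := by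
    apply le_of_forall_lt
    intro c hc'
    obtain ⟨a, ha⟩ := Ordinal.typein_surj (fun a b : Set.Iio k => a < b) hc'
    rw [← ha, Cardinal.lt_ord]
    have h2 : (Ordinal.typein (fun a b : Set.Iio k => a < b) a).card =
        #{b : Set.Iio k // b < a} := Ordinal.card_typein a
    rw [h2]
    refine lt_of_le_of_lt ?_ (hc a.1 a.2)
    refine Cardinal.mk_le_of_injective (f := fun b : {b : Set.Iio k // b < a} =>
      (⟨b.1.1, b.2⟩ : Set.Iio a.1)) ?_
    intro b b' hbb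
    have h3 : b.1.1 = b'.1.1 := congrArg (fun z : Set.Iio a.1 => (z : M)) hbb
    exact Subtype.ext (Subtype.ext h3)
  have h2 : #(Set.Iio k) ≤ μ := by
    have h3 := Ordinal.card_le_card h1
    rw [Ordinal.card_type, Cardinal.card_ord] at h3
    exact h3
  rw [h.mk_k] at h2
  exact absurd hμ (not_lt.mpr h2)

/-- extension of a slice by one point with a one element fibre -/
def forcesCH_sl {M : Type} (q : Sl M) (t s : M × M) : Sl M where
  D := insert t q.D
  E := insert (t, s) q.E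
  sub := by
    rintro t' s' (h | h)
    · left
      exact congrArg Prod.fst h
    · right
      exact q.sub _ _ h

theorem forcesCH_sl_ext {M : Type} (q : Sl M) (t s : M × M) (ht : t ∉ q.D) :
    (forcesCH_sl q t s).Ext q := by
  refine ⟨Set.subset_insert _ _, fun t' ht' s' => ⟨?_, fun h => Or.inr h⟩⟩
  rintro (h | h)
  · have : t' = t := congrArg Prod.fst h
    exact absurd (this ▸ ht') ht
  · exact h

theorem forcesCH_sl_iff {M : Type} (q : Sl M) (t s : M × M) (ht : t ∉ q.D) (s' : M × M) :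
    (t, s') ∈ (forcesCH_sl q t s).E ↔ s' = s := by
  constructor
  · rintro (h | h)
    · exact congrArg Prod.snd h
    · exact absurd (q.sub _ _ h) ht
  · rintro rfl
    exact Or.inl rfl

theorem forcesCH_sil {α d : M} (hG : Good α) (q : Sl M)
    (hq : q.D.Nonempty → IsSil α (Set.Iio k) q) (γ b0 c : M) (hγ : γ < α) (hb0 : b0 < α)
    (hαd : α ≤ d) (hd : d < k) (hc : c < d) (hht : ∀ t ∈ q.D, t.2 < γ) :
    IsSil α (Set.Iio k) (forcesCH_sl q (d, γ) (b0, c)) where
  card := by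
    refine (Cardinal.mk_insert_le).trans ?_
    have h1 : #q.D ≤ #(Set.Iio α) := by
      rcases Set.eq_empty_or_nonempty q.D with h0 | h0
      · rw [h0]
        simp
      · exact (hq h0).card
    calc #q.D + 1 ≤ #(Set.Iio α) + 1 := by gcongr
      _ = #(Set.Iio α) := Cardinal.add_one_eq hG.1.le
  ht := by
    obtain ⟨γ', hγ', h'⟩ := hG.2.2 {γ} (by
      rintro x rfl
      exact hγ) (by
      rw [Cardinal.mk_singleton]
      exact lt_of_lt_of_le Cardinal.one_lt_aleph0 hG.1.le)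
    refine ⟨γ', hγ', ?_⟩
    have h2 : γ < γ' := h' γ rfl
    rintro t (rfl | ht)
    · exact h2
    · exact (hht t ht).trans h2
  dom := by
    rintro t (rfl | ht)
    · exact ⟨hαd, hd⟩
    · exact (hq ⟨t, ht⟩).dom t ht
  val := by
    rintro t s (h | h)
    · have h1 : t = (d, γ) := congrArg Prod.fst h
      have h2 : s = (b0, c) := congrArg Prod.snd h
      rw [h1, h2]
      exact ⟨hb0, hc⟩
    · exact (hq ⟨t, q.sub _ _ h⟩).val t s h

open Classical in
/-- extension of a condition at one coordinate -/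
noncomputable def forcesCH_pc {α : M} (hα : α < k) (hG : Good α) (p : PC M k) (q : Sl M)
    (hq : IsSil α (Set.Iio k) q) : PC M k where
  f := fun β => if β = α then q else p.f β
  cnt := by
    refine (p.cnt.insert α).mono ?_
    intro β hβ
    by_cases hc : β = α
    · left; exact hc
    · right
      have hβ' : (if β = α then q else p.f β).D.Nonempty := hβ
      rw [if_neg hc] at hβ'
      exact hβ'
  ok := by
    intro β hβ
    by_cases hc : β = α
    · subst hc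
      rw [if_pos rfl]
      exact ⟨hα, hG, hq⟩
    · rw [if_neg hc] at hβ ⊢
      exact p.ok β hβ

theorem forcesCH_pc_self {α : M} (hα : α < k) (hG : Good α) (p : PC M k) (q : Sl M)
    (hq : IsSil α (Set.Iio k) q) : (forcesCH_pc hα hG p q hq).f α = q := if_pos rfl

theorem forcesCH_pc_le {α : M} (hα : α < k) (hG : Good α) (p : PC M k) (q : Sl M)
    (hq : IsSil α (Set.Iio k) q) (he : q.Ext (p.f α)) : forcesCH_pc hα hG p q hq ≤ p := by
  intro β
  by_cases hc : β = α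
  · subst hc
    rw [forcesCH_pc_self]
    exact he
  · have : (forcesCH_pc hα hG p q hq).f β = p.f β := if_neg hc
    rw [this]
    exact Sl.Ext.refl _

theorem RC.forcesCH (h : HS M k κ U π) (cP : PC M k → M) (r : RC M k cP) :
    r ∈ ForcesCH (RC M k cP) := by
  classical
  obtain ⟨α, hαk, hG, hα1⟩ := h.exists_omega
  -- enumeration of `Iio α`
  have hcard : #((ℵ₁ : Cardinal.{0}).ord.ToType) = #(Set.Iio α) := by
    rw [Cardinal.mk_ord_toType, hα1]
  obtain ⟨g⟩ := Cardinal.eq.mp hcard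
  -- an element below `α`
  obtain ⟨b0, hb0⟩ : ∃ b0, b0 < α := by
    by_contra hc
    push Not at hc
    have h1 : Set.Iio α = ∅ := by
      ext x
      simp only [Set.mem_Iio, Set.mem_empty_iff_false, iff_false, not_lt]
      exact hc x
    have h2 := hG.1
    rw [h1] at h2
    simp at h2
  -- the index of the collapse
  have hctm : (2 : Cardinal.{0}) ^ (ℵ₀ : Cardinal.{0}) < κ :=
    h.strong _ ((Cardinal.aleph0_lt_aleph_one).trans h.unc)
  obtain ⟨d0, hd0k, hd0⟩ := forcesCH_exists_d h _ hctm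
  obtain ⟨d, hdk, hαd, hd⟩ : ∃ d < k, α ≤ d ∧ (2 : Cardinal.{0}) ^ (ℵ₀ : Cardinal.{0}) ≤
      #(Set.Iio d) := by
    rcases le_total α d0 with hle | hle
    · exact ⟨d0, hd0k, hle, hd0⟩
    · exact ⟨α, hαk, le_rfl, hd0.trans (Cardinal.mk_le_mk_of_subset (Set.Iio_subset_Iio hle))⟩
  have hset : #(Set ℕ) ≤ #(Set.Iio d) := by
    rw [Cardinal.mk_set, Cardinal.mk_nat]
    exact hd
  obtain ⟨j⟩ := Cardinal.le_def _ _ |>.mp hset
  have hjinj : Function.Injective (fun x : Set ℕ => (j x : M)) :=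
    Subtype.val_injective.comp j.injective
  let e : M → Set ℕ := Function.invFun (fun x : Set ℕ => (j x : M))
  have he : ∀ x : Set ℕ, e (j x : M) = x := Function.leftInverse_invFun hjinj
  let F : (ℵ₁ : Cardinal.{0}).ord.ToType → ℕ → Set (RC M k cP) := fun ξ n =>
    {r | ∃ c, (d, (g ξ : M)) ∈ (r.p.f α).D ∧
      (∀ s, ((d, (g ξ : M)), s) ∈ (r.p.f α).E ↔ s = (b0, c)) ∧ n ∈ e c}
  refine mem_fex_of_mem F (down_fall fun _ => down_fex _) ?_
  intro X
  rw [mem_fex]
  intro r0 _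
  -- decide
  obtain ⟨r1, hr1, hdec⟩ := exists_forall_mem (κ := ℵ₁) (Cardinal.aleph0_le_aleph 1)
    (RC.dirClosed h cP) (N := ℕ) (by rw [Cardinal.mk_nat]; exact Cardinal.aleph0_lt_aleph_one)
    (fun n => {r | r ∈ meets (X n) ∨ r ∈ fnot (meets (X n))})
    (by
      intro n a ha b hb
      rcases ha with ha | ha
      · exact Or.inl (down_meets _ _ ha _ hb)
      · exact Or.inr (down_fnot _ _ ha _ hb))
    (by
      intro n q
      by_cases hc : ∃ q' ≤ q, q' ∈ meets (X n)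
      · obtain ⟨q', hq', hq''⟩ := hc
        exact ⟨q', hq', Or.inl hq''⟩
      · push Not at hc
        exact ⟨q, le_rfl, Or.inr hc⟩) r0
  set x : Set ℕ := {n | r1 ∈ meets (X n)} with hx
  have hc : ((j x : M)) < d := (j x).2
  have hec := he x
  -- the height
  obtain ⟨γ, hγ, hht⟩ : ∃ γ < α, ∀ t ∈ (r1.p.f α).D, t.2 < γ := by
    rcases Set.eq_empty_or_nonempty (r1.p.f α).D with h0 | h0
    · refine ⟨b0, hb0, ?_⟩
      rw [h0]
      intro t ht
      exact absurd ht (Set.notMem_empty t)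
    · exact (r1.p.ok α h0).2.2.ht
  have hsil := forcesCH_sil hG (r1.p.f α) (fun h0 => (r1.p.ok α h0).2.2) γ b0 (j x : M) hγ hb0
    hαd hdk hc hht
  have ht0 : (d, γ) ∉ (r1.p.f α).D := fun hmem => lt_irrefl _ (hht _ hmem)
  let p' := forcesCH_pc hαk hG r1.p _ hsil
  have hp'α : p'.f α = forcesCH_sl (r1.p.f α) (d, γ) (b0, (j x : M)) :=
    forcesCH_pc_self hαk hG r1.p _ hsil
  have hp'le : p' ≤ r1.p := forcesCH_pc_le hαk hG r1.p _ hsil (forcesCH_sl_ext _ _ _ ht0)
  let r2 : RC M k cP := ⟨p', r1.q⟩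
  have hr2 : r2 ≤ r1 := ⟨hp'le, fun t ht => ⟨ht, fun _ _ _ => Iff.rfl⟩⟩
  have hgξ : ((g (g.symm ⟨γ, hγ⟩) : Set.Iio α) : M) = γ := by
    rw [Equiv.apply_symm_apply]
  have hmem0 : (d, γ) ∈ (r2.p.f α).D := by
    change (d, γ) ∈ (p'.f α).D
    rw [hp'α]
    exact Or.inl rfl
  have hiff0 : ∀ s, ((d, γ), s) ∈ (r2.p.f α).E ↔ s = (b0, (j x : M)) := by
    intro s
    change ((d, γ), s) ∈ (p'.f α).E ↔ _
    rw [hp'α]
    exact forcesCH_sl_iff _ _ _ ht0 s
  refine ⟨r2, hr2.trans hr1, g.symm ⟨γ, hγ⟩, ?_, ?_⟩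
  · intro n
    rw [mem_fimp]
    intro q hq hqF
    obtain ⟨r', hr', s', hs', hrs⟩ := hqF q le_rfl
    obtain ⟨c', hc1, hc2, hc3⟩ := hs'
    rw [hgξ] at hc1 hc2
    have hext1 : (r'.p.f α).Ext (s'.p.f α) := hrs.1 α
    have hext2 : (r'.p.f α).Ext (r2.p.f α) := (hr'.trans hq).1 α
    have m1 : ((d, γ), (b0, c')) ∈ (s'.p.f α).E := (hc2 _).mpr rfl
    have m2 : ((d, γ), (b0, c')) ∈ (r'.p.f α).E := (hext1.2 _ hc1 _).mpr m1
    have m3 : ((d, γ), (b0, c')) ∈ (r2.p.f α).E := (hext2.2 _ hmem0 _).mp m2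
    have m4 := (hiff0 _).mp m3
    have m5 : c' = (j x : M) := congrArg Prod.snd m4
    rw [m5, hec] at hc3
    have hc4 : r1 ∈ meets (X n) := hc3
    exact ⟨q, le_rfl, down_meets _ _ hc4 _ (hq.trans hr2)⟩
  · intro n
    rw [mem_fimp]
    intro q hq hqX
    have hn : n ∈ x := by
      rcases hdec n with h1 | h1
      · exact h1
      · exact absurd hqX (h1 q (hq.trans hr2))
    refine ⟨q, le_rfl, meets_of_mem ?_⟩
    have hext : (q.p.f α).Ext (r2.p.f α) := hq.1 α
    refine ⟨(j x : M), ?_, ?_, ?_⟩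
    · rw [hgξ]
      exact hext.1 hmem0
    · intro s
      rw [hgξ, hext.2 _ hmem0 s, hiff0]
    · rw [hec]
      exact hn

end

end Pool.Agent.Helper669.U
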