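import Mathlib
import Pool.Agent.Helper669.UMain

set_option autoImplicit false

/-!
# The iteration makes a huge cardinal and its target into the second and third uncountable cardinal
-/

namespace Pool.Agent.Helper669.U

open Cardinal Pool.Agent.Helper669.Forcing Pool.Agent.Helper669.K

theorem exists_denum_dense {Q : Type} [Preorder Q] {N : Set Q} {p : Q}
    (h : ∀ q ≤ p, ∃ r ≤ q, r ∈ meets N) : p ∈ meets N := by
  intro q hq
  obtain ⟨r, hr, h'⟩ := h q hq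
  obtain ⟨r', hr', s, hs, hle⟩ := h' r le_rfl
  exact ⟨r', hr'.trans hr, s, hs, hle⟩

theorem exists_denum {Q : Type} [Preorder Q] (hQ : DirClosed ℵ₁ Q) {X : Type} (S : X → Set Q)
    (q : Q) (hq : q ∈ IsDenum S) :
    ∃ r ≤ q, ∃ s : Set X, s.Countable ∧ s.Infinite ∧ (∀ y ∈ s, r ∈ meets (S y)) ∧
      ∀ y ∉ s, r ∈ fnot (meets (S y)) := by
  obtain ⟨r0, hr0, f, hfun, hinj, hfS⟩ := mem_fex.1 hq q le_rfl
  obtain ⟨r1, hr1, hdec⟩ := exists_forall_mem (κ := ℵ₁) (Cardinal.aleph0_le_aleph 1) hQ (N := ℕ)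
    (by rw [Cardinal.mk_nat]; exact Cardinal.aleph0_lt_aleph_one)
    (fun n => {r | (∃ y, r ∈ meets (f n y)) ∨ ∀ t ≤ r, ¬ t ≤ r0})
    (by
      intro n a ha b hb
      rcases ha with ⟨y, hy⟩ | ha
      · exact Or.inl ⟨y, down_meets _ _ hy _ hb⟩
      · exact Or.inr fun t ht => ha t (ht.trans hb))
    (by
      intro n q0
      by_cases hc : ∃ t ≤ q0, t ≤ r0
      · obtain ⟨t, ht, ht0⟩ := hc
        obtain ⟨t', ht', y, hy⟩ := IsFun.total (down_IsFun f r0 hfun t ht0) n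
        exact ⟨t', ht'.trans ht, Or.inl ⟨y, hy⟩⟩
      · push Not at hc
        exact ⟨q0, le_rfl, Or.inr hc⟩) r0
  have hy : ∀ n, ∃ y, r1 ∈ meets (f n y) := by
    intro n
    rcases hdec n with h | h
    · exact h
    · exact absurd hr1 (h r1 le_rfl)
  choose y hy using hy
  have hyinj : Function.Injective y := by
    intro n m hnm
    have h1 : r1 ∈ meets (f m (y n)) := by
      rw [hnm]
      exact hy m
    exact IsInj.eq (down_IsInj f r0 hinj r1 hr1) (hy n) h1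
  refine ⟨r1, hr1.trans hr0, Set.range y, Set.countable_range y,
    Set.infinite_range_of_injective hyinj, ?_, ?_⟩
  · rintro _ ⟨n, rfl⟩
    apply exists_denum_dense
    intro t ht
    exact mem_fimp.1 ((hfS (y n)).2 n) t (ht.trans hr1) (down_meets _ _ (hy n) _ ht)
  · intro y' hy' t ht htS
    obtain ⟨t2, ht2, ht2'⟩ := mem_fimp.1 (hfS y').1 t (ht.trans hr1) htS
    obtain ⟨t3, ht3, n, hn⟩ := mem_fex.1 ht2' t2 le_rfl
    have h3 : t3 ≤ r1 := (ht3.trans ht2).trans ht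
    have h4 : y' = y n := IsFun.unique (down_IsFun f r0 hfun t3 (h3.trans hr1)) hn
      (down_meets _ _ (hy n) _ h3)
    exact hy' ⟨n, h4.symm⟩


theorem chk_denum_of_meets {Q : Type} [Preorder Q] {h : Prop} {r : Q}
    (hm : r ∈ meets ({_q : Q | h})) : h := by
  obtain ⟨_, _, s, hs, _⟩ := hm r le_rfl
  exact hs


theorem chk_denum {Q X : Type} [Preorder Q] {s : Set X} (hs : s.Countable) (hi : s.Infinite)
    (q : Q) : q ∈ IsDenum (chk (Q := Q) s) := by
  haveI := hs.to_subtype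
  haveI := hi.to_subtype
  obtain ⟨hden⟩ := nonempty_denumerable s
  let e : ℕ ≃ s := (Denumerable.eqv s).symm
  refine mem_fex_of_mem (fun n x => {_q : Q | x = (e n : X)}) ?_ ?_
  · exact down_fand (down_IsFun _) (down_fand (down_IsInj _) (down_fall fun _ =>
      down_fand (down_fimp _ _) (down_fall fun _ => down_fimp _ _)))
  · refine ⟨⟨fun n => ?_, fun n y y' => ?_⟩, fun n n' y => ?_, fun y => ⟨?_, fun n => ?_⟩⟩
    · exact mem_fex_of_mem ((e n : X)) (down_meets _) (meets_of_mem rfl)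
    · refine mem_fimp.2 fun r _ hr => ⟨r, le_rfl, ?_⟩
      have h1 := chk_denum_of_meets hr.1
      have h2 := chk_denum_of_meets hr.2
      exact h1.trans h2.symm
    · refine mem_fimp.2 fun r _ hr => ⟨r, le_rfl, ?_⟩
      have h1 := chk_denum_of_meets hr.1
      have h2 := chk_denum_of_meets hr.2
      exact e.injective (Subtype.ext (h1.symm.trans h2))
    · refine mem_fimp.2 fun r _ hr => ⟨r, le_rfl, ?_⟩
      have h1 : y ∈ s := chk_denum_of_meets hr
      refine mem_fex_of_mem (e.symm ⟨y, h1⟩) (down_meets _) (meets_of_mem ?_)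
      show y = (e (e.symm ⟨y, h1⟩) : X)
      rw [Equiv.apply_symm_apply]
    · refine mem_fimp.2 fun r _ hr => ⟨r, le_rfl, ?_⟩
      have h1 := chk_denum_of_meets hr
      refine meets_of_mem ?_
      show y ∈ s
      rw [h1]
      exact (e n).2


theorem staysRegular_of_key {Q : Type} [Preorder Q] {κ : Cardinal.{0}} (hκ : κ.IsRegular)
    {M : Type} [LinearOrder M] {k : M} (hk : #(Set.Iio k) = κ) (hk' : ∀ a < k, #(Set.Iio a) < κ)
    (ι : κ.ord.ToType ≃o Set.Iio k)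
    (hkey : ∀ G : Set M → M → Set Q, (∀ s a, Down (G s a)) →
      (∀ s : Set M, s.Countable → ∀ r : Q, ∃ r' ≤ r, ∃ a < k, r' ∈ G s a) →
      ∀ A : Set M, #A < κ → ∀ r0 : Q, ∃ X : Set M, A ⊆ X ∧ #X = κ ∧ ∃ r ≤ r0, ∃ α < k,
        ∀ s ⊆ X, s.Countable → ∀ r' ≤ r, ∃ r'' ≤ r', ∃ a < α, r'' ∈ G s a)
    (q : Q) : q ∈ StaysRegular Q κ := by
  intro ν hν R
  rw [mem_fimp]
  intro q0 _ hq0
  have hemb : Nonempty (ν.out ↪ Set.Iio k) := by
    rw [← Cardinal.le_def, Cardinal.mk_out, hk]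
    exact hν.le
  obtain ⟨e0⟩ := hemb
  set e : ν.out → M := fun i => (e0 i).1 with he
  have hinj : Function.Injective e := fun i j hij => e0.injective (Subtype.ext hij)
  have hne : ∃ a, a < k := by
    have h1 : #(Set.Iio k) ≠ 0 := by
      rw [hk]
      exact (Cardinal.aleph0_pos.trans_le hκ.aleph0_le).ne'
    obtain ⟨a⟩ := Cardinal.mk_ne_zero_iff.1 h1
    exact ⟨a.1, a.2⟩
  obtain ⟨a0, ha0⟩ := hne
  set G : Set M → M → Set Q := fun s a =>
    {r | (∀ i, s = {e i} → ∃ a2, (ι a2).1 = a ∧ r ∈ meets (R i a2)) ∨ (∀ t ≤ r, ¬ t ≤ q0)} with hG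
  have hdown : ∀ s a, Down (G s a) := by
    intro s a r hr r' hr'
    rcases hr with h | h
    · left
      intro i hi
      obtain ⟨a2, h1, h2⟩ := h i hi
      exact ⟨a2, h1, down_meets _ _ h2 _ hr'⟩
    · right
      intro t ht
      exact h t (ht.trans hr')
  have htot : ∀ s : Set M, s.Countable → ∀ r : Q, ∃ r' ≤ r, ∃ a < k, r' ∈ G s a := by
    intro s _ r
    by_cases h1 : ∃ t ≤ r, t ≤ q0
    · obtain ⟨t, htr, htq⟩ := h1
      by_cases h2 : ∃ i, s = {e i}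
      · obtain ⟨i, hi⟩ := h2
        obtain ⟨t2, ht2, a2, ha2⟩ := IsFun.total (down_IsFun R _ hq0 t htq) i
        refine ⟨t2, ht2.trans htr, (ι a2).1, (ι a2).2, Or.inl ?_⟩
        intro i' hi'
        have h3 : e i = e i' := by
          rw [hi] at hi'
          exact Set.singleton_injective hi'
        have h4 := hinj h3
        subst h4
        exact ⟨a2, rfl, ha2⟩
      · refine ⟨r, le_rfl, a0, ha0, Or.inl ?_⟩
        intro i hi
        exact absurd ⟨i, hi⟩ h2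
    · refine ⟨r, le_rfl, a0, ha0, Or.inr ?_⟩
      intro t ht htq
      exact h1 ⟨t, ht, htq⟩
  have hA : #(Set.range e) < κ := by
    refine Cardinal.mk_range_le.trans_lt ?_
    rw [Cardinal.mk_out]
    exact hν
  obtain ⟨X, hAX, _, r, hr, α, hα, hX⟩ := hkey G hdown htot (Set.range e) hA q0
  refine ⟨r, hr, ?_⟩
  refine mem_fex_of_mem (ι.symm ⟨α, hα⟩)
    (down_fall fun _ => down_fall fun _ => down_fimp _ _) ?_
  intro x y
  rw [mem_fimp]
  intro r2 hr2 hm
  obtain ⟨r3, hr3, a, ha, hr3G⟩ := hX {e x} (Set.singleton_subset_iff.2 (hAX ⟨x, rfl⟩))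
    (Set.countable_singleton _) r2 hr2
  refine ⟨r3, hr3, ?_⟩
  rw [mem_fground]
  rcases hr3G with h | h
  · obtain ⟨a2, h1, h2⟩ := h x rfl
    have h3 := IsFun.unique (down_IsFun R _ hq0 r3 (hr3.trans (hr2.trans hr)))
      (down_meets _ _ hm _ hr3) h2
    rw [h3, OrderIso.lt_symm_apply]
    rw [← Subtype.coe_lt_coe, h1]
    exact ha
  · exact absurd (hr3.trans (hr2.trans hr)) (h r3 le_rfl)


theorem squareBracket_of_key_chk {Q X : Type} [Preorder Q] {s : Set X} {y : X} {q : Q}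
    (h : q ∈ meets (chk (Q := Q) s y)) : y ∈ s := by
  obtain ⟨_, _, t, ht, _⟩ := h q le_rfl
  exact ht

theorem squareBracket_of_key {Q : Type} [Preorder Q] (hQ : DirClosed ℵ₁ Q) {κ : Cardinal.{0}}
    (hκ : κ.IsRegular) {M : Type} [LinearOrder M] {k : M}
    (ι : κ.ord.ToType ≃o Set.Iio k)
    (hkey : ∀ G : Set M → M → Set Q, (∀ s a, Down (G s a)) →
      (∀ s : Set M, s.Countable → ∀ r : Q, ∃ r' ≤ r, ∃ a < k, r' ∈ G s a) →
      ∀ r0 : Q, ∃ X : Set M, #X = κ ∧ ∃ r ≤ r0, ∃ α < k,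
        ∀ s ⊆ X, s.Countable → ∀ r' ≤ r, ∃ r'' ≤ r', ∃ a < α, r'' ∈ G s a)
    (q : Q) : q ∈ SquareBracket Q κ.ord.ToType M := by
  classical
  intro c
  refine mem_fimp.2 fun p0 _ hp0 => ?_
  have hne : Nonempty κ.ord.ToType := by
    rw [← mk_ne_zero_iff, mk_ord_toType]
    exact hκ.pos.ne'
  obtain ⟨a0⟩ := hne
  obtain ⟨X, hX, r, hr, α, hα, hb⟩ := hkey
    (fun s a => {r | s.Infinite → ((∃ a2, (ι a2).1 = a ∧ r ∈ meets (c (chk s) a2)) ∨
      ∀ t ≤ r, ¬ t ≤ p0)}) (by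
      intro s a p hp q' hq' hinf
      rcases hp hinf with ⟨a2, h1, h2⟩ | h
      · exact Or.inl ⟨a2, h1, down_meets _ _ h2 _ hq'⟩
      · exact Or.inr fun t ht => h t (ht.trans hq')) (by
      intro s hs r
      by_cases hi : s.Infinite
      · by_cases ht : ∃ t ≤ r, t ≤ p0
        · obtain ⟨t, htr, htp⟩ := ht
          obtain ⟨r1, hr1, htot, _⟩ := mem_fimp.1 (hp0 (chk s)) t htp (chk_denum hs hi t)
          obtain ⟨r2, hr2, a, ha⟩ := mem_fex.1 htot r1 le_rfl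
          exact ⟨r2, hr2.trans (hr1.trans htr), (ι a).1, (ι a).2, fun _ => Or.inl ⟨a, rfl, ha⟩⟩
        · push Not at ht
          exact ⟨r, le_rfl, (ι a0).1, (ι a0).2, fun _ => Or.inr ht⟩
      · exact ⟨r, le_rfl, (ι a0).1, (ι a0).2, fun h => absurd h hi⟩) p0
  have hXK : Nonempty (κ.ord.ToType ≃ X) := by
    rw [← Cardinal.eq, mk_ord_toType, hX]
  obtain ⟨e⟩ := hXK
  refine ⟨r, hr, mem_fex.2 fun p1 hp1 => ⟨p1, le_rfl, chk X, ?_, ?_⟩⟩
  · refine mem_fex.2 fun p2 _ => ⟨p2, le_rfl, fun x y => {_q | y = (e x).1}, ⟨?_, ?_⟩, ?_, ?_⟩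
    · intro x
      exact mem_fex.2 fun r' _ => ⟨r', le_rfl, (e x).1, meets_of_mem rfl⟩
    · intro x y y'
      refine mem_fimp.2 fun r' _ h => ⟨r', le_rfl, ?_⟩
      obtain ⟨_, _, t, ht, _⟩ := h.1 r' le_rfl
      obtain ⟨_, _, t', ht', _⟩ := h.2 r' le_rfl
      exact ht.trans ht'.symm
    · intro x x' y
      refine mem_fimp.2 fun r' _ h => ⟨r', le_rfl, ?_⟩
      obtain ⟨_, _, t, ht, _⟩ := h.1 r' le_rfl
      obtain ⟨_, _, t', ht', _⟩ := h.2 r' le_rfl
      exact e.injective (Subtype.ext (ht.symm.trans ht'))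
    · intro y
      refine ⟨mem_fimp.2 fun r' _ h => ⟨r', le_rfl, ?_⟩, fun x => mem_fimp.2 fun r' _ h =>
        ⟨r', le_rfl, ?_⟩⟩
      · have hy : y ∈ X := squareBracket_of_key_chk h
        exact mem_fex.2 fun r'' _ => ⟨r'', le_rfl, e.symm ⟨y, hy⟩, meets_of_mem (by simp)⟩
      · obtain ⟨_, _, t, ht, _⟩ := h r' le_rfl
        refine meets_of_mem ?_
        change y ∈ X
        have ht' : y = (e x).1 := ht
        rw [ht']
        exact (e x).2
  · refine mem_fex.2 fun p2 hp2 => ⟨p2, le_rfl, ι.symm ⟨α, hα⟩, fun S => mem_fimp.2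
      fun r0 hr0 hS => ⟨r0, le_rfl, fun r1 hr1 hm1 => ?_⟩⟩
    obtain ⟨hS1, hS2⟩ := hS
    obtain ⟨r2, hr2, s, hs, hi, hs1, hs2⟩ := exists_denum hQ S r1 (down_fex _ _ hS1 _ hr1)
    have hr2r : r2 ≤ r := hr2.trans (hr1.trans (hr0.trans (hp2.trans hp1)))
    have hr2p : r2 ≤ p0 := hr2r.trans hr
    have hsX : s ⊆ X := by
      intro y hy
      obtain ⟨r3, _, h3⟩ := mem_fimp.1 (hS2 y) r2 (hr2.trans hr1) (hs1 y hy)
      exact squareBracket_of_key_chk h3
    obtain ⟨r3, hr3, _, _, hext⟩ := mem_fimp.1 (hp0 S) r2 hr2p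
      (down_fex _ _ hS1 _ (hr2.trans hr1))
    obtain ⟨r4, hr4, h4⟩ := mem_fimp.1 (hext (chk s)) r3 le_rfl ⟨by
      intro y
      refine mem_fimp.2 fun r5 hr5 h5 => ⟨r5, le_rfl, ?_⟩
      by_cases hy : y ∈ s
      · exact meets_of_mem hy
      · exact absurd h5 (hs2 y hy r5 (hr5.trans hr3)), by
      intro y
      refine mem_fimp.2 fun r5 hr5 h5 => ⟨r5, le_rfl, ?_⟩
      exact down_meets _ _ (hs1 y (squareBracket_of_key_chk h5)) _ (hr5.trans hr3)⟩
    obtain ⟨r5, hr5, h5⟩ := mem_fimp.1 (h4 (ι.symm ⟨α, hα⟩)) r4 le_rfl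
      (down_meets _ _ hm1 _ (hr4.trans (hr3.trans hr2)))
    have hr5r2 : r5 ≤ r2 := hr5.trans (hr4.trans hr3)
    obtain ⟨r6, hr6, a, haα, h6⟩ := hb s hsX hs r5 (hr5r2.trans hr2r)
    have hr6p : r6 ≤ p0 := hr6.trans (hr5r2.trans hr2p)
    rcases h6 hi with ⟨a2, ha2, h7⟩ | h7
    · obtain ⟨r7, hr7, _, huniq, _⟩ := mem_fimp.1 (hp0 (chk s)) r6 hr6p (chk_denum hs hi r6)
      obtain ⟨_, _, heq⟩ := mem_fimp.1 (huniq a2 (ι.symm ⟨α, hα⟩)) r7 le_rfl
        ⟨down_meets _ _ h7 _ hr7, down_meets _ _ h5 _ (hr7.trans hr6)⟩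
      have heq' : a2 = ι.symm ⟨α, hα⟩ := heq
      rw [heq', OrderIso.apply_symm_apply] at ha2
      have ha3 : α = a := ha2
      rw [ha3] at haα
      exact lt_irrefl _ haα
    · exact h7 r6 le_rfl hr6p


section

variable {M : Type} [LinearOrder M] {k : M} {κ : Cardinal.{0}} {U : Ultrafilter (Set M)}
  {π : Set M → M → M}

theorem HS.iso (h : HS M k κ U π) : Nonempty (κ.ord.ToType ≃o Set.Iio k) := by
  have := h.wf
  have e : Ordinal.type (fun a b : Set.Iio k => a < b) = κ.ord := by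
    apply le_antisymm
    · by_contra hcon
      push Not at hcon
      obtain ⟨a, ha⟩ := Ordinal.typein_surj (fun a b : Set.Iio k => a < b) hcon
      have h1 := h.mk_lt a.1 a.2
      have h2 : #{b : Set.Iio k // b < a} = κ := by
        have h3 := congrArg Ordinal.card ha
        rw [Ordinal.card_typein, Cardinal.card_ord] at h3
        exact h3
      have h4 : #{b : Set.Iio k // b < a} ≤ #(Set.Iio a.1) :=
        Cardinal.mk_le_of_injective (f := fun b : {b : Set.Iio k // b < a} => ⟨b.1.1, b.2⟩)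
          (fun b c hbc => by
            have h5 : b.1.1 = c.1.1 := congrArg (fun z : Set.Iio a.1 => z.1) hbc
            exact Subtype.ext (Subtype.ext h5))
      rw [h2] at h4
      exact absurd h1 (not_lt.2 h4)
    · rw [Cardinal.ord_le, Ordinal.card_type, h.mk_k]
  have e2 : Ordinal.type (fun a b : κ.ord.ToType => a < b) =
      Ordinal.type (fun a b : Set.Iio k => a < b) := by
    rw [e]
    exact Ordinal.type_toType _
  obtain ⟨f⟩ := Ordinal.type_eq.1 e2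
  exact ⟨OrderIso.ofRelIsoLT f⟩

end

/-- A forcing notion which makes a huge cardinal `κ` the cardinal `ℵ₂` and its target `ℵ₃`. -/
theorem huge_iteration {κ m : Cardinal.{0}} (h : IsHuge κ m) :
    ∃ (P : Type) (_ : Preorder P), Nonempty P ∧ ∀ p : P,
      p ∈ StaysRegular P ℵ₁ ∧ p ∈ StaysRegular P κ ∧ p ∈ StaysRegular P m ∧
      p ∈ CollapsedTo P ℵ₁ κ ∧ p ∈ CollapsedTo P κ m ∧ p ∈ ForcesCH P ∧
      p ∈ SquareBracket P κ.ord.ToType m.ord.ToType := by
  classical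
  obtain ⟨k, U, π, hs⟩ := IsHuge.hs h
  have hM : ∀ a : m.ord.ToType, #(Set.Iio a) < #m.ord.ToType := by
    intro a
    rw [mk_ord_toType]
    exact Cardinal.mk_Iio_toType_ord_lt a
  obtain ⟨hreg, hstrong⟩ := hs.target hM
  obtain ⟨cP, hcP, hlt⟩ := hs.exists_cP
  obtain ⟨cS, hcS⟩ := exists_cS (k := k) hreg hstrong hM (by
    rw [hs.mk_k]
    exact hs.reg.aleph0_le)
  obtain ⟨ι⟩ := hs.iso
  have hne : Nonempty (RC m.ord.ToType k cP) := by
    have h0 : ∃ γ, γ < k := by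
      have h1 : #(Set.Iio k) ≠ 0 := by
        rw [hs.mk_k]
        exact hs.reg.pos.ne'
      obtain ⟨γ⟩ := Cardinal.mk_ne_zero_iff.1 h1
      exact ⟨γ.1, γ.2⟩
    refine ⟨⟨⟨fun _ => Sl.empty, ?_, ?_⟩, ⟨Sl.empty, ⟨?_, ?_, ?_, ?_⟩⟩⟩⟩
    · have : {α : m.ord.ToType | (Sl.empty : Sl m.ord.ToType).D.Nonempty} = ∅ := by
        ext α
        simp [Sl.empty]
      rw [this]
      exact Set.countable_empty
    · intro α hα
      exact absurd hα Set.not_nonempty_empty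
    · simp [Sl.empty]
    · obtain ⟨γ, hγ⟩ := h0
      exact ⟨γ, hγ, fun t ht => ht.elim⟩
    · exact fun t ht => ht.elim
    · exact fun t s ht => ht.elim
  refine ⟨RC m.ord.ToType k cP, inferInstance, hne, fun p => ⟨?_, ?_, ?_, ?_, ?_, ?_, ?_⟩⟩
  · exact staysRegular_proj isRegular_aleph_one
      (fun N D hN hd hdense q =>
        exists_forall_mem aleph0_lt_aleph_one.le (RC.dirClosed hs cP) hN D hd hdense q)
      id (fun a b h => h) (fun a q' h => ⟨q', h, le_rfl⟩) (fun q' => ⟨q', le_rfl⟩) p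
  · refine staysRegular_of_key hs.reg hs.mk_k hs.mk_lt ι ?_ p
    intro G hd hG A hA r0
    have hZ : {X : Set m.ord.ToType | A ⊆ X} ∈ U := by
      have h1 := hs.comp A hA (fun a => {X | a.1 ∈ X}) (fun a => hs.fine a.1)
      filter_upwards [h1] with X hX a ha
      exact hX ⟨a, ha⟩
    obtain ⟨X, h1, h2⟩ := hs.key hcP hlt hcS G hd hG _ hZ r0
    exact ⟨X, h1, h2⟩
  · refine staysRegular_of_cc' ?_ ?_ p
    · rw [mk_ord_toType] at hreg
      exact hreg
    · intro ι' f hf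
      exact RC.cc hs hM hcP hlt hcS ι' f (by rw [mk_ord_toType]; exact hf)
  · exact RC.collapsed hs cP p
  · have h1 := RC.collapsed' hs hM cP hlt p
    rw [mk_ord_toType] at h1
    exact h1
  · exact RC.forcesCH hs cP p
  · refine squareBracket_of_key (RC.dirClosed hs cP) hs.reg ι ?_ p
    intro G hd hG r0
    obtain ⟨X, -, h2⟩ := hs.key hcP hlt hcS G hd hG Set.univ Filter.univ_mem r0
    exact ⟨X, h2⟩

end Pool.Agent.Helper669.U
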