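import Mathlib
import Pool.Agent.Helper669.UFinal

set_option autoImplicit false

/-!
# The iteration with larger supports: definitions
-/

namespace Pool.Agent.Helper669.V

open Cardinal Pool.Agent.Helper669.Forcing Pool.Agent.Helper669.K Pool.Agent.Helper669.U

section

variable {M : Type} [LinearOrder M]

/-- the first forcing: a product with supports of size at most `ℵ₁` -/
structure PC (M : Type) [LinearOrder M] (k : M) where
  f : M → Sl M
  cnt : #{α | (f α).D.Nonempty} ≤ ℵ₁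
  ok : ∀ α, (f α).D.Nonempty → α < k ∧ Good α ∧ IsSil α (Set.Iio k) (f α)

instance (k : M) : Preorder (PC M k) where
  le p' p := ∀ α, (p'.f α).Ext (p.f α)
  le_refl _ _ := Sl.Ext.refl _
  le_trans _ _ _ h h' α := (h α).trans (h' α)

/-- the name of a subset of `M` which `q` has as its value at `t` -/
def nm {k : M} (cP : PC M k → M) (q : Sl M) (t : M × M) (η : M) : Set (PC M k) :=
  {p | ∃ b, p ≤ b ∧ (t, (cP b, η)) ∈ q.E}

/-- the iteration -/
structure RC (M : Type) [LinearOrder M] (k : M) (cP : PC M k → M) where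
  p : PC M k
  q : SC M k

instance (k : M) (cP : PC M k → M) : Preorder (RC M k cP) where
  le r' r := r'.p ≤ r.p ∧ ∀ t ∈ r.q.q.D, t ∈ r'.q.q.D ∧ ∀ η, ∀ p ≤ r'.p,
    p ∈ meets (nm cP r'.q.q t η) ↔ p ∈ meets (nm cP r.q.q t η)
  le_refl _ := ⟨le_rfl, fun _ ht => ⟨ht, fun _ _ _ => Iff.rfl⟩⟩
  le_trans a b c h h' := ⟨h.1.trans h'.1, fun t ht => ⟨(h.2 t (h'.2 t ht).1).1, fun η p hp =>
    ((h.2 t (h'.2 t ht).1).2 η p hp).trans ((h'.2 t ht).2 η p (hp.trans h.1))⟩⟩

/-- all coordinates of `p` are below `b` -/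
def Bdd {k : M} (p : PC M k) (b : M) : Prop := ∀ β, ∀ t ∈ (p.f β).D, β < b ∧ t.1 < b

end


end Pool.Agent.Helper669.V
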