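import Mathlib
import Pool.Agent.Helper669.VDefs

set_option autoImplicit false

/-!
# The iteration with larger supports, seen by almost every set
-/

namespace Pool.Agent.Helper669.V

open Cardinal Pool.Agent.Helper669.Forcing Pool.Agent.Helper669.K Pool.Agent.Helper669.U


theorem cnt_mono {M : Type} {s t : Set M} (hs : #s ≤ ℵ₁) (h : t ⊆ s) : #t ≤ ℵ₁ :=
  (Cardinal.mk_le_mk_of_subset h).trans hs

theorem cnt_union {M : Type} {s t : Set M} (hs : #s ≤ ℵ₁) (ht : #t ≤ ℵ₁) : #(s ∪ t : Set M) ≤ ℵ₁ :=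
  (Cardinal.mk_union_le _ _).trans ((add_le_add hs ht).trans
    (Cardinal.add_eq_self (Cardinal.aleph0_le_aleph 1)).le)

theorem cnt_insert {M : Type} {s t : Set M} (hs : #s ≤ ℵ₁) (a : M) (h : t ⊆ insert a s) :
    #t ≤ ℵ₁ := by
  refine cnt_mono (cnt_union (s := {a}) (t := s) ?_ hs) ?_
  · rw [Cardinal.mk_singleton]
    exact Cardinal.one_lt_aleph0.le.trans (Cardinal.aleph0_le_aleph 1)
  · intro x hx
    rcases h hx with h | h
    · exact Or.inl h
    · exact Or.inr h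

section

variable {M : Type} [LinearOrder M] {k : M} {κ : Cardinal.{0}} {U : Ultrafilter (Set M)}
  {π : Set M → M → M}

theorem PC.bdd (h : HS M k κ U π) (p : PC M k) : ∃ b < k, Bdd p b := by
  have hκ : ℵ₀ < κ := lt_trans (by rw [← aleph_zero]; exact aleph_lt_aleph.mpr one_pos) h.unc
  have key : ∀ C : Set M, C ⊆ Set.Iio k → #C < κ → ∃ b < k, ∀ c ∈ C, c < b := by
    intro C hC hcard
    by_contra hcon
    push Not at hcon
    have h1 : Set.Iio k ⊆ ⋃ c ∈ C, Set.Iic c := by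
      intro b hb
      obtain ⟨c, hc, hbc⟩ := hcon b hb
      exact Set.mem_biUnion hc hbc
    have h2 : #(⋃ c ∈ C, Set.Iic c : Set M) < κ := by
      rw [card_biUnion_lt_iff_forall_of_isRegular h.reg hcard]
      intro c hc
      have h3 : #(Set.Iio c) < κ := h.mk_lt c (hC hc)
      have h4 : Set.Iic c ⊆ insert c (Set.Iio c) := by
        intro x hx
        rcases eq_or_lt_of_le (Set.mem_Iic.mp hx) with h5 | h5
        · exact Or.inl h5
        · exact Or.inr h5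
      refine lt_of_le_of_lt (mk_le_mk_of_subset h4) ?_
      refine lt_of_le_of_lt mk_insert_le ?_
      exact add_lt_of_lt hκ.le h3 (one_lt_aleph0.trans hκ)
    have h5 := lt_of_le_of_lt (mk_le_mk_of_subset h1) h2
    rw [h.mk_k] at h5
    exact lt_irrefl _ h5
  let S : Set M := {α | (p.f α).D.Nonempty}
  have hS : #S < κ := lt_of_le_of_lt p.cnt h.unc
  let C : Set M := S ∪ ⋃ β ∈ S, Prod.fst '' (p.f β).D
  have hC2 : #(⋃ β ∈ S, Prod.fst '' (p.f β).D : Set M) < κ := by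
    rw [card_biUnion_lt_iff_forall_of_isRegular h.reg hS]
    intro β hβ
    obtain ⟨h1, -, h3⟩ := p.ok β hβ
    exact lt_of_le_of_lt mk_image_le (lt_of_le_of_lt h3.card (h.mk_lt β h1))
  have hC : #C < κ := lt_of_le_of_lt (mk_union_le _ _) (add_lt_of_lt hκ.le hS hC2)
  have hCk : C ⊆ Set.Iio k := by
    rintro x (hx | hx)
    · exact (p.ok x hx).1
    · rw [Set.mem_iUnion₂] at hx
      obtain ⟨β, hβ, t, ht, rfl⟩ := hx
      exact ((p.ok β hβ).2.2.dom t ht).2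
  obtain ⟨b, hb, hbC⟩ := key C hCk hC
  refine ⟨b, hb, fun β t ht => ⟨hbC β (Or.inl ⟨t, ht⟩), hbC t.1 (Or.inr ?_)⟩⟩
  rw [Set.mem_iUnion₂]
  exact ⟨β, ⟨t, ht⟩, t, ht, rfl⟩

theorem PC.few (h : HS M k κ U π) (b : M) (hb : b < k) : #{p : PC M k | Bdd p b} < κ := by
  have hℵ : ℵ₀ < κ := aleph0_lt_aleph_one.trans h.unc
  have hμ : #(Set.Iio b) < κ := h.mk_lt b hb
  have hml : ∀ a c : Cardinal.{0}, a < κ → c < κ → a * c < κ :=
    fun a c ha hc => Cardinal.mul_lt_of_lt hℵ.le ha hc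
  let I := Set.Iio b
  have hX : #(I × (I × I)) < κ := by
    simp only [Cardinal.mk_prod, Cardinal.lift_id]
    exact hml _ _ hμ (hml _ _ hμ hμ)
  have hY : #(I × ((I × I) × (I × I))) < κ := by
    simp only [Cardinal.mk_prod, Cardinal.lift_id]
    exact hml _ _ hμ (hml _ _ (hml _ _ hμ hμ) (hml _ _ hμ hμ))
  have hT : #(Set (I × (I × I)) × Set (I × ((I × I) × (I × I)))) < κ := by
    rw [Cardinal.mk_prod, Cardinal.lift_id, Cardinal.lift_id, Cardinal.mk_set, Cardinal.mk_set]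
    exact hml _ _ (h.strong _ hX) (h.strong _ hY)
  refine lt_of_le_of_lt ?_ hT
  let F : {p : PC M k | Bdd p b} → Set (I × (I × I)) × Set (I × ((I × I) × (I × I))) :=
    fun p => ({x | ((x.2.1 : M), (x.2.2 : M)) ∈ (p.1.f (x.1 : M)).D},
      {x | (((x.2.1.1 : M), (x.2.1.2 : M)), ((x.2.2.1 : M), (x.2.2.2 : M))) ∈ (p.1.f (x.1 : M)).E})
  have hD : ∀ p : PC M k, Bdd p b → ∀ β t, t ∈ (p.f β).D → β < b ∧ t.1 < b ∧ t.2 < b := by
    intro p hp β t ht
    obtain ⟨h1, h2⟩ := hp β t ht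
    obtain ⟨_, _, h3⟩ := p.ok β ⟨t, ht⟩
    obtain ⟨γ, hγ, h4⟩ := h3.ht
    exact ⟨h1, h2, (h4 t ht).trans (hγ.trans h1)⟩
  have hE : ∀ p : PC M k, Bdd p b → ∀ β t s, (t, s) ∈ (p.f β).E →
      β < b ∧ t.1 < b ∧ t.2 < b ∧ s.1 < b ∧ s.2 < b := by
    intro p hp β t s hts
    have ht := (p.f β).sub t s hts
    obtain ⟨h1, h2, h2'⟩ := hD p hp β t ht
    obtain ⟨_, _, h3⟩ := p.ok β ⟨t, ht⟩
    obtain ⟨h4, h5⟩ := h3.val t s hts
    exact ⟨h1, h2, h2', h4.trans h1, h5.trans h2⟩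
  have key : ∀ p q : {p : PC M k | Bdd p b}, F p = F q → ∀ β, 
      (p.1.f β).D ⊆ (q.1.f β).D ∧ (p.1.f β).E ⊆ (q.1.f β).E := by
    intro p q hpq β
    have e1 : (F p).1 = (F q).1 := by rw [hpq]
    have e2 : (F p).2 = (F q).2 := by rw [hpq]
    refine ⟨?_, ?_⟩
    · rintro ⟨t1, t2⟩ ht
      obtain ⟨h1, h2, h3⟩ := hD p.1 p.2 β _ ht
      have hm : ((⟨β, h1⟩, (⟨t1, h2⟩, ⟨t2, h3⟩)) : I × (I × I)) ∈ (F p).1 := ht
      rw [e1] at hm
      exact hm
    · rintro ⟨⟨t1, t2⟩, ⟨s1, s2⟩⟩ ht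
      obtain ⟨h1, h2, h3, h4, h5⟩ := hE p.1 p.2 β _ _ ht
      have hm : ((⟨β, h1⟩, ((⟨t1, h2⟩, ⟨t2, h3⟩), (⟨s1, h4⟩, ⟨s2, h5⟩))) :
          I × ((I × I) × (I × I))) ∈ (F p).2 := ht
      rw [e2] at hm
      exact hm
  refine Cardinal.mk_le_of_injective (f := F) ?_
  intro p q hpq
  have hf : p.1.f = q.1.f := by
    funext β
    refine Sl.ext' ?_ ?_
    · exact Set.Subset.antisymm (key p q hpq β).1 (key q p hpq.symm β).1
    · exact Set.Subset.antisymm (key p q hpq β).2 (key q p hpq.symm β).2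
  apply Subtype.ext
  obtain ⟨⟨pf, pc, po⟩, pb⟩ := p
  obtain ⟨⟨qf, qc, qo⟩, qb⟩ := q
  simp only at hf
  subst hf
  rfl

theorem exists_cP (h : HS M k κ U π) :
    ∃ cP : PC M k → M, Function.Injective cP ∧ ∀ p, cP p < k := by
  have hinf : ℵ₀ ≤ κ := h.reg.aleph0_le
  have hcov : (Set.univ : Set (PC M k)) = ⋃ b : Set.Iio k, {p : PC M k | Bdd p b.1} := by
    symm
    rw [Set.eq_univ_iff_forall]
    intro p
    obtain ⟨b, hb, hp⟩ := PC.bdd h p
    exact Set.mem_iUnion.2 ⟨⟨b, hb⟩, hp⟩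
  have h1 : #(PC M k) ≤ κ := by
    rw [← Cardinal.mk_univ, hcov]
    refine (Cardinal.mk_iUnion_le _).trans ?_
    rw [h.mk_k]
    have h2 : ⨆ b : Set.Iio k, #{p : PC M k | Bdd p b.1} ≤ κ :=
      ciSup_le' (fun b => (PC.few h b.1 b.2).le)
    calc κ * ⨆ b : Set.Iio k, #{p : PC M k | Bdd p b.1} ≤ κ * κ := mul_le_mul_right h2 κ
      _ = κ := Cardinal.mul_eq_self hinf
  rw [← h.mk_k, Cardinal.le_def] at h1
  obtain ⟨f⟩ := h1
  exact ⟨fun p => (f p).1, fun a b hab => f.injective (Subtype.ext hab), fun p => (f p).2⟩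

theorem HS.big (h : HS M k κ U π) :
    {X : Set M | ∀ α, IsAl k π X α → ℵ₁ < #(Set.Iio α)} ∈ U := by
  haveI := h.wf
  have hsucc : Order.succ ℵ₁ < κ :=
    lt_of_le_of_lt (Order.succ_le_of_lt (Cardinal.cantor ℵ₁)) (h.strong ℵ₁ h.unc)
  obtain ⟨b, hb⟩ : ∃ b : Set.Iio k, ℵ₁ < #(Set.Iio (b : M)) := by
    have hlt : (Order.succ ℵ₁).ord < Ordinal.type ((· < ·) : Set.Iio k → Set.Iio k → Prop) := by
      by_contra hcon
      have h1 := Ordinal.card_le_card (not_lt.1 hcon)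
      rw [Cardinal.card_ord, Ordinal.card_type, h.mk_k] at h1
      exact absurd hsucc (not_lt.2 h1)
    obtain ⟨b, hb⟩ := Ordinal.typein_surj ((· < ·) : Set.Iio k → Set.Iio k → Prop) hlt
    refine ⟨b, ?_⟩
    have h1 : #{y : Set.Iio k // y < b} = Order.succ ℵ₁ := by
      have h2 := Ordinal.card_typein (r := ((· < ·) : Set.Iio k → Set.Iio k → Prop)) b
      rw [hb, Cardinal.card_ord] at h2
      exact h2.symm
    have h3 : #{y : Set.Iio k // y < b} ≤ #(Set.Iio (b : M)) := by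
      refine Cardinal.mk_le_of_injective
        (f := fun y : {y : Set.Iio k // y < b} => (⟨y.1.1, y.2⟩ : Set.Iio (b : M))) ?_
      intro y z hyz
      have h4 : y.1.1 = z.1.1 := congrArg (fun w : Set.Iio (b : M) => (w : M)) hyz
      exact Subtype.ext (Subtype.ext h4)
    rw [h1] at h3
    exact lt_of_lt_of_le (Order.lt_succ ℵ₁) h3
  refine Filter.mem_of_superset (h.fine (b : M)) ?_
  intro X hX α hα
  have h1 : (b : M) ∈ X ∩ Set.Iio k := ⟨hX, b.2⟩
  rw [hα.seg] at h1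
  have h2 : Set.Iio (b : M) ⊆ Set.Iio α := Set.Iio_subset_Iio (le_of_lt h1)
  exact lt_of_lt_of_le hb (Cardinal.mk_le_mk_of_subset h2)

theorem cpi_bound (h : HS M k κ U π) {ι : Type} (hι : #ι < κ) (f : ι → M) (hf : ∀ i, f i < k) :
    ∃ a < k, ∀ i, f i < a := by
  by_contra hc
  push Not at hc
  have hsub : Set.Iio k ⊆ ⋃ i, Set.Iic (f i) := by
    intro a ha
    obtain ⟨i, hi⟩ := hc a ha
    exact Set.mem_iUnion.2 ⟨i, hi⟩
  have h1 : #(⋃ i, Set.Iic (f i) : Set M) < κ := by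
    rw [Cardinal.card_iUnion_lt_iff_forall_of_isRegular h.reg hι]
    intro i
    rw [← Set.Iio_insert]
    exact lt_of_le_of_lt Cardinal.mk_insert_le (Cardinal.add_lt_of_lt h.reg.aleph0_le
      (h.mk_lt _ (hf i)) (Cardinal.one_lt_aleph0.trans_le h.reg.aleph0_le))
  have h2 := Cardinal.mk_le_mk_of_subset hsub
  rw [h.mk_k] at h2
  exact absurd h1 (not_lt.2 h2)

theorem cpi_good {α : M} (hα : Good α) (hbig : ℵ₁ < #(Set.Iio α)) {p : PC M k} (hp : Bdd p α) :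
    ∃ b < α, Bdd p b := by
  obtain ⟨g1, g2, g3⟩ := hα
  have hinf : ℵ₀ ≤ #(Set.Iio α) := g1.le
  have h1 : ∀ β, ∃ γ, (p.f β).D.Nonempty → γ < α ∧ ∀ t ∈ (p.f β).D, β < γ ∧ t.1 < γ := by
    intro β
    by_cases hβ : (p.f β).D.Nonempty
    · obtain ⟨t0, ht0⟩ := hβ
      have hβα : β < α := (hp β t0 ht0).1
      have hsil := (p.ok β ⟨t0, ht0⟩).2.2
      obtain ⟨γ, hγ, hγ2⟩ := g3 (insert β (Prod.fst '' (p.f β).D)) (by
        intro x hx
        rcases hx with rfl | ⟨t, ht, rfl⟩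
        · exact hβα
        · exact (hp β t ht).2) (by
        refine lt_of_le_of_lt Cardinal.mk_insert_le ?_
        apply Cardinal.add_lt_of_lt hinf
        · exact lt_of_le_of_lt (Cardinal.mk_image_le.trans hsil.card) (g2 β hβα)
        · exact Cardinal.one_lt_aleph0.trans_le hinf)
      exact ⟨γ, fun _ => ⟨hγ, fun t ht => ⟨hγ2 _ (Set.mem_insert _ _),
        hγ2 _ (Set.mem_insert_of_mem _ ⟨t, ht, rfl⟩)⟩⟩⟩
    · exact ⟨β, fun h => absurd h hβ⟩
  choose γ hγ using h1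
  obtain ⟨b, hb, hb2⟩ := g3 (γ '' {β | (p.f β).D.Nonempty}) (by
    rintro _ ⟨β, hβ, rfl⟩
    exact (hγ β hβ).1) (lt_of_le_of_lt (Cardinal.mk_image_le.trans p.cnt) hbig)
  refine ⟨b, hb, fun β t ht => ?_⟩
  have h2 := (hγ β ⟨t, ht⟩).2 t ht
  have h3 := hb2 _ ⟨β, ⟨t, ht⟩, rfl⟩
  exact ⟨h2.1.trans h3, h2.2.trans h3⟩



theorem cP_iff (h : HS M k κ U π) {cP : PC M k → M} (hcP : Function.Injective cP)
    (hlt : ∀ p, cP p < k) :
    {X : Set M | ∀ α, IsAl k π X α → ∀ p : PC M k, cP p ∈ X ↔ Bdd p α} ∈ U := by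
  classical
  have hu : ∀ b : M, ∃ u : M, b < k → u < k ∧ ∀ p : PC M k, Bdd p b → cP p < u := by
    intro b
    by_cases hb : b < k
    · obtain ⟨a, ha, h1⟩ := cpi_bound h (PC.few h b hb)
        (fun p : {p : PC M k | Bdd p b} => cP p.1) (fun p => hlt _)
      exact ⟨a, fun _ => ⟨ha, fun p hp => h1 ⟨p, hp⟩⟩⟩
    · exact ⟨b, fun hb' => absurd hb' hb⟩
  choose u hu using hu
  have hv : ∀ p : PC M k, ∃ b < k, Bdd p b := PC.bdd h
  choose v hvk hvb using hv
  have A1 := h.norm (fun b => {X | b < k → u b ∈ X})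
    (fun b => Filter.mem_of_superset (h.fine (u b)) fun X hX _ => hX)
  have A2 := h.norm (fun m => {X | ∀ p, cP p = m → v p ∈ X}) (fun m => by
    by_cases hm : ∃ p, cP p = m
    · obtain ⟨p, hp⟩ := hm
      exact Filter.mem_of_superset (h.fine (v p)) fun X hX q hq => by
        have : q = p := hcP (hq.trans hp.symm)
        rw [this]; exact hX
    · exact Filter.mem_of_superset Filter.univ_mem fun X _ q hq => absurd ⟨q, hq⟩ hm)
  refine Filter.mem_of_superset (Filter.inter_mem (Filter.inter_mem A1 A2) (HS.big h)) ?_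
  rintro X ⟨⟨hX1, hX2⟩, hX3⟩ α hα p
  have hseg : ∀ x, (x ∈ X ∧ x < k) ↔ x < α := fun x => Set.ext_iff.1 hα.seg x
  constructor
  · intro hp
    have h1 : v p ∈ X := hX2 (cP p) hp p rfl
    have h2 : v p < α := (hseg _).1 ⟨h1, hvk p⟩
    intro β t ht
    obtain ⟨h3, h4⟩ := hvb p β t ht
    exact ⟨h3.trans h2, h4.trans h2⟩
  · intro hp
    obtain ⟨b, hb, hpb⟩ := cpi_good hα.good (hX3 α hα) hp
    have hbX := (hseg b).2 hb
    have h1 : u b ∈ X := hX1 b hbX.1 hbX.2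
    obtain ⟨h2, h3⟩ := hu b hbX.2
    have h4 : u b < α := (hseg _).1 ⟨h1, h2⟩
    exact ((hseg _).2 ((h3 p hpb).trans h4)).1

end

section

variable {M : Type} [LinearOrder M] {k : M}

/-- a stronger condition can be replaced by an equivalent one whose second coordinate is an
extension -/
theorem RC.direct {cP : PC M k → M} {r r' : RC M k cP} (hr : r' ≤ r) :
    ∃ q : SC M k, q.q.Ext r.q.q ∧ (⟨r'.p, q⟩ : RC M k cP) ≤ r' := by
  classical
  let Q : Sl M :=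
    { D := r'.q.q.D
      E := {u | (u.1 ∈ r.q.q.D ∧ u ∈ r.q.q.E) ∨
        (u.1 ∉ r.q.q.D ∧ u ∈ r'.q.q.E)}
      sub := by
        rintro t s (⟨h, h'⟩ | ⟨h, h'⟩)
        · exact (hr.2 t h).1
        · exact r'.q.q.sub t s h' }
  have hQ : IsSil k Set.univ Q :=
    { card := r'.q.ok.card
      ht := r'.q.ok.ht
      dom := r'.q.ok.dom
      val := by
        rintro t s (⟨h, h'⟩ | ⟨h, h'⟩)
        · exact r.q.ok.val t s h'
        · exact r'.q.ok.val t s h' }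
  refine ⟨⟨Q, hQ⟩, ⟨fun t ht => (hr.2 t ht).1, ?_⟩, le_rfl, ?_⟩
  · intro t ht s
    constructor
    · rintro (⟨h, h'⟩ | ⟨h, h'⟩)
      · exact h'
      · exact absurd ht h
    · intro h
      exact Or.inl ⟨ht, h⟩
  · intro t ht
    refine ⟨ht, ?_⟩
    intro η p hp
    by_cases h : t ∈ r.q.q.D
    · have e : nm cP Q t η = nm cP r.q.q t η := by
        ext x
        constructor
        · rintro ⟨b, hb, hE⟩
          rcases hE with ⟨_, h'⟩ | ⟨h', _⟩
          · exact ⟨b, hb, h'⟩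
          · exact absurd h h'
        · rintro ⟨b, hb, hE⟩
          exact ⟨b, hb, Or.inl ⟨h, hE⟩⟩
      show p ∈ meets (nm cP Q t η) ↔ _
      rw [e]
      exact ((hr.2 t h).2 η p hp).symm
    · have e : nm cP Q t η = nm cP r'.q.q t η := by
        ext x
        constructor
        · rintro ⟨b, hb, hE⟩
          rcases hE with ⟨h', _⟩ | ⟨_, h'⟩
          · exact absurd h' h
          · exact ⟨b, hb, h'⟩
        · rintro ⟨b, hb, hE⟩
          exact ⟨b, hb, Or.inr ⟨h, hE⟩⟩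
      show p ∈ meets (nm cP Q t η) ↔ _
      rw [e]

end

section

variable {M : Type} [LinearOrder M] {k : M} {κ : Cardinal.{0}} {U : Ultrafilter (Set M)}
  {π : Set M → M → M}

theorem b7_aux {J : Type} (j0 j1 : J) (hJ : #J < κ) (h : HS M k κ U π) {cP : PC M k → M}
    (hcP : Function.Injective cP)
    {cS : SC M k → M} (hcS : Function.Injective cS) (G : Set M → M → Set (RC M k cP))
    (hd : ∀ s a, Down (G s a))
    (hG : ∀ s : Set M, #s ≤ ℵ₁ → ∀ r : RC M k cP, ∃ r' ≤ r, ∃ a < k, r' ∈ G s a)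
    (S : (J → M) → Set M) (hS : ∀ x, #(S x) ≤ ℵ₁) :
    {X : Set M | ∀ x : J → M, (∀ i, x i ∈ X) → ∀ (p : PC M k) (q : SC M k), cP p = x j0 →
      cS q = x j1 → ∃ (p' : PC M k) (q' : SC M k) (a : M), cP p' ∈ X ∧ cS q' ∈ X ∧ a ∈ X ∧ a < k ∧
        p' ≤ p ∧ q'.q.Ext q.q ∧ (⟨p', q'⟩ : RC M k cP) ∈ G (S x) a} ∈ U := by
  have key : ∀ x : J → M, ∃ w1 w2 w3 : M, ∀ (p : PC M k) (q : SC M k), cP p = x j0 →
      cS q = x j1 →
      ∃ (p' : PC M k) (q' : SC M k), cP p' = w1 ∧ cS q' = w2 ∧ w3 < k ∧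
        p' ≤ p ∧ q'.q.Ext q.q ∧ (⟨p', q'⟩ : RC M k cP) ∈ G (S x) w3 := by
    intro x
    by_cases hx : ∃ (p : PC M k) (q : SC M k), cP p = x j0 ∧ cS q = x j1
    · obtain ⟨p, q, hp, hq⟩ := hx
      obtain ⟨r', hr', a, ha, hr'G⟩ := hG (S x) (hS x) ⟨p, q⟩
      obtain ⟨q2, hq2, hle⟩ := RC.direct hr'
      refine ⟨cP r'.p, cS q2, a, fun p0 q0 hp0 hq0 => ?_⟩
      have e1 : p0 = p := hcP (hp0.trans hp.symm)
      have e2 : q0 = q := hcS (hq0.trans hq.symm)
      subst e1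
      subst e2
      exact ⟨r'.p, q2, rfl, rfl, ha, hr'.1, hq2, hd _ _ _ hr'G _ hle⟩
    · exact ⟨x j0, x j0, x j0, fun p q hp hq => absurd ⟨p, q, hp, hq⟩ hx⟩
  choose w1 w2 w3 hw using key
  have hmem := h.norm' hJ (fun X x => w1 x ∈ X ∧ w2 x ∈ X ∧ w3 x ∈ X) (fun x => by
    have h1 := h.fine (w1 x)
    have h2 := h.fine (w2 x)
    have h3 := h.fine (w3 x)
    filter_upwards [h1, h2, h3] with X a1 a2 a3
    exact ⟨a1, a2, a3⟩)
  filter_upwards [hmem] with X hX x hx p q hp hq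
  obtain ⟨p', q', e1, e2, hk, hle, hext, hG'⟩ := hw x p q hp hq
  obtain ⟨m1, m2, m3⟩ := hX x hx
  exact ⟨p', q', w3 x, by rw [e1]; exact m1, by rw [e2]; exact m2, m3, hk, hle, hext, hG'⟩

theorem closed (h : HS M k κ U π) {cP : PC M k → M} (hcP : Function.Injective cP)
    {cS : SC M k → M} (hcS : Function.Injective cS) (G : Set M → M → Set (RC M k cP))
    (hd : ∀ s a, Down (G s a))
    (hG : ∀ s : Set M, #s ≤ ℵ₁ → ∀ r : RC M k cP, ∃ r' ≤ r, ∃ a < k, r' ∈ G s a) :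
    {X : Set M | ∀ s ⊆ X, #s ≤ ℵ₁ → ∀ (p : PC M k) (q : SC M k), cP p ∈ X → cS q ∈ X →
      ∃ (p' : PC M k) (q' : SC M k) (a : M), cP p' ∈ X ∧ cS q' ∈ X ∧ a ∈ X ∧ a < k ∧ p' ≤ p ∧
        q'.q.Ext q.q ∧ (⟨p', q'⟩ : RC M k cP) ∈ G s a} ∈ U := by
  obtain ⟨W, hW⟩ : ∃ W : Type, #W = ℵ₁ := ⟨(ℵ₁ : Cardinal.{0}).out, Cardinal.mk_out _⟩
  have hκ0 : ℵ₀ ≤ κ := Cardinal.aleph0_lt_aleph_one.le.trans h.unc.le
  have h1κ : (1 : Cardinal.{0}) < κ := Cardinal.one_lt_aleph0.trans_le hκ0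
  have hJ : #(Option (Option W)) < κ := by
    rw [Cardinal.mk_option, Cardinal.mk_option, hW]
    exact Cardinal.add_lt_of_lt hκ0 (Cardinal.add_lt_of_lt hκ0 h.unc h1κ) h1κ
  have h1 := b7_aux (none : Option (Option W)) (some none) hJ h hcP hcS G hd hG (fun _ => ∅)
    (fun _ => by simp)
  have h2 := b7_aux (none : Option (Option W)) (some none) hJ h hcP hcS G hd hG
    (fun x => Set.range fun w : W => x (some (some w)))
    (fun x => (Cardinal.mk_range_le).trans hW.le)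
  filter_upwards [h1, h2] with X hX1 hX2 s hsX hsc p q hp hq
  rcases Set.eq_empty_or_nonempty s with hs | hs
  · subst hs
    exact hX1 (fun n => match n with
      | none => cP p
      | some _ => cS q) (fun i => by
        cases i with
        | none => exact hp
        | some _ => exact hq) p q rfl rfl
  · obtain ⟨f, hf⟩ : ∃ f : W → M, Set.range f = s := by
      have hs' : Nonempty s := hs.to_subtype
      have hle : #s ≤ #W := hsc.trans hW.ge
      obtain ⟨g⟩ := hle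
      refine ⟨fun w => ((Function.invFun g w : s) : M), ?_⟩
      have hsur := Function.invFun_surjective g.injective
      apply Set.eq_of_subset_of_subset
      · rintro _ ⟨w, rfl⟩
        exact (Function.invFun g w).2
      · intro y hy
        obtain ⟨w, hw⟩ := hsur ⟨y, hy⟩
        exact ⟨w, by simp only [hw]⟩
    subst hf
    exact hX2 (fun n => match n with
      | none => cP p
      | some none => cS q
      | some (some w) => f w) (fun i => by
        cases i with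
        | none => exact hp
        | some j =>
          cases j with
          | none => exact hq
          | some w => exact hsX ⟨w, rfl⟩) p q rfl rfl

end

end Pool.Agent.Helper669.V
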