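import Mathlib
import Pool.Agent.Helper669.VC

set_option autoImplicit false

/-!
# The generalized continuum hypothesis and the polarized relation in extensions: definitions
-/

namespace Pool.Agent.Helper669.V

open Cardinal Pool.Agent.Helper669.Forcing Pool.Agent.Helper669.K Pool.Agent.Helper669.U

section

variable {P : Type} [Preorder P]

/-- The polarized relation: for all `c : K × M → 2` there are `A ⊆ K` of the size of `K` and
`B ⊆ M` of the size of `W` such that `c` is constant on `A × B`. The colouring is given by the set
`{(x, y) : c (x, y) = 1}`. -/
def PolarizedRel (P : Type) [Preorder P] (K M W : Type) : Set P :=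
  fall fun c : K → M → Set P =>
    fex fun A : K → Set P => fex fun B : M → Set P =>
      fand (HasFullSize A) (fand (SameSize (K := W) B)
        (for'
          (fall fun x => fall fun y => fimp (fand (meets (A x)) (meets (B y))) (meets (c x y)))
          (fall fun x => fall fun y =>
            fimp (fand (meets (A x)) (meets (B y))) (fnot (meets (c x y))))))

/-- In the extension there is a map from `μ` onto the set of all subsets of `ν`. -/
def PowOnto (P : Type) [Preorder P] (ν μ : Cardinal.{0}) : Set P :=
  fex fun F : μ.ord.ToType → ν.ord.ToType → Set P => fall fun X : ν.ord.ToType → Set P =>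
    fex fun i => fand (Sub (F i) X) (Sub X (F i))

/-- The generalized continuum hypothesis in the extension: for each infinite cardinal `ν` (of the
ground model) there is a cardinal `μ` such that there is a map from `μ` onto the power set of `ν`
and every cardinal below `μ` has cardinality at most `|ν|` in the extension. -/
def ForcesGCH (P : Type) [Preorder P] : Set P :=
  fall fun ν : Cardinal.{0} => fall fun _ : ℵ₀ ≤ ν => fex fun μ : Cardinal.{0} =>
    fand (PowOnto P ν μ) (CollapsedTo P ν μ)

end


end Pool.Agent.Helper669.V
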