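import Mathlib
import Pool.Agent.Helper669.VGch
import Pool.Agent.Helper669.Easton

set_option autoImplicit false

/-!
# The iteration with larger supports: homogeneous sets, names for small sets
-/

namespace Pool.Agent.Helper669.V

open Cardinal Pool.Agent.Helper669.Forcing Pool.Agent.Helper669.K Pool.Agent.Helper669.U

section

open Pool.Agent.Helper669.GBase (Compat)

theorem easton' {B T : Type} [Preorder B] [Preorder T] {κ : Cardinal.{0}} (hκ : κ.IsRegular)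
    (hcc : ∀ A : Set B, (∀ a ∈ A, ∀ b ∈ A, Compat a b → a = b) → #A < κ)
    (hclosed : ∀ S : Set T, (∀ s ∈ S, ∀ t ∈ S, s ≤ t ∨ t ≤ s) → #S < κ → S.Nonempty →
      ∃ t, ∀ s ∈ S, t ≤ s)
    {Λ : Type} (hΛ : #Λ < κ) (D : Λ → B → T → Prop)
    (hdown : ∀ i b t, D i b t → ∀ b' ≤ b, ∀ t' ≤ t, D i b' t')
    (hdense : ∀ i b t, ∃ b' ≤ b, ∃ t' ≤ t, D i b' t') (t : T) :
    ∃ t' ≤ t, ∀ i b, ∃ b' ≤ b, D i b' t' :=
  Pool.Agent.Helper669.Easton.easton hκ hcc hclosed hΛ D hdown hdense t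

end

section

open Pool.Agent.Helper669.GBase (Compat)
open Pool.Agent.Helper669.KDelta (rec_choice)

variable {M : Type} [LinearOrder M] {k : M} {κ : Cardinal.{0}} {U : Ultrafilter (Set M)}
  {π : Set M → M → M}

theorem delta_V (h : HS M k κ U π) : ∃ V : Ultrafilter M,
    {α | α < k ∧ Good α ∧ ℵ₁ < #(Set.Iio α)} ∈ (V : Filter M) ∧
    (∀ c < k, {α | c < α} ∈ (V : Filter M)) ∧
    (∀ (ι : Type), #ι < κ → ∀ A : ι → Set M, (∀ i, A i ∈ (V : Filter M)) →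
      {α | ∀ i, α ∈ A i} ∈ (V : Filter M)) ∧
    (∀ A : M → Set M, (∀ b, A b ∈ (V : Filter M)) →
      {α | ∀ b < α, α ∈ A b} ∈ (V : Filter M)) := by
  classical
  have hal : ∃ al : Set M → M, {X : Set M | IsAl k π X (al X)} ∈ U := by
    refine ⟨fun X => if hX : ∃ α, IsAl k π X α then hX.choose else k, ?_⟩
    refine Filter.mem_of_superset h.isAl ?_
    intro X hX
    have hX' : ∃ α, IsAl k π X α := hX
    change IsAl k π X (if hX : ∃ α, IsAl k π X α then hX.choose else k)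
    rw [dif_pos hX']
    exact hX'.choose_spec
  obtain ⟨al, hal⟩ := hal
  refine ⟨U.map al, ?_, ?_, ?_, ?_⟩
  · rw [Ultrafilter.coe_map, Filter.mem_map]
    refine Filter.mem_of_superset (Filter.inter_mem hal (HS.big h)) ?_
    rintro X ⟨h1, h2⟩
    exact ⟨IsAl.lt h1, IsAl.good h1, h2 _ h1⟩
  · intro c hc
    rw [Ultrafilter.coe_map, Filter.mem_map]
    refine Filter.mem_of_superset (Filter.inter_mem hal (h.fine c)) ?_
    rintro X ⟨h1, h2⟩
    have : c ∈ Set.Iio (al X) := by rw [← h1.seg]; exact ⟨h2, hc⟩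
    exact this
  · intro ι hι A hA
    exact h.comp ι hι (fun i => al ⁻¹' A i) hA
  · intro A hA
    have := h.norm (fun b => al ⁻¹' A b) hA
    rw [Ultrafilter.coe_map, Filter.mem_map]
    refine Filter.mem_of_superset (Filter.inter_mem hal this) ?_
    rintro X ⟨h1, h2⟩ b hb
    have : b ∈ X ∩ Set.Iio k := by rw [h1.seg]; exact hb
    exact h2 b this.1

theorem delta_bdd (p : PC M k) (α : M) (μ : Cardinal.{0}) (hμ : ℵ₁ < μ)
    (hα : ∀ b < α, #(Set.Iio b) < μ)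
    (hC : ∀ C : Set M, C ⊆ Set.Iio α → #C < μ → ∃ γ < α, ∀ c ∈ C, c < γ) :
    ∃ c < α, (∀ β, (p.f β).D.Nonempty → β < α → β < c) ∧
      ∀ β, ∀ t ∈ (p.f β).D, t.1 < α → t.1 < c := by
  classical
  have h1 : ∀ β : M, ∃ g, (β < α → g < α) ∧ ∀ t ∈ (p.f β).D, t.1 < α → t.1 < g := by
    intro β
    by_cases hβ : β < α
    · by_cases hn : (p.f β).D.Nonempty
      · obtain ⟨γ, hγ, hγ'⟩ := hC {x | ∃ t ∈ (p.f β).D, t.1 < α ∧ t.1 = x} (by
          rintro x ⟨t, ht, h1, rfl⟩; exact h1) (by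
          refine lt_of_le_of_lt ?_ (hα β hβ)
          refine le_trans ?_ (p.ok β hn).2.2.card
          refine le_trans (Cardinal.mk_le_mk_of_subset (t := Prod.fst '' (p.f β).D) ?_)
            Cardinal.mk_image_le
          rintro x ⟨t, ht, h1, rfl⟩
          exact ⟨t, ht, rfl⟩)
        exact ⟨γ, fun _ => hγ, fun t ht h => hγ' _ ⟨t, ht, h, rfl⟩⟩
      · exact ⟨β, fun _ => hβ, fun t ht => absurd ⟨t, ht⟩ hn⟩
    · refine ⟨β, fun h => absurd h hβ, fun t ht h => ?_⟩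
      have := ((p.ok β ⟨t, ht⟩).2.2.dom t ht).1
      exact absurd (lt_of_le_of_lt this h) hβ
  choose g hg hg' using h1
  obtain ⟨c, hc, hc'⟩ := hC ({β | (p.f β).D.Nonempty ∧ β < α} ∪
      g '' {β | (p.f β).D.Nonempty ∧ β < α}) (by
    rintro x (hx | ⟨β, hβ, rfl⟩)
    · exact hx.2
    · exact hg β hβ.2) (by
    have h2 : #{β | (p.f β).D.Nonempty ∧ β < α} ≤ ℵ₁ :=
      (Cardinal.mk_le_mk_of_subset (fun x hx => hx.1)).trans p.cnt
    refine lt_of_le_of_lt (Cardinal.mk_union_le _ _) ?_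
    refine lt_of_le_of_lt (add_le_add h2 (Cardinal.mk_image_le.trans h2)) ?_
    rw [Cardinal.add_eq_self (Cardinal.aleph0_le_aleph 1)]
    exact hμ)
  refine ⟨c, hc, fun β h1 h2 => hc' _ (Or.inl ⟨h1, h2⟩), fun β t ht h => ?_⟩
  have hβ : β < α := lt_of_le_of_lt ((p.ok β ⟨t, ht⟩).2.2.dom t ht).1 h
  exact (hg' β t ht h).trans (hc' _ (Or.inr ⟨β, ⟨⟨t, ht⟩, hβ⟩, rfl⟩))

theorem delta_homog (V : Ultrafilter M)
    (hV3 : ∀ (ι : Type), #ι < κ → ∀ A : ι → Set M, (∀ i, A i ∈ (V : Filter M)) →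
      {α | ∀ i, α ∈ A i} ∈ (V : Filter M)) (S : Type) (hS : #S < κ) (F : M → Set S) :
    ∃ G : Set S, {α | F α = G} ∈ (V : Filter M) := by
  refine ⟨{s | {α | s ∈ F α} ∈ (V : Filter M)}, ?_⟩
  have := hV3 S hS (fun s => {α | s ∈ F α ↔ {α | s ∈ F α} ∈ (V : Filter M)}) (by
    intro s
    by_cases hs : {α | s ∈ F α} ∈ (V : Filter M)
    · refine Filter.mem_of_superset hs ?_
      intro α hα
      exact ⟨fun _ => hs, fun _ => hα⟩
    · have hs' : {α | s ∈ F α}ᶜ ∈ (V : Filter M) := by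
        rcases V.mem_or_compl_mem {α | s ∈ F α} with h | h
        · exact absurd h hs
        · exact h
      refine Filter.mem_of_superset hs' ?_
      intro α hα
      exact ⟨fun h => absurd h hα, fun h => absurd h hs⟩)
  refine Filter.mem_of_superset this ?_
  intro α hα
  ext s
  exact hα s


theorem PC.delta (h : HS M k κ U π) (a : M → PC M k) (Z : Set M) (hZ : Z ⊆ Set.Iio k)
    (hZ' : #Z = κ) : ∃ B ⊆ Z, #B = ℵ₁ ∧ ∃ p, ∀ b ∈ B, p ≤ a b := by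
  classical
  obtain ⟨V, hV1, hV2, hV3, hV4⟩ := delta_V h
  -- bounded sets
  have hbd : ∀ C : Set M, C ⊆ Set.Iio k → #C < κ → ∃ γ < k, ∀ c ∈ C, c < γ := by
    intro C hC hC'
    have h0 := hV3 C hC' (fun c => {α | (c : M) < α}) (fun c => hV2 c (hC c.2))
    obtain ⟨α, h1, h2⟩ := V.neBot.nonempty_of_mem (Filter.inter_mem h0 hV1)
    exact ⟨α, h2.1, fun c hc => h1 ⟨c, hc⟩⟩
  -- the enumeration
  obtain ⟨e, heZ, heI⟩ : ∃ e : M → M, (∀ x < k, e x ∈ Z) ∧ ∀ x < k, ∀ y < k, e x = e y → x = y := by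
    obtain ⟨e0⟩ : Nonempty (Set.Iio k ≃ Z) := Cardinal.eq.1 (by rw [h.mk_k, hZ'])
    refine ⟨fun x => if hx : x < k then (e0 ⟨x, hx⟩ : M) else x, ?_, ?_⟩
    · intro x hx
      simp only [hx, dif_pos]
      exact (e0 ⟨x, hx⟩).2
    · intro x hx y hy hxy
      simp only [hx, hy, dif_pos] at hxy
      have := e0.injective (Subtype.ext hxy)
      exact congrArg Subtype.val this
  -- pressing down
  obtain ⟨b, hb⟩ : ∃ b : M, {α | b < α ∧ (∀ β, ((a (e α)).f β).D.Nonempty → β < α → β < b) ∧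
      ∀ β, ∀ t ∈ ((a (e α)).f β).D, t.1 < α → t.1 < b} ∈ (V : Filter M) := by
    by_contra hcon
    push Not at hcon
    have h0 := hV4 (fun b => {α | b < α ∧ (∀ β, ((a (e α)).f β).D.Nonempty → β < α → β < b) ∧
      ∀ β, ∀ t ∈ ((a (e α)).f β).D, t.1 < α → t.1 < b}ᶜ) (by
        intro b
        rcases V.mem_or_compl_mem {α | b < α ∧ (∀ β, ((a (e α)).f β).D.Nonempty → β < α → β < b) ∧
          ∀ β, ∀ t ∈ ((a (e α)).f β).D, t.1 < α → t.1 < b} with h | h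
        · exact absurd h (hcon b)
        · exact h)
    obtain ⟨α, h1, h2⟩ := V.neBot.nonempty_of_mem (Filter.inter_mem h0 hV1)
    obtain ⟨c, hc, hc1, hc2⟩ := delta_bdd (a (e α)) α (#(Set.Iio α)) h2.2.2 h2.2.1.2.1 h2.2.1.2.2
    exact h1 c hc ⟨hc, hc1, hc2⟩
  have hbk : b < k := by
    obtain ⟨α, h1, h2⟩ := V.neBot.nonempty_of_mem (Filter.inter_mem hb hV1)
    exact h1.1.trans h2.1
  have hT : #(Set.Iio b) < κ := h.mk_lt b hbk
  have hinf : ℵ₀ ≤ κ := h.reg.aleph0_le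
  -- data
  obtain ⟨G1, hG1⟩ := delta_homog V hV3
    (Set.Iio b × Set.Iio b × Set.Iio b × Set.Iio b × Set.Iio b) (by
      simp only [Cardinal.mk_prod, Cardinal.lift_id]
      exact Cardinal.mul_lt_of_lt hinf hT (Cardinal.mul_lt_of_lt hinf hT
        (Cardinal.mul_lt_of_lt hinf hT (Cardinal.mul_lt_of_lt hinf hT hT))))
    (fun α => {x | (((x.2.1 : M), (x.2.2.1 : M)), ((x.2.2.2.1 : M), (x.2.2.2.2 : M))) ∈
      ((a (e α)).f x.1).E})
  obtain ⟨G2, hG2⟩ := delta_homog V hV3 (Set.Iio b × Set.Iio b) (by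
      simp only [Cardinal.mk_prod, Cardinal.lift_id]
      exact Cardinal.mul_lt_of_lt hinf hT hT)
    (fun α => {x | ∀ t ∈ ((a (e α)).f x.1).D, t.2 < (x.2 : M)})
  -- separation
  have hsep : {α | ∀ b < α, b < k → Bdd (a (e b)) α} ∈ (V : Filter M) := by
    refine hV4 (fun b => {α | b < k → Bdd (a (e b)) α}) ?_
    intro b
    by_cases hbk' : b < k
    · obtain ⟨c, hc, hc1, hc2⟩ := delta_bdd (a (e b)) k κ h.unc h.mk_lt hbd
      refine Filter.mem_of_superset (hV2 c hc) ?_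
      intro α hα _ β t ht
      have hok := (a (e b)).ok β ⟨t, ht⟩
      exact ⟨(hc1 β ⟨t, ht⟩ hok.1).trans hα, (hc2 β t ht (hok.2.2.dom t ht).2).trans hα⟩
    · refine Filter.mem_of_superset Filter.univ_mem ?_
      intro α _ h'
      exact absurd h' hbk'
  -- the set
  obtain ⟨A, hA, hAV⟩ : ∃ A : Set M, (∀ α ∈ A, α < k ∧
      ((∀ β, ((a (e α)).f β).D.Nonempty → β < α → β < b) ∧
        ∀ β, ∀ t ∈ ((a (e α)).f β).D, t.1 < α → t.1 < b) ∧
      ({x : Set.Iio b × Set.Iio b × Set.Iio b × Set.Iio b × Set.Iio b |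
        (((x.2.1 : M), (x.2.2.1 : M)), ((x.2.2.2.1 : M), (x.2.2.2.2 : M))) ∈
          ((a (e α)).f x.1).E} = G1) ∧
      ({x : Set.Iio b × Set.Iio b | ∀ t ∈ ((a (e α)).f x.1).D, t.2 < (x.2 : M)} = G2) ∧
      ∀ b < α, b < k → Bdd (a (e b)) α) ∧ A ∈ (V : Filter M) := by
    refine ⟨_, ?_, Filter.inter_mem hV1 (Filter.inter_mem hb
      (Filter.inter_mem hG1 (Filter.inter_mem hG2 hsep)))⟩
    rintro α ⟨h1, h2, h3, h4, h5⟩
    exact ⟨h1.1, h2.2, h3, h4, h5⟩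
  have hAκ : κ ≤ #A := by
    by_contra hcon
    push Not at hcon
    have h0 := hV3 A hcon (fun c => {α | (c : M) < α}) (fun c => hV2 c (hA _ c.2).1)
    obtain ⟨α, h1, h2⟩ := V.neBot.nonempty_of_mem (Filter.inter_mem h0 hAV)
    exact lt_irrefl α (h1 ⟨α, h2⟩)
  obtain ⟨B, hBA, hB⟩ := Cardinal.le_mk_iff_exists_subset.1 (h.unc.le.trans hAκ)
  have hsub : ∀ α ∈ B, ∀ α' ∈ B, ∀ β, ∀ t ∈ ((a (e α)).f β).D, ((a (e α')).f β).D.Nonempty →
      α ≠ α' → β < b := by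
    intro α hα α' hα' β t ht hn hne
    rcases lt_or_gt_of_ne hne with hlt | hlt
    · exact (hA α' (hBA hα')).2.1.1 β hn
        (((hA α' (hBA hα')).2.2.2.2 α hlt (hA α (hBA hα)).1) β t ht).1
    · obtain ⟨t', ht'⟩ := hn
      exact (hA α (hBA hα)).2.1.1 β ⟨t, ht⟩
        (((hA α (hBA hα)).2.2.2.2 α' hlt (hA α' (hBA hα')).1) β t' ht').1
  have hsub2 : ∀ α ∈ B, ∀ α' ∈ B, ∀ β, ∀ t ∈ ((a (e α)).f β).D, t ∈ ((a (e α')).f β).D →
      α ≠ α' → t.1 < b := by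
    intro α hα α' hα' β t ht hn hne
    rcases lt_or_gt_of_ne hne with hlt | hlt
    · exact (hA α' (hBA hα')).2.1.2 β t hn
        (((hA α' (hBA hα')).2.2.2.2 α hlt (hA α (hBA hα)).1) β t ht).2
    · exact (hA α (hBA hα)).2.1.2 β t ht
        (((hA α (hBA hα)).2.2.2.2 α' hlt (hA α' (hBA hα')).1) β t hn).2
  have hlt1 : ℵ₁ * ℵ₁ = (ℵ₁ : Cardinal.{0}) := Cardinal.mul_eq_self (Cardinal.aleph0_le_aleph 1)
  let p : PC M k :=
    { f := fun β => ⟨⋃ α : B, ((a (e α)).f β).D, ⋃ α : B, ((a (e α)).f β).E, by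
        intro t s hts
        obtain ⟨α, hα⟩ := Set.mem_iUnion.1 hts
        exact Set.mem_iUnion.2 ⟨α, ((a (e α)).f β).sub t s hα⟩⟩
      cnt := by
        have h0 : {β | (⋃ α : B, ((a (e α)).f β).D).Nonempty} =
            ⋃ α : B, {β | ((a (e α)).f β).D.Nonempty} := by
          ext β
          simp only [Set.nonempty_iUnion, Set.mem_setOf_eq, Set.mem_iUnion]
        change #{β | (⋃ α : B, ((a (e α)).f β).D).Nonempty} ≤ ℵ₁
        rw [h0]
        refine (Cardinal.mk_iUnion_le _).trans ?_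
        rw [hB]
        have h1 : (⨆ α : B, #{β | ((a (e α)).f β).D.Nonempty}) ≤ ℵ₁ :=
          ciSup_le' fun α => (a (e α)).cnt
        exact (mul_le_mul' le_rfl h1).trans hlt1.le
      ok := by
        intro β hn
        change (⋃ α : B, ((a (e α)).f β).D).Nonempty at hn
        obtain ⟨⟨α₀, hα₀⟩, hn₀⟩ := Set.nonempty_iUnion.1 hn
        have ok₀ := (a (e α₀)).ok β hn₀
        refine ⟨ok₀.1, ok₀.2.1, ?_⟩
        have hβ1 : ℵ₁ ≤ #(Set.Iio β) := by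
          have := ok₀.2.1.1
          rw [← Cardinal.succ_aleph0]
          exact Order.succ_le_of_lt this
        refine ⟨?_, ?_, ?_, ?_⟩
        · change #(⋃ α : B, ((a (e α)).f β).D) ≤ #(Set.Iio β)
          refine (Cardinal.mk_iUnion_le _).trans ?_
          rw [hB]
          have h1 : (⨆ α : B, #((a (e α)).f β).D) ≤ #(Set.Iio β) := by
            refine ciSup_le' fun α => ?_
            by_cases hne : ((a (e α)).f β).D.Nonempty
            · exact ((a (e α)).ok β hne).2.2.card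
            · rw [Set.not_nonempty_iff_eq_empty] at hne
              rw [hne]
              simp
          refine (mul_le_mul' le_rfl h1).trans ?_
          exact Cardinal.mul_le_of_le (hβ1.trans' (Cardinal.aleph0_le_aleph 1)) hβ1 le_rfl
        · obtain ⟨γ, hγ, hγ'⟩ := ok₀.2.2.ht
          refine ⟨γ, hγ, ?_⟩
          intro t ht
          obtain ⟨⟨α, hα⟩, ht'⟩ := Set.mem_iUnion.1 ht
          by_cases hαα : α = α₀
          · subst hαα
            exact hγ' t ht'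
          · have hβb : β < b := hsub α hα α₀ hα₀ β t ht' hn₀ hαα
            have h1 : ((⟨β, hβb⟩, ⟨γ, hγ.trans hβb⟩) : Set.Iio b × Set.Iio b) ∈
                {x : Set.Iio b × Set.Iio b | ∀ t ∈ ((a (e α₀)).f x.1).D, t.2 < (x.2 : M)} := hγ'
            rw [(hA α₀ (hBA hα₀)).2.2.2.1, ← (hA α (hBA hα)).2.2.2.1] at h1
            exact h1 t ht'
        · intro t ht
          obtain ⟨⟨α, hα⟩, ht'⟩ := Set.mem_iUnion.1 ht
          exact ((a (e α)).ok β ⟨t, ht'⟩).2.2.dom t ht'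
        · intro t s hts
          obtain ⟨⟨α, hα⟩, hts'⟩ := Set.mem_iUnion.1 hts
          exact ((a (e α)).ok β ⟨t, ((a (e α)).f β).sub t s hts'⟩).2.2.val t s hts' }
  refine ⟨e '' B, ?_, ?_, p, ?_⟩
  · rintro x ⟨α, hα, rfl⟩
    exact heZ α (hA α (hBA hα)).1
  · rw [Cardinal.mk_image_eq_of_injOn]
    · exact hB
    · intro x hx y hy hxy
      exact heI x (hA x (hBA hx)).1 y (hA y (hBA hy)).1 hxy
  · rintro x ⟨α, hα, rfl⟩ β
    refine ⟨?_, ?_⟩
    · intro t ht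
      exact Set.mem_iUnion.2 ⟨⟨α, hα⟩, ht⟩
    · intro t ht s
      refine ⟨fun hts => ?_, fun hts => Set.mem_iUnion.2 ⟨⟨α, hα⟩, hts⟩⟩
      obtain ⟨⟨α', hα'⟩, hts'⟩ := Set.mem_iUnion.1 hts
      by_cases hαα : α = α'
      · subst hαα
        exact hts'
      · have ht' : t ∈ ((a (e α')).f β).D := ((a (e α')).f β).sub t s hts'
        have hβb : β < b := hsub α hα α' hα' β t ht ⟨t, ht'⟩ hαα
        have htb : t.1 < b := hsub2 α hα α' hα' β t ht ht' hαα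
        have ok' := (a (e α')).ok β ⟨t, ht'⟩
        obtain ⟨γ, hγ, hγ'⟩ := ok'.2.2.ht
        have ht2 : t.2 < b := ((hγ' t ht').trans hγ).trans hβb
        have hs1 : s.1 < b := (ok'.2.2.val t s hts').1.trans hβb
        have hs2 : s.2 < b := (ok'.2.2.val t s hts').2.trans htb
        have h1 : ((⟨β, hβb⟩, ⟨t.1, htb⟩, ⟨t.2, ht2⟩, ⟨s.1, hs1⟩, ⟨s.2, hs2⟩) :
              Set.Iio b × Set.Iio b × Set.Iio b × Set.Iio b × Set.Iio b) ∈
            {x : Set.Iio b × Set.Iio b × Set.Iio b × Set.Iio b × Set.Iio b |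
              (((x.2.1 : M), (x.2.2.1 : M)), ((x.2.2.2.1 : M), (x.2.2.2.2 : M))) ∈
                ((a (e α')).f x.1).E} := hts'
        rw [(hA α' (hBA hα')).2.2.1, ← (hA α (hBA hα)).2.2.1] at h1
        exact h1

theorem RC.le_of_lit {cP : PC M k → M} {a a2 : PC M k} {q q2 : SC M k} (ha : a2 ≤ a)
    (hq : q2 ≤ q) : (⟨a2, q2⟩ : RC M k cP) ≤ ⟨a, q⟩ := by
  refine ⟨ha, fun t ht => ⟨hq.1 ht, fun η p _ => ?_⟩⟩
  have : nm cP q2.q t η = nm cP q.q t η := by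
    ext x
    constructor
    · rintro ⟨b, hb, hb'⟩
      exact ⟨b, hb, (hq.2 t ht _).1 hb'⟩
    · rintro ⟨b, hb, hb'⟩
      exact ⟨b, hb, (hq.2 t ht _).2 hb'⟩
  rw [this]

theorem RC.homog_aux (h : HS M k κ U π) {cP : PC M k → M} (e : M → M)
    (D : M → Set (RC M k cP)) (hDown : ∀ z, Down (D z))
    (hDense : ∀ z, ∀ s : RC M k cP, ∃ s' ≤ s, s' ∈ D z) (r : RC M k cP) :
    ∃ f : M → PC M k × SC M k, ∀ z < k, (f z).1 ≤ r.p ∧ (f z).2 ≤ r.q ∧
      (∀ z2 < z, (f z).2 ≤ (f z2).2) ∧ (⟨(f z).1, (f z).2⟩ : RC M k cP) ∈ D z := by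
  haveI : Nonempty (PC M k × SC M k) := ⟨(r.p, r.q)⟩
  refine rec_choice (ι := M) (β := PC M k × SC M k) (r := (· < ·)) h.wf.wf
    (fun z f b => z < k → (b.1 ≤ r.p ∧ b.2 ≤ r.q ∧ (∀ z2 < z, b.2 ≤ (f z2).2) ∧
      (⟨b.1, b.2⟩ : RC M k cP) ∈ D z)) ?_ ?_
  · intro i f g b hfg hP hi
    obtain ⟨h1, h2, h3, h4⟩ := hP hi
    exact ⟨h1, h2, fun z2 hz2 => by rw [← hfg z2 hz2]; exact h3 z2 hz2, h4⟩
  · intro i f hf
    by_cases hi : i < k
    · let C : Set (SC M k) := insert r.q ((fun z2 => (f z2).2) '' Set.Iio i)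
      have hle : ∀ a ∈ C, a ≤ r.q := by
        rintro a (rfl | ⟨z2, hz2, rfl⟩)
        · exact le_rfl
        · exact (hf z2 hz2 (lt_trans hz2 hi)).2.1
      have hκ : ℵ₀ ≤ κ := h.reg.aleph0_le
      have hCcard : #C < κ := by
        refine lt_of_le_of_lt (mk_insert_le) ?_
        refine Cardinal.add_lt_of_lt hκ ?_ (lt_of_lt_of_le one_lt_aleph0 hκ)
        exact lt_of_le_of_lt mk_image_le (h.mk_lt i hi)
      have hCdir : ∀ a ∈ C, ∀ b ∈ C, ∃ c ∈ C, c ≤ a ∧ c ≤ b := by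
        rintro a ha b hb
        rcases ha with rfl | ⟨z2, hz2, rfl⟩
        · exact ⟨b, hb, hle b hb, le_rfl⟩
        rcases hb with rfl | ⟨z3, hz3, rfl⟩
        · exact ⟨(f z2).2, Or.inr ⟨z2, hz2, rfl⟩, le_rfl, (hf z2 hz2 (lt_trans hz2 hi)).2.1⟩
        rcases lt_trichotomy z2 z3 with hlt | heq | hgt
        · exact ⟨(f z3).2, Or.inr ⟨z3, hz3, rfl⟩,
            (hf z3 hz3 (lt_trans hz3 hi)).2.2.1 z2 hlt, le_rfl⟩
        · subst heq
          exact ⟨(f z2).2, Or.inr ⟨z2, hz2, rfl⟩, le_rfl, le_rfl⟩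
        · exact ⟨(f z2).2, Or.inr ⟨z2, hz2, rfl⟩, le_rfl,
            (hf z2 hz2 (lt_trans hz2 hi)).2.2.1 z3 hgt⟩
      obtain ⟨qm, hqm⟩ := SC.dirClosed h C hCcard ⟨r.q, Or.inl rfl⟩ hCdir
      obtain ⟨s, hs, hsD⟩ := hDense i (⟨r.p, qm⟩ : RC M k cP)
      obtain ⟨q2, hq2, hq2s⟩ := RC.direct hs
      have hq2' : q2 ≤ qm := hq2
      refine ⟨(s.p, q2), fun _ => ⟨hs.1, hq2'.trans (hqm _ (Or.inl rfl)), fun z2 hz2 => ?_,
        hDown i _ hsD _ hq2s⟩⟩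
      exact hq2'.trans (hqm _ (Or.inr ⟨z2, hz2, rfl⟩))
    · exact ⟨(r.p, r.q), fun hi' => absurd hi' hi⟩


theorem RC.homog (h : HS M k κ U π) {cP : PC M k → M} (c : M → Set (RC M k cP)) (X : Set M)
    (hX : #X = κ) (r : RC M k cP) :
    ∃ B ⊆ X, #B = ℵ₁ ∧ ∃ r' ≤ r, (∀ ξ ∈ B, r' ∈ meets (c ξ)) ∨
      (∀ ξ ∈ B, r' ∈ fnot (meets (c ξ))) := by
  classical
  have hκ : ℵ₀ ≤ κ := h.reg.aleph0_le
  obtain ⟨e0⟩ : Nonempty (Set.Iio k ≃ X) := Cardinal.eq.1 (h.mk_k.trans hX.symm)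
  let e : M → M := fun z => if hz : z < k then (e0 ⟨z, hz⟩ : M) else z
  have he : ∀ z (hz : z < k), e z = (e0 ⟨z, hz⟩ : M) := fun z hz => dif_pos hz
  have heX : ∀ z < k, e z ∈ X := fun z hz => by rw [he z hz]; exact (e0 ⟨z, hz⟩).2
  have heinj : Set.InjOn e (Set.Iio k) := by
    intro z hz z' hz' hzz
    rw [he z hz, he z' hz'] at hzz
    have := e0.injective (Subtype.ext hzz)
    exact congrArg Subtype.val this
  let D : M → Set (RC M k cP) :=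
    fun z => {s | s ∈ meets (c (e z)) ∨ s ∈ fnot (meets (c (e z)))}
  have hDown : ∀ z, Down (D z) := by
    rintro z p (hp | hp) q hq
    · exact Or.inl (down_meets _ _ hp _ hq)
    · exact Or.inr (down_fnot _ _ hp _ hq)
  have hDense : ∀ z, ∀ s : RC M k cP, ∃ s' ≤ s, s' ∈ D z := by
    intro z s
    by_cases hs : s ∈ fnot (meets (c (e z)))
    · exact ⟨s, le_rfl, Or.inr hs⟩
    · simp only [fnot, Set.mem_ofPred_eq, not_forall, not_not] at hs
      obtain ⟨q, hq, hq'⟩ := hs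
      exact ⟨q, hq, Or.inl hq'⟩
  obtain ⟨f, hf⟩ := RC.homog_aux h e D hDown hDense r
  let F : M → RC M k cP := fun z => ⟨(f z).1, (f z).2⟩
  have key : ∀ φ : M → Set (RC M k cP), (∀ z, Down (φ z)) →
      ∀ Z ⊆ Set.Iio k, #Z = κ → (∀ z ∈ Z, F z ∈ φ z) →
      ∃ B0 ⊆ Set.Iio k, #B0 = ℵ₁ ∧ ∃ r' ≤ r, ∀ z ∈ B0, r' ∈ φ z := by
    intro φ hφ Z hZ hZ' hZφ
    obtain ⟨B0, hB0, hB0c, p, hp⟩ := PC.delta h (fun z => (f z).1) Z hZ hZ'
    have hbd : ∃ zs < k, ∀ b ∈ B0, b < zs := by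
      by_contra hcon
      push Not at hcon
      have hsub : Set.Iio k ⊆ ⋃ b : B0, Set.Iic (b : M) := by
        intro z hz
        obtain ⟨b, hb, hzb⟩ := hcon z hz
        exact Set.mem_iUnion.2 ⟨⟨b, hb⟩, hzb⟩
      have h1 : #(⋃ b : B0, Set.Iic (b : M)) < κ := by
        rw [Cardinal.card_iUnion_lt_iff_forall_of_isRegular h.reg (by rw [hB0c]; exact h.unc)]
        intro b
        have hb : (b : M) < k := hZ (hB0 b.2)
        rw [← Set.Iio_insert]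
        refine lt_of_le_of_lt mk_insert_le ?_
        exact Cardinal.add_lt_of_lt hκ (h.mk_lt _ hb) (lt_of_lt_of_le one_lt_aleph0 hκ)
      have h2 := mk_le_mk_of_subset hsub
      rw [h.mk_k] at h2
      exact absurd h1 (not_lt.2 h2)
    obtain ⟨zs, hzs, hbd⟩ := hbd
    have hne : B0.Nonempty := by
      rw [Set.nonempty_iff_ne_empty]
      rintro rfl
      rw [mk_emptyCollection] at hB0c
      exact absurd hB0c.symm (aleph_pos 1).ne'
    refine ⟨B0, hB0.trans hZ, hB0c, ⟨p, (f zs).2⟩, ?_, ?_⟩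
    · obtain ⟨z, hz⟩ := hne
      exact RC.le_of_lit ((hp z hz).trans (hf z (hZ (hB0 hz))).1) (hf zs hzs).2.1
    · intro z hz
      refine hφ z _ (hZφ z (hB0 hz)) _ ?_
      exact RC.le_of_lit (hp z hz) ((hf zs hzs).2.2.1 z (hbd z hz))
  have fin : ∀ φ : M → Set (RC M k cP), (∀ z, Down (φ z)) →
      #{z | z < k ∧ F z ∈ φ (e z)} = κ →
      ∃ B ⊆ X, #B = ℵ₁ ∧ ∃ r' ≤ r, ∀ ξ ∈ B, r' ∈ φ ξ := by
    intro φ hφ hc
    obtain ⟨B0, hB0, hB0c, r', hr', hall⟩ := key (fun z => φ (e z)) (fun z => hφ (e z))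
      {z | z < k ∧ F z ∈ φ (e z)} (fun z hz => hz.1) hc (fun z hz => hz.2)
    refine ⟨e '' B0, ?_, ?_, r', hr', ?_⟩
    · rintro _ ⟨z, hz, rfl⟩; exact heX z (hB0 hz)
    · rw [mk_image_eq_of_injOn _ _ (heinj.mono hB0)]; exact hB0c
    · rintro _ ⟨z, hz, rfl⟩; exact hall z hz
  have hcov : Set.Iio k ⊆ {z | z < k ∧ F z ∈ meets (c (e z))} ∪
      {z | z < k ∧ F z ∈ fnot (meets (c (e z)))} := by
    intro z hz
    rcases (hf z hz).2.2.2 with h1 | h1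
    · exact Or.inl ⟨hz, h1⟩
    · exact Or.inr ⟨hz, h1⟩
  have hle : ∀ φ : M → Set (RC M k cP), #{z | z < k ∧ F z ∈ φ (e z)} ≤ κ := by
    intro φ
    rw [← h.mk_k]
    exact mk_le_mk_of_subset (fun z hz => hz.1)
  by_cases h0 : #{z | z < k ∧ F z ∈ meets (c (e z))} < κ
  · have h1 : ¬ #{z | z < k ∧ F z ∈ fnot (meets (c (e z)))} < κ := by
      intro h1
      have h2 := (mk_le_mk_of_subset hcov).trans (mk_union_le _ _)
      rw [h.mk_k] at h2
      exact absurd (Cardinal.add_lt_of_lt hκ h0 h1) (not_lt.2 h2)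
    obtain ⟨B, hB, hBc, r', hr', hall⟩ := fin (fun ξ => fnot (meets (c ξ)))
      (fun ξ => down_fnot _) (le_antisymm (hle fun ξ => fnot (meets (c ξ))) (not_lt.1 h1))
    exact ⟨B, hB, hBc, r', hr', Or.inr hall⟩
  · obtain ⟨B, hB, hBc, r', hr', hall⟩ := fin (fun ξ => meets (c ξ))
      (fun ξ => down_meets _) (le_antisymm (hle fun ξ => meets (c ξ)) (not_lt.1 h0))
    exact ⟨B, hB, hBc, r', hr', Or.inl hall⟩

theorem RC.lit {cP : PC M k → M} {b b' : PC M k} {t t' : SC M k} (hb : b' ≤ b) (ht : t' ≤ t) :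
    (⟨b', t'⟩ : RC M k cP) ≤ ⟨b, t⟩ := by
  refine ⟨hb, fun τ hτ => ⟨ht.1 hτ, fun η p _ => ?_⟩⟩
  have : nm cP t'.q τ η = nm cP t.q τ η := by
    ext p
    constructor
    · rintro ⟨c, hc, hc'⟩
      exact ⟨c, hc, (ht.2 τ hτ _).1 hc'⟩
    · rintro ⟨c, hc, hc'⟩
      exact ⟨c, hc, (ht.2 τ hτ _).2 hc'⟩
  show p ∈ meets (nm cP t'.q τ η) ↔ p ∈ meets (nm cP t.q τ η)
  rw [this]

theorem RC.reduce (h : HS M k κ U π) {cP : PC M k → M} {ν : Cardinal.{0}} (hν : ν < κ)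
    (X : ν.ord.ToType → Set (RC M k cP)) (r : RC M k cP) :
    ∃ r' ≤ r, ∃ Y : ν.ord.ToType → Set (PC M k),
      r' ∈ fand (Sub (fun i => {s : RC M k cP | s.p ∈ Y i}) X)
        (Sub X (fun i => {s : RC M k cP | s.p ∈ Y i})) := by
  classical
  have hcc : ∀ A : Set (PC M k), (∀ a ∈ A, ∀ b ∈ A, Compat a b → a = b) → #A < κ := by
    intro A hA
    by_contra hcon
    rw [not_lt, ← h.mk_k] at hcon
    obtain ⟨e⟩ := Cardinal.le_def _ _ |>.1 hcon
    obtain ⟨B, hB, hB1, p, hp⟩ := PC.delta h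
      (fun m => if hm : m ∈ Set.Iio k then (e ⟨m, hm⟩ : PC M k) else r.p) (Set.Iio k) subset_rfl
      h.mk_k
    have hnt : (1 : Cardinal) < #B := by
      rw [hB1]
      exact Cardinal.one_lt_aleph0.trans Cardinal.aleph0_lt_aleph_one
    rw [Cardinal.one_lt_iff_nontrivial] at hnt
    obtain ⟨⟨b, hb⟩, ⟨b', hb'⟩, hne⟩ := hnt
    have h1 := hp b hb
    have h2 := hp b' hb'
    simp only [dif_pos (hB hb)] at h1
    simp only [dif_pos (hB hb')] at h2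
    have h3 := hA _ (e ⟨b, hB hb⟩).2 _ (e ⟨b', hB hb'⟩).2 ⟨p, h1, h2⟩
    have h4 := e.injective (Subtype.ext h3)
    have h5 : b = b' := by
      simpa using h4
    exact hne (Subtype.ext h5)
  have hclosed : ∀ S : Set (SC M k), (∀ s ∈ S, ∀ t ∈ S, s ≤ t ∨ t ≤ s) → #S < κ → S.Nonempty →
      ∃ t, ∀ s ∈ S, t ≤ s := by
    intro S hS hc hne
    refine SC.dirClosed h S hc hne ?_
    intro a ha b hb
    rcases hS a ha b hb with h1 | h1
    · exact ⟨a, ha, le_rfl, h1⟩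
    · exact ⟨b, hb, h1, le_rfl⟩
  obtain ⟨q2, hq2, hD⟩ := easton' (B := PC M k) (T := SC M k) h.reg hcc hclosed
    (Λ := ν.ord.ToType) (by rw [Cardinal.mk_ord_toType]; exact hν)
    (fun i b t => (⟨b, t⟩ : RC M k cP) ∈ meets (X i) ∨ (⟨b, t⟩ : RC M k cP) ∈ fnot (meets (X i)))
    (by
      rintro i b t (h1 | h1) b' hb' t' ht'
      · exact Or.inl (down_meets _ _ h1 _ (RC.lit hb' ht'))
      · exact Or.inr (down_fnot _ _ h1 _ (RC.lit hb' ht')))
    (by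
      intro i b t
      by_cases h1 : (⟨b, t⟩ : RC M k cP) ∈ fnot (meets (X i))
      · exact ⟨b, le_rfl, t, le_rfl, Or.inr h1⟩
      · have h2 : ∃ s ≤ (⟨b, t⟩ : RC M k cP), s ∈ meets (X i) := by
          by_contra hcon
          push Not at hcon
          exact h1 hcon
        obtain ⟨s, hs, hs'⟩ := h2
        obtain ⟨q, hq, hq'⟩ := RC.direct hs
        exact ⟨s.p, hs.1, q, hq, Or.inl (down_meets _ _ hs' _ hq')⟩) r.q
  have hr2 : (⟨r.p, q2⟩ : RC M k cP) ≤ r := RC.lit (b := r.p) (t := r.q) le_rfl hq2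
  refine ⟨⟨r.p, q2⟩, hr2, fun i => {b | (⟨b, q2⟩ : RC M k cP) ∈ meets (X i)}, ?_, ?_⟩
  · intro i
    rw [mem_fimp]
    intro s hs hsm
    obtain ⟨u, hu, v, hv, huv⟩ := hsm s le_rfl
    refine ⟨u, hu, ?_⟩
    have h1 : u ≤ (⟨v.p, q2⟩ : RC M k cP) := ⟨huv.1, (hu.trans hs).2⟩
    exact down_meets _ _ hv _ h1
  · intro i
    rw [mem_fimp]
    intro s hs hsm
    obtain ⟨b2, hb2, hb2'⟩ := hD i s.p
    have h1 : (⟨b2, s.q⟩ : RC M k cP) ≤ s := RC.lit (b := s.p) (t := s.q) hb2 le_rfl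
    have h2 : (⟨b2, s.q⟩ : RC M k cP) ≤ ⟨b2, q2⟩ := ⟨le_rfl, (h1.trans hs).2⟩
    refine ⟨⟨b2, s.q⟩, h1, ?_⟩
    rcases hb2' with h3 | h3
    · exact meets_of_mem h3
    · exact absurd (down_meets _ _ hsm _ h1) (h3 _ h2)

end

end Pool.Agent.Helper669.V
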