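import Mathlib
import Pool.Agent.Helper669.VD

set_option autoImplicit false

/-!
# Counting names; GCH; the polarized relation from the key lemma
-/

namespace Pool.Agent.Helper669.V

open Cardinal Pool.Agent.Helper669.Forcing Pool.Agent.Helper669.K Pool.Agent.Helper669.U

theorem nice_name {Q : Type} [Preorder Q] {χ : Cardinal.{0}}
    (hcc : ∀ (ι : Type) (f : ι → Q), χ ≤ #ι → ∃ i j, i ≠ j ∧ ∃ r, r ≤ f i ∧ r ≤ f j)
    (N : Set Q) : ∃ A : Set Q, #A < χ ∧ ∀ q, q ∈ meets N ↔ q ∈ meets A := by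
  classical
  obtain ⟨A, hA⟩ := zorn_subset
    {A : Set Q | A ⊆ meets N ∧ ∀ a ∈ A, ∀ b ∈ A, a ≠ b → ¬ ∃ r, r ≤ a ∧ r ≤ b} (by
      intro c hc hch
      refine ⟨⋃₀ c, ⟨Set.sUnion_subset fun s hs => (hc hs).1, ?_⟩,
        fun s hs => Set.subset_sUnion_of_mem hs⟩
      rintro a ⟨s, hs, has⟩ b ⟨t, ht, hbt⟩ hab
      rcases hch.total hs ht with h | h
      · exact (hc ht).2 a (h has) b hbt hab
      · exact (hc hs).2 a has b (h hbt) hab)
  obtain ⟨⟨hA1, hA2⟩, hA3⟩ := hA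
  refine ⟨A, ?_, fun q => ⟨fun hq r hr => ?_, fun hq r hr => ?_⟩⟩
  · by_contra hcon
    obtain ⟨i, j, hij, hr⟩ := hcc A Subtype.val (not_lt.1 hcon)
    exact hA2 i.1 i.2 j.1 j.2 (fun h => hij (Subtype.ext h)) hr
  · by_contra hcon
    have hno : ∀ a ∈ A, ¬ ∃ s, s ≤ r ∧ s ≤ a := by
      rintro a ha ⟨s, hs1, hs2⟩
      exact hcon ⟨s, hs1, a, ha, hs2⟩
    have hrN : r ∈ meets N := down_meets _ _ hq _ hr
    have hin : insert r A ∈
        {A : Set Q | A ⊆ meets N ∧ ∀ a ∈ A, ∀ b ∈ A, a ≠ b → ¬ ∃ r, r ≤ a ∧ r ≤ b} := by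
      refine ⟨Set.insert_subset hrN hA1, ?_⟩
      intro a ha b hb hab
      rcases ha with rfl | ha
      · rcases hb with rfl | hb
        · exact absurd rfl hab
        · exact hno b hb
      · rcases hb with rfl | hb
        · rintro ⟨s, h1, h2⟩
          exact hno a ha ⟨s, h2, h1⟩
        · exact hA2 a ha b hb hab
    have hrA : r ∈ A := hA3 hin (Set.subset_insert _ _) (Set.mem_insert _ _)
    exact hno r hrA ⟨r, le_rfl, le_rfl⟩
  · obtain ⟨s, hs, a, ha, hsa⟩ := hq r hr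
    obtain ⟨t, ht, n, hn, htn⟩ := hA1 ha s hsa
    exact ⟨t, ht.trans hs, n, hn, htn⟩

theorem exists_nice_enum {Q : Type} [Preorder Q] {χ ν μ : Cardinal.{0}}
    (hcc : ∀ (ι : Type) (f : ι → Q), χ ≤ #ι → ∃ i j, i ≠ j ∧ ∃ r, r ≤ f i ∧ r ≤ f j)
    (hcard : #(ν.ord.ToType → {A : Set Q // #A < χ}) ≤ μ) (hμ : μ ≠ 0) :
    ∃ F : μ.ord.ToType → ν.ord.ToType → Set Q, ∀ X : ν.ord.ToType → Set Q,
      ∃ i, ∀ q, q ∈ fand (Sub (F i) X) (Sub X (F i)) := by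
  classical
  choose A hA1 hA2 using fun N : Set Q => nice_name hcc N
  have hle : #(ν.ord.ToType → {A : Set Q // #A < χ}) ≤ #(μ.ord.ToType) := by
    rw [mk_ord_toType]; exact hcard
  obtain ⟨e⟩ := hle
  haveI : Nonempty (ν.ord.ToType → {A : Set Q // #A < χ}) := ⟨fun _ => ⟨A ∅, hA1 ∅⟩⟩
  have hsurj : Function.Surjective (Function.invFun e) := Function.invFun_surjective e.injective
  refine ⟨fun i y => (Function.invFun e i y).1, fun X => ?_⟩
  obtain ⟨i, hi⟩ := hsurj fun y => ⟨A (X y), hA1 (X y)⟩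
  refine ⟨i, fun q => ⟨fun y => mem_fimp.2 fun r _ h => ⟨r, le_rfl, ?_⟩,
    fun y => mem_fimp.2 fun r _ h => ⟨r, le_rfl, ?_⟩⟩⟩
  · simp only [hi] at h
    exact (hA2 (X y) r).2 h
  · simp only [hi]
    exact (hA2 (X y) r).1 h

theorem card_small_subsets {Q : Type} {χ : Cardinal.{0}} (hχ : χ.IsRegular)
    (hχ2 : ∀ μ < χ, 2 ^ μ < χ) (hQ : #Q ≤ χ) : #{A : Set Q // #A < χ} ≤ χ := by
  have hα : #(χ.ord.ToType) = χ := by simp
  have h1 : #{s : Set χ.ord.ToType // #s < (#(χ.ord.ToType)).ord.cof} = #(χ.ord.ToType) :=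
    mk_subset_mk_lt_cof (by
      rw [hα]
      intro μ hμ
      exact hχ2 μ hμ)
  rw [hα, hχ.cof_ord] at h1
  have h2 : #Q ≤ #(χ.ord.ToType) := by rw [hα]; exact hQ
  obtain ⟨f⟩ := h2
  refine le_trans ?_ h1.le
  refine mk_le_of_injective (f := fun A : {A : Set Q // #A < χ} =>
    (⟨f '' A.1, lt_of_le_of_lt mk_image_le A.2⟩ : {s : Set χ.ord.ToType // #s < χ})) ?_
  intro A B hAB
  have h3 : f '' A.1 = f '' B.1 := congrArg Subtype.val hAB
  exact Subtype.ext (Set.image_injective.2 f.injective h3)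


theorem card_nice {Q : Type} {χ ν : Cardinal.{0}} (hχ : χ.IsRegular) (hχ2 : ∀ μ < χ, 2 ^ μ < χ)
    (hQ : #Q ≤ χ) (hν : ν < χ) : #(ν.ord.ToType → {A : Set Q // #A < χ}) ≤ χ := by
  have hβ : #(ν.ord.ToType) = ν := by simp
  have hX : #{A : Set Q // #A < χ} ≤ χ := card_small_subsets hχ hχ2 hQ
  have hprod : #(ν.ord.ToType × {A : Set Q // #A < χ}) ≤ χ := by
    rw [mk_prod, lift_id, lift_id, hβ]
    calc ν * #{A : Set Q // #A < χ} ≤ χ * χ := mul_le_mul' hν.le hX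
      _ = χ := mul_eq_self hχ.aleph0_le
  refine le_trans ?_ (card_small_subsets hχ hχ2 hprod)
  refine mk_le_of_injective (f := fun f : (ν.ord.ToType → {A : Set Q // #A < χ}) =>
    (⟨Set.range (fun b => (b, f b)), lt_of_le_of_lt mk_range_le (by rw [hβ]; exact hν)⟩ :
      {s : Set (ν.ord.ToType × {A : Set Q // #A < χ}) // #s < χ})) ?_
  intro f g hfg
  have h3 : Set.range (fun b => (b, f b)) = Set.range (fun b => (b, g b)) :=
    congrArg Subtype.val hfg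
  funext b
  have h4 : (b, f b) ∈ Set.range (fun b => (b, g b)) := by
    rw [← h3]
    exact ⟨b, rfl⟩
  obtain ⟨c, hc⟩ := h4
  have h5 : c = b := congrArg Prod.fst hc
  have h6 : g c = f b := congrArg Prod.snd hc
  rw [← h6, h5]

theorem card_nice' {Q : Type} {χ ν : Cardinal.{0}} (hν0 : ℵ₀ ≤ ν)
    (hQ : #Q ≤ 2 ^ ν) (hν : χ ≤ Order.succ ν) :
    #(ν.ord.ToType → {A : Set Q // #A < χ}) ≤ 2 ^ ν := by
  have h1 : #{A : Set Q // #A < χ} ≤ #{A : Set Q // #A ≤ ν} :=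
    Cardinal.mk_le_of_injective (f := fun A : {A : Set Q // #A < χ} =>
      (⟨A.1, Order.lt_succ_iff.1 (A.2.trans_le hν)⟩ : {A : Set Q // #A ≤ ν}))
      (fun a b hab => Subtype.ext (congrArg (fun z : {A : Set Q // #A ≤ ν} => z.1) hab))
  have h2 : #{A : Set Q // #A ≤ ν} ≤ 2 ^ ν := by
    refine (Cardinal.mk_bounded_set_le Q ν).trans ?_
    calc max #Q ℵ₀ ^ ν ≤ (2 ^ ν) ^ ν := by
          apply Cardinal.power_le_power_right
          exact max_le hQ (hν0.trans (cantor ν).le)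
      _ = 2 ^ ν := by rw [← Cardinal.power_mul, Cardinal.mul_eq_self hν0]
  rw [← Cardinal.power_def, Cardinal.mk_ord_toType]
  calc #{A : Set Q // #A < χ} ^ ν ≤ (2 ^ ν) ^ ν := Cardinal.power_le_power_right (h1.trans h2)
    _ = 2 ^ ν := by rw [← Cardinal.power_mul, Cardinal.mul_eq_self hν0]

theorem gch_down_coll {Q : Type} [Preorder Q] (μ κ : Cardinal.{0}) : Down (CollapsedTo Q μ κ) :=
  down_fall fun _ => down_fall fun _ => down_fex _

theorem gch_ground {Q : Type} [Preorder Q] (ν κ : Cardinal.{0}) (h : ∀ ρ < κ, ρ ≤ ν) (q : Q) :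
    q ∈ CollapsedTo Q ν κ := by
  intro ρ hρ
  have hle : #ρ.out ≤ #(ν.ord.ToType) := by
    rw [Cardinal.mk_out, Cardinal.mk_ord_toType]
    exact h ρ hρ
  obtain ⟨g⟩ := (Cardinal.le_def _ _).1 hle
  refine mem_fex_of_mem (fun x y => {_q : Q | x = g y}) ?_ ⟨?_, ?_⟩
  · exact down_fand (down_fall fun _ => down_fall fun _ => down_fall fun _ => down_fimp _ _)
      (down_IsOnto _)
  · intro x y y'
    rw [mem_fimp]
    rintro q' _ ⟨k1, k2⟩
    obtain ⟨_, _, _, e1, _⟩ := k1 q' le_rfl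
    obtain ⟨_, _, _, e2, _⟩ := k2 q' le_rfl
    refine ⟨q', le_rfl, ?_⟩
    have e1' : x = g y := e1
    have e2' : x = g y' := e2
    exact g.injective (e1'.symm.trans e2')
  · intro y
    refine mem_fex_of_mem (g y) (down_meets _) ?_
    exact meets_of_mem (show g y = g y from rfl)

theorem gch_mono {Q : Type} [Preorder Q] {ν ν' κ : Cardinal.{0}} (h : ν ≤ ν') {q : Q}
    (hq : q ∈ CollapsedTo Q ν κ) : q ∈ CollapsedTo Q ν' κ := by
  intro ρ hρ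
  have h1 := hq ρ hρ
  have hle : #(ν.ord.ToType) ≤ #(ν'.ord.ToType) := by
    rw [Cardinal.mk_ord_toType, Cardinal.mk_ord_toType]
    exact h
  obtain ⟨j⟩ := (Cardinal.le_def _ _).1 hle
  rw [mem_fex] at h1 ⊢
  intro q1 hq1
  obtain ⟨r, hr, R, hR1, hR2⟩ := h1 q1 hq1
  refine ⟨r, hr, fun x y => {p | ∃ z, j z = x ∧ p ∈ meets (R z y)}, ?_, ?_⟩
  · intro x y y'
    rw [mem_fimp]
    rintro q' hq' ⟨k1, k2⟩
    obtain ⟨r1, hr1, s1, ⟨z, hz, hs1⟩, hrs1⟩ := k1 q' le_rfl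
    obtain ⟨r2, hr2, s2, ⟨z', hz', hs2⟩, hrs2⟩ := k2 r1 hr1
    have hzz : z' = z := j.injective (hz'.trans hz.symm)
    subst hzz
    have m1 : r2 ∈ meets (R z' y) := down_meets _ _ hs1 _ (hr2.trans hrs1)
    have m2 : r2 ∈ meets (R z' y') := down_meets _ _ hs2 _ hrs2
    obtain ⟨r3, hr3, hr3'⟩ := mem_fimp.1 (hR1 z' y y') r2 (hr2.trans (hr1.trans hq')) ⟨m1, m2⟩
    exact ⟨r3, hr3.trans (hr2.trans hr1), hr3'⟩
  · intro y
    have h3 := hR2 y
    rw [mem_fex] at h3 ⊢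
    intro q' hq'
    obtain ⟨r1, hr1, z, hz⟩ := h3 q' hq'
    exact ⟨r1, hr1, j z, meets_of_mem ⟨z, rfl, hz⟩⟩

theorem forcesGCH_of {Q : Type} [Preorder Q] {κ m : Cardinal.{0}} (h1 : ℵ₁ < κ) (h2 : κ < m)
    (hω : ∀ q, q ∈ PowOnto Q ℵ₀ ℵ₁) (hκ : ∀ ν, ℵ₁ ≤ ν → ν < κ → ∀ q, q ∈ PowOnto Q ν κ)
    (hm : ∀ ν, κ ≤ ν → ν < m → ∀ q, q ∈ PowOnto Q ν m)
    (ht : ∀ ν, m ≤ ν → ∀ q, q ∈ PowOnto Q ν (Order.succ ν))
    (hc1 : ∀ q, q ∈ CollapsedTo Q ℵ₁ κ) (hc2 : ∀ q, q ∈ CollapsedTo Q κ m) (q : Q) :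
    q ∈ ForcesGCH Q := by
  intro ν hν
  have key : ∀ μ : Cardinal.{0}, q ∈ PowOnto Q ν μ → q ∈ CollapsedTo Q ν μ →
      q ∈ fex fun μ : Cardinal.{0} => fand (PowOnto Q ν μ) (CollapsedTo Q ν μ) :=
    fun μ ha hb => mem_fex_of_mem μ (down_fand (down_fex _) (gch_down_coll _ _)) ⟨ha, hb⟩
  rcases lt_or_ge ν ℵ₁ with c1 | c1
  · have hν0 : ν = ℵ₀ := by
      rw [← Cardinal.succ_aleph0, Order.lt_succ_iff] at c1
      exact le_antisymm c1 hν
    subst hν0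
    refine key ℵ₁ (hω q) (gch_ground _ _ (fun ρ hρ => ?_) q)
    rwa [← Cardinal.succ_aleph0, Order.lt_succ_iff] at hρ
  · rcases lt_or_ge ν κ with c2 | c2
    · exact key κ (hκ ν c1 c2 q) (gch_mono c1 (hc1 q))
    · rcases lt_or_ge ν m with c3 | c3
      · exact key m (hm ν c2 c3 q) (gch_mono c2 (hc2 q))
      · exact key _ (ht ν c3 q) (gch_ground _ _ (fun ρ hρ => Order.lt_succ_iff.1 hρ) q)

theorem powOnto_of_dirClosed {Q : Type} [Preorder Q] {χ ν μ : Cardinal.{0}} (hχ : ℵ₀ ≤ χ)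
    (hQ : DirClosed χ Q) (hν : ν < χ) (hμ : 2 ^ ν ≤ μ) (q : Q) : q ∈ PowOnto Q ν μ := by
  classical
  have hcard : #(Set ν.ord.ToType) ≤ #(μ.ord.ToType) := by
    rw [Cardinal.mk_set, Cardinal.mk_ord_toType, Cardinal.mk_ord_toType]
    exact hμ
  obtain ⟨j⟩ := hcard
  have hsurj : Function.Surjective (Function.invFun j) := Function.invFun_surjective j.injective
  refine mem_fex.2 fun q' _ => ⟨q', le_rfl, fun i => chk (Function.invFun j i), fun X => ?_⟩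
  refine mem_fex.2 fun q'' _ => ?_
  obtain ⟨r, hr, hD⟩ := exists_forall_mem hχ hQ (N := ν.ord.ToType)
    (by rw [Cardinal.mk_ord_toType]; exact hν)
    (fun x => meets (X x) ∪ fnot (meets (X x)))
    (by
      intro x p hp p' hp'
      rcases hp with hp | hp
      · exact Or.inl (down_meets _ _ hp _ hp')
      · exact Or.inr (down_fnot _ _ hp _ hp'))
    (by
      intro x p
      by_cases h : ∃ p' ≤ p, p' ∈ meets (X x)
      · obtain ⟨p', hp', h'⟩ := h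
        exact ⟨p', hp', Or.inl h'⟩
      · refine ⟨p, le_rfl, Or.inr fun p' hp' h' => h ⟨p', hp', h'⟩⟩) q''
  obtain ⟨i, hi⟩ := hsurj {x | r ∈ meets (X x)}
  refine ⟨r, hr, i, ?_, ?_⟩
  · intro y
    refine mem_fimp.2 fun q1 hq1 h1 => ⟨q1, le_rfl, ?_⟩
    obtain ⟨_, _, s, hs, _⟩ := h1 q1 le_rfl
    have hy : y ∈ Function.invFun j i := hs
    rw [hi] at hy
    exact down_meets _ _ hy _ hq1
  · intro y
    refine mem_fimp.2 fun q1 hq1 h1 => ⟨q1, le_rfl, ?_⟩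
    rcases hD y with h | h
    · apply meets_of_mem
      show y ∈ Function.invFun j i
      rw [hi]
      exact h
    · exact absurd h1 (h q1 hq1)

section MonoAux

variable {Q : Type} [Preorder Q] {M M' : Type}

/-- image of a named subset under an embedding -/
def imn (e : M ↪ M') (S : M → Set Q) : M' → Set Q := fun y' => {r | ∃ y, e y = y' ∧ r ∈ S y}

theorem imn_apply (e : M ↪ M') (S : M → Set Q) (y : M) : imn e S (e y) = S y := by
  ext r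
  constructor
  · rintro ⟨y1, h1, h2⟩
    rw [e.injective h1] at h2
    exact h2
  · intro h
    exact ⟨y, rfl, h⟩

theorem imn_range (e : M ↪ M') (S : M → Set Q) {y' : M'} {r : Q}
    (h : r ∈ meets (imn e S y')) : ∃ y, e y = y' := by
  obtain ⟨_, _, s, ⟨y, hy, _⟩, _⟩ := h r le_rfl
  exact ⟨y, hy⟩

theorem sub_imn (e : M ↪ M') {S T : M → Set Q} {r : Q} (h : r ∈ Sub S T) :
    r ∈ Sub (imn e S) (imn e T) := by
  refine mem_fall.2 fun y' => mem_fimp.2 fun q hq h1 => ?_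
  obtain ⟨y, rfl⟩ := imn_range e S h1
  rw [imn_apply] at h1
  rw [imn_apply]
  exact mem_fimp.1 (h y) q hq h1

theorem isFun_imn {X : Type} (e : M ↪ M') {R : X → M → Set Q} {r : Q} (h : r ∈ IsFun R) :
    r ∈ IsFun (fun x => imn e (R x)) := by
  refine ⟨mem_fall.2 fun x => mem_fex.2 fun q hq => ?_, mem_fall.2 fun x =>
    mem_fall.2 fun y1 => mem_fall.2 fun y2 => mem_fimp.2 fun q hq h12 => ?_⟩
  · obtain ⟨s, hs, y, hy⟩ := mem_fex.1 (h.1 x) q hq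
    exact ⟨s, hs, e y, by simp only [imn_apply]; exact hy⟩
  · obtain ⟨h1, h2⟩ := h12
    obtain ⟨z1, rfl⟩ := imn_range e _ h1
    obtain ⟨z2, rfl⟩ := imn_range e _ h2
    simp only [imn_apply] at h1 h2
    obtain ⟨s, hs, h3⟩ := mem_fimp.1 (h.2 x z1 z2) q hq ⟨h1, h2⟩
    exact ⟨s, hs, mem_fground.2 (congrArg e (mem_fground.1 h3))⟩

theorem isInj_imn {X : Type} (e : M ↪ M') {R : X → M → Set Q} {r : Q} (h : r ∈ IsInj R) :
    r ∈ IsInj (fun x => imn e (R x)) := by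
  refine mem_fall.2 fun x => mem_fall.2 fun x' => mem_fall.2 fun y' =>
    mem_fimp.2 fun q hq h12 => ?_
  obtain ⟨h1, h2⟩ := h12
  obtain ⟨z1, rfl⟩ := imn_range e _ h1
  simp only [imn_apply] at h1 h2
  exact mem_fimp.1 (h x x' z1) q hq ⟨h1, h2⟩

theorem sameSize_imn {K : Type} (e : M ↪ M') {S : M → Set Q} {r : Q}
    (h : r ∈ SameSize (K := K) S) : r ∈ SameSize (K := K) (imn e S) := by
  refine mem_fex.2 fun q hq => ?_
  obtain ⟨s, hs, f, hf1, hf2, hf3⟩ := mem_fex.1 h q hq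
  refine ⟨s, hs, fun n => imn e (f n), isFun_imn e hf1, isInj_imn e hf2, ?_⟩
  refine mem_fall.2 fun y' => ⟨?_, ?_⟩
  · refine mem_fimp.2 fun t ht h1 => ?_
    obtain ⟨y, rfl⟩ := imn_range e S h1
    simp only [imn_apply] at h1
    obtain ⟨u, hu, h2⟩ := mem_fimp.1 (hf3 y).1 t ht h1
    refine ⟨u, hu, ?_⟩
    simp only [imn_apply]
    exact h2
  · refine mem_fall.2 fun n => mem_fimp.2 fun t ht h1 => ?_
    obtain ⟨y, rfl⟩ := imn_range e (f n) h1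
    simp only [imn_apply] at h1 ⊢
    exact mem_fimp.1 ((hf3 y).2 n) t ht h1

theorem isDenum_imn (e : M ↪ M') {S : M → Set Q} {r : Q}
    (h : r ∈ IsDenum S) : r ∈ IsDenum (imn e S) :=
  sameSize_imn (K := ℕ) e h

theorem isDenum_res (e : M ↪ M') {S' : M' → Set Q} {X : M → Set Q} {r : Q}
    (h : r ∈ IsDenum S') (hX : r ∈ Sub S' (imn e X)) : r ∈ IsDenum (fun y => S' (e y)) := by
  have hran : ∀ y' s, s ≤ r → s ∈ meets (S' y') → ∃ y, e y = y' := by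
    intro y' s hs h1
    obtain ⟨t, ht, h2⟩ := mem_fimp.1 (hX y') s hs h1
    exact imn_range e X h2
  refine mem_fex.2 fun q hq => ?_
  obtain ⟨s, hs, f, hf1, hf2, hf3⟩ := mem_fex.1 h q hq
  refine ⟨s, hs, fun n y => f n (e y), ⟨mem_fall.2 fun n => mem_fex.2 fun t ht => ?_, ?_⟩, ?_, ?_⟩
  · obtain ⟨u, hu, y', hy'⟩ := mem_fex.1 (hf1.1 n) t ht
    obtain ⟨v, hv, h2⟩ := mem_fimp.1 ((hf3 y').2 n) u (hu.trans ht) hy'
    obtain ⟨y, rfl⟩ := hran y' v (hv.trans (hu.trans (ht.trans (hs.trans hq)))) h2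
    exact ⟨u, hu, y, hy'⟩
  · refine mem_fall.2 fun n => mem_fall.2 fun y1 => mem_fall.2 fun y2 =>
      mem_fimp.2 fun t ht h12 => ?_
    obtain ⟨u, hu, h3⟩ := mem_fimp.1 (hf1.2 n (e y1) (e y2)) t ht h12
    exact ⟨u, hu, mem_fground.2 (e.injective (mem_fground.1 h3))⟩
  · exact mem_fall.2 fun n => mem_fall.2 fun m => mem_fall.2 fun y => hf2 n m (e y)
  · exact mem_fall.2 fun y => hf3 (e y)

theorem down_IsDenumColouring' {X K : Type} (c : (X → Set Q) → K → Set Q) :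
    Down (IsDenumColouring c) := down_fall fun _ => down_fimp _ _

theorem down_Sub' {X : Type} (S T : X → Set Q) : Down (Sub S T) :=
  down_fall fun _ => down_fimp _ _

theorem down_IsDenum' {X : Type} (S : X → Set Q) : Down (IsDenum S) := down_fex _

end MonoAux


theorem squareBracket_mono {Q : Type} [Preorder Q] {K M M' : Type} (e : M ↪ M') (q : Q)
    (h : q ∈ SquareBracket Q K M) : q ∈ SquareBracket Q K M' := by
  refine mem_fall.2 fun c2 => mem_fimp.2 fun q1 hq1 hc2 => ?_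
  have hc : q1 ∈ IsDenumColouring (fun S : M → Set Q => c2 (imn e S)) := by
    refine mem_fall.2 fun S => mem_fimp.2 fun q2 hq2 hS => ?_
    obtain ⟨r, hr, h1, h2, h3⟩ := mem_fimp.1 (hc2 (imn e S)) q2 hq2 (isDenum_imn e hS)
    refine ⟨r, hr, h1, h2, ?_⟩
    refine mem_fall.2 fun T => mem_fimp.2 fun q3 hq3 hT => ?_
    exact mem_fimp.1 (h3 (imn e T)) q3 hq3 ⟨sub_imn e hT.1, sub_imn e hT.2⟩
  obtain ⟨r, hr, hr1⟩ := mem_fimp.1 (h (fun S : M → Set Q => c2 (imn e S))) q1 hq1 hc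
  refine ⟨r, hr, mem_fex.2 fun q2 hq2 => ?_⟩
  obtain ⟨r2, hr2, X, hX1, hX2⟩ := mem_fex.1 hr1 q2 hq2
  refine ⟨r2, hr2, imn e X, sameSize_imn e hX1, mem_fex.2 fun q3 hq3 => ?_⟩
  obtain ⟨r3, hr3, a, ha⟩ := mem_fex.1 hX2 q3 hq3
  refine ⟨r3, hr3, a, mem_fall.2 fun S' => mem_fimp.2 fun q4 hq4 hS' => ?_⟩
  obtain ⟨hS1, hS2⟩ := hS'
  have hd1 : q4 ∈ IsDenum (fun y => S' (e y)) := isDenum_res e hS1 hS2
  have hd2 : q4 ∈ Sub (fun y => S' (e y)) X := by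
    refine mem_fall.2 fun y => ?_
    have h5 := hS2 (e y)
    simp only [imn_apply] at h5
    exact h5
  obtain ⟨r4, hr4, hn⟩ := mem_fimp.1 (ha (fun y => S' (e y))) q4 hq4 ⟨hd1, hd2⟩
  refine ⟨r4, hr4, ?_⟩
  intro t ht hmt
  have htq1 : t ≤ q1 := ht.trans (hr4.trans (hq4.trans (hr3.trans (hq3.trans (hr2.trans
    (hq2.trans hr))))))
  have hts : t ∈ IsDenum S' := down_IsDenum' _ _ hS1 _ (ht.trans hr4)
  obtain ⟨u, hu, _, _, h6⟩ := mem_fimp.1 (hc2 S') t htq1 hts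
  have hut : u ≤ q4 := hu.trans (ht.trans hr4)
  have e1 : u ∈ Sub S' (imn e (fun y => S' (e y))) := by
    refine mem_fall.2 fun y' => mem_fimp.2 fun v hv h7 => ?_
    obtain ⟨w, hw, h8⟩ := mem_fimp.1 (hS2 y') v (hv.trans hut) h7
    obtain ⟨y, rfl⟩ := imn_range e X h8
    rw [imn_apply]
    exact ⟨v, le_rfl, h7⟩
  have e2 : u ∈ Sub (imn e (fun y => S' (e y))) S' := by
    refine mem_fall.2 fun y' => mem_fimp.2 fun v hv h7 => ?_
    obtain ⟨y, rfl⟩ := imn_range e _ h7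
    rw [imn_apply] at h7
    exact ⟨v, le_rfl, h7⟩
  obtain ⟨v, hv, h9⟩ := mem_fimp.1 (h6 (imn e (fun y => S' (e y)))) u le_rfl ⟨e1, e2⟩
  obtain ⟨w, hw, h10⟩ := mem_fimp.1 (h9 a) v le_rfl (down_meets _ _ hmt _ (hv.trans hu))
  exact hn w (hw.trans (hv.trans (hu.trans ht))) h10

theorem polarizedRel_of_key_ground {P : Type} [Preorder P] {h : Prop} {p : P}
    (hp : p ∈ meets ({_q | h} : Set P)) : h := by
  obtain ⟨_, _, _, hs, _⟩ := hp p le_rfl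
  exact hs

theorem polarizedRel_of_key_same {Q M W : Type} [Preorder Q] (B : Set M) (e : W ≃ B) (q : Q) :
    q ∈ SameSize (K := W) (P := Q) (chk B) := by
  refine mem_fex_of_mem (fun x y => {_q | ((e x : B) : M) = y}) ?_ ?_
  · exact down_fand (down_IsFun _) (down_fand (down_IsInj _)
      (down_fall fun _ => down_fand (down_fimp _ _) (down_fall fun _ => down_fimp _ _)))
  · refine ⟨⟨fun x => ?_, fun x y y' => ?_⟩, fun x x' y => ?_, fun y => ⟨?_, fun x => ?_⟩⟩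
    · exact mem_fex.2 fun q' _ => ⟨q', le_rfl, (e x : M), meets_of_mem rfl⟩
    · exact mem_fimp.2 fun q' _ h => ⟨q', le_rfl,
        (polarizedRel_of_key_ground h.1).symm.trans (polarizedRel_of_key_ground h.2)⟩
    · exact mem_fimp.2 fun q' _ h => ⟨q', le_rfl, e.injective (Subtype.ext
        ((polarizedRel_of_key_ground h.1).trans (polarizedRel_of_key_ground h.2).symm))⟩
    · refine mem_fimp.2 fun q' _ h => ⟨q', le_rfl, ?_⟩
      refine mem_fex_of_mem (e.symm ⟨y, polarizedRel_of_key_ground h⟩) (down_meets _)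
        (meets_of_mem ?_)
      show ((e (e.symm ⟨y, _⟩) : B) : M) = y
      rw [e.apply_symm_apply]
    · refine mem_fimp.2 fun q' _ h => ⟨q', le_rfl, meets_of_mem ?_⟩
      show y ∈ B
      rw [← polarizedRel_of_key_ground h]
      exact (e x).2

/-- auxiliary: the set of the `g` which work for all elements of `B`. -/
def polarizedRel_of_key_AA {Q K M : Type} (φ : K → M → Set Q) (B : Set M) (g : K) : Set Q :=
  {r | ∀ x ∈ B, r ∈ φ g x}

theorem polarizedRel_of_key_hom {Q K M : Type} [Preorder Q] {φ : K → M → Set Q}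
    (hφ : ∀ g x, Down (φ g x)) (B : Set M) (r : Q) (x : K) (y : M) :
    r ∈ fimp (fand (meets (polarizedRel_of_key_AA φ B x)) (meets (chk B y))) (φ x y) := by
  refine mem_fimp.2 fun s _ h => ?_
  obtain ⟨t, ht, s', hs', hle⟩ := h.1 s le_rfl
  exact ⟨t, ht, hφ x y s' (hs' y (polarizedRel_of_key_ground h.2)) t hle⟩

theorem polarizedRel_of_key_main {Q : Type} [Preorder Q] {κ : Cardinal.{0}}
    (hκ : κ.IsRegular)
    {M : Type} [LinearOrder M] {k : M} (ι : κ.ord.ToType ≃o Set.Iio k)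
    (hkey : ∀ G : Set M → M → Set Q, (∀ s a, Down (G s a)) →
      (∀ s : Set M, #s ≤ ℵ₁ → ∀ r : Q, ∃ r' ≤ r, ∃ a < k, r' ∈ G s a) →
      ∀ r0 : Q, ∃ X : Set M, #X = κ ∧ ∃ r ≤ r0, ∃ α < k,
        ∀ s ⊆ X, #s ≤ ℵ₁ → ∀ r' ≤ r, ∃ r'' ≤ r', ∃ a < α, r'' ∈ G s a)
    (hhom : ∀ (c : M → Set Q) (X : Set M), #X = κ → ∀ r : Q, ∃ B ⊆ X, #B = ℵ₁ ∧ ∃ r' ≤ r,
      (∀ ξ ∈ B, r' ∈ meets (c ξ)) ∨ (∀ ξ ∈ B, r' ∈ fnot (meets (c ξ))))
    (c : κ.ord.ToType → M → Set Q) (q0 : Q) :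
    ∃ B : Set M, #B = ℵ₁ ∧ ∃ r ≤ q0,
      (∀ q2 ≤ r, ∀ b, ∃ t ≤ q2, ∃ g, b ≤ g ∧
        t ∈ meets (polarizedRel_of_key_AA (fun g x => meets (c g x)) B g)) ∨
      (∀ q2 ≤ r, ∀ b, ∃ t ≤ q2, ∃ g, b ≤ g ∧
        t ∈ meets (polarizedRel_of_key_AA (fun g x => fnot (meets (c g x))) B g)) := by
  classical
  by_contra hcon
  push Not at hcon
  obtain ⟨A1, hA1⟩ : ∃ A1, A1 = polarizedRel_of_key_AA (fun g x => meets (c g x)) := ⟨_, rfl⟩
  obtain ⟨A0, hA0⟩ : ∃ A0, A0 = polarizedRel_of_key_AA (fun g x => fnot (meets (c g x))) :=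
    ⟨_, rfl⟩
  rw [← hA1, ← hA0] at hcon
  have hne : Nonempty κ.ord.ToType := by
    rw [← Cardinal.mk_ne_zero_iff, Cardinal.mk_ord_toType]
    exact (Cardinal.aleph0_pos.trans_le hκ.aleph0_le).ne'
  obtain ⟨b0⟩ := hne
  obtain ⟨X, hX, r, hr, α, hα, hG⟩ := hkey
    (fun s a => {r | (#s = ℵ₁ → ∀ g : κ.ord.ToType, a ≤ (ι g : M) →
      (∀ t ≤ r, t ∉ meets (A1 s g)) ∧ (∀ t ≤ r, t ∉ meets (A0 s g))) ∨ (∀ t ≤ r, ¬ t ≤ q0)})
    (by
      intro s a p hp q hq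
      rcases hp with hp | hp
      · left
        intro hs g hg
        exact ⟨fun t ht => (hp hs g hg).1 t (ht.trans hq), fun t ht => (hp hs g hg).2 t (ht.trans hq)⟩
      · right
        exact fun t ht => hp t (ht.trans hq))
    (by
      intro s _ r
      by_cases h1 : ∃ t ≤ r, t ≤ q0
      · obtain ⟨t, htr, htq⟩ := h1
        by_cases h2 : #s = ℵ₁
        · obtain ⟨⟨q2, hq2, b1, hb1⟩, _⟩ := hcon s h2 t htq
          obtain ⟨_, ⟨q3, hq3, b2, hb2⟩⟩ := hcon s h2 q2 (hq2.trans htq)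
          refine ⟨q3, hq3.trans (hq2.trans htr), (ι (max b1 b2) : M), (ι (max b1 b2)).2, ?_⟩
          left
          intro _ g hg
          have hg' : max b1 b2 ≤ g := ι.le_iff_le.1 hg
          exact ⟨fun t' ht' => hb1 t' (ht'.trans hq3) g ((le_max_left _ _).trans hg'),
            fun t' ht' => hb2 t' ht' g ((le_max_right _ _).trans hg')⟩
        · exact ⟨r, le_rfl, (ι b0 : M), (ι b0).2, Or.inl fun h => absurd h h2⟩
      · push Not at h1
        exact ⟨r, le_rfl, (ι b0 : M), (ι b0).2, Or.inr h1⟩) q0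
  obtain ⟨B, hBX, hB, r2, hr2, hh⟩ := hhom (c (ι.symm ⟨α, hα⟩)) X hX r
  obtain ⟨r3, hr3, a, haα, hr3G⟩ := hG B hBX hB.le r2 hr2
  rcases hr3G with h1 | h1
  · have h2 := h1 hB (ι.symm ⟨α, hα⟩) (by rw [ι.apply_symm_apply]; exact haα.le)
    rcases hh with hh | hh
    · refine h2.1 r3 le_rfl (meets_of_mem ?_)
      rw [hA1]
      intro x hx
      exact down_meets _ _ (hh x hx) _ hr3
    · refine h2.2 r3 le_rfl (meets_of_mem ?_)
      rw [hA0]
      intro x hx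
      exact down_fnot _ _ (hh x hx) _ hr3
  · exact h1 r3 le_rfl (hr3.trans (hr2.trans hr))




theorem polarizedRel_of_key {Q : Type} [Preorder Q] {κ : Cardinal.{0}}
    (hκ : κ.IsRegular) (hreg : ∀ q : Q, q ∈ StaysRegular Q κ)
    {M : Type} [LinearOrder M] {k : M} (ι : κ.ord.ToType ≃o Set.Iio k)
    (hkey : ∀ G : Set M → M → Set Q, (∀ s a, Down (G s a)) →
      (∀ s : Set M, #s ≤ ℵ₁ → ∀ r : Q, ∃ r' ≤ r, ∃ a < k, r' ∈ G s a) →
      ∀ r0 : Q, ∃ X : Set M, #X = κ ∧ ∃ r ≤ r0, ∃ α < k,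
        ∀ s ⊆ X, #s ≤ ℵ₁ → ∀ r' ≤ r, ∃ r'' ≤ r', ∃ a < α, r'' ∈ G s a)
    (hhom : ∀ (c : M → Set Q) (X : Set M), #X = κ → ∀ r : Q, ∃ B ⊆ X, #B = ℵ₁ ∧ ∃ r' ≤ r,
      (∀ ξ ∈ B, r' ∈ meets (c ξ)) ∨ (∀ ξ ∈ B, r' ∈ fnot (meets (c ξ))))
    (q : Q) : q ∈ PolarizedRel Q κ.ord.ToType M (ℵ₁ : Cardinal.{0}).ord.ToType := by
  intro c
  refine mem_fex.2 fun q0 _ => ?_
  obtain ⟨B, hB, r, hr, h⟩ := polarizedRel_of_key_main hκ ι hkey hhom c q0
  obtain ⟨e⟩ : Nonempty ((ℵ₁ : Cardinal.{0}).ord.ToType ≃ B) := by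
    rw [← Cardinal.eq, Cardinal.mk_ord_toType, hB]
  have hdown : ∀ (A : κ.ord.ToType → Set Q) (B : M → Set Q) (φ ψ : Set Q),
      Down (fand (HasFullSize A) (fand (SameSize (K := (ℵ₁ : Cardinal.{0}).ord.ToType) B)
        (for' φ ψ))) := fun A B φ ψ =>
    down_fand (down_fall fun _ => down_fall fun _ => down_fnot _)
      (down_fand (down_fex _) (down_fnot _))
  rcases h with h | h
  · refine ⟨r, hr, polarizedRel_of_key_AA (fun g x => meets (c g x)) B, ?_⟩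
    refine mem_fex_of_mem (chk B) (hdown _ _ _ _) ⟨?_, polarizedRel_of_key_same B e r, ?_⟩
    · exact hasFullSize_of_unbounded hκ.aleph0_le hreg _ r h
    · refine mem_for'.2 fun s _ => ⟨s, le_rfl, Or.inl ?_⟩
      intro x y
      exact polarizedRel_of_key_hom (φ := fun g x => meets (c g x))
        (fun g x => down_meets _) B s x y
  · refine ⟨r, hr, polarizedRel_of_key_AA (fun g x => fnot (meets (c g x))) B, ?_⟩
    refine mem_fex_of_mem (chk B) (hdown _ _ _ _) ⟨?_, polarizedRel_of_key_same B e r, ?_⟩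
    · exact hasFullSize_of_unbounded hκ.aleph0_le hreg _ r h
    · refine mem_for'.2 fun s _ => ⟨s, le_rfl, Or.inr ?_⟩
      intro x y
      exact polarizedRel_of_key_hom (φ := fun g x => fnot (meets (c g x)))
        (fun g x => down_fnot _) B s x y

section

variable {M : Type} [LinearOrder M] {k : M} {κ : Cardinal.{0}} {U : Ultrafilter (Set M)}
  {π : Set M → M → M}

theorem RC.mk_le_self {cP : PC M k → M} (s : RC M k cP) {b : PC M k} (hb : b ≤ s.p) :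
    (⟨b, s.q⟩ : RC M k cP) ≤ s :=
  ⟨hb, fun _ ht => ⟨ht, fun _ _ _ => Iff.rfl⟩⟩

theorem RC.meets_lift {cP : PC M k → M} (N : Set (PC M k)) (s : RC M k cP) :
    s ∈ meets {u : RC M k cP | u.p ∈ N} ↔ s.p ∈ meets N := by
  constructor
  · intro hs b hb
    obtain ⟨r, hr, u, hu, hru⟩ := hs ⟨b, s.q⟩ (RC.mk_le_self s hb)
    exact ⟨r.p, hr.1, u.p, hu, hru.1⟩
  · intro hs s2 hs2
    obtain ⟨b, hb, n, hn, hbn⟩ := hs s2.p hs2.1
    exact ⟨⟨b, s2.q⟩, RC.mk_le_self s2 hb, ⟨n, s2.q⟩, hn,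
      ⟨hbn, fun _ ht => ⟨ht, fun _ _ _ => Iff.rfl⟩⟩⟩


theorem RC.powOnto (h : HS M k κ U π) {cP : PC M k → M} {ν μ : Cardinal.{0}} (hν : ν < κ)
    (F : μ.ord.ToType → ν.ord.ToType → Set (PC M k))
    (hF : ∀ X : ν.ord.ToType → Set (PC M k), ∃ i, ∀ q, q ∈ fand (Sub (F i) X) (Sub X (F i)))
    (r : RC M k cP) : r ∈ PowOnto (RC M k cP) ν μ := by
  refine mem_fex_of_mem (fun i x => {s : RC M k cP | s.p ∈ F i x})
    (down_fall fun _ => down_fex _) ?_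
  intro X
  refine mem_fex.2 fun r1 _ => ?_
  obtain ⟨r2, hr2, Y, hY⟩ := RC.reduce h hν X r1
  obtain ⟨i, hi⟩ := hF Y
  refine ⟨r2, hr2, i, ?_, ?_⟩
  · intro y
    refine mem_fimp.2 fun s hs hsm => ?_
    have h1 : s.p ∈ meets (F i y) := (RC.meets_lift (F i y) s).1 hsm
    obtain ⟨b, hb, hbm⟩ := mem_fimp.1 ((hi s.p).1 y) s.p le_rfl h1
    have h2 : (⟨b, s.q⟩ : RC M k cP) ∈ meets {u : RC M k cP | u.p ∈ Y y} :=
      (RC.meets_lift (Y y) ⟨b, s.q⟩).2 hbm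
    have hle := RC.mk_le_self s hb
    obtain ⟨t, ht, htm⟩ := mem_fimp.1 (hY.1 y) _ (hle.trans hs) h2
    exact ⟨t, ht.trans hle, htm⟩
  · intro y
    refine mem_fimp.2 fun s hs hsm => ?_
    obtain ⟨t, ht, htm⟩ := mem_fimp.1 (hY.2 y) s hs hsm
    have h1 : t.p ∈ meets (Y y) := (RC.meets_lift (Y y) t).1 htm
    obtain ⟨b, hb, hbm⟩ := mem_fimp.1 ((hi t.p).2 y) t.p le_rfl h1
    have hle := RC.mk_le_self t hb
    exact ⟨⟨b, t.q⟩, hle.trans ht, (RC.meets_lift (F i y) ⟨b, t.q⟩).2 hbm⟩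

end

end Pool.Agent.Helper669.V
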