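import Mathlib
import Pool.Agent.Helper669.VC

set_option autoImplicit false

/-!
# The master condition for the iteration with larger supports
-/

namespace Pool.Agent.Helper669.V

open Cardinal Pool.Agent.Helper669.Forcing Pool.Agent.Helper669.K Pool.Agent.Helper669.U


section master

variable {M : Type} [LinearOrder M] {k : M} {κ : Cardinal.{0}} {U : Ultrafilter (Set M)}
  {π : Set M → M → M}

theorem PC.isSil (p : PC M k) {α : M} (h : Good α) : IsSil α (Set.Iio k) (p.f α) := by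
  by_cases hne : (p.f α).D.Nonempty
  · exact (p.ok α hne).2.2
  · exact isSil_of_empty h (Set.not_nonempty_iff_eq_empty.1 hne)

theorem Bdd.empty {p : PC M k} {α β : M} (h : Bdd p α) (hβ : α ≤ β) : (p.f β).D = ∅ := by
  by_contra hne
  obtain ⟨t, ht⟩ := Set.nonempty_iff_ne_empty.2 hne
  exact absurd (h β t ht).1 (not_lt.2 hβ)

/-- the union of all second coordinates in `X` which are compatible with the `α`-th coordinate
of the generic -/
def master (k : M) (f : M → M) (cP : PC M k → M) (cS : SC M k → M) (X : Set M) (α : M) : Sl M where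
  D := {t | ∃ q : SC M k, cS q ∈ X ∧ t ∈ q.q.D}
  E := {u | ∃ (p : PC M k) (q : SC M k) (b : PC M k), u.2.1 = cP p ∧ cS q ∈ X ∧ u.1 ∈ q.q.D ∧
    (p.f α).Ext (pull k f q.q) ∧ p ≤ b ∧ (u.1, (cP b, u.2.2)) ∈ q.q.E}
  sub := by
    rintro t s ⟨p, q, b, -, h1, h2, -⟩
    exact ⟨q, h1, h2⟩

theorem master_iff {f : M → M} {cP : PC M k → M} (hcP : Function.Injective cP)
    {cS : SC M k → M} {X : Set M} {α : M}
    (hcomp : ∀ q q' : SC M k, cS q ∈ X → cS q' ∈ X →
      (pull k f q.q).Comp (pull k f q'.q) → q.q.Comp q'.q)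
    {q : SC M k} (hq : cS q ∈ X) {p : PC M k} (hp : (p.f α).Ext (pull k f q.q)) {t : M × M}
    (ht : t ∈ q.q.D) (η : M) :
    p ∈ meets (nm cP (master k f cP cS X α) t η) ↔ p ∈ meets (nm cP q.q t η) := by
  constructor
  · intro h p1 hp1
    obtain ⟨p2, hp2, p3, ⟨b0, hb0, p4, q', b, e1, h1, h2, h3, h4, h5⟩, h23⟩ := h p1 hp1
    have e : b0 = p4 := hcP e1
    subst e
    refine ⟨p2, hp2, p2, ⟨b, (h23.trans hb0).trans h4, ?_⟩, le_rfl⟩
    have hc := hcomp q q' hq h1 (Sl.comp_of_ext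
      (((hp2.trans hp1) α).trans hp) (((h23.trans hb0) α).trans h3))
    exact (hc t ht h2 _).2 h5
  · intro h p1 hp1
    obtain ⟨p2, hp2, p3, ⟨b, hb, h5⟩, h23⟩ := h p1 hp1
    refine ⟨p2, hp2, p2, ⟨p2, le_rfl, p2, q, b, rfl, hq, ht, ?_, h23.trans hb, h5⟩, le_rfl⟩
    exact ((hp2.trans hp1) α).trans hp

/-- the restriction of a condition -/
def PC.restr (p : PC M k) (α : M) : PC M k where
  f := fun β => if β < α then (p.f β).restr α else Sl.empty
  cnt := by
    refine cnt_mono p.cnt ?_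
    intro β hβ
    simp only [Set.mem_ofPred_eq] at hβ
    split_ifs at hβ with h
    · exact hβ.mono fun _ h => h.1
    · exact absurd hβ Set.not_nonempty_empty
  ok := by
    intro β hβ
    by_cases h : β < α
    · rw [if_pos h] at hβ ⊢
      obtain ⟨h1, h2, h3⟩ := p.ok β (hβ.mono fun _ h => h.1)
      refine ⟨h1, h2, ⟨?_, ?_, ?_, ?_⟩⟩
      · exact (Cardinal.mk_le_mk_of_subset fun _ h => h.1).trans h3.card
      · obtain ⟨γ, hγ, h4⟩ := h3.ht
        exact ⟨γ, hγ, fun t ht => h4 t ht.1⟩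
      · exact fun t ht => h3.dom t ht.1
      · exact fun t s ht => h3.val t s ht.1
    · rw [if_neg h] at hβ
      exact absurd hβ Set.not_nonempty_empty

theorem PC.le_restr (p : PC M k) (α : M) : p ≤ p.restr α := by
  intro β
  show (p.f β).Ext (if β < α then (p.f β).restr α else Sl.empty)
  split_ifs with h
  · exact Sl.ext_restr _ _
  · exact Sl.ext_of_empty rfl

theorem PC.bdd_restr (p : PC M k) (α : M) : Bdd (p.restr α) α := by
  intro β t ht
  change t ∈ (if β < α then (p.f β).restr α else Sl.empty).D at ht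
  split_ifs at ht with h
  · exact ⟨h, ht.2⟩
  · exact ht.elim

theorem isSil_master (h : HS M k κ U π) {X : Set M} {α : M} (hα : IsAl k π X α)
    {cP : PC M k → M} (hlt : ∀ p, cP p < k) {cS : SC M k → M} (hcS : Function.Injective cS)
    (hht : ∀ q : SC M k, cS q ∈ X → ∀ t ∈ q.q.D, t.2 < α) :
    IsSil k Set.univ (master k (π X) cP cS X α) where
  card := by
    have hk : ℵ₀ ≤ #(Set.Iio k) := by rw [h.mk_k]; exact h.reg.aleph0_le
    have e : (master k (π X) cP cS X α).D = ⋃ q : {q : SC M k // cS q ∈ X}, q.1.q.D := by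
      ext t
      simp only [Set.mem_iUnion]
      constructor
      · rintro ⟨q, h1, h2⟩
        exact ⟨⟨q, h1⟩, h2⟩
      · rintro ⟨q, h2⟩
        exact ⟨q.1, q.2, h2⟩
    rw [e]
    refine (Cardinal.mk_iUnion_le _).trans ?_
    have h1 : #{q : SC M k // cS q ∈ X} ≤ #(Set.Iio k) := by
      rw [← hα.mk_eq]
      exact Cardinal.mk_le_of_injective (f := fun q : {q : SC M k // cS q ∈ X} => (⟨cS q.1, q.2⟩ : X))
        (fun a b hab => Subtype.ext (hcS (congrArg Subtype.val hab)))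
    calc #{q : SC M k // cS q ∈ X} * (⨆ q : {q : SC M k // cS q ∈ X}, #q.1.q.D)
        ≤ #(Set.Iio k) * #(Set.Iio k) := mul_le_mul' h1 (ciSup_le' fun q => q.1.ok.card)
      _ = #(Set.Iio k) := Cardinal.mul_eq_self hk
  ht := ⟨α, hα.lt, by
    rintro t ⟨q, h1, h2⟩
    exact hht q h1 t h2⟩
  dom := by
    rintro t ⟨q, h1, h2⟩
    exact q.ok.dom t h2
  val := by
    rintro t s ⟨p, q, b, e1, h1, h2, h3, h4, h5⟩
    refine ⟨?_, (q.ok.val _ _ h5).2⟩
    have e2 : s.1 = cP p := e1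
    rw [e2]
    exact hlt p

/-- the master condition argument -/
theorem key (h : HS M k κ U π) {cP : PC M k → M} (hcP : Function.Injective cP)
    (hlt : ∀ p, cP p < k) {cS : SC M k → M} (hcS : Function.Injective cS)
    (G : Set M → M → Set (RC M k cP)) (hd : ∀ s a, Down (G s a))
    (hG : ∀ s : Set M, #s ≤ ℵ₁ → ∀ r : RC M k cP, ∃ r' ≤ r, ∃ a < k, r' ∈ G s a)
    (Z : Set (Set M)) (hZ : Z ∈ U) (r0 : RC M k cP) :
    ∃ X ∈ Z, #X = κ ∧ ∃ r ≤ r0, ∃ α < k, ∀ s ⊆ X, #s ≤ ℵ₁ → ∀ r' ≤ r,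
      ∃ r'' ≤ r', ∃ a < α, r'' ∈ G s a := by
  classical
  obtain ⟨X, hX⟩ := Ultrafilter.nonempty_of_mem (f := U) (s :=
    Z ∩ ({X : Set M | ∃ α, IsAl k π X α} ∩
    ({X : Set M | ∀ α, IsAl k π X α → ∀ p : PC M k, cP p ∈ X ↔ Bdd p α} ∩
    ({X : Set M | ∀ q q' : SC M k, cS q ∈ X → cS q' ∈ X →
      (pull k (π X) q.q).Comp (pull k (π X) q'.q) → q.q.Comp q'.q} ∩
    ({X : Set M | ∀ α, IsAl k π X α → ∀ q' : Sl M, IsSil α (Set.Iio k) q' →
      ∃ q : SC M k, cS q ∈ X ∧ pull k (π X) q.q = q'} ∩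
    ({X : Set M | ∀ α, IsAl k π X α → ∀ q : SC M k, cS q ∈ X →
      IsSil α (Set.Iio k) (pull k (π X) q.q)} ∩
    ({X : Set M | ∀ s ⊆ X, #s ≤ ℵ₁ → ∀ (p : PC M k) (q : SC M k), cP p ∈ X → cS q ∈ X →
      ∃ (p' : PC M k) (q' : SC M k) (a : M), cP p' ∈ X ∧ cS q' ∈ X ∧ a ∈ X ∧ a < k ∧ p' ≤ p ∧
        q'.q.Ext q.q ∧ (⟨p', q'⟩ : RC M k cP) ∈ G s a} ∩
    ({X : Set M | ∀ α, IsAl k π X α → ∀ q : SC M k, cS q ∈ X → ∀ t ∈ q.q.D, t.2 < α} ∩
    ({X : Set M | cP r0.p ∈ X} ∩ {X : Set M | cS r0.q ∈ X})))))))))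
    (Filter.inter_mem hZ (Filter.inter_mem h.isAl (Filter.inter_mem (cP_iff h hcP hlt)
      (Filter.inter_mem (h.comp_of_pull hcS) (Filter.inter_mem (h.exists_pull hcS)
      (Filter.inter_mem (h.isSil_pull hcS) (Filter.inter_mem (closed h hcP hcS G hd hG)
      (Filter.inter_mem (h.heights hcS) (Filter.inter_mem (h.fine _) (h.fine _))))))))))
  obtain ⟨hXZ, ⟨α, hα⟩, hXP, hXc, hXe, hXs, hXG, hXh, hX1, hX2⟩ := hX
  have hXP := hXP α hα
  have hXe := hXe α hα
  have hXs := hXs α hα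
  have hXh := hXh α hα
  have hX1 : cP r0.p ∈ X := hX1
  have hX2 : cS r0.q ∈ X := hX2
  have hXc : ∀ q q' : SC M k, cS q ∈ X → cS q' ∈ X →
      (pull k (π X) q.q).Comp (pull k (π X) q'.q) → q.q.Comp q'.q := hXc
  have hb0 : Bdd r0.p α := (hXP _).1 hX1
  -- the first coordinate of the master condition
  let ps : PC M k :=
    { f := fun β => if β = α then pull k (π X) r0.q.q else r0.p.f β
      cnt := by
        refine cnt_insert r0.p.cnt α ?_
        intro β hβ
        by_cases hβα : β = α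
        · exact Or.inl hβα
        · simp only [Set.mem_ofPred_eq, if_neg hβα] at hβ
          exact Or.inr hβ
      ok := by
        intro β hβ
        by_cases hβα : β = α
        · subst hβα
          simp only [if_pos rfl]
          exact ⟨hα.lt, hα.good, hXs _ hX2⟩
        · simp only [if_neg hβα] at hβ ⊢
          exact r0.p.ok β hβ }
  have hps : ps.f α = pull k (π X) r0.q.q := if_pos rfl
  have hpsle : ps ≤ r0.p := by
    intro β
    by_cases hβα : β = α
    · subst hβα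
      exact Sl.ext_of_empty (hb0.empty le_rfl)
    · show (if β = α then pull k (π X) r0.q.q else r0.p.f β).Ext _
      rw [if_neg hβα]
      exact Sl.Ext.refl _
  let qs : SC M k := ⟨master k (π X) cP cS X α, isSil_master h hα hlt hcS hXh⟩
  refine ⟨X, hXZ, ?_, ⟨ps, qs⟩, ⟨hpsle, ?_⟩, α, hα.lt, ?_⟩
  · rw [hα.mk_eq, h.mk_k]
  · intro t ht
    refine ⟨⟨r0.q, hX2, ht⟩, fun η p hp => master_iff hcP hXc hX2 ?_ ht η⟩
    have h1 := hp α
    rw [show (⟨ps, qs⟩ : RC M k cP).p.f α = pull k (π X) r0.q.q from hps] at h1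
    exact h1
  · intro s hs hsc r' hr'
    obtain ⟨q1, hq1X, hq1⟩ := hXe (r'.p.f α) (r'.p.isSil hα.good)
    have hp1X : cP (r'.p.restr α) ∈ X := (hXP _).2 (r'.p.bdd_restr α)
    obtain ⟨p2, q2, a, hp2X, hq2X, haX, hak, hp21, hq21, hG2⟩ := hXG s hs hsc _ q1 hp1X hq1X
    have hb2 : Bdd p2 α := (hXP _).1 hp2X
    have haα : a < α := by
      have h1 : a ∈ X ∩ Set.Iio k := ⟨haX, hak⟩
      rw [hα.seg] at h1
      exact h1
    -- compatibility of the coordinates
    have hcomp : ∀ β, β ≠ α → (r'.p.f β).Comp (p2.f β) := by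
      intro β hβα t ht ht2 u
      have hβ : β < α := (hb2 β t ht2).1
      have htα : t.1 < α := (hb2 β t ht2).2
      have h1 := hp21 β
      have h2 : (r'.p.restr α).f β = (r'.p.f β).restr α := if_pos hβ
      rw [h2] at h1
      have h3 := h1.2 t ⟨ht, htα⟩ u
      rw [h3]
      exact ⟨fun h => ⟨h, htα⟩, fun h => h.1⟩
    let p' : PC M k :=
      { f := fun β => if β = α then pull k (π X) q2.q else (r'.p.f β).union (p2.f β)
        cnt := by
          refine cnt_insert (cnt_union r'.p.cnt p2.cnt) α ?_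
          intro β hβ
          by_cases hβα : β = α
          · exact Or.inl hβα
          · simp only [Set.mem_ofPred_eq, if_neg hβα] at hβ
            obtain ⟨t, ht | ht⟩ := hβ
            · exact Or.inr (Or.inl ⟨t, ht⟩)
            · exact Or.inr (Or.inr ⟨t, ht⟩)
        ok := by
          intro β hβ
          by_cases hβα : β = α
          · subst hβα
            simp only [if_pos rfl]
            exact ⟨hα.lt, hα.good, hXs _ hq2X⟩
          · simp only [if_neg hβα] at hβ ⊢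
            have h1 : β < k ∧ Good β := by
              obtain ⟨t, ht | ht⟩ := hβ
              · exact ⟨(r'.p.ok β ⟨t, ht⟩).1, (r'.p.ok β ⟨t, ht⟩).2.1⟩
              · exact ⟨(p2.ok β ⟨t, ht⟩).1, (p2.ok β ⟨t, ht⟩).2.1⟩
            exact ⟨h1.1, h1.2, IsSil.union h1.2.1.le (r'.p.isSil h1.2) (p2.isSil h1.2)⟩ }
    have hp'α : p'.f α = pull k (π X) q2.q := if_pos rfl
    have hp'r : p' ≤ r'.p := by
      intro β
      by_cases hβα : β = α
      · subst hβα
        rw [hp'α, ← hq1]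
        exact pull_ext hq21
      · show (if β = α then pull k (π X) q2.q else (r'.p.f β).union (p2.f β)).Ext _
        rw [if_neg hβα]
        exact Sl.union_ext_left (hcomp β hβα)
    have hp'2 : p' ≤ p2 := by
      intro β
      by_cases hβα : β = α
      · subst hβα
        exact Sl.ext_of_empty (hb2.empty le_rfl)
      · show (if β = α then pull k (π X) q2.q else (r'.p.f β).union (p2.f β)).Ext _
        rw [if_neg hβα]
        exact Sl.union_ext_right (hcomp β hβα)
    refine ⟨⟨p', r'.q⟩, ⟨hp'r, fun t ht => ⟨ht, fun _ _ _ => Iff.rfl⟩⟩, a, haα, ?_⟩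
    refine hd s a _ hG2 _ ⟨hp'2, fun t ht => ?_⟩
    have htm : t ∈ qs.q.D := ⟨q2, hq2X, ht⟩
    obtain ⟨h1, h2⟩ := hr'.2 t htm
    refine ⟨h1, fun η p hp => ?_⟩
    rw [h2 η p (hp.trans hp'r)]
    refine master_iff hcP hXc hq2X ?_ ht η
    have h3 := hp α
    rw [show (⟨p', r'.q⟩ : RC M k cP).p.f α = pull k (π X) q2.q from hp'α] at h3
    exact h3

end master

end Pool.Agent.Helper669.V
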