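import Mathlib
import Pool.Agent.Helper669.VE
import Pool.Agent.Helper669.VMain

set_option autoImplicit false

/-!
# The iteration makes a huge cardinal and its target into the second and third uncountable cardinal; GCH and a polarized relation
-/

namespace Pool.Agent.Helper669.V

open Cardinal Pool.Agent.Helper669.Forcing Pool.Agent.Helper669.K Pool.Agent.Helper669.U


section

variable {M : Type} [LinearOrder M] {k : M} {κ : Cardinal.{0}} {U : Ultrafilter (Set M)}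
  {π : Set M → M → M}

/-- the key lemma for countable sets -/
theorem key_ctbl (h : HS M k κ U π) {cP : PC M k → M} (hcP : Function.Injective cP)
    (hlt : ∀ p, cP p < k) {cS : SC M k → M} (hcS : Function.Injective cS)
    (G : Set M → M → Set (RC M k cP)) (hd : ∀ s a, Down (G s a))
    (hG : ∀ s : Set M, s.Countable → ∀ r : RC M k cP, ∃ r' ≤ r, ∃ a < k, r' ∈ G s a)
    (Z : Set (Set M)) (hZ : Z ∈ U) (r0 : RC M k cP) :
    ∃ X ∈ Z, #X = κ ∧ ∃ r ≤ r0, ∃ α < k, ∀ s ⊆ X, s.Countable → ∀ r' ≤ r,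
      ∃ r'' ≤ r', ∃ a < α, r'' ∈ G s a := by
  classical
  have h0 : ∃ γ, γ < k := by
    have h1 : #(Set.Iio k) ≠ 0 := by
      rw [h.mk_k]
      exact h.reg.pos.ne'
    obtain ⟨γ⟩ := Cardinal.mk_ne_zero_iff.1 h1
    exact ⟨γ.1, γ.2⟩
  obtain ⟨X, hXZ, hX, r, hr, α, hα, hs⟩ := key h hcP hlt hcS
    (fun s a => {r | s.Countable → r ∈ G s a})
    (fun s a r hr r' hr' hs => hd s a r (hr hs) r' hr')
    (by
      intro s _ r
      by_cases hs : s.Countable
      · obtain ⟨r', hr', a, ha, hm⟩ := hG s hs r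
        exact ⟨r', hr', a, ha, fun _ => hm⟩
      · obtain ⟨γ, hγ⟩ := h0
        exact ⟨r, le_rfl, γ, hγ, fun h' => absurd h' hs⟩) Z hZ r0
  refine ⟨X, hXZ, hX, r, hr, α, hα, fun s hsX hsc r' hr' => ?_⟩
  obtain ⟨r'', hr'', a, ha, hm⟩ := hs s hsX (hsc.le_aleph0.trans (aleph0_le_aleph 1)) r' hr'
  exact ⟨r'', hr'', a, ha, hm hsc⟩

theorem PC.mk_le (h : HS M k κ U π) {cP : PC M k → M} (hcP : Function.Injective cP)
    (hlt : ∀ p, cP p < k) : #(PC M k) ≤ κ := by
  rw [← h.mk_k]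
  exact Cardinal.mk_le_of_injective (f := fun p => (⟨cP p, hlt p⟩ : Set.Iio k))
    (fun a b hab => hcP (congrArg Subtype.val hab))

theorem RC.mk_le (h : HS M k κ U π) (hM : ∀ a : M, #(Set.Iio a) < #M) {cP : PC M k → M}
    (hcP : Function.Injective cP) (hlt : ∀ p, cP p < k) {cS : SC M k → M}
    (hcS : Function.Injective cS) : #(RC M k cP) ≤ #M := by
  have h1 : #(RC M k cP) ≤ #(M × M) :=
    Cardinal.mk_le_of_injective (f := fun r : RC M k cP => (cP r.p, cS r.q))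
      (fun a b hab => by
        cases a; cases b
        simp only [Prod.mk.injEq] at hab
        simp only [RC.mk.injEq]
        exact ⟨hcP hab.1, hcS hab.2⟩)
  have h2 : ℵ₀ ≤ #M := by
    have h3 := hM k
    rw [h.mk_k] at h3
    exact h.reg.aleph0_le.trans h3.le
  have h4 : #(M × M) = #M := by
    rw [Cardinal.mk_prod, Cardinal.lift_id]
    exact Cardinal.mul_eq_self h2
  rw [h4] at h1
  exact h1

theorem PC.cc (h : HS M k κ U π) (ι : Type) (f : ι → PC M k) (hι : κ ≤ #ι) :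
    ∃ i j, i ≠ j ∧ ∃ r, r ≤ f i ∧ r ≤ f j := by
  classical
  rw [← h.mk_k, Cardinal.le_def] at hι
  obtain ⟨g⟩ := hι
  have hne : Nonempty ι := by
    have h1 : #(Set.Iio k) ≠ 0 := by
      rw [h.mk_k]
      exact h.reg.pos.ne'
    obtain ⟨γ⟩ := Cardinal.mk_ne_zero_iff.1 h1
    exact ⟨g γ⟩
  let a : M → PC M k := fun z => if hz : z < k then f (g ⟨z, hz⟩) else f hne.some
  obtain ⟨B, hB, hB1, p, hp⟩ := PC.delta h a (Set.Iio k) subset_rfl h.mk_k
  have h2 : 1 < #B := by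
    rw [hB1]
    exact Cardinal.one_lt_aleph0.trans_le (aleph0_le_aleph 1)
  rw [Cardinal.one_lt_iff_nontrivial] at h2
  obtain ⟨x, y, hxy⟩ := h2
  refine ⟨g ⟨x.1, hB x.2⟩, g ⟨y.1, hB y.2⟩, ?_, p, ?_, ?_⟩
  · intro h3
    have h4 : x.1 = y.1 := congrArg (fun z : Set.Iio k => z.1) (g.injective h3)
    exact hxy (Subtype.ext h4)
  · have h3 := hp x.1 x.2
    simp only [a] at h3
    rw [dif_pos (show x.1 < k from hB x.2)] at h3
    exact h3
  · have h3 := hp y.1 y.2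
    simp only [a] at h3
    rw [dif_pos (show y.1 < k from hB y.2)] at h3
    exact h3

end

theorem powOnto_of_enum {Q : Type} [Preorder Q] {ν μ : Cardinal.{0}}
    {F : μ.ord.ToType → ν.ord.ToType → Set Q}
    (hF : ∀ X : ν.ord.ToType → Set Q, ∃ i, ∀ q, q ∈ fand (Sub (F i) X) (Sub X (F i))) (q : Q) :
    q ∈ PowOnto Q ν μ := by
  refine mem_fex.2 fun r _ => ⟨r, le_rfl, F, fun X => ?_⟩
  obtain ⟨i, hi⟩ := hF X
  exact mem_fex.2 fun r' _ => ⟨r', le_rfl, i, hi r'⟩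

/-- A forcing notion which makes a huge cardinal `κ` the cardinal `ℵ₂` and its target `ℵ₃`, and
preserves GCH. -/
theorem huge_iteration_gch {κ m : Cardinal.{0}} (h : IsHuge κ m)
    (hGCH : ∀ ν : Cardinal.{0}, ℵ₀ ≤ ν → 2 ^ ν = Order.succ ν) :
    ∃ (P : Type) (_ : Preorder P), Nonempty P ∧ ∀ p : P,
      p ∈ StaysRegular P ℵ₁ ∧ p ∈ StaysRegular P κ ∧
      (m.IsRegular ∧ ∀ μ : Cardinal.{0}, μ.IsRegular → m ≤ μ → p ∈ StaysRegular P μ) ∧
      p ∈ CollapsedTo P ℵ₁ κ ∧ p ∈ CollapsedTo P κ m ∧ p ∈ ForcesGCH P ∧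
      (∀ M : Type, m ≤ #M → p ∈ SquareBracket P κ.ord.ToType M) ∧
      p ∈ PolarizedRel P κ.ord.ToType m.ord.ToType (ℵ₁ : Cardinal.{0}).ord.ToType := by
  classical
  obtain ⟨k, U, π, hs⟩ := IsHuge.hs h
  have hM : ∀ a : m.ord.ToType, #(Set.Iio a) < #m.ord.ToType := by
    intro a
    rw [mk_ord_toType]
    exact Cardinal.mk_Iio_toType_ord_lt a
  obtain ⟨hreg, hstrong⟩ := hs.target hM
  have hmm : #m.ord.ToType = m := mk_ord_toType m
  obtain ⟨cP, hcP, hlt⟩ := exists_cP hs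
  obtain ⟨cS, hcS⟩ := exists_cS (k := k) hreg hstrong hM (by
    rw [hs.mk_k]
    exact hs.reg.aleph0_le)
  obtain ⟨ι⟩ := hs.iso
  have hkm : κ < m := h.2.1
  have hne : Nonempty (RC m.ord.ToType k cP) := by
    have h0 : ∃ γ, γ < k := by
      have h1 : #(Set.Iio k) ≠ 0 := by
        rw [hs.mk_k]
        exact hs.reg.pos.ne'
      obtain ⟨γ⟩ := Cardinal.mk_ne_zero_iff.1 h1
      exact ⟨γ.1, γ.2⟩
    refine ⟨⟨⟨fun _ => Sl.empty, ?_, ?_⟩, ⟨Sl.empty, ⟨?_, ?_, ?_, ?_⟩⟩⟩⟩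
    · have : {α : m.ord.ToType | (Sl.empty : Sl m.ord.ToType).D.Nonempty} = ∅ := by
        ext α
        simp [Sl.empty]
      rw [this]
      simp
    · intro α hα
      exact absurd hα Set.not_nonempty_empty
    · simp [Sl.empty]
    · obtain ⟨γ, hγ⟩ := h0
      exact ⟨γ, hγ, fun t ht => ht.elim⟩
    · exact fun t ht => ht.elim
    · exact fun t s ht => ht.elim
  have hregK : ∀ p : RC m.ord.ToType k cP, p ∈ StaysRegular (RC m.ord.ToType k cP) κ := by
    intro p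
    refine staysRegular_of_key hs.reg hs.mk_k hs.mk_lt ι ?_ p
    intro G hd hG A hA r0
    have hZ : {X : Set m.ord.ToType | A ⊆ X} ∈ U := by
      have h1 := hs.comp A hA (fun a => {X | a.1 ∈ X}) (fun a => hs.fine a.1)
      filter_upwards [h1] with X hX a ha
      exact hX ⟨a, ha⟩
    obtain ⟨X, h1, h2⟩ := key_ctbl hs hcP hlt hcS G hd hG _ hZ r0
    exact ⟨X, h1, h2⟩
  have hcol1 : ∀ p, p ∈ CollapsedTo (RC m.ord.ToType k cP) ℵ₁ κ := fun p => RC.collapsed hs cP p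
  have hcol2 : ∀ p, p ∈ CollapsedTo (RC m.ord.ToType k cP) κ m := by
    intro p
    have h1 := RC.collapsed' hs hM cP hlt p
    rw [mk_ord_toType] at h1
    exact h1
  have hccR : ∀ (ι' : Type) (f : ι' → RC m.ord.ToType k cP), m ≤ #ι' →
      ∃ i j, i ≠ j ∧ ∃ r, r ≤ f i ∧ r ≤ f j := fun ι' f hf =>
    RC.cc hs hM hcP hlt hcS ι' f (by rw [mk_ord_toType]; exact hf)
  have hRle : #(RC m.ord.ToType k cP) ≤ m := by
    have h1 := RC.mk_le hs hM hcP hlt hcS
    rw [hmm] at h1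
    exact h1
  rw [hmm] at hreg hstrong
  have hm0 : m ≠ 0 := hreg.pos.ne'
  refine ⟨RC m.ord.ToType k cP, inferInstance, hne, fun p => ⟨?_, hregK p, ?_, hcol1 p, hcol2 p,
    ?_, ?_, ?_⟩⟩
  · exact staysRegular_proj isRegular_aleph_one
      (fun N D hN hd hdense q =>
        exists_forall_mem aleph0_lt_aleph_one.le (RC.dirClosed hs cP) hN D hd hdense q)
      id (fun a b h => h) (fun a q' h => ⟨q', h, le_rfl⟩) (fun q' => ⟨q', le_rfl⟩) p
  · exact ⟨hreg, fun μ hμ hmμ => staysRegular_of_cc' hμ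
      (fun ι' f hf => hccR ι' f (hmμ.trans hf)) p⟩
  · refine forcesGCH_of hs.unc hkm ?_ ?_ ?_ ?_ hcol1 hcol2 p
    · intro q
      refine powOnto_of_dirClosed (aleph0_le_aleph 1) (RC.dirClosed hs cP)
        aleph0_lt_aleph_one ?_ q
      rw [hGCH _ le_rfl, succ_aleph0]
    · intro ν hν1 hν q
      obtain ⟨F, hF⟩ := exists_nice_enum (Q := PC m.ord.ToType k) (χ := κ) (ν := ν) (μ := κ)
        (PC.cc hs) (card_nice hs.reg hs.strong (PC.mk_le hs hcP hlt) hν) hs.reg.pos.ne'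
      exact RC.powOnto hs hν F hF q
    · intro ν hν1 hν q
      obtain ⟨F, hF⟩ := exists_nice_enum (Q := RC m.ord.ToType k cP) (χ := m) (ν := ν) (μ := m)
        hccR (card_nice hreg hstrong hRle hν) hm0
      exact powOnto_of_enum hF q
    · intro ν hν q
      have hν0 : ℵ₀ ≤ ν := hreg.aleph0_le.trans hν
      obtain ⟨F, hF⟩ := exists_nice_enum (Q := RC m.ord.ToType k cP) (χ := m) (ν := ν)
        (μ := Order.succ ν) hccR (by
          rw [← hGCH ν hν0]
          exact card_nice' hν0 (hRle.trans (hν.trans (cantor ν).le))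
            (hν.trans (Order.le_succ ν))) (Order.succ_ne_bot ν)
      exact powOnto_of_enum hF q
  · intro M' hM'
    have h1 : p ∈ SquareBracket (RC m.ord.ToType k cP) κ.ord.ToType m.ord.ToType := by
      refine squareBracket_of_key (RC.dirClosed hs cP) hs.reg ι ?_ p
      intro G hd hG r0
      obtain ⟨X, -, h2⟩ := key_ctbl hs hcP hlt hcS G hd hG Set.univ Filter.univ_mem r0
      exact ⟨X, h2⟩
    rw [← hmm, Cardinal.le_def] at hM'
    obtain ⟨e⟩ := hM'
    exact squareBracket_mono e p h1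
  · refine polarizedRel_of_key hs.reg hregK ι ?_ ?_ p
    · intro G hd hG r0
      obtain ⟨X, -, h2⟩ := key hs hcP hlt hcS G hd hG Set.univ Filter.univ_mem r0
      exact ⟨X, h2⟩
    · intro c X hX r
      exact RC.homog hs c X hX r

end Pool.Agent.Helper669.V
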