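import Mathlib
import Pool.Agent.Helper669.VE
import Pool.Agent.Helper669.KDelta

set_option autoImplicit false

/-!
# Forcing the failure of the polarized relation, with GCH
-/

namespace Pool.Agent.Helper669.V

open Cardinal Pool.Agent.Helper669.Forcing Pool.Agent.Helper669.K Pool.Agent.Helper669.U


/-- A condition: the colours of the points of `Iio δ × d`, where `d` has size at most `ℵ₁` (`g` is
the set of the points of colour `1`), and a family `b` of at most `ℵ₁` uncountable subsets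
of `d`: no further row may be constant on a member of `b`. -/
structure NC (K L : Type) [LinearOrder K] where
  δ : K
  d : Set L
  g : Set (K × L)
  b : Set (Set L)
  hd : #d ≤ ℵ₁
  hg : ∀ t ∈ g, t.1 < δ ∧ t.2 ∈ d
  hb : #b ≤ ℵ₁
  hB : ∀ B ∈ b, B ⊆ d ∧ ℵ₀ < #B

/-- `q` extends `p` -/
structure NC.Le {K L : Type} [LinearOrder K] (q p : NC K L) : Prop where
  δ : p.δ ≤ q.δ
  d : p.d ⊆ q.d
  b : p.b ⊆ q.b
  g : ∀ x < p.δ, ∀ y ∈ p.d, (x, y) ∈ q.g ↔ (x, y) ∈ p.g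
  split : ∀ B ∈ p.b, ∀ x, p.δ ≤ x → x < q.δ → (∃ y ∈ B, (x, y) ∈ q.g) ∧ ∃ y ∈ B, (x, y) ∉ q.g

instance (K L : Type) [LinearOrder K] : Preorder (NC K L) where
  le := NC.Le
  le_refl p := ⟨le_rfl, subset_rfl, subset_rfl, fun _ _ _ _ => Iff.rfl,
    fun _ _ _ h h' => absurd h' (not_lt.2 h)⟩
  le_trans q p o h h' := by
    refine ⟨h'.δ.trans h.δ, h'.d.trans h.d, h'.b.trans h.b, ?_, ?_⟩
    · intro x hx y hy
      exact (h.g x (hx.trans_le h'.δ) y (h'.d hy)).trans (h'.g x hx y hy)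
    · intro B hB x hx hx'
      by_cases hxp : x < p.δ
      · obtain ⟨⟨y, hy, h1⟩, ⟨z, hz, h2⟩⟩ := h'.split B hB x hx hxp
        have hBd := (o.hB B hB).1
        exact ⟨⟨y, hy, (h.g x hxp y (h'.d (hBd hy))).2 h1⟩,
          ⟨z, hz, fun h3 => h2 ((h.g x hxp z (h'.d (hBd hz))).1 h3)⟩⟩
      · exact h.split B (h'.b hB) x (not_lt.1 hxp) hx'


/-- the first coordinates -/
abbrev K2 := (ℵ_ 2 : Cardinal.{0}).ord.ToType
/-- the second coordinates -/
abbrev L3 := (ℵ_ 3 : Cardinal.{0}).ord.ToType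

section

open Pool.Agent.Helper669.KDelta (weak_delta)

theorem dirClosed_reg : Cardinal.IsRegular (ℵ_ 2 : Cardinal.{0}) := by
  have h := isRegular_aleph_add_one.{0} 1
  rwa [one_add_one_eq_two] at h

theorem dirClosed_le {c : Cardinal.{0}} (h : c < ℵ_ 2) : c ≤ ℵ₁ := by
  have h2 : (ℵ_ 2 : Cardinal.{0}) = Order.succ ℵ₁ := by
    have h3 := succ_aleph.{0} 1
    rw [one_add_one_eq_two] at h3
    exact h3.symm
  rw [h2] at h
  exact Order.lt_succ_iff.1 h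

theorem dirClosed_union {ι α : Type} (hι : #ι ≤ ℵ₁) (f : ι → Set α) (hf : ∀ i, #(f i) ≤ ℵ₁) :
    #(⋃ i, f i : Set α) ≤ ℵ₁ := by
  refine (mk_iUnion_le f).trans ?_
  refine (mul_le_mul' hι (ciSup_le' hf)).trans ?_
  exact (mul_eq_self (aleph0_le_aleph 1)).le

theorem dirClosed_sup (D : Set (NC K2 L3)) (hD : #D < ℵ_ 2) :
    ∃ δ : K2, (∀ p ∈ D, p.δ ≤ δ) ∧ ∀ x < δ, ∃ p ∈ D, x < p.δ := by
  have hcof : Order.cof K2 = ℵ_ 2 := by
    rw [Ordinal.cof_toType, dirClosed_reg.cof_ord]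
  have hnc : ¬ IsCofinal ((fun p : NC K2 L3 => p.δ) '' D) := by
    intro h
    have h1 := Order.cof_le h
    rw [hcof] at h1
    have h2 := h1.trans mk_image_le
    exact absurd hD (not_lt.2 h2)
  obtain ⟨b, hb⟩ := not_isCofinal_iff.1 hnc
  obtain ⟨m, hm, hmin⟩ := WellFounded.has_min (wellFounded_lt (α := K2))
    {b | ∀ p ∈ D, p.δ ≤ b} ⟨b, fun p hp => (hb _ ⟨p, hp, rfl⟩).le⟩
  refine ⟨m, hm, ?_⟩
  intro x hx
  by_contra hcon
  push Not at hcon
  exact hmin x hcon hx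

theorem dirClosed_coh (D : Set (NC K2 L3)) (hdir : ∀ a ∈ D, ∀ b ∈ D, ∃ c ∈ D, c ≤ a ∧ c ≤ b)
    (p q : NC K2 L3) (hp : p ∈ D) (hq : q ∈ D) (x : K2) (y : L3) (hx : x < p.δ) (hy : y ∈ p.d)
    (h : (x, y) ∈ q.g) : (x, y) ∈ p.g := by
  obtain ⟨r, -, hrp, hrq⟩ := hdir p hp q hq
  have hrp' : NC.Le r p := hrp
  have hrq' : NC.Le r q := hrq
  have h1 := q.hg _ h
  exact (hrp'.g x hx y hy).1 ((hrq'.g x h1.1 y h1.2).2 h)


theorem NC.dirClosed : DirClosed (ℵ_ 2) (NC K2 L3) := by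
  intro D hD hne hdir
  obtain ⟨δ, hδ, hδ2⟩ := dirClosed_sup D hD
  have hD1 : #D ≤ ℵ₁ := dirClosed_le hD
  refine ⟨{ δ := δ
            d := ⋃ p : D, p.1.d
            g := ⋃ p : D, p.1.g
            b := ⋃ p : D, p.1.b
            hd := dirClosed_union hD1 _ (fun p => p.1.hd)
            hg := ?_
            hb := dirClosed_union hD1 _ (fun p => p.1.hb)
            hB := ?_ }, ?_⟩
  · intro t ht
    obtain ⟨p, hp⟩ := Set.mem_iUnion.1 ht
    have h1 := p.1.hg t hp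
    exact ⟨h1.1.trans_le (hδ p.1 p.2), Set.mem_iUnion.2 ⟨p, h1.2⟩⟩
  · intro B hB
    obtain ⟨p, hp⟩ := Set.mem_iUnion.1 hB
    have h1 := p.1.hB B hp
    exact ⟨h1.1.trans (Set.subset_iUnion (fun p : D => p.1.d) p), h1.2⟩
  · intro p hp
    show NC.Le _ p
    · refine ⟨hδ p hp, Set.subset_iUnion (fun p : D => p.1.d) ⟨p, hp⟩,
        Set.subset_iUnion (fun p : D => p.1.b) ⟨p, hp⟩, ?_, ?_⟩
      · intro x hx y hy
        constructor
        · intro h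
          obtain ⟨q, hq⟩ := Set.mem_iUnion.1 h
          exact dirClosed_coh D hdir p q.1 hp q.2 x y hx hy hq
        · intro h
          exact Set.mem_iUnion.2 ⟨⟨p, hp⟩, h⟩
      · intro B hB x hx hx'
        obtain ⟨q, hq, hxq⟩ := hδ2 x hx'
        obtain ⟨r, hr, hrp, hrq⟩ := hdir p hp q hq
        have hrp' : NC.Le r p := hrp
        have hrq' : NC.Le r q := hrq
        have hxr : x < r.δ := hxq.trans_le hrq'.δ
        obtain ⟨⟨y, hy, h1⟩, ⟨z, hz, h2⟩⟩ := hrp'.split B hB x hx hxr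
        refine ⟨⟨y, hy, Set.mem_iUnion.2 ⟨⟨r, hr⟩, h1⟩⟩, ⟨z, hz, ?_⟩⟩
        intro h3
        obtain ⟨s, hs⟩ := Set.mem_iUnion.1 h3
        exact h2 (dirClosed_coh D hdir r s.1 hr s.2 x z hxr (hrp'.d ((p.hB B hB).1 hz)) hs)

theorem cc_aux2 : (ℵ_ 2 : Cardinal.{0}) = Order.succ (ℵ_ 1) := by
  rw [Cardinal.succ_aleph, one_add_one_eq_two]

theorem cc_aux3 : (ℵ_ 3 : Cardinal.{0}) = Order.succ (ℵ_ 2) := by
  rw [Cardinal.succ_aleph]
  norm_num

theorem cc_k2 : #K2 = ℵ_ 2 := Cardinal.mk_ord_toType _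

theorem cc_fiber (ι : Type) (f : ι → K2) (hι : ℵ_ 3 ≤ #ι) : ∃ δ : K2, ¬ #{i // f i = δ} ≤ ℵ_ 2 := by
  by_contra h
  push Not at h
  have h1 : #ι = Cardinal.sum (fun δ : K2 => #{i // f i = δ}) := by
    rw [← Cardinal.mk_sigma]
    exact Cardinal.mk_congr (Equiv.sigmaFiberEquiv f).symm
  have h2 : Cardinal.sum (fun δ : K2 => #{i // f i = δ}) ≤ Cardinal.sum (fun _ : K2 => (ℵ_ 2 : Cardinal.{0})) :=
    Cardinal.sum_le_sum _ _ h
  rw [Cardinal.sum_const', cc_k2, Cardinal.mul_eq_self (Cardinal.aleph0_le_aleph 2)] at h2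
  rw [← h1] at h2
  have h3 : (ℵ_ 3 : Cardinal.{0}) ≤ ℵ_ 2 := hι.trans h2
  rw [cc_aux3] at h3
  exact absurd (Order.lt_succ (ℵ_ 2 : Cardinal.{0})) (not_lt.2 h3)

theorem cc_iio (δ : K2) : #(Set.Iio δ) ≤ ℵ₁ := by
  have h : #(Set.Iio δ) < ℵ_ 2 := Cardinal.mk_Iio_toType_ord_lt δ
  exact Order.lt_succ_iff.1 (h.trans_le cc_aux2.le)


theorem NC.cc (hCH : (2 : Cardinal.{0}) ^ (ℵ₁ : Cardinal.{0}) = ℵ_ 2) (ι : Type) (f : ι → NC K2 L3)
    (hι : ℵ_ 3 ≤ #ι) : ∃ i j, i ≠ j ∧ ∃ r, r ≤ f i ∧ r ≤ f j := by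
  obtain ⟨δ, hδ⟩ := cc_fiber ι (fun i => (f i).δ) hι
  have h12 : (ℵ₁ : Cardinal.{0}) < ℵ_ 2 := by
    rw [cc_aux2]; exact Order.lt_succ _
  obtain ⟨T, R, hT, hR, hTR⟩ := weak_delta (E := {i // (f i).δ = δ}) (K := L3) (c := ℵ_ 2)
    (Cardinal.aleph0_le_aleph 2) hδ (fun i => (f i.1).d) (fun i => (f i.1).hd.trans_lt h12)
  -- the traces
  have htr : ∀ i : {i // (f i).δ = δ}, {t : K2 × L3 | t ∈ (f i.1).g ∧ t.2 ∈ R} ⊆ (Set.univ : Set K2) ×ˢ R ∧
      #({t : K2 × L3 | t ∈ (f i.1).g ∧ t.2 ∈ R} : Set (K2 × L3)) ≤ ℵ₁ := by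
    intro i
    refine ⟨fun t ht => ⟨Set.mem_univ _, ht.2⟩, ?_⟩
    have hsub : {t : K2 × L3 | t ∈ (f i.1).g ∧ t.2 ∈ R} ⊆ (Set.Iio δ) ×ˢ (f i.1).d := by
      intro t ht
      have h := (f i.1).hg t ht.1
      rw [i.2] at h
      exact ⟨h.1, h.2⟩
    have h1 : #((Set.Iio δ ×ˢ (f i.1).d : Set (K2 × L3))) ≤ ℵ₁ := by
      rw [Cardinal.mk_congr (Equiv.Set.prod (Set.Iio δ) (f i.1).d), Cardinal.mk_prod]
      simp only [Cardinal.lift_id]
      calc #(Set.Iio δ) * #(f i.1).d ≤ ℵ₁ * ℵ₁ := mul_le_mul' (cc_iio δ) (f i.1).hd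
        _ = ℵ₁ := Cardinal.mul_eq_self (Cardinal.aleph0_le_aleph 1)
    exact (Cardinal.mk_le_mk_of_subset hsub).trans h1
  have hcount : #{t : Set (K2 × L3) // t ⊆ (Set.univ : Set K2) ×ˢ R ∧ #t ≤ ℵ₁} ≤ ℵ_ 2 := by
    refine (Cardinal.mk_bounded_subset_le _ _).trans ?_
    have h1 : #(((Set.univ : Set K2) ×ˢ R : Set (K2 × L3))) ≤ ℵ_ 2 := by
      rw [Cardinal.mk_congr (Equiv.Set.prod (Set.univ : Set K2) R), Cardinal.mk_prod]
      simp only [Cardinal.lift_id, Cardinal.mk_univ]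
      calc #K2 * #R ≤ ℵ_ 2 * ℵ_ 2 := mul_le_mul' cc_k2.le hR
        _ = ℵ_ 2 := Cardinal.mul_eq_self (Cardinal.aleph0_le_aleph 2)
    have h2 : max #(((Set.univ : Set K2) ×ˢ R : Set (K2 × L3))) ℵ₀ ≤ ℵ_ 2 := 
      max_le h1 (Cardinal.aleph0_le_aleph 2)
    refine (Cardinal.power_le_power_right h2).trans ?_
    rw [← hCH, ← Cardinal.power_mul, Cardinal.mul_eq_self (Cardinal.aleph0_le_aleph 1)]
  have hni : ¬ Function.Injective (fun i : T => 
      (⟨{t : K2 × L3 | t ∈ (f i.1.1).g ∧ t.2 ∈ R}, htr i.1⟩ : 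
        {t : Set (K2 × L3) // t ⊆ (Set.univ : Set K2) ×ˢ R ∧ #t ≤ ℵ₁})) := by
    intro hinj
    exact hT ((Cardinal.mk_le_of_injective hinj).trans hcount)
  simp only [Function.Injective, not_forall] at hni
  obtain ⟨i, j, hij, hne⟩ := hni
  have hne' : i.1 ≠ j.1 := fun h => hne (Subtype.ext h)
  have hne'' : i.1.1 ≠ j.1.1 := fun h => hne' (Subtype.ext h)
  have hset : {t : K2 × L3 | t ∈ (f i.1.1).g ∧ t.2 ∈ R} = {t : K2 × L3 | t ∈ (f j.1.1).g ∧ t.2 ∈ R} :=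
    congrArg Subtype.val hij
  have hiff : ∀ t : K2 × L3, t.2 ∈ R → (t ∈ (f i.1.1).g ↔ t ∈ (f j.1.1).g) := by
    intro t ht
    constructor
    · intro h
      have h1 : t ∈ {t : K2 × L3 | t ∈ (f i.1.1).g ∧ t.2 ∈ R} := ⟨h, ht⟩
      rw [hset] at h1
      exact h1.1
    · intro h
      have h1 : t ∈ {t : K2 × L3 | t ∈ (f j.1.1).g ∧ t.2 ∈ R} := ⟨h, ht⟩
      rw [← hset] at h1
      exact h1.1
  have hun : ∀ {X : Type} (S S' : Set X), #S ≤ ℵ₁ → #S' ≤ ℵ₁ → #(S ∪ S' : Set X) ≤ ℵ₁ := by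
    intro X S S' h h'
    refine (Cardinal.mk_union_le S S').trans ?_
    calc #S + #S' ≤ ℵ₁ + ℵ₁ := add_le_add h h'
      _ = ℵ₁ := Cardinal.add_eq_self (Cardinal.aleph0_le_aleph 1)
  let r : NC K2 L3 := 
    { δ := δ
      d := (f i.1.1).d ∪ (f j.1.1).d
      g := (f i.1.1).g ∪ (f j.1.1).g
      b := (f i.1.1).b ∪ (f j.1.1).b
      hd := hun _ _ (f i.1.1).hd (f j.1.1).hd
      hg := by
        rintro t (ht | ht)
        · have h := (f i.1.1).hg t ht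
          rw [i.1.2] at h
          exact ⟨h.1, Or.inl h.2⟩
        · have h := (f j.1.1).hg t ht
          rw [j.1.2] at h
          exact ⟨h.1, Or.inr h.2⟩
      hb := hun _ _ (f i.1.1).hb (f j.1.1).hb
      hB := by
        rintro B (hB | hB)
        · have h := (f i.1.1).hB B hB
          exact ⟨h.1.trans Set.subset_union_left, h.2⟩
        · have h := (f j.1.1).hB B hB
          exact ⟨h.1.trans Set.subset_union_right, h.2⟩ }
  refine ⟨i.1.1, j.1.1, hne'', r, ?_, ?_⟩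
  · exact
      { δ := i.1.2.le
        d := Set.subset_union_left
        b := Set.subset_union_left
        g := by
          intro x hx y hy
          constructor
          · rintro (h | h)
            · exact h
            · have hyj : y ∈ (f j.1.1).d := ((f j.1.1).hg _ h).2
              have hyR : y ∈ R := hTR i.1 i.2 j.1 j.2 hne' ⟨hy, hyj⟩
              exact (hiff (x, y) hyR).2 h
          · exact fun h => Or.inl h
        split := by
          intro B hB x hx hx'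
          exact absurd hx' (not_lt.2 (i.1.2.symm.le.trans hx)) }
  · exact
      { δ := j.1.2.le
        d := Set.subset_union_right
        b := Set.subset_union_right
        g := by
          intro x hx y hy
          constructor
          · rintro (h | h)
            · have hyj : y ∈ (f i.1.1).d := ((f i.1.1).hg _ h).2
              have hyR : y ∈ R := hTR i.1 i.2 j.1 j.2 hne' ⟨hyj, hy⟩
              exact (hiff (x, y) hyR).1 h
            · exact h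
          · exact fun h => Or.inr h
        split := by
          intro B hB x hx hx'
          exact absurd hx' (not_lt.2 (j.1.2.symm.le.trans hx)) }

end

theorem NC.extend_pair {L : Type} {B E : Set L} (hB : ¬ B.Countable) (hE : E.Countable) :
    ∃ p : L × L, p.1 ∈ B ∧ p.2 ∈ B ∧ p.1 ≠ p.2 ∧ p.1 ∉ E ∧ p.2 ∉ E := by
  have h1 : ¬ (B \ E).Countable := fun h => hB ((h.union hE).mono (by
    intro x hx
    by_cases hxE : x ∈ E
    · exact Or.inr hxE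
    · exact Or.inl ⟨hx, hxE⟩))
  obtain ⟨y, hy⟩ : (B \ E).Nonempty := by
    by_contra h
    rw [Set.not_nonempty_iff_eq_empty] at h
    exact h1 (by rw [h]; exact Set.countable_empty)
  obtain ⟨z, hz, hzy⟩ : ∃ z ∈ B \ E, z ≠ y := by
    by_contra h
    push Not at h
    exact h1 ((Set.countable_singleton y).mono fun z hz => h z hz)
  exact ⟨(y, z), hy.1, hz.1, fun h => hzy h.symm, hy.2, hz.2⟩

theorem NC.extend_rec {L I : Type} [LinearOrder I] [WellFoundedLT I]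
    (hI : ∀ i : I, (Set.Iio i).Countable) (BB : I → Set L) (hB : ∀ i, ¬ (BB i).Countable) :
    ∃ y z : I → L, (∀ i, y i ∈ BB i ∧ z i ∈ BB i) ∧ ∀ i j, y i ≠ z j := by
  have hex : ∀ (i : I) (prev : ∀ j, j < i → L × L), ∃ p : L × L, p.1 ∈ BB i ∧ p.2 ∈ BB i ∧
      p.1 ≠ p.2 ∧ ∀ j (hj : j < i), p.1 ≠ (prev j hj).2 ∧ p.2 ≠ (prev j hj).1 := by
    intro i prev
    have hc : Countable (Set.Iio i) := (hI i).to_subtype
    obtain ⟨p, h1, h2, h3, h4, h5⟩ := NC.extend_pair (hB i)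
      (E := Set.range (fun j : Set.Iio i => (prev j.1 j.2).1) ∪
        Set.range (fun j : Set.Iio i => (prev j.1 j.2).2))
      ((Set.countable_range _).union (Set.countable_range _))
    refine ⟨p, h1, h2, h3, fun j hj => ⟨fun h => h4 (Or.inr ⟨⟨j, hj⟩, h.symm⟩),
      fun h => h5 (Or.inl ⟨⟨j, hj⟩, h.symm⟩)⟩⟩
  have wf : WellFounded (fun a b : I => a < b) := wellFounded_lt
  let T : ∀ i, (∀ j, j < i → L × L) → L × L := fun i prev => (hex i prev).choose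
  let F : I → L × L := wf.fix T
  have hF : ∀ i, F i = T i (fun j _ => F j) := fun i => wf.fix_eq T i
  have hspec : ∀ i, (F i).1 ∈ BB i ∧ (F i).2 ∈ BB i ∧ (F i).1 ≠ (F i).2 ∧
      ∀ j, j < i → (F i).1 ≠ (F j).2 ∧ (F i).2 ≠ (F j).1 := by
    intro i
    rw [hF i]
    exact (hex i (fun j _ => F j)).choose_spec
  refine ⟨fun i => (F i).1, fun i => (F i).2, fun i => ⟨(hspec i).1, (hspec i).2.1⟩, ?_⟩
  intro i j
  rcases lt_trichotomy i j with h | h | h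
  · exact fun h' => ((hspec j).2.2.2 i h).2 h'.symm
  · rw [h]
    exact (hspec j).2.2.1
  · exact ((hspec i).2.2.2 j h).1

theorem NC.extend_split {L : Type} (b : Set (Set L)) (hb : #b ≤ ℵ₁) (hB : ∀ B ∈ b, ℵ₀ < #B) :
    ∃ S : Set L, ∀ B ∈ b, (∃ y ∈ B, y ∈ S) ∧ ∃ y ∈ B, y ∉ S := by
  rcases b.eq_empty_or_nonempty with he | hne
  · refine ⟨∅, fun B hBb => ?_⟩
    rw [he] at hBb
    exact absurd hBb (Set.notMem_empty B)
  · have hI : #b ≤ #((ℵ₁ : Cardinal.{0}).ord.ToType) := by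
      rw [mk_ord_toType]
      exact hb
    obtain ⟨e⟩ := (Cardinal.le_def _ _).1 hI
    have hnb : Nonempty b := hne.to_subtype
    let s : (ℵ₁ : Cardinal.{0}).ord.ToType → b := Function.invFun e
    have hs : ∀ B : b, s (e B) = B := Function.leftInverse_invFun e.injective
    obtain ⟨y, z, h1, h2⟩ := NC.extend_rec (I := (ℵ₁ : Cardinal.{0}).ord.ToType)
      (fun i => (Cardinal.countable_iff_lt_aleph_one _).2 (Cardinal.mk_Iio_ord_toType i))
      (fun i => ((s i : b) : Set L)) (fun i hc => by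
        have h3 := hB _ (s i).2
        exact absurd (Cardinal.le_aleph0_iff_set_countable.2 hc) (not_le.2 h3))
    refine ⟨Set.range y, fun B hBb => ?_⟩
    have h4 := h1 (e ⟨B, hBb⟩)
    rw [hs] at h4
    refine ⟨⟨_, h4.1, ⟨_, rfl⟩⟩, ⟨_, h4.2, ?_⟩⟩
    rintro ⟨j, hj⟩
    exact h2 j _ hj

theorem NC.extend (p : NC K2 L3) (β : K2) : ∃ q ≤ p, β ≤ q.δ := by
  by_cases hβ : β ≤ p.δ
  · exact ⟨p, le_rfl, hβ⟩
  · have hlt : p.δ < β := not_le.1 hβ
    obtain ⟨S, hS⟩ := NC.extend_split p.b p.hb (fun B hB => (p.hB B hB).2)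
    refine ⟨{ δ := β
              d := p.d
              g := p.g ∪ {t | p.δ ≤ t.1 ∧ t.1 < β ∧ t.2 ∈ S ∧ t.2 ∈ p.d}
              b := p.b
              hd := p.hd
              hg := ?_
              hb := p.hb
              hB := p.hB }, ?_, le_rfl⟩
    · rintro t (ht | ht)
      · exact ⟨(p.hg t ht).1.trans hlt, (p.hg t ht).2⟩
      · exact ⟨ht.2.1, ht.2.2.2⟩
    · refine ⟨hlt.le, subset_rfl, subset_rfl, ?_, ?_⟩
      · intro x hx y _
        constructor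
        · rintro (h | h)
          · exact h
          · exact absurd h.1 (not_le.2 hx)
        · exact fun h => Or.inl h
      · intro B hB x hx hx'
        obtain ⟨⟨y, hy, hyS⟩, ⟨z, hz, hzS⟩⟩ := hS B hB
        refine ⟨⟨y, hy, Or.inr ⟨hx, hx', hyS, (p.hB B hB).1 hy⟩⟩, ⟨z, hz, ?_⟩⟩
        rintro (h | h)
        · exact absurd (p.hg _ h).1 (not_lt.2 hx)
        · exact hzS h.2.2.1

theorem NC.negative (q : NC K2 L3) :
    q ∈ fnot (PolarizedRel (NC K2 L3) K2 L3 (ℵ₁ : Cardinal.{0}).ord.ToType) := by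
  classical
  intro q1 _ hpol
  let W : Type := (ℵ₁ : Cardinal.{0}).ord.ToType
  have hW : #W = ℵ₁ := Cardinal.mk_ord_toType _
  have h12 : (ℵ₁ : Cardinal.{0}) < ℵ_ 2 := by
    have : ((1 : Ordinal.{0})) < 2 := by exact_mod_cast (one_lt_two : (1 : ℕ) < 2)
    exact Cardinal.aleph_lt_aleph.2 this
  let c : K2 → L3 → Set (NC K2 L3) := fun x y => {p | x < p.δ ∧ y ∈ p.d ∧ (x, y) ∈ p.g}
  have hc : ∀ x y, Down (c x y) := by
    rintro x y p ⟨h1, h2, h3⟩ q hq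
    exact ⟨h1.trans_le hq.δ, hq.d h2, (hq.g x h1 y h2).2 h3⟩
  obtain ⟨ra, _, A, hA0⟩ := mem_fex.1 (hpol c) q1 le_rfl
  obtain ⟨rb, _, B, hAs, hBs, hor⟩ := mem_fex.1 hA0 ra le_rfl
  have hdA : Down (HasFullSize A) := down_fall fun _ => down_fall fun _ => down_fnot _
  -- pick the alternative
  obtain ⟨r0, hr0, halt⟩ : ∃ r0 ≤ rb,
      (r0 ∈ (fall fun x => fall fun y => fimp (fand (meets (A x)) (meets (B y))) (meets (c x y)))) ∨
      (r0 ∈ (fall fun x => fall fun y =>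
            fimp (fand (meets (A x)) (meets (B y))) (fnot (meets (c x y))))) := by
    by_contra hcon
    push Not at hcon
    apply hor rb le_rfl
    exact ⟨fun p hp h => (hcon p hp).1 h, fun p hp h => (hcon p hp).2 h⟩
  obtain ⟨r1, hr1, R, hRf, hRi, hRB⟩ := mem_fex.1 hBs r0 hr0
  obtain ⟨r2, hr2, hD⟩ := exists_forall_mem (Cardinal.aleph0_le_aleph 2) NC.dirClosed
    (N := W) (by rw [hW]; exact h12)
    (fun w => {p : NC K2 L3 | (∃ y, p ∈ meets (R w y)) ∨ ∀ p' ≤ p, ¬ p' ≤ r1})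
    (by
      rintro w p hp q hq
      rcases hp with ⟨y, hy⟩ | hp
      · exact Or.inl ⟨y, down_meets _ _ hy _ hq⟩
      · exact Or.inr fun p' hp' => hp p' (hp'.trans hq))
    (by
      intro w q
      by_cases h : ∃ p' ≤ q, p' ≤ r1
      · obtain ⟨p', h1, h2⟩ := h
        obtain ⟨q', hq', y, hy⟩ := IsFun.total (down_IsFun R _ hRf _ h2) w
        exact ⟨q', hq'.trans h1, Or.inl ⟨y, hy⟩⟩
      · push Not at h
        exact ⟨q, le_rfl, Or.inr h⟩) r1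
  have hD' : ∀ w, ∃ y, r2 ∈ meets (R w y) := by
    intro w
    rcases hD w with h | h
    · exact h
    · exact absurd hr2 (h r2 le_rfl)
  choose y hy using hD'
  have hyi : Function.Injective y := by
    intro w w' hww
    exact IsInj.eq (down_IsInj R _ hRi _ hr2) (hy w) (hww ▸ hy w')
  have hyB : ∀ w, r2 ∈ meets (B (y w)) := by
    intro w p hp
    obtain ⟨r, hr, hrB⟩ := mem_fimp.1 ((hRB (y w)).2 w) p (hp.trans hr2)
      (down_meets _ _ (hy w) _ hp)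
    obtain ⟨r', hr', s, hs, hle⟩ := hrB r le_rfl
    exact ⟨r', hr'.trans hr, s, hs, hle⟩
  have hB0 : #(Set.range y) = ℵ₁ := by
    rw [Cardinal.mk_range_eq y hyi, hW]
  have h1inf : ℵ₀ ≤ (ℵ₁ : Cardinal.{0}) := Cardinal.aleph0_le_aleph 1
  let r3 : NC K2 L3 :=
    { δ := r2.δ
      d := r2.d ∪ Set.range y
      g := r2.g
      b := insert (Set.range y) r2.b
      hd := by
        refine (Cardinal.mk_union_le _ _).trans ?_
        exact Cardinal.add_le_of_le h1inf r2.hd hB0.le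
      hg := fun t ht => ⟨(r2.hg t ht).1, Or.inl (r2.hg t ht).2⟩
      hb := by
        refine (Cardinal.mk_insert_le).trans ?_
        exact Cardinal.add_le_of_le h1inf r2.hb (Cardinal.one_lt_aleph0.le.trans h1inf)
      hB := by
        rintro S (rfl | hS)
        · refine ⟨Set.subset_union_right, ?_⟩
          rw [hB0]
          exact Cardinal.aleph0_lt_aleph_one
        · exact ⟨(r2.hB S hS).1.trans Set.subset_union_left, (r2.hB S hS).2⟩ }
  have h32 : r3 ≤ r2 :=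
    { δ := le_rfl
      d := Set.subset_union_left
      b := Set.subset_insert _ _
      g := fun _ _ _ _ => Iff.rfl
      split := fun _ _ x h h' => absurd h' (not_lt.2 h) }
  have h31 : r3 ≤ r1 := h32.trans hr2
  have h30 : r3 ≤ r0 := h31.trans hr1
  have h3b : r3 ≤ rb := h30.trans hr0
  -- A is unbounded
  obtain ⟨r4, h43, x, hx, hxA⟩ : ∃ r4 ≤ r3, ∃ x, r3.δ ≤ x ∧ r4 ∈ meets (A x) := by
    by_contra hcon
    push Not at hcon
    let ν : Cardinal.{0} := #(Set.Iio r3.δ)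
    have hν : ν < #K2 := by
      have := Cardinal.mk_Iio_ord_toType r3.δ
      rw [Cardinal.mk_ord_toType]
      exact this
    let e0 : ν.out ≃ Set.Iio r3.δ := (Cardinal.eq.1 (Cardinal.mk_out ν)).some
    let R0 : ν.out → K2 → Set (NC K2 L3) := fun i z => {_q | z = (e0 i : K2)}
    refine hdA _ hAs r3 h3b ν hν r3 le_rfl ?_
    refine mem_fex_of_mem R0 (down_fand (down_IsFun _) (down_fall fun _ => down_fimp _ _))
      ⟨⟨?_, ?_⟩, ?_⟩
    · intro i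
      exact mem_fex_of_mem (e0 i : K2) (down_meets _) (meets_of_mem rfl)
    · intro i z z'
      refine mem_fimp.2 fun p _ h => ⟨p, le_rfl, ?_⟩
      obtain ⟨_, _, s, hs, _⟩ := h.1 p le_rfl
      obtain ⟨_, _, s', hs', _⟩ := h.2 p le_rfl
      have e1 : z = (e0 i : K2) := hs
      have e2 : z' = (e0 i : K2) := hs'
      show z = z'
      rw [e1, e2]
    · intro z
      refine mem_fimp.2 fun p hp h => ⟨p, le_rfl, ?_⟩
      have hz : z < r3.δ := by
        by_contra hz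
        exact hcon p hp z (not_lt.1 hz) h
      refine mem_fex_of_mem (e0.symm ⟨z, hz⟩) (down_meets _) (meets_of_mem ?_)
      show z = (e0 (e0.symm ⟨z, hz⟩) : K2)
      rw [Equiv.apply_symm_apply]
  haveI : NoMaxOrder K2 := Cardinal.noMaxOrder (Cardinal.aleph0_le_aleph 2)
  obtain ⟨β, hβ⟩ := exists_gt x
  obtain ⟨r5, h54, hβ5⟩ := NC.extend r4 β
  have hx5 : x < r5.δ := hβ.trans_le hβ5
  have h53 : r5 ≤ r3 := h54.trans h43
  have hsp := h53.split (Set.range y) (Set.mem_insert _ _) x hx hx5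
  obtain ⟨⟨_, ⟨w, rfl⟩, hw⟩, ⟨_, ⟨w2, rfl⟩, hw2⟩⟩ := hsp
  have hd5 : ∀ w, y w ∈ r5.d := fun w => h53.d (Or.inr ⟨w, rfl⟩)
  have hA5 : r5 ∈ meets (A x) := down_meets _ _ hxA _ h54
  have hB5 : ∀ w, r5 ∈ meets (B (y w)) := fun w => down_meets _ _ (hyB w) _ (h53.trans h32)
  rcases halt with halt | halt
  · obtain ⟨r6, h65, h6⟩ := mem_fimp.1 (halt x (y w2)) r5 (h53.trans h30) ⟨hA5, hB5 w2⟩
    obtain ⟨r7, h76, h7⟩ := exists_of_meets (hc x (y w2)) h6
    have h75 : r7 ≤ r5 := h76.trans h65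
    exact hw2 ((h75.g x hx5 (y w2) (hd5 w2)).1 h7.2.2)
  · obtain ⟨r6, h65, h6⟩ := mem_fimp.1 (halt x (y w)) r5 (h53.trans h30) ⟨hA5, hB5 w⟩
    have h5c : r5 ∈ c x (y w) := ⟨hx5, hd5 w, hw⟩
    exact h6 r6 le_rfl (meets_of_mem (hc x (y w) _ h5c _ h65))

theorem h3aux : (ℵ_ 3 : Cardinal.{0}) = Order.succ (ℵ_ 2) := by
  rw [succ_aleph]
  congr 1

theorem h2aux : (ℵ_ 2 : Cardinal.{0}) = Order.succ ℵ₁ := by
  rw [succ_aleph]
  congr 1
  norm_num

theorem pow_le_aux (hGCH : ∀ ν : Cardinal.{0}, ℵ₀ ≤ ν → 2 ^ ν = Order.succ ν) :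
    (ℵ_ 3 : Cardinal.{0}) ^ (ℵ₁ : Cardinal.{0}) ≤ ℵ_ 3 := by
  have e : (ℵ_ 3 : Cardinal.{0}) = 2 ^ (ℵ_ 2 : Cardinal.{0}) := by
    rw [hGCH _ (aleph0_le_aleph 2), h3aux]
  have e2 : (ℵ_ 2 : Cardinal.{0}) * ℵ₁ = ℵ_ 2 :=
    mul_eq_left (aleph0_le_aleph 2) (by rw [h2aux]; exact Order.le_succ _)
      (aleph_pos 1).ne'
  rw [e, ← power_mul, e2]

theorem small_sets_aux (hGCH : ∀ ν : Cardinal.{0}, ℵ₀ ≤ ν → 2 ^ ν = Order.succ ν)
    (α : Type) (h : #α ≤ ℵ_ 3) : #{t : Set α // #t ≤ ℵ₁} ≤ ℵ_ 3 := by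
  refine (mk_bounded_set_le α ℵ₁).trans ?_
  have h1 : max #α ℵ₀ ≤ ℵ_ 3 := max_le h (aleph0_le_aleph 3)
  exact (power_le_power_right h1).trans (pow_le_aux hGCH)


theorem NC.mk_le (hGCH : ∀ ν : Cardinal.{0}, ℵ₀ ≤ ν → 2 ^ ν = Order.succ ν) :
    #(NC K2 L3) ≤ ℵ_ 3 := by
  have hK : #K2 = ℵ_ 2 := by simp [K2]
  have hL : #L3 = ℵ_ 3 := by simp [L3]
  have h23 : (ℵ_ 2 : Cardinal.{0}) ≤ ℵ_ 3 := by rw [h3aux]; exact Order.le_succ _
  have h03 : ℵ₀ ≤ (ℵ_ 3 : Cardinal.{0}) := aleph0_le_aleph 3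
  have c1 : #{t : Set L3 // #t ≤ ℵ₁} ≤ ℵ_ 3 := small_sets_aux hGCH L3 hL.le
  have c2 : #{t : Set (K2 × L3) // #t ≤ ℵ₁} ≤ ℵ_ 3 := by
    refine small_sets_aux hGCH _ ?_
    rw [mk_prod, lift_id, lift_id, hK, hL]
    exact (mul_le_mul' h23 le_rfl).trans (mul_eq_self h03).le
  have c3 : #{t : Set {t : Set L3 // #t ≤ ℵ₁} // #t ≤ ℵ₁} ≤ ℵ_ 3 := small_sets_aux hGCH _ c1
  have hg : ∀ p : NC K2 L3, #p.g ≤ ℵ₁ := by
    intro p
    have h1 : p.g ⊆ Set.Iio p.δ ×ˢ p.d := fun t ht => ⟨(p.hg t ht).1, (p.hg t ht).2⟩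
    refine (mk_le_mk_of_subset h1).trans ?_
    have h2 : #(Set.Iio p.δ) ≤ ℵ₁ := by
      have h3 : #(Set.Iio p.δ) < ℵ_ 2 := mk_Iio_toType_ord_lt p.δ
      exact Order.lt_succ_iff.1 (h3.trans_eq h2aux)
    rw [mk_setProd]
    exact (mul_le_mul' h2 p.hd).trans (mul_eq_self (aleph0_le_aleph 1)).le
  let F : NC K2 L3 → K2 × {t : Set L3 // #t ≤ ℵ₁} × {t : Set (K2 × L3) // #t ≤ ℵ₁} ×
      {t : Set {t : Set L3 // #t ≤ ℵ₁} // #t ≤ ℵ₁} := fun p =>
    (p.δ, ⟨p.d, p.hd⟩, ⟨p.g, hg p⟩, ⟨Subtype.val ⁻¹' p.b,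
      (mk_preimage_of_injective _ _ Subtype.val_injective).trans p.hb⟩)
  have hF : Function.Injective F := by
    intro p q h
    have e1 : p.δ = q.δ := congrArg (fun t => t.1) h
    have e2 : p.d = q.d := congrArg (fun t => t.2.1.1) h
    have e3 : p.g = q.g := congrArg (fun t => t.2.2.1.1) h
    have e4 : (Subtype.val ⁻¹' p.b : Set {t : Set L3 // #t ≤ ℵ₁}) = Subtype.val ⁻¹' q.b :=
      congrArg (fun t => t.2.2.2.1) h
    have e5 : p.b = q.b := by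
      ext B
      constructor
      · intro hB
        have h1 : #B ≤ ℵ₁ := (mk_le_mk_of_subset (p.hB B hB).1).trans p.hd
        have h2 : (⟨B, h1⟩ : {t : Set L3 // #t ≤ ℵ₁}) ∈
            (Subtype.val ⁻¹' p.b : Set {t : Set L3 // #t ≤ ℵ₁}) := hB
        rw [e4] at h2
        exact h2
      · intro hB
        have h1 : #B ≤ ℵ₁ := (mk_le_mk_of_subset (q.hB B hB).1).trans q.hd
        have h2 : (⟨B, h1⟩ : {t : Set L3 // #t ≤ ℵ₁}) ∈
            (Subtype.val ⁻¹' q.b : Set {t : Set L3 // #t ≤ ℵ₁}) := hB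
        rw [← e4] at h2
        exact h2
    cases p
    cases q
    simp only at e1 e2 e3 e5
    subst e1 e2 e3 e5
    rfl
  refine (mk_le_of_injective hF).trans ?_
  rw [mk_prod, mk_prod, mk_prod]
  simp only [lift_id]
  have h4 : ∀ a b : Cardinal.{0}, a ≤ ℵ_ 3 → b ≤ ℵ_ 3 → a * b ≤ ℵ_ 3 := fun a b ha hb =>
    (mul_le_mul' ha hb).trans (mul_eq_self h03).le
  exact h4 _ _ (hK.le.trans h23) (h4 _ _ c1 (h4 _ _ c2 c3))

theorem succ_aleph_one_aux : Order.succ (ℵ₁ : Cardinal.{0}) = ℵ_ 2 := by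
  rw [Cardinal.succ_aleph]
  congr 1
  norm_num

theorem succ_aleph_two_aux : Order.succ (ℵ_ 2 : Cardinal.{0}) = ℵ_ 3 := by
  rw [Cardinal.succ_aleph]
  have h : (2 : Ordinal.{0}) + 1 = 3 := by norm_num
  exact congrArg _ h



theorem NC.forcesGCH (hGCH : ∀ ν : Cardinal.{0}, ℵ₀ ≤ ν → 2 ^ ν = Order.succ ν)
    (q : NC K2 L3) : q ∈ ForcesGCH (NC K2 L3) := by
  intro ν hν
  have hpow : 2 ^ ν = Order.succ ν := hGCH ν hν
  have hdown : Down (fand (PowOnto (NC K2 L3) ν (Order.succ ν))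
      (CollapsedTo (NC K2 L3) ν (Order.succ ν))) :=
    down_fand (down_fex _) (down_fall fun _ => down_fall fun _ => down_fex _)
  refine mem_fex_of_mem (Order.succ ν) hdown ⟨?_, ?_⟩
  · by_cases h2 : ν < ℵ_ 2
    · exact powOnto_of_dirClosed (χ := ℵ_ 2) (aleph0_le_aleph _) NC.dirClosed h2 hpow.le q
    · have h2' : ℵ_ 2 ≤ ν := not_lt.1 h2
      have hCH : (2 : Cardinal.{0}) ^ (ℵ₁ : Cardinal.{0}) = ℵ_ 2 := by
        rw [hGCH ℵ₁ (aleph0_le_aleph _), succ_aleph_one_aux]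
      have h22 : (2 : Cardinal.{0}) ^ (ℵ_ 2 : Cardinal.{0}) = ℵ_ 3 := by
        rw [hGCH _ (aleph0_le_aleph _), succ_aleph_two_aux]
      have h3 : (ℵ_ 3 : Cardinal.{0}) ≤ Order.succ ν := by
        rw [← succ_aleph_two_aux]
        exact Order.succ_le_succ h2'
      have hQ : #(NC K2 L3) ≤ 2 ^ ν := (NC.mk_le hGCH).trans (h3.trans hpow.ge)
      obtain ⟨F, hF⟩ := exists_nice_enum (Q := NC K2 L3) (χ := ℵ_ 3) (ν := ν) (μ := Order.succ ν)
        (NC.cc hCH) ((card_nice' hν hQ h3).trans hpow.le) (Order.succ_ne_bot ν)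
      refine mem_fex_of_mem F (down_fall fun X => down_fex _) fun X => ?_
      obtain ⟨i, hi⟩ := hF X
      refine mem_fex_of_mem i ?_ (hi q)
      exact down_fand (down_fall fun _ => down_fimp _ _) (down_fall fun _ => down_fimp _ _)
  · intro ρ hρ
    have hρ' : ρ ≤ ν := Order.lt_succ_iff.1 hρ
    have hle : #(ρ.out) ≤ #(ν.ord.ToType) := by
      rw [Cardinal.mk_out, Cardinal.mk_ord_toType]
      exact hρ'
    obtain ⟨g⟩ := Cardinal.le_def _ _ |>.1 hle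
    refine mem_fex_of_mem (fun x y => {_q | x = g y})
      (down_fand (down_fall fun _ => down_fall fun _ => down_fall fun _ => down_fimp _ _)
        (down_IsOnto _)) ⟨?_, ?_⟩
    · intro x y y'
      refine mem_fimp.2 fun r hr h => ⟨r, le_rfl, ?_⟩
      obtain ⟨_, _, s, hs, _⟩ := h.1 r le_rfl
      obtain ⟨_, _, s', hs', _⟩ := h.2 r le_rfl
      have e1 : x = g y := hs
      have e2 : x = g y' := hs'
      exact g.injective (e1.symm.trans e2)
    · intro y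
      exact mem_fex_of_mem (g y) (down_meets _) (meets_of_mem (show g y = g y from rfl))


/-- Under GCH, a forcing notion preserving GCH which forces that the polarized relation fails. -/
theorem negative_forcing (hGCH : ∀ ν : Cardinal.{0}, ℵ₀ ≤ ν → 2 ^ ν = Order.succ ν) :
    ∃ (P : Type) (_ : Preorder P), Nonempty P ∧ ∀ p : P,
      (∀ μ : Cardinal.{0}, μ.IsRegular → ℵ₀ < μ → p ∈ StaysRegular P μ) ∧
      p ∈ ForcesGCH P ∧
      p ∈ fnot (PolarizedRel P (ℵ_ 2 : Cardinal.{0}).ord.ToType (ℵ_ 3 : Cardinal.{0}).ord.ToType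
        (ℵ₁ : Cardinal.{0}).ord.ToType) := by
  have hne : Nonempty (NC K2 L3) := by
    have h2 : Nonempty K2 := by
      rw [← Cardinal.mk_ne_zero_iff, mk_ord_toType]
      exact (Cardinal.aleph_pos 2).ne'
    obtain ⟨δ⟩ := h2
    exact ⟨⟨δ, ∅, ∅, ∅, by simp, fun t ht => ht.elim, by simp, fun B hB => hB.elim⟩⟩
  have e1 : Order.succ (ℵ₁ : Cardinal.{0}) = ℵ_ 2 := by
    rw [← Cardinal.aleph_succ]
    congr 1
    norm_num
  have hreg : ∀ μ : Cardinal.{0}, μ.IsRegular → DirClosed μ (NC K2 L3) → ∀ p : NC K2 L3,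
      p ∈ StaysRegular (NC K2 L3) μ := by
    intro μ hμ hc p
    exact staysRegular_proj hμ
      (fun N D hN hd hdense q => exists_forall_mem hμ.aleph0_le hc hN D hd hdense q)
      id (fun a b h => h) (fun a q' h => ⟨q', h, le_rfl⟩) (fun q' => ⟨q', le_rfl⟩) p
  have e2 : Order.succ (ℵ_ 2 : Cardinal.{0}) = ℵ_ 3 := by
    rw [← Cardinal.aleph_succ]
    congr 1
  have hCH : (2 : Cardinal.{0}) ^ (ℵ₁ : Cardinal.{0}) = ℵ_ 2 := by
    rw [hGCH _ (Cardinal.aleph0_le_aleph 1), e1]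
  refine ⟨NC K2 L3, inferInstance, hne, fun p => ⟨?_, ?_, ?_⟩⟩
  · intro μ hμ h0
    by_cases h2 : μ ≤ ℵ_ 2
    · exact hreg _ hμ (fun D hD => NC.dirClosed D (hD.trans_le h2)) p
    · have h3 : (ℵ_ 3 : Cardinal.{0}) ≤ μ := by
        rw [← e2]
        exact Order.succ_le_of_lt (not_le.1 h2)
      exact staysRegular_of_cc' hμ (fun ι f hf => NC.cc hCH ι f (h3.trans hf)) p
  · exact NC.forcesGCH hGCH p
  · exact NC.negative p

end Pool.Agent.Helper669.V
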