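import Mathlib
import Pool.Agent.Helper669.VFinal

set_option autoImplicit false

/-!
# Systems of decompositions and the polarized relation, in a forcing extension
-/

namespace Pool.Agent.Helper669.V

open Cardinal Pool.Agent.Helper669.Forcing Pool.Agent.Helper669.K Pool.Agent.Helper669.U


/-- The relation `|S| ↛ (|Y|, |I|, |W|, |S|)`: for every family `a β : S → Y` (`β ∈ I`) of
decompositions of `S` into pieces indexed by `Y`, there are a set `J ⊆ I` of the size of `W` and a
choice `f β` of a piece for each `β` such that the set of the elements of `S` which are in none of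
the chosen pieces with `β ∈ J` has the size of `S`. -/
def NoSystem (P : Type) [Preorder P] (S Y I W : Type) : Set P :=
  fall fun a : I → S → Y → Set P => fimp (fall fun β => IsFun (a β))
    (fex fun J : I → Set P => fex fun f : I → Y → Set P =>
      fand (SameSize (K := W) J) (fand (IsFun f)
        (HasFullSize fun x => fall fun β => fimp (meets (J β))
          (fall fun z => fimp (meets (f β z)) (fnot (meets (a β x z)))))))


theorem hasFullSize_mono_aux {Q : Type} [Preorder Q] {S : Type} {A A' : S → Set Q} {s : Q}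
    (h : s ∈ HasFullSize A) (hm : ∀ x, ∀ t ≤ s, t ∈ meets (A x) → t ∈ meets (A' x)) :
    s ∈ HasFullSize A' := by
  intro ν hν t ht hfe
  refine h ν hν t ht ?_
  rw [mem_fex] at hfe ⊢
  intro q hq
  obtain ⟨r, hr, R, hR1, hR2⟩ := hfe q hq
  refine ⟨r, hr, R, hR1, ?_⟩
  intro y
  rw [mem_fimp]
  intro q' hq' hA
  exact mem_fimp.1 (hR2 y) q' hq' (hm y q' (hq'.trans (hr.trans (hq.trans ht))) hA)

theorem down_hasFullSize_aux {Q : Type} [Preorder Q] {S : Type} (A : S → Set Q) :
    Down (HasFullSize A) :=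
  down_fall fun _ => down_fall fun _ => down_fnot _

theorem isFun_const_aux {Q : Type} [Preorder Q] {I Y : Type} (z1 : Y) (s : Q) :
    s ∈ IsFun (fun (_ : I) (z : Y) => ({_q | z = z1} : Set Q)) := by
  refine ⟨?_, ?_⟩
  · intro b
    refine mem_fex_of_mem z1 (down_meets _) (meets_of_mem ?_)
    rfl
  · intro b y y'
    rw [mem_fimp]
    rintro q hq ⟨h1, h2⟩
    obtain ⟨_, _, _, e1, _⟩ := h1 q le_rfl
    obtain ⟨_, _, _, e2, _⟩ := h2 q le_rfl
    have e1' : y = z1 := e1
    have e2' : y' = z1 := e2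
    exact ⟨q, le_rfl, e1'.trans e2'.symm⟩

/-- The polarized relation refutes the decomposition relation (with at least two pieces). -/
theorem noSystem_of_polarizedRel {Q : Type} [Preorder Q] {S Y I W : Type} [Nontrivial Y] (q : Q)
    (h : q ∈ PolarizedRel Q S I W) : q ∈ NoSystem Q S Y I W := by
  obtain ⟨z0, z1, hz⟩ := exists_pair_ne Y
  intro a
  rw [mem_fimp]
  intro q1 hq1 ha
  obtain ⟨r0, hr0, A, hA0⟩ := mem_fex.1 (h (fun x b => a b x z0)) q1 hq1
  obtain ⟨r, hr, B, hAfull, hBsize, hor⟩ := mem_fex.1 hA0 r0 le_rfl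
  have hor' : (∃ s ≤ r, s ∈ (fall fun x => fall fun y =>
      fimp (fand (meets (A x)) (meets (B y))) (meets (a y x z0)))) ∨
      (∃ s ≤ r, s ∈ (fall fun x => fall fun y =>
      fimp (fand (meets (A x)) (meets (B y))) (fnot (meets (a y x z0))))) := by
    by_contra hcon
    push Not at hcon
    exact hor r le_rfl ⟨fun s hs => hcon.1 s hs, fun s hs => hcon.2 s hs⟩
  have hdown : ∀ (J : I → Set Q) (f : I → Y → Set Q), Down
      (fand (SameSize (K := W) J) (fand (IsFun f)
        (HasFullSize fun x => fall fun β => fimp (meets (J β))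
          (fall fun z => fimp (meets (f β z)) (fnot (meets (a β x z))))))) := by
    intro J f
    exact down_fand (down_fex _) (down_fand (down_IsFun _) (down_hasFullSize_aux _))
  rcases hor' with ⟨s, hs, hφ⟩ | ⟨s, hs, hφ⟩
  · refine ⟨s, hs.trans (hr.trans hr0), ?_⟩
    refine mem_fex_of_mem B (down_fex _) ?_
    refine mem_fex_of_mem (fun _ z => {_q | z = z1}) (hdown _ _) ?_
    refine ⟨down_fex _ _ hBsize _ hs, isFun_const_aux z1 s, ?_⟩
    refine hasFullSize_mono_aux (down_hasFullSize_aux A _ hAfull _ hs) ?_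
    intro x t ht hAx
    apply meets_of_mem
    intro β
    rw [mem_fimp]
    intro p hp hB
    obtain ⟨u, hu, hu1⟩ := mem_fimp.1 (hφ x β) p (hp.trans ht) ⟨down_meets _ _ hAx _ hp, hB⟩
    refine ⟨u, hu, ?_⟩
    intro z
    rw [mem_fimp]
    intro q' hq' hf
    obtain ⟨_, _, _, e1, _⟩ := hf q' le_rfl
    have e1' : z = z1 := e1
    subst e1'
    refine ⟨q', le_rfl, ?_⟩
    intro w hw hmw
    have hle : w ≤ q1 := hw.trans (hq'.trans (hu.trans (hp.trans (ht.trans
      (hs.trans (hr.trans hr0))))))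
    have hfun : w ∈ IsFun (a β) := down_IsFun _ _ (ha β) _ hle
    have := IsFun.unique hfun (down_meets _ _ hu1 _ (hw.trans hq')) hmw
    exact hz this
  · refine ⟨s, hs.trans (hr.trans hr0), ?_⟩
    refine mem_fex_of_mem B (down_fex _) ?_
    refine mem_fex_of_mem (fun _ z => {_q | z = z0}) (hdown _ _) ?_
    refine ⟨down_fex _ _ hBsize _ hs, isFun_const_aux z0 s, ?_⟩
    refine hasFullSize_mono_aux (down_hasFullSize_aux A _ hAfull _ hs) ?_
    intro x t ht hAx
    apply meets_of_mem
    intro β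
    rw [mem_fimp]
    intro p hp hB
    obtain ⟨u, hu, hu1⟩ := mem_fimp.1 (hφ x β) p (hp.trans ht) ⟨down_meets _ _ hAx _ hp, hB⟩
    refine ⟨u, hu, ?_⟩
    intro z
    rw [mem_fimp]
    intro q' hq' hf
    obtain ⟨_, _, _, e1, _⟩ := hf q' le_rfl
    have e1' : z = z0 := e1
    subst e1'
    exact ⟨q', le_rfl, down_fnot _ _ hu1 _ hq'⟩


end Pool.Agent.Helper669.V
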